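import Mathlib

set_option autoImplicit false

/-!
# Three generalisations of primitivity: definitions
-/

namespace Pool.Agent.H922

open Equiv MulAction
open scoped Pointwise

/-- `IsSteiner t k 𝓑`: the set `𝓑` of blocks is a Steiner system `S(t, k, n)` on `X`, that is,
all blocks have `k` points and every set of `t` points is contained in exactly one block. -/
def IsSteiner {X : Type*} (t k : ℕ) (𝓑 : Set (Finset X)) : Prop :=
  (∀ B ∈ 𝓑, B.card = k) ∧ ∀ T : Finset X, T.card = t → ∃! B, B ∈ 𝓑 ∧ T ⊆ B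

/-- `G` is `t`-transitive on `X`. -/
def TTransitive {X : Type*} (G : Subgroup (Perm X)) (t : ℕ) : Prop :=
  t ≤ Nat.card X ∧ IsMultiplyPretransitive G X t

/-- `G` is `t`-primitive: the pointwise stabiliser in `G` of any `t - 1` points acts primitively on
the remaining points. -/
def TPrimitive {X : Type*} (G : Subgroup (Perm X)) (t : ℕ) : Prop :=
  ∀ s : Set X, s.encard + 1 = t →
    IsPreprimitive (fixingSubgroup G s) (SubMulAction.ofFixingSubgroup G s)

/-- `G` is `t`-set primitive: `G` acts primitively on the set `X(t)` of all `t`-subsets of `X`. -/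
def TSetPrimitive {X : Type*} [DecidableEq X] (G : Subgroup (Perm X)) (t : ℕ) : Prop :=
  IsPreprimitive G (Set.powersetCard X t)

/-- `G` is `t`-Steiner primitive: there is no Steiner system `S(t, k, n)` on `X` with `t < k < n`
whose blocks are permuted by `G`. -/
def TSteinerPrimitive {X : Type*} (G : Subgroup (Perm X)) (t : ℕ) : Prop :=
  ¬ ∃ (k : ℕ) (𝓑 : Set (Finset X)), t < k ∧ k < Nat.card X ∧ IsSteiner t k 𝓑 ∧
    ∀ g ∈ G, ∀ B ∈ 𝓑, B.map g.toEmbedding ∈ 𝓑

/-- type (a): `t`-primitive but not `t`-set primitive -/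
def ExcA {X : Type*} [DecidableEq X] (G : Subgroup (Perm X)) (t : ℕ) : Prop :=
  TPrimitive G t ∧ ¬ TSetPrimitive G t

/-- type (b): `t`-set primitive but not `t`-primitive -/
def ExcB {X : Type*} [DecidableEq X] (G : Subgroup (Perm X)) (t : ℕ) : Prop :=
  TSetPrimitive G t ∧ ¬ TPrimitive G t

/-- type (c): `t`-Steiner primitive but not `t`-primitive -/
def ExcC {X : Type*} (G : Subgroup (Perm X)) (t : ℕ) : Prop :=
  TSteinerPrimitive G t ∧ ¬ TPrimitive G t

/-- type (d): `t`-Steiner primitive but not `t`-set primitive -/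
def ExcD {X : Type*} [DecidableEq X] (G : Subgroup (Perm X)) (t : ℕ) : Prop :=
  TSteinerPrimitive G t ∧ ¬ TSetPrimitive G t

/-- `H` has a nontrivial soluble normal subgroup -/
def HasSol (H : Type*) [Group H] : Prop := ∃ S : Subgroup H, S.Normal ∧ S ≠ ⊥ ∧ Group.IsSolvable S

end Pool.Agent.H922
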