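import Mathlib
import Pool.Agent.H922.Base

set_option autoImplicit false

/-!
# Three generalisations of primitivity: elementary reformulations
-/

namespace Pool.Agent.H922

open Equiv MulAction
open scoped Pointwise

/-! ### Elementary reformulations -/

/-- primitivity in terms of invariant equivalence relations -/
theorem isPreprimitive_iff {G Y : Type*} [Group G] [MulAction G Y] :
    IsPreprimitive G Y ↔ IsPretransitive G Y ∧ ∀ r : Setoid Y,
      (∀ (g : G) (x y : Y), r x y → r (g • x) (g • y)) →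
        (∀ x y, r x y → x = y) ∨ (∀ x y, r x y) := by
  constructor
  · intro h
    refine ⟨h.toIsPretransitive, fun r hr => ?_⟩
    by_contra hcon
    push Not at hcon
    obtain ⟨⟨a, b, hab, hne⟩, ⟨c, d, hcd⟩⟩ := hcon
    obtain ⟨g, hg⟩ := exists_smul_eq G c a
    have hB : IsBlock G {y | r a y} := by
      rw [isBlock_iff_smul_eq_of_nonempty]
      rintro g ⟨z, hz1, hz2⟩
      rw [Set.mem_smul_set] at hz1
      obtain ⟨w, hw, rfl⟩ := hz1
      simp only [Set.mem_ofPred_eq] at hw hz2
      have h1 : r a (g • a) := r.trans hz2 (r.symm (hr g _ _ hw))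
      ext y
      rw [Set.mem_smul_set_iff_inv_smul_mem]
      simp only [Set.mem_ofPred_eq]
      constructor
      · intro hy
        have := hr g _ _ hy
        rw [smul_inv_smul] at this
        exact r.trans h1 this
      · intro hy
        have h2 := hr g⁻¹ _ _ (r.trans (r.symm h1) hy)
        rwa [inv_smul_smul] at h2
    rcases h.isTrivialBlock_of_isBlock hB with h1 | h1
    · exact hne (h1 (r.refl a) hab)
    · apply hcd
      have h2 : g • d ∈ {y | r a y} := by rw [h1]; trivial
      have h3 := hr g⁻¹ _ _ h2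
      rwa [← hg, inv_smul_smul, inv_smul_smul] at h3
  · rintro ⟨htr, h⟩
    refine { toIsPretransitive := htr, isTrivialBlock_of_isBlock := ?_ }
    intro B hB
    by_cases hBe : B.Nonempty
    swap
    · left
      rw [Set.not_nonempty_iff_eq_empty] at hBe
      rw [hBe]
      exact Set.subsingleton_empty
    obtain ⟨a, ha⟩ := hBe
    let r : Setoid Y := {
      r := fun x y => ∀ g : G, x ∈ g • B ↔ y ∈ g • B
      iseqv := ⟨fun x g => Iff.rfl, fun hxy g => (hxy g).symm,
        fun hxy hyz g => (hxy g).trans (hyz g)⟩ }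
    have hinv : ∀ (g : G) (x y : Y), r x y → r (g • x) (g • y) := by
      intro g x y hxy k
      have := hxy (g⁻¹ * k)
      rw [mul_smul, Set.mem_inv_smul_set_iff, Set.mem_inv_smul_set_iff] at this
      exact this
    have hBr : ∀ x ∈ B, ∀ y ∈ B, r x y := by
      intro x hx y hy g
      constructor
      · intro hxg
        have : (g • B ∩ B).Nonempty := ⟨x, hxg, hx⟩
        rw [(isBlock_iff_smul_eq_of_nonempty.mp hB) this]
        exact hy
      · intro hyg
        have : (g • B ∩ B).Nonempty := ⟨y, hyg, hy⟩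
        rw [(isBlock_iff_smul_eq_of_nonempty.mp hB) this]
        exact hx
    rcases h r hinv with h1 | h1
    · left
      intro x hx y hy
      exact h1 x y (hBr x hx y hy)
    · right
      ext y
      simp only [Set.mem_univ, iff_true]
      have := (h1 a y 1)
      rw [one_smul] at this
      exact this.mp ha

/-- the pointwise stabiliser of `s` in `G` acts primitively on the complement of `s`:
elementary form -/
def PrimOff {X : Type*} (G : Subgroup (Perm X)) (s : Set X) : Prop :=
  (∀ x, x ∉ s → ∀ y, y ∉ s → ∃ g ∈ G, (∀ z ∈ s, g z = z) ∧ g x = y) ∧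
  ∀ r : X → X → Prop, (∀ x, x ∉ s → r x x) → (∀ x, x ∉ s → ∀ y, y ∉ s → r x y → r y x) →
    (∀ x, x ∉ s → ∀ y, y ∉ s → ∀ z, z ∉ s → r x y → r y z → r x z) →
    (∀ g ∈ G, (∀ z ∈ s, g z = z) → ∀ x, x ∉ s → ∀ y, y ∉ s → r x y → r (g x) (g y)) →
    (∀ x, x ∉ s → ∀ y, y ∉ s → r x y → x = y) ∨ (∀ x, x ∉ s → ∀ y, y ∉ s → r x y)

theorem primOff_iff {X : Type*} (G : Subgroup (Perm X)) (s : Set X) :
    IsPreprimitive (fixingSubgroup G s) (SubMulAction.ofFixingSubgroup G s) ↔ PrimOff G s := by
  rw [isPreprimitive_iff]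
  constructor
  · rintro ⟨htr, h⟩
    refine ⟨?_, ?_⟩
    · intro x hx y hy
      obtain ⟨g, hg⟩ := htr.exists_smul_eq
        (⟨x, hx⟩ : SubMulAction.ofFixingSubgroup G s) ⟨y, hy⟩
      refine ⟨(g : G), (g : G).2, ?_, ?_⟩
      · intro z hz
        exact (mem_fixingSubgroup_iff G).mp g.2 z hz
      · have := congrArg (fun w : SubMulAction.ofFixingSubgroup G s => (w : X)) hg
        exact this
    · intro r h1 h2 h3 h4
      let R : Setoid (SubMulAction.ofFixingSubgroup G s) := {
        r := fun x y => r x y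
        iseqv := ⟨fun x => h1 x x.2, fun {x y} hxy => h2 x x.2 y y.2 hxy,
          fun {x y z} hxy hyz => h3 x x.2 y y.2 z z.2 hxy hyz⟩ }
      rcases h R (fun g x y hxy => h4 (g : G) (g : G).2
        (fun z hz => (mem_fixingSubgroup_iff G).mp g.2 z hz) x x.2 y y.2 hxy) with h5 | h5
      · left
        intro x hx y hy hxy
        have := h5 ⟨x, hx⟩ ⟨y, hy⟩ hxy
        exact congrArg Subtype.val this
      · right
        intro x hx y hy
        exact h5 ⟨x, hx⟩ ⟨y, hy⟩
  · rintro ⟨htr, h⟩
    refine ⟨⟨?_⟩, ?_⟩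
    · rintro ⟨x, hx⟩ ⟨y, hy⟩
      obtain ⟨g, hg, hgs, hgx⟩ := htr x hx y hy
      refine ⟨⟨⟨g, hg⟩, ?_⟩, ?_⟩
      · rw [mem_fixingSubgroup_iff]
        exact hgs
      · exact Subtype.ext hgx
    · intro R hR
      classical
      let r : X → X → Prop := fun x y => ∃ (hx : x ∉ s) (hy : y ∉ s), R ⟨x, hx⟩ ⟨y, hy⟩
      rcases h r (fun x hx => ⟨hx, hx, R.refl _⟩)
        (fun x hx y hy ⟨_, _, hxy⟩ => ⟨hy, hx, R.symm hxy⟩)
        (fun x hx y hy z hz ⟨_, _, hxy⟩ ⟨_, _, hyz⟩ => ⟨hx, hz, R.trans hxy hyz⟩)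
        (fun g hg hgs x hx y hy ⟨_, _, hxy⟩ => by
          have hk : (⟨g, hg⟩ : G) ∈ fixingSubgroup G s := by
            rw [mem_fixingSubgroup_iff]; exact hgs
          have := hR ⟨⟨g, hg⟩, hk⟩ _ _ hxy
          exact ⟨_, _, this⟩) with h5 | h5
      · left
        rintro ⟨x, hx⟩ ⟨y, hy⟩ hxy
        exact Subtype.ext (h5 x hx y hy ⟨hx, hy, hxy⟩)
      · right
        rintro ⟨x, hx⟩ ⟨y, hy⟩
        obtain ⟨_, _, h6⟩ := h5 x hx y hy
        exact h6

/-- `t`-primitivity, elementary form -/
theorem tPrimitive_iff {X : Type*} (G : Subgroup (Perm X)) (t : ℕ) :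
    TPrimitive G t ↔ ∀ s : Finset X, s.card + 1 = t → PrimOff G (s : Set X) := by
  constructor
  · intro h s hs
    rw [← primOff_iff]
    apply h
    rw [Set.encard_coe_eq_coe_finsetCard, ← hs]
    push_cast
    rfl
  · intro h s hs
    have hfin : s.Finite := by
      rw [← Set.encard_ne_top_iff]
      intro htop
      rw [htop] at hs
      simp at hs
    rw [primOff_iff]
    have := h hfin.toFinset (by
      have h1 : s.encard = (hfin.toFinset.card : ℕ∞) := by
        rw [← Set.encard_coe_eq_coe_finsetCard, Set.Finite.coe_toFinset]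
      rw [h1] at hs
      exact_mod_cast hs)
    rwa [Set.Finite.coe_toFinset] at this

/-- `t`-set primitivity, elementary form -/
theorem tSetPrimitive_iff {X : Type*} [DecidableEq X] (G : Subgroup (Perm X)) (t : ℕ) :
    TSetPrimitive G t ↔
      (∀ S T : Finset X, S.card = t → T.card = t → ∃ g ∈ G, S.map g.toEmbedding = T) ∧
      ∀ r : Finset X → Finset X → Prop, (∀ S, S.card = t → r S S) →
        (∀ S T, S.card = t → T.card = t → r S T → r T S) →
        (∀ S T U, S.card = t → T.card = t → U.card = t → r S T → r T U → r S U) →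
        (∀ g ∈ G, ∀ S T, S.card = t → T.card = t → r S T →
          r (S.map g.toEmbedding) (T.map g.toEmbedding)) →
        (∀ S T, S.card = t → T.card = t → r S T → S = T) ∨
          (∀ S T, S.card = t → T.card = t → r S T) := by
  have hsm : ∀ (g : G) (S : Finset X), g • S = S.map (g : Perm X).toEmbedding := by
    intro g S
    rw [Finset.smul_finset_def, Finset.map_eq_image]
    rfl
  unfold TSetPrimitive
  rw [isPreprimitive_iff]
  constructor
  · rintro ⟨htr, h⟩
    refine ⟨?_, ?_⟩
    · intro S T hS hT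
      obtain ⟨g, hg⟩ := htr.exists_smul_eq
        (⟨S, hS⟩ : Set.powersetCard X t) ⟨T, hT⟩
      refine ⟨g, g.2, ?_⟩
      have := congrArg (fun w : Set.powersetCard X t => (w : Finset X)) hg
      rw [← hsm]
      exact this
    · intro r h1 h2 h3 h4
      let R : Setoid (Set.powersetCard X t) := {
        r := fun x y => r x.1 y.1
        iseqv := ⟨fun x => h1 x.1 x.2, fun {x y} hxy => h2 x.1 y.1 x.2 y.2 hxy,
          fun {x y z} hxy hyz => h3 x.1 y.1 z.1 x.2 y.2 z.2 hxy hyz⟩ }
      rcases h R (fun g x y hxy => by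
        have := h4 g g.2 x.1 y.1 x.2 y.2 hxy
        rw [← hsm, ← hsm] at this
        exact this) with h5 | h5
      · left
        intro x y hx hy hxy
        have := h5 ⟨x, hx⟩ ⟨y, hy⟩ hxy
        exact congrArg Subtype.val this
      · right
        intro x y hx hy
        exact h5 ⟨x, hx⟩ ⟨y, hy⟩
  · rintro ⟨htr, h⟩
    refine ⟨⟨?_⟩, ?_⟩
    · rintro ⟨x, hx⟩ ⟨y, hy⟩
      obtain ⟨g, hg, hgx⟩ := htr x y hx hy
      refine ⟨⟨g, hg⟩, ?_⟩
      apply Subtype.ext
      exact (hsm ⟨g, hg⟩ x).trans hgx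
    · intro R hR
      let r : Finset X → Finset X → Prop :=
        fun x y => ∃ (hx : x.card = t) (hy : y.card = t), R ⟨x, hx⟩ ⟨y, hy⟩
      rcases h r (fun x hx => ⟨hx, hx, R.refl _⟩)
        (fun x y hx hy ⟨_, _, hxy⟩ => ⟨hy, hx, R.symm hxy⟩)
        (fun x y z hx hy hz ⟨_, _, hxy⟩ ⟨_, _, hyz⟩ => ⟨hx, hz, R.trans hxy hyz⟩)
        (fun g hg x y hx hy ⟨_, _, hxy⟩ => by
          have := hR ⟨g, hg⟩ _ _ hxy
          have e1 : ∀ (z : Finset X) (hz : z.card = t) (hz' : (z.map g.toEmbedding).card = t),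
              ((⟨g, hg⟩ : G) • (⟨z, hz⟩ : Set.powersetCard X t)) =
                (⟨z.map g.toEmbedding, hz'⟩ : Set.powersetCard X t) := by
            intro z hz hz'
            apply Subtype.ext
            exact hsm ⟨g, hg⟩ z
          have hx' : (x.map g.toEmbedding).card = t := by rw [Finset.card_map]; exact hx
          have hy' : (y.map g.toEmbedding).card = t := by rw [Finset.card_map]; exact hy
          refine ⟨hx', hy', ?_⟩
          rw [e1 x _ hx', e1 y _ hy'] at this
          exact this) with h5 | h5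
      · left
        rintro ⟨x, hx⟩ ⟨y, hy⟩ hxy
        exact Subtype.ext (h5 x y hx hy ⟨hx, hy, hxy⟩)
      · right
        rintro ⟨x, hx⟩ ⟨y, hy⟩
        obtain ⟨_, _, h6⟩ := h5 x y hx hy
        exact h6

/-- `t`-transitivity, elementary form -/
theorem multTrans_iff {X : Type*} (G : Subgroup (Perm X)) (t : ℕ) :
    IsMultiplyPretransitive G X t ↔ ∀ a b : Fin t → X, Function.Injective a →
      Function.Injective b → ∃ g ∈ G, ∀ i, g (a i) = b i := by
  rw [isMultiplyPretransitive_iff]
  constructor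
  · intro h a b ha hb
    obtain ⟨g, hg⟩ := h ⟨a, ha⟩ ⟨b, hb⟩
    refine ⟨g, g.2, fun i => ?_⟩
    have := congrArg (fun f : Fin t ↪ X => f i) hg
    exact this
  · intro h a b
    obtain ⟨g, hg, hgi⟩ := h a b a.injective b.injective
    exact ⟨⟨g, hg⟩, Function.Embedding.ext hgi⟩

end Pool.Agent.H922
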