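import Mathlib
import Pool.Agent.H922.Defs

set_option autoImplicit false
set_option linter.style.haveILetI false
set_option linter.unusedVariables false

/-!
# Three generalisations of primitivity: general lemmas
-/

namespace Pool.Agent.H922

open Equiv MulAction
open scoped Pointwise

section Agree

variable {X : Type*} {G : Subgroup (Perm X)}

/-- multiple transitivity gives elements with prescribed values on a small set -/
theorem exists_agree [Finite X] {m : ℕ} (hm : m ≤ Nat.card X)
    (h : IsMultiplyPretransitive G X m) (U : Finset X) (hU : U.card ≤ m) (f : X → X)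
    (hf : Set.InjOn f U) : ∃ g ∈ G, ∀ x ∈ U, g x = f x := by
  have h' : IsMultiplyPretransitive G X U.card := by
    haveI := h
    apply isMultiplyPretransitive_of_le (n := m) hU hm
  rw [multTrans_iff] at h'
  let e := U.equivFin
  obtain ⟨g, hg, hgi⟩ := h' (fun i => (e.symm i : X)) (fun i => f (e.symm i : X))
    (by
      intro i j hij
      have : e.symm i = e.symm j := Subtype.ext hij
      exact e.symm.injective this)
    (by
      intro i j hij
      have : e.symm i = e.symm j := Subtype.ext (hf (e.symm i).2 (e.symm j).2 hij)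
      exact e.symm.injective this)
  refine ⟨g, hg, fun x hx => ?_⟩
  have := hgi (e ⟨x, hx⟩)
  simpa using this

theorem exists_agree_perm [Finite X] {m : ℕ} (hm : m ≤ Nat.card X)
    (h : IsMultiplyPretransitive G X m) (U : Finset X) (hU : U.card ≤ m) (σ : Perm X) :
    ∃ g ∈ G, ∀ x ∈ U, g x = σ x :=
  exists_agree hm h U hU σ σ.injective.injOn

theorem map_eq_of_agree {U : Finset X} {g σ : Perm X} (h : ∀ x ∈ U, g x = σ x) :
    U.map g.toEmbedding = U.map σ.toEmbedding := by
  classical
  ext y
  simp only [Finset.mem_map, Equiv.coe_toEmbedding]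
  constructor
  · rintro ⟨x, hx, rfl⟩
    exact ⟨x, hx, (h x hx).symm⟩
  · rintro ⟨x, hx, rfl⟩
    exact ⟨x, hx, h x hx⟩

theorem mem_map_perm {U : Finset X} {g : Perm X} {x : X} :
    g x ∈ U.map g.toEmbedding ↔ x ∈ U := by
  simp

theorem mem_map_perm' {U : Finset X} {g : Perm X} {x : X} :
    x ∈ U.map g.toEmbedding ↔ g⁻¹ x ∈ U := by
  rw [← mem_map_perm (U := U) (g := g)]
  simp

theorem map_mul_perm {U : Finset X} {g h : Perm X} :
    (U.map h.toEmbedding).map g.toEmbedding = U.map (g * h).toEmbedding := by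
  ext x
  rw [mem_map_perm', mem_map_perm', mem_map_perm']
  simp [Perm.mul_apply, mul_inv_rev]

theorem map_one_perm {U : Finset X} : U.map (1 : Perm X).toEmbedding = U := by
  ext x
  rw [mem_map_perm']
  simp

theorem map_inv_perm {U V : Finset X} {g : Perm X} (h : U.map g.toEmbedding = V) :
    V.map (g⁻¹ : Perm X).toEmbedding = U := by
  rw [← h, map_mul_perm, inv_mul_cancel, map_one_perm]

theorem map_eq_self_of_fix {U : Finset X} {g : Perm X} (h : ∀ x ∈ U, g x = x) :
    U.map g.toEmbedding = U := by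
  have := map_eq_of_agree (U := U) (g := g) (σ := 1) (fun x hx => by rw [h x hx]; rfl)
  rw [this, map_one_perm]

end Agree

section Steiner

variable {X : Type*} {G : Subgroup (Perm X)}

/-- every `t`-primitive group is `t`-Steiner primitive -/
theorem TPrimitive.steiner [Finite X] {t : ℕ} (ht : 1 ≤ t) (h : TPrimitive G t) :
    TSteinerPrimitive G t := by
  classical
  haveI := Fintype.ofFinite X
  rintro ⟨k, 𝓑, htk, hkn, ⟨hB1, hB2⟩, hinv⟩
  rw [Nat.card_eq_fintype_card] at hkn
  rw [tPrimitive_iff] at h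
  -- choose a block and a set of `t - 1` points in it
  obtain ⟨T, hT⟩ : ∃ T : Finset X, T.card = t := by
    obtain ⟨T, _, hT⟩ := Finset.exists_subset_card_eq (s := (Finset.univ : Finset X)) (n := t)
      (by rw [Finset.card_univ]; omega)
    exact ⟨T, hT⟩
  obtain ⟨B, ⟨hB, hTB⟩, -⟩ := hB2 T hT
  obtain ⟨s, hsT, hs⟩ := Finset.exists_subset_card_eq (s := T) (n := t - 1) (by omega)
  have hsB : s ⊆ B := hsT.trans hTB
  obtain ⟨-, hp⟩ := h s (by omega)
  have hBk := hB1 B hB
  -- the block through `s` and `x`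
  have hblk : ∀ x, x ∉ s → ∃ C, C ∈ 𝓑 ∧ s ⊆ C ∧ x ∈ C ∧
      ∀ C', C' ∈ 𝓑 → s ⊆ C' → x ∈ C' → C' = C := by
    intro x hx
    obtain ⟨C, ⟨hC, hC'⟩, huniq⟩ := hB2 (insert x s) (by
      rw [Finset.card_insert_of_notMem hx]; omega)
    refine ⟨C, hC, fun y hy => hC' (Finset.mem_insert_of_mem hy),
      hC' (Finset.mem_insert_self _ _), fun C' hC'1 hC'2 hC'3 => ?_⟩
    apply huniq C' ⟨hC'1, ?_⟩
    intro y hy
    rcases Finset.mem_insert.mp hy with rfl | hy
    · exact hC'3
    · exact hC'2 hy
  rcases hp (fun x y => ∃ C, C ∈ 𝓑 ∧ s ⊆ C ∧ x ∈ C ∧ y ∈ C)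
    (fun x hx => by
      obtain ⟨C, h1, h2, h3, -⟩ := hblk x hx
      exact ⟨C, h1, h2, h3, h3⟩)
    (fun x _ y _ ⟨C, h1, h2, h3, h4⟩ => ⟨C, h1, h2, h4, h3⟩)
    (fun x _ y hy z _ ⟨C, h1, h2, h3, h4⟩ ⟨C', h1', h2', h3', h4'⟩ => by
      obtain ⟨D, -, -, -, hD⟩ := hblk y hy
      have e1 := hD C h1 h2 h4
      have e2 := hD C' h1' h2' h3'
      exact ⟨C, h1, h2, h3, by rw [e1, ← e2]; exact h4'⟩)
    (fun g hg hgs x _ y _ ⟨C, h1, h2, h3, h4⟩ => by
      refine ⟨C.map g.toEmbedding, hinv g hg C h1, ?_, mem_map_perm.mpr h3, mem_map_perm.mpr h4⟩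
      intro z hz
      have : g z = z := hgs z hz
      rw [← this]
      exact mem_map_perm.mpr (h2 hz)) with h1 | h1
  · -- two points of `B` outside `s`
    obtain ⟨x, hx, y, hy, hxy⟩ : ∃ x ∈ B \ s, ∃ y ∈ B \ s, x ≠ y := by
      have : 1 < (B \ s).card := by
        rw [Finset.card_sdiff_of_subset hsB]; omega
      obtain ⟨x, hx, y, hy, hxy⟩ := Finset.one_lt_card.mp this
      exact ⟨x, hx, y, hy, hxy⟩
    rw [Finset.mem_sdiff] at hx hy
    exact hxy (h1 x hx.2 y hy.2 ⟨B, hB, hsB, hx.1, hy.1⟩)
  · -- a point of `B` outside `s` and a point outside `B`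
    obtain ⟨x, hx⟩ : (B \ s).Nonempty := by
      rw [← Finset.card_pos, Finset.card_sdiff_of_subset hsB]; omega
    obtain ⟨y, hy⟩ : (Finset.univ \ B).Nonempty := by
      rw [← Finset.card_pos, Finset.card_sdiff_of_subset (Finset.subset_univ _),
        Finset.card_univ]
      omega
    rw [Finset.mem_sdiff] at hx hy
    obtain ⟨C, hC1, hC2, hC3, hC4⟩ := h1 x hx.2 y (fun hys => hy.2 (hsB hys))
    obtain ⟨D, -, -, -, hD⟩ := hblk x hx.2
    have e1 := hD C hC1 hC2 hC3
    have e2 := hD B hB hsB hx.1
    rw [e1, ← e2] at hC4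
    exact hy.2 hC4

/-- every `t`-set primitive group is `t`-Steiner primitive -/
theorem TSetPrimitive.steiner [Finite X] [DecidableEq X] {t : ℕ} (ht : 1 ≤ t)
    (h : TSetPrimitive G t) : TSteinerPrimitive G t := by
  haveI := Fintype.ofFinite X
  rintro ⟨k, 𝓑, htk, hkn, ⟨hB1, hB2⟩, hinv⟩
  rw [Nat.card_eq_fintype_card] at hkn
  rw [tSetPrimitive_iff] at h
  obtain ⟨-, hp⟩ := h
  obtain ⟨T, hT⟩ : ∃ T : Finset X, T.card = t := by
    obtain ⟨T, _, hT⟩ := Finset.exists_subset_card_eq (s := (Finset.univ : Finset X)) (n := t)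
      (by rw [Finset.card_univ]; omega)
    exact ⟨T, hT⟩
  obtain ⟨B, ⟨hB, hTB⟩, -⟩ := hB2 T hT
  have hBk := hB1 B hB
  rcases hp (fun S T => ∃ C, C ∈ 𝓑 ∧ S ⊆ C ∧ T ⊆ C)
    (fun S hS => by
      obtain ⟨C, ⟨h1, h2⟩, -⟩ := hB2 S hS
      exact ⟨C, h1, h2, h2⟩)
    (fun S T _ _ ⟨C, h1, h2, h3⟩ => ⟨C, h1, h3, h2⟩)
    (fun S T U _ hT _ ⟨C, h1, h2, h3⟩ ⟨C', h1', h2', h3'⟩ => by
      have := (hB2 T hT).unique ⟨h1, h3⟩ ⟨h1', h2'⟩
      subst this
      exact ⟨C, h1, h2, h3'⟩)
    (fun g hg S T _ _ ⟨C, h1, h2, h3⟩ =>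
      ⟨C.map g.toEmbedding, hinv g hg C h1, Finset.map_subset_map.mpr h2,
        Finset.map_subset_map.mpr h3⟩) with h1 | h1
  · -- two different `t`-subsets of `B`
    obtain ⟨x, hx⟩ : (B \ T).Nonempty := by
      rw [← Finset.card_pos, Finset.card_sdiff_of_subset hTB]; omega
    obtain ⟨y, hy⟩ : T.Nonempty := by rw [← Finset.card_pos]; omega
    rw [Finset.mem_sdiff] at hx
    have hc : (insert x (T.erase y)).card = t := by
      rw [Finset.card_insert_of_notMem (fun h => hx.2 (Finset.mem_of_mem_erase h)),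
        Finset.card_erase_of_mem hy]
      omega
    have hne := h1 T (insert x (T.erase y)) hT hc ⟨B, hB, hTB, by
      intro z hz
      rcases Finset.mem_insert.mp hz with rfl | hz
      · exact hx.1
      · exact hTB (Finset.mem_of_mem_erase hz)⟩
    apply hx.2
    rw [hne]
    exact Finset.mem_insert_self _ _
  · obtain ⟨y, hy⟩ : (Finset.univ \ B).Nonempty := by
      rw [← Finset.card_pos, Finset.card_sdiff_of_subset (Finset.subset_univ _),
        Finset.card_univ]
      omega
    rw [Finset.mem_sdiff] at hy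
    obtain ⟨x, hx⟩ : T.Nonempty := by rw [← Finset.card_pos]; omega
    have hc : (insert y (T.erase x)).card = t := by
      rw [Finset.card_insert_of_notMem
        (fun h => hy.2 (hTB (Finset.mem_of_mem_erase h))),
        Finset.card_erase_of_mem hx]
      omega
    obtain ⟨C, hC1, hC2, hC3⟩ := h1 T _ hT hc
    have := (hB2 T hT).unique ⟨hC1, hC2⟩ ⟨hB, hTB⟩
    subst this
    exact hy.2 (hC3 (Finset.mem_insert_self _ _))

/-- for degree at most `t + 1` there is no Steiner system -/
theorem steiner_of_small {t : ℕ} (h : Nat.card X ≤ t + 1) : TSteinerPrimitive G t := by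
  rintro ⟨k, 𝓑, htk, hkn, -⟩
  omega

/-- a group which preserves a proper Steiner system `S(t, k, n)` is not `(t+1)`-transitive -/
theorem not_trans_of_steiner [Finite X] {t : ℕ} (h : ¬ TSteinerPrimitive G t) {m : ℕ}
    (hm : t < m) : ¬ TTransitive G m := by
  classical
  haveI := Fintype.ofFinite X
  rintro ⟨hmn, htr⟩
  apply h
  rintro ⟨k, 𝓑, htk, hkn, ⟨hB1, hB2⟩, hinv⟩
  rw [Nat.card_eq_fintype_card] at hkn
  obtain ⟨T, hT⟩ : ∃ T : Finset X, T.card = t := by
    obtain ⟨T, _, hT⟩ := Finset.exists_subset_card_eq (s := (Finset.univ : Finset X)) (n := t)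
      (by rw [Finset.card_univ]; omega)
    exact ⟨T, hT⟩
  obtain ⟨B, ⟨hB, hTB⟩, -⟩ := hB2 T hT
  have hBk := hB1 B hB
  obtain ⟨x, hx⟩ : (B \ T).Nonempty := by
    rw [← Finset.card_pos, Finset.card_sdiff_of_subset hTB]; omega
  obtain ⟨y, hy⟩ : (Finset.univ \ B).Nonempty := by
    rw [← Finset.card_pos, Finset.card_sdiff_of_subset (Finset.subset_univ _),
      Finset.card_univ]
    omega
  rw [Finset.mem_sdiff] at hx hy
  obtain ⟨g, hg, hgf⟩ := exists_agree hmn htr (insert x T)
    (by rw [Finset.card_insert_of_notMem hx.2]; omega)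
    (fun z => if z = x then y else z) (by
      intro a ha b hb hab
      have hyT : y ∉ T := fun h => hy.2 (hTB h)
      simp only [Finset.coe_insert, Set.mem_insert_iff, Finset.mem_coe] at ha hb
      simp only at hab
      split_ifs at hab with h1 h2 h2
      · rw [h1, h2]
      · exfalso; rw [← hab] at hb; rcases hb with hb | hb
        · exact hy.2 (hb ▸ hx.1)
        · exact hyT hb
      · exfalso; rw [hab] at ha; rcases ha with ha | ha
        · exact hy.2 (ha ▸ hx.1)
        · exact hyT ha
      · exact hab)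
  have hgT : T.map g.toEmbedding = T := map_eq_self_of_fix (fun z hz => by
    rw [hgf z (Finset.mem_insert_of_mem hz)]
    rw [if_neg]
    rintro rfl
    exact hx.2 hz)
  have hBg : B.map g.toEmbedding = B := by
    apply (hB2 T hT).unique ⟨hinv g hg B hB, ?_⟩ ⟨hB, hTB⟩
    rw [← hgT]
    exact Finset.map_subset_map.mpr hTB
  apply hy.2
  have h2 := hgf x (Finset.mem_insert_self _ _)
  rw [if_pos rfl] at h2
  rw [← h2, ← hBg]
  exact mem_map_perm.mpr hx.1

end Steiner

section SetPrim

variable {X : Type*} {G : Subgroup (Perm X)}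

/-- In a `t`-transitive, `t`-primitive group an invariant equivalence relation on `t`-sets is
universal as soon as two different equivalent `t`-sets meet in `t - 1` points. -/
theorem universal_of_meet [DecidableEq X] [Finite X] {t : ℕ} (ht : 1 ≤ t)
    (htn : t ≤ Nat.card X) (htr : IsMultiplyPretransitive G X t) (hprim : TPrimitive G t)
    (r : Finset X → Finset X → Prop) (h1 : ∀ S, S.card = t → r S S)
    (h2 : ∀ S T, S.card = t → T.card = t → r S T → r T S)
    (h3 : ∀ S T U, S.card = t → T.card = t → U.card = t → r S T → r T U → r S U)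
    (h4 : ∀ g ∈ G, ∀ S T, S.card = t → T.card = t → r S T →
      r (S.map g.toEmbedding) (T.map g.toEmbedding))
    (S S' : Finset X) (hS : S.card = t) (hS' : S'.card = t) (hne : S ≠ S') (hr : r S S')
    (hmeet : (S ∩ S').card + 1 = t) :
    ∀ U V, U.card = t → V.card = t → r U V := by
  rw [tPrimitive_iff] at hprim
  -- the relation on the complement of a `(t-1)`-set
  have key : ∀ A : Finset X, A.card + 1 = t →
      (∀ x, x ∉ A → ∀ y, y ∉ A → r (insert x A) (insert y A) → x = y) ∨
      (∀ x, x ∉ A → ∀ y, y ∉ A → r (insert x A) (insert y A)) := by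
    intro A hA
    have hcard : ∀ x, x ∉ A → (insert x A).card = t := fun x hx => by
      rw [Finset.card_insert_of_notMem hx, hA]
    exact (hprim A hA).2 (fun x y => r (insert x A) (insert y A))
      (fun x hx => h1 _ (hcard x hx))
      (fun x hx y hy h => h2 _ _ (hcard x hx) (hcard y hy) h)
      (fun x hx y hy z hz h h' => h3 _ _ _ (hcard x hx) (hcard y hy) (hcard z hz) h h')
      (fun g hg hgA x hx y hy h => by
        have := h4 g hg _ _ (hcard x hx) (hcard y hy) h
        rw [Finset.map_insert, Finset.map_insert, map_eq_self_of_fix (U := A) hgA] at this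
        exact this)
  have huniv : ∀ A : Finset X, A.card + 1 = t →
      (∀ x, x ∉ A → ∀ y, y ∉ A → r (insert x A) (insert y A)) := by
    -- first for `S ∩ S'`
    obtain ⟨x, hx⟩ : (S \ S').Nonempty := by
      rw [← Finset.card_pos]
      have := Finset.card_sdiff_add_card_inter S S'
      omega
    obtain ⟨y, hy⟩ : (S' \ S).Nonempty := by
      rw [← Finset.card_pos]
      have := Finset.card_sdiff_add_card_inter S' S
      rw [Finset.inter_comm] at this
      omega
    rw [Finset.mem_sdiff] at hx hy
    have hxA : x ∉ S ∩ S' := fun h => hx.2 (Finset.mem_inter.mp h).2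
    have hyA : y ∉ S ∩ S' := fun h => hy.2 (Finset.mem_inter.mp h).1
    have eS : insert x (S ∩ S') = S := by
      apply Finset.eq_of_subset_of_card_le
      · intro z hz
        rcases Finset.mem_insert.mp hz with rfl | hz
        · exact hx.1
        · exact (Finset.mem_inter.mp hz).1
      · rw [Finset.card_insert_of_notMem hxA]; omega
    have eS' : insert y (S ∩ S') = S' := by
      apply Finset.eq_of_subset_of_card_le
      · intro z hz
        rcases Finset.mem_insert.mp hz with rfl | hz
        · exact hy.1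
        · exact (Finset.mem_inter.mp hz).2
      · rw [Finset.card_insert_of_notMem hyA]; omega
    have hxy : x ≠ y := by rintro rfl; exact hx.2 hy.1
    have hA0 : ∀ x, x ∉ (S ∩ S') → ∀ y, y ∉ (S ∩ S') →
        r (insert x (S ∩ S')) (insert y (S ∩ S')) := by
      rcases key (S ∩ S') hmeet with h | h
      · exfalso
        apply hxy
        apply h x hxA y hyA
        rw [eS, eS']
        exact hr
      · exact h
    intro A hA u hu v hv
    -- an element of `G` mapping `S ∩ S'` to `A`
    obtain ⟨e⟩ : Nonempty ((S ∩ S' : Finset X) ≃ A) :=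
      ⟨Finset.equivOfCardEq (by omega)⟩
    classical
    obtain ⟨g, hg, hgf⟩ := exists_agree htn htr (S ∩ S') (by omega)
      (fun z => if h : z ∈ S ∩ S' then (e ⟨z, h⟩ : X) else z) (by
        intro a ha b hb hab
        simp only [Finset.mem_coe] at ha hb
        simp only [ha, hb, dif_pos] at hab
        have := e.injective (Subtype.ext hab)
        exact congrArg Subtype.val this)
    have hgA : (S ∩ S').map g.toEmbedding = A := by
      apply Finset.eq_of_subset_of_card_le
      · intro z hz
        obtain ⟨w, hw, rfl⟩ := Finset.mem_map.mp hz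
        change g w ∈ A
        rw [hgf w hw, dif_pos hw]
        exact (e ⟨w, hw⟩).2
      · rw [Finset.card_map]; omega
    have hu' : g⁻¹ u ∉ S ∩ S' := by rw [← mem_map_perm', hgA]; exact hu
    have hv' : g⁻¹ v ∉ S ∩ S' := by rw [← mem_map_perm', hgA]; exact hv
    have := h4 g hg _ _ (by rw [Finset.card_insert_of_notMem hu']; omega)
      (by rw [Finset.card_insert_of_notMem hv']; omega) (hA0 _ hu' _ hv')
    rw [Finset.map_insert, Finset.map_insert, hgA] at this
    simpa using this
  -- connectedness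
  have chain : ∀ n : ℕ, ∀ U V : Finset X, U.card = t → V.card = t → (U \ V).card = n → r U V := by
    intro n
    induction n with
    | zero =>
      intro U V hU hV h
      rw [Finset.card_eq_zero, Finset.sdiff_eq_empty_iff_subset] at h
      have := Finset.eq_of_subset_of_card_le h (by omega)
      rw [this]
      exact h1 _ hV
    | succ n ih =>
      intro U V hU hV h
      obtain ⟨u, hu⟩ : (U \ V).Nonempty := by rw [← Finset.card_pos]; omega
      obtain ⟨v, hv⟩ : (V \ U).Nonempty := by
        rw [← Finset.card_pos]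
        have e1 := Finset.card_sdiff_add_card_inter U V
        have e2 := Finset.card_sdiff_add_card_inter V U
        rw [Finset.inter_comm] at e2
        omega
      rw [Finset.mem_sdiff] at hu hv
      have hvU : v ∉ U.erase u := fun h => hv.2 (Finset.mem_of_mem_erase h)
      have hU' : (insert v (U.erase u)).card = t := by
        rw [Finset.card_insert_of_notMem hvU, Finset.card_erase_of_mem hu.1]; omega
      have hstep : r U (insert v (U.erase u)) := by
        have := huniv (U.erase u) (by rw [Finset.card_erase_of_mem hu.1]; omega) u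
          (Finset.notMem_erase u U) v hvU
        rwa [Finset.insert_erase hu.1] at this
      apply h3 _ _ _ hU hU' hV hstep
      apply ih _ _ hU' hV
      have : insert v (U.erase u) \ V = (U \ V).erase u := by
        ext z
        simp only [Finset.mem_sdiff, Finset.mem_insert, Finset.mem_erase]
        constructor
        · rintro ⟨rfl | ⟨h1, h2⟩, h3⟩
          · exact absurd hv.1 h3
          · exact ⟨h1, h2, h3⟩
        · rintro ⟨h1, h2, h3⟩
          exact ⟨Or.inr ⟨h1, h2⟩, h3⟩
      rw [this, Finset.card_erase_of_mem (Finset.mem_sdiff.mpr hu)]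
      omega
  intro U V hU hV
  exact chain _ U V hU hV rfl

/-- A `(t+1)`-transitive and `(t+1)`-primitive group is `t`-set primitive, unless the degree is
`2t`. -/
theorem tSetPrimitive_of_succ [DecidableEq X] [Finite X] {t : ℕ} (ht : 1 ≤ t)
    (htn : t + 1 ≤ Nat.card X) (htr : IsMultiplyPretransitive G X (t + 1))
    (hprim : TPrimitive G (t + 1)) (hn : Nat.card X ≠ 2 * t) : TSetPrimitive G t := by
  haveI := Fintype.ofFinite X
  have htr' : IsMultiplyPretransitive G X t := by
    haveI := htr
    exact isMultiplyPretransitive_of_le (n := t + 1) (by omega) htn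
  have hprim' : TPrimitive G t := by
    haveI := htr
    have : IsMultiplyPreprimitive G X t :=
      isMultiplyPreprimitive_of_isMultiplyPretransitive_succ G X (by
        rw [ENat.card_eq_coe_fintype_card]
        rw [Nat.card_eq_fintype_card] at htn
        exact_mod_cast htn)
    intro s hs
    exact this.isPreprimitive_ofFixingSubgroup (M := G) (n := t) hs
  rw [tSetPrimitive_iff]
  refine ⟨?_, ?_⟩
  · intro S T hS hT
    obtain ⟨e⟩ : Nonempty (S ≃ T) := ⟨Finset.equivOfCardEq (by omega)⟩
    obtain ⟨g, hg, hgf⟩ := exists_agree (by omega) htr' S (by omega)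
      (fun z => if h : z ∈ S then (e ⟨z, h⟩ : X) else z) (by
        intro a ha b hb hab
        simp only [Finset.mem_coe] at ha hb
        simp only [ha, hb, dif_pos] at hab
        have := e.injective (Subtype.ext hab)
        exact congrArg Subtype.val this)
    refine ⟨g, hg, ?_⟩
    apply Finset.eq_of_subset_of_card_le
    · intro z hz
      obtain ⟨w, hw, rfl⟩ := Finset.mem_map.mp hz
      change g w ∈ T
      rw [hgf w hw, dif_pos hw]
      exact (e ⟨w, hw⟩).2
    · rw [Finset.card_map]; omega
  intro r h1 h2 h3 h4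
  by_cases hnt : ∀ S T, S.card = t → T.card = t → r S T → S = T
  · exact Or.inl hnt
  right
  by_contra hnu
  -- choose a pair of distinct equivalent sets with largest intersection
  let P : Finset (Finset X × Finset X) := by
    classical
    exact Finset.univ.filter (fun p => p.1.card = t ∧ p.2.card = t ∧ r p.1 p.2 ∧ p.1 ≠ p.2)
  have hP : P.Nonempty := by
    push Not at hnt
    obtain ⟨S, T, hS, hT, hr, hne⟩ := hnt
    exact ⟨(S, T), by simp [P, hS, hT, hr, hne]⟩
  obtain ⟨⟨S, S'⟩, hSS, hmax⟩ := Finset.exists_max_image P (fun p => (p.1 ∩ p.2).card) hP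
  simp only [P, Finset.mem_filter, Finset.mem_univ, true_and] at hSS
  obtain ⟨hS, hS', hr, hne⟩ := hSS
  have hmax' : ∀ U V : Finset X, U.card = t → V.card = t → r U V → U ≠ V →
      (U ∩ V).card ≤ (S ∩ S').card := by
    intro U V hU hV hUV hne'
    exact hmax (U, V) (by simp [P, hU, hV, hUV, hne'])
  set J := S ∩ S' with hJ
  have hJc : (S ∩ S').card = J.card := rfl
  have hJt : J.card + 2 ≤ t := by
    have hlt : J.card < t := by
      by_contra hcon
      have hJS : J = S := Finset.eq_of_subset_of_card_le Finset.inter_subset_left (by omega)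
      have hJS' : J = S' := Finset.eq_of_subset_of_card_le Finset.inter_subset_right (by omega)
      exact hne (hJS.symm.trans hJS')
    by_contra hcon
    apply hnu
    exact universal_of_meet ht (by omega) htr' hprim' r h1 h2 h3 h4 S S' hS hS' hne hr (by omega)
  -- points of `S' \ S`
  have hcS : (S' \ S).card = t - J.card := by
    have := Finset.card_sdiff_add_card_inter S' S
    rw [Finset.inter_comm] at this
    omega
  obtain ⟨y0, hy0⟩ : (S' \ S).Nonempty := by rw [← Finset.card_pos]; omega
  rw [Finset.mem_sdiff] at hy0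
  rw [tPrimitive_iff] at hprim
  obtain ⟨hpt, hp⟩ := hprim S (by omega)
  have hsame : ∀ C D : Finset X, C.card = t → D.card = t → r S C → r S D → J ⊆ C → J ⊆ D →
      ∀ x, x ∉ S → x ∈ C → x ∈ D → C = D := by
    intro C D hC hD hSC hSD hJC hJD x hxS hxC hxD
    by_contra hCD
    have := hmax' C D hC hD (h3 _ _ _ hC hS hD (h2 _ _ hS hC hSC) hSD) hCD
    have hsub : insert x J ⊆ C ∩ D := by
      intro z hz
      rcases Finset.mem_insert.mp hz with rfl | hz
      · exact Finset.mem_inter.mpr ⟨hxC, hxD⟩
      · exact Finset.mem_inter.mpr ⟨hJC hz, hJD hz⟩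
    have hc := Finset.card_le_card hsub
    rw [Finset.card_insert_of_notMem
      (fun h => hxS (Finset.mem_inter.mp h).1)] at hc
    omega
  have hJS : J ⊆ S := Finset.inter_subset_left
  have hJS' : J ⊆ S' := Finset.inter_subset_right
  have hcov : ∀ x, x ∉ S → ∃ C : Finset X, C.card = t ∧ r S C ∧ J ⊆ C ∧ x ∈ C := by
    intro x hx
    obtain ⟨g, hg, hgS, hgx⟩ := hpt y0 hy0.2 x hx
    refine ⟨S'.map g.toEmbedding, by rw [Finset.card_map]; exact hS', ?_, ?_, ?_⟩
    · have := h4 g hg S S' hS hS' hr
      rwa [map_eq_self_of_fix (U := S) hgS] at this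
    · intro z hz
      have : g z = z := hgS z (hJS hz)
      rw [← this]
      exact mem_map_perm.mpr (hJS' hz)
    · rw [← hgx]
      exact mem_map_perm.mpr hy0.1
  have hcompl : ∀ x, x ∉ S → x ∈ S' := by
    rcases hp (fun x y => ∃ C : Finset X, C.card = t ∧ r S C ∧ J ⊆ C ∧ x ∈ C ∧ y ∈ C)
      (fun x hx => by
        obtain ⟨C, hC, h5, h6, h7⟩ := hcov x hx
        exact ⟨C, hC, h5, h6, h7, h7⟩)
      (fun x _ y _ ⟨C, hC, h5, h6, h7, h8⟩ => ⟨C, hC, h5, h6, h8, h7⟩)
      (fun x _ y hy z _ ⟨C, hC, h5, h6, h7, h8⟩ ⟨D, hD, h5', h6', h7', h8'⟩ => by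
        have := hsame C D hC hD h5 h5' h6 h6' y hy h8 h7'
        subst this
        exact ⟨C, hC, h5, h6, h7, h8'⟩)
      (fun g hg hgS x _ y _ ⟨C, hC, h5, h6, h7, h8⟩ => by
        refine ⟨C.map g.toEmbedding, by rw [Finset.card_map]; exact hC, ?_, ?_,
          mem_map_perm.mpr h7, mem_map_perm.mpr h8⟩
        · have := h4 g hg S C hS hC h5
          rwa [map_eq_self_of_fix (U := S) hgS] at this
        · intro z hz
          have : g z = z := hgS z (hJS hz)
          rw [← this]
          exact mem_map_perm.mpr (h6 hz)) with h | h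
    · exfalso
      have : 1 < (S' \ S).card := by omega
      obtain ⟨x, hx, y, hy, hxy⟩ := Finset.one_lt_card.mp this
      rw [Finset.mem_sdiff] at hx hy
      exact hxy (h x hx.2 y hy.2 ⟨S', hS', hr, hJS', hx.1, hy.1⟩)
    · intro x hx
      obtain ⟨C, hC, h5, h6, h7, h8⟩ := h y0 hy0.2 x hx
      have := hsame C S' hC hS' h5 hr h6 hJS' y0 hy0.2 h7 hy0.1
      rw [← this]
      exact h8
  have hcompl' : Finset.univ \ S = S' \ S := by
    ext x
    simp only [Finset.mem_sdiff, Finset.mem_univ, true_and]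
    exact ⟨fun h => ⟨hcompl x h, h⟩, fun h => h.2⟩
  have hcard : Nat.card X - t = t - J.card := by
    rw [← hcS, ← hcompl', Finset.card_sdiff_of_subset (Finset.subset_univ _), Finset.card_univ,
      Nat.card_eq_fintype_card, hS]
  by_cases hJ0 : J.card = 0
  · omega
  -- otherwise move `J` inside `S`
  obtain ⟨j, hj⟩ : J.Nonempty := by rw [← Finset.card_pos]; omega
  obtain ⟨i, hi⟩ : (S \ J).Nonempty := by
    rw [← Finset.card_pos, Finset.card_sdiff_of_subset hJS]; omega
  rw [Finset.mem_sdiff] at hi
  have hjS : j ∈ S := hJS hj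
  obtain ⟨g, hg, hgf⟩ := exists_agree_perm (by omega) htr' S (by omega) (Equiv.swap i j)
  have hgS : S.map g.toEmbedding = S := by
    rw [map_eq_of_agree hgf]
    ext z
    rw [mem_map_perm', Equiv.swap_inv]
    by_cases h5 : z = i
    · rw [h5, Equiv.swap_apply_left]; exact ⟨fun _ => hi.1, fun _ => hjS⟩
    by_cases h6 : z = j
    · rw [h6, Equiv.swap_apply_right]; exact ⟨fun _ => hjS, fun _ => hi.1⟩
    rw [Equiv.swap_apply_of_ne_of_ne h5 h6]
  have hr' : r S (S'.map g.toEmbedding) := by
    have := h4 g hg S S' hS hS' hr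
    rwa [hgS] at this
  have hne' : S' ≠ S'.map g.toEmbedding := by
    intro h
    have : i ∈ S'.map g.toEmbedding := by
      have h7 : g j = i := by rw [hgf j hjS, Equiv.swap_apply_right]
      rw [← h7]
      exact mem_map_perm.mpr (hJS' hj)
    rw [← h] at this
    exact hi.2 (Finset.mem_inter.mpr ⟨hi.1, this⟩)
  have hS'g : (S'.map g.toEmbedding).card = t := by rw [Finset.card_map]; exact hS'
  have := hmax' S' (S'.map g.toEmbedding) hS' hS'g
    (h3 _ _ _ hS' hS hS'g (h2 _ _ hS hS' hr) hr') hne'
  have hsub : (S' \ S) ∪ J.erase j ⊆ S' ∩ S'.map g.toEmbedding := by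
    intro z hz
    rcases Finset.mem_union.mp hz with hz | hz
    · rw [Finset.mem_sdiff] at hz
      refine Finset.mem_inter.mpr ⟨hz.1, ?_⟩
      rw [mem_map_perm']
      apply hcompl
      rw [← mem_map_perm', hgS]
      exact hz.2
    · rw [Finset.mem_erase] at hz
      refine Finset.mem_inter.mpr ⟨hJS' hz.2, ?_⟩
      have hzi : z ≠ i := by rintro rfl; exact hi.2 hz.2
      have h7 : g z = z := by
        rw [hgf z (hJS hz.2), Equiv.swap_apply_of_ne_of_ne hzi hz.1]
      rw [← h7]
      exact mem_map_perm.mpr (hJS' hz.2)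
  have hc := Finset.card_le_card hsub
  rw [Finset.card_union_of_disjoint, Finset.card_erase_of_mem hj] at hc
  · omega
  · rw [Finset.disjoint_left]
    intro z hz hz'
    exact (Finset.mem_sdiff.mp hz).2 (hJS (Finset.mem_of_mem_erase hz'))

/-- In degree `2t`, `t ≥ 2`, no group is `t`-set primitive: a `t`-set and its complement. -/
theorem not_tSetPrimitive_of_two_mul [DecidableEq X] [Finite X] {t : ℕ} (ht : 2 ≤ t)
    (hn : Nat.card X = 2 * t) : ¬ TSetPrimitive G t := by
  haveI := Fintype.ofFinite X
  rw [Nat.card_eq_fintype_card] at hn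
  rw [tSetPrimitive_iff]
  rintro ⟨-, h⟩
  obtain ⟨T, -, hT⟩ := Finset.exists_subset_card_eq (s := (Finset.univ : Finset X)) (n := t)
    (by rw [Finset.card_univ]; omega)
  rcases h (fun S T => S = T ∨ S = Tᶜ) (fun S _ => Or.inl rfl)
    (fun S T _ _ h => by
      rcases h with rfl | rfl
      · exact Or.inl rfl
      · right; rw [compl_compl])
    (fun S T U _ _ _ h h' => by
      rcases h with rfl | rfl <;> rcases h' with rfl | rfl
      · exact Or.inl rfl
      · exact Or.inr rfl
      · exact Or.inr rfl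
      · left; rw [compl_compl])
    (fun g _ S T _ _ h => by
      rcases h with rfl | rfl
      · exact Or.inl rfl
      · right
        ext x
        rw [mem_map_perm', Finset.mem_compl, Finset.mem_compl, mem_map_perm']) with h1 | h1
  · have h2 := h1 T Tᶜ hT (by rw [Finset.card_compl, hn, hT]; omega) (Or.inr (by rw [compl_compl]))
    obtain ⟨x, hx⟩ : T.Nonempty := by rw [← Finset.card_pos]; omega
    have h3 := hx
    rw [h2, Finset.mem_compl] at h3
    exact h3 hx
  · obtain ⟨x, hx⟩ : T.Nonempty := by rw [← Finset.card_pos]; omega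
    obtain ⟨y, hy⟩ : Tᶜ.Nonempty := by
      rw [← Finset.card_pos, Finset.card_compl]; omega
    rw [Finset.mem_compl] at hy
    have hc : (insert y (T.erase x)).card = t := by
      rw [Finset.card_insert_of_notMem (fun h => hy (Finset.mem_of_mem_erase h)),
        Finset.card_erase_of_mem hx]
      omega
    rcases h1 T _ hT hc with h2 | h2
    · apply hy; rw [h2]; exact Finset.mem_insert_self _ _
    · obtain ⟨z, hz, hzx⟩ := Finset.exists_mem_ne (s := T) (by omega) x
      have h3 : z ∈ (insert y (T.erase x))ᶜ := by rw [← h2]; exact hz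
      rw [Finset.mem_compl] at h3
      exact h3 (Finset.mem_insert_of_mem (Finset.mem_erase.mpr ⟨hzx, hz⟩))

end SetPrim

end Pool.Agent.H922
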