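import Mathlib
import Pool.Agent.H922.Gen

set_option autoImplicit false
set_option linter.style.haveILetI false
set_option linter.unusedVariables false

/-!
# Three generalisations of primitivity: alternating and symmetric groups
-/

namespace Pool.Agent.H922

open Equiv MulAction
open scoped Pointwise

variable {X : Type*} {G : Subgroup (Perm X)}

theorem transOff_of_trans [Finite X] {t : ℕ} (h : TTransitive G t) (s : Finset X)
    (hs : s.card + 1 = t) : ∀ x, x ∉ (s : Set X) → ∀ y, y ∉ (s : Set X) →
      ∃ g ∈ G, (∀ z ∈ (s : Set X), g z = z) ∧ g x = y := by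
  classical
  intro x hx y hy
  simp only [Finset.mem_coe] at hx hy ⊢
  obtain ⟨g, hg, hgf⟩ := exists_agree h.1 h.2 (insert x s)
    (by rw [Finset.card_insert_of_notMem hx]; omega)
    (fun z => if z = x then y else z) (by
      intro a ha b hb hab
      simp only [Finset.coe_insert, Set.mem_insert_iff, Finset.mem_coe] at ha hb
      simp only at hab
      split_ifs at hab with h1 h2 h2
      · rw [h1, h2]
      · exfalso; rcases hb with hb | hb
        · exact h2 hb
        · exact hy (hab ▸ hb)
      · exfalso; rcases ha with ha | ha
        · exact h1 ha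
        · exact hy (hab ▸ ha)
      · exact hab)
  refine ⟨g, hg, ?_, ?_⟩
  · intro z hz
    rw [hgf z (Finset.mem_insert_of_mem hz), if_neg]
    rintro rfl
    exact hx hz
  · rw [hgf x (Finset.mem_insert_self _ _), if_pos rfl]

theorem tPrimitive_of_prime [Finite X] {t : ℕ} (h : TTransitive G t)
    (hp : (Nat.card X + 1 - t).Prime) : TPrimitive G t := by
  classical
  haveI := Fintype.ofFinite X
  rw [tPrimitive_iff]
  intro s hs
  rw [← primOff_iff]
  have htr : IsPretransitive (fixingSubgroup G (s : Set X))
      (SubMulAction.ofFixingSubgroup G (s : Set X)) := by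
    constructor
    rintro ⟨x, hx⟩ ⟨y, hy⟩
    obtain ⟨g, hg, hgs, hgx⟩ := transOff_of_trans h s hs x hx y hy
    refine ⟨⟨⟨g, hg⟩, ?_⟩, ?_⟩
    · rw [mem_fixingSubgroup_iff]
      exact hgs
    · exact Subtype.ext hgx
  apply IsPreprimitive.of_prime_card
  have : Nat.card (SubMulAction.ofFixingSubgroup G (s : Set X)) = Nat.card X + 1 - t := by
    have e : (SubMulAction.ofFixingSubgroup G (s : Set X)) ≃ {x // x ∉ s} :=
      Equiv.refl _
    rw [Nat.card_congr e, Nat.card_eq_fintype_card, Fintype.card_subtype_compl,
      Fintype.card_coe, Nat.card_eq_fintype_card]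
    omega
  rw [this]
  exact hp

theorem tPrimitive_of_card_le [Finite X] {t : ℕ} (h : TTransitive G t)
    (hn : Nat.card X ≤ t + 1) : TPrimitive G t := by
  classical
  haveI := Fintype.ofFinite X
  have h1 := h.1
  by_cases h2 : Nat.card X = t + 1
  · apply tPrimitive_of_prime h
    have : Nat.card X + 1 - t = 2 := by omega
    rw [this]
    exact Nat.prime_two
  rw [tPrimitive_iff]
  intro s hs
  have hsub : ∀ x, x ∉ (s : Set X) → ∀ y, y ∉ (s : Set X) → x = y := by
    intro x hx y hy
    by_contra hxy
    have h3 : (insert x (insert y s)).card ≤ Fintype.card X := Finset.card_le_univ _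
    rw [Finset.card_insert_of_notMem, Finset.card_insert_of_notMem hy] at h3
    · rw [Nat.card_eq_fintype_card] at h2 hn
      omega
    · intro h4
      rcases Finset.mem_insert.mp h4 with h4 | h4
      · exact hxy h4
      · exact hx h4
  refine ⟨transOff_of_trans h s hs, fun r _ _ _ _ => ?_⟩
  left
  intro x hx y hy _
  exact hsub x hx y hy

/-- a `t`-transitive group containing the alternating group is `t`-primitive -/
theorem tPrimitive_of_alt [Fintype X] [DecidableEq X] {t : ℕ} (h : TTransitive G t)
    (hA : alternatingGroup X ≤ G) : TPrimitive G t := by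
  by_cases hn : Nat.card X ≤ t + 1
  · exact tPrimitive_of_card_le h hn
  rw [tPrimitive_iff]
  intro s hs
  refine ⟨transOff_of_trans h s hs, fun r h1 h2 h3 h4 => ?_⟩
  by_cases htriv : ∀ x, x ∉ (s : Set X) → ∀ y, y ∉ (s : Set X) → r x y → x = y
  · exact Or.inl htriv
  right
  push Not at htriv
  obtain ⟨x, hx, y, hy, hxy, hne⟩ := htriv
  -- every point is related to `y`
  have key : ∀ z, z ∉ (s : Set X) → r y z := by
    intro z hz
    by_cases hzy : z = y
    · rw [hzy]; exact h1 y hy
    by_cases hzx : z = x
    · rw [hzx]; exact h2 x hx y hy hxy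
    -- the 3-cycle `x ↦ y ↦ z ↦ x`
    have hcyc : (swap x z * swap x y) ∈ G := by
      apply hA
      rw [Perm.mem_alternatingGroup, Perm.sign_mul, Perm.sign_swap (Ne.symm hzx),
        Perm.sign_swap hne]
      rfl
    have hfix : ∀ w ∈ (s : Set X), (swap x z * swap x y) w = w := by
      intro w hw
      have e1 : w ≠ x := by rintro rfl; exact hx hw
      have e2 : w ≠ y := by rintro rfl; exact hy hw
      have e3 : w ≠ z := by rintro rfl; exact hz hw
      rw [Perm.mul_apply, swap_apply_of_ne_of_ne e1 e2, swap_apply_of_ne_of_ne e1 e3]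
    have := h4 _ hcyc hfix x hx y hy hxy
    have e1 : (swap x z * swap x y) x = y := by
      rw [Perm.mul_apply, swap_apply_left, swap_apply_of_ne_of_ne (Ne.symm hne) (Ne.symm hzy)]
    have e2 : (swap x z * swap x y) y = z := by
      rw [Perm.mul_apply, swap_apply_right, swap_apply_left]
    rwa [e1, e2] at this
  intro u hu v hv
  exact h3 u hu y hy v hv (h2 y hy u hu (key u hu)) (key v hv)

/-- complements -/
theorem tSetPrimitive_compl [Fintype X] [DecidableEq X] {m n : ℕ}
    (hmn : m + n = Fintype.card X) : TSetPrimitive G n ↔ TSetPrimitive G m := by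
  unfold TSetPrimitive
  exact isPreprimitive_congr (f := Set.powersetCard.mulActionHom_compl G X hmn)
    Function.surjective_id (Set.powersetCard.mulActionHom_compl_bijective G X hmn)

theorem tSetPrimitive_zero [DecidableEq X] : TSetPrimitive G 0 := by
  rw [tSetPrimitive_iff]
  refine ⟨fun S T hS hT => ⟨1, G.one_mem, ?_⟩, fun r _ _ _ _ => Or.inl ?_⟩
  · rw [Finset.card_eq_zero] at hS hT
    rw [hS, hT]; rfl
  · intro S T hS hT _
    rw [Finset.card_eq_zero] at hS hT
    rw [hS, hT]

/-- `(m+1)`-transitivity of groups containing the alternating group -/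
theorem trans_of_alt [Fintype X] [DecidableEq X] (hA : alternatingGroup X ≤ G) {m : ℕ}
    (hm : m + 2 ≤ Fintype.card X) : IsMultiplyPretransitive G X m := by
  have h := alternatingGroup.isMultiplyPretransitive X
  have h' : IsMultiplyPretransitive (alternatingGroup X) X m := by
    haveI := h
    apply isMultiplyPretransitive_of_le (n := Nat.card X - 2)
    · rw [Nat.card_eq_fintype_card]; omega
    · omega
  rw [multTrans_iff] at h' ⊢
  intro a b ha hb
  obtain ⟨g, hg, hgi⟩ := h' a b ha hb
  exact ⟨g, hA hg, hgi⟩

/-- groups containing the alternating group are `t`-set primitive, unless `n = 2t` -/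
theorem tSetPrimitive_of_alt [Fintype X] [DecidableEq X] {t : ℕ} (ht : 1 ≤ t)
    (htr : TTransitive G t) (hA : alternatingGroup X ≤ G) (hn : Fintype.card X ≠ 2 * t) :
    TSetPrimitive G t := by
  have hle := htr.1
  rw [Nat.card_eq_fintype_card] at hle
  -- the range covered by the general lemma
  have gen : ∀ m : ℕ, 1 ≤ m → m + 3 ≤ Fintype.card X → Fintype.card X ≠ 2 * m →
      TSetPrimitive G m := by
    intro m hm1 hm2 hm3
    have h1 : IsMultiplyPretransitive G X (m + 1) := trans_of_alt hA (by omega)
    apply tSetPrimitive_of_succ hm1 (by rw [Nat.card_eq_fintype_card]; omega) h1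
    · exact tPrimitive_of_alt ⟨by rw [Nat.card_eq_fintype_card]; omega, h1⟩ hA
    · rw [Nat.card_eq_fintype_card]; exact hm3
  by_cases h1 : t + 3 ≤ Fintype.card X
  · exact gen t ht h1 hn
  -- `t ≥ n - 2`
  by_cases h2 : t = Fintype.card X
  · rw [tSetPrimitive_compl (m := 0) (by omega)]
    exact tSetPrimitive_zero
  -- `t = n - 1`
  by_cases h3 : t + 1 = Fintype.card X
  · rw [tSetPrimitive_compl (m := 1) (by omega)]
    -- primitivity on points
    have h4 : IsMultiplyPretransitive G X 1 := by
      haveI := htr.2
      exact isMultiplyPretransitive_of_le (n := t) (by omega) htr.1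
    have h5 : IsPreprimitive G X := by
      by_cases h6 : 2 ≤ t
      · have h7 : IsMultiplyPretransitive G X 2 := by
          haveI := htr.2
          exact isMultiplyPretransitive_of_le (n := t) (by omega) htr.1
        exact isPreprimitive_of_is_two_pretransitive h7
      · haveI : IsPretransitive G X := is_one_pretransitive_iff.mp h4
        apply IsPreprimitive.of_prime_card
        rw [Nat.card_eq_fintype_card]
        have : Fintype.card X = 2 := by omega
        rw [this]
        exact Nat.prime_two
    unfold TSetPrimitive
    exact (isPreprimitive_congr (f := Set.powersetCard.mulActionHom_singleton G X)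
      Function.surjective_id (Set.powersetCard.mulActionHom_singleton_bijective G X)).mp h5
  · -- `t = n - 2`
    have h4 : t + 2 = Fintype.card X := by omega
    rw [tSetPrimitive_compl (m := 2) (by omega)]
    by_cases h5 : 5 ≤ Fintype.card X
    · exact gen 2 (by omega) (by omega) (by omega)
    · -- `n = 3`, `t = 1`
      have h6 : t = 1 := by omega
      have h7 : Fintype.card X = 3 := by omega
      rw [← tSetPrimitive_compl (m := 2) (n := 1) (by omega)]
      have h4 : IsMultiplyPretransitive G X 1 := by
        haveI := htr.2
        exact isMultiplyPretransitive_of_le (n := t) (by omega) htr.1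
      haveI : IsPretransitive G X := is_one_pretransitive_iff.mp h4
      have h5 : IsPreprimitive G X := by
        apply IsPreprimitive.of_prime_card
        rw [Nat.card_eq_fintype_card, h7]
        exact Nat.prime_three
      unfold TSetPrimitive
      exact (isPreprimitive_congr (f := Set.powersetCard.mulActionHom_singleton G X)
        Function.surjective_id (Set.powersetCard.mulActionHom_singleton_bijective G X)).mp h5

end Pool.Agent.H922
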