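import Mathlib

set_option autoImplicit false

/-!
# Groups given by explicit generators
-/

namespace Pool.Agent.H922

open Equiv

/-- The group of permutations of `{0, ..., n-1}` generated by the permutations whose lists of
images are in `L`. -/
def genGroup (n : ℕ) (L : List (List ℕ)) : Subgroup (Perm (Fin n)) :=
  Subgroup.closure {g : Perm (Fin n) | ∃ l ∈ L, ∀ i : Fin n, ((g i : Fin n) : ℕ) = l.getD i 0}

/-- the group `G` moved to `Y` by the bijection `e` -/
def conjGroup {X Y : Type*} (e : X ≃ Y) (G : Subgroup (Perm X)) : Subgroup (Perm Y) :=
  G.map e.permCongrHom.toMonoidHom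

/-- Up to a bijection of `X` with `{0, ..., n-1}`, the group `G` contains the permutations with
lists of images in `L` and is contained in the group generated by those in `M`. -/
def GenBetween {X : Type*} (G : Subgroup (Perm X)) (n : ℕ) (L M : List (List ℕ)) : Prop :=
  ∃ e : Fin n ≃ X, conjGroup e (genGroup n L) ≤ G ∧ G ≤ conjGroup e (genGroup n M)

end Pool.Agent.H922
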