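import Mathlib
import Pool.Agent.H922.Defs3
import Pool.Agent.H922.Gens

set_option autoImplicit false

/-!
# Definitions of the multiply transitive groups
-/

namespace Pool.Agent.H922

open Equiv MulAction Matrix
open scoped Pointwise OnePoint

universe u

/-- The group `PΓL(2, F)`: all permutations `x ↦ (a σ(x) + b) / (c σ(x) + d)` of the projective
line `F ∪ {∞}`, where `ad - bc ≠ 0` and `σ` is an automorphism of `F`. -/
def PGammaL (F : Type*) [Field F] [DecidableEq F] : Subgroup (Perm (OnePoint F)) where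
  carrier := {g | ∃ (A : GL (Fin 2) F) (σ : F ≃+* F), ∀ x, g x = A • OnePoint.map σ x}
  one_mem' := ⟨1, RingEquiv.refl F, fun x => by
    rw [one_smul]
    cases x <;> rfl⟩
  mul_mem' := by
    rintro g h ⟨A, σ, hA⟩ ⟨B, τ, hB⟩
    refine ⟨A * B.map (σ : F →+* F), τ.trans σ, fun x => ?_⟩
    rw [Perm.mul_apply, hB, hA, mul_smul]
    congr 1
    have := OnePoint.map_smul (σ : F →+* F) B (OnePoint.map τ x)
    have e1 : ∀ y : OnePoint F, OnePoint.map (σ : F →+* F) y = OnePoint.map σ y := fun y => rfl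
    rw [e1] at this
    rw [this]
    congr 1
    cases x <;> rfl
  inv_mem' := by
    rintro g ⟨A, σ, hA⟩
    refine ⟨(A⁻¹).map (σ.symm : F →+* F), σ.symm, fun x => ?_⟩
    have h1 := OnePoint.map_smul (σ.symm : F →+* F) A⁻¹ x
    have e1 : ∀ y : OnePoint F, OnePoint.map (σ.symm : F →+* F) y = OnePoint.map σ.symm y :=
      fun y => rfl
    rw [e1, e1] at h1
    rw [← h1, Perm.inv_eq_iff_eq, hA]
    have h2 : OnePoint.map σ (OnePoint.map σ.symm (A⁻¹ • x)) = A⁻¹ • x := by
      generalize A⁻¹ • x = y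
      cases y
      · rfl
      · simp
    rw [h2, smul_inv_smul]

/-- Up to a bijection of `X` with the projective line over a field `F` with `q` elements, `G` is a
subgroup of `PΓL(2, q)`. -/
def IsPL {X : Type u} (G : Subgroup (Perm X)) (q : ℕ) : Prop :=
  ∃ (F : Type u) (_ : Field F) (_ : DecidableEq F) (e : OnePoint F ≃ X),
    Nat.card F = q ∧ G ≤ conjGroup e (PGammaL F)

/-- `G` is, up to a bijection of `X` with `{0, ..., n-1}`, one of the Mathieu groups -/
def IsM11 {X : Type*} (G : Subgroup (Perm X)) : Prop := GenBetween G 11 m11L m11L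

/-- `M_11` in degree 12 -/
def IsM11x {X : Type*} (G : Subgroup (Perm X)) : Prop := GenBetween G 12 m11xL m11xL

/-- `M_12` -/
def IsM12 {X : Type*} (G : Subgroup (Perm X)) : Prop := GenBetween G 12 m12L m12L

/-- `M_22` or `Aut(M_22)` -/
def IsM22 {X : Type*} (G : Subgroup (Perm X)) : Prop := GenBetween G 22 m22L (m22L ++ [m22Out])

/-- `M_23` -/
def IsM23 {X : Type*} (G : Subgroup (Perm X)) : Prop := GenBetween G 23 m23L m23L

/-- `M_24` -/
def IsM24 {X : Type*} (G : Subgroup (Perm X)) : Prop := GenBetween G 24 m24L m24L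

end Pool.Agent.H922
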