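import Mathlib
import Pool.Agent.H922.Alt
import Pool.Agent.H922.Defs4

set_option autoImplicit false
set_option linter.style.haveILetI false
set_option linter.unusedVariables false

/-!
# The projective line over a field and the group `PΓL(2, F)`
-/

namespace Pool.Agent.H922

open Equiv MulAction Matrix
open scoped Pointwise OnePoint

variable {F : Type*} [Field F] [DecidableEq F]

/-- The group `PGL(2, F)`. -/
def PGL2 (F : Type*) [Field F] [DecidableEq F] : Subgroup (Perm (OnePoint F)) :=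
  (MulAction.toPermHom (GL (Fin 2) F) (OnePoint F)).range

theorem mem_PGL2 {g : Perm (OnePoint F)} : g ∈ PGL2 F ↔ ∃ A : GL (Fin 2) F, ∀ x, g x = A • x := by
  unfold PGL2
  rw [MonoidHom.mem_range]
  constructor
  · rintro ⟨A, rfl⟩
    exact ⟨A, fun x => rfl⟩
  · rintro ⟨A, hA⟩
    exact ⟨A, Equiv.ext fun x => (hA x).symm⟩

theorem PGL2_le : PGL2 F ≤ PGammaL F := by
  intro g hg
  rw [mem_PGL2] at hg
  obtain ⟨A, hA⟩ := hg
  refine ⟨A, RingEquiv.refl F, fun x => ?_⟩
  rw [hA]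
  congr 1
  cases x <;> rfl

/-- a matrix with given entries -/
noncomputable def mk2 (a b c d : F) (h : a * d - b * c ≠ 0) : GL (Fin 2) F :=
  GeneralLinearGroup.mkOfDetNeZero !![a, b; c, d] (by rw [det_fin_two_of]; exact h)

theorem mk2_infty {a b c d : F} {h : a * d - b * c ≠ 0} :
    mk2 a b c d h • (∞ : OnePoint F) = if c = 0 then ∞ else ((a / c : F) : OnePoint F) := by
  rw [OnePoint.smul_infty_eq_ite]
  rfl

theorem mk2_coe {a b c d : F} {h : a * d - b * c ≠ 0} {x : F} :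
    mk2 a b c d h • (x : OnePoint F) =
      if c * x + d = 0 then ∞ else (((a * x + b) / (c * x + d) : F) : OnePoint F) := by
  rw [OnePoint.smul_some_eq_ite]
  rfl

/-- an element of `PGL(2, F)` fixing `∞` and `0` -/
theorem gl_fix_two {A : GL (Fin 2) F} (h1 : A • (∞ : OnePoint F) = ∞)
    (h2 : A • ((0 : F) : OnePoint F) = ((0 : F) : OnePoint F)) :
    ∃ u : F, u ≠ 0 ∧ ∀ x : F, A • (x : OnePoint F) = ((u * x : F) : OnePoint F) := by
  rw [OnePoint.smul_infty_eq_self_iff] at h1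
  have hdet := A.det_ne_zero
  rw [det_fin_two, h1, mul_zero, sub_zero] at hdet
  have ha : A 0 0 ≠ 0 := left_ne_zero_of_mul hdet
  have hd : A 1 1 ≠ 0 := right_ne_zero_of_mul hdet
  rw [OnePoint.smul_some_eq_ite, h1, mul_zero, zero_add, if_neg hd, mul_zero, zero_add,
    OnePoint.coe_eq_coe, div_eq_zero_iff] at h2
  have hb : A 0 1 = 0 := by
    rcases h2 with h2 | h2
    · exact h2
    · exact absurd h2 hd
  refine ⟨A 0 0 / A 1 1, div_ne_zero ha hd, fun x => ?_⟩
  rw [OnePoint.smul_some_eq_ite, h1, zero_mul, zero_add, if_neg hd, hb, add_zero,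
    OnePoint.coe_eq_coe]
  ring

/-- an element of `PGL(2, F)` fixing `∞`, `0` and `1` is the identity -/
theorem gl_fix_three {A : GL (Fin 2) F} (h1 : A • (∞ : OnePoint F) = ∞)
    (h2 : A • ((0 : F) : OnePoint F) = ((0 : F) : OnePoint F))
    (h3 : A • ((1 : F) : OnePoint F) = ((1 : F) : OnePoint F)) (x : OnePoint F) : A • x = x := by
  obtain ⟨u, hu, hx⟩ := gl_fix_two h1 h2
  rw [hx, mul_one, OnePoint.coe_eq_coe] at h3
  cases x with
  | infty => exact h1
  | coe x => rw [hx, h3, one_mul]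

/-- elements of `PΓL(2, F)` fixing `∞` and `0` -/
theorem semi_fix_two {g : Perm (OnePoint F)} (hg : g ∈ PGammaL F) (h1 : g ∞ = ∞)
    (h2 : g ((0 : F) : OnePoint F) = ((0 : F) : OnePoint F)) :
    ∃ (u : F) (σ : F ≃+* F), u ≠ 0 ∧
      ∀ x : F, g (x : OnePoint F) = ((u * σ x : F) : OnePoint F) := by
  obtain ⟨A, σ, hA⟩ := hg
  rw [hA] at h1 h2
  simp only [OnePoint.map_infty, OnePoint.map_some, map_zero] at h1 h2
  obtain ⟨u, hu, hx⟩ := gl_fix_two h1 h2
  refine ⟨u, σ, hu, fun x => ?_⟩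
  rw [hA, OnePoint.map_some, hx]

theorem semi_fix_three {g : Perm (OnePoint F)} (hg : g ∈ PGammaL F) (h1 : g ∞ = ∞)
    (h2 : g ((0 : F) : OnePoint F) = ((0 : F) : OnePoint F))
    (h3 : g ((1 : F) : OnePoint F) = ((1 : F) : OnePoint F)) :
    ∃ σ : F ≃+* F, ∀ x : OnePoint F, g x = OnePoint.map σ x := by
  obtain ⟨u, σ, hu, hx⟩ := semi_fix_two hg h1 h2
  rw [hx, map_one, mul_one, OnePoint.coe_eq_coe] at h3
  refine ⟨σ, fun x => ?_⟩
  cases x with
  | infty => exact h1
  | coe x => rw [hx, h3, one_mul]; rfl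

/-- `GL(2, F)` is transitive on ordered triples of distinct points -/
theorem gl_three_trans (x y z : OnePoint F) (hxy : x ≠ y) (hxz : x ≠ z) (hyz : y ≠ z) :
    ∃ A : GL (Fin 2) F, A • (∞ : OnePoint F) = x ∧ A • ((0 : F) : OnePoint F) = y ∧
      A • ((1 : F) : OnePoint F) = z := by
  cases x with
  | infty =>
    cases y with
    | infty => exact absurd rfl hxy
    | coe y =>
      cases z with
      | infty => exact absurd rfl hxz
      | coe z =>
        rw [Ne, OnePoint.coe_eq_coe] at hyz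
        have hd : (z - y) * 1 - y * 0 ≠ 0 := by
          rw [mul_one, mul_zero, sub_zero]; exact sub_ne_zero.mpr (Ne.symm hyz)
        refine ⟨mk2 (z - y) y 0 1 hd, ?_, ?_, ?_⟩
        · rw [mk2_infty, if_pos rfl]
        · rw [mk2_coe]; simp
        · rw [mk2_coe]; simp
  | coe x =>
    cases y with
    | infty =>
      cases z with
      | infty => exact absurd rfl hyz
      | coe z =>
        rw [Ne, OnePoint.coe_eq_coe] at hxz
        have hd : x * 0 - (z - x) * 1 ≠ 0 := by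
          rw [mul_one, mul_zero, zero_sub, neg_sub]; exact sub_ne_zero.mpr hxz
        refine ⟨mk2 x (z - x) 1 0 hd, ?_, ?_, ?_⟩
        · rw [mk2_infty, if_neg one_ne_zero, div_one]
        · rw [mk2_coe]; simp
        · rw [mk2_coe]; simp
    | coe y =>
      rw [Ne, OnePoint.coe_eq_coe] at hxy
      cases z with
      | infty =>
        have hd : x * (-1) - (-y) * 1 ≠ 0 := by
          intro h; apply hxy; linear_combination -h
        refine ⟨mk2 x (-y) 1 (-1) hd, ?_, ?_, ?_⟩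
        · rw [mk2_infty, if_neg one_ne_zero, div_one]
        · rw [mk2_coe]; simp
        · rw [mk2_coe]; simp
      | coe z =>
        rw [Ne, OnePoint.coe_eq_coe] at hxz hyz
        have h1 : z - y ≠ 0 := sub_ne_zero.mpr (Ne.symm hyz)
        have h2 : x - z ≠ 0 := sub_ne_zero.mpr hxz
        have h3 : x - y ≠ 0 := sub_ne_zero.mpr hxy
        have hd : (x * (z - y)) * (x - z) - (y * (x - z)) * (z - y) ≠ 0 := by
          have : (x * (z - y)) * (x - z) - (y * (x - z)) * (z - y) =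
            (z - y) * (x - z) * (x - y) := by ring
          rw [this]
          exact mul_ne_zero (mul_ne_zero h1 h2) h3
        refine ⟨mk2 (x * (z - y)) (y * (x - z)) (z - y) (x - z) hd, ?_, ?_, ?_⟩
        · rw [mk2_infty, if_neg h1, OnePoint.coe_eq_coe]
          field_simp
        · rw [mk2_coe, if_neg (by rw [mul_zero, zero_add]; exact h2), OnePoint.coe_eq_coe,
            div_eq_iff (by rw [mul_zero, zero_add]; exact h2)]
          ring
        · have e : (z - y) * 1 + (x - z) = x - y := by ring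
          rw [mk2_coe, e, if_neg h3, OnePoint.coe_eq_coe, div_eq_iff h3]
          ring

theorem gl_three_trans' (x y z x' y' z' : OnePoint F) (hxy : x ≠ y) (hxz : x ≠ z) (hyz : y ≠ z)
    (hxy' : x' ≠ y') (hxz' : x' ≠ z') (hyz' : y' ≠ z') :
    ∃ A : GL (Fin 2) F, A • x = x' ∧ A • y = y' ∧ A • z = z' := by
  obtain ⟨A, h1, h2, h3⟩ := gl_three_trans x y z hxy hxz hyz
  obtain ⟨B, h1', h2', h3'⟩ := gl_three_trans x' y' z' hxy' hxz' hyz'
  refine ⟨B * A⁻¹, ?_, ?_, ?_⟩
  · rw [mul_smul, ← h1, inv_smul_smul, h1']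
  · rw [mul_smul, ← h2, inv_smul_smul, h2']
  · rw [mul_smul, ← h3, inv_smul_smul, h3']

/-- sharp 3-transitivity -/
theorem gl_sharp {A B : GL (Fin 2) F} {x y z : OnePoint F} (hxy : x ≠ y) (hxz : x ≠ z)
    (hyz : y ≠ z) (h1 : A • x = B • x) (h2 : A • y = B • y) (h3 : A • z = B • z)
    (w : OnePoint F) : A • w = B • w := by
  obtain ⟨C, h1', h2', h3'⟩ := gl_three_trans x y z hxy hxz hyz
  have key : ∀ v : OnePoint F, (C⁻¹ * (B⁻¹ * A) * C) • v = v := by
    apply gl_fix_three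
    · rw [mul_smul, mul_smul, mul_smul, h1', h1, inv_smul_smul, ← h1', inv_smul_smul]
    · rw [mul_smul, mul_smul, mul_smul, h2', h2, inv_smul_smul, ← h2', inv_smul_smul]
    · rw [mul_smul, mul_smul, mul_smul, h3', h3, inv_smul_smul, ← h3', inv_smul_smul]
  have h := key (C⁻¹ • w)
  rw [mul_smul, mul_smul, smul_inv_smul, mul_smul] at h
  have h4 := congrArg (fun v => B • C • v) h
  simpa only [smul_inv_smul] using h4

theorem PGL2_sharp {g h : Perm (OnePoint F)} (hg : g ∈ PGL2 F) (hh : h ∈ PGL2 F)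
    {x y z : OnePoint F} (hxy : x ≠ y) (hxz : x ≠ z)
    (hyz : y ≠ z) (h1 : g x = h x) (h2 : g y = h y) (h3 : g z = h z) : g = h := by
  rw [mem_PGL2] at hg hh
  obtain ⟨A, hA⟩ := hg
  obtain ⟨B, hB⟩ := hh
  ext1 w
  rw [hA, hB]
  rw [hA, hB] at h1 h2 h3
  exact gl_sharp hxy hxz hyz h1 h2 h3 w

theorem PGL2_exists {x y z x' y' z' : OnePoint F} (hxy : x ≠ y) (hxz : x ≠ z) (hyz : y ≠ z)
    (hxy' : x' ≠ y') (hxz' : x' ≠ z') (hyz' : y' ≠ z') :
    ∃ g ∈ PGL2 F, g x = x' ∧ g y = y' ∧ g z = z' := by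
  obtain ⟨A, h1, h2, h3⟩ := gl_three_trans' x y z x' y' z' hxy hxz hyz hxy' hxz' hyz'
  refine ⟨MulAction.toPerm A, ?_, h1, h2, h3⟩
  rw [mem_PGL2]
  exact ⟨A, fun x => rfl⟩

/-- `PΓL(2, F)` normalises `PGL(2, F)` -/
theorem PGL2_conj {g h : Perm (OnePoint F)} (hg : g ∈ PGammaL F) (hh : h ∈ PGL2 F) :
    g * h * g⁻¹ ∈ PGL2 F := by
  rw [mem_PGL2] at hh ⊢
  obtain ⟨A, σ, hA⟩ := hg
  obtain ⟨B, hB⟩ := hh
  refine ⟨A * B.map (σ : F →+* F) * A⁻¹, fun x => ?_⟩
  rw [Perm.mul_apply, Perm.mul_apply, hB, hA]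
  have e1 : ∀ y : OnePoint F, OnePoint.map (σ : F →+* F) y = OnePoint.map σ y := fun y => rfl
  have h1 := OnePoint.map_smul (σ : F →+* F) B (g⁻¹ x)
  rw [e1, e1] at h1
  rw [h1, mul_smul, mul_smul]
  congr 2
  have h2 : g (g⁻¹ x) = x := by simp
  rw [hA] at h2
  rw [eq_inv_smul_iff]
  exact h2

end Pool.Agent.H922
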