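import Mathlib
import Pool.Agent.H922.PL

set_option autoImplicit false
set_option linter.style.haveILetI false
set_option linter.unusedVariables false
set_option linter.unusedSectionVars false

/-!
# 3-transitive subgroups of `PΓL(2, q)`: primitivity and set primitivity
-/

namespace Pool.Agent.H922

open Equiv MulAction Matrix
open scoped Pointwise OnePoint

variable {F : Type*} [Field F] [DecidableEq F] [Finite F]

instance : Finite (OnePoint F) := inferInstanceAs (Finite (Option F))

instance : DecidableEq (OnePoint F) := inferInstanceAs (DecidableEq (Option F))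

theorem card_onePoint : Nat.card (OnePoint F) = Nat.card F + 1 := by
  have : Nat.card (OnePoint F) = Nat.card (Option F) := rfl
  rw [this, Finite.card_option]

theorem card_units_F : Nat.card Fˣ = Nat.card F - 1 := by
  haveI := Fintype.ofFinite F
  rw [Nat.card_eq_fintype_card, Fintype.card_units, Nat.card_eq_fintype_card]

/-- 3-transitive subgroups of `PΓL(2, q)` are 3-primitive iff `q - 1` is a prime or `q = 2` -/
theorem pl_three_primitive_iff {G : Subgroup (Perm (OnePoint F))} (hG : G ≤ PGammaL F)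
    (htr : TTransitive G 3) :
    TPrimitive G 3 ↔ (Nat.card F - 1).Prime ∨ Nat.card F = 2 := by
  haveI := Fintype.ofFinite F
  constructor
  · intro h
    by_contra hcon
    push Not at hcon
    obtain ⟨hnp, h2⟩ := hcon
    have hq : 1 < Nat.card F := Finite.one_lt_card
    obtain ⟨ℓ, hℓ, hdvd⟩ := Nat.exists_prime_and_dvd (n := Nat.card F - 1) (by omega)
    have hℓlt : ℓ < Nat.card F - 1 := by
      rcases lt_or_eq_of_le (Nat.le_of_dvd (by omega) hdvd) with h3 | h3
      · exact h3
      · exact absurd (h3 ▸ hℓ) hnp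
    rw [tPrimitive_iff] at h
    have h0 : (∞ : OnePoint F) ≠ ((0 : F) : OnePoint F) := OnePoint.infty_ne_coe 0
    obtain ⟨-, hp⟩ := h {∞, ((0 : F) : OnePoint F)} (by rw [Finset.card_pair h0])
    have hmem : ∀ x : OnePoint F, x ∉ (({∞, ((0 : F) : OnePoint F)} : Finset (OnePoint F)) :
        Set (OnePoint F)) → ∃ a : F, a ≠ 0 ∧ x = (a : OnePoint F) := by
      intro x hx
      cases x with
      | infty => exfalso; apply hx; simp
      | coe a =>
        refine ⟨a, ?_, rfl⟩
        rintro rfl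
        apply hx; simp
    have hmem' : ∀ a : F, a ≠ 0 → (a : OnePoint F) ∉ (({∞, ((0 : F) : OnePoint F)} :
        Finset (OnePoint F)) : Set (OnePoint F)) := by
      intro a ha
      simp [ha]
    rcases hp (fun x y => ∃ a b : F, x = a ∧ y = b ∧ a ≠ 0 ∧ b ≠ 0 ∧ (a / b) ^ ℓ = 1)
      (fun x hx => by
        obtain ⟨a, ha, rfl⟩ := hmem x hx
        exact ⟨a, a, rfl, rfl, ha, ha, by rw [div_self ha, one_pow]⟩)
      (fun x _ y _ ⟨a, b, h1, h2, h3, h4, h5⟩ => ⟨b, a, h2, h1, h4, h3, by
        rw [← inv_div, inv_pow, h5, inv_one]⟩)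
      (fun x _ y _ z _ ⟨a, b, h1, h2, h3, h4, h5⟩ ⟨b', c, h1', h2', h3', h4', h5'⟩ => by
        rw [h2, OnePoint.coe_eq_coe] at h1'
        subst h1'
        refine ⟨a, c, h1, h2', h3, h4', ?_⟩
        rw [← div_mul_div_cancel₀ h4, mul_pow, h5, h5', one_mul])
      (fun g hg hgs x _ y _ ⟨a, b, h1, h2, h3, h4, h5⟩ => by
        obtain ⟨u, σ, hu, hx⟩ := semi_fix_two (hG hg) (hgs ∞ (by simp)) (hgs _ (by simp))
        refine ⟨u * σ a, u * σ b, by rw [h1, hx], by rw [h2, hx],
          mul_ne_zero hu (by simpa using h3), mul_ne_zero hu (by simpa using h4), ?_⟩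
        rw [mul_div_mul_left _ _ hu, ← map_div₀, ← map_pow, h5, map_one]) with h1 | h1
    · -- an element of order `ℓ`
      haveI : Fact ℓ.Prime := ⟨hℓ⟩
      obtain ⟨u, hu⟩ := exists_prime_orderOf_dvd_card' (G := Fˣ) ℓ (by rw [card_units_F]; exact hdvd)
      have h3 := h1 _ (hmem' (u : F) u.ne_zero) _ (hmem' 1 one_ne_zero)
        ⟨u, 1, rfl, rfl, u.ne_zero, one_ne_zero, by
          rw [div_one, ← Units.val_pow_eq_pow_val, ← hu, pow_orderOf_eq_one, Units.val_one]⟩
      rw [OnePoint.coe_eq_coe, Units.val_eq_one] at h3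
      rw [h3, orderOf_one] at hu
      exact hℓ.one_lt.ne hu
    · -- a generator
      obtain ⟨w, hw⟩ := IsCyclic.exists_generator (α := Fˣ)
      have h3 : orderOf w = Nat.card F - 1 := by
        rw [orderOf_eq_card_of_forall_mem_zpowers hw, card_units_F]
      obtain ⟨a, b, h4, h5, h6, h7, h8⟩ := h1 _ (hmem' (w : F) w.ne_zero) _ (hmem' 1 one_ne_zero)
      rw [OnePoint.coe_eq_coe] at h4 h5
      subst h4 h5
      rw [div_one, ← Units.val_pow_eq_pow_val, Units.val_eq_one] at h8
      have := orderOf_dvd_of_pow_eq_one h8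
      rw [h3] at this
      have := Nat.le_of_dvd hℓ.pos this
      omega
  · rintro (h | h)
    · apply tPrimitive_of_prime htr
      rw [card_onePoint]
      have : Nat.card F + 1 + 1 - 3 = Nat.card F - 1 := by omega
      rw [this]
      exact h
    · apply tPrimitive_of_card_le htr
      rw [card_onePoint, h]
      omega

/-- `ρ` permutes the points of `S` without fixed points -/
def Cyc {X : Type*} (ρ : Perm X) (S : Finset X) : Prop :=
  S.map ρ.toEmbedding = S ∧ ∀ x ∈ S, ρ x ≠ x

theorem Cyc.mem {X : Type*} {ρ : Perm X} {S : Finset X} (h : Cyc ρ S) {x : X} :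
    ρ x ∈ S ↔ x ∈ S := by
  constructor
  · intro h1
    rw [← h.1] at h1
    exact mem_map_perm.mp h1
  · intro h1
    rw [← h.1]
    exact mem_map_perm.mpr h1

theorem Cyc.inv {X : Type*} {ρ : Perm X} {S : Finset X} (h : Cyc ρ S) : Cyc ρ⁻¹ S := by
  refine ⟨map_inv_perm h.1, fun x hx h1 => ?_⟩
  rw [Perm.inv_eq_iff_eq] at h1
  exact h.2 x hx h1.symm

/-- two fixed point free permutations of a 3-set are equal or inverse to each other -/
theorem Cyc.eq_or {X : Type*} [DecidableEq X] {ρ τ : Perm X} {S : Finset X} (hS : S.card = 3)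
    (h : Cyc ρ S) (h' : Cyc τ S) : (∀ x ∈ S, ρ x = τ x) ∨ (∀ x ∈ S, ρ x = τ⁻¹ x) := by
  obtain ⟨x, y, z, hxy, hxz, hyz, rfl⟩ := Finset.card_eq_three.mp hS
  have key : ∀ π : Perm X, Cyc π {x, y, z} →
      (π x = y ∧ π y = z ∧ π z = x) ∨ (π x = z ∧ π z = y ∧ π y = x) := by
    intro π hπ
    have m1 : π x ∈ ({x, y, z} : Finset X) := hπ.mem.mpr (by simp)
    have m2 : π y ∈ ({x, y, z} : Finset X) := hπ.mem.mpr (by simp)
    have m3 : π z ∈ ({x, y, z} : Finset X) := hπ.mem.mpr (by simp)
    have n1 := hπ.2 x (by simp)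
    have n2 := hπ.2 y (by simp)
    have n3 := hπ.2 z (by simp)
    have i1 : π x ≠ π y := π.injective.ne hxy
    have i2 : π x ≠ π z := π.injective.ne hxz
    have i3 : π y ≠ π z := π.injective.ne hyz
    simp only [Finset.mem_insert, Finset.mem_singleton] at m1 m2 m3
    rcases m1 with m1 | m1 | m1
    · exact absurd m1 n1
    · left
      rcases m2 with m2 | m2 | m2
      · rcases m3 with m3 | m3 | m3
        · exact absurd (m2.trans m3.symm) i3
        · exact absurd (m1.trans m3.symm) i2
        · exact absurd m3 n3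
      · exact absurd m2 n2
      · rcases m3 with m3 | m3 | m3
        · exact ⟨m1, m2, m3⟩
        · exact absurd (m1.trans m3.symm) i2
        · exact absurd m3 n3
    · right
      rcases m3 with m3 | m3 | m3
      · rcases m2 with m2 | m2 | m2
        · exact absurd (m2.trans m3.symm) i3
        · exact absurd m2 n2
        · exact absurd (m1.trans m2.symm) i1
      · rcases m2 with m2 | m2 | m2
        · exact ⟨m1, m3, m2⟩
        · exact absurd m2 n2
        · exact absurd (m1.trans m2.symm) i1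
      · exact absurd m3 n3
  rcases key ρ h with ⟨a1, a2, a3⟩ | ⟨a1, a2, a3⟩ <;>
    rcases key τ h' with ⟨b1, b2, b3⟩ | ⟨b1, b2, b3⟩
  · left
    intro w hw
    simp only [Finset.mem_insert, Finset.mem_singleton] at hw
    rcases hw with rfl | rfl | rfl
    · rw [a1, b1]
    · rw [a2, b2]
    · rw [a3, b3]
  · right
    intro w hw
    simp only [Finset.mem_insert, Finset.mem_singleton] at hw
    rcases hw with rfl | rfl | rfl
    · rw [a1, Perm.eq_inv_iff_eq, b3]
    · rw [a2, Perm.eq_inv_iff_eq, b2]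
    · rw [a3, Perm.eq_inv_iff_eq, b1]
  · right
    intro w hw
    simp only [Finset.mem_insert, Finset.mem_singleton] at hw
    rcases hw with rfl | rfl | rfl
    · rw [a1, Perm.eq_inv_iff_eq, b3]
    · rw [a3, Perm.eq_inv_iff_eq, b1]
    · rw [a2, Perm.eq_inv_iff_eq, b2]
  · left
    intro w hw
    simp only [Finset.mem_insert, Finset.mem_singleton] at hw
    rcases hw with rfl | rfl | rfl
    · rw [a1, b1]
    · rw [a3, b3]
    · rw [a2, b2]

theorem PGL2_eq_of_agree {ρ τ : Perm (OnePoint F)} (hρ : ρ ∈ PGL2 F) (hτ : τ ∈ PGL2 F)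
    {S : Finset (OnePoint F)} (hS : S.card = 3) (h : ∀ x ∈ S, ρ x = τ x) : ρ = τ := by
  obtain ⟨x, y, z, hxy, hxz, hyz, rfl⟩ := Finset.card_eq_three.mp hS
  exact PGL2_sharp hρ hτ hxy hxz hyz (h x (by simp)) (h y (by simp)) (h z (by simp))

/-- the relation between 3-sets: both are orbits of one cyclic subgroup of order 3 -/
def RelC (S T : Finset (OnePoint F)) : Prop := ∃ ρ ∈ PGL2 F, Cyc ρ S ∧ Cyc ρ T

theorem relC_refl {S : Finset (OnePoint F)} (hS : S.card = 3) : RelC S S := by
  obtain ⟨x, y, z, hxy, hxz, hyz, rfl⟩ := Finset.card_eq_three.mp hS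
  obtain ⟨ρ, hρ, h1, h2, h3⟩ := PGL2_exists hxy hxz hyz hyz hxy.symm hxz.symm
  have : Cyc ρ {x, y, z} := by
    refine ⟨?_, ?_⟩
    · rw [Finset.map_insert, Finset.map_insert, Finset.map_singleton]
      simp only [Equiv.coe_toEmbedding, h1, h2, h3]
      ext w
      simp only [Finset.mem_insert, Finset.mem_singleton]
      tauto
    · intro w hw
      simp only [Finset.mem_insert, Finset.mem_singleton] at hw
      rcases hw with rfl | rfl | rfl
      · rw [h1]; exact hxy.symm
      · rw [h2]; exact hyz.symm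
      · rw [h3]; exact hxz
  exact ⟨ρ, hρ, this, this⟩

theorem relC_trans {S T U : Finset (OnePoint F)} (hT : T.card = 3) (h : RelC S T)
    (h' : RelC T U) : RelC S U := by
  obtain ⟨ρ, hρ, h1, h2⟩ := h
  obtain ⟨τ, hτ, h3, h4⟩ := h'
  rcases Cyc.eq_or hT h2 h3 with h5 | h5
  · have := PGL2_eq_of_agree hρ hτ hT h5
    subst this
    exact ⟨ρ, hρ, h1, h4⟩
  · have := PGL2_eq_of_agree hρ ((PGL2 F).inv_mem hτ) hT h5
    subst this
    exact ⟨_, hρ, h1, h4.inv⟩

theorem relC_inv {S T : Finset (OnePoint F)} {g : Perm (OnePoint F)} (hg : g ∈ PGammaL F)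
    (h : RelC S T) : RelC (S.map g.toEmbedding) (T.map g.toEmbedding) := by
  obtain ⟨ρ, hρ, h1, h2⟩ := h
  have key : ∀ U : Finset (OnePoint F), Cyc ρ U → Cyc (g * ρ * g⁻¹) (U.map g.toEmbedding) := by
    intro U hU
    refine ⟨?_, ?_⟩
    · rw [map_mul_perm, inv_mul_cancel_right, ← map_mul_perm, hU.1]
    · intro x hx h3
      rw [mem_map_perm'] at hx
      apply hU.2 _ hx
      rw [Perm.mul_apply, Perm.mul_apply] at h3
      exact Perm.eq_inv_iff_eq.mpr h3
  exact ⟨g * ρ * g⁻¹, PGL2_conj hg hρ, key S h1, key T h2⟩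

/-- for `q ≥ 5` no subgroup of `PΓL(2, q)` is 3-set primitive -/
theorem pl_not_three_set {G : Subgroup (Perm (OnePoint F))} (hG : G ≤ PGammaL F)
    (hq : 5 ≤ Nat.card F) : ¬ TSetPrimitive G 3 := by
  haveI := Fintype.ofFinite F
  rw [tSetPrimitive_iff]
  rintro ⟨-, h⟩
  have h0 : (∞ : OnePoint F) ≠ ((0 : F) : OnePoint F) := OnePoint.infty_ne_coe 0
  have h1 : (∞ : OnePoint F) ≠ ((1 : F) : OnePoint F) := OnePoint.infty_ne_coe 1
  have h01 : ((0 : F) : OnePoint F) ≠ ((1 : F) : OnePoint F) := by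
    rw [Ne, OnePoint.coe_eq_coe]; exact zero_ne_one
  have hScard : ({∞, ((0 : F) : OnePoint F), ((1 : F) : OnePoint F)} :
      Finset (OnePoint F)).card = 3 :=
    Finset.card_eq_three.mpr ⟨_, _, _, h0, h1, h01, rfl⟩
  -- three elements of `F` outside `{0, 1}`
  have hthree : ∃ a b c : F, a ≠ b ∧ a ≠ c ∧ b ≠ c ∧ a ≠ 0 ∧ a ≠ 1 ∧ b ≠ 0 ∧ b ≠ 1 ∧ c ≠ 0 ∧
      c ≠ 1 := by
    have : 2 < (Finset.univ \ ({0, 1} : Finset F)).card := by
      rw [Finset.card_sdiff_of_subset (Finset.subset_univ _), Finset.card_univ,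
        Finset.card_pair zero_ne_one, ← Nat.card_eq_fintype_card]
      omega
    obtain ⟨a, ha, b, hb, c, hc, hab, hac, hbc⟩ := Finset.two_lt_card.mp this
    simp only [Finset.mem_sdiff, Finset.mem_univ, Finset.mem_insert, Finset.mem_singleton,
      true_and, not_or] at ha hb hc
    exact ⟨a, b, c, hab, hac, hbc, ha.1, ha.2, hb.1, hb.2, hc.1, hc.2⟩
  rcases h RelC (fun S hS => relC_refl hS) (fun S T _ _ ⟨ρ, hρ, h1, h2⟩ => ⟨ρ, hρ, h2, h1⟩)
    (fun S T U _ hT _ h h' => relC_trans hT h h')
    (fun g hg S T _ _ h => relC_inv (hG hg) h) with h2 | h2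
  · -- a second orbit of `x ↦ 1 / (1 - x)`
    obtain ⟨a, b, c, hab, hac, hbc, ha0, ha1, hb0, hb1, hc0, hc1⟩ := hthree
    obtain ⟨x, hx0, hx1, hx⟩ : ∃ x : F, x ≠ 0 ∧ x ≠ 1 ∧ x * (1 - x) ≠ 1 := by
      by_contra hcon
      push Not at hcon
      have ea := hcon a ha0 ha1
      have eb := hcon b hb0 hb1
      have ec := hcon c hc0 hc1
      have e1 : (a - b) * (1 - (a + b)) = 0 := by linear_combination ea - eb
      have e2 : (a - c) * (1 - (a + c)) = 0 := by linear_combination ea - ec
      rcases mul_eq_zero.mp e1 with e1 | e1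
      · exact hab (sub_eq_zero.mp e1)
      rcases mul_eq_zero.mp e2 with e2 | e2
      · exact hac (sub_eq_zero.mp e2)
      apply hbc
      linear_combination e2 - e1
    have hd : (0 : F) * 1 - 1 * (-1) ≠ 0 := by simp
    obtain ⟨ρ, hρ⟩ : ∃ ρ : Perm (OnePoint F), ∀ y, ρ y = mk2 0 1 (-1) 1 hd • y :=
      ⟨MulAction.toPerm (mk2 0 1 (-1) 1 hd), fun y => rfl⟩
    have hρm : ρ ∈ PGL2 F := mem_PGL2.mpr ⟨_, hρ⟩
    have r1 : ρ ∞ = ((0 : F) : OnePoint F) := by
      rw [hρ, mk2_infty, if_neg (by simp), zero_div]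
    have r2 : ρ ((0 : F) : OnePoint F) = ((1 : F) : OnePoint F) := by
      rw [hρ, mk2_coe, if_neg (by simp)]; simp
    have r3 : ρ ((1 : F) : OnePoint F) = ∞ := by
      rw [hρ, mk2_coe, if_pos (by simp)]
    have rx : ∀ y : F, y ≠ 1 → ρ ((y : F) : OnePoint F) = ((1 / (1 - y) : F) : OnePoint F) := by
      intro y hy
      have e : -1 * y + 1 = 1 - y := by ring
      rw [hρ, mk2_coe, e, if_neg (sub_ne_zero.mpr (Ne.symm hy)), OnePoint.coe_eq_coe]
      congr 1
      ring
    have hx1' : (1 - x) ≠ 0 := sub_ne_zero.mpr (Ne.symm hx1)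
    have n1 : 1 / (1 - x) ≠ 1 := by
      intro h
      rw [div_eq_one_iff_eq hx1'] at h
      apply hx0
      linear_combination h
    have n2 : 1 - 1 / (1 - x) ≠ 0 := sub_ne_zero.mpr (Ne.symm n1)
    set y := 1 / (1 - x) with hy
    set z := 1 / (1 - y) with hz
    have hyx : y * (1 - x) = 1 := by rw [hy, div_mul_cancel₀ _ hx1']
    have hzy : z * (1 - y) = 1 := by rw [hz, div_mul_cancel₀ _ n2]
    have hz1 : z ≠ 1 := by
      intro h
      rw [h] at hzy
      have : y = 0 := by linear_combination -hzy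
      rw [this] at hyx
      simp at hyx
    have hzx : z * x = x - 1 := by
      have e1 : (1 - x) * (1 - y) = -x := by linear_combination -hyx
      have : z * ((1 - x) * (1 - y)) = 1 - x := by linear_combination (1 - x) * hzy
      rw [e1] at this
      linear_combination -this
    have hwz : 1 / (1 - z) = x := by
      rw [div_eq_iff (sub_ne_zero.mpr (Ne.symm hz1))]
      linear_combination hzx
    have d1 : y ≠ x := by
      intro h
      rw [h] at hyx
      exact hx hyx
    have d2 : z ≠ y := by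
      intro h
      have e1 : y * (1 - y) = 1 := by rw [← h] ; rw [h]; rw [h] at hzy; exact hzy
      -- then `y = x`
      have e2 : y * (x - y) = 0 := by linear_combination e1 - hyx
      rcases mul_eq_zero.mp e2 with e2 | e2
      · rw [e2] at hyx; simp at hyx
      · exact d1 (sub_eq_zero.mp e2).symm
    have d3 : z ≠ x := by
      intro h
      rw [h] at hzx
      apply hx
      linear_combination -hzx
    have cycS : Cyc ρ {∞, ((0 : F) : OnePoint F), ((1 : F) : OnePoint F)} := by
      refine ⟨?_, ?_⟩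
      · rw [Finset.map_insert, Finset.map_insert, Finset.map_singleton]
        simp only [Equiv.coe_toEmbedding, r1, r2, r3]
        ext w
        simp only [Finset.mem_insert, Finset.mem_singleton]
        tauto
      · intro w hw
        simp only [Finset.mem_insert, Finset.mem_singleton] at hw
        rcases hw with rfl | rfl | rfl
        · rw [r1]; exact h0.symm
        · rw [r2]; exact h01.symm
        · rw [r3]; exact h1
    have t1 : ρ (x : OnePoint F) = (y : OnePoint F) := rx x hx1
    have t2 : ρ (y : OnePoint F) = (z : OnePoint F) := rx y n1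
    have t3 : ρ (z : OnePoint F) = (x : OnePoint F) := by rw [rx z hz1, hwz]
    have c1 : (y : OnePoint F) ≠ (x : OnePoint F) := by rw [Ne, OnePoint.coe_eq_coe]; exact d1
    have c2 : (z : OnePoint F) ≠ (y : OnePoint F) := by rw [Ne, OnePoint.coe_eq_coe]; exact d2
    have c3 : (z : OnePoint F) ≠ (x : OnePoint F) := by rw [Ne, OnePoint.coe_eq_coe]; exact d3
    have cycT : Cyc ρ {(x : OnePoint F), (y : OnePoint F), (z : OnePoint F)} := by
      refine ⟨?_, ?_⟩
      · rw [Finset.map_insert, Finset.map_insert, Finset.map_singleton]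
        simp only [Equiv.coe_toEmbedding, t1, t2, t3]
        ext w
        simp only [Finset.mem_insert, Finset.mem_singleton]
        tauto
      · intro w hw
        simp only [Finset.mem_insert, Finset.mem_singleton] at hw
        rcases hw with rfl | rfl | rfl
        · rw [t1]; exact c1
        · rw [t2]; exact c2
        · rw [t3]; exact c3.symm
    have hTcard : ({(x : OnePoint F), (y : OnePoint F), (z : OnePoint F)} :
        Finset (OnePoint F)).card = 3 :=
      Finset.card_eq_three.mpr ⟨_, _, _, c1.symm, c3.symm, c2.symm, rfl⟩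
    have := h2 _ _ hScard hTcard ⟨ρ, hρm, cycS, cycT⟩
    have h3 : (∞ : OnePoint F) ∈ ({∞, ((0 : F) : OnePoint F), ((1 : F) : OnePoint F)} :
      Finset (OnePoint F)) := by simp
    rw [this] at h3
    simp at h3
  · obtain ⟨a, b, c, hab, hac, hbc, ha0, ha1, hb0, hb1, hc0, hc1⟩ := hthree
    have h3 : ((0 : F) : OnePoint F) ≠ (a : OnePoint F) := by
      rw [Ne, OnePoint.coe_eq_coe]; exact ha0.symm
    obtain ⟨ρ, hρ, hS, hT⟩ := h2 _ _ hScard
      (Finset.card_eq_three.mpr ⟨_, _, _, h0, OnePoint.infty_ne_coe a, h3, rfl⟩)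
    have hboth : ∀ w : OnePoint F, w = ∞ ∨ w = ((0 : F) : OnePoint F) →
        ρ w = ∞ ∨ ρ w = ((0 : F) : OnePoint F) := by
      intro w hw
      have e1 := (hS.mem (x := w)).mpr (by
        simp only [Finset.mem_insert, Finset.mem_singleton]; tauto)
      have e2 := (hT.mem (x := w)).mpr (by
        simp only [Finset.mem_insert, Finset.mem_singleton]; tauto)
      simp only [Finset.mem_insert, Finset.mem_singleton] at e1 e2
      rcases e1 with e1 | e1 | e1
      · exact Or.inl e1
      · exact Or.inr e1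
      · exfalso
        rw [e1] at e2
        rcases e2 with e2 | e2 | e2
        · exact h1 e2.symm
        · exact h01 e2.symm
        · rw [OnePoint.coe_eq_coe] at e2; exact ha1 e2.symm
    have f1 : ρ ∞ = ((0 : F) : OnePoint F) := by
      rcases hboth ∞ (Or.inl rfl) with h | h
      · exact absurd h (hS.2 ∞ (by simp))
      · exact h
    have f2 : ρ ((0 : F) : OnePoint F) = ∞ := by
      rcases hboth _ (Or.inr rfl) with h | h
      · exact h
      · exact absurd h (hS.2 _ (by simp))
    have e1 := (hS.mem (x := ((1 : F) : OnePoint F))).mpr (by simp)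
    simp only [Finset.mem_insert, Finset.mem_singleton] at e1
    rcases e1 with e1 | e1 | e1
    · rw [← f2] at e1; exact h01 (ρ.injective e1).symm
    · rw [← f1] at e1; exact h1 (ρ.injective e1).symm
    · exact hS.2 _ (by simp) e1

end Pool.Agent.H922
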