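import Mathlib
import Pool.Agent.H922.PL1

set_option autoImplicit false
set_option linter.style.haveILetI false
set_option linter.unusedVariables false
set_option linter.unusedSectionVars false

/-!
# 3-transitive subgroups of `PΓL(2, q)`: Steiner systems from subfields
-/

namespace Pool.Agent.H922

open Equiv MulAction Matrix
open scoped Pointwise OnePoint

variable {F : Type*} [Field F] [DecidableEq F] [Finite F]

theorem perm_apply_inv {X : Type*} (g : Perm X) (x : X) : g (g⁻¹ x) = x := by simp

/-- a subfield of a finite field consists of the solutions of `x ^ |E| = x` -/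
theorem mem_subfield_iff (E : Subfield F) (x : F) : x ∈ E ↔ x ^ Nat.card E = x := by
  classical
  haveI := Fintype.ofFinite F
  haveI : Fintype E := Fintype.ofFinite E
  constructor
  · intro hx
    have := FiniteField.pow_card (⟨x, hx⟩ : E)
    rw [← Nat.card_eq_fintype_card] at this
    exact congrArg (fun y : E => (y : F)) this
  · intro hx
    -- the set of roots
    have hq : 1 < Nat.card E := Finite.one_lt_card
    have hne : (Polynomial.X ^ Nat.card E - Polynomial.X : Polynomial F) ≠ 0 :=
      FiniteField.X_pow_card_sub_X_ne_zero F hq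
    have hdeg := FiniteField.X_pow_card_sub_X_natDegree_eq F hq
    have hroots : (Polynomial.X ^ Nat.card E - Polynomial.X : Polynomial F).roots.toFinset.card ≤
        Nat.card E := by
      calc _ ≤ (Polynomial.X ^ Nat.card E - Polynomial.X : Polynomial F).roots.card :=
            Multiset.toFinset_card_le _
        _ ≤ _ := Polynomial.card_roots' _
        _ = _ := hdeg
    have hsub : (Finset.univ : Finset E).map ⟨Subtype.val, Subtype.val_injective⟩ ⊆
        (Polynomial.X ^ Nat.card E - Polynomial.X : Polynomial F).roots.toFinset := by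
      intro y hy
      simp only [Finset.mem_map, Finset.mem_univ, true_and, Function.Embedding.coeFn_mk] at hy
      obtain ⟨z, rfl⟩ := hy
      rw [Multiset.mem_toFinset, Polynomial.mem_roots hne]
      have := FiniteField.pow_card z
      rw [← Nat.card_eq_fintype_card] at this
      have h2 := congrArg (fun y : E => (y : F)) this
      simp only [SubmonoidClass.coe_pow] at h2
      rw [Polynomial.IsRoot, Polynomial.eval_sub, Polynomial.eval_pow, Polynomial.eval_X, h2,
        sub_self]
    have heq := Finset.eq_of_subset_of_card_le hsub (by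
      rw [Finset.card_map, Finset.card_univ, ← Nat.card_eq_fintype_card]
      exact hroots)
    have hxr : x ∈ (Polynomial.X ^ Nat.card E - Polynomial.X : Polynomial F).roots.toFinset := by
      rw [Multiset.mem_toFinset, Polynomial.mem_roots hne]
      rw [Polynomial.IsRoot, Polynomial.eval_sub, Polynomial.eval_pow, Polynomial.eval_X, hx,
        sub_self]
    rw [← heq] at hxr
    simp only [Finset.mem_map, Finset.mem_univ, true_and, Function.Embedding.coeFn_mk] at hxr
    obtain ⟨z, rfl⟩ := hxr
    exact z.2

theorem map_subfield_iff (E : Subfield F) (σ : F ≃+* F) (x : F) : σ x ∈ E ↔ x ∈ E := by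
  rw [mem_subfield_iff, mem_subfield_iff, ← map_pow]
  exact σ.injective.eq_iff

/-- the subline of a subfield -/
noncomputable def subline (E : Subfield F) : Finset (OnePoint F) := by
  classical
  exact (Set.toFinite {x : OnePoint F | ∀ y : F, x = y → y ∈ E}).toFinset

theorem mem_subline {E : Subfield F} {x : OnePoint F} :
    x ∈ subline E ↔ ∀ y : F, x = y → y ∈ E := by
  unfold subline
  simp

theorem infty_mem_subline {E : Subfield F} : (∞ : OnePoint F) ∈ subline E := by
  rw [mem_subline]
  intro y hy
  exact absurd hy (OnePoint.infty_ne_coe y)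

theorem coe_mem_subline {E : Subfield F} {x : F} : (x : OnePoint F) ∈ subline E ↔ x ∈ E := by
  rw [mem_subline]
  constructor
  · intro h
    exact h x rfl
  · intro h y hy
    rw [OnePoint.coe_eq_coe] at hy
    exact hy ▸ h

theorem card_subline (E : Subfield F) : (subline E).card = Nat.card E + 1 := by
  classical
  haveI : Fintype E := Fintype.ofFinite E
  have h : subline E = insert ∞ ((Finset.univ : Finset E).map
      ⟨fun x : E => ((x : F) : OnePoint F), fun x y h => by
        apply Subtype.ext; exact OnePoint.coe_eq_coe.mp h⟩) := by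
    ext x
    rw [Finset.mem_insert, Finset.mem_map]
    cases x with
    | infty => simp [infty_mem_subline]
    | coe x =>
      rw [coe_mem_subline]
      constructor
      · intro hx
        right
        exact ⟨⟨x, hx⟩, Finset.mem_univ _, rfl⟩
      · rintro (h | ⟨y, -, hy⟩)
        · exact absurd h (OnePoint.coe_ne_infty x)
        · simp only [Function.Embedding.coeFn_mk, OnePoint.coe_eq_coe] at hy
          rw [← hy]
          exact y.2
  rw [h, Finset.card_insert_of_notMem, Finset.card_map, Finset.card_univ, Nat.card_eq_fintype_card]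
  intro h1
  obtain ⟨y, -, hy⟩ := Finset.mem_map.mp h1
  exact OnePoint.coe_ne_infty _ hy

/-- three points of the subline can be moved to `∞, 0, 1` inside `PGL(2, E)` -/
theorem subline_trans (E : Subfield F) {x y z : OnePoint F} (hx : x ∈ subline E)
    (hy : y ∈ subline E) (hz : z ∈ subline E) (hxy : x ≠ y) (hxz : x ≠ z) (hyz : y ≠ z) :
    ∃ g ∈ PGL2 F, g ∞ = x ∧ g ((0 : F) : OnePoint F) = y ∧ g ((1 : F) : OnePoint F) = z ∧
      (subline E).map g.toEmbedding = subline E := by
  classical
  have lift : ∀ w ∈ subline E, ∃ w' : OnePoint E, OnePoint.map (E.subtype) w' = w := by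
    intro w hw
    cases w with
    | infty => exact ⟨∞, rfl⟩
    | coe w =>
      rw [coe_mem_subline] at hw
      exact ⟨((⟨w, hw⟩ : E) : OnePoint E), rfl⟩
  obtain ⟨x', rfl⟩ := lift x hx
  obtain ⟨y', rfl⟩ := lift y hy
  obtain ⟨z', rfl⟩ := lift z hz
  obtain ⟨A, h1, h2, h3⟩ := gl_three_trans x' y' z' (fun h => hxy (by rw [h]))
    (fun h => hxz (by rw [h])) (fun h => hyz (by rw [h]))
  have hmap : ∀ c : OnePoint E, (A.map E.subtype) • (OnePoint.map E.subtype c) =
      OnePoint.map E.subtype (A • c) := fun c => (OnePoint.map_smul E.subtype A c).symm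
  refine ⟨MulAction.toPerm (A.map E.subtype), ?_, ?_, ?_, ?_, ?_⟩
  · rw [mem_PGL2]; exact ⟨_, fun x => rfl⟩
  · have := hmap ∞
    rw [h1] at this
    exact this
  · have := hmap ((0 : E) : OnePoint E)
    rw [h2] at this
    exact this
  · have := hmap ((1 : E) : OnePoint E)
    rw [h3] at this
    exact this
  · apply Finset.eq_of_subset_of_card_le
    · intro w hw
      obtain ⟨v, hv, rfl⟩ := Finset.mem_map.mp hw
      obtain ⟨v', rfl⟩ := lift v hv
      have : (MulAction.toPerm (A.map E.subtype)) (OnePoint.map E.subtype v') =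
        OnePoint.map E.subtype (A • v') := hmap v'
      change (MulAction.toPerm (A.map E.subtype)) (OnePoint.map E.subtype v') ∈ _
      rw [this]
      generalize A • v' = u
      cases u with
      | infty => exact infty_mem_subline
      | coe u => exact coe_mem_subline.mpr u.2
    · rw [Finset.card_map]

/-- The sublines over a subfield `E`, `2 < |E| < |F|`, form a Steiner system invariant under
`PΓL(2, F)`. -/
theorem not_steiner_of_subfield {G : Subgroup (Perm (OnePoint F))} (hG : G ≤ PGammaL F)
    (E : Subfield F) (h2 : 2 < Nat.card E) (hE : Nat.card E < Nat.card F) :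
    ¬ TSteinerPrimitive G 3 := by
  classical
  intro hst
  apply hst
  refine ⟨Nat.card E + 1, {B | ∃ g ∈ PGammaL F, B = (subline E).map g.toEmbedding}, by omega,
    by rw [card_onePoint]; omega, ⟨?_, ?_⟩, ?_⟩
  · rintro B ⟨g, -, rfl⟩
    rw [Finset.card_map, card_subline]
  · intro T hT
    obtain ⟨x, y, z, hxy, hxz, hyz, rfl⟩ := Finset.card_eq_three.mp hT
    obtain ⟨g, hg, h1, h2, h3⟩ := PGL2_exists (F := F) (OnePoint.infty_ne_coe (0 : F))
      (OnePoint.infty_ne_coe (1 : F)) (fun h => zero_ne_one (OnePoint.coe_eq_coe.mp h))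
      hxy hxz hyz
    have m0 : ((0 : F) : OnePoint F) ∈ subline E := coe_mem_subline.mpr E.zero_mem
    have m1 : ((1 : F) : OnePoint F) ∈ subline E := coe_mem_subline.mpr E.one_mem
    refine ⟨(subline E).map g.toEmbedding, ⟨⟨g, PGL2_le hg, rfl⟩, ?_⟩, ?_⟩
    · intro w hw
      simp only [Finset.mem_insert, Finset.mem_singleton] at hw
      rcases hw with rfl | rfl | rfl
      · rw [← h1]; exact mem_map_perm.mpr infty_mem_subline
      · rw [← h2]; exact mem_map_perm.mpr m0
      · rw [← h3]; exact mem_map_perm.mpr m1
    · rintro B ⟨⟨k, hk, rfl⟩, hT⟩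
      have hx : k⁻¹ x ∈ subline E := mem_map_perm'.mp (hT (by simp))
      have hy : k⁻¹ y ∈ subline E := mem_map_perm'.mp (hT (by simp))
      have hz : k⁻¹ z ∈ subline E := mem_map_perm'.mp (hT (by simp))
      obtain ⟨u, hu, u1, u2, u3, hsub⟩ := subline_trans E hx hy hz
        (k⁻¹.injective.ne hxy) (k⁻¹.injective.ne hxz) (k⁻¹.injective.ne hyz)
      -- `g⁻¹ k u` fixes `∞, 0, 1`
      have hm : g⁻¹ * k * u ∈ PGammaL F :=
        (PGammaL F).mul_mem ((PGammaL F).mul_mem ((PGammaL F).inv_mem (PGL2_le hg)) hk)
          (PGL2_le hu)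
      obtain ⟨σ, hσ⟩ := semi_fix_three hm
        (by rw [Perm.mul_apply, Perm.mul_apply, u1, Perm.inv_eq_iff_eq, perm_apply_inv, h1])
        (by rw [Perm.mul_apply, Perm.mul_apply, u2, Perm.inv_eq_iff_eq, perm_apply_inv, h2])
        (by rw [Perm.mul_apply, Perm.mul_apply, u3, Perm.inv_eq_iff_eq, perm_apply_inv, h3])
      have hfix : (subline E).map (g⁻¹ * k * u).toEmbedding = subline E := by
        apply Finset.eq_of_subset_of_card_le
        · intro w hw
          obtain ⟨v, hv, rfl⟩ := Finset.mem_map.mp hw
          change (g⁻¹ * k * u) v ∈ _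
          rw [hσ]
          cases v with
          | infty => exact infty_mem_subline
          | coe v =>
            rw [OnePoint.map_some, coe_mem_subline, map_subfield_iff]
            exact coe_mem_subline.mp hv
        · rw [Finset.card_map]
      rw [← map_mul_perm, hsub, ← map_mul_perm] at hfix
      have := congrArg (fun S : Finset (OnePoint F) => S.map g.toEmbedding) hfix
      simp only [map_mul_perm] at this
      rw [← mul_assoc, mul_inv_cancel, one_mul] at this
      exact this
  · rintro g hg B ⟨k, hk, rfl⟩
    refine ⟨g * k, (PGammaL F).mul_mem (hG hg) hk, ?_⟩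
    rw [map_mul_perm]

end Pool.Agent.H922
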