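import Mathlib
import Pool.Agent.H922.PL2

set_option autoImplicit false
set_option linter.style.haveILetI false
set_option linter.unusedVariables false
set_option linter.unusedSectionVars false

/-!
# 3-transitive subgroups of `PΓL(2, q)`: no Steiner systems without intermediate subfields
-/

namespace Pool.Agent.H922

open Equiv MulAction Matrix
open scoped Pointwise OnePoint

variable {F : Type*} [Field F] [DecidableEq F] [Finite F]

theorem natCard_finset {Y : Type*} (s : Finset Y) : Nat.card s = s.card := by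
  rw [Nat.card_eq_fintype_card, Fintype.card_coe]

/-- There is no subfield `E` with `2 < |E| < |F|`. -/
def NoInter (F : Type*) [Field F] : Prop :=
  ¬ ∃ E : Subfield F, 2 < Nat.card E ∧ Nat.card E < Nat.card F

/-- automorphisms of a finite field are linear over the prime field -/
noncomputable def autEquiv (p : ℕ) [Fact p.Prime] [Algebra (ZMod p) F] :
    (F ≃ₐ[ZMod p] F) ≃ (F ≃+* F) where
  toFun σ := σ.toRingEquiv
  invFun σ := AlgEquiv.ofRingEquiv (f := σ) (fun x => by
    have : (σ : F →+* F).comp (algebraMap (ZMod p) F) = algebraMap (ZMod p) F :=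
      Subsingleton.elim _ _
    exact congrArg (fun f : ZMod p →+* F => f x) this)
  left_inv σ := by ext x; rfl
  right_inv σ := by ext x; rfl

omit [DecidableEq F] in
theorem aut_structure (h : NoInter F) : Nat.card (F ≃+* F) = 1 ∨
    ∃ r : ℕ, r.Prime ∧ Nat.card (F ≃+* F) = r ∧ Nat.card F = 2 ^ r := by
  classical
  haveI := Fintype.ofFinite F
  obtain ⟨p, hchar⟩ := CharP.exists F
  haveI := hchar
  haveI hp : Fact p.Prime := ⟨CharP.char_is_prime F p⟩
  letI : Algebra (ZMod p) F := ZMod.algebra F p
  set n := Module.finrank (ZMod p) F with hn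
  have hcard : Nat.card F = p ^ n := by
    rw [Module.natCard_eq_pow_finrank (K := ZMod p), Nat.card_zmod]
  have haut : Nat.card (F ≃+* F) = n := by
    rw [← Nat.card_congr (autEquiv (F := F) p)]
    exact IsGalois.card_aut_eq_finrank (ZMod p) F
  have hn0 : 0 < n := Module.finrank_pos
  by_cases hn1 : n = 1
  · left; rw [haut, hn1]
  right
  have hn2 : 1 < n := by omega
  have hp1 := hp.out.one_lt
  -- the prime field
  have hp2 : p = 2 := by
    by_contra hne
    apply h
    refine ⟨(⊥ : IntermediateField (ZMod p) F).toSubfield, ?_⟩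
    have e : Nat.card (⊥ : IntermediateField (ZMod p) F).toSubfield = p := by
      have := Nat.card_congr (IntermediateField.botEquiv (ZMod p) F).toEquiv
      rw [Nat.card_zmod] at this
      exact this
    rw [e, hcard]
    refine ⟨by omega, ?_⟩
    calc p = p ^ 1 := (pow_one p).symm
      _ < p ^ n := Nat.pow_lt_pow_right hp1 hn2
  subst hp2
  obtain ⟨ℓ, hℓ, hdvd⟩ := Nat.exists_prime_and_dvd (n := n) (by omega)
  haveI : Fact ℓ.Prime := ⟨hℓ⟩
  obtain ⟨σ, hσ⟩ := exists_prime_orderOf_dvd_card' (G := (F ≃ₐ[ZMod 2] F)) ℓ (by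
    rw [IsGalois.card_aut_eq_finrank (ZMod 2) F]; exact hdvd)
  set E := IntermediateField.fixedField (Subgroup.zpowers σ) with hE
  have hfr : Module.finrank E F = ℓ := by
    rw [hE, IntermediateField.finrank_fixedField_eq_card, Nat.card_zpowers, hσ]
  have hEF : Nat.card F = Nat.card E ^ ℓ := by
    rw [Module.natCard_eq_pow_finrank (K := E), hfr]
  have hE1 : 1 < Nat.card E := Finite.one_lt_card
  have hlt : Nat.card E < Nat.card F := by
    rw [hEF]
    calc Nat.card E = Nat.card E ^ 1 := (pow_one _).symm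
      _ < Nat.card E ^ ℓ := Nat.pow_lt_pow_right hE1 hℓ.one_lt
  have hE2 : Nat.card E = 2 := by
    by_contra hne
    apply h
    refine ⟨E.toSubfield, ?_, hlt⟩
    have : Nat.card E.toSubfield = Nat.card E := rfl
    omega
  rw [hE2, hcard] at hEF
  have hnl : n = ℓ := Nat.pow_right_injective (le_refl 2) hEF
  exact ⟨n, hnl ▸ hℓ, haut, hcard⟩

/-- field automorphisms as permutations of the projective line -/
def autPerm : (F ≃+* F) →* Perm (OnePoint F) where
  toFun σ := {
    toFun := OnePoint.map σ
    invFun := OnePoint.map σ.symm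
    left_inv := fun x => by
      cases x with
      | infty => rfl
      | coe x => simp
    right_inv := fun x => by
      cases x with
      | infty => rfl
      | coe x => simp }
  map_one' := by
    ext1 x
    cases x <;> rfl
  map_mul' σ τ := by
    ext1 x
    cases x <;> rfl

theorem autPerm_coe (σ : F ≃+* F) (x : F) : autPerm σ (x : OnePoint F) = ((σ x : F) : OnePoint F) :=
  rfl

theorem autPerm_infty (σ : F ≃+* F) : autPerm σ (∞ : OnePoint F) = ∞ := rfl

/-- powers of an element fixing `∞` and `0` -/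
theorem pow_fix_two {g : Perm (OnePoint F)} {u : F} (hu : u ≠ 0) {σ : F ≃+* F}
    (h : ∀ x : F, g (x : OnePoint F) = ((u * σ x : F) : OnePoint F)) (n : ℕ) :
    ∃ w : F, w ≠ 0 ∧ ∀ x : F, (g ^ n) (x : OnePoint F) = ((w * (σ ^ n) x : F) : OnePoint F) := by
  induction n with
  | zero => exact ⟨1, one_ne_zero, fun x => by simp⟩
  | succ n ih =>
    obtain ⟨w, hw, ih⟩ := ih
    refine ⟨u * σ w, mul_ne_zero hu (by simpa using hw), fun x => ?_⟩
    rw [pow_succ', Perm.mul_apply, ih, h, map_mul, OnePoint.coe_eq_coe, pow_succ', mul_assoc]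
    rfl

/-- the full torus fixing `∞` and `0` -/
theorem torus_mem {G : Subgroup (Perm (OnePoint F))} (hG : G ≤ PGammaL F)
    (htr : TTransitive G 3) (hno : NoInter F) (u : F) (hu : u ≠ 0) :
    ∃ g ∈ G, g ∞ = ∞ ∧ ∀ x : F, g (x : OnePoint F) = ((u * x : F) : OnePoint F) := by
  have h01 : ((0 : F) : OnePoint F) ≠ ((1 : F) : OnePoint F) := by
    rw [Ne, OnePoint.coe_eq_coe]; exact zero_ne_one
  -- elements with prescribed values
  have hex : ∀ v : F, v ≠ 0 → ∃ g ∈ G, g ∞ = ∞ ∧ ∃ σ : F ≃+* F,
      ∀ x : F, g (x : OnePoint F) = ((v * σ x : F) : OnePoint F) := by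
    intro v hv
    have h0v : ((0 : F) : OnePoint F) ≠ (v : OnePoint F) := by
      rw [Ne, OnePoint.coe_eq_coe]; exact hv.symm
    obtain ⟨g, hg, hgi⟩ := (multTrans_iff G 3).mp htr.2
      ![∞, ((0 : F) : OnePoint F), ((1 : F) : OnePoint F)]
      ![∞, ((0 : F) : OnePoint F), ((v : F) : OnePoint F)]
      (by
        intro i j hij
        fin_cases i <;> fin_cases j <;> simp_all [OnePoint.infty_ne_coe])
      (by
        intro i j hij
        fin_cases i <;> fin_cases j <;> simp_all [OnePoint.infty_ne_coe])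
    have h1 : g ∞ = ∞ := hgi 0
    have h2 : g ((0 : F) : OnePoint F) = ((0 : F) : OnePoint F) := hgi 1
    have h3 : g ((1 : F) : OnePoint F) = ((v : F) : OnePoint F) := hgi 2
    obtain ⟨w, σ, hw, hx⟩ := semi_fix_two (hG hg) h1 h2
    rw [hx, map_one, mul_one, OnePoint.coe_eq_coe] at h3
    exact ⟨g, hg, h1, σ, fun x => by rw [hx, h3]⟩
  rcases aut_structure hno with haut | ⟨r, hr, haut, hcard⟩
  · -- no automorphisms
    obtain ⟨g, hg, h1, σ, hσ⟩ := hex u hu
    have : σ = 1 := by
      have := (Nat.card_eq_one_iff_unique.mp haut).1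
      exact this.elim _ _
    refine ⟨g, hg, h1, fun x => ?_⟩
    rw [hσ, this]
    rfl
  · haveI : Fact r.Prime := ⟨hr⟩
    by_cases hpure : ∃ σ : F ≃+* F, σ ≠ 1 ∧ autPerm σ ∈ G
    · obtain ⟨σ, hσ1, hσG⟩ := hpure
      obtain ⟨g, hg, h1, τ, hτ⟩ := hex u hu
      have hmem : τ⁻¹ ∈ Subgroup.zpowers σ := mem_zpowers_of_prime_card haut hσ1
      obtain ⟨i, hi⟩ := Subgroup.mem_zpowers_iff.mp hmem
      have h2 : autPerm τ⁻¹ ∈ G := by
        rw [← hi, map_zpow]
        exact G.zpow_mem hσG i
      refine ⟨g * autPerm τ⁻¹, G.mul_mem hg h2, ?_, fun x => ?_⟩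
      · rw [Perm.mul_apply, autPerm_infty, h1]
      · rw [Perm.mul_apply, autPerm_coe, hτ]
        congr 1
        congr 1
        have : τ (τ⁻¹ x) = (τ * τ⁻¹) x := rfl
        rw [this, mul_inv_cancel]
        rfl
    · push Not at hpure
      -- the stabiliser of `∞` and `0` has order `q - 1`
      let H : Subgroup (Perm (OnePoint F)) := {
        carrier := {g | g ∈ G ∧ g ∞ = ∞ ∧ g ((0 : F) : OnePoint F) = ((0 : F) : OnePoint F)}
        one_mem' := ⟨G.one_mem, rfl, rfl⟩
        mul_mem' := by
          rintro g h ⟨a1, a2, a3⟩ ⟨b1, b2, b3⟩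
          refine ⟨G.mul_mem a1 b1, ?_, ?_⟩
          · rw [Perm.mul_apply, b2, a2]
          · rw [Perm.mul_apply, b3, a3]
        inv_mem' := by
          rintro g ⟨a1, a2, a3⟩
          refine ⟨G.inv_mem a1, ?_, ?_⟩
          · rw [Perm.inv_eq_iff_eq, a2]
          · rw [Perm.inv_eq_iff_eq, a3] }
      have hHcard : Nat.card H = Nat.card Fˣ := by
        have hval : ∀ h : H, ∃ w : Fˣ, (h : Perm (OnePoint F)) ((1 : F) : OnePoint F) =
            ((w : F) : OnePoint F) := by
          rintro ⟨g, a1, a2, a3⟩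
          obtain ⟨w, σ, hw, hx⟩ := semi_fix_two (hG a1) a2 a3
          refine ⟨Units.mk0 w hw, ?_⟩
          change g ((1 : F) : OnePoint F) = _
          rw [hx, map_one, mul_one]
          rfl
        choose f hf using hval
        apply Nat.card_congr
        apply Equiv.ofBijective f
        constructor
        · intro g h hgh
          have e1 := hf g
          rw [hgh, ← hf h] at e1
          -- `h⁻¹ g` is a field automorphism
          have hm := (H.mul_mem (H.inv_mem h.2) g.2)
          obtain ⟨a1, a2, a3⟩ := hm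
          obtain ⟨σ, hσ⟩ := semi_fix_three (hG a1) a2 a3 (by
            rw [Perm.mul_apply, e1, Perm.inv_eq_iff_eq])
          have h5 : ((h : Perm (OnePoint F))⁻¹ * (g : Perm (OnePoint F))) = autPerm σ :=
            Equiv.ext hσ
          have h6 : σ = 1 := by
            by_contra hne
            apply hpure σ hne
            rw [← h5]
            exact a1
          rw [h6, map_one, inv_mul_eq_one] at h5
          exact Subtype.ext h5.symm
        · intro w
          obtain ⟨g, hg, h1, σ, hσ⟩ := hex w w.ne_zero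
          refine ⟨⟨g, hg, h1, by rw [hσ, map_zero, mul_zero]⟩, ?_⟩
          have e1 := hf ⟨g, hg, h1, by rw [hσ, map_zero, mul_zero]⟩
          change g ((1 : F) : OnePoint F) = _ at e1
          rw [hσ, map_one, mul_one, OnePoint.coe_eq_coe] at e1
          exact Units.ext e1.symm
      obtain ⟨g, hg, h1, σ, hσ⟩ := hex u hu
      have hgH : g ∈ H := ⟨hg, h1, by rw [hσ, map_zero, mul_zero]⟩
      have hpow : g ^ Nat.card Fˣ = 1 := by
        rw [← hHcard]
        have := pow_card_eq_one' (x := (⟨g, hgH⟩ : H))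
        exact congrArg Subtype.val this
      have hσ1 : σ = 1 := by
        by_contra hne
        obtain ⟨w, hw, hx⟩ := pow_fix_two hu hσ (Nat.card Fˣ)
        rw [hpow] at hx
        have hw1 : w = 1 := by
          have := hx 1
          rw [map_one, mul_one, Perm.one_apply, OnePoint.coe_eq_coe] at this
          exact this.symm
        have hs : σ ^ Nat.card Fˣ = 1 := by
          ext x
          have := hx x
          rw [hw1, one_mul, Perm.one_apply, OnePoint.coe_eq_coe] at this
          exact this.symm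
        have hord : orderOf σ = r := by
          have h7 : orderOf σ ∣ r := haut ▸ orderOf_dvd_natCard σ
          rcases (Nat.dvd_prime hr).mp h7 with h8 | h8
          · exact absurd (orderOf_eq_one_iff.mp h8) hne
          · exact h8
        have hdvd : r ∣ Nat.card Fˣ := hord ▸ orderOf_dvd_of_pow_eq_one hs
        rw [card_units_F, hcard] at hdvd
        -- Fermat
        have hf := ZMod.pow_card (p := r) (2 : ZMod r)
        have h9 : ((2 ^ r - 1 : ℕ) : ZMod r) = 0 := (ZMod.natCast_eq_zero_iff _ _).mpr hdvd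
        rw [Nat.cast_sub Nat.one_le_two_pow] at h9
        push_cast at h9
        rw [hf] at h9
        have h10 : (1 : ZMod r) = 0 := by
          have : (2 : ZMod r) - 1 = 1 := by norm_num
          rw [this] at h9
          exact h9
        exact one_ne_zero h10
      refine ⟨g, hg, h1, fun x => ?_⟩
      rw [hσ, hσ1]
      rfl

/-- the full torus fixing `∞` and `1` -/
theorem torus_mem' {G : Subgroup (Perm (OnePoint F))} (hG : G ≤ PGammaL F)
    (htr : TTransitive G 3) (hno : NoInter F) (u : F) (hu : u ≠ 0) :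
    ∃ g ∈ G, g ∞ = ∞ ∧ ∀ x : F, g (x : OnePoint F) = ((u * (x - 1) + 1 : F) : OnePoint F) := by
  have h01 : ((0 : F) : OnePoint F) ≠ ((1 : F) : OnePoint F) := by
    rw [Ne, OnePoint.coe_eq_coe]; exact zero_ne_one
  obtain ⟨k, hk, hki⟩ := (multTrans_iff G 3).mp htr.2
    ![∞, ((0 : F) : OnePoint F), ((1 : F) : OnePoint F)]
    ![∞, ((1 : F) : OnePoint F), ((0 : F) : OnePoint F)]
    (by
      intro i j hij
      fin_cases i <;> fin_cases j <;> simp_all [OnePoint.infty_ne_coe])
    (by
      intro i j hij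
      fin_cases i <;> fin_cases j <;> simp_all [OnePoint.infty_ne_coe])
  have h1 : k ∞ = ∞ := hki 0
  have h2 : k ((0 : F) : OnePoint F) = ((1 : F) : OnePoint F) := hki 1
  have h3 : k ((1 : F) : OnePoint F) = ((0 : F) : OnePoint F) := hki 2
  -- `k x = 1 - σ x`
  obtain ⟨σ, hσ⟩ : ∃ σ : F ≃+* F, ∀ x : F, k (x : OnePoint F) = ((1 - σ x : F) : OnePoint F) := by
    have hd : (-1 : F) * 1 - 1 * 0 ≠ 0 := by simp
    obtain ⟨m, hm⟩ : ∃ m : Perm (OnePoint F), ∀ y, m y = mk2 (-1) 1 0 1 hd • y :=
      ⟨MulAction.toPerm (mk2 (-1) 1 0 1 hd), fun y => rfl⟩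
    have hmP : m ∈ PGammaL F := PGL2_le (mem_PGL2.mpr ⟨_, hm⟩)
    have hmc : ∀ x : F, m (x : OnePoint F) = ((1 - x : F) : OnePoint F) := by
      intro x
      rw [hm, mk2_coe, if_neg (by simp), OnePoint.coe_eq_coe]
      ring
    have hmi : m ∞ = ∞ := by rw [hm, mk2_infty, if_pos rfl]
    obtain ⟨σ, hσ⟩ := semi_fix_three ((PGammaL F).mul_mem hmP (hG hk))
      (by rw [Perm.mul_apply, h1, hmi])
      (by rw [Perm.mul_apply, h2, hmc, sub_self])
      (by rw [Perm.mul_apply, h3, hmc, sub_zero])
    refine ⟨σ, fun x => ?_⟩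
    have h4 := hσ (x : OnePoint F)
    rw [Perm.mul_apply, OnePoint.map_some] at h4
    have h5 : m (m (k (x : OnePoint F))) = k (x : OnePoint F) := by
      generalize k (x : OnePoint F) = y
      cases y with
      | infty => rw [hmi, hmi]
      | coe y => rw [hmc, hmc, OnePoint.coe_eq_coe]; ring
    rw [← h5, h4, hmc]
  obtain ⟨g, hg, hgi, hgx⟩ := torus_mem hG htr hno (σ.symm u) (by simpa using hu)
  refine ⟨k * g * k⁻¹, G.mul_mem (G.mul_mem hk hg) (G.inv_mem hk), ?_, fun x => ?_⟩
  · have : k⁻¹ ∞ = ∞ := by rw [Perm.inv_eq_iff_eq, h1]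
    rw [Perm.mul_apply, Perm.mul_apply, this, hgi, h1]
  · have : k⁻¹ (x : OnePoint F) = ((σ.symm (1 - x) : F) : OnePoint F) := by
      rw [Perm.inv_eq_iff_eq, hσ, OnePoint.coe_eq_coe, RingEquiv.apply_symm_apply]
      ring
    rw [Perm.mul_apply, Perm.mul_apply, this, hgx, hσ, OnePoint.coe_eq_coe, map_mul,
      RingEquiv.apply_symm_apply, RingEquiv.apply_symm_apply]
    ring

/-- Without intermediate subfields the 3-transitive subgroups of `PΓL(2, F)` are 3-Steiner
primitive. -/
theorem steiner_of_noInter {G : Subgroup (Perm (OnePoint F))} (hG : G ≤ PGammaL F)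
    (htr : TTransitive G 3) (hno : NoInter F) : TSteinerPrimitive G 3 := by
  classical
  rintro ⟨k, 𝓑, hk3, hkn, ⟨hB1, hB2⟩, hinv⟩
  rw [card_onePoint] at hkn
  have h0 : (∞ : OnePoint F) ≠ ((0 : F) : OnePoint F) := OnePoint.infty_ne_coe 0
  have h1 : (∞ : OnePoint F) ≠ ((1 : F) : OnePoint F) := OnePoint.infty_ne_coe 1
  have h01 : ((0 : F) : OnePoint F) ≠ ((1 : F) : OnePoint F) := by
    rw [Ne, OnePoint.coe_eq_coe]; exact zero_ne_one
  obtain ⟨B, ⟨hB, hTB⟩, -⟩ := hB2 {∞, ((0 : F) : OnePoint F), ((1 : F) : OnePoint F)}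
    (Finset.card_eq_three.mpr ⟨_, _, _, h0, h1, h01, rfl⟩)
  have mi : (∞ : OnePoint F) ∈ B := hTB (by simp)
  have m0 : ((0 : F) : OnePoint F) ∈ B := hTB (by simp)
  have m1 : ((1 : F) : OnePoint F) ∈ B := hTB (by simp)
  -- a group element mapping three points of `B` into `B` fixes `B`
  have hfix : ∀ g ∈ G, ∀ x y z : OnePoint F, x ≠ y → x ≠ z → y ≠ z → x ∈ B → y ∈ B → z ∈ B →
      g x ∈ B → g y ∈ B → g z ∈ B → B.map g.toEmbedding = B := by
    intro g hg x y z hxy hxz hyz hx hy hz hgx hgy hgz
    apply (hB2 {g x, g y, g z} (Finset.card_eq_three.mpr ⟨_, _, _, g.injective.ne hxy,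
      g.injective.ne hxz, g.injective.ne hyz, rfl⟩)).unique ⟨hinv g hg B hB, ?_⟩ ⟨hB, ?_⟩
    · intro w hw
      simp only [Finset.mem_insert, Finset.mem_singleton] at hw
      rcases hw with rfl | rfl | rfl
      · exact mem_map_perm.mpr hx
      · exact mem_map_perm.mpr hy
      · exact mem_map_perm.mpr hz
    · intro w hw
      simp only [Finset.mem_insert, Finset.mem_singleton] at hw
      rcases hw with rfl | rfl | rfl
      · exact hgx
      · exact hgy
      · exact hgz
  -- multiplication
  have hmul : ∀ b : F, b ≠ 0 → (b : OnePoint F) ∈ B → ∀ x : F, (x : OnePoint F) ∈ B ↔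
      ((b * x : F) : OnePoint F) ∈ B := by
    intro b hb hbB x
    obtain ⟨g, hg, hgi, hgx⟩ := torus_mem hG htr hno b hb
    have := hfix g hg _ _ _ h0 h1 h01 mi m0 m1 (by rw [hgi]; exact mi)
      (by rw [hgx, mul_zero]; exact m0) (by rw [hgx, mul_one]; exact hbB)
    rw [← hgx, ← this, mem_map_perm, this]
  have hmul' : ∀ b : F, b ≠ 1 → (b : OnePoint F) ∈ B → ∀ x : F, (x : OnePoint F) ∈ B ↔
      (((1 - b) * (x - 1) + 1 : F) : OnePoint F) ∈ B := by
    intro b hb hbB x
    obtain ⟨g, hg, hgi, hgx⟩ := torus_mem' hG htr hno (1 - b) (sub_ne_zero.mpr (Ne.symm hb))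
    have := hfix g hg _ _ _ h0 h1 h01 mi m0 m1 (by rw [hgi]; exact mi)
      (by rw [hgx]; convert hbB using 2; ring) (by rw [hgx]; convert m1 using 2; ring)
    rw [← hgx, ← this, mem_map_perm, this]
  -- two subgroups of `Fˣ`
  let H1 : Subgroup Fˣ := {
    carrier := {u | ((u : F) : OnePoint F) ∈ B}
    one_mem' := m1
    mul_mem' := by
      intro u v hu hv
      exact (hmul u u.ne_zero hu v).mp hv
    inv_mem' := by
      intro u hu
      have := hmul u u.ne_zero hu ((u⁻¹ : Fˣ) : F)
      change (((u⁻¹ : Fˣ) : F) : OnePoint F) ∈ B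
      rw [this, ← Units.val_mul, mul_inv_cancel, Units.val_one]
      exact m1 }
  let H2 : Subgroup Fˣ := {
    carrier := {u | ((1 - (u : F) : F) : OnePoint F) ∈ B}
    one_mem' := by
      change ((1 - ((1 : Fˣ) : F) : F) : OnePoint F) ∈ B
      rw [Units.val_one, sub_self]; exact m0
    mul_mem' := by
      intro u v hu hv
      have := (hmul' (1 - u) (by simp) hu (1 - v)).mp hv
      change ((1 - ((u * v : Fˣ) : F) : F) : OnePoint F) ∈ B
      convert this using 2
      rw [Units.val_mul]; ring
    inv_mem' := by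
      intro u hu
      have := hmul' (1 - u) (by simp) hu (1 - ((u⁻¹ : Fˣ) : F))
      change ((1 - ((u⁻¹ : Fˣ) : F) : F) : OnePoint F) ∈ B
      rw [this]
      convert m0 using 2
      have h5 : (u : F) * ((u⁻¹ : Fˣ) : F) = 1 := by
        rw [← Units.val_mul, mul_inv_cancel, Units.val_one]
      linear_combination -h5 }
  -- both have `k - 2` elements
  let Bf : Finset F := (Set.toFinite {x : F | (x : OnePoint F) ∈ B}).toFinset
  have hBf : ∀ x : F, x ∈ Bf ↔ (x : OnePoint F) ∈ B := by
    intro x; simp [Bf]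
  have hBfcard : Bf.card + 1 = k := by
    rw [← hB1 B hB]
    have : B = insert ∞ (Bf.map ⟨fun x : F => (x : OnePoint F),
        fun x y h => OnePoint.coe_eq_coe.mp h⟩) := by
      ext x
      rw [Finset.mem_insert, Finset.mem_map]
      cases x with
      | infty => simp [mi]
      | coe x =>
        constructor
        · intro hx
          right
          exact ⟨x, (hBf x).mpr hx, rfl⟩
        · rintro (h | ⟨y, hy, hyx⟩)
          · exact absurd h (OnePoint.coe_ne_infty x)
          · simp only [Function.Embedding.coeFn_mk, OnePoint.coe_eq_coe] at hyx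
            rw [← hyx]
            exact (hBf y).mp hy
    conv_rhs => rw [this]
    rw [Finset.card_insert_of_notMem, Finset.card_map]
    intro h
    obtain ⟨y, -, hy⟩ := Finset.mem_map.mp h
    exact OnePoint.coe_ne_infty _ hy
  have hc1 : Nat.card H1 = Bf.card - 1 := by
    rw [← Finset.card_erase_of_mem ((hBf 0).mpr m0), ← natCard_finset]
    apply Nat.card_congr
    apply Equiv.ofBijective (fun u : H1 => (⟨((u : Fˣ) : F),
      Finset.mem_erase.mpr ⟨(u : Fˣ).ne_zero, (hBf _).mpr u.2⟩⟩ : Bf.erase 0))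
    constructor
    · intro u v huv
      have := congrArg (fun w : Bf.erase 0 => (w : F)) huv
      exact Subtype.ext (Units.ext this)
    · rintro ⟨x, hx⟩
      rw [Finset.mem_erase] at hx
      exact ⟨⟨Units.mk0 x hx.1, (hBf _).mp hx.2⟩, rfl⟩
  have hc2 : Nat.card H2 = Bf.card - 1 := by
    rw [← Finset.card_erase_of_mem ((hBf 1).mpr m1), ← natCard_finset]
    apply Nat.card_congr
    apply Equiv.ofBijective (fun u : H2 => (⟨1 - ((u : Fˣ) : F),
      Finset.mem_erase.mpr ⟨by
        intro h
        exact (u : Fˣ).ne_zero (by linear_combination -h), (hBf _).mpr u.2⟩⟩ : Bf.erase 1))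
    constructor
    · intro u v huv
      have := congrArg (fun w : Bf.erase 1 => (w : F)) huv
      simp only [sub_right_inj] at this
      exact Subtype.ext (Units.ext this)
    · rintro ⟨x, hx⟩
      rw [Finset.mem_erase] at hx
      have hx1 : 1 - x ≠ 0 := sub_ne_zero.mpr (Ne.symm hx.1)
      refine ⟨⟨Units.mk0 (1 - x) hx1, ?_⟩, ?_⟩
      · change ((1 - (1 - x) : F) : OnePoint F) ∈ B
        rw [sub_sub_cancel]
        exact (hBf _).mp hx.2
      · apply Subtype.ext
        change 1 - (1 - x) = x
        ring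
  have hBf2 : 2 < Bf.card := by omega
  have hH : ∀ u : Fˣ, u ∈ H2 → u ∈ H1 := by
    haveI := Fintype.ofFinite F
    set n := Bf.card - 1 with hn
    have hle := IsCyclic.card_pow_eq_one_le (α := Fˣ) (n := n) (by omega)
    have key : ∀ H : Subgroup Fˣ, Nat.card H = n → ∀ u : Fˣ, u ∈ H ↔ u ^ n = 1 := by
      intro H hHn
      have hsub : ∀ u ∈ H, u ^ n = 1 := by
        intro u hu
        have := pow_card_eq_one' (x := (⟨u, hu⟩ : H))
        rw [hHn] at this
        exact congrArg Subtype.val this
      have heq : (Set.toFinite (H : Set Fˣ)).toFinset =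
          Finset.univ.filter (fun u : Fˣ => u ^ n = 1) := by
        apply Finset.eq_of_subset_of_card_le
        · intro u hu
          rw [Finset.mem_filter]
          exact ⟨Finset.mem_univ _, hsub u ((Set.Finite.mem_toFinset _).mp hu)⟩
        · refine le_trans hle ?_
          rw [← Set.ncard_eq_toFinset_card]
          rw [← hHn]
          rfl
      intro u
      refine ⟨hsub u, fun hu => ?_⟩
      have : u ∈ Finset.univ.filter (fun u : Fˣ => u ^ n = 1) := by
        rw [Finset.mem_filter]; exact ⟨Finset.mem_univ _, hu⟩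
      rw [← heq] at this
      exact (Set.Finite.mem_toFinset _).mp this
    intro u hu
    rw [key H1 hc1]
    rwa [key H2 hc2] at hu
  have hone : ∀ b : F, (b : OnePoint F) ∈ B → ((1 - b : F) : OnePoint F) ∈ B := by
    intro b hb
    by_cases hb1 : b = 1
    · rw [hb1, sub_self]; exact m0
    · have hb1' : 1 - b ≠ 0 := sub_ne_zero.mpr (Ne.symm hb1)
      apply hH (Units.mk0 (1 - b) hb1')
      change ((1 - (1 - b) : F) : OnePoint F) ∈ B
      rw [sub_sub_cancel]
      exact hb
  have hmul0 : ∀ a b : F, (a : OnePoint F) ∈ B → (b : OnePoint F) ∈ B →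
      ((a * b : F) : OnePoint F) ∈ B := by
    intro a b ha hb
    by_cases ha0 : a = 0
    · rw [ha0, zero_mul]; exact m0
    · exact (hmul a ha0 ha b).mp hb
  have hinv0 : ∀ a : F, (a : OnePoint F) ∈ B → ((a⁻¹ : F) : OnePoint F) ∈ B := by
    intro a ha
    by_cases ha0 : a = 0
    · rw [ha0, _root_.inv_zero]; exact m0
    · rw [hmul a ha0 ha, mul_inv_cancel₀ ha0]; exact m1
  have hneg1 : ((-1 : F) : OnePoint F) ∈ B := by
    obtain ⟨w, hw, hw0, hw1⟩ : ∃ w ∈ Bf, w ≠ 0 ∧ w ≠ 1 := by
      have : 0 < (Bf \ {0, 1}).card := by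
        have h7 := Finset.le_card_sdiff ({0, 1} : Finset F) Bf
        have h8 : ({0, 1} : Finset F).card ≤ 2 := Finset.card_le_two
        omega
      obtain ⟨w, hw⟩ := Finset.card_pos.mp this
      simp only [Finset.mem_sdiff, Finset.mem_insert, Finset.mem_singleton, not_or] at hw
      exact ⟨w, hw.1, hw.2.1, hw.2.2⟩
    rw [hBf] at hw
    have e1 := hmul0 w (1 - w⁻¹) hw (hone _ (hinv0 w hw))
    have e2 := hinv0 _ (hone w hw)
    have e3 := hmul0 _ _ e1 e2
    convert e3 using 2
    have hw1' : 1 - w ≠ 0 := sub_ne_zero.mpr (Ne.symm hw1)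
    field_simp
    ring
  have hneg : ∀ a : F, (a : OnePoint F) ∈ B → ((-a : F) : OnePoint F) ∈ B := by
    intro a ha
    have := hmul0 _ _ hneg1 ha
    rwa [neg_one_mul] at this
  have hadd : ∀ a b : F, (a : OnePoint F) ∈ B → (b : OnePoint F) ∈ B →
      ((a + b : F) : OnePoint F) ∈ B := by
    intro a b ha hb
    by_cases ha0 : a = 0
    · rw [ha0, zero_add]; exact hb
    · have := hmul0 _ _ ha (hone _ (hneg _ (hmul0 _ _ hb (hinv0 a ha))))
      convert this using 2
      field_simp
      ring
  let E : Subfield F := {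
    carrier := {x | (x : OnePoint F) ∈ B}
    mul_mem' := fun {a b} ha hb => hmul0 a b ha hb
    one_mem' := m1
    add_mem' := fun {a b} ha hb => hadd a b ha hb
    zero_mem' := m0
    neg_mem' := fun {a} ha => hneg a ha
    inv_mem' := fun a ha => hinv0 a ha }
  have hEcard : Nat.card E = Bf.card := by
    rw [← natCard_finset]
    apply Nat.card_congr
    exact Equiv.subtypeEquivRight (fun x => (hBf x).symm)
  apply hno
  exact ⟨E, by omega, by omega⟩

/-- `F` has no subfield `E` with `2 < |E| < |F|` iff `|F|` is a prime or `2 ^ r`, `r` prime -/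
theorem noInter_iff : NoInter F ↔ (Nat.card F).Prime ∨ ∃ r : ℕ, r.Prime ∧ Nat.card F = 2 ^ r := by
  classical
  haveI := Fintype.ofFinite F
  obtain ⟨p, hchar⟩ := CharP.exists F
  haveI := hchar
  haveI hp : Fact p.Prime := ⟨CharP.char_is_prime F p⟩
  letI : Algebra (ZMod p) F := ZMod.algebra F p
  set n := Module.finrank (ZMod p) F with hn
  have hcard : Nat.card F = p ^ n := by
    rw [Module.natCard_eq_pow_finrank (K := ZMod p), Nat.card_zmod]
  have haut : Nat.card (F ≃+* F) = n := by
    rw [← Nat.card_congr (autEquiv (F := F) p)]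
    exact IsGalois.card_aut_eq_finrank (ZMod p) F
  constructor
  · intro h
    rcases aut_structure h with h1 | ⟨r, hr, -, h2⟩
    · left
      rw [haut] at h1
      rw [hcard, h1, pow_one]
      exact hp.out
    · exact Or.inr ⟨r, hr, h2⟩
  · intro h
    rintro ⟨E, h2, hlt⟩
    -- `|F|` is a power of `|E|`
    have hFE : Nat.card F = Nat.card E ^ Module.finrank E F :=
      Module.natCard_eq_pow_finrank (K := E)
    set m := Module.finrank E F
    have hE1 : 1 < Nat.card E := Finite.one_lt_card
    rcases h with h | ⟨r, hr, h⟩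
    · rw [hFE] at h
      have hm : m = 1 := by
        by_contra hm
        exact Nat.Prime.not_prime_pow' hm h
      rw [hFE, hm, pow_one] at hlt
      exact lt_irrefl _ hlt
    · -- `|E| = 2 ^ s`
      have hdvd : Nat.card E ∣ 2 ^ r := by
        rw [← h, hFE]
        apply dvd_pow_self
        intro hm
        rw [hm, pow_zero] at hFE
        omega
      obtain ⟨s, hs, hEs⟩ := (Nat.dvd_prime_pow Nat.prime_two).mp hdvd
      rw [hEs, ← pow_mul, h] at hFE
      have := Nat.pow_right_injective (le_refl 2) hFE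
      rcases (Nat.dvd_prime hr).mp (Dvd.intro _ this.symm) with h3 | h3
      · rw [h3] at hEs
        omega
      · rw [h3] at hEs
        omega

/-- 3-transitive subgroups of `PΓL(2, q)` are 3-Steiner primitive iff `q` is a prime or `2 ^ r`
with `r` prime -/
theorem pl_three_steiner_iff {G : Subgroup (Perm (OnePoint F))} (hG : G ≤ PGammaL F)
    (htr : TTransitive G 3) :
    TSteinerPrimitive G 3 ↔ (Nat.card F).Prime ∨ ∃ r : ℕ, r.Prime ∧ Nat.card F = 2 ^ r := by
  rw [← noInter_iff]
  constructor
  · intro h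
    rintro ⟨E, h2, hE⟩
    exact not_steiner_of_subfield hG E h2 hE h
  · exact steiner_of_noInter hG htr

/-- for `q ≥ 5` no subgroup of `PΓL(2, q)` is 4-transitive -/
theorem pl_not_four_trans {G : Subgroup (Perm (OnePoint F))} (hG : G ≤ PGammaL F) {t : ℕ}
    (ht : 4 ≤ t) (htr : TTransitive G t) : Nat.card F ≤ 4 := by
  classical
  haveI := Fintype.ofFinite F
  obtain ⟨p, hchar⟩ := CharP.exists F
  haveI := hchar
  haveI hp : Fact p.Prime := ⟨CharP.char_is_prime F p⟩
  letI : Algebra (ZMod p) F := ZMod.algebra F p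
  set n := Module.finrank (ZMod p) F with hn
  have hcard : Nat.card F = p ^ n := by
    rw [Module.natCard_eq_pow_finrank (K := ZMod p), Nat.card_zmod]
  have haut : Nat.card (F ≃+* F) = n := by
    rw [← Nat.card_congr (autEquiv (F := F) p)]
    exact IsGalois.card_aut_eq_finrank (ZMod p) F
  by_contra hq
  push Not at hq
  -- an element outside `{0, 1}`
  obtain ⟨a, ha0, ha1⟩ : ∃ a : F, a ≠ 0 ∧ a ≠ 1 := by
    have : 0 < (Finset.univ \ ({0, 1} : Finset F)).card := by
      rw [Finset.card_sdiff_of_subset (Finset.subset_univ _), Finset.card_univ,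
        Finset.card_pair zero_ne_one, ← Nat.card_eq_fintype_card]
      omega
    obtain ⟨w, hw⟩ := Finset.card_pos.mp this
    simp only [Finset.mem_sdiff, Finset.mem_univ, Finset.mem_insert, Finset.mem_singleton,
      true_and, not_or] at hw
    exact ⟨w, hw⟩
  -- the automorphism group is transitive on `F \ {0, 1}`
  have htrans : ∀ b : F, b ≠ 0 → b ≠ 1 → ∃ σ : F ≃+* F, σ a = b := by
    intro b hb0 hb1
    have h4 : IsMultiplyPretransitive G (OnePoint F) 4 := by
      haveI := htr.2
      exact isMultiplyPretransitive_of_le (n := t) ht htr.1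
    have h4' : 4 ≤ Nat.card (OnePoint F) := le_trans ht htr.1
    obtain ⟨g, hg, hgf⟩ := exists_agree h4' h4
      {∞, ((0 : F) : OnePoint F), ((1 : F) : OnePoint F), (a : OnePoint F)}
      Finset.card_le_four
      (fun x => if x = (a : OnePoint F) then (b : OnePoint F) else x) (by
        intro x hx y hy hxy
        simp only [Finset.coe_insert, Finset.coe_singleton, Set.mem_insert_iff,
          Set.mem_singleton_iff] at hx hy
        simp only at hxy
        split_ifs at hxy with e1 e2 e2
        · rw [e1, e2]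
        · exfalso
          rcases hy with h | h | h | h
          · rw [h] at hxy; exact OnePoint.coe_ne_infty b hxy
          · rw [h, OnePoint.coe_eq_coe] at hxy; exact hb0 hxy
          · rw [h, OnePoint.coe_eq_coe] at hxy; exact hb1 hxy
          · exact e2 h
        · exfalso
          rcases hx with h | h | h | h
          · rw [h] at hxy; exact OnePoint.infty_ne_coe b hxy
          · rw [h, OnePoint.coe_eq_coe] at hxy; exact hb0 hxy.symm
          · rw [h, OnePoint.coe_eq_coe] at hxy; exact hb1 hxy.symm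
          · exact e1 h
        · exact hxy)
    have g1 : g ∞ = ∞ := by
      rw [hgf _ (by simp), if_neg (OnePoint.infty_ne_coe a)]
    have g2 : g ((0 : F) : OnePoint F) = ((0 : F) : OnePoint F) := by
      rw [hgf _ (by simp), if_neg]
      rw [OnePoint.coe_eq_coe]; exact ha0.symm
    have g3 : g ((1 : F) : OnePoint F) = ((1 : F) : OnePoint F) := by
      rw [hgf _ (by simp), if_neg]
      rw [OnePoint.coe_eq_coe]; exact ha1.symm
    obtain ⟨σ, hσ⟩ := semi_fix_three (hG hg) g1 g2 g3
    refine ⟨σ, ?_⟩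
    have := hgf (a : OnePoint F) (by simp)
    rw [if_pos rfl, hσ, OnePoint.map_some, OnePoint.coe_eq_coe] at this
    exact this
  have hle : Nat.card F ≤ n + 2 := by
    haveI : Finite (F ≃+* F) := Nat.finite_of_card_ne_zero (by
      rw [haut]; exact (Module.finrank_pos (R := ZMod p) (M := F)).ne')
    haveI : Fintype (F ≃+* F) := Fintype.ofFinite _
    have h1 : (Finset.univ : Finset F) ⊆
        (Finset.univ : Finset (F ≃+* F)).image (fun σ => σ a) ∪ {0, 1} := by
      intro b _
      rw [Finset.mem_union]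
      by_cases hb0 : b = 0
      · right; simp [hb0]
      by_cases hb1 : b = 1
      · right; simp [hb1]
      left
      obtain ⟨σ, hσ⟩ := htrans b hb0 hb1
      rw [Finset.mem_image]
      exact ⟨σ, Finset.mem_univ _, hσ⟩
    have h2 := Finset.card_le_card h1
    have h3 := Finset.card_union_le ((Finset.univ : Finset (F ≃+* F)).image (fun σ => σ a))
      ({0, 1} : Finset F)
    have h4 : ((Finset.univ : Finset (F ≃+* F)).image (fun σ => σ a)).card ≤ n := by
      refine le_trans Finset.card_image_le ?_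
      rw [Finset.card_univ, ← Nat.card_eq_fintype_card, haut]
    have h5 : ({0, 1} : Finset F).card ≤ 2 := Finset.card_le_two
    rw [Finset.card_univ, ← Nat.card_eq_fintype_card] at h2
    omega
  have h2n : 2 ^ n ≤ Nat.card F := by
    rw [hcard]
    exact Nat.pow_le_pow_left hp.out.two_le n
  -- `2 ^ n ≤ n + 2` forces `n ≤ 2`
  have hn2 : n ≤ 2 := by
    by_contra hcon
    have : ∀ m : ℕ, 3 ≤ m → m + 2 < 2 ^ m := by
      intro m hm
      induction m, hm using Nat.le_induction with
      | base => norm_num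
      | succ m hm ih => rw [pow_succ]; omega
    have := this n (by omega)
    omega
  omega

end Pool.Agent.H922
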