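import Mathlib
import Pool.Agent.H922.Alt
import Pool.Agent.H922.PL3

set_option autoImplicit false
set_option linter.style.haveILetI false
set_option linter.unusedVariables false
set_option linter.unusedSectionVars false

/-!
# Affine groups: general part
-/

namespace Pool.Agent.H922

open Equiv MulAction
open scoped Pointwise

section Structure

variable {X : Type*} [Finite X] {G N : Subgroup (Perm X)}

theorem perm_inv_apply (g : Perm X) (x : X) : g⁻¹ (g x) = x := by simp

theorem two_trans {t : ℕ} (ht : 2 ≤ t) (h : TTransitive G t) {x y x' y' : X} (hxy : x ≠ y)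
    (hxy' : x' ≠ y') : ∃ g ∈ G, g x = x' ∧ g y = y' := by
  have h2 : IsMultiplyPretransitive G X 2 := by
    haveI := h.2
    exact isMultiplyPretransitive_of_le (n := t) ht h.1
  rw [multTrans_iff] at h2
  obtain ⟨g, hg, hgi⟩ := h2 ![x, y] ![x', y']
    (by intro i j hij; fin_cases i <;> fin_cases j <;> simp_all)
    (by intro i j hij; fin_cases i <;> fin_cases j <;> simp_all)
  exact ⟨g, hg, hgi 0, hgi 1⟩

/-- A 2-transitive group with a nontrivial abelian normal subgroup consists of affine maps of an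
abelian group structure on `X`, and contains all translations. -/
theorem exists_addCommGroup {t : ℕ} (ht : 2 ≤ t) (h : TTransitive G t) (hNG : N ≤ G)
    (hnorm : ∀ g ∈ G, ∀ n ∈ N, g * n * g⁻¹ ∈ N) (hne : N ≠ ⊥)
    (hcomm : ∀ a ∈ N, ∀ b ∈ N, a * b = b * a) (x0 : X) :
    ∃ _ : AddCommGroup X, (0 : X) = x0 ∧ (∀ a : X, Equiv.addLeft a ∈ G) ∧
      ∀ g ∈ G, ∀ x y : X, g (x + y) = g x + g y - g 0 := by
  classical
  -- transitivity of `N`
  have htrans : ∀ x y : X, ∃ n ∈ N, n x = y := by
    intro x y
    by_cases hxy : x = y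
    · exact ⟨1, N.one_mem, by rw [hxy]; rfl⟩
    obtain ⟨n, hnN, hn1⟩ : ∃ n ∈ N, n ≠ 1 := by
      by_contra hcon
      push Not at hcon
      exact hne ((Subgroup.eq_bot_iff_forall N).mpr hcon)
    obtain ⟨z, hz⟩ : ∃ z, n z ≠ z := by
      by_contra hcon
      push Not at hcon
      exact hn1 (Equiv.ext hcon)
    obtain ⟨g, hg, h1, h2⟩ := two_trans ht h (Ne.symm hz) hxy
    refine ⟨g * n * g⁻¹, hnorm g hg n hnN, ?_⟩
    rw [Perm.mul_apply, Perm.mul_apply, ← h1, perm_inv_apply, h2]
  -- regularity
  have hreg : ∀ n ∈ N, ∀ m ∈ N, ∀ x, n x = m x → n = m := by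
    intro n hn m hm x hx
    ext1 y
    obtain ⟨k, hk, rfl⟩ := htrans x y
    rw [← Perm.mul_apply, ← Perm.mul_apply, hcomm n hn k hk, hcomm m hm k hk, Perm.mul_apply,
      Perm.mul_apply, hx]
  choose f hfN hf using htrans x0
  -- the bijection with `N`
  let e : X ≃ Additive N := {
    toFun := fun x => Additive.ofMul ⟨f x, hfN x⟩
    invFun := fun n => ((Additive.toMul n : N) : Perm X) x0
    left_inv := fun x => hf x
    right_inv := fun n => by
      apply Additive.toMul.injective
      apply Subtype.ext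
      exact hreg _ (hfN _) _ (Additive.toMul n).2 x0 (hf _) }
  letI : CommGroup N :=
    { (inferInstance : Group N) with mul_comm := fun a b => Subtype.ext (hcomm a a.2 b b.2) }
  letI inst : AddCommGroup X := e.addCommGroup
  have hadd : ∀ x y : X, x + y = f x y := by
    intro x y
    change e.symm (e x + e y) = f x y
    change ((f x) * (f y)) x0 = f x y
    rw [Perm.mul_apply, hf]
  have hzero : (0 : X) = x0 := by
    change e.symm 0 = x0
    rfl
  refine ⟨inst, hzero, ?_, ?_⟩
  · intro a
    have : Equiv.addLeft a = f a := by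
      ext1 y
      exact hadd a y
    rw [this]
    exact hNG (hfN a)
  · intro g hg x y
    -- `g f_x g⁻¹` is the translation by `g x - g 0`
    have h1 : g * f x * g⁻¹ = f (g x - g 0) := by
      apply hreg _ (hnorm g hg _ (hfN x)) _ (hfN _) (g 0)
      rw [← hadd, sub_add_cancel, Perm.mul_apply, Perm.mul_apply, perm_inv_apply, hzero, hf]
    have h2 := congrArg (fun k : Perm X => k (g y)) h1
    simp only [Perm.mul_apply, perm_inv_apply] at h2
    rw [← hadd, ← hadd] at h2
    rw [h2]
    abel

end Structure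

section Affine

variable {X : Type*} [Finite X] [AddCommGroup X] {G : Subgroup (Perm X)}

/-- the elements of `G` are affine maps of the abelian group `X` -/
def IsAff (G : Subgroup (Perm X)) : Prop :=
  (∀ a : X, Equiv.addLeft a ∈ G) ∧ ∀ g ∈ G, ∀ x y : X, g (x + y) = g x + g y - g 0

theorem IsAff.lin (hA : IsAff G) {g : Perm X} (hg : g ∈ G) (h0 : g 0 = 0) (x y : X) :
    g (x + y) = g x + g y := by
  rw [hA.2 g hg, h0, sub_zero]

theorem IsAff.neg (hA : IsAff G) {g : Perm X} (hg : g ∈ G) (h0 : g 0 = 0) (x : X) :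
    g (-x) = - g x := by
  have := hA.lin hg h0 x (-x)
  rw [add_neg_cancel, h0] at this
  exact (neg_eq_of_add_eq_zero_right this.symm).symm

theorem IsAff.sub (hA : IsAff G) {g : Perm X} (hg : g ∈ G) (h0 : g 0 = 0) (x y : X) :
    g (x - y) = g x - g y := by
  rw [sub_eq_add_neg, hA.lin hg h0, hA.neg hg h0, sub_eq_add_neg]

/-- the linear part -/
theorem IsAff.linPart (hA : IsAff G) {g : Perm X} (hg : g ∈ G) :
    ∃ h ∈ G, h 0 = 0 ∧ ∀ x, g x = g 0 + h x := by
  refine ⟨Equiv.addLeft (- g 0) * g, G.mul_mem (hA.1 _) hg, ?_, fun x => ?_⟩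
  · rw [Perm.mul_apply, Equiv.coe_addLeft]; exact neg_add_cancel _
  · rw [Perm.mul_apply, Equiv.coe_addLeft]; exact (add_neg_cancel_left _ _).symm

theorem IsAff.diff (hA : IsAff G) {g h : Perm X} (hg : g ∈ G) (hh : h ∈ G) (h0 : h 0 = 0)
    (hgh : ∀ x, g x = g 0 + h x) (x y : X) : g x - g y = h (x - y) := by
  rw [hgh x, hgh y, hA.sub hh h0]
  abel

theorem IsAff.trans_zero {t : ℕ} (ht : 2 ≤ t) (h : TTransitive G t) {x y : X}
    (hx : x ≠ 0) (hy : y ≠ 0) : ∃ g ∈ G, g 0 = 0 ∧ g x = y :=
  two_trans ht h (Ne.symm hx) (Ne.symm hy)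

/-- affine groups of degree at least 4 are not 2-set primitive -/
theorem IsAff.not_two_set [DecidableEq X] (hA : IsAff G) (hn : 4 ≤ Nat.card X) :
    ¬ TSetPrimitive G 2 := by
  haveI := Fintype.ofFinite X
  rw [tSetPrimitive_iff]
  rintro ⟨-, h⟩
  let δ : Finset X → Set X := fun S => {d | ∃ x ∈ S, ∃ y ∈ S, x ≠ y ∧ d = x - y}
  rw [Nat.card_eq_fintype_card] at hn
  obtain ⟨a, ha⟩ : ∃ a : X, a ≠ 0 := by
    obtain ⟨a, -, ha⟩ := Finset.exists_mem_ne (s := (Finset.univ : Finset X))
      (by rw [Finset.card_univ]; omega) 0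
    exact ⟨a, ha⟩
  have hav : ∀ s : Finset X, s.card ≤ 3 → ∃ b, b ∉ s := by
    intro s hs
    by_contra hcon
    push Not at hcon
    have : (Finset.univ : Finset X) ⊆ s := fun x _ => hcon x
    have := Finset.card_le_card this
    rw [Finset.card_univ] at this
    omega
  rcases h (fun S T => δ S = δ T) (fun _ _ => rfl) (fun _ _ _ _ h => h.symm)
    (fun _ _ _ _ _ _ h h' => h.trans h')
    (fun g hg S T _ _ hST => by
      obtain ⟨k, hk, hk0, hgk⟩ := hA.linPart hg
      have key : ∀ S : Finset X, δ (S.map g.toEmbedding) = k '' δ S := by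
        intro S
        ext d
        constructor
        · rintro ⟨x, hx, y, hy, hxy, rfl⟩
          obtain ⟨x, hx', rfl⟩ := Finset.mem_map.mp hx
          obtain ⟨y, hy', rfl⟩ := Finset.mem_map.mp hy
          refine ⟨x - y, ⟨x, hx', y, hy', fun h => hxy (by rw [h]), rfl⟩, ?_⟩
          exact (hA.diff hg hk hk0 hgk x y).symm
        · rintro ⟨_, ⟨x, hx, y, hy, hxy, rfl⟩, rfl⟩
          refine ⟨g x, mem_map_perm.mpr hx, g y, mem_map_perm.mpr hy, g.injective.ne hxy, ?_⟩
          exact (hA.diff hg hk hk0 hgk x y).symm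
      rw [key, key, hST]) with h1 | h1
  · obtain ⟨b, hb⟩ := hav {0, a, 0} (Finset.card_le_three)
    simp only [Finset.mem_insert, Finset.mem_singleton, not_or] at hb
    have hb0 : b ≠ 0 := hb.1
    have hba : b ≠ a := hb.2.1
    have := h1 {0, a} {b, a + b} (Finset.card_pair (Ne.symm ha))
      (Finset.card_pair (fun h => ha (by simpa using h))) (by
        ext d
        simp only [δ, Finset.mem_insert, Finset.mem_singleton, Set.mem_ofPred_eq]
        constructor
        · rintro ⟨x, rfl | rfl, y, rfl | rfl, hxy, rfl⟩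
          · exact absurd rfl hxy
          · exact ⟨b, Or.inl rfl, y + b, Or.inr rfl, fun h => ha (by simpa using h), by abel⟩
          · exact ⟨x + b, Or.inr rfl, b, Or.inl rfl, fun h => ha (by simpa using h.symm), by abel⟩
          · exact absurd rfl hxy
        · rintro ⟨x, rfl | rfl, y, rfl | rfl, hxy, rfl⟩
          · exact absurd rfl hxy
          · exact ⟨0, Or.inl rfl, a, Or.inr rfl, Ne.symm ha, by abel⟩
          · exact ⟨a, Or.inr rfl, 0, Or.inl rfl, ha, by abel⟩
          · exact absurd rfl hxy)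
    have hmem : b ∈ ({0, a} : Finset X) := by
      rw [this]; simp
    simp only [Finset.mem_insert, Finset.mem_singleton] at hmem
    rcases hmem with h | h
    · exact hb0 h
    · exact hba h
  · obtain ⟨b, hb⟩ := hav {0, a, -a} (Finset.card_le_three)
    simp only [Finset.mem_insert, Finset.mem_singleton, not_or] at hb
    have := h1 {0, a} {0, b} (Finset.card_pair (Ne.symm ha)) (Finset.card_pair (Ne.symm hb.1))
    have hmem : b ∈ δ {0, b} := ⟨b, by simp, 0, by simp, hb.1, by rw [sub_zero]⟩
    rw [← this] at hmem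
    simp only [δ, Finset.mem_insert, Finset.mem_singleton, Set.mem_ofPred_eq] at hmem
    obtain ⟨x, hx | hx, y, hy | hy, hxy, hd⟩ := hmem
    · exact hxy (hx.trans hy.symm)
    · rw [hx, hy, zero_sub] at hd; exact hb.2.2 hd
    · rw [hx, hy, sub_zero] at hd; exact hb.2.1 hd
    · exact hxy (hx.trans hy.symm)

/-- the family of all cosets `x + i a` of cyclic subgroups -/
def cosetSys (X : Type*) [AddCommGroup X] [Finite X] : Set (Finset X) :=
  {B | ∃ x a : X, a ≠ 0 ∧ ∀ y, y ∈ B ↔ ∃ i : ℤ, y = x + i • a}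

/-- all nonzero elements have the same order -/
theorem IsAff.order_eq {t : ℕ} (ht : 2 ≤ t) (h : TTransitive G t) (hA : IsAff G) {a b : X}
    (ha : a ≠ 0) (hb : b ≠ 0) : addOrderOf a = addOrderOf b := by
  obtain ⟨g, hg, h0, hgab⟩ := IsAff.trans_zero ht h ha hb
  have hsm : ∀ (n : ℕ) (x : X), g (n • x) = n • g x := by
    intro n x
    induction n with
    | zero => simp [h0]
    | succ n ih => rw [succ_nsmul, succ_nsmul, hA.lin hg h0, ih]
  apply addOrderOf_eq_addOrderOf_iff.mpr
  intro n
  rw [← hgab, ← hsm]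
  constructor
  · intro h1; rw [h1, h0]
  · intro h1
    apply g.injective
    rw [h1, h0]

theorem IsAff.exists_prime {t : ℕ} (ht : 2 ≤ t) (h : TTransitive G t) (hA : IsAff G) :
    ∃ p : ℕ, p.Prime ∧ ∀ a : X, a ≠ 0 → addOrderOf a = p := by
  haveI := Fintype.ofFinite X
  have hc : 2 ≤ Nat.card X := le_trans ht h.1
  obtain ⟨p, hp, hdvd⟩ := Nat.exists_prime_and_dvd (n := Nat.card X) (by omega)
  haveI : Fact p.Prime := ⟨hp⟩
  obtain ⟨a, ha⟩ := exists_prime_addOrderOf_dvd_card' (G := X) p hdvd
  refine ⟨p, hp, fun b hb => ?_⟩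
  rw [← ha]
  apply hA.order_eq ht h hb
  rintro rfl
  rw [addOrderOf_zero] at ha
  exact hp.one_lt.ne ha

/-- The cosets of the subgroups of order `p` form an invariant Steiner system, if `p > 2` and the
degree is not `p`. -/
theorem IsAff.not_steiner_odd {t : ℕ} (ht : 2 ≤ t) (h : TTransitive G t) (hA : IsAff G)
    {p : ℕ} (hp : p.Prime) (hord : ∀ a : X, a ≠ 0 → addOrderOf a = p) (hp2 : 2 < p)
    (hne : Nat.card X ≠ p) : ¬ TSteinerPrimitive G 2 := by
  classical
  haveI := Fintype.ofFinite X
  intro hst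
  apply hst
  have hc : 2 ≤ Nat.card X := le_trans ht h.1
  have hcard : ∀ (x a : X) (B : Finset X), a ≠ 0 → (∀ y, y ∈ B ↔ ∃ i : ℤ, y = x + i • a) →
      B.card = p := by
    intro x a B ha hB
    rw [← hord a ha, ← Nat.card_zmultiples, ← natCard_finset]
    apply Nat.card_congr
    refine {
      toFun := fun y => ⟨(y : X) - x, ?_⟩
      invFun := fun z => ⟨x + (z : X), ?_⟩
      left_inv := fun y => Subtype.ext (by simp)
      right_inv := fun z => Subtype.ext (by simp) }
    · obtain ⟨i, hi⟩ := (hB y).mp y.2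
      rw [hi, add_sub_cancel_left]
      exact AddSubgroup.mem_zmultiples_iff.mpr ⟨i, rfl⟩
    · obtain ⟨i, hi⟩ := AddSubgroup.mem_zmultiples_iff.mp z.2
      rw [hB]
      exact ⟨i, by rw [hi]⟩
  obtain ⟨a0, ha0⟩ : ∃ a : X, a ≠ 0 := by
    rw [Nat.card_eq_fintype_card] at hc
    obtain ⟨a, -, ha⟩ := Finset.exists_mem_ne (s := (Finset.univ : Finset X))
      (by rw [Finset.card_univ]; omega) 0
    exact ⟨a, ha⟩
  have hlt : p < Nat.card X := by
    have h1 : addOrderOf a0 ∣ Nat.card X := addOrderOf_dvd_natCard a0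
    rw [hord a0 ha0] at h1
    exact lt_of_le_of_ne (Nat.le_of_dvd (by omega) h1) (Ne.symm hne)
  refine ⟨p, cosetSys X, hp2, hlt, ⟨?_, ?_⟩, ?_⟩
  · rintro B ⟨x, a, ha, hB⟩
    exact hcard x a B ha hB
  · intro T hT
    obtain ⟨x, y, hxy, rfl⟩ := Finset.card_eq_two.mp hT
    have hd : y - x ≠ 0 := sub_ne_zero.mpr (Ne.symm hxy)
    refine ⟨(Set.toFinite {z | ∃ i : ℤ, z = x + i • (y - x)}).toFinset,
      ⟨⟨x, y - x, hd, fun z => by simp⟩, ?_⟩, ?_⟩
    · intro z hz
      simp only [Finset.mem_insert, Finset.mem_singleton] at hz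
      rcases hz with rfl | rfl
      · simp only [Set.Finite.mem_toFinset, Set.mem_ofPred_eq]
        exact ⟨0, by simp⟩
      · simp only [Set.Finite.mem_toFinset, Set.mem_ofPred_eq]
        exact ⟨1, by simp⟩
    · rintro B ⟨⟨u, a, ha, hB⟩, hTB⟩
      -- compare both sets
      obtain ⟨i, hi⟩ := (hB x).mp (hTB (by simp))
      obtain ⟨j, hj⟩ := (hB y).mp (hTB (by simp))
      have hd' : y - x = (j - i) • a := by rw [hi, hj, sub_smul]; abel
      symm
      apply Finset.eq_of_subset_of_card_le
      · intro z hz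
        simp only [Set.Finite.mem_toFinset, Set.mem_ofPred_eq] at hz
        obtain ⟨k, hk⟩ := hz
        rw [hB]
        refine ⟨i + k * (j - i), ?_⟩
        rw [hk, hd', hi, smul_smul, add_smul]
        abel
      · rw [hcard u a B ha hB, hcard x (y - x) _ hd (fun z => by simp)]
  · rintro g hg B ⟨x, a, ha, hB⟩
    obtain ⟨k, hk, hk0, hgk⟩ := hA.linPart hg
    have hsm : ∀ (n : ℤ) (x : X), k (n • x) = n • k x := by
      have hnat : ∀ (n : ℕ) (x : X), k (n • x) = n • k x := by
        intro n x
        induction n with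
        | zero => simp [hk0]
        | succ n ih => rw [succ_nsmul, succ_nsmul, hA.lin hk hk0, ih]
      intro n x
      cases n with
      | ofNat n =>
        have e1 : Int.ofNat n • x = n • x := natCast_zsmul x n
        have e2 : Int.ofNat n • k x = n • k x := natCast_zsmul (k x) n
        rw [e1, e2, hnat]
      | negSucc n => rw [negSucc_zsmul, negSucc_zsmul, hA.neg hk hk0, hnat]
    refine ⟨g x, k a, ?_, ?_⟩
    · intro h1
      apply ha
      apply k.injective
      rw [h1, hk0]
    · intro y
      rw [mem_map_perm', hB]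
      constructor
      · rintro ⟨i, hi⟩
        refine ⟨i, ?_⟩
        rw [Perm.inv_eq_iff_eq] at hi
        rw [hi, hgk (x + i • a), hA.lin hk hk0, hsm, ← add_assoc, ← hgk]
      · rintro ⟨i, hi⟩
        refine ⟨i, ?_⟩
        rw [Perm.inv_eq_iff_eq, hi, hgk (x + i • a), hA.lin hk hk0, hsm, ← add_assoc, ← hgk]

/-- for odd `p` and degree greater than 3 an affine group is not 2-primitive -/
theorem IsAff.not_two_prim_odd {t : ℕ} (ht : 2 ≤ t) (h : TTransitive G t) (hA : IsAff G)
    {p : ℕ} (hp : p.Prime) (hord : ∀ a : X, a ≠ 0 → addOrderOf a = p) (hp2 : 2 < p)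
    (hn : 3 < Nat.card X) : ¬ TPrimitive G 2 := by
  classical
  haveI := Fintype.ofFinite X
  rw [tPrimitive_iff]
  intro hprim
  obtain ⟨-, hp'⟩ := hprim {0} (by simp)
  have hmem : ∀ x : X, x ∉ (({0} : Finset X) : Set X) ↔ x ≠ 0 := by intro x; simp
  simp only [hmem] at hp'
  have hnn : ∀ a : X, a ≠ 0 → -a ≠ a := by
    intro a ha h1
    have h2 : 2 • a = 0 := by
      rw [two_nsmul]
      nth_rewrite 1 [← h1]
      rw [neg_add_cancel]
    have h3 := addOrderOf_dvd_of_nsmul_eq_zero h2
    rw [hord a ha] at h3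
    have := Nat.le_of_dvd (by omega) h3
    omega
  rcases hp' (fun x y => x = y ∨ x = -y) (fun x _ => Or.inl rfl)
    (fun x _ y _ h => by
      rcases h with rfl | rfl
      · exact Or.inl rfl
      · right; rw [neg_neg])
    (fun x _ y _ z _ h h' => by
      rcases h with rfl | rfl <;> rcases h' with rfl | rfl
      · exact Or.inl rfl
      · exact Or.inr rfl
      · exact Or.inr rfl
      · left; rw [neg_neg])
    (fun g hg hgs x _ y _ h => by
      have hg0 : g 0 = 0 := hgs 0 (by simp)
      rcases h with rfl | rfl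
      · exact Or.inl rfl
      · right; rw [hA.neg hg hg0]) with h1 | h1
  · obtain ⟨a, -, ha⟩ := Finset.exists_mem_ne (s := (Finset.univ : Finset X))
      (by rw [Finset.card_univ, ← Nat.card_eq_fintype_card]; omega) 0
    exact hnn a ha (h1 (-a) (neg_ne_zero.mpr ha) a ha (Or.inr rfl))
  · obtain ⟨a, -, ha⟩ := Finset.exists_mem_ne (s := (Finset.univ : Finset X))
      (by rw [Finset.card_univ, ← Nat.card_eq_fintype_card]; omega) 0
    have hsub : (Finset.univ : Finset X) ⊆ {0, a, -a} := by
      intro x _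
      simp only [Finset.mem_insert, Finset.mem_singleton]
      by_cases hx : x = 0
      · exact Or.inl hx
      · exact Or.inr (h1 x hx a ha)
    have := Finset.card_le_card hsub
    have h3 : ({0, a, -a} : Finset X).card ≤ 3 := Finset.card_le_three
    rw [Finset.card_univ, ← Nat.card_eq_fintype_card] at this
    omega

/-- for `p = 2` and degree at least 8 an affine group is not 3-Steiner primitive -/
theorem IsAff.not_steiner_three (hA : IsAff G) (h2 : ∀ x : X, x + x = 0)
    (hn : 4 < Nat.card X) : ¬ TSteinerPrimitive G 3 := by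
  classical
  haveI := Fintype.ofFinite X
  intro hst
  apply hst
  have hadd : ∀ x y z : X, x + y = z ↔ x = y + z := by
    intro x y z
    constructor
    · intro h; rw [← h, add_comm x y, ← add_assoc, h2, zero_add]
    · intro h; rw [h, add_comm y z, add_assoc, h2, add_zero]
  have hcard : ∀ x y z : X, x ≠ y → x ≠ z → y ≠ z → ({x, y, z, x + y + z} : Finset X).card = 4 := by
    intro x y z hxy hxz hyz
    rw [Finset.card_insert_of_notMem, Finset.card_insert_of_notMem, Finset.card_pair]
    · intro h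
      have h3 : x + y = 0 := by
        have h7 : z + z = x + y + z + z := congrArg (fun w => w + z) h
        rw [h2, add_assoc, h2, add_zero] at h7
        exact h7.symm
      apply hxy
      rw [hadd, add_zero] at h3
      exact h3
    · simp only [Finset.mem_insert, Finset.mem_singleton, not_or]
      refine ⟨hyz, fun h => hxz ?_⟩
      have : y + y = x + z + (y + y) := by
        nth_rewrite 1 [h]; abel
      rw [h2, add_zero] at this
      have h3 := this.symm
      rw [hadd, add_zero] at h3
      exact h3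
    · simp only [Finset.mem_insert, Finset.mem_singleton, not_or]
      refine ⟨hxy, hxz, fun h => hyz ?_⟩
      have : x + x = y + z + (x + x) := by
        nth_rewrite 1 [h]; abel
      rw [h2, add_zero] at this
      have h3 := this.symm
      rw [hadd, add_zero] at h3
      exact h3
  refine ⟨4, {B | B.card = 4 ∧ ∑ x ∈ B, x = 0}, by omega, hn, ⟨fun B hB => hB.1, ?_⟩, ?_⟩
  · intro T hT
    obtain ⟨x, y, z, hxy, hxz, hyz, rfl⟩ := Finset.card_eq_three.mp hT
    have hnot : x + y + z ∉ ({x, y, z} : Finset X) := by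
      intro h
      have h3 := hcard x y z hxy hxz hyz
      have h4 : ({x, y, z, x + y + z} : Finset X) = {x, y, z} := by
        ext w
        simp only [Finset.mem_insert, Finset.mem_singleton] at h ⊢
        constructor
        · rintro (h5 | h5 | h5 | h5)
          · exact Or.inl h5
          · exact Or.inr (Or.inl h5)
          · exact Or.inr (Or.inr h5)
          · rw [h5]; exact h
        · rintro (h5 | h5 | h5)
          · exact Or.inl h5
          · exact Or.inr (Or.inl h5)
          · exact Or.inr (Or.inr (Or.inl h5))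
      rw [h4, hT] at h3
      omega
    have hsum3 : ∑ w ∈ ({x, y, z} : Finset X), w = x + y + z := by
      rw [Finset.sum_insert, Finset.sum_pair hyz, add_assoc]
      simp [hxy, hxz]
    refine ⟨insert (x + y + z) {x, y, z}, ⟨⟨?_, ?_⟩, Finset.subset_insert _ _⟩, ?_⟩
    · rw [Finset.card_insert_of_notMem hnot, hT]
    · rw [Finset.sum_insert hnot, hsum3, h2]
    · rintro B ⟨⟨hB4, hBsum⟩, hTB⟩
      obtain ⟨w, hw⟩ : (B \ {x, y, z}).Nonempty := by
        rw [← Finset.card_pos, Finset.card_sdiff_of_subset hTB]; omega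
      rw [Finset.mem_sdiff] at hw
      have hBeq : insert w {x, y, z} = B := by
        apply Finset.eq_of_subset_of_card_le
        · intro v hv
          rcases Finset.mem_insert.mp hv with rfl | hv
          · exact hw.1
          · exact hTB hv
        · rw [Finset.card_insert_of_notMem hw.2, hT, hB4]
      rw [← hBeq, Finset.sum_insert hw.2, hsum3, hadd, add_zero] at hBsum
      rw [← hBeq, hBsum]
  · rintro g hg B ⟨hB4, hBsum⟩
    obtain ⟨k, hk, hk0, hgk⟩ := hA.linPart hg
    refine ⟨by rw [Finset.card_map, hB4], ?_⟩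
    rw [Finset.sum_map]
    have h5 : ∀ S : Finset X, ∑ x ∈ S, g x = S.card • g 0 + k (∑ x ∈ S, x) := by
      intro S
      induction S using Finset.induction_on with
      | empty => simp [hk0]
      | insert a S ha ih =>
        rw [Finset.sum_insert ha, Finset.sum_insert ha, Finset.card_insert_of_notMem ha, ih,
          hA.lin hk hk0, succ_nsmul, hgk a]
        abel
    change ∑ x ∈ B, g x = 0
    rw [h5, hB4, hBsum, hk0, add_zero]
    have : (4 : ℕ) • g 0 = (g 0 + g 0) + (g 0 + g 0) := by
      rw [show (4 : ℕ) = 2 + 2 by rfl, add_nsmul, two_nsmul]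
    rw [this, h2]

end Affine

end Pool.Agent.H922
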