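import Mathlib
import Pool.Agent.H922.Aff

set_option autoImplicit false
set_option linter.style.haveILetI false
set_option linter.unusedVariables false
set_option linter.unusedSectionVars false

/-!
# Affine groups: prime degree, and the field structure in characteristic 2
-/

namespace Pool.Agent.H922

open Equiv MulAction
open scoped Pointwise

section Prime

variable {X : Type*} [Finite X] [AddCommGroup X] {G : Subgroup (Perm X)}

/-- in prime degree the linear parts are multiplications by integers -/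
theorem IsAff.lin_smul (hA : IsAff G) (hp : (Nat.card X).Prime) {h : Perm X} (hh : h ∈ G)
    (h0 : h 0 = 0) : ∃ m : ℤ, ∀ x, h x = m • x := by
  haveI := Fact.mk hp
  have hne : Nontrivial X := Finite.one_lt_card_iff_nontrivial.mp hp.one_lt
  obtain ⟨a, ha⟩ := exists_ne (0 : X)
  have hgen : ∀ x : X, ∃ i : ℤ, i • a = x := fun x =>
    AddSubgroup.mem_zmultiples_iff.mp (mem_zmultiples_of_prime_card rfl ha)
  obtain ⟨m, hm⟩ := hgen (h a)
  have hnat : ∀ (n : ℕ) (x : X), h (n • x) = n • h x := by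
    intro n x
    induction n with
    | zero => simp [h0]
    | succ n ih => rw [succ_nsmul, succ_nsmul, hA.lin hh h0, ih]
  have hsm : ∀ (n : ℤ) (x : X), h (n • x) = n • h x := by
    intro n x
    cases n with
    | ofNat n =>
      have e1 : Int.ofNat n • x = n • x := natCast_zsmul x n
      have e2 : Int.ofNat n • h x = n • h x := natCast_zsmul (h x) n
      rw [e1, e2, hnat]
    | negSucc n => rw [negSucc_zsmul, negSucc_zsmul, hA.neg hh h0, hnat]
  refine ⟨m, fun x => ?_⟩
  obtain ⟨i, rfl⟩ := hgen x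
  rw [hsm, ← hm, smul_smul, smul_smul, mul_comm]

/-- affine groups of prime degree are 2-Steiner primitive -/
theorem IsAff.steiner_prime {t : ℕ} (ht : 2 ≤ t) (htr : TTransitive G t) (hA : IsAff G)
    (hp : (Nat.card X).Prime) : TSteinerPrimitive G 2 := by
  classical
  haveI := Fintype.ofFinite X
  rintro ⟨k, 𝓑, hk2, hkn, ⟨hB1, hB2⟩, hinv⟩
  haveI := Fact.mk hp
  have hne : Nontrivial X := Finite.one_lt_card_iff_nontrivial.mp hp.one_lt
  obtain ⟨x, y, hxy⟩ := exists_pair_ne X
  obtain ⟨B, ⟨hB, hTB⟩, -⟩ := hB2 {x, y} (Finset.card_pair hxy)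
  have hxB : x ∈ B := hTB (by simp)
  have hyB : y ∈ B := hTB (by simp)
  obtain ⟨z, hz⟩ : (B \ {x, y}).Nonempty := by
    rw [← Finset.card_pos, Finset.card_sdiff_of_subset hTB, hB1 B hB, Finset.card_pair hxy]
    omega
  simp only [Finset.mem_sdiff, Finset.mem_insert, Finset.mem_singleton, not_or] at hz
  obtain ⟨hzB, hzx, hzy⟩ := hz
  have hfix : ∀ g ∈ G, ∀ u v : X, u ≠ v → u ∈ B → v ∈ B → g u ∈ B → g v ∈ B →
      B.map g.toEmbedding = B := by
    intro g hg u v huv hu hv hgu hgv
    apply (hB2 {g u, g v} (Finset.card_pair (g.injective.ne huv))).unique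
      ⟨hinv g hg B hB, ?_⟩ ⟨hB, ?_⟩
    · intro w hw
      simp only [Finset.mem_insert, Finset.mem_singleton] at hw
      rcases hw with rfl | rfl
      · exact mem_map_perm.mpr hu
      · exact mem_map_perm.mpr hv
    · intro w hw
      simp only [Finset.mem_insert, Finset.mem_singleton] at hw
      rcases hw with rfl | rfl
      · exact hgu
      · exact hgv
  -- a translation fixing `B` is trivial
  have htransl : ∀ a : X, B.map (Equiv.addLeft a).toEmbedding = B → a = 0 := by
    intro a ha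
    by_contra ha0
    have hall : ∀ w : X, w ∈ B := by
      intro w
      obtain ⟨i, hi⟩ := AddSubgroup.mem_zmultiples_iff.mp
        (mem_zmultiples_of_prime_card (G := X) (p := Nat.card X) (g := a) (g' := w - x) rfl ha0)
      have hstep : ∀ v : X, v ∈ B ↔ a + v ∈ B := by
        intro v
        have : a + v = (Equiv.addLeft a) v := rfl
        rw [this]
        nth_rewrite 2 [← ha]
        rw [mem_map_perm]
      have hn : ∀ (n : ℕ) (v : X), v ∈ B ↔ n • a + v ∈ B := by
        intro n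
        induction n with
        | zero => intro v; simp
        | succ n ih => intro v; rw [ih v, hstep, succ_nsmul', add_assoc]
      have hz : ∀ (n : ℤ) (v : X), v ∈ B ↔ n • a + v ∈ B := by
        intro n v
        cases n with
        | ofNat n =>
          have e1 : Int.ofNat n • a = n • a := natCast_zsmul a n
          rw [e1]; exact hn n v
        | negSucc n =>
          rw [negSucc_zsmul, hn (n + 1) (-((n + 1) • a) + v), add_neg_cancel_left]
      have := (hz i x).mp hxB
      rw [hi, sub_add_cancel] at this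
      exact this
    have : Finset.univ ⊆ B := fun w _ => hall w
    have h3 := Finset.card_le_card this
    rw [Finset.card_univ, hB1 B hB, ← Nat.card_eq_fintype_card] at h3
    omega
  obtain ⟨g1, hg1, e1, e2⟩ := two_trans ht htr hxy (Ne.symm hzx)
  obtain ⟨g2, hg2, e3, e4⟩ := two_trans ht htr hxy (Ne.symm hxy)
  have f1 := hfix g1 hg1 x y hxy hxB hyB (by rw [e1]; exact hxB) (by rw [e2]; exact hzB)
  have f2 := hfix g2 hg2 x y hxy hxB hyB (by rw [e3]; exact hyB) (by rw [e4]; exact hxB)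
  obtain ⟨k1, hk1, hk10, hgk1⟩ := hA.linPart hg1
  obtain ⟨k2, hk2', hk20, hgk2⟩ := hA.linPart hg2
  obtain ⟨m1, hm1⟩ := hA.lin_smul hp hk1 hk10
  obtain ⟨m2, hm2⟩ := hA.lin_smul hp hk2' hk20
  set c1 := g1 0
  set c2 := g2 0
  -- `g1 g2 = t_D g2 g1`
  have hD : ∀ w, g1 (g2 w) = (c1 + m1 • c2 - (c2 + m2 • c1)) + g2 (g1 w) := by
    intro w
    rw [hgk1 (g2 w), hgk2 (g1 w), hm1, hm2, hgk2 w, hgk1 w, hm1, hm2, smul_add, smul_add,
      smul_smul, smul_smul, mul_comm m1 m2]
    abel
  have hD0 := htransl _ (by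
    have h5 : (Equiv.addLeft (c1 + m1 • c2 - (c2 + m2 • c1)) : Perm X) =
        g1 * g2 * (g2 * g1)⁻¹ := by
      rw [eq_mul_inv_iff_mul_eq]
      ext1 w
      rw [Perm.mul_apply, Perm.mul_apply, Perm.mul_apply, hD]
      rfl
    rw [h5, ← map_mul_perm, ← map_mul_perm]
    have h6 : B.map ((g2 * g1)⁻¹ : Perm X).toEmbedding = B := by
      apply map_inv_perm
      rw [← map_mul_perm, f1, f2]
    rw [h6, f2, f1])
  rw [hD0] at hD
  have := hD x
  rw [e3, e2, e1, e3, zero_add] at this
  exact hzy this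

end Prime

section Clifford

variable {X : Type*} [Finite X] [AddCommGroup X] {G A : Subgroup (Perm X)}

/-- the additive group generated by the `A`-orbit of `v` -/
def orbSpan (A : Subgroup (Perm X)) (v : X) : AddSubgroup X :=
  AddSubgroup.closure {x | ∃ a ∈ A, x = a v}

/-- `A` is a nontrivial abelian group of linear maps normalised by the linear part of `G` -/
structure IsCliff (G A : Subgroup (Perm X)) : Prop where
  le : A ≤ G
  zero : ∀ a ∈ A, a 0 = 0
  comm : ∀ a ∈ A, ∀ b ∈ A, a * b = b * a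
  ne : A ≠ ⊥
  norm : ∀ h ∈ G, h 0 = 0 → ∀ a ∈ A, h * a * h⁻¹ ∈ A

theorem mem_orbSpan_self (v : X) : v ∈ orbSpan A v :=
  AddSubgroup.subset_closure ⟨1, A.one_mem, rfl⟩

theorem IsCliff.orbSpan_smul (hA : IsAff G) (hC : IsCliff G A) {v x : X} {b : Perm X}
    (hb : b ∈ A) (hx : x ∈ orbSpan A v) : b x ∈ orbSpan A v := by
  have hbG := hC.le hb
  have hb0 := hC.zero b hb
  refine AddSubgroup.closure_induction (p := fun x _ => b x ∈ orbSpan A v) ?_ ?_ ?_ ?_ hx
  · rintro _ ⟨a, ha, rfl⟩
    exact AddSubgroup.subset_closure ⟨b * a, A.mul_mem hb ha, rfl⟩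
  · rw [hb0]; exact (orbSpan A v).zero_mem
  · intro x y _ _ h1 h2
    rw [hA.lin hbG hb0]
    exact (orbSpan A v).add_mem h1 h2
  · intro x _ h1
    rw [hA.neg hbG hb0]
    exact (orbSpan A v).neg_mem h1

theorem IsCliff.orbSpan_le (hA : IsAff G) (hC : IsCliff G A) {v w : X}
    (hw : w ∈ orbSpan A v) : orbSpan A w ≤ orbSpan A v := by
  unfold orbSpan
  rw [AddSubgroup.closure_le]
  rintro _ ⟨a, ha, rfl⟩
  exact hC.orbSpan_smul hA ha hw

theorem IsCliff.orbSpan_conj (hA : IsAff G) (hC : IsCliff G A) {h : Perm X} (hh : h ∈ G)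
    (h0 : h 0 = 0) {v x : X} (hx : x ∈ orbSpan A v) : h x ∈ orbSpan A (h v) := by
  refine AddSubgroup.closure_induction (p := fun x _ => h x ∈ orbSpan A (h v)) ?_ ?_ ?_ ?_ hx
  · rintro _ ⟨a, ha, rfl⟩
    refine AddSubgroup.subset_closure ⟨h * a * h⁻¹, hC.norm h hh h0 a ha, ?_⟩
    rw [Perm.mul_apply, Perm.mul_apply, perm_inv_apply]
  · rw [h0]; exact (orbSpan A _).zero_mem
  · intro x y _ _ h1 h2
    rw [hA.lin hh h0]
    exact (orbSpan A _).add_mem h1 h2
  · intro x _ h1
    rw [hA.neg hh h0]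
    exact (orbSpan A _).neg_mem h1

theorem IsCliff.orbSpan_conj_iff (hA : IsAff G) (hC : IsCliff G A) {h : Perm X} (hh : h ∈ G)
    (h0 : h 0 = 0) {v x : X} : h x ∈ orbSpan A (h v) ↔ x ∈ orbSpan A v := by
  constructor
  · intro hx
    have h1 : h⁻¹ 0 = 0 := by rw [Perm.inv_eq_iff_eq, h0]
    have := hC.orbSpan_conj hA (G.inv_mem hh) h1 hx
    rwa [perm_inv_apply, perm_inv_apply] at this
  · exact hC.orbSpan_conj hA hh h0

theorem IsCliff.card_orbSpan {t : ℕ} (ht : 2 ≤ t) (htr : TTransitive G t) (hA : IsAff G)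
    (hC : IsCliff G A) {v w : X} (hv : v ≠ 0) (hw : w ≠ 0) :
    Nat.card (orbSpan A v) = Nat.card (orbSpan A w) := by
  obtain ⟨h, hh, h0, hvw⟩ := IsAff.trans_zero ht htr hv hw
  apply Nat.card_congr
  refine Equiv.subtypeEquiv h (fun x => ?_)
  rw [← hvw]
  exact (hC.orbSpan_conj_iff hA hh h0).symm

theorem IsCliff.orbSpan_eq {t : ℕ} (ht : 2 ≤ t) (htr : TTransitive G t) (hA : IsAff G)
    (hC : IsCliff G A) {v w : X} (hv : v ≠ 0) (hw0 : w ≠ 0) (hw : w ∈ orbSpan A v) :
    orbSpan A w = orbSpan A v := by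
  apply AddSubgroup.eq_of_le_of_card_ge (hC.orbSpan_le hA hw)
  rw [hC.card_orbSpan ht htr hA hv hw0]

theorem IsCliff.two_lt_card {t : ℕ} (ht : 2 ≤ t) (htr : TTransitive G t) (hA : IsAff G)
    (hC : IsCliff G A) {v : X} (hv : v ≠ 0) : 2 < Nat.card (orbSpan A v) := by
  classical
  obtain ⟨a, ha, ha1⟩ : ∃ a ∈ A, a ≠ 1 := by
    by_contra hcon
    push Not at hcon
    exact hC.ne ((Subgroup.eq_bot_iff_forall A).mpr hcon)
  obtain ⟨u, hu⟩ : ∃ u, a u ≠ u := by
    by_contra hcon
    push Not at hcon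
    exact ha1 (Equiv.ext hcon)
  have hu0 : u ≠ 0 := by
    rintro rfl
    exact hu (hC.zero a ha)
  have hau : a u ≠ 0 := by
    intro h
    apply hu0
    apply a.injective
    rw [h, hC.zero a ha]
  rw [hC.card_orbSpan ht htr hA hv hu0]
  have h1 : ({0, u, a u} : Finset X) ⊆ (Set.toFinite (orbSpan A u : Set X)).toFinset := by
    intro w hw
    rw [Set.Finite.mem_toFinset]
    simp only [Finset.mem_insert, Finset.mem_singleton] at hw
    rcases hw with rfl | rfl | rfl
    · exact (orbSpan A u).zero_mem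
    · exact mem_orbSpan_self w
    · exact hC.orbSpan_smul hA ha (mem_orbSpan_self u)
  have h2 := Finset.card_le_card h1
  rw [Finset.card_insert_of_notMem, Finset.card_pair (Ne.symm hu)] at h2
  · have h3 : (Set.toFinite (orbSpan A u : Set X)).toFinset.card = Nat.card (orbSpan A u) := by
      rw [← Set.ncard_eq_toFinset_card]
      rfl
    omega
  · simp only [Finset.mem_insert, Finset.mem_singleton, not_or]
    exact ⟨Ne.symm hu0, Ne.symm hau⟩

/-- the linear parts preserve the spread, so a proper spread gives a Steiner system -/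
theorem not_steiner_of_spread {t : ℕ} (ht : 2 ≤ t) (htr : TTransitive G t) (hA : IsAff G)
    (W : X → AddSubgroup X) (hself : ∀ v, v ∈ W v)
    (hconj : ∀ h ∈ G, h 0 = 0 → ∀ v x, x ∈ W v → h x ∈ W (h v))
    (heq : ∀ v w, v ≠ 0 → w ≠ 0 → w ∈ W v → W w = W v)
    (v0 : X) (hv0 : v0 ≠ 0) (hk : 2 < Nat.card (W v0)) (hne : W v0 ≠ ⊤) :
    ¬ TSteinerPrimitive G 2 := by
  classical
  haveI := Fintype.ofFinite X
  intro hst
  apply hst
  have hconj' : ∀ h ∈ G, h 0 = 0 → ∀ v x, h x ∈ W (h v) ↔ x ∈ W v := by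
    intro h hh h0 v x
    constructor
    · intro hx
      have h1 : h⁻¹ 0 = 0 := by rw [Perm.inv_eq_iff_eq, h0]
      have := hconj _ (G.inv_mem hh) h1 _ _ hx
      rwa [perm_inv_apply, perm_inv_apply] at this
    · exact hconj h hh h0 v x
  have hcardW : ∀ v, v ≠ 0 → Nat.card (W v) = Nat.card (W v0) := by
    intro v hv
    obtain ⟨h, hh, h0, hvw⟩ := IsAff.trans_zero ht htr hv hv0
    apply Nat.card_congr
    refine Equiv.subtypeEquiv h (fun x => ?_)
    rw [← hvw]
    exact (hconj' h hh h0 v x).symm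
  have hcard : ∀ (x a : X) (B : Finset X), a ≠ 0 → (∀ y, y ∈ B ↔ y - x ∈ W a) →
      B.card = Nat.card (W v0) := by
    intro x a B ha hB
    rw [← hcardW a ha, ← natCard_finset]
    apply Nat.card_congr
    refine Equiv.subtypeEquiv (Equiv.subRight x) (fun y => ?_)
    rw [hB]
    rfl
  have hlt : Nat.card (W v0) < Nat.card X := by
    have h1 : Nat.card (W v0) ∣ Nat.card X := AddSubgroup.card_addSubgroup_dvd_card _
    refine lt_of_le_of_ne (Nat.le_of_dvd Nat.card_pos h1) (fun h => hne ?_)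
    exact AddSubgroup.eq_top_of_card_eq _ h
  refine ⟨Nat.card (W v0), {B | ∃ x a : X, a ≠ 0 ∧ ∀ y, y ∈ B ↔ y - x ∈ W a}, hk, hlt,
    ⟨?_, ?_⟩, ?_⟩
  · rintro B ⟨x, a, ha, hB⟩
    exact hcard x a B ha hB
  · intro T hT
    obtain ⟨x, y, hxy, rfl⟩ := Finset.card_eq_two.mp hT
    have hd : y - x ≠ 0 := sub_ne_zero.mpr (Ne.symm hxy)
    refine ⟨(Set.toFinite {z | z - x ∈ W (y - x)}).toFinset,
      ⟨⟨x, y - x, hd, fun z => by simp⟩, ?_⟩, ?_⟩
    · intro z hz
      simp only [Finset.mem_insert, Finset.mem_singleton] at hz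
      rcases hz with rfl | rfl
      · simp only [Set.Finite.mem_toFinset, Set.mem_ofPred_eq, sub_self]
        exact (W _).zero_mem
      · simp only [Set.Finite.mem_toFinset, Set.mem_ofPred_eq]
        exact hself _
    · rintro B ⟨⟨u, a, ha, hB⟩, hTB⟩
      have hx := (hB x).mp (hTB (by simp))
      have hy := (hB y).mp (hTB (by simp))
      have hyx : y - x ∈ W a := by
        have := (W a).sub_mem hy hx
        rwa [sub_sub_sub_cancel_right] at this
      have hWW := heq a (y - x) ha hd hyx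
      ext z
      rw [hB, Set.Finite.mem_toFinset, Set.mem_ofPred_eq, hWW]
      constructor
      · intro hz
        have := (W a).sub_mem hz hx
        rwa [sub_sub_sub_cancel_right] at this
      · intro hz
        have := (W a).add_mem hz hx
        rwa [sub_add_sub_cancel] at this
  · rintro g hg B ⟨x, a, ha, hB⟩
    obtain ⟨k, hk, hk0, hgk⟩ := hA.linPart hg
    refine ⟨g x, k a, ?_, ?_⟩
    · intro h1
      apply ha
      apply k.injective
      rw [h1, hk0]
    · intro y
      rw [mem_map_perm', hB, ← hconj' k hk hk0, ← hA.diff hg hk hk0 hgk, perm_apply_inv]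

/-- In a 2-Steiner primitive affine group the orbits of a nontrivial abelian normal subgroup of
the linear part span the whole space. -/
theorem IsCliff.orbSpan_top {t : ℕ} (ht : 2 ≤ t) (htr : TTransitive G t) (hA : IsAff G)
    (hC : IsCliff G A) (hst : TSteinerPrimitive G 2) {v : X} (hv : v ≠ 0) :
    orbSpan A v = ⊤ := by
  by_contra hne
  exact not_steiner_of_spread ht htr hA (orbSpan A) mem_orbSpan_self
    (fun h hh h0 v x hx => hC.orbSpan_conj hA hh h0 hx)
    (fun v w hv hw h => hC.orbSpan_eq ht htr hA hv hw h) v hv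
    (hC.two_lt_card ht htr hA hv) hne hst

end Clifford

end Pool.Agent.H922
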