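import Mathlib
import Pool.Agent.H922.Aff2

set_option autoImplicit false
set_option linter.style.haveILetI false
set_option linter.unusedVariables false
set_option linter.unusedSectionVars false

/-!
# Affine groups: the field structure
-/

namespace Pool.Agent.H922

open Equiv MulAction
open scoped Pointwise

section Torus

variable {F : Type*} [Field F] [Finite F]

/-- powers of a semilinear map -/
theorem pow_semi {h : Perm F} {u : F} (hu : u ≠ 0) {σ : F ≃+* F} (hx : ∀ x : F, h x = u * σ x)
    (n : ℕ) : ∃ w : F, w ≠ 0 ∧ ∀ x : F, (h ^ n) x = w * (σ ^ n) x := by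
  induction n with
  | zero => exact ⟨1, one_ne_zero, fun x => by simp⟩
  | succ n ih =>
    obtain ⟨w, hw, ih⟩ := ih
    refine ⟨u * σ w, mul_ne_zero hu (by simpa using hw), fun x => ?_⟩
    rw [pow_succ', Perm.mul_apply, ih, hx, map_mul, pow_succ', mul_assoc]
    rfl

/-- A semilinear group of dimension one over a field without intermediate subfields, transitive on
nonzero elements, contains all scalar multiplications. -/
theorem semi_torus {H : Subgroup (Perm F)}
    (hH : ∀ h ∈ H, ∃ (u : F) (σ : F ≃+* F), u ≠ 0 ∧ ∀ x, h x = u * σ x)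
    (htr : ∀ v : F, v ≠ 0 → ∃ h ∈ H, h 1 = v) (hno : NoInter F) (u : F) (hu : u ≠ 0) :
    ∃ h ∈ H, ∀ x, h x = u * x := by
  classical
  have hex : ∀ v : F, v ≠ 0 → ∃ h ∈ H, ∃ σ : F ≃+* F, ∀ x : F, h x = v * σ x := by
    intro v hv
    obtain ⟨h, hh, h1⟩ := htr v hv
    obtain ⟨w, σ, hw, hx⟩ := hH h hh
    have : w = v := by rw [← h1, hx, map_one, mul_one]
    exact ⟨h, hh, σ, fun x => by rw [hx, this]⟩
  rcases aut_structure hno with haut | ⟨r, hr, haut, hcard⟩
  · obtain ⟨h, hh, σ, hσ⟩ := hex u hu
    have : σ = 1 := (Nat.card_eq_one_iff_unique.mp haut).1.elim _ _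
    exact ⟨h, hh, fun x => by rw [hσ, this]; rfl⟩
  · haveI : Fact r.Prime := ⟨hr⟩
    by_cases hpure : ∃ σ : F ≃+* F, σ ≠ 1 ∧ σ.toEquiv ∈ H
    · obtain ⟨σ, hσ1, hσH⟩ := hpure
      obtain ⟨h, hh, τ, hτ⟩ := hex u hu
      have hmem : τ⁻¹ ∈ Subgroup.zpowers σ := mem_zpowers_of_prime_card haut hσ1
      obtain ⟨i, hi⟩ := Subgroup.mem_zpowers_iff.mp hmem
      have h2 : (τ⁻¹ : F ≃+* F).toEquiv ∈ H := by
        let f : (F ≃+* F) →* Perm F := {
          toFun := fun σ => σ.toEquiv
          map_one' := rfl
          map_mul' := fun _ _ => rfl }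
        change f τ⁻¹ ∈ H
        rw [← hi, map_zpow]
        exact H.zpow_mem hσH i
      refine ⟨h * (τ⁻¹ : F ≃+* F).toEquiv, H.mul_mem hh h2, fun x => ?_⟩
      rw [Perm.mul_apply, hτ]
      congr 1
      change (τ * τ⁻¹) x = x
      rw [mul_inv_cancel]
      rfl
    · push Not at hpure
      have hHcard : Nat.card H = Nat.card Fˣ := by
        have hval : ∀ h : H, ∃ w : Fˣ, (h : Perm F) 1 = w := by
          rintro ⟨g, a1⟩
          obtain ⟨w, σ, hw, hx⟩ := hH g a1
          refine ⟨Units.mk0 w hw, ?_⟩
          change g 1 = _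
          rw [hx, map_one, mul_one]
          rfl
        choose f hf using hval
        apply Nat.card_congr
        apply Equiv.ofBijective f
        constructor
        · intro g h hgh
          have e1 := hf g
          rw [hgh, ← hf h] at e1
          have hm := (H.mul_mem (H.inv_mem h.2) g.2)
          obtain ⟨w, σ, hw, hx⟩ := hH _ hm
          have hw1 : w = 1 := by
            have h5 := hx 1
            rw [Perm.mul_apply, e1, perm_inv_apply, map_one, mul_one] at h5
            exact h5.symm
          have h5 : ((h : Perm F)⁻¹ * (g : Perm F)) = σ.toEquiv := by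
            ext1 x
            rw [hx, hw1, one_mul]
            rfl
          have h6 : σ = 1 := by
            by_contra hne
            apply hpure σ hne
            rw [← h5]
            exact hm
          rw [h6] at h5
          have h7 : ((h : Perm F)⁻¹ * (g : Perm F)) = 1 := h5
          rw [inv_mul_eq_one] at h7
          exact Subtype.ext h7.symm
        · intro w
          obtain ⟨g, hg, σ, hσ⟩ := hex w w.ne_zero
          refine ⟨⟨g, hg⟩, ?_⟩
          have e1 := hf ⟨g, hg⟩
          change g 1 = _ at e1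
          rw [hσ, map_one, mul_one] at e1
          exact Units.ext e1.symm
      obtain ⟨g, hg, σ, hσ⟩ := hex u hu
      have hpow : g ^ Nat.card Fˣ = 1 := by
        rw [← hHcard]
        have := pow_card_eq_one' (x := (⟨g, hg⟩ : H))
        exact congrArg Subtype.val this
      have hσ1 : σ = 1 := by
        by_contra hne
        obtain ⟨w, hw, hx⟩ := pow_semi hu hσ (Nat.card Fˣ)
        rw [hpow] at hx
        have hw1 : w = 1 := by
          have := hx 1
          rw [Perm.one_apply, map_one, mul_one] at this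
          exact this.symm
        have hs : σ ^ Nat.card Fˣ = 1 := by
          ext x
          have := hx x
          rw [hw1, one_mul, Perm.one_apply] at this
          exact this.symm
        have hord : orderOf σ = r := by
          have h7 : orderOf σ ∣ r := haut ▸ orderOf_dvd_natCard σ
          rcases (Nat.dvd_prime hr).mp h7 with h8 | h8
          · exact absurd (orderOf_eq_one_iff.mp h8) hne
          · exact h8
        have hdvd : r ∣ Nat.card Fˣ := hord ▸ orderOf_dvd_of_pow_eq_one hs
        rw [card_units_F, hcard] at hdvd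
        have hf := ZMod.pow_card (p := r) (2 : ZMod r)
        have h9 : ((2 ^ r - 1 : ℕ) : ZMod r) = 0 := (ZMod.natCast_eq_zero_iff _ _).mpr hdvd
        rw [Nat.cast_sub Nat.one_le_two_pow] at h9
        push_cast at h9
        rw [hf] at h9
        have h10 : (1 : ZMod r) = 0 := by
          have : (2 : ZMod r) - 1 = 1 := by norm_num
          rw [this] at h9
          exact h9
        exact one_ne_zero h10
      refine ⟨g, hg, fun x => ?_⟩
      rw [hσ, hσ1]
      rfl

end Torus

section FieldStructure

universe u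

variable {X : Type u} [Finite X] [AddCommGroup X] {G A : Subgroup (Perm X)}

/-- `G` acts on `X`, identified with the field `F` by `e`, by semilinear affine maps -/
def SemiOver {X : Type*} [AddCommGroup X] (G : Subgroup (Perm X)) (F : Type*) [Field F]
    (e : F ≃+ X) : Prop :=
  ∀ h ∈ G, h 0 = 0 → ∃ (u : F) (σ : F ≃+* F), u ≠ 0 ∧ ∀ x, h (e x) = e (u * σ x)

/-- the endomorphisms generated by `A` -/
def genRing (A : Subgroup (Perm X)) : Subring (AddMonoid.End X) :=
  Subring.closure {f | ∃ a ∈ A, ∀ x, f x = a x}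

theorem exists_field (hA : IsAff G) (hC : IsCliff G A)
    (htop : ∀ v : X, v ≠ 0 → orbSpan A v = ⊤) {v0 : X} (hv0 : v0 ≠ 0) :
    ∃ (F : Type u) (_ : Field F) (e : F ≃+ X), SemiOver G F e := by
  classical
  have hcomm : ∀ f ∈ {f : AddMonoid.End X | ∃ a ∈ A, ∀ x, f x = a x},
      ∀ g ∈ {f : AddMonoid.End X | ∃ a ∈ A, ∀ x, f x = a x}, f * g = g * f := by
    rintro f ⟨a, ha, hf⟩ g ⟨b, hb, hg⟩
    ext x
    change f (g x) = g (f x)
    rw [hf, hg, hg, hf]
    exact congrArg (fun k : Perm X => k x) (hC.comm a ha b hb)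
  letI instR : CommRing (genRing A) :=
    { (inferInstance : Ring (genRing A)) with
      mul_comm := (Subring.isMulCommutative_closure hcomm).is_comm.comm }
  -- evaluation is onto
  have honto : ∀ v : X, v ≠ 0 → ∀ x : X, ∃ f : genRing A, (f : AddMonoid.End X) v = x := by
    intro v hv x
    have hx : x ∈ orbSpan A v := by rw [htop v hv]; trivial
    refine AddSubgroup.closure_induction
      (p := fun x _ => ∃ f : genRing A, (f : AddMonoid.End X) v = x) ?_ ?_ ?_ ?_ hx
    · rintro _ ⟨a, ha, rfl⟩
      let f : AddMonoid.End X := {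
        toFun := a
        map_zero' := hC.zero a ha
        map_add' := hA.lin (hC.le ha) (hC.zero a ha) }
      refine ⟨⟨f, Subring.subset_closure ⟨a, ha, fun x => rfl⟩⟩, rfl⟩
    · exact ⟨0, rfl⟩
    · rintro x y _ _ ⟨f, rfl⟩ ⟨g, rfl⟩
      exact ⟨f + g, rfl⟩
    · rintro x _ ⟨f, rfl⟩
      exact ⟨-f, rfl⟩
  have hmulcomm : ∀ (f g : genRing A) (x : X), (f : AddMonoid.End X) ((g : AddMonoid.End X) x) =
      (g : AddMonoid.End X) ((f : AddMonoid.End X) x) := by
    intro f g x
    have h1 : f * g = g * f := mul_comm f g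
    exact congrArg (fun k : genRing A => (k : AddMonoid.End X) x) h1
  have hinj : ∀ v : X, v ≠ 0 → ∀ f : genRing A, (f : AddMonoid.End X) v = 0 → f = 0 := by
    intro v hv f hf
    apply Subtype.ext
    ext x
    obtain ⟨g, rfl⟩ := honto v hv x
    rw [hmulcomm, hf, map_zero]
    rfl
  haveI : Finite (AddMonoid.End X) :=
    Finite.of_injective (fun f : AddMonoid.End X => (f : X → X)) DFunLike.coe_injective
  haveI : Finite (genRing A) := inferInstance
  haveI : Nontrivial (genRing A) := by
    refine ⟨⟨0, 1, fun h => hv0 ?_⟩⟩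
    have := congrArg (fun k : genRing A => (k : AddMonoid.End X) v0) h
    exact this.symm
  haveI : NoZeroDivisors (genRing A) := by
    refine ⟨fun {f g} hfg => ?_⟩
    by_contra hcon
    push Not at hcon
    have h1 : (g : AddMonoid.End X) v0 ≠ 0 := fun h => hcon.2 (hinj v0 hv0 g h)
    apply hcon.1
    apply hinj _ h1
    exact congrArg (fun k : genRing A => (k : AddMonoid.End X) v0) hfg
  haveI : IsDomain (genRing A) := { (inferInstance : NoZeroDivisors (genRing A)),
    (inferInstance : Nontrivial (genRing A)) with }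
  haveI := Fintype.ofFinite (genRing A)
  letI instF : Field (genRing A) := Fintype.fieldOfDomain (genRing A)
  let ev : genRing A →+ X := {
    toFun := fun f => (f : AddMonoid.End X) v0
    map_zero' := rfl
    map_add' := fun _ _ => rfl }
  have hbij : Function.Bijective ev := by
    constructor
    · rw [injective_iff_map_eq_zero]
      exact fun f hf => hinj v0 hv0 f hf
    · exact honto v0 hv0
  let e : genRing A ≃+ X := AddEquiv.ofBijective ev hbij
  refine ⟨genRing A, instF, e, ?_⟩
  intro h hh h0
  have hh' : h⁻¹ ∈ G := G.inv_mem hh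
  have h0' : h⁻¹ 0 = 0 := by rw [Perm.inv_eq_iff_eq, h0]
  -- conjugation
  let cj : AddMonoid.End X →+* AddMonoid.End X := {
    toFun := fun f => {
      toFun := fun x => h (f (h⁻¹ x))
      map_zero' := by rw [h0', map_zero, h0]
      map_add' := fun x y => by rw [hA.lin hh' h0', map_add, hA.lin hh h0] }
    map_one' := by ext x; exact perm_apply_inv h x
    map_mul' := fun f g => by
      ext x
      change h (f (g (h⁻¹ x))) = h (f (h⁻¹ (h (g (h⁻¹ x)))))
      rw [perm_inv_apply]
    map_zero' := by ext x; exact h0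
    map_add' := fun f g => by
      ext x
      change h (f (h⁻¹ x) + g (h⁻¹ x)) = h (f (h⁻¹ x)) + h (g (h⁻¹ x))
      rw [hA.lin hh h0] }
  let cj' : AddMonoid.End X →+* AddMonoid.End X := {
    toFun := fun f => {
      toFun := fun x => h⁻¹ (f (h x))
      map_zero' := by rw [h0, map_zero, h0']
      map_add' := fun x y => by rw [hA.lin hh h0, map_add, hA.lin hh' h0'] }
    map_one' := by ext x; exact perm_inv_apply h x
    map_mul' := fun f g => by
      ext x
      change h⁻¹ (f (g (h x))) = h⁻¹ (f (h (h⁻¹ (g (h x)))))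
      rw [perm_apply_inv]
    map_zero' := by ext x; exact h0'
    map_add' := fun f g => by
      ext x
      change h⁻¹ (f (h x) + g (h x)) = h⁻¹ (f (h x)) + h⁻¹ (g (h x))
      rw [hA.lin hh' h0'] }
  have hcj : ∀ f ∈ genRing A, cj f ∈ genRing A := by
    intro f hf
    have h1 : genRing A ≤ (genRing A).comap cj := by
      unfold genRing
      rw [Subring.closure_le]
      rintro f ⟨a, ha, hf⟩
      refine Subring.subset_closure ⟨h * a * h⁻¹, hC.norm h hh h0 a ha, fun x => ?_⟩
      change h (f (h⁻¹ x)) = _
      rw [hf]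
      rfl
    exact h1 hf
  have hcj' : ∀ f ∈ genRing A, cj' f ∈ genRing A := by
    intro f hf
    have h1 : genRing A ≤ (genRing A).comap cj' := by
      unfold genRing
      rw [Subring.closure_le]
      rintro f ⟨a, ha, hf⟩
      refine Subring.subset_closure ⟨h⁻¹ * a * h⁻¹⁻¹, hC.norm h⁻¹ hh' h0' a ha, fun x => ?_⟩
      change h⁻¹ (f (h x)) = _
      rw [hf, inv_inv]
      rfl
    exact h1 hf
  let σ : genRing A ≃+* genRing A := {
    toFun := fun f => ⟨cj f, hcj f f.2⟩
    invFun := fun f => ⟨cj' f, hcj' f f.2⟩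
    left_inv := fun f => by
      apply Subtype.ext
      ext x
      change h⁻¹ (h ((f : AddMonoid.End X) (h⁻¹ (h x)))) = _
      rw [perm_inv_apply, perm_inv_apply]
    right_inv := fun f => by
      apply Subtype.ext
      ext x
      change h (h⁻¹ ((f : AddMonoid.End X) (h (h⁻¹ x)))) = _
      rw [perm_apply_inv, perm_apply_inv]
    map_mul' := fun f g => Subtype.ext (map_mul cj _ _)
    map_add' := fun f g => Subtype.ext (map_add cj _ _) }
  obtain ⟨u, hu⟩ := honto v0 hv0 (h v0)
  refine ⟨u, σ, ?_, fun f => ?_⟩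
  · rintro rfl
    apply hv0
    apply h.injective
    rw [h0]
    exact hu.symm
  · change h ((f : AddMonoid.End X) v0) =
      (u : AddMonoid.End X) (h ((f : AddMonoid.End X) (h⁻¹ v0)))
    have h5 := hmulcomm u (σ f) v0
    change (u : AddMonoid.End X) (h ((f : AddMonoid.End X) (h⁻¹ v0))) =
      h ((f : AddMonoid.End X) (h⁻¹ ((u : AddMonoid.End X) v0))) at h5
    rw [h5, hu, perm_inv_apply]

end FieldStructure

end Pool.Agent.H922
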