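import Mathlib
import Pool.Agent.H922.Aff3

set_option autoImplicit false
set_option linter.style.haveILetI false
set_option linter.unusedVariables false
set_option linter.unusedSectionVars false

/-!
# Affine groups: semilinear groups of dimension one
-/

namespace Pool.Agent.H922

open Equiv MulAction
open scoped Pointwise

section Semi

universe u

variable {X : Type u} [Finite X] [AddCommGroup X] {G A : Subgroup (Perm X)}
  {F : Type*} [Field F] {e : F ≃+ X}

theorem SemiOver.not_steiner {t : ℕ} (ht : 2 ≤ t) (htr : TTransitive G t) (hA : IsAff G)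
    (hS : SemiOver G F e) (hno : ¬ NoInter F) : ¬ TSteinerPrimitive G 2 := by
  classical
  haveI : Finite F := Finite.of_equiv X e.symm.toEquiv
  unfold NoInter at hno
  push Not at hno
  obtain ⟨L, hL2, hLF⟩ := hno
  let W : X → AddSubgroup X := fun v => {
    carrier := {x | ∃ l ∈ L, x = e (l * e.symm v)}
    zero_mem' := ⟨0, L.zero_mem, by rw [zero_mul, map_zero]⟩
    add_mem' := by
      rintro _ _ ⟨l, hl, rfl⟩ ⟨m, hm, rfl⟩
      exact ⟨l + m, L.add_mem hl hm, by rw [add_mul, map_add]⟩
    neg_mem' := by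
      rintro _ ⟨l, hl, rfl⟩
      exact ⟨-l, L.neg_mem hl, by rw [neg_mul, map_neg]⟩ }
  have hmem : ∀ v x, x ∈ W v ↔ ∃ l ∈ L, x = e (l * e.symm v) := fun v x => Iff.rfl
  have hv0 : e 1 ≠ 0 := by
    rw [Ne, EmbeddingLike.map_eq_zero_iff]
    exact one_ne_zero
  have hcard : Nat.card (W (e 1)) = Nat.card L := by
    apply Nat.card_congr
    refine (Equiv.subtypeEquiv e.symm.toEquiv (fun x => ?_))
    rw [hmem, e.symm_apply_apply]
    constructor
    · rintro ⟨l, hl, rfl⟩
      rw [mul_one]
      change e.symm (e l) ∈ L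
      rw [e.symm_apply_apply]
      exact hl
    · intro h
      refine ⟨_, h, ?_⟩
      rw [mul_one]
      exact (e.apply_symm_apply x).symm
  refine not_steiner_of_spread ht htr hA W ?_ ?_ ?_ (e 1) hv0 ?_ ?_
  · intro v
    exact ⟨1, L.one_mem, by rw [one_mul, e.apply_symm_apply]⟩
  · rintro h hh h0 v x ⟨l, hl, rfl⟩
    obtain ⟨u, σ, hu, hx⟩ := hS h hh h0
    refine ⟨σ l, (map_subfield_iff L σ l).mpr hl, ?_⟩
    have h1 : h v = e (u * σ (e.symm v)) := by rw [← hx, e.apply_symm_apply]
    rw [hx, h1, e.symm_apply_apply, map_mul σ]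
    congr 1
    ring
  · rintro v w hv hw ⟨l, hl, rfl⟩
    have hl0 : l ≠ 0 := by
      rintro rfl
      apply hw
      rw [zero_mul, map_zero]
    ext x
    rw [hmem, hmem, e.symm_apply_apply]
    constructor
    · rintro ⟨m, hm, rfl⟩
      exact ⟨m * l, L.mul_mem hm hl, by rw [mul_assoc]⟩
    · rintro ⟨m, hm, rfl⟩
      refine ⟨m * l⁻¹, L.mul_mem hm (L.inv_mem hl), ?_⟩
      rw [mul_assoc, inv_mul_cancel_left₀ hl0]
  · rw [hcard]; exact hL2
  · intro h
    have h1 := Nat.card_congr e.toEquiv
    rw [← hcard, h] at hLF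
    have h2 : Nat.card (⊤ : AddSubgroup X) = Nat.card X := AddSubgroup.card_top
    omega

/-- all multiplications belong to `G` -/
theorem SemiOver.torus {t : ℕ} (ht : 2 ≤ t) (htr : TTransitive G t)
    (hS : SemiOver G F e) (hno : NoInter F) (u : F) (hu : u ≠ 0) :
    ∃ g ∈ G, g 0 = 0 ∧ ∀ x : F, g (e x) = e (u * x) := by
  haveI : Finite F := Finite.of_equiv X e.symm.toEquiv
  let f : Perm F →* Perm X := {
    toFun := fun h => e.toEquiv.permCongr h
    map_one' := by ext x; simp
    map_mul' := fun a b => by ext x; simp }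
  have hf : ∀ (h : Perm F) (x : F), f h (e x) = e (h x) := by
    intro h x
    change e (h (e.symm (e x))) = _
    rw [e.symm_apply_apply]
  let H : Subgroup (Perm F) := {
    carrier := {h | f h ∈ G ∧ h 0 = 0}
    one_mem' := ⟨by rw [map_one]; exact G.one_mem, rfl⟩
    mul_mem' := by
      rintro a b ⟨h1, h2⟩ ⟨h3, h4⟩
      exact ⟨by rw [map_mul]; exact G.mul_mem h1 h3, by rw [Perm.mul_apply, h4, h2]⟩
    inv_mem' := by
      rintro a ⟨h1, h2⟩
      exact ⟨by rw [map_inv]; exact G.inv_mem h1, by rw [Perm.inv_eq_iff_eq, h2]⟩ }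
  obtain ⟨h, ⟨hh, h0⟩, hx⟩ := semi_torus (H := H) (by
    rintro h ⟨h1, h2⟩
    obtain ⟨u, σ, hu, hx⟩ := hS (f h) h1 (by rw [← map_zero e, hf, h2])
    refine ⟨u, σ, hu, fun x => ?_⟩
    apply e.injective
    rw [← hf, hx]) (by
    intro v hv
    have hv1 : e v ≠ 0 := by rw [Ne, EmbeddingLike.map_eq_zero_iff]; exact hv
    have hv2 : e 1 ≠ 0 := by rw [Ne, EmbeddingLike.map_eq_zero_iff]; exact one_ne_zero
    obtain ⟨g, hg, h0, h1⟩ := IsAff.trans_zero ht htr hv2 hv1
    refine ⟨e.symm.toEquiv.permCongr g, ⟨?_, ?_⟩, ?_⟩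
    · have : f (e.symm.toEquiv.permCongr g) = g := by
        ext x
        change e (e.symm (g (e (e.symm x)))) = _
        rw [e.apply_symm_apply, e.apply_symm_apply]
      rw [this]
      exact hg
    · change e.symm (g (e 0)) = 0
      rw [map_zero, h0, map_zero]
    · change e.symm (g (e 1)) = v
      rw [h1, e.symm_apply_apply]) hno u hu
  refine ⟨f h, hh, ?_, fun x => ?_⟩
  · rw [← map_zero e, hf, h0]
  · rw [hf, hx]

/-- Without intermediate subfields, in characteristic 2, semilinear groups of dimension one are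
2-Steiner primitive. -/
theorem SemiOver.steiner {t : ℕ} (ht : 2 ≤ t) (htr : TTransitive G t) (hA : IsAff G)
    (h2 : ∀ x : X, x + x = 0) (hS : SemiOver G F e) (hno : NoInter F) :
    TSteinerPrimitive G 2 := by
  classical
  haveI : Finite F := Finite.of_equiv X e.symm.toEquiv
  rintro ⟨k, 𝓑, hk2, hkn, ⟨hB1, hB2⟩, hinv⟩
  have h2F : ∀ x : F, x + x = 0 := by
    intro x
    apply e.injective
    rw [map_add, h2, map_zero]
  have hneg : ∀ x : F, -x = x := fun x => neg_eq_of_add_eq_zero_left (h2F x)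
  have hv2 : e 1 ≠ 0 := by rw [Ne, EmbeddingLike.map_eq_zero_iff]; exact one_ne_zero
  obtain ⟨B, ⟨hB, hTB⟩, -⟩ := hB2 {0, e 1} (Finset.card_pair (Ne.symm hv2))
  have h0B : (0 : X) ∈ B := hTB (by simp)
  have h1B : e 1 ∈ B := hTB (by simp)
  have hfix : ∀ g ∈ G, ∀ u v : X, u ≠ v → u ∈ B → v ∈ B → g u ∈ B → g v ∈ B →
      B.map g.toEmbedding = B := by
    intro g hg u v huv hu hv hgu hgv
    apply (hB2 {g u, g v} (Finset.card_pair (g.injective.ne huv))).unique
      ⟨hinv g hg B hB, ?_⟩ ⟨hB, ?_⟩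
    · intro w hw
      simp only [Finset.mem_insert, Finset.mem_singleton] at hw
      rcases hw with rfl | rfl
      · exact mem_map_perm.mpr hu
      · exact mem_map_perm.mpr hv
    · intro w hw
      simp only [Finset.mem_insert, Finset.mem_singleton] at hw
      rcases hw with rfl | rfl
      · exact hgu
      · exact hgv
  -- `B` is a subfield
  have hadd : ∀ a b : F, e a ∈ B → e b ∈ B → e (a + b) ∈ B := by
    intro a b ha hb
    by_cases ha0 : a = 0
    · rw [ha0, zero_add]; exact hb
    have ha0' : e a ≠ 0 := by rw [Ne, EmbeddingLike.map_eq_zero_iff]; exact ha0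
    have := hfix _ (hA.1 (e a)) 0 (e a) (Ne.symm ha0') h0B ha (by
      rw [Equiv.coe_addLeft]; simpa using ha) (by
      rw [Equiv.coe_addLeft]
      change e a + e a ∈ B
      rw [h2]; exact h0B)
    rw [← this, map_add]
    exact mem_map_perm.mpr hb
  have hmul : ∀ a b : F, e a ∈ B → e b ∈ B → e (a * b) ∈ B := by
    intro a b ha hb
    by_cases ha0 : a = 0
    · rw [ha0, zero_mul, map_zero]; exact h0B
    obtain ⟨g, hg, hg0, hgx⟩ := hS.torus ht htr hno a ha0
    have := hfix g hg 0 (e 1) (Ne.symm hv2) h0B h1B (by rw [hg0]; exact h0B) (by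
      rw [hgx, mul_one]; exact ha)
    rw [← this, ← hgx]
    exact mem_map_perm.mpr hb
  let L : Subring F := {
    carrier := {a | e a ∈ B}
    zero_mem' := by
      change e 0 ∈ B
      rw [map_zero]; exact h0B
    one_mem' := h1B
    add_mem' := fun {a b} ha hb => hadd a b ha hb
    mul_mem' := fun {a b} ha hb => hmul a b ha hb
    neg_mem' := fun {a} ha => by
      rw [hneg]; exact ha }
  let L' : Subfield F := {
    L with
    inv_mem' := fun a (ha : a ∈ L) => by
      by_cases ha0 : a = 0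
      · rw [ha0, inv_zero]; exact L.zero_mem
      obtain ⟨n, hn0, hn⟩ : ∃ n : ℕ, 0 < n ∧ a ^ n = 1 := by
        have := isOfFinOrder_of_finite (Units.mk0 a ha0)
        rw [isOfFinOrder_iff_pow_eq_one] at this
        obtain ⟨n, hn, h⟩ := this
        refine ⟨n, hn, ?_⟩
        have h3 := congrArg Units.val h
        rwa [Units.val_pow_eq_pow_val] at h3
      have : a⁻¹ = a ^ (n - 1) := by
        rw [← one_div, div_eq_iff ha0, ← pow_succ, Nat.sub_add_cancel hn0, hn]
      rw [this]
      exact L.pow_mem ha _ }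
  apply hno
  have hcard : Nat.card L' = k := by
    rw [← hB1 B hB, ← natCard_finset]
    apply Nat.card_congr
    exact Equiv.subtypeEquiv e.toEquiv (fun x => Iff.rfl)
  refine ⟨L', by rw [hcard]; exact hk2, ?_⟩
  rw [hcard, Nat.card_congr e.toEquiv]
  exact hkn

/-- if `|F| - 1` is composite a semilinear group of dimension one is not 2-primitive -/
theorem SemiOver.not_prim (hS : SemiOver G F e) (hn : 2 < Nat.card X)
    (hcomp : ¬ (Nat.card X - 1).Prime) : ¬ TPrimitive G 2 := by
  classical
  haveI : Finite F := Finite.of_equiv X e.symm.toEquiv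
  haveI := Fintype.ofFinite F
  intro h
  have hXF : Nat.card F = Nat.card X := Nat.card_congr e.toEquiv
  obtain ⟨ℓ, hℓ, hdvd⟩ := Nat.exists_prime_and_dvd (n := Nat.card F - 1) (by omega)
  have hℓlt : ℓ < Nat.card F - 1 := by
    rcases lt_or_eq_of_le (Nat.le_of_dvd (by omega) hdvd) with h3 | h3
    · exact h3
    · rw [hXF] at h3
      exact absurd (h3 ▸ hℓ) hcomp
  rw [tPrimitive_iff] at h
  obtain ⟨-, hp⟩ := h {0} (by simp)
  have hmem : ∀ x : X, x ∉ (({0} : Finset X) : Set X) → x ≠ 0 := by intro x hx; simpa using hx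
  have hmem' : ∀ x : F, x ≠ 0 → e x ∉ (({0} : Finset X) : Set X) := by
    intro x hx
    simpa using hx
  rcases hp (fun x y => (e.symm x / e.symm y) ^ ℓ = 1)
    (fun x hx => by
      have := hmem x hx
      rw [div_self, one_pow]
      simpa using this)
    (fun x _ y _ h => by rw [← inv_div, inv_pow, h, inv_one])
    (fun x _ y hy z _ h h' => by
      have h4 : e.symm y ≠ 0 := by simpa using hmem y hy
      rw [← div_mul_div_cancel₀ h4, mul_pow, h, h', one_mul])
    (fun g hg hgs x _ y _ h => by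
      obtain ⟨u, σ, hu, hx⟩ := hS g hg (hgs 0 (by simp))
      have e1 : ∀ z, e.symm (g z) = u * σ (e.symm z) := by
        intro z
        rw [← e.apply_symm_apply z, hx, e.symm_apply_apply, e.symm_apply_apply]
      rw [e1, e1, mul_div_mul_left _ _ hu, ← map_div₀, ← map_pow, h, map_one]) with h1 | h1
  · haveI : Fact ℓ.Prime := ⟨hℓ⟩
    obtain ⟨u, hu⟩ := exists_prime_orderOf_dvd_card' (G := Fˣ) ℓ (by rw [card_units_F]; exact hdvd)
    have h3 := h1 _ (hmem' (u : F) u.ne_zero) _ (hmem' 1 one_ne_zero) (by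
      rw [e.symm_apply_apply, e.symm_apply_apply, div_one, ← Units.val_pow_eq_pow_val, ← hu,
        pow_orderOf_eq_one, Units.val_one])
    rw [EmbeddingLike.apply_eq_iff_eq, Units.val_eq_one] at h3
    rw [h3, orderOf_one] at hu
    exact hℓ.one_lt.ne hu
  · obtain ⟨w, hw⟩ := IsCyclic.exists_generator (α := Fˣ)
    have h3 : orderOf w = Nat.card F - 1 := by
      rw [orderOf_eq_card_of_forall_mem_zpowers hw, card_units_F]
    have h8 := h1 _ (hmem' (w : F) w.ne_zero) _ (hmem' 1 one_ne_zero)
    rw [e.symm_apply_apply, e.symm_apply_apply, div_one, ← Units.val_pow_eq_pow_val,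
      Units.val_eq_one] at h8
    have := orderOf_dvd_of_pow_eq_one h8
    rw [h3] at this
    have := Nat.le_of_dvd hℓ.pos this
    omega

end Semi

section Cliff2

universe u

variable {X : Type u} [Finite X] [AddCommGroup X] {G A : Subgroup (Perm X)}

/-- in degree `2 ^ r`, `r` prime, the orbits of `A` span everything -/
theorem IsCliff.orbSpan_top' {t : ℕ} (ht : 2 ≤ t) (htr : TTransitive G t) (hA : IsAff G)
    (hC : IsCliff G A) {r : ℕ} (hr : r.Prime) (hcard : Nat.card X = 2 ^ r) {v : X} (hv : v ≠ 0) :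
    orbSpan A v = ⊤ := by
  classical
  haveI := Fintype.ofFinite X
  have hdvd : Nat.card (orbSpan A v) ∣ 2 ^ r := by
    rw [← hcard]
    exact AddSubgroup.card_addSubgroup_dvd_card _
  obtain ⟨s, hs, hEs⟩ := (Nat.dvd_prime_pow Nat.prime_two).mp hdvd
  have h2 := hC.two_lt_card ht htr hA hv
  have hs2 : 2 ≤ s := by
    by_contra hcon
    have : s = 0 ∨ s = 1 := by omega
    rcases this with h | h <;> rw [h] at hEs <;> omega
  -- the classes of the relation of having the same span on the nonzero elements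
  have hpart : (Nat.card (orbSpan A v) - 1) ∣ (Nat.card X - 1) := by
    have h1 := Finset.card_eq_sum_card_fiberwise (f := fun x => orbSpan A x)
      (s := (Finset.univ : Finset X).erase 0)
      (t := ((Finset.univ : Finset X).erase 0).image (fun x => orbSpan A x))
      (fun x hx => Finset.mem_image_of_mem _ hx)
    rw [Finset.card_erase_of_mem (Finset.mem_univ _), Finset.card_univ,
      ← Nat.card_eq_fintype_card] at h1
    rw [h1]
    apply Finset.dvd_sum
    intro W hW
    obtain ⟨w, hw, rfl⟩ := Finset.mem_image.mp hW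
    have hw0 : w ≠ 0 := (Finset.mem_erase.mp hw).1
    have h3 : ({x ∈ (Finset.univ : Finset X).erase 0 | orbSpan A x = orbSpan A w}) =
        (Set.toFinite (orbSpan A w : Set X)).toFinset.erase 0 := by
      ext x
      simp only [Finset.mem_filter, Finset.mem_erase, Finset.mem_univ, and_true,
        Set.Finite.mem_toFinset, SetLike.mem_coe]
      constructor
      · rintro ⟨h4, h5⟩
        exact ⟨h4, h5 ▸ mem_orbSpan_self x⟩
      · rintro ⟨h4, h5⟩
        exact ⟨h4, hC.orbSpan_eq ht htr hA hw0 h4 h5⟩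
    rw [h3, Finset.card_erase_of_mem]
    · have h4 : (Set.toFinite (orbSpan A w : Set X)).toFinset.card = Nat.card (orbSpan A w) := by
        rw [← Set.ncard_eq_toFinset_card]
        rfl
      rw [h4, hC.card_orbSpan ht htr hA hw0 hv]
    · rw [Set.Finite.mem_toFinset]
      exact (orbSpan A w).zero_mem
  rw [hcard, hEs] at hpart
  have hgcd := Nat.pow_sub_one_gcd_pow_sub_one 2 s r
  rw [Nat.gcd_eq_left hpart] at hgcd
  have h5 : 2 ^ s = 2 ^ (s.gcd r) := by
    have a1 : 0 < 2 ^ s := by positivity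
    have a2 : 0 < 2 ^ (s.gcd r) := by positivity
    omega
  have h6 := Nat.pow_right_injective (le_refl 2) h5
  have h7 : s ∣ r := by rw [h6]; exact Nat.gcd_dvd_right s r
  rcases (Nat.dvd_prime hr).mp h7 with h8 | h8
  · omega
  · apply AddSubgroup.eq_top_of_card_eq
    rw [hEs, hcard, h8]

end Cliff2

end Pool.Agent.H922
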