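import Mathlib
import Pool.Agent.H922.Base

set_option autoImplicit false

/-!
# Definitions for the affine groups
-/

namespace Pool.Agent.H922

open Equiv MulAction

universe u

/-- `AGL(1,F) ≤ G ≤ AΓL(1,F)`, after identification of `X` with the field `F` by the bijection `e`:
all maps `x ↦ a x + b` with `a ≠ 0` are in `G`, and all elements of `G` are maps
`x ↦ a (σ x) + b` with `a ≠ 0` and `σ` a field automorphism -/
def Between {X : Type u} (G : Subgroup (Perm X)) (F : Type u) [Field F] (e : F ≃ X) : Prop :=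
  (∀ a b : F, a ≠ 0 → ∃ g ∈ G, ∀ x : F, g (e x) = e (a * x + b)) ∧
  ∀ g ∈ G, ∃ (a b : F) (σ : F ≃+* F), a ≠ 0 ∧ ∀ x : F, g (e x) = e (a * σ x + b)

end Pool.Agent.H922
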