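import Mathlib
import Pool.Agent.H922.Aff4
import Pool.Agent.H922.Defs2

set_option autoImplicit false
set_option linter.style.haveILetI false
set_option linter.unusedVariables false
set_option linter.unusedSectionVars false

/-!
# Affine groups: the classification
-/

namespace Pool.Agent.H922

open Equiv MulAction
open scoped Pointwise commutatorElement

section General

variable {X : Type*} [Finite X] {G : Subgroup (Perm X)}

theorem tPrimitive_of_succ_trans {t : ℕ} (h : TTransitive G (t + 1)) : TPrimitive G t := by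
  haveI := Fintype.ofFinite X
  haveI := h.2
  have : IsMultiplyPreprimitive G X t :=
    isMultiplyPreprimitive_of_isMultiplyPretransitive_succ G X (by
      have := h.1
      rw [ENat.card_eq_coe_fintype_card]
      rw [Nat.card_eq_fintype_card] at this
      exact_mod_cast this)
  intro s hs
  exact this.isPreprimitive_ofFixingSubgroup (M := G) (n := t) hs

theorem tTransitive_of_le {t m : ℕ} (hmt : m ≤ t) (h : TTransitive G t) : TTransitive G m := by
  haveI := h.2
  exact ⟨le_trans hmt h.1, isMultiplyPretransitive_of_le (n := t) hmt h.1⟩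

/-- the classification for groups containing the alternating group -/
theorem alt_result [DecidableEq X] [Fintype X] {t : ℕ} (ht : 2 ≤ t) (htr : TTransitive G t)
    (hA : alternatingGroup X ≤ G) :
    TPrimitive G t ∧ TSteinerPrimitive G t ∧ (TSetPrimitive G t ↔ Nat.card X ≠ 2 * t) := by
  have h1 := tPrimitive_of_alt htr hA
  refine ⟨h1, h1.steiner (by omega), ?_⟩
  constructor
  · intro h h2
    exact not_tSetPrimitive_of_two_mul ht h2 h
  · intro h
    rw [Nat.card_eq_fintype_card] at h
    exact tSetPrimitive_of_alt (by omega) htr hA h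

theorem alt_of_small [DecidableEq X] [Fintype X] {t : ℕ} (htr : TTransitive G t)
    (hn : Nat.card X ≤ t + 2) : alternatingGroup X ≤ G := by
  apply IsMultiplyPretransitive.alternatingGroup_le
  exact (tTransitive_of_le (by omega) htr).2

end General

section Soluble

theorem hasSol_of_isSolvable {H : Type*} [Group H] [Nontrivial H] (h : Group.IsSolvable H) :
    HasSol H := 
  ⟨⊤, inferInstance, top_ne_bot, by
    haveI := h
    infer_instance⟩

/-- the last nontrivial derived subgroup of a soluble normal subgroup -/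
theorem HasSol.abelian {H : Type*} [Group H] (h : HasSol H) :
    ∃ N : Subgroup H, N.Normal ∧ N ≠ ⊥ ∧ ∀ a ∈ N, ∀ b ∈ N, a * b = b * a := by
  classical
  obtain ⟨S, hSn, hS, hsol⟩ := h
  obtain ⟨n, hn⟩ := (Group.isSolvable_def S).mp hsol
  have hex : ∃ n, derivedSeries S n = ⊥ := ⟨n, hn⟩
  obtain ⟨m, hm⟩ : ∃ m, Nat.find hex = m + 1 := by
    cases hf : Nat.find hex with
    | zero =>
      exfalso
      have h1 := Nat.find_spec hex
      rw [hf, derivedSeries_zero] at h1
      apply hS
      rw [eq_bot_iff]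
      intro s hs
      have h2 : (⟨s, hs⟩ : S) ∈ (⊤ : Subgroup S) := trivial
      rw [h1, Subgroup.mem_bot] at h2
      exact Subgroup.mem_bot.mpr (congrArg Subtype.val h2)
    | succ m => exact ⟨m, rfl⟩
  have h1 : derivedSeries S m ≠ ⊥ := Nat.find_min hex (by omega)
  have h2 : derivedSeries S (m + 1) = ⊥ := hm ▸ Nat.find_spec hex
  refine ⟨(derivedSeries S m).map S.subtype, ?_, ?_, ?_⟩
  · constructor
    rintro _ ⟨s, hs, rfl⟩ g
    let φ : S ≃* S := (MulAut.conjNormal g : MulAut S)
    have h3 : (derivedSeries S m).map φ.toMonoidHom = derivedSeries S m :=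
      map_derivedSeries_eq φ.surjective m
    refine ⟨φ s, ?_, ?_⟩
    · rw [← h3]
      exact ⟨s, hs, rfl⟩
    · exact MulAut.conjNormal_apply g s
  · rwa [Ne, Subgroup.map_eq_bot_iff_of_injective _ S.subtype_injective]
  · rintro _ ⟨a, ha, rfl⟩ _ ⟨b, hb, rfl⟩
    have h3 : ⁅a, b⁆ ∈ derivedSeries S (m + 1) := by
      rw [derivedSeries_succ]
      exact Subgroup.commutator_mem_commutator ha hb
    rw [h2, Subgroup.mem_bot, commutatorElement_eq_one_iff_mul_comm] at h3
    exact congrArg S.subtype h3

end Soluble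

section Main

universe u

variable {X : Type u} [Finite X] {G : Subgroup (Perm X)}

theorem between_of_semi [AddCommGroup X] {t : ℕ} (ht : 2 ≤ t) (htr : TTransitive G t)
    (hA : IsAff G) {F : Type u} [Field F] {e : F ≃+ X} (hS : SemiOver G F e) (hno : NoInter F) :
    Between G F e.toEquiv := by
  constructor
  · intro a b ha
    obtain ⟨g, hg, -, hgx⟩ := hS.torus ht htr hno a ha
    refine ⟨Equiv.addLeft (e b) * g, G.mul_mem (hA.1 _) hg, fun x => ?_⟩
    change e b + g (e x) = e (a * x + b)
    rw [hgx, map_add, add_comm]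
  · intro g hg
    obtain ⟨k, hk, hk0, hgk⟩ := hA.linPart hg
    obtain ⟨u, σ, hu, hx⟩ := hS k hk hk0
    refine ⟨u, e.symm (g 0), σ, hu, fun x => ?_⟩
    change g (e x) = e (u * σ x + e.symm (g 0))
    rw [hgk, hx, map_add, e.apply_symm_apply, add_comm]

/-- odd degree -/
theorem aff_odd [DecidableEq X] [AddCommGroup X] (htr : TTransitive G 2)
    (hA : IsAff G) (hn : 5 ≤ Nat.card X) {p : ℕ} (hp : p.Prime)
    (hord : ∀ a : X, a ≠ 0 → addOrderOf a = p) (hp2 : 2 < p) :
    ¬ TPrimitive G 2 ∧ ¬ TSetPrimitive G 2 ∧ (TSteinerPrimitive G 2 ↔ (Nat.card X).Prime) := by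
  refine ⟨hA.not_two_prim_odd le_rfl htr hp hord hp2 (by omega), hA.not_two_set (by omega), ?_, ?_⟩
  · intro h
    by_contra hcon
    refine hA.not_steiner_odd le_rfl htr hp hord hp2 ?_ h
    rintro h1
    rw [h1] at hcon
    exact hcon hp
  · exact hA.steiner_prime le_rfl htr

/-- even degree with a nontrivial abelian normal subgroup of the linear part -/
theorem aff_even [DecidableEq X] [AddCommGroup X] {A : Subgroup (Perm X)} (htr : TTransitive G 2)
    (hA : IsAff G) (hn : 4 ≤ Nat.card X) (h2 : ∀ a : X, a ≠ 0 → addOrderOf a = 2)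
    (hC : IsCliff G A) :
    (TPrimitive G 2 ↔ ∃ r, Nat.card X = 2 ^ r ∧ (2 ^ r - 1).Prime) ∧ ¬ TSetPrimitive G 2 ∧
      (TSteinerPrimitive G 2 ↔ ∃ r, r.Prime ∧ Nat.card X = 2 ^ r) ∧
      (TSteinerPrimitive G 2 → ∃ (F : Type u) (_ : Field F) (e : F ≃ X), Between G F e) := by
  have hxx : ∀ x : X, x + x = 0 := by
    intro x
    by_cases hx : x = 0
    · rw [hx, add_zero]
    · have := addOrderOf_nsmul_eq_zero x
      rwa [h2 x hx, two_nsmul] at this
  have hnt : Nontrivial X := Finite.one_lt_card_iff_nontrivial.mp (by omega)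
  obtain ⟨v0, hv0⟩ := exists_ne (0 : X)
  -- Steiner primitive groups are semilinear over a field without intermediate subfields
  have key : TSteinerPrimitive G 2 → ∃ (F : Type u) (_ : Field F) (e : F ≃+ X),
      SemiOver G F e ∧ NoInter F := by
    intro hst
    obtain ⟨F, instF, e, hS⟩ := exists_field hA hC
      (fun v hv => hC.orbSpan_top le_rfl htr hA hst hv) hv0
    refine ⟨F, instF, e, hS, ?_⟩
    by_contra hno
    exact hS.not_steiner le_rfl htr hA hno hst
  have hcardF : ∀ (F : Type u) (_ : Field F) (e : F ≃+ X), NoInter F →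
      ∃ r, r.Prime ∧ Nat.card X = 2 ^ r := by
    intro F _ e hno
    haveI : Finite F := Finite.of_equiv X e.symm.toEquiv
    classical
    have hXF : Nat.card F = Nat.card X := Nat.card_congr e.toEquiv
    rcases noInter_iff.mp hno with h | ⟨r, hr, h⟩
    · -- the degree is even
      exfalso
      have h3 : 2 ∣ Nat.card X := by
        rw [← h2 v0 hv0]
        exact addOrderOf_dvd_natCard v0
      rw [← hXF] at h3
      have := (Nat.prime_dvd_prime_iff_eq Nat.prime_two h).mp h3
      omega
    · exact ⟨r, hr, by rw [← hXF, h]⟩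
  have hst_iff : TSteinerPrimitive G 2 ↔ ∃ r, r.Prime ∧ Nat.card X = 2 ^ r := by
    constructor
    · intro hst
      obtain ⟨F, instF, e, hS, hno⟩ := key hst
      exact hcardF F instF e hno
    · rintro ⟨r, hr, hcard⟩
      obtain ⟨F, instF, e, hS⟩ := exists_field hA hC
        (fun v hv => hC.orbSpan_top' le_rfl htr hA hr hcard hv) hv0
      haveI : Finite F := Finite.of_equiv X e.symm.toEquiv
      refine hS.steiner le_rfl htr hA hxx ?_
      classical
      rw [noInter_iff]
      exact Or.inr ⟨r, hr, by rw [Nat.card_congr e.toEquiv]; exact hcard⟩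
  refine ⟨⟨?_, ?_⟩, hA.not_two_set (by omega), hst_iff, ?_⟩
  · intro hpr
    have hst := hpr.steiner (by norm_num)
    obtain ⟨F, instF, e, hS, hno⟩ := key hst
    obtain ⟨r, hr, hcard⟩ := hcardF F instF e hno
    refine ⟨r, hcard, ?_⟩
    by_contra hcon
    exact hS.not_prim (by omega) (by rw [hcard]; exact hcon) hpr
  · rintro ⟨r, hcard, hr⟩
    apply tPrimitive_of_prime htr
    have h3 : Nat.card X + 1 - 2 = 2 ^ r - 1 := by rw [hcard]; omega
    rw [h3]
    exact hr
  · intro hst
    obtain ⟨F, instF, e, hS, hno⟩ := key hst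
    exact ⟨F, instF, e.toEquiv, between_of_semi le_rfl htr hA hS hno⟩

/-- prime degree: the field of order `p` -/
theorem aff_prime_between [AddCommGroup X] (htr : TTransitive G 2) (hA : IsAff G)
    (hp : (Nat.card X).Prime) : ∃ (F : Type u) (_ : Field F) (e : F ≃ X), Between G F e := by
  haveI := Fact.mk hp
  haveI : IsAddCyclic X := isAddCyclic_of_prime_card (p := Nat.card X) rfl
  let e : ULift.{u} (ZMod (Nat.card X)) ≃+ X :=
    AddEquiv.ulift.trans (zmodAddCyclicAddEquiv (G := X) inferInstance)
  have hS : SemiOver G (ULift.{u} (ZMod (Nat.card X))) e := by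
    intro h hh h0
    obtain ⟨m, hm⟩ := hA.lin_smul hp hh h0
    refine ⟨(m : ULift.{u} (ZMod (Nat.card X))), RingEquiv.refl _, ?_, fun x => ?_⟩
    · intro hm0
      have h1 : ∀ x, h (e x) = 0 := by
        intro x
        rw [hm, ← map_zsmul, zsmul_eq_mul, hm0, zero_mul, map_zero]
      have h2 := h1 1
      rw [← h0] at h2
      have h3 := h.injective h2
      rw [EmbeddingLike.map_eq_zero_iff] at h3
      exact one_ne_zero h3
    · rw [hm, ← map_zsmul, zsmul_eq_mul]
      rfl
  haveI : Finite (ULift.{u} (ZMod (Nat.card X))) := Finite.of_equiv X e.symm.toEquiv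
  have hno : NoInter (ULift.{u} (ZMod (Nat.card X))) := by
    classical
    rw [noInter_iff]
    left
    rw [Nat.card_congr e.toEquiv]
    exact hp
  exact ⟨_, _, e.toEquiv, between_of_semi le_rfl htr hA hS hno⟩

/-- the abelian group structure coming from a nontrivial soluble normal subgroup -/
theorem HasSol.aff {t : ℕ} (ht : 2 ≤ t) (htr : TTransitive G t) (h : HasSol G) (x0 : X) :
    ∃ _ : AddCommGroup X, (0 : X) = x0 ∧ IsAff G := by
  obtain ⟨N, hNn, hN, hcomm⟩ := h.abelian
  obtain ⟨inst, h0, h1, h2⟩ := exists_addCommGroup (N := N.map G.subtype) ht htr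
    (by rintro _ ⟨n, -, rfl⟩; exact n.2)
    (by
      rintro g hg _ ⟨n, hn, rfl⟩
      exact ⟨_, hNn.conj_mem n hn ⟨g, hg⟩, rfl⟩)
    (by rwa [Ne, Subgroup.map_eq_bot_iff_of_injective _ G.subtype_injective])
    (by
      rintro _ ⟨a, ha, rfl⟩ _ ⟨b, hb, rfl⟩
      exact congrArg G.subtype (hcomm a ha b hb)) x0
  exact ⟨inst, h0, h1, h2⟩

theorem HasSol.cliff [AddCommGroup X] {x0 : X} (hx0 : (0 : X) = x0)
    (h : HasSol (stabilizer G x0)) : ∃ A : Subgroup (Perm X), IsCliff G A := by
  obtain ⟨N, hNn, hN, hcomm⟩ := h.abelian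
  refine ⟨(N.map (stabilizer G x0).subtype).map G.subtype, ?_⟩
  constructor
  · rintro _ ⟨n, -, rfl⟩; exact n.2
  · rintro _ ⟨_, ⟨n, hn, rfl⟩, rfl⟩
    have := n.2
    rw [mem_stabilizer_iff] at this
    rw [hx0]
    exact this
  · rintro _ ⟨_, ⟨a, ha, rfl⟩, rfl⟩ _ ⟨_, ⟨b, hb, rfl⟩, rfl⟩
    exact congrArg (fun k => G.subtype ((stabilizer G x0).subtype k)) (hcomm a ha b hb)
  · rwa [Ne, Subgroup.map_eq_bot_iff_of_injective _ G.subtype_injective,
      Subgroup.map_eq_bot_iff_of_injective _ (stabilizer G x0).subtype_injective]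
  · rintro g hg hg0 _ ⟨_, ⟨n, hn, rfl⟩, rfl⟩
    have hs : (⟨g, hg⟩ : G) ∈ stabilizer G x0 := by
      rw [mem_stabilizer_iff, ← hx0]
      exact hg0
    exact ⟨_, ⟨_, hNn.conj_mem n hn ⟨⟨g, hg⟩, hs⟩, rfl⟩, rfl⟩

/-- the classification -/
theorem soluble_result [DecidableEq X] {t : ℕ} (ht : 2 ≤ t)
    (htr : TTransitive G t)
    (hG : Group.IsSolvable G ∨
      (HasSol G ∧ (Odd (Nat.card X) ∨ ∀ x : X, HasSol (stabilizer G x)))) :
    (ExcA G t ↔ t = 2 ∧ ∃ r, Nat.card X = 2 ^ r ∧ (2 ^ r - 1).Prime) ∧
    ¬ ExcB G t ∧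
    (ExcC G t ↔ t = 2 ∧ ((5 ≤ Nat.card X ∧ (Nat.card X).Prime) ∨
      ∃ r, r.Prime ∧ Nat.card X = 2 ^ r ∧ ¬ (2 ^ r - 1).Prime)) ∧
    (ExcD G t ↔ t = 2 ∧ 4 ≤ Nat.card X ∧
      ((Nat.card X).Prime ∨ ∃ r, r.Prime ∧ Nat.card X = 2 ^ r)) ∧
    (ExcD G t → ∃ (F : Type u) (_ : Field F) (e : F ≃ X), Between G F e) := by
  haveI := Fintype.ofFinite X
  have hn2 : 2 ≤ Nat.card X := le_trans ht htr.1
  -- numbers
  have pow_small : ∀ r : ℕ, 2 ^ r = 2 → ¬ (2 ^ r - 1).Prime := by
    intro r h; rw [h]; norm_num
  have hmer : ∀ r : ℕ, (2 ^ r - 1).Prime → r.Prime := fun r h => Nat.prime_of_pow_sub_one_prime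
    (by rintro rfl; norm_num at h) h |>.2
  have hodd : ∀ r : ℕ, Nat.card X = 2 ^ r → (Nat.card X).Prime → Nat.card X = 2 := by
    intro r h hp
    have hr : r ≠ 0 := by rintro rfl; rw [h] at hn2; norm_num at hn2
    have : 2 ∣ Nat.card X := by rw [h]; exact dvd_pow_self 2 hr
    exact ((Nat.prime_dvd_prime_iff_eq Nat.prime_two hp).mp this).symm
  -- reduce to the second hypothesis when the degree is at least 3
  by_cases hn3 : Nat.card X ≤ 3
  · -- the symmetric groups of degree 2 and 3
    obtain ⟨h1, h2, h3⟩ := alt_result ht htr (alt_of_small htr (by omega))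
    have h3' : TSetPrimitive G t := h3.mpr (by omega)
    refine ⟨?_, fun h => h.2 h1, ?_, ?_, fun h => absurd h3' h.2⟩
    · refine ⟨fun h => absurd h3' h.2, ?_⟩
      rintro ⟨-, r, hr, hp⟩
      exfalso
      have hr1 : r < 2 := by
        by_contra hcon
        have : 2 ^ 2 ≤ 2 ^ r := Nat.pow_le_pow_right (by norm_num) (by omega)
        omega
      interval_cases r <;> norm_num at hp
    · refine ⟨fun h => absurd h1 h.2, ?_⟩
      rintro ⟨-, ⟨h5, -⟩ | ⟨r, hr, hX, -⟩⟩
      · omega
      · have : 2 ^ 2 ≤ 2 ^ r := Nat.pow_le_pow_right (by norm_num) hr.two_le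
        omega
    · refine ⟨fun h => absurd h3' h.2, ?_⟩
      rintro ⟨-, h, -⟩
      omega
  -- degree at least 4
  have hsol : HasSol G ∧ (Odd (Nat.card X) ∨ ∀ x : X, HasSol (stabilizer G x)) := by
    rcases hG with h | h
    swap
    · exact h
    have hfind : ∀ s : Finset X, s.card ≤ 3 → ∃ b, b ∉ s := by
      intro s hs
      by_contra hcon
      push Not at hcon
      have : (Finset.univ : Finset X) ⊆ s := fun x _ => hcon x
      have := Finset.card_le_card this
      rw [Finset.card_univ, ← Nat.card_eq_fintype_card] at this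
      omega
    have hst : ∀ x : X, Nontrivial (stabilizer G x) := by
      intro x
      obtain ⟨y, hy⟩ := hfind {x} (by simp)
      obtain ⟨z, hz⟩ := hfind {x, y} (le_trans Finset.card_le_two (by norm_num))
      simp only [Finset.mem_insert, Finset.mem_singleton, not_or] at hy hz
      obtain ⟨g, hg, h1, h2⟩ := two_trans ht htr (Ne.symm hy) (Ne.symm hz.1)
      refine ⟨⟨⟨⟨g, hg⟩, by rw [mem_stabilizer_iff]; exact h1⟩, 1, fun h => ?_⟩⟩
      have h3 := congrArg (fun k : stabilizer G x => ((k : G) : Perm X) y) h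
      change g y = y at h3
      rw [h2] at h3
      exact hz.2 h3
    have hnt : Nontrivial G := by
      obtain ⟨x, -⟩ := hfind ∅ (by simp)
      haveI := hst x
      exact (stabilizer G x).subtype_injective.nontrivial
    refine ⟨hasSol_of_isSolvable h, Or.inr fun x => ?_⟩
    haveI := hst x
    haveI := h
    exact hasSol_of_isSolvable inferInstance
  clear hG
  have hne : Nonempty X := by
    by_contra hcon
    rw [not_nonempty_iff] at hcon
    rw [Nat.card_of_isEmpty] at hn2
    omega
  obtain ⟨x0⟩ := hne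
  obtain ⟨inst, hx0, hA⟩ := hsol.1.aff ht htr x0
  obtain ⟨p, hp, hord⟩ := IsAff.exists_prime ht htr hA
  have htr2 : TTransitive G 2 := tTransitive_of_le ht htr
  have hnt : Nontrivial X := Finite.one_lt_card_iff_nontrivial.mp (by omega)
  obtain ⟨v0, hv0⟩ := exists_ne (0 : X)
  have hpdvd : p ∣ Nat.card X := by
    rw [← hord v0 hv0]
    exact addOrderOf_dvd_natCard v0
  -- the order of the group
  have hXp : ∃ d, Nat.card X = p ^ d := by
    haveI : Fact p.Prime := ⟨hp⟩
    have h1 : IsPGroup p (Multiplicative X) := by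
      intro g
      refine ⟨1, ?_⟩
      rw [pow_one]
      change p • (Multiplicative.toAdd g) = 0
      by_cases hg : Multiplicative.toAdd g = 0
      · rw [hg, smul_zero]
      · rw [← hord _ hg]
        exact addOrderOf_nsmul_eq_zero _
    obtain ⟨d, hd⟩ := IsPGroup.iff_card.mp h1
    exact ⟨d, hd⟩
  obtain ⟨d, hd⟩ := hXp
  have hd0 : d ≠ 0 := by rintro rfl; rw [hd] at hn2; norm_num at hn2
  by_cases ht2 : t = 2
  · subst ht2
    rcases hp.eq_two_or_odd' with h2 | h2
    · -- even degree
      subst h2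
      have heven : ¬ Odd (Nat.card X) := by
        rw [Nat.not_odd_iff_even, even_iff_two_dvd]
        exact hpdvd
      have hst := hsol.2.resolve_left heven x0
      obtain ⟨A, hC⟩ := hst.cliff hx0
      obtain ⟨h1, h3, h4, h5⟩ := aff_even htr hA (by omega) hord hC
      have hnp : ¬ (Nat.card X).Prime := by
        intro h
        have := hodd d hd h
        omega
      refine ⟨?_, fun h => h3 h.1, ?_, ?_, fun h => h5 h.1⟩
      · unfold ExcA
        rw [h1]
        simp [h3]
      · unfold ExcC
        rw [h1, h4]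
        constructor
        · rintro ⟨⟨r, hr, hX⟩, h6⟩
          push Not at h6
          exact ⟨rfl, Or.inr ⟨r, hr, hX, h6 r hX⟩⟩
        · rintro ⟨-, ⟨-, h6⟩ | ⟨r, hr, hX, h6⟩⟩
          · exact absurd h6 hnp
          · refine ⟨⟨r, hr, hX⟩, ?_⟩
            rintro ⟨r', hX', h7⟩
            have : r = r' := Nat.pow_right_injective (le_refl 2) (hX.symm.trans hX')
            rw [← this] at h7
            exact h6 h7
      · unfold ExcD
        rw [h4]
        constructor
        · rintro ⟨h6, -⟩
          exact ⟨rfl, by omega, Or.inr h6⟩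
        · rintro ⟨-, -, h6 | h6⟩
          · exact absurd h6 hnp
          · exact ⟨h6, h3⟩
    · -- odd degree
      have hoddn : Odd (Nat.card X) := by rw [hd]; exact h2.pow
      have hne4 : Nat.card X ≠ 4 := by
        intro h
        rw [h] at hoddn
        exact absurd hoddn (by decide)
      have hp3 : 2 < p := by
        have := hp.two_le
        rcases Nat.lt_or_ge 2 p with h | h
        · exact h
        · exfalso
          have : p = 2 := by omega
          rw [this] at h2
          exact absurd h2 (by decide)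
      obtain ⟨h1, h3, h4⟩ := aff_odd htr hA (by omega) hp hord hp3
      have hnpow : ∀ r, Nat.card X ≠ 2 ^ r := by
        intro r h
        rw [h] at hoddn
        have : r = 0 := by
          by_contra hr
          exact absurd hoddn (Nat.not_odd_iff_even.mpr (Even.pow_of_ne_zero even_two hr))
        rw [h, this] at hn3
        norm_num at hn3
      refine ⟨?_, fun h => h3 h.1, ?_, ?_, fun h => aff_prime_between htr hA (h4.mp h.1)⟩
      · constructor
        · intro h; exact absurd h.1 h1
        · rintro ⟨-, r, hX, -⟩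
          exact absurd hX (hnpow r)
      · unfold ExcC
        rw [h4]
        constructor
        · rintro ⟨h5, -⟩
          exact ⟨rfl, Or.inl ⟨by omega, h5⟩⟩
        · rintro ⟨-, ⟨-, h6⟩ | ⟨r, hr, hX, h6⟩⟩
          · exact ⟨h6, h1⟩
          · exact absurd hX (hnpow r)
      · unfold ExcD
        rw [h4]
        constructor
        · rintro ⟨h6, -⟩
          exact ⟨rfl, by omega, Or.inl h6⟩
        · rintro ⟨-, -, h6 | ⟨r, hr, hX⟩⟩
          · exact ⟨h6, h3⟩
          · exact absurd hX (hnpow r)
  · -- `t ≥ 3`: no exceptions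
    have hno : ¬ ExcA G t ∧ ¬ ExcB G t ∧ ¬ ExcC G t ∧ ¬ ExcD G t := by
      by_cases hn4 : Nat.card X = 4
      · obtain ⟨h1, h2, h3⟩ := alt_result ht htr (alt_of_small htr (by omega))
        have h3' : TSetPrimitive G t := h3.mpr (by omega)
        exact ⟨fun h => h.2 h3', fun h => h.2 h1, fun h => h.2 h1, fun h => h.2 h3'⟩
      have htr3 : TTransitive G 3 := tTransitive_of_le (by omega) htr
      rcases hp.eq_two_or_odd' with h2 | h2
      · subst h2
        have hxx : ∀ x : X, x + x = 0 := by
          intro x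
          by_cases hx : x = 0
          · rw [hx, add_zero]
          · have := addOrderOf_nsmul_eq_zero x
            rwa [hord x hx, two_nsmul] at this
        have hns := hA.not_steiner_three hxx (by omega)
        have ht3 : t = 3 := by
          by_contra hcon
          exact not_trans_of_steiner hns (m := t) (by omega) htr
        subst ht3
        exact ⟨fun h => hns (h.1.steiner (by norm_num)),
          fun h => hns (h.1.steiner (by norm_num)), fun h => hns h.1, fun h => hns h.1⟩
      · exfalso
        have hp3 : 2 < p := by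
          have := hp.two_le
          rcases Nat.lt_or_ge 2 p with h | h
          · exact h
          · exfalso
            have : p = 2 := by omega
            rw [this] at h2
            exact absurd h2 (by decide)
        exact hA.not_two_prim_odd le_rfl htr2 hp hord hp3 (by omega)
          (tPrimitive_of_succ_trans htr3)
    obtain ⟨a1, a2, a3, a4⟩ := hno
    refine ⟨?_, a2, ?_, ?_, fun h => absurd h a4⟩
    · exact ⟨fun h => absurd h a1, fun h => absurd h.1 ht2⟩
    · exact ⟨fun h => absurd h a3, fun h => absurd h.1 ht2⟩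
    · exact ⟨fun h => absurd h a4, fun h => absurd h.1 ht2⟩

end Main

end Pool.Agent.H922
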