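import Mathlib
import Pool.Agent.H922.Aff5

set_option autoImplicit false
set_option linter.style.haveILetI false
set_option linter.unusedVariables false
set_option linter.unusedSectionVars false

/-!
# Groups between `AGL(1,F)` and `AΓL(1,F)` are soluble and 2-transitive
-/

namespace Pool.Agent.H922

open Equiv MulAction
open scoped Pointwise commutatorElement

universe u

variable {X : Type u} {G : Subgroup (Perm X)} {F : Type u} [Field F] [Finite F] {e : F ≃ X}

theorem aut_comm (σ τ : F ≃+* F) : σ * τ = τ * σ := by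
  obtain ⟨p, hchar⟩ := CharP.exists F
  haveI := hchar
  haveI hp : Fact p.Prime := ⟨CharP.char_is_prime F p⟩
  letI : Algebra (ZMod p) F := ZMod.algebra F p
  obtain ⟨σ', rfl⟩ := (autEquiv (F := F) p).surjective σ
  obtain ⟨τ', rfl⟩ := (autEquiv (F := F) p).surjective τ
  have h : σ' * τ' = τ' * σ' := by
    haveI : IsCyclic (F ≃ₐ[ZMod p] F) := inferInstance
    exact (IsCyclic.commGroup (α := (F ≃ₐ[ZMod p] F))).mul_comm σ' τ'
  ext x
  exact congrArg (fun k : F ≃ₐ[ZMod p] F => k x) h

theorem Between.two_transitive (h : Between G F e) : TTransitive G 2 := by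
  haveI : Finite X := Finite.of_equiv F e
  refine ⟨?_, ?_⟩
  · rw [← Nat.card_congr e]
    exact Finite.one_lt_card
  · rw [multTrans_iff]
    intro a b ha hb
    -- maps to and from the pair `(0, 1)`
    have key : ∀ c : Fin 2 → X, Function.Injective c → ∃ g ∈ G, g (e 0) = c 0 ∧ g (e 1) = c 1 := by
      intro c hc
      have hne : e.symm (c 1) - e.symm (c 0) ≠ 0 := by
        rw [sub_ne_zero]
        intro h1
        have := hc (e.symm.injective h1)
        exact absurd this (by decide)
      obtain ⟨g, hg, hgx⟩ := h.1 _ (e.symm (c 0)) hne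
      refine ⟨g, hg, ?_, ?_⟩
      · rw [hgx, mul_zero, zero_add, e.apply_symm_apply]
      · rw [hgx, mul_one, sub_add_cancel, e.apply_symm_apply]
    obtain ⟨g, hg, g0, g1⟩ := key a ha
    obtain ⟨k, hk, k0, k1⟩ := key b hb
    refine ⟨k * g⁻¹, G.mul_mem hk (G.inv_mem hg), ?_⟩
    intro i
    fin_cases i
    · change (k * g⁻¹) (a 0) = b 0
      rw [Perm.mul_apply, ← g0, perm_inv_apply, k0]
    · change (k * g⁻¹) (a 1) = b 1
      rw [Perm.mul_apply, ← g1, perm_inv_apply, k1]

theorem Between.soluble (h : Between G F e) : Group.IsSolvable G := by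
  -- affine maps without field automorphism
  let M : Subgroup G := {
    carrier := {g | ∃ a b : F, a ≠ 0 ∧ ∀ x : F, (g : Perm X) (e x) = e (a * x + b)}
    one_mem' := ⟨1, 0, one_ne_zero, fun x => by simp⟩
    mul_mem' := by
      rintro g h ⟨a, b, ha, hg⟩ ⟨c, d, hc, hh⟩
      refine ⟨a * c, a * d + b, mul_ne_zero ha hc, fun x => ?_⟩
      rw [Subgroup.coe_mul, Perm.mul_apply, hh, hg]
      congr 1
      ring
    inv_mem' := by
      rintro g ⟨a, b, ha, hg⟩
      refine ⟨a⁻¹, - (a⁻¹ * b), inv_ne_zero ha, fun x => ?_⟩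
      rw [Subgroup.coe_inv, Perm.inv_eq_iff_eq, hg]
      congr 1
      field_simp
      ring }
  -- translations
  let T : Subgroup G := {
    carrier := {g | ∃ b : F, ∀ x : F, (g : Perm X) (e x) = e (x + b)}
    one_mem' := ⟨0, fun x => by simp⟩
    mul_mem' := by
      rintro g h ⟨b, hg⟩ ⟨d, hh⟩
      refine ⟨d + b, fun x => ?_⟩
      rw [Subgroup.coe_mul, Perm.mul_apply, hh, hg, add_assoc]
    inv_mem' := by
      rintro g ⟨b, hg⟩
      refine ⟨-b, fun x => ?_⟩
      rw [Subgroup.coe_inv, Perm.inv_eq_iff_eq, hg, neg_add_cancel_right] }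
  have hcomp : ∀ (g k : G) (x : X), ((g * k : G) : Perm X) x = (g : Perm X) ((k : Perm X) x) :=
    fun g k x => rfl
  have h1 : ⁅(⊤ : Subgroup G), ⊤⁆ ≤ M := by
    rw [Subgroup.commutator_le]
    intro g _ k _
    obtain ⟨a, b, σ, ha, hg⟩ := h.2 _ g.2
    obtain ⟨c, d, τ, hc, hk⟩ := h.2 _ k.2
    obtain ⟨a', b', ρ, ha', hgk⟩ := h.2 _ (⁅g, k⁆ : G).2
    -- compare `g k` with `[g,k] k g`
    have e1 : (⁅g, k⁆ : G) * (k * g) = g * k := by
      rw [commutatorElement_def]; group
    have e2 : ∀ x : F, a' * ρ (c * τ (a * σ x + b) + d) + b' = a * σ (c * τ x + d) + b := by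
      intro x
      apply e.injective
      rw [← hgk, ← hk, ← hg, ← hg, ← hk]
      have := congrArg (fun m : G => (m : Perm X) (e x)) e1
      exact this
    -- the linear parts
    have e3 : ∀ x : F, a' * ρ c * ρ (τ a) * ρ (τ (σ x)) = a * σ c * σ (τ x) := by
      intro x
      have f1 := e2 x
      have f0 := e2 0
      simp only [map_add, map_mul, map_zero, mul_zero, zero_add] at f1 f0
      linear_combination f1 - f0
    have e4 : a' * ρ c * ρ (τ a) = a * σ c := by
      have := e3 1
      simpa using this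
    have hne : a * σ c ≠ 0 := mul_ne_zero ha (by simpa using hc)
    have e5 : ∀ x : F, ρ x = x := by
      intro x
      have f1 := e3 (σ.symm (τ.symm x))
      rw [e4] at f1
      have f2 := mul_left_cancel₀ hne f1
      rw [RingEquiv.apply_symm_apply, RingEquiv.apply_symm_apply] at f2
      rw [f2]
      have f3 : σ (τ (σ.symm (τ.symm x))) = (σ * τ) (σ.symm (τ.symm x)) := rfl
      rw [f3, aut_comm]
      change τ (σ (σ.symm (τ.symm x))) = x
      rw [RingEquiv.apply_symm_apply, RingEquiv.apply_symm_apply]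
    refine ⟨a', b', ha', fun x => ?_⟩
    have := hgk x
    rwa [e5] at this
  have h2 : ⁅M, M⁆ ≤ T := by
    rw [Subgroup.commutator_le]
    rintro g ⟨a, b, ha, hg⟩ k ⟨c, d, hc, hk⟩
    have hmem : (⁅g, k⁆ : G) ∈ M := by
      rw [commutatorElement_def]
      exact M.mul_mem (M.mul_mem (M.mul_mem ⟨a, b, ha, hg⟩ ⟨c, d, hc, hk⟩)
        (M.inv_mem ⟨a, b, ha, hg⟩)) (M.inv_mem ⟨c, d, hc, hk⟩)
    obtain ⟨a', b', ha', hgk⟩ := hmem
    have e1 : (⁅g, k⁆ : G) * (k * g) = g * k := by
      rw [commutatorElement_def]; group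
    have e2 : ∀ x : F, a' * (c * (a * x + b) + d) + b' = a * (c * x + d) + b := by
      intro x
      apply e.injective
      rw [← hgk, ← hk, ← hg, ← hg, ← hk]
      have := congrArg (fun m : G => (m : Perm X) (e x)) e1
      exact this
    have e3 : a' * (c * a) = c * a := by linear_combination e2 1 - e2 0
    have e4 : a' = 1 := by
      have hne : c * a ≠ 0 := mul_ne_zero hc ha
      exact mul_right_cancel₀ hne (by rw [e3, one_mul])
    refine ⟨b', fun x => ?_⟩
    rw [hgk, e4, one_mul]
  have h3 : ⁅T, T⁆ ≤ ⊥ := by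
    rw [Subgroup.commutator_le]
    rintro g ⟨b, hg⟩ k ⟨d, hk⟩
    rw [Subgroup.mem_bot, commutatorElement_eq_one_iff_mul_comm]
    apply Subtype.ext
    ext1 x
    obtain ⟨y, rfl⟩ := e.surjective x
    rw [hcomp, hcomp, hk, hg, hg, hk]
    congr 1
    ring
  rw [Group.isSolvable_def]
  refine ⟨3, ?_⟩
  rw [eq_bot_iff]
  have d1 : derivedSeries G 1 ≤ M := by
    rw [derivedSeries_succ, derivedSeries_zero]
    exact h1
  have d2 : derivedSeries G 2 ≤ T := by
    rw [derivedSeries_succ]
    exact le_trans (Subgroup.commutator_mono d1 d1) h2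
  rw [derivedSeries_succ]
  exact le_trans (Subgroup.commutator_mono d2 d2) h3

end Pool.Agent.H922
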