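import Mathlib
import Pool.Agent.H922.Base
import Pool.Agent.H922.Gens

set_option autoImplicit false

/-!
# The multiply transitive groups

`G` is always a permutation group on the finite set `X`.
-/

namespace Pool.Agent.H922.C

open Equiv MulAction Matrix

universe u

section Projective

variable {F X : Type*} [Field F] {n : ℕ}

/-- The elements `x` of `X` are points of a projective space over `F` with coordinate vectors
`P x`. The permutation `g` is induced by the semilinear bijection `v ↦ M (σ v)` of `Fⁿ`. -/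
def Induced (P : X → Fin n → F) (M : Matrix (Fin n) (Fin n) F) (σ : F ≃+* F) (g : Perm X) :
    Prop :=
  M.det ≠ 0 ∧ ∀ x, ∃ c : F, M *ᵥ (fun i => σ (P x i)) = c • P (g x)

/-- `X` is the set of all points of the projective space whose coordinate vectors satisfy the
homogeneous condition `Z`; `P x` is a coordinate vector of the point `x`. -/
def Points (P : X → Fin n → F) (Z : (Fin n → F) → Prop) : Prop :=
  (∀ x, P x ≠ 0 ∧ Z (P x)) ∧ ∀ v, v ≠ 0 → Z v → ∃! x, ∃ c : F, v = c • P x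

/-- Coordinate vectors of the `q² + 1` points of the Suzuki-Tits ovoid, `q = |F|`. -/
def suz (θ : F ≃+* F) : Option (F × F) → Fin 4 → F
  | none => ![1, 0, 0, 0]
  | some (a, b) => ![a * b + θ a * a ^ 2 + θ b, b, a, 1]

/-- second coordinate of the points of the Ree-Tits ovoid -/
def reeV (θ : F ≃+* F) (r s t : F) : F :=
  θ r * θ s - θ t + r * s ^ 2 + s * t - θ r ^ 2 * r ^ 3

/-- third coordinate of the points of the Ree-Tits ovoid -/
def reeU (θ : F ≃+* F) (r s t : F) : F := r ^ 2 * s - r * t + θ s - θ r * r ^ 3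

/-- Coordinate vectors of the `q³ + 1` points of the Ree-Tits ovoid, `q = |F|`. -/
def ree (θ : F ≃+* F) : Option (F × F × F) → Fin 7 → F
  | none => ![1, 0, 0, 0, 0, 0, 0]
  | some (r, s, t) =>
    ![r * reeV θ r s t + s * reeU θ r s t + t ^ 2, reeV θ r s t, reeU θ r s t, t, s, r, 1]

end Projective

variable {X : Type u}

section Projective

/-- `G ≤ PΓL(n, q)`, acting on the points of the projective space -/
def InPGL (G : Subgroup (Perm X)) (n q : ℕ) : Prop :=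
  ∃ (F : Type u) (_ : Field F) (P : X → Fin n → F), Nat.card F = q ∧ Points P (fun _ => True) ∧
    ∀ g ∈ G, ∃ M σ, Induced P M σ g

/-- `PSL(2, q) ≤ G ≤ PΓL(2, q)`, acting on the points of the projective line -/
def IsPSL2 (G : Subgroup (Perm X)) (q : ℕ) : Prop :=
  ∃ (F : Type u) (_ : Field F) (P : X → Fin 2 → F), Nat.card F = q ∧ Points P (fun _ => True) ∧
    (∀ M g, M.det = 1 → Induced P M (RingEquiv.refl F) g → g ∈ G) ∧
    ∀ g ∈ G, ∃ M σ, Induced P M σ g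

/-- `PSL(2, q) ≤ G ≤ PΣL(2, q)`, acting on the points of the projective line -/
def IsPSigma2 (G : Subgroup (Perm X)) (q : ℕ) : Prop :=
  ∃ (F : Type u) (_ : Field F) (P : X → Fin 2 → F), Nat.card F = q ∧ Points P (fun _ => True) ∧
    (∀ M g, M.det = 1 → Induced P M (RingEquiv.refl F) g → g ∈ G) ∧
    ∀ g ∈ G, ∃ M σ, IsSquare M.det ∧ Induced P M σ g

/-- `G ≤ PΓU(3, q)`, acting on the `q³ + 1` isotropic points of a hermitian form over the field
with `q²` elements; `τ` is the field automorphism of order 2 -/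
def InPGU (G : Subgroup (Perm X)) : Prop :=
  ∃ (F : Type u) (_ : Field F) (τ : F ≃+* F) (P : X → Fin 3 → F), (∀ x, τ (τ x) = x) ∧
    (∃ x, τ x ≠ x) ∧ Points P (fun v => v 0 * τ (v 2) + v 1 * τ (v 1) + v 2 * τ (v 0) = 0) ∧
    ∀ g ∈ G, ∃ M σ, Induced P M σ g

/-- `Sz(q) ≤ G ≤ Aut(Sz(q))`, `q > 2`, acting on the points of the Suzuki-Tits ovoid -/
def IsSz (G : Subgroup (Perm X)) : Prop :=
  ∃ (F : Type u) (_ : Field F) (θ : F ≃+* F) (e : X ≃ Option (F × F)), 2 < Nat.card F ∧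
    (∀ x, θ (θ x) = x ^ 2) ∧
    (∀ M g, Induced (fun x => suz θ (e x)) M (RingEquiv.refl F) g → g ∈ G) ∧
    ∀ g ∈ G, ∃ M σ, Induced (fun x => suz θ (e x)) M σ g

/-- `R(q) ≤ G ≤ Aut(R(q))`, `q > 3`, acting on the points of the Ree-Tits ovoid -/
def IsRee (G : Subgroup (Perm X)) : Prop :=
  ∃ (F : Type u) (_ : Field F) (θ : F ≃+* F) (e : X ≃ Option (F × F × F)), 3 < Nat.card F ∧
    (∀ x, θ (θ x) = x ^ 3) ∧
    (∀ M g, Induced (fun x => ree θ (e x)) M (RingEquiv.refl F) g → g ∈ G) ∧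
    ∀ g ∈ G, ∃ M σ, Induced (fun x => ree θ (e x)) M σ g

end Projective

section Affine

/-- `AGL(1, q) ≤ G ≤ AΓL(1, q)` -/
def IsAL (G : Subgroup (Perm X)) (q : ℕ) : Prop :=
  ∃ (F : Type u) (_ : Field F) (e : X ≃ F), Nat.card F = q ∧
    (∀ (a b : F) (g : Perm X), (∀ x, e (g x) = a * e x + b) → g ∈ G) ∧
    ∀ g ∈ G, ∃ (a b : F) (σ : F ≃+* F), ∀ x, e (g x) = a * σ (e x) + b

/-- `G ≤ AΓL(n, q)` -/
def InAGL (G : Subgroup (Perm X)) (n q : ℕ) : Prop :=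
  ∃ (F : Type u) (_ : Field F) (e : X ≃ (Fin n → F)), Nat.card F = q ∧
    ∀ g ∈ G, ∃ (M : Matrix (Fin n) (Fin n) F) (σ : F ≃+* F) (b : Fin n → F),
      ∀ x, e (g x) = M *ᵥ (fun i => σ (e x i)) + b

/-- `J` is the matrix of a nondegenerate alternating form over the field with two elements. -/
def IsAlt {n : ℕ} (J : Matrix (Fin n) (Fin n) (ZMod 2)) : Prop :=
  J.det ≠ 0 ∧ Jᵀ = J ∧ ∀ i, J i i = 0

/-- `G ≤ AGL(n, 2)`, and `G` contains all affine maps whose linear part preserves the form `J`,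
where `J` is zero or a nondegenerate alternating form; that is, `G = AGL(n, 2)` or
`2ⁿ : Sp(n, 2) ≤ G ≤ AGL(n, 2)`. -/
def IsAff2 (G : Subgroup (Perm X)) : Prop :=
  ∃ (n : ℕ) (J : Matrix (Fin n) (Fin n) (ZMod 2)) (e : X ≃ (Fin n → ZMod 2)),
    (J = 0 ∨ IsAlt J) ∧
    (∀ (M : Matrix (Fin n) (Fin n) (ZMod 2)) (b : Fin n → ZMod 2) (g : Perm X),
      Mᵀ * J * M = J → (∀ x, e (g x) = M *ᵥ e x + b) → g ∈ G) ∧
    ∀ g ∈ G, ∃ (M : Matrix (Fin n) (Fin n) (ZMod 2)) (b : Fin n → ZMod 2),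
      ∀ x, e (g x) = M *ᵥ e x + b

/-- `G = Sp(2m, 2)`, `m ≥ 3`, acting on the set of all quadratic forms with polarisation `J` and
with exactly `2 ^ (m - 1) * (2 ^ m + 1)` zeros, or with exactly `2 ^ (m - 1) * (2 ^ m - 1)` zeros;
`Q x` is the quadratic form corresponding to `x` -/
def IsSp2 (G : Subgroup (Perm X)) : Prop :=
  ∃ (m N : ℕ) (J : Matrix (Fin (2 * m)) (Fin (2 * m)) (ZMod 2))
    (Q : X → (Fin (2 * m) → ZMod 2) → ZMod 2), 3 ≤ m ∧ IsAlt J ∧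
    (N = 2 ^ (m - 1) * (2 ^ m + 1) ∨ N = 2 ^ (m - 1) * (2 ^ m - 1)) ∧ Function.Injective Q ∧
    (∀ f, (∃ x, Q x = f) ↔ (∀ v w, f (v + w) = f v + f w + v ⬝ᵥ J *ᵥ w) ∧
      Nat.card {v // f v = 0} = N) ∧
    ∀ g : Perm X, g ∈ G ↔ ∃ M : Matrix (Fin (2 * m)) (Fin (2 * m)) (ZMod 2),
      Mᵀ * J * M = J ∧ ∀ x v, Q (g x) (M *ᵥ v) = Q x v

end Affine

section Lists

/-- the group generated by the permutations of `X` which, on identifying `X` with
`{0, ..., n-1}` by `e`, have their lists of images in `L` -/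
def gen {n : ℕ} (e : X ≃ Fin n) (L : List (List ℕ)) : Subgroup (Perm X) :=
  Subgroup.closure {g | ∃ l ∈ L, ∀ x, (e (g x) : ℕ) = l.getD (e x) 0}

/-- up to a bijection of `X` with `{0, ..., n-1}`, `G` is generated by the permutations in `L` -/
def IsGen (G : Subgroup (Perm X)) (n : ℕ) (L : List (List ℕ)) : Prop :=
  ∃ e : X ≃ Fin n, G = gen e L

variable [Fintype X] [DecidableEq X]

/-- The list of 2-transitive groups:
* groups containing the alternating group;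
* affine groups: groups with a nontrivial soluble normal subgroup such that the degree is odd or
  the point stabilisers have a nontrivial soluble normal subgroup; subgroups of `AΓL(n, q)` with
  `n ≥ 2`, `q > 2`; `AGL(n, 2)` and groups between `2ⁿ : Sp(n, 2)` and `AGL(n, 2)`; affine groups
  containing `2⁴ : A₆` or `2⁶ : G₂(2)'`;
* groups between `PSL(2, q)` and `PΓL(2, q)`, subgroups of `PΓL(n, q)` with `n ≥ 3`, subgroups of
  `PΓU(3, q)`, the Suzuki groups, the Ree groups, `Sp(2m, 2)` in both actions;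
* `PSL(2, 11)` in degree 11, `M₁₁` in degrees 11 and 12, `M₁₂`, `M₂₂`, `Aut(M₂₂)`, `M₂₃`, `M₂₄`,
  `PΓL(2, 8)` in degree 28, `HS` in degree 176, `Co₃` in degree 276. -/
def OnList (G : Subgroup (Perm X)) : Prop :=
  alternatingGroup X ≤ G ∨
  (HasSol G ∧ (Odd (Nat.card X) ∨ ∀ x : X, HasSol (stabilizer G x))) ∨
  (∃ n q, 2 ≤ n ∧ 2 < q ∧ InAGL G n q) ∨ IsAff2 G ∨
  (HasSol G ∧ ((∃ e : X ≃ Fin 16, gen e asL ≤ G) ∨ ∃ e : X ≃ Fin 64, gen e gtL ≤ G)) ∨
  (∃ q, IsPSL2 G q) ∨ (∃ n q, 3 ≤ n ∧ InPGL G n q) ∨ InPGU G ∨ IsSz G ∨ IsRee G ∨ IsSp2 G ∨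
  IsGen G 11 laL ∨ IsGen G 11 m11L ∨ IsGen G 12 m11xL ∨ IsGen G 12 m12L ∨ IsGen G 22 m22L ∨
  IsGen G 22 (m22L ++ [m22Out]) ∨ IsGen G 23 m23L ∨ IsGen G 24 m24L ∨ IsGen G 28 r3L ∨
  IsGen G 176 hsL ∨ IsGen G 276 coL

/-- The `t`-primitive groups which are not `t`-set primitive: for `n = 2t` the alternating and
symmetric groups; for `t = 2` the groups between `AGL(1, q)` and `AΓL(1, q)`, where `q = 2 ^ r` and
`q - 1` is a prime, `AGL(n, 2)` and the groups between `2ⁿ : Sp(n, 2)` and `AGL(n, 2)`, the affine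
groups containing `2⁴ : A₆` or `2⁶ : G₂(2)'`, the groups between `PSL(2, q)` and `PΓL(2, q)` for
`q = 3, 5`, the groups between `PSL(2, q)` and `PΣL(2, q)` for `q = 7, 9, 11`, and `Sp(2m, 2)`,
`m ≥ 3`; for `t = 3` the subgroups of `PΓL(2, q)`, where `q = 2 ^ r ≥ 8` and `q - 1` is a prime,
and `M₁₁` in degree 12; for `t = 4` the group `M₂₄`. -/
def ListA (G : Subgroup (Perm X)) (t : ℕ) : Prop :=
  (Nat.card X = 2 * t ∧ alternatingGroup X ≤ G) ∨
  (t = 2 ∧ ((∃ r, (2 ^ r - 1).Prime ∧ IsAL G (2 ^ r)) ∨ (4 ≤ Nat.card X ∧ IsAff2 G) ∨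
    (HasSol G ∧ ((∃ e : X ≃ Fin 16, gen e asL ≤ G) ∨ ∃ e : X ≃ Fin 64, gen e gtL ≤ G)) ∨
    IsPSL2 G 3 ∨ IsPSL2 G 5 ∨ IsPSigma2 G 7 ∨ IsPSigma2 G 9 ∨ IsPSigma2 G 11 ∨ IsSp2 G)) ∨
  (t = 3 ∧ ((∃ r, 3 ≤ r ∧ (2 ^ r - 1).Prime ∧ InPGL G 2 (2 ^ r)) ∨ IsGen G 12 m11xL)) ∨
  (t = 4 ∧ IsGen G 24 m24L)

/-- The groups which are `t`-Steiner primitive, but neither `t`-primitive nor `t`-set primitive: `q`
is a prime `≥ 5`, or `q = 2 ^ r` where `r` is a prime and `q - 1` is not a prime; and either `t = 2`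
and `AGL(1, q) ≤ G ≤ AΓL(1, q)`, or `t = 3` and `G ≤ PΓL(2, q)`. -/
def ListC (G : Subgroup (Perm X)) (t : ℕ) : Prop :=
  ∃ q : ℕ, ((q.Prime ∧ 5 ≤ q) ∨ ∃ r, r.Prime ∧ ¬ (2 ^ r - 1).Prime ∧ q = 2 ^ r) ∧
    ((t = 2 ∧ IsAL G q) ∨ (t = 3 ∧ InPGL G 2 q))

end Lists

end Pool.Agent.H922.C
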