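import Mathlib
import Pool.Agent.H922.Defs3

set_option autoImplicit false

/-!
# Definitions of families of 2-transitive groups
-/

namespace Pool.Agent.H922

open Equiv

universe u

/-- Subgroups of `AΓL(V)`, where `V` is a vector space of dimension at least 2 over a field `F`
with more than two elements: `X` is identified with `V` by the bijection `e`, and every element of
`G` is a map `v ↦ A v + b` with `A` a semilinear bijection. -/
def IsAGL {X : Type u} (G : Subgroup (Perm X)) : Prop :=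
  ∃ (F V : Type u) (_ : Field F) (_ : AddCommGroup V) (_ : Module F V) (e : V ≃ X),
    2 < Nat.card F ∧ 2 ≤ Module.finrank F V ∧
    ∀ g ∈ G, ∃ (σ : F ≃+* F) (A : V ≃+ V) (b : V),
      (∀ (c : F) (v : V), A (c • v) = σ c • A v) ∧ ∀ v, g (e v) = e (A v + b)

/-- Subgroups of `PΓL(V)`, where `V` is a vector space of dimension at least 3 over a field `F`:
`X` is the set of one-dimensional subspaces of `V`, where `π v` is the one spanned by `v`, and
every element of `G` is induced by a semilinear bijection `A`. -/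
def IsPGL {X : Type u} (G : Subgroup (Perm X)) : Prop :=
  ∃ (F V : Type u) (_ : Field F) (_ : AddCommGroup V) (_ : Module F V)
    (π : {v : V // v ≠ 0} → X), 3 ≤ Module.finrank F V ∧
    Function.Surjective π ∧ (∀ v w, π v = π w ↔ ∃ c : F, (w : V) = c • (v : V)) ∧
    ∀ g ∈ G, ∃ (σ : F ≃+* F) (A : V ≃+ V), (∀ (c : F) (v : V), A (c • v) = σ c • A v) ∧
      ∀ v : {v : V // v ≠ 0}, ∃ w : {v : V // v ≠ 0}, (w : V) = A v ∧ g (π v) = π w

/-- the hermitian form `x₀ ȳ₂ + x₁ ȳ₁ + x₂ ȳ₀` on `F³`, where the bar is the automorphism `τ` -/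
def herm {F : Type*} [Field F] (τ : F ≃+* F) (x y : Fin 3 → F) : F :=
  x 0 * τ (y 2) + x 1 * τ (y 1) + x 2 * τ (y 0)

/-- Subgroups of `PΓU(3, q)`: for a field `F` with an automorphism `τ` of order 2, `X` is the set
of isotropic points, i.e. of the one-dimensional subspaces `π v` spanned by the nonzero vectors
`v` in `F³` with `herm v v = 0`, and every element of `G` is induced by a semilinear
bijection `A`. -/
def IsPGU {X : Type u} (G : Subgroup (Perm X)) : Prop :=
  ∃ (F : Type u) (_ : Field F) (τ : F ≃+* F)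
    (π : {v : Fin 3 → F // v ≠ 0 ∧ herm τ v v = 0} → X),
    (∀ x, τ (τ x) = x) ∧ (∃ x, τ x ≠ x) ∧
    Function.Surjective π ∧ (∀ v w, π v = π w ↔ ∃ c : F, (w : Fin 3 → F) = c • (v : Fin 3 → F)) ∧
    ∀ g ∈ G, ∃ (σ : F ≃+* F) (A : (Fin 3 → F) ≃+ (Fin 3 → F)),
      (∀ (c : F) (v : Fin 3 → F), A (c • v) = σ c • A v) ∧
      ∀ v : {v : Fin 3 → F // v ≠ 0 ∧ herm τ v v = 0},
        ∃ w : {v : Fin 3 → F // v ≠ 0 ∧ herm τ v v = 0}, (w : Fin 3 → F) = A v ∧ g (π v) = π w

/-- The property of the groups `R(q) ≤ G ≤ Aut(R(q))`, `q` an odd power of 3, in degree `q³ + 1`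
which is used: the stabiliser of any two points contains exactly one involution, and this
involution fixes a third point. -/
def IsRee {X : Type u} (G : Subgroup (Perm X)) : Prop :=
  ∀ a b : X, a ≠ b → ∃ t ∈ G, t a = a ∧ t b = b ∧ t ≠ 1 ∧ t * t = 1 ∧
    (∃ c, c ≠ a ∧ c ≠ b ∧ t c = c) ∧
    ∀ s ∈ G, s a = a → s b = b → s ≠ 1 → s * s = 1 → s = t

end Pool.Agent.H922
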