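import Mathlib
import Pool.Agent.H922.Defs3

set_option autoImplicit false

/-!
# Groups over the field with two elements
-/

namespace Pool.Agent.H922

open Equiv

universe u

/-- `G = AGL(V)`, where `V` is a vector space over the field with two elements -/
def IsAGL2 {X : Type u} (G : Subgroup (Perm X)) : Prop :=
  ∃ (V : Type) (_ : AddCommGroup V) (_ : Module (ZMod 2) V) (e : V ≃ X),
    (∀ g ∈ G, ∃ (A : V ≃ₗ[ZMod 2] V) (b : V), ∀ v, g (e v) = e (A v + b)) ∧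
    ∀ (A : V ≃ₗ[ZMod 2] V) (b : V), ∃ g ∈ G, ∀ v, g (e v) = e (A v + b)

/-- `φ` is a nondegenerate alternating form -/
def IsSymp {V : Type*} [AddCommGroup V] [Module (ZMod 2) V]
    (φ : V →ₗ[ZMod 2] V →ₗ[ZMod 2] ZMod 2) : Prop :=
  (∀ v, φ v v = 0) ∧ ∀ v, (∀ w, φ v w = 0) → v = 0

/-- `V : Sp(V) ≤ G ≤ AGL(V)`, where `V` is a vector space with a nondegenerate alternating form
over the field with two elements -/
def IsASp {X : Type u} (G : Subgroup (Perm X)) : Prop :=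
  ∃ (V : Type) (_ : AddCommGroup V) (_ : Module (ZMod 2) V) (e : V ≃ X)
    (φ : V →ₗ[ZMod 2] V →ₗ[ZMod 2] ZMod 2), IsSymp φ ∧
    (∀ g ∈ G, ∃ (A : V ≃ₗ[ZMod 2] V) (b : V), ∀ v, g (e v) = e (A v + b)) ∧
    ∀ (A : V ≃ₗ[ZMod 2] V) (b : V), (∀ v w, φ (A v) (A w) = φ v w) →
      ∃ g ∈ G, ∀ v, g (e v) = e (A v + b)

/-- the quadratic forms with polarisation `φ` and with exactly `N` zeros -/
abbrev QForm {V : Type*} [AddCommGroup V] [Module (ZMod 2) V]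
    (φ : V →ₗ[ZMod 2] V →ₗ[ZMod 2] ZMod 2) (N : ℕ) : Type _ :=
  {Q : V → ZMod 2 // (∀ v w, Q (v + w) = Q v + Q w + φ v w) ∧ Nat.card {v // Q v = 0} = N}

/-- `G = Sp(2m, 2)`, `m ≥ 3`, in one of its two 2-transitive actions, of degrees
`2 ^ (m - 1) * (2 ^ m ± 1)`: the action on the quadratic forms `Q` with polarisation `φ` which have
`2 ^ (m - 1) * (2 ^ m + 1)` zeros, or on those which have `2 ^ (m - 1) * (2 ^ m - 1)` zeros -/
def IsSp2 {X : Type u} (G : Subgroup (Perm X)) : Prop :=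
  ∃ (m : ℕ) (V : Type) (_ : AddCommGroup V) (_ : Module (ZMod 2) V)
    (φ : V →ₗ[ZMod 2] V →ₗ[ZMod 2] ZMod 2) (N : ℕ) (e : QForm φ N ≃ X), 3 ≤ m ∧
    Nat.card V = 2 ^ (2 * m) ∧ IsSymp φ ∧
    (N = 2 ^ (m - 1) * (2 ^ m + 1) ∨ N = 2 ^ (m - 1) * (2 ^ m - 1)) ∧
    ∀ g : Perm X, g ∈ G ↔ ∃ A : V ≃ₗ[ZMod 2] V, (∀ v w, φ (A v) (A w) = φ v w) ∧
      ∀ Q Q' : QForm φ N, (∀ v, Q'.1 (A v) = Q.1 v) → g (e Q) = e Q'

end Pool.Agent.H922
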