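import Mathlib
import Pool.Agent.H922.Aff5
import Pool.Agent.H922.Defs3

set_option autoImplicit false
set_option linter.style.haveILetI false
set_option linter.unusedVariables false
set_option linter.unusedSectionVars false

/-!
# Transport along bijections, and monotonicity
-/

namespace Pool.Agent.H922

open Equiv MulAction
open scoped Pointwise

section Transport

variable {X Y : Type*}

theorem mem_conjGroup {e : X ≃ Y} {G : Subgroup (Perm X)} {g : Perm Y} :
    g ∈ conjGroup e G ↔ ∃ h ∈ G, ∀ x, g (e x) = e (h x) := by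
  constructor
  · rintro ⟨h, hh, rfl⟩
    refine ⟨h, hh, fun x => ?_⟩
    change e (h (e.symm (e x))) = _
    rw [e.symm_apply_apply]
  · rintro ⟨h, hh, hx⟩
    refine ⟨h, hh, ?_⟩
    ext1 y
    obtain ⟨x, rfl⟩ := e.surjective y
    rw [hx]
    change e (h (e.symm (e x))) = _
    rw [e.symm_apply_apply]

theorem conjGroup_symm (e : X ≃ Y) (G : Subgroup (Perm X)) :
    conjGroup e.symm (conjGroup e G) = G := by
  ext g
  rw [mem_conjGroup]
  constructor
  · rintro ⟨h, hh, hx⟩
    obtain ⟨k, hk, hk'⟩ := mem_conjGroup.mp hh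
    have : g = k := by
      ext1 x
      have h1 := hx (e x)
      rw [e.symm_apply_apply, hk', e.symm_apply_apply] at h1
      exact h1
    rw [this]; exact hk
  · intro hg
    refine ⟨e.permCongr g, mem_conjGroup.mpr ⟨g, hg, fun x => ?_⟩, fun y => ?_⟩
    · change e (g (e.symm (e x))) = _
      rw [e.symm_apply_apply]
    · change g (e.symm y) = e.symm (e (g (e.symm y)))
      rw [e.symm_apply_apply]

theorem trans_conj_aux {e : X ≃ Y} {G : Subgroup (Perm X)} {t : ℕ} (h : TTransitive G t) :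
    TTransitive (conjGroup e G) t := by
  refine ⟨by rw [← Nat.card_congr e]; exact h.1, ?_⟩
  have h2 := (multTrans_iff G t).mp h.2
  rw [multTrans_iff]
  intro a b ha hb
  obtain ⟨g, hg, hgi⟩ := h2 (fun i => e.symm (a i)) (fun i => e.symm (b i))
    (e.symm.injective.comp ha) (e.symm.injective.comp hb)
  refine ⟨e.permCongr g, ⟨g, hg, rfl⟩, fun i => ?_⟩
  change e (g (e.symm (a i))) = b i
  rw [hgi, e.apply_symm_apply]

theorem prim_conj_aux {e : X ≃ Y} {G : Subgroup (Perm X)} {t : ℕ} (h : TPrimitive G t) :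
    TPrimitive (conjGroup e G) t := by
  classical
  rw [tPrimitive_iff] at h ⊢
  intro s hs
  obtain ⟨h1, h2⟩ := h (s.map e.symm.toEmbedding) (by rw [Finset.card_map]; exact hs)
  have hmem : ∀ x, e x ∉ (s : Set Y) ↔
      x ∉ ((s.map e.symm.toEmbedding : Finset X) : Set X) := by
    intro x
    rw [Finset.mem_coe, Finset.mem_coe, Finset.mem_map_equiv, Equiv.symm_symm]
  have hmem' : ∀ z ∈ s, e.symm z ∈ ((s.map e.symm.toEmbedding : Finset X) : Set X) := by
    intro z hz
    rw [Finset.mem_coe, Finset.mem_map_equiv, Equiv.symm_symm, e.apply_symm_apply]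
    exact hz
  constructor
  · intro x hx y hy
    obtain ⟨x, rfl⟩ := e.surjective x
    obtain ⟨y, rfl⟩ := e.surjective y
    obtain ⟨g, hg, hgs, hgx⟩ := h1 x ((hmem x).mp hx) y ((hmem y).mp hy)
    refine ⟨e.permCongr g, ⟨g, hg, rfl⟩, ?_, ?_⟩
    · intro z hz
      change e (g (e.symm z)) = z
      rw [hgs _ (hmem' z hz), e.apply_symm_apply]
    · change e (g (e.symm (e x))) = e y
      rw [e.symm_apply_apply, hgx]
  · intro r r1 r2 r3 r4
    rcases h2 (fun x y => r (e x) (e y)) (fun x hx => r1 _ ((hmem x).mpr hx))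
      (fun x hx y hy => r2 _ ((hmem x).mpr hx) _ ((hmem y).mpr hy))
      (fun x hx y hy z hz => r3 _ ((hmem x).mpr hx) _ ((hmem y).mpr hy) _ ((hmem z).mpr hz))
      (fun g hg hgs x hx y hy hxy => by
        have := r4 (e.permCongr g) ⟨g, hg, rfl⟩ (fun z hz => by
          change e (g (e.symm z)) = z
          rw [hgs _ (hmem' z hz), e.apply_symm_apply]) _ ((hmem x).mpr hx) _ ((hmem y).mpr hy) hxy
        change r (e (g (e.symm (e x)))) (e (g (e.symm (e y)))) at this
        rwa [e.symm_apply_apply, e.symm_apply_apply] at this) with h3 | h3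
    · left
      intro x hx y hy hxy
      obtain ⟨x, rfl⟩ := e.surjective x
      obtain ⟨y, rfl⟩ := e.surjective y
      rw [h3 x ((hmem x).mp hx) y ((hmem y).mp hy) hxy]
    · right
      intro x hx y hy
      obtain ⟨x, rfl⟩ := e.surjective x
      obtain ⟨y, rfl⟩ := e.surjective y
      exact h3 x ((hmem x).mp hx) y ((hmem y).mp hy)

theorem map_map_conj {e : X ≃ Y} {g : Perm X} (S : Finset X) :
    (S.map e.toEmbedding).map (e.permCongr g).toEmbedding =
      (S.map g.toEmbedding).map e.toEmbedding := by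
  ext y
  obtain ⟨x, rfl⟩ := e.surjective y
  simp only [Finset.mem_map_equiv, Equiv.symm_apply_apply]
  change e.symm (e (g.symm (e.symm (e x)))) ∈ S ↔ _
  rw [e.symm_apply_apply, e.symm_apply_apply]

theorem set_conj_aux [DecidableEq X] [DecidableEq Y] {e : X ≃ Y} {G : Subgroup (Perm X)} {t : ℕ}
    (h : TSetPrimitive G t) : TSetPrimitive (conjGroup e G) t := by
  rw [tSetPrimitive_iff] at h ⊢
  obtain ⟨h1, h2⟩ := h
  have hsurj : ∀ S : Finset Y, ∃ S' : Finset X, S = S'.map e.toEmbedding := by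
    intro S
    refine ⟨S.map e.symm.toEmbedding, ?_⟩
    ext y
    simp [Finset.mem_map_equiv]
  constructor
  · intro S T hS hT
    obtain ⟨S, rfl⟩ := hsurj S
    obtain ⟨T, rfl⟩ := hsurj T
    rw [Finset.card_map] at hS hT
    obtain ⟨g, hg, hgx⟩ := h1 S T hS hT
    refine ⟨e.permCongr g, ⟨g, hg, rfl⟩, ?_⟩
    rw [map_map_conj, hgx]
  · intro r r1 r2 r3 r4
    rcases h2 (fun S T => r (S.map e.toEmbedding) (T.map e.toEmbedding))
      (fun S hS => r1 _ (by rw [Finset.card_map]; exact hS))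
      (fun S T hS hT => r2 _ _ (by rw [Finset.card_map]; exact hS)
        (by rw [Finset.card_map]; exact hT))
      (fun S T U hS hT hU => r3 _ _ _ (by rw [Finset.card_map]; exact hS)
        (by rw [Finset.card_map]; exact hT) (by rw [Finset.card_map]; exact hU))
      (fun g hg S T hS hT hST => by
        have := r4 (e.permCongr g) ⟨g, hg, rfl⟩ _ _ (by rw [Finset.card_map]; exact hS)
          (by rw [Finset.card_map]; exact hT) hST
        rwa [map_map_conj, map_map_conj] at this) with h3 | h3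
    · left
      intro S T hS hT hST
      obtain ⟨S, rfl⟩ := hsurj S
      obtain ⟨T, rfl⟩ := hsurj T
      rw [Finset.card_map] at hS hT
      rw [h3 S T hS hT hST]
    · right
      intro S T hS hT
      obtain ⟨S, rfl⟩ := hsurj S
      obtain ⟨T, rfl⟩ := hsurj T
      rw [Finset.card_map] at hS hT
      exact h3 S T hS hT

theorem steiner_conj_aux {e : X ≃ Y} {G : Subgroup (Perm X)} {t : ℕ}
    (h : TSteinerPrimitive (conjGroup e G) t) : TSteinerPrimitive G t := by
  rintro ⟨k, 𝓑, h1, h2, ⟨h3, h4⟩, h5⟩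
  apply h
  refine ⟨k, {B | ∃ C ∈ 𝓑, B = C.map e.toEmbedding}, h1, by rw [← Nat.card_congr e]; exact h2,
    ⟨?_, ?_⟩, ?_⟩
  · rintro _ ⟨C, hC, rfl⟩
    rw [Finset.card_map]
    exact h3 C hC
  · intro T hT
    obtain ⟨B, ⟨hB, hTB⟩, huniq⟩ := h4 (T.map e.symm.toEmbedding) (by
      rw [Finset.card_map]; exact hT)
    refine ⟨B.map e.toEmbedding, ⟨⟨B, hB, rfl⟩, ?_⟩, ?_⟩
    · intro y hy
      rw [Finset.mem_map_equiv]
      apply hTB
      rw [Finset.mem_map_equiv, Equiv.symm_symm, e.apply_symm_apply]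
      exact hy
    · rintro _ ⟨⟨C, hC, rfl⟩, hTC⟩
      rw [huniq C ⟨hC, ?_⟩]
      intro x hx
      rw [Finset.mem_map_equiv, Equiv.symm_symm] at hx
      have := hTC hx
      rwa [Finset.mem_map_equiv, e.symm_apply_apply] at this
  · rintro _ ⟨g, hg, rfl⟩ _ ⟨C, hC, rfl⟩
    refine ⟨C.map g.toEmbedding, h5 g hg C hC, ?_⟩
    exact map_map_conj C

variable {e : X ≃ Y} {G : Subgroup (Perm X)} {t : ℕ}

theorem trans_conj : TTransitive (conjGroup e G) t ↔ TTransitive G t :=
  ⟨fun h => by rw [← conjGroup_symm e G]; exact trans_conj_aux h, trans_conj_aux⟩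

theorem prim_conj : TPrimitive (conjGroup e G) t ↔ TPrimitive G t :=
  ⟨fun h => by rw [← conjGroup_symm e G]; exact prim_conj_aux h, prim_conj_aux⟩

theorem set_conj [DecidableEq X] [DecidableEq Y] :
    TSetPrimitive (conjGroup e G) t ↔ TSetPrimitive G t :=
  ⟨fun h => by rw [← conjGroup_symm e G]; exact set_conj_aux h, set_conj_aux⟩

theorem steiner_conj : TSteinerPrimitive (conjGroup e G) t ↔ TSteinerPrimitive G t :=
  ⟨steiner_conj_aux, fun h => by
    rw [← conjGroup_symm e G] at h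
    exact steiner_conj_aux h⟩

end Transport

section Mono

variable {X : Type*} {G H : Subgroup (Perm X)} {t : ℕ}

theorem TTransitive.mono (h : TTransitive H t) (hHG : H ≤ G) : TTransitive G t := by
  refine ⟨h.1, ?_⟩
  have h2 := (multTrans_iff H t).mp h.2
  rw [multTrans_iff]
  intro a b ha hb
  obtain ⟨g, hg, hgi⟩ := h2 a b ha hb
  exact ⟨g, hHG hg, hgi⟩

theorem TPrimitive.mono (h : TPrimitive H t) (hHG : H ≤ G) : TPrimitive G t := by
  rw [tPrimitive_iff] at h ⊢
  intro s hs
  obtain ⟨h1, h2⟩ := h s hs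
  refine ⟨fun x hx y hy => ?_, fun r r1 r2 r3 r4 => h2 r r1 r2 r3 fun g hg => r4 g (hHG hg)⟩
  obtain ⟨g, hg, h3⟩ := h1 x hx y hy
  exact ⟨g, hHG hg, h3⟩

theorem TSetPrimitive.mono [DecidableEq X] (h : TSetPrimitive H t) (hHG : H ≤ G) :
    TSetPrimitive G t := by
  rw [tSetPrimitive_iff] at h ⊢
  obtain ⟨h1, h2⟩ := h
  refine ⟨fun S T hS hT => ?_, fun r r1 r2 r3 r4 => h2 r r1 r2 r3 fun g hg => r4 g (hHG hg)⟩
  obtain ⟨g, hg, h3⟩ := h1 S T hS hT
  exact ⟨g, hHG hg, h3⟩

end Mono

end Pool.Agent.H922
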