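import Mathlib
import Pool.Agent.H922.CDefs
import Pool.Agent.H922.Defs8
import Pool.Agent.H922.Defs9
import Pool.Agent.H922.Transp

set_option autoImplicit false
set_option linter.style.haveILetI false
set_option linter.unusedVariables false
set_option linter.unusedSectionVars false

/-!
# From matrices to semilinear maps
-/

namespace Pool.Agent.H922.C

open Equiv MulAction Matrix

universe u

section Semi

variable {F : Type*} [Field F] {n : ℕ}

/-- the additive map `v ↦ M (σ v)` -/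
def semiHom (M : Matrix (Fin n) (Fin n) F) (σ : F ≃+* F) : (Fin n → F) →+ (Fin n → F) where
  toFun v := M *ᵥ (fun i => σ (v i))
  map_zero' := by
    have : (fun i : Fin n => σ ((0 : Fin n → F) i)) = 0 := by ext i; simp
    rw [this, mulVec_zero]
  map_add' v w := by
    have : (fun i : Fin n => σ ((v + w) i)) = (fun i => σ (v i)) + fun i => σ (w i) := by
      ext i; simp
    rw [this, mulVec_add]

theorem semiHom_apply (M : Matrix (Fin n) (Fin n) F) (σ : F ≃+* F) (v : Fin n → F) :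
    semiHom M σ v = M *ᵥ (fun i => σ (v i)) := rfl

theorem semiHom_smul (M : Matrix (Fin n) (Fin n) F) (σ : F ≃+* F) (c : F) (v : Fin n → F) :
    semiHom M σ (c • v) = σ c • semiHom M σ v := by
  rw [semiHom_apply, semiHom_apply, ← mulVec_smul]
  congr 1
  ext i
  simp

theorem semiHom_bij {M : Matrix (Fin n) (Fin n) F} (hM : M.det ≠ 0) (σ : F ≃+* F) :
    Function.Bijective (semiHom M σ) := by
  have hu : IsUnit M := (isUnit_iff_isUnit_det M).mpr (isUnit_iff_ne_zero.mpr hM)
  constructor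
  · intro v w h
    have h1 := mulVec_injective_iff_isUnit.mpr hu h
    ext i
    exact σ.injective (congrFun h1 i)
  · intro w
    obtain ⟨v, hv⟩ := mulVec_surjective_iff_isUnit.mpr hu w
    refine ⟨fun i => σ.symm (v i), ?_⟩
    rw [semiHom_apply]
    simpa using hv

/-- the semilinear bijection `v ↦ M (σ v)` -/
noncomputable def semiEquiv {M : Matrix (Fin n) (Fin n) F} (hM : M.det ≠ 0) (σ : F ≃+* F) :
    (Fin n → F) ≃+ (Fin n → F) := AddEquiv.ofBijective (semiHom M σ) (semiHom_bij hM σ)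

theorem semiEquiv_apply {M : Matrix (Fin n) (Fin n) F} (hM : M.det ≠ 0) (σ : F ≃+* F)
    (v : Fin n → F) : semiEquiv hM σ v = M *ᵥ (fun i => σ (v i)) := rfl

theorem semiEquiv_smul {M : Matrix (Fin n) (Fin n) F} (hM : M.det ≠ 0) (σ : F ≃+* F) (c : F)
    (v : Fin n → F) : semiEquiv hM σ (c • v) = σ c • semiEquiv hM σ v := semiHom_smul M σ c v

end Semi

section Pts

variable {F X : Type*} [Field F] {n : ℕ} {P : X → Fin n → F} {Z : (Fin n → F) → Prop}

/-- the point with coordinate vector `v` -/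
noncomputable def pt (hP : Points P Z) (v : Fin n → F) (hv : v ≠ 0) (hZ : Z v) : X :=
  (hP.2 v hv hZ).choose

theorem pt_spec (hP : Points P Z) {v : Fin n → F} (hv : v ≠ 0) (hZ : Z v) :
    ∃ c : F, v = c • P (pt hP v hv hZ) := (hP.2 v hv hZ).choose_spec.1

theorem pt_eq (hP : Points P Z) {v : Fin n → F} (hv : v ≠ 0) (hZ : Z v) {x : X}
    (h : ∃ c : F, v = c • P x) : pt hP v hv hZ = x :=
  ((hP.2 v hv hZ).choose_spec.2 x h).symm

theorem pt_P (hP : Points P Z) (x : X) : pt hP (P x) (hP.1 x).1 (hP.1 x).2 = x :=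
  pt_eq hP _ _ ⟨1, by rw [one_smul]⟩

theorem pt_iff (hP : Points P Z) {v w : Fin n → F} (hv : v ≠ 0) (hZv : Z v) (hw : w ≠ 0)
    (hZw : Z w) : pt hP v hv hZv = pt hP w hw hZw ↔ ∃ c : F, w = c • v := by
  obtain ⟨a, ha⟩ := pt_spec hP hv hZv
  constructor
  · intro h
    obtain ⟨b, hb⟩ := pt_spec hP hw hZw
    rw [← h] at hb
    have ha0 : a ≠ 0 := by
      rintro rfl
      rw [zero_smul] at ha
      exact hv ha
    refine ⟨b * a⁻¹, ?_⟩
    have h2 : P (pt hP v hv hZv) = a⁻¹ • v := by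
      conv_rhs => rw [ha]
      rw [smul_smul, inv_mul_cancel₀ ha0, one_smul]
    rw [hb, h2, smul_smul]
  · rintro ⟨c, rfl⟩
    exact (pt_eq hP hw hZw ⟨c * a, by rw [mul_smul, ← ha]⟩).symm

/-- the image of a point under an induced permutation -/
theorem induced_pt {M : Matrix (Fin n) (Fin n) F} {σ : F ≃+* F} {g : Perm X}
    (hP : Points P Z) (h : Induced P M σ g) {v : Fin n → F} (hv : v ≠ 0) (hZ : Z v) :
    ∃ c : F, c ≠ 0 ∧ M *ᵥ (fun i => σ (v i)) = c • P (g (pt hP v hv hZ)) := by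
  obtain ⟨a, ha⟩ := pt_spec hP hv hZ
  obtain ⟨c, hc⟩ := h.2 (pt hP v hv hZ)
  have h1 : M *ᵥ (fun i => σ (v i)) = (σ a * c) • P (g (pt hP v hv hZ)) := by
    have h2 := semiHom_smul M σ a (P (pt hP v hv hZ))
    rw [← ha] at h2
    rw [semiHom_apply, semiHom_apply, hc, smul_smul] at h2
    exact h2
  refine ⟨σ a * c, ?_, h1⟩
  intro h0
  rw [h0, zero_smul] at h1
  have h2 : semiHom M σ v = 0 := h1
  exact hv ((map_eq_zero_iff _ (semiHom_bij h.1 σ).1).mp h2)

end Pts

section Bridge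

variable {X : Type u} {G : Subgroup (Perm X)}

theorem InPGL.isPGL {n q : ℕ} (hn : 3 ≤ n) (h : InPGL G n q) : H922.IsPGL G := by
  obtain ⟨F, iF, P, hq, hP, hG⟩ := h
  refine ⟨F, Fin n → F, iF, inferInstance, inferInstance,
    fun v => pt hP (v : Fin n → F) v.2 trivial, ?_, ?_, ?_, ?_⟩
  · rw [Module.finrank_fin_fun]; exact hn
  · intro x
    exact ⟨⟨P x, (hP.1 x).1⟩, pt_P hP x⟩
  · intro v w
    exact pt_iff hP v.2 trivial w.2 trivial
  · intro g hg
    obtain ⟨M, σ, hM⟩ := hG g hg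
    refine ⟨σ, semiEquiv hM.1 σ, fun c v => semiEquiv_smul hM.1 σ c v, fun v => ?_⟩
    have hne : semiEquiv hM.1 σ (v : Fin n → F) ≠ 0 := by
      rw [Ne, EmbeddingLike.map_eq_zero_iff]
      exact v.2
    refine ⟨⟨_, hne⟩, rfl, ?_⟩
    obtain ⟨c, hc, h1⟩ := induced_pt hP hM v.2 trivial
    exact (pt_eq hP hne trivial ⟨c, h1⟩).symm

theorem InPGU.isPGU (h : InPGU G) : H922.IsPGU G := by
  obtain ⟨F, iF, τ, P, h1, h2, hP, hG⟩ := h
  refine ⟨F, iF, τ, fun v => pt hP (v : Fin 3 → F) v.2.1 v.2.2, h1, h2, ?_, ?_, ?_⟩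
  · intro x
    exact ⟨⟨P x, (hP.1 x)⟩, pt_P hP x⟩
  · intro v w
    exact pt_iff hP v.2.1 v.2.2 w.2.1 w.2.2
  · intro g hg
    obtain ⟨M, σ, hM⟩ := hG g hg
    refine ⟨σ, semiEquiv hM.1 σ, fun c v => semiEquiv_smul hM.1 σ c v, fun v => ?_⟩
    have hne : semiEquiv hM.1 σ (v : Fin 3 → F) ≠ 0 := by
      rw [Ne, EmbeddingLike.map_eq_zero_iff]
      exact v.2.1
    obtain ⟨c, hc, h3⟩ := induced_pt hP hM v.2.1 v.2.2
    have hZ : herm τ (semiEquiv hM.1 σ (v : Fin 3 → F)) (semiEquiv hM.1 σ (v : Fin 3 → F)) = 0 := by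
      rw [semiEquiv_apply, h3]
      have h4 := (hP.1 (g (pt hP (v : Fin 3 → F) v.2.1 v.2.2))).2
      unfold herm
      simp only [Pi.smul_apply, smul_eq_mul, map_mul]
      linear_combination (c * τ c) * h4
    exact ⟨⟨_, hne, hZ⟩, rfl, (pt_eq hP hne hZ ⟨c, h3⟩).symm⟩

theorem InAGL.isAGL {n q : ℕ} (hn : 2 ≤ n) (hq2 : 2 < q) (h : InAGL G n q) : H922.IsAGL G := by
  obtain ⟨F, iF, e, hq, hG⟩ := h
  refine ⟨F, Fin n → F, iF, inferInstance, inferInstance, e.symm, ?_, ?_, ?_⟩
  · rw [hq]; exact hq2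
  · rw [Module.finrank_fin_fun]; exact hn
  · intro g hg
    obtain ⟨M, σ, b, hM⟩ := hG g hg
    have hbij : Function.Bijective (semiHom M σ) := by
      constructor
      · intro v w hvw
        have h1 := hM (e.symm v)
        have h2 := hM (e.symm w)
        rw [e.apply_symm_apply] at h1 h2
        rw [semiHom_apply, semiHom_apply] at hvw
        rw [hvw, ← h2] at h1
        exact e.symm.injective (g.injective (e.injective h1))
      · intro w
        have h1 := hM (g.symm (e.symm (w + b)))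
        rw [g.apply_symm_apply, e.apply_symm_apply] at h1
        exact ⟨_, (add_right_cancel h1).symm⟩
    refine ⟨σ, AddEquiv.ofBijective (semiHom M σ) hbij, b, fun c v => semiHom_smul M σ c v, ?_⟩
    intro v
    rw [← e.symm_apply_apply (g (e.symm v)), hM, e.apply_symm_apply]
    rfl

theorem IsAL.between {q : ℕ} (h : IsAL G q) :
    ∃ (F : Type u) (_ : Field F) (e : F ≃ X), Nat.card F = q ∧ Between G F e := by
  obtain ⟨F, iF, e, hq, h1, h2⟩ := h
  refine ⟨F, iF, e.symm, hq, ?_, ?_⟩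
  · intro a b ha
    let k : Perm F := {
      toFun := fun x => a * x + b
      invFun := fun x => a⁻¹ * (x - b)
      left_inv := fun x => by field_simp; ring
      right_inv := fun x => by field_simp; ring }
    refine ⟨(e.trans k).trans e.symm, h1 a b _ fun x => ?_, fun x => ?_⟩
    · simp [k]
    · simp [k]
  · intro g hg
    obtain ⟨a, b, σ, hg'⟩ := h2 g hg
    refine ⟨a, b, σ, ?_, fun x => ?_⟩
    · rintro rfl
      have h3 := hg' (e.symm 0)
      have h4 := hg' (e.symm 1)
      rw [zero_mul] at h3 h4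
      rw [← h3] at h4
      have := e.symm.injective (g.injective (e.injective h4))
      exact one_ne_zero this
    · rw [← e.symm_apply_apply (g (e.symm x)), hg', e.apply_symm_apply]

theorem isAL_of_between {q : ℕ} {F : Type u} [Field F] {e : F ≃ X} (hq : Nat.card F = q)
    (h : Between G F e) : IsAL G q := by
  refine ⟨F, inferInstance, e.symm, hq, ?_, ?_⟩
  · intro a b g hg
    have ha : a ≠ 0 := by
      rintro rfl
      have h3 := hg (e 0)
      have h4 := hg (e 1)
      rw [zero_mul] at h3 h4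
      rw [← h3] at h4
      have := e.injective (g.injective (e.symm.injective h4))
      exact one_ne_zero this
    obtain ⟨g', hg', h1⟩ := h.1 a b ha
    have : g = g' := by
      ext1 x
      obtain ⟨y, rfl⟩ := e.surjective x
      rw [h1, ← e.apply_symm_apply (g (e y)), hg, e.symm_apply_apply]
    rw [this]
    exact hg'
  · intro g hg
    obtain ⟨a, b, σ, ha, h1⟩ := h.2 g hg
    refine ⟨a, b, σ, fun x => ?_⟩
    obtain ⟨y, rfl⟩ := e.surjective x
    rw [h1, e.symm_apply_apply, e.symm_apply_apply]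

end Bridge

end Pool.Agent.H922.C
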