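import Mathlib
import Pool.Agent.H922.Defs3

set_option autoImplicit false

/-!
# The Suzuki groups
-/

namespace Pool.Agent.H922

open Equiv

universe u

/-- the function `a b + a^(θ+2) + b^θ` -/
def suzN {F : Type*} [Field F] (θ : F ≃+* F) (a b : F) : F := a * b + θ a * a ^ 2 + θ b

/-- The Tits ovoid in the projective space of dimension 3: homogeneous coordinates of its
`q² + 1` points. The points are the point `none` and the points `some (a, b)`. -/
def ovoid {F : Type*} [Field F] (θ : F ≃+* F) : Option (F × F) → Fin 4 → F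
  | none => ![1, 0, 0, 0]
  | some (a, b) => ![suzN θ a b, b, a, 1]

theorem ovoid_ne_zero {F : Type*} [Field F] (θ : F ≃+* F) (x : Option (F × F)) :
    ovoid θ x ≠ 0 := by
  rcases x with _ | ⟨a, b⟩
  · intro h
    have := congrFun h 0
    simp [ovoid] at this
  · intro h
    have := congrFun h 3
    simp [ovoid] at this

/-- All permutations of the Tits ovoid which are induced by semilinear bijections of `F⁴`. For
`θ` with `θ(θ x) = x²` this is the automorphism group of `Sz(q)`. -/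
def ASuz {F : Type*} [Field F] (θ : F ≃+* F) : Subgroup (Perm (Option (F × F))) where
  carrier := {g | ∃ (σ : F ≃+* F) (A : (Fin 4 → F) ≃+ (Fin 4 → F)),
    (∀ (c : F) (v : Fin 4 → F), A (c • v) = σ c • A v) ∧
    ∀ x, ∃ c : F, A (ovoid θ x) = c • ovoid θ (g x)}
  one_mem' := ⟨RingEquiv.refl F, AddEquiv.refl _, fun c v => rfl, fun x => ⟨1, by
    rw [one_smul]; rfl⟩⟩
  mul_mem' := by
    rintro g h ⟨σ, A, hA, hgA⟩ ⟨τ, B, hB, hhB⟩
    refine ⟨τ.trans σ, B.trans A, fun c v => ?_, fun x => ?_⟩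
    · change A (B (c • v)) = σ (τ c) • A (B v)
      rw [hB, hA]
    · obtain ⟨c, hc⟩ := hhB x
      obtain ⟨d, hd⟩ := hgA (h x)
      refine ⟨σ c * d, ?_⟩
      change A (B (ovoid θ x)) = _
      rw [hc, hA, hd, smul_smul]
      rfl
  inv_mem' := by
    rintro g ⟨σ, A, hA, hgA⟩
    refine ⟨σ.symm, A.symm, fun c v => ?_, fun x => ?_⟩
    · rw [AddEquiv.symm_apply_eq, hA, σ.apply_symm_apply, A.apply_symm_apply]
    · obtain ⟨y, rfl⟩ := g.surjective x
      obtain ⟨c, hc⟩ := hgA y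
      have hc0 : c ≠ 0 := by
        rintro rfl
        rw [zero_smul] at hc
        exact ovoid_ne_zero θ y ((map_eq_zero_iff A A.injective).mp hc)
      refine ⟨σ.symm c⁻¹, ?_⟩
      have e1 : g⁻¹ (g y) = y := by simp
      rw [e1, AddEquiv.symm_apply_eq, hA, σ.apply_symm_apply, hc, smul_smul,
        inv_mul_cancel₀ hc0, one_smul]

/-- All permutations of the Tits ovoid which are induced by linear bijections of `F⁴`. For
`θ` with `θ(θ x) = x²` this is `Sz(q)`. -/
def Suz {F : Type*} [Field F] (θ : F ≃+* F) : Subgroup (Perm (Option (F × F))) where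
  carrier := {g | ∃ (A : (Fin 4 → F) ≃ₗ[F] (Fin 4 → F)),
    ∀ x, ∃ c : F, A (ovoid θ x) = c • ovoid θ (g x)}
  one_mem' := ⟨LinearEquiv.refl F _, fun x => ⟨1, by rw [one_smul]; rfl⟩⟩
  mul_mem' := by
    rintro g h ⟨A, hgA⟩ ⟨B, hhB⟩
    refine ⟨B.trans A, fun x => ?_⟩
    obtain ⟨c, hc⟩ := hhB x
    obtain ⟨d, hd⟩ := hgA (h x)
    refine ⟨c * d, ?_⟩
    change A (B (ovoid θ x)) = _
    rw [hc, map_smul, hd, smul_smul]
    rfl
  inv_mem' := by
    rintro g ⟨A, hgA⟩
    refine ⟨A.symm, fun x => ?_⟩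
    obtain ⟨y, rfl⟩ := g.surjective x
    obtain ⟨c, hc⟩ := hgA y
    have hc0 : c ≠ 0 := by
      rintro rfl
      rw [zero_smul] at hc
      exact ovoid_ne_zero θ y ((map_eq_zero_iff A A.injective).mp hc)
    refine ⟨c⁻¹, ?_⟩
    have e1 : g⁻¹ (g y) = y := by simp
    rw [e1, LinearEquiv.symm_apply_eq, map_smul, hc, smul_smul, inv_mul_cancel₀ hc0, one_smul]

/-- `Sz(q) ≤ G ≤ Aut(Sz(q))`, `q > 2`, acting on the `q² + 1` points of the Tits ovoid -/
def IsSz {X : Type u} (G : Subgroup (Perm X)) : Prop :=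
  ∃ (F : Type u) (_ : Field F) (θ : F ≃+* F) (e : Option (F × F) ≃ X),
    (∀ x, θ (θ x) = x ^ 2) ∧ 2 < Nat.card F ∧ conjGroup e (Suz θ) ≤ G ∧
    G ≤ conjGroup e (ASuz θ)

end Pool.Agent.H922
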