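import Mathlib
import Pool.Agent.H922.Defs2
import Pool.Agent.H922.Defs3
import Pool.Agent.H922.Gens

set_option autoImplicit false

/-!
# Explicit 2-transitive groups
-/

namespace Pool.Agent.H922

open Equiv

/-- `PSL(2, 11)` in degree 11 -/
def IsL11 {X : Type*} (G : Subgroup (Perm X)) : Prop := GenBetween G 11 laL laL

/-- the Higman-Sims group in degree 176 -/
def IsHS {X : Type*} (G : Subgroup (Perm X)) : Prop := GenBetween G 176 hsL hsL

/-- the Conway group `Co₃` in degree 276 -/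
def IsCo3 {X : Type*} (G : Subgroup (Perm X)) : Prop := GenBetween G 276 coL coL

/-- affine groups of degree 16 containing `2⁴ : A₆` (that is, `2⁴ : A₆`, `2⁴ : S₆`, `2⁴ : A₇` and
`AGL(4, 2)`) -/
def Is16A6 {X : Type*} (G : Subgroup (Perm X)) : Prop :=
  HasSol G ∧ ∃ e : Fin 16 ≃ X, conjGroup e (genGroup 16 asL) ≤ G

/-- affine groups of degree 64 containing `2⁶ : G₂(2)'` -/
def Is64G2 {X : Type*} (G : Subgroup (Perm X)) : Prop :=
  HasSol G ∧ ∃ e : Fin 64 ≃ X, conjGroup e (genGroup 64 gtL) ≤ G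

end Pool.Agent.H922
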