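import Mathlib
import Pool.Agent.H922.Defs2
import Pool.Agent.H922.Defs4

set_option autoImplicit false

/-!
# The lists for `t ≥ 3`
-/

namespace Pool.Agent.H922

open Equiv MulAction

universe u

variable {X : Type u} [Fintype X] [DecidableEq X]

/-- The list of 3-transitive groups: groups containing the alternating group, groups with a
nontrivial soluble normal subgroup, subgroups of `PΓL(2, q)` in degree `q + 1`, and the Mathieu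
groups `M_11` (degrees 11 and 12), `M_12`, `M_22`, `Aut(M_22)`, `M_23`, `M_24`. -/
def OnList3 (G : Subgroup (Perm X)) : Prop :=
  alternatingGroup X ≤ G ∨ HasSol G ∨ (∃ q, 0 < q ∧ IsPL G q) ∨
    IsM11 G ∨ IsM11x G ∨ IsM12 G ∨ IsM22 G ∨ IsM23 G ∨ IsM24 G

/-- the exceptions of type (a), `t ≥ 3` -/
def ListA3 (G : Subgroup (Perm X)) (t : ℕ) : Prop :=
  (t = 3 ∧ ∃ r, 3 ≤ r ∧ (2 ^ r - 1).Prime ∧ IsPL G (2 ^ r)) ∨ (t = 3 ∧ IsM11x G) ∨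
    (t = 4 ∧ IsM24 G) ∨ (Nat.card X = 2 * t ∧ alternatingGroup X ≤ G)

/-- the exceptions of type (c), `t ≥ 3` -/
def ListC3 (G : Subgroup (Perm X)) (t : ℕ) : Prop :=
  t = 3 ∧ ((∃ p, p.Prime ∧ 5 ≤ p ∧ IsPL G p) ∨
    ∃ r, r.Prime ∧ ¬ (2 ^ r - 1).Prime ∧ IsPL G (2 ^ r))

/-- the exceptions of type (d), `t ≥ 3` -/
def ListD3 (G : Subgroup (Perm X)) (t : ℕ) : Prop :=
  (t = 3 ∧ ((∃ p, p.Prime ∧ 5 ≤ p ∧ IsPL G p) ∨ ∃ r, r.Prime ∧ 3 ≤ r ∧ IsPL G (2 ^ r))) ∨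
    (t = 3 ∧ IsM11x G) ∨ (t = 4 ∧ IsM24 G) ∨ (Nat.card X = 2 * t ∧ alternatingGroup X ≤ G)

end Pool.Agent.H922
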