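import Mathlib
import Pool.Agent.H922.Defs4

set_option autoImplicit false

/-!
# The groups `PSL(2, F)` and `PΣL(2, F)` on the projective line
-/

namespace Pool.Agent.H922

open Equiv MulAction Matrix
open scoped OnePoint

variable (F : Type*) [Field F] [DecidableEq F]

/-- The group `PΣL(2, F)`: all permutations `x ↦ (a σ(x) + b) / (c σ(x) + d)` of the projective
line `F ∪ {∞}`, where `ad - bc` is a nonzero square and `σ` is an automorphism of `F`. -/
def PSigmaL : Subgroup (Perm (OnePoint F)) where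
  carrier := {g | ∃ (A : GL (Fin 2) F) (σ : F ≃+* F), IsSquare (A.det : F) ∧
    ∀ x, g x = A • OnePoint.map σ x}
  one_mem' := ⟨1, RingEquiv.refl F, by rw [map_one]; exact IsSquare.one, fun x => by
    rw [one_smul]
    cases x <;> rfl⟩
  mul_mem' := by
    rintro g h ⟨A, σ, hAs, hA⟩ ⟨B, τ, hBs, hB⟩
    refine ⟨A * B.map (σ : F →+* F), τ.trans σ, ?_, fun x => ?_⟩
    · rw [map_mul, Units.val_mul]
      refine hAs.mul ?_
      have : ((B.map (σ : F →+* F)).det : F) = σ (B.det : F) := by
        simp only [GeneralLinearGroup.val_det_apply]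
        exact ((σ : F →+* F).map_det (B : Matrix (Fin 2) (Fin 2) F)).symm
      rw [this]
      exact hBs.map σ
    · rw [Perm.mul_apply, hB, hA, mul_smul]
      congr 1
      have := OnePoint.map_smul (σ : F →+* F) B (OnePoint.map τ x)
      have e1 : ∀ y : OnePoint F, OnePoint.map (σ : F →+* F) y = OnePoint.map σ y := fun y => rfl
      rw [e1] at this
      rw [this]
      congr 1
      cases x <;> rfl
  inv_mem' := by
    rintro g ⟨A, σ, hAs, hA⟩
    refine ⟨(A⁻¹).map (σ.symm : F →+* F), σ.symm, ?_, fun x => ?_⟩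
    · have : (((A⁻¹).map (σ.symm : F →+* F)).det : F) = σ.symm ((A⁻¹).det : F) := by
        simp only [GeneralLinearGroup.val_det_apply]
        exact ((σ.symm : F →+* F).map_det ((A⁻¹ : GL (Fin 2) F) : Matrix (Fin 2) (Fin 2) F)).symm
      rw [this, map_inv, Units.val_inv_eq_inv_val]
      exact (hAs.inv).map σ.symm
    · have h1 := OnePoint.map_smul (σ.symm : F →+* F) A⁻¹ x
      have e1 : ∀ y : OnePoint F, OnePoint.map (σ.symm : F →+* F) y = OnePoint.map σ.symm y :=
        fun y => rfl
      rw [e1, e1] at h1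
      rw [← h1, Perm.inv_eq_iff_eq, hA]
      have h2 : OnePoint.map σ (OnePoint.map σ.symm (A⁻¹ • x)) = A⁻¹ • x := by
        generalize A⁻¹ • x = y
        cases y
        · rfl
        · simp
      rw [h2, smul_inv_smul]

/-- The group `PSL(2, F)`: all permutations `x ↦ (a x + b) / (c x + d)` of the projective line
with `ad - bc = 1`. -/
def PSL2 : Subgroup (Perm (OnePoint F)) where
  carrier := {g | ∃ A : GL (Fin 2) F, (A.det : F) = 1 ∧ ∀ x, g x = A • x}
  one_mem' := ⟨1, by simp, fun x => by rw [one_smul]; rfl⟩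
  mul_mem' := by
    rintro g h ⟨A, hA1, hA⟩ ⟨B, hB1, hB⟩
    refine ⟨A * B, by rw [map_mul, Units.val_mul, hA1, hB1, one_mul], fun x => ?_⟩
    rw [Perm.mul_apply, hB, hA, mul_smul]
  inv_mem' := by
    rintro g ⟨A, hA1, hA⟩
    refine ⟨A⁻¹, by rw [map_inv, Units.val_inv_eq_inv_val, hA1, inv_one], fun x => ?_⟩
    rw [Perm.inv_eq_iff_eq, hA, smul_inv_smul]

end Pool.Agent.H922
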