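import Mathlib
import Pool.Agent.H922.Defs6

set_option autoImplicit false

/-!
# Groups between `PSL(2, q)` and `PΓL(2, q)`
-/

namespace Pool.Agent.H922

open Equiv MulAction
open scoped OnePoint

universe u

/-- Up to a bijection of `X` with the projective line over a field `F` with `q` elements,
`PSL(2, q) ≤ G ≤ PΓL(2, q)`. -/
def IsPSL2 {X : Type u} (G : Subgroup (Perm X)) (q : ℕ) : Prop :=
  ∃ (F : Type u) (_ : Field F) (_ : DecidableEq F) (e : OnePoint F ≃ X),
    Nat.card F = q ∧ conjGroup e (PSL2 F) ≤ G ∧ G ≤ conjGroup e (PGammaL F)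

/-- Up to a bijection of `X` with the projective line over a field `F` with `q` elements,
`PSL(2, q) ≤ G ≤ PΣL(2, q)`. -/
def IsPSigma2 {X : Type u} (G : Subgroup (Perm X)) (q : ℕ) : Prop :=
  ∃ (F : Type u) (_ : Field F) (_ : DecidableEq F) (e : OnePoint F ≃ X),
    Nat.card F = q ∧ conjGroup e (PSL2 F) ≤ G ∧ G ≤ conjGroup e (PSigmaL F)

/-- the exceptional groups with socle `PSL(2, q)` for `t = 2`: `q = 3, 5`, or `q = 7, 9, 11` and
`G ≤ PΣL(2, q)` -/
def ListPSL2 {X : Type u} (G : Subgroup (Perm X)) : Prop :=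
  IsPSL2 G 3 ∨ IsPSL2 G 5 ∨ IsPSigma2 G 7 ∨ IsPSigma2 G 9 ∨ IsPSigma2 G 11

end Pool.Agent.H922
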