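import Mathlib
import Pool.Agent.H922.Br1
import Pool.Agent.H922.Defs5
import Pool.Agent.H922.Defs7
import Pool.Agent.H922.Defs10
import Pool.Agent.H922.Defs11

set_option autoImplicit false
set_option linter.style.haveILetI false
set_option linter.unusedVariables false
set_option linter.unusedSectionVars false

/-!
# The projective line, generators
-/

namespace Pool.Agent.H922.C

open Equiv MulAction Matrix
open scoped OnePoint

universe u

section Line

variable {F : Type*} [Field F] [DecidableEq F]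

/-- coordinate vectors of the points of the projective line -/
def vecL : OnePoint F → Fin 2 → F
  | none => ![1, 0]
  | some a => ![a, 1]

theorem vecL_infty : vecL (∞ : OnePoint F) = ![1, 0] := rfl

theorem vecL_coe (a : F) : vecL (a : OnePoint F) = ![a, 1] := rfl

theorem vecL_ne (x : OnePoint F) : vecL x ≠ 0 := by
  cases x with
  | infty => intro h; simpa [vecL_infty] using congrFun h 0
  | coe a => intro h; simpa [vecL_coe] using congrFun h 1

theorem vecL_inj {x y : OnePoint F} {c : F} (h : vecL x = c • vecL y) : x = y := by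
  cases x with
  | infty =>
    cases y with
    | infty => rfl
    | coe b =>
      exfalso
      have h0 := congrFun h 0
      have h1 := congrFun h 1
      simp only [vecL_infty, vecL_coe, Pi.smul_apply, smul_eq_mul, cons_val_zero, cons_val_one,
        mul_one] at h0 h1
      rw [← h1, zero_mul] at h0
      exact one_ne_zero h0
  | coe a =>
    cases y with
    | infty =>
      exfalso
      have h1 := congrFun h 1
      simp [vecL_infty, vecL_coe] at h1
    | coe b =>
      have h0 := congrFun h 0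
      have h1 := congrFun h 1
      simp only [vecL_coe, Pi.smul_apply, smul_eq_mul, cons_val_zero, cons_val_one,
        mul_one] at h0 h1
      rw [← h1, one_mul] at h0
      rw [h0]

theorem vecL_surj {v : Fin 2 → F} (hv : v ≠ 0) : ∃ (x : OnePoint F) (c : F), v = c • vecL x := by
  by_cases h : v 1 = 0
  · refine ⟨∞, v 0, ?_⟩
    ext i
    fin_cases i
    · simp [vecL_infty]
    · simpa [vecL_infty] using h
  · refine ⟨((v 0 / v 1 : F) : OnePoint F), v 1, ?_⟩
    ext i
    fin_cases i
    · simp only [vecL_coe, Pi.smul_apply, smul_eq_mul, Fin.zero_eta, cons_val_zero]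
      field_simp
    · simp [vecL_coe]

theorem vecL_map (σ : F ≃+* F) (x : OnePoint F) :
    (fun i => σ (vecL x i)) = vecL (OnePoint.map σ x) := by
  cases x with
  | infty =>
    rw [OnePoint.map_infty, vecL_infty]
    ext i
    fin_cases i <;> simp
  | coe a =>
    rw [OnePoint.map_some, vecL_coe, vecL_coe]
    ext i
    fin_cases i <;> simp

theorem vecL_smul (A : GL (Fin 2) F) (x : OnePoint F) :
    ∃ c : F, c ≠ 0 ∧ (A : Matrix (Fin 2) (Fin 2) F) *ᵥ vecL x = c • vecL (A • x) := by
  have hdet := A.det_ne_zero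
  rw [det_fin_two] at hdet
  cases x with
  | infty =>
    rw [OnePoint.smul_infty_eq_ite]
    split_ifs with h
    · refine ⟨A 0 0, ?_, ?_⟩
      · intro h0
        apply hdet
        rw [h0, h]; ring
      · rw [vecL_infty]
        ext i
        fin_cases i
        · simp [mulVec, dotProduct, Fin.sum_univ_two]
        · simpa [mulVec, dotProduct, Fin.sum_univ_two] using h
    · refine ⟨A 1 0, h, ?_⟩
      rw [vecL_infty, vecL_coe]
      ext i
      fin_cases i
      · simp [mulVec, dotProduct, Fin.sum_univ_two]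
        field_simp
      · simp [mulVec, dotProduct, Fin.sum_univ_two]
  | coe a =>
    rw [OnePoint.smul_some_eq_ite]
    split_ifs with h
    · refine ⟨A 0 0 * a + A 0 1, ?_, ?_⟩
      · intro h0
        apply hdet
        by_cases h10 : A 1 0 = 0
        · rw [h10, zero_mul, zero_add] at h
          rw [h10, h]; ring
        · have ha : a = - A 1 1 / A 1 0 := by
            field_simp
            linear_combination h
          rw [ha] at h0
          field_simp at h0
          linear_combination -h0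
      · rw [vecL_infty, vecL_coe]
        ext i
        fin_cases i
        · simp [mulVec, dotProduct, Fin.sum_univ_two]
        · simpa [mulVec, dotProduct, Fin.sum_univ_two] using h
    · refine ⟨A 1 0 * a + A 1 1, h, ?_⟩
      rw [vecL_coe, vecL_coe]
      ext i
      fin_cases i
      · simp [mulVec, dotProduct, Fin.sum_univ_two]
        rw [mul_div_cancel₀ _ h]
      · simp [mulVec, dotProduct, Fin.sum_univ_two]

end Line

section PL

variable {X : Type u} {G : Subgroup (Perm X)} {F : Type u} [Field F] [DecidableEq F]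
  {P : X → Fin 2 → F}

/-- the bijection between the projective line and `X` -/
noncomputable def lineEquiv (hP : Points P (fun _ => True)) : OnePoint F ≃ X :=
  Equiv.ofBijective (fun x => pt hP (vecL x) (vecL_ne x) trivial) (by
    constructor
    · intro x y h
      obtain ⟨c, hc⟩ := (pt_iff hP (vecL_ne x) trivial (vecL_ne y) trivial).mp h
      exact (vecL_inj hc).symm
    · intro x
      obtain ⟨y, c, hc⟩ := vecL_surj (hP.1 x).1
      refine ⟨y, ?_⟩
      apply pt_eq hP
      have hc0 : c ≠ 0 := by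
        rintro rfl
        rw [zero_smul] at hc
        exact (hP.1 x).1 hc
      exact ⟨c⁻¹, by rw [hc, smul_smul, inv_mul_cancel₀ hc0, one_smul]⟩)

theorem lineEquiv_spec (hP : Points P (fun _ => True)) (x : OnePoint F) :
    ∃ c : F, c ≠ 0 ∧ vecL x = c • P (lineEquiv hP x) := by
  obtain ⟨c, hc⟩ := pt_spec hP (vecL_ne x) trivial
  refine ⟨c, ?_, hc⟩
  rintro rfl
  rw [zero_smul] at hc
  exact vecL_ne x hc

theorem lineEquiv_eq (hP : Points P (fun _ => True)) {x : OnePoint F} {y : X} {c : F} (hc : c ≠ 0)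
    (h : vecL x = c • P y) : lineEquiv hP x = y := pt_eq hP (vecL_ne x) trivial ⟨c, h⟩

/-- the action on the projective line of an induced permutation -/
theorem lineEquiv_induced (hP : Points P (fun _ => True)) {M : Matrix (Fin 2) (Fin 2) F}
    {σ : F ≃+* F} {g : Perm X} (h : Induced P M σ g) (x : OnePoint F) :
    g (lineEquiv hP x) =
      lineEquiv hP (GeneralLinearGroup.mkOfDetNeZero M h.1 • OnePoint.map σ x) := by
  symm
  obtain ⟨c, hc, h1⟩ := induced_pt hP h (vecL_ne x) trivial
  rw [vecL_map] at h1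
  obtain ⟨d, hd, h2⟩ := vecL_smul (GeneralLinearGroup.mkOfDetNeZero M h.1) (OnePoint.map σ x)
  apply lineEquiv_eq hP (c := d⁻¹ * c) (mul_ne_zero (inv_ne_zero hd) hc)
  have h3 : (GeneralLinearGroup.mkOfDetNeZero M h.1 : Matrix (Fin 2) (Fin 2) F) = M := rfl
  rw [h3] at h2
  rw [h1] at h2
  rw [mul_smul]
  have h4 : (lineEquiv hP x) = pt hP (vecL x) (vecL_ne x) trivial := rfl
  rw [h4, h2, smul_smul, inv_mul_cancel₀ hd, one_smul]

/-- and conversely -/
theorem induced_of_lineEquiv (hP : Points P (fun _ => True)) {A : GL (Fin 2) F} {σ : F ≃+* F}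
    {g : Perm X} (h : ∀ x, g (lineEquiv hP x) = lineEquiv hP (A • OnePoint.map σ x)) :
    Induced P (A : Matrix (Fin 2) (Fin 2) F) σ g := by
  refine ⟨A.det_ne_zero, fun y => ?_⟩
  obtain ⟨x, rfl⟩ := (lineEquiv hP).surjective y
  rw [h]
  obtain ⟨c, hc, h1⟩ := lineEquiv_spec hP x
  obtain ⟨d, hd, h2⟩ := vecL_smul A (OnePoint.map σ x)
  obtain ⟨b, hb, h3⟩ := lineEquiv_spec hP (A • OnePoint.map σ x)
  have hc' : σ c ≠ 0 := by simpa using hc
  refine ⟨(σ c)⁻¹ * (d * b), ?_⟩
  have h4 : (fun i => σ (P (lineEquiv hP x) i)) = (σ c)⁻¹ • vecL (OnePoint.map σ x) := by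
    rw [← vecL_map, h1]
    ext i
    simp [hc]
  rw [h4, mulVec_smul, h2, h3, smul_smul, smul_smul, mul_assoc]

theorem InPGL.isPL {q : ℕ} (h : InPGL G 2 q) : H922.IsPL G q := by
  classical
  obtain ⟨F, iF, P, hq, hP, hG⟩ := h
  refine ⟨F, iF, inferInstance, lineEquiv hP, hq, fun g hg => ?_⟩
  obtain ⟨M, σ, hM⟩ := hG g hg
  rw [mem_conjGroup]
  refine ⟨(lineEquiv hP).symm.permCongr g, ⟨GeneralLinearGroup.mkOfDetNeZero M hM.1, σ,
    fun x => ?_⟩, fun x => ?_⟩
  · rw [Equiv.permCongr_apply, Equiv.symm_symm, lineEquiv_induced hP hM x,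
      Equiv.symm_apply_apply]
  · rw [Equiv.permCongr_apply, Equiv.symm_symm, Equiv.apply_symm_apply]

theorem psl_le (hP : Points P (fun _ => True))
    (h : ∀ M g, M.det = 1 → Induced P M (RingEquiv.refl F) g → g ∈ G) :
    conjGroup (lineEquiv hP) (PSL2 F) ≤ G := by
  rintro g hg
  obtain ⟨k, ⟨A, hA1, hA⟩, hk⟩ := mem_conjGroup.mp hg
  refine h (A : Matrix (Fin 2) (Fin 2) F) g hA1 (induced_of_lineEquiv hP fun x => ?_)
  rw [hk, hA]
  have : OnePoint.map (RingEquiv.refl F) x = x := by cases x <;> rfl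
  rw [this]

theorem IsPSL2.old {q : ℕ} (h : IsPSL2 G q) : H922.IsPSL2 G q := by
  classical
  obtain ⟨F, iF, P, hq, hP, h1, hG⟩ := h
  refine ⟨F, iF, inferInstance, lineEquiv hP, hq, psl_le hP h1, fun g hg => ?_⟩
  obtain ⟨M, σ, hM⟩ := hG g hg
  rw [mem_conjGroup]
  refine ⟨(lineEquiv hP).symm.permCongr g, ⟨GeneralLinearGroup.mkOfDetNeZero M hM.1, σ,
    fun x => ?_⟩, fun x => ?_⟩
  · rw [Equiv.permCongr_apply, Equiv.symm_symm, lineEquiv_induced hP hM x,
      Equiv.symm_apply_apply]
  · rw [Equiv.permCongr_apply, Equiv.symm_symm, Equiv.apply_symm_apply]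

theorem IsPSigma2.old {q : ℕ} (h : IsPSigma2 G q) : H922.IsPSigma2 G q := by
  classical
  obtain ⟨F, iF, P, hq, hP, h1, hG⟩ := h
  refine ⟨F, iF, inferInstance, lineEquiv hP, hq, psl_le hP h1, fun g hg => ?_⟩
  obtain ⟨M, σ, hMs, hM⟩ := hG g hg
  rw [mem_conjGroup]
  refine ⟨(lineEquiv hP).symm.permCongr g, ⟨GeneralLinearGroup.mkOfDetNeZero M hM.1, σ,
    hMs, fun x => ?_⟩, fun x => ?_⟩
  · rw [Equiv.permCongr_apply, Equiv.symm_symm, lineEquiv_induced hP hM x,
      Equiv.symm_apply_apply]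
  · rw [Equiv.permCongr_apply, Equiv.symm_symm, Equiv.apply_symm_apply]

/-- the coordinate vectors belonging to a bijection -/
theorem points_of_equiv (e : OnePoint F ≃ X) :
    Points (fun x => vecL (e.symm x)) (fun _ : Fin 2 → F => True) := by
  refine ⟨fun x => ⟨vecL_ne _, trivial⟩, fun v hv _ => ?_⟩
  obtain ⟨y, c, hc⟩ := vecL_surj hv
  have hc0 : c ≠ 0 := by
    rintro rfl
    rw [zero_smul] at hc
    exact hv hc
  refine ⟨e y, ⟨c, by beta_reduce; rw [e.symm_apply_apply]; exact hc⟩, ?_⟩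
  rintro x ⟨d, hd⟩
  beta_reduce at hd
  rw [← e.symm_apply_eq]
  symm
  apply vecL_inj (c := c⁻¹ * d)
  rw [mul_smul, ← hd, hc, smul_smul, inv_mul_cancel₀ hc0, one_smul]

theorem lineEquiv_of_equiv (e : OnePoint F ≃ X) (x : OnePoint F) :
    lineEquiv (points_of_equiv e) x = e x :=
  lineEquiv_eq _ (c := 1) one_ne_zero (by rw [one_smul]; beta_reduce; rw [e.symm_apply_apply])

theorem psl_mem {e : OnePoint F ≃ X} (h : conjGroup e (PSL2 F) ≤ G)
    {M : Matrix (Fin 2) (Fin 2) F} {g : Perm X} (hM : M.det = 1)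
    (hg : Induced (fun x => vecL (e.symm x)) M (RingEquiv.refl F) g) : g ∈ G := by
  apply h
  rw [mem_conjGroup]
  refine ⟨e.symm.permCongr g, ⟨GeneralLinearGroup.mkOfDetNeZero M hg.1, hM, fun x => ?_⟩,
    fun x => ?_⟩
  · have h1 := lineEquiv_induced (points_of_equiv e) hg x
    rw [lineEquiv_of_equiv, lineEquiv_of_equiv] at h1
    have : OnePoint.map (RingEquiv.refl F) x = x := by cases x <;> rfl
    rw [this] at h1
    rw [Equiv.permCongr_apply, Equiv.symm_symm, h1, e.symm_apply_apply]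
  · rw [Equiv.permCongr_apply, Equiv.symm_symm, Equiv.apply_symm_apply]

theorem isPSL2_of_old {q : ℕ} (h : H922.IsPSL2 G q) : IsPSL2 G q := by
  obtain ⟨F, iF, iD, e, hq, h1, h2⟩ := h
  refine ⟨F, iF, fun x => vecL (e.symm x), hq, points_of_equiv e,
    fun M g hM hg => psl_mem h1 hM hg, fun g hg => ?_⟩
  obtain ⟨k, ⟨A, σ, hA⟩, hk⟩ := mem_conjGroup.mp (h2 hg)
  refine ⟨(A : Matrix (Fin 2) (Fin 2) F), σ, induced_of_lineEquiv (points_of_equiv e)
    fun x => ?_⟩
  rw [lineEquiv_of_equiv, lineEquiv_of_equiv, hk, hA]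

theorem isPSigma2_of_old {q : ℕ} (h : H922.IsPSigma2 G q) : IsPSigma2 G q := by
  obtain ⟨F, iF, iD, e, hq, h1, h2⟩ := h
  refine ⟨F, iF, fun x => vecL (e.symm x), hq, points_of_equiv e,
    fun M g hM hg => psl_mem h1 hM hg, fun g hg => ?_⟩
  obtain ⟨k, ⟨A, σ, hAs, hA⟩, hk⟩ := mem_conjGroup.mp (h2 hg)
  refine ⟨(A : Matrix (Fin 2) (Fin 2) F), σ, hAs, induced_of_lineEquiv (points_of_equiv e)
    fun x => ?_⟩
  rw [lineEquiv_of_equiv, lineEquiv_of_equiv, hk, hA]

end PL

section Gens

variable {X : Type u} {G : Subgroup (Perm X)} {n : ℕ}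

theorem gen_eq (e : X ≃ Fin n) (L : List (List ℕ)) : gen e L = conjGroup e.symm (genGroup n L) := by
  unfold gen conjGroup genGroup
  rw [MonoidHom.map_closure]
  congr 1
  ext g
  constructor
  · rintro ⟨l, hl, h⟩
    refine ⟨e.permCongr g, ⟨l, hl, fun i => ?_⟩, ?_⟩
    · rw [Equiv.permCongr_apply, h, e.apply_symm_apply]
    · ext x
      simp [Equiv.permCongrHom]
  · rintro ⟨k, ⟨l, hl, h⟩, rfl⟩
    refine ⟨l, hl, fun x => ?_⟩
    rw [← h]
    simp [Equiv.permCongrHom]

theorem IsGen.old {L : List (List ℕ)} (h : IsGen G n L) : GenBetween G n L L := by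
  obtain ⟨e, rfl⟩ := h
  exact ⟨e.symm, by rw [gen_eq], by rw [gen_eq]⟩

theorem genGroup_mono' {L M : List (List ℕ)} (h : ∀ l ∈ L, l ∈ M) :
    genGroup n L ≤ genGroup n M := by
  unfold genGroup
  apply Subgroup.closure_mono
  rintro g ⟨l, hl, hg⟩
  exact ⟨l, h l hl, hg⟩

theorem isM22_of (h : IsGen G 22 m22L ∨ IsGen G 22 (m22L ++ [m22Out])) : IsM22 G := by
  rcases h with h | h
  · obtain ⟨e, h1, h2⟩ := h.old
    exact ⟨e, h1, h2.trans (Subgroup.map_mono (genGroup_mono' fun l hl =>
      List.mem_append_left _ hl))⟩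
  · obtain ⟨e, h1, h2⟩ := h.old
    exact ⟨e, (Subgroup.map_mono (genGroup_mono' fun l hl =>
      List.mem_append_left _ hl)).trans h1, h2⟩

end Gens

end Pool.Agent.H922.C
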