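import Mathlib
import Pool.Agent.H922.Transp

set_option autoImplicit false
set_option linter.style.haveILetI false
set_option linter.unusedVariables false
set_option linter.unusedSectionVars false

/-!
# Computation with explicit permutations

A permutation of `{0, ..., n-1}`, `n ≤ 1024`, is coded by a natural number with 10 bits for each
image. Sets of points are coded by bit masks.
-/

namespace Pool.Agent.H922

open Equiv MulAction

/-- the image of `i` under the coded permutation `P` -/
def app (P i : ℕ) : ℕ := Nat.land (Nat.shiftRight P (Nat.mul 10 i)) 1023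

/-- all `k < n` satisfy `p` -/
def allR (p : ℕ → Bool) : ℕ → Bool
  | 0 => true
  | k + 1 => (p k) && (allR p k)

theorem allR_iff {p : ℕ → Bool} {n : ℕ} : allR p n = true ↔ ∀ k < n, p k = true := by
  induction n with
  | zero => simp [allR]
  | succ n ih =>
    rw [allR, Bool.and_eq_true, ih]
    constructor
    · rintro ⟨h1, h2⟩ k hk
      rcases Nat.lt_succ_iff_lt_or_eq.mp hk with h | h
      · exact h2 k h
      · rw [h]; exact h1
    · intro h
      exact ⟨h n (by omega), fun k hk => h k (by omega)⟩

/-- some element of the list satisfies `p` -/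
def anyL (p : ℕ → Bool) : List ℕ → Bool
  | [] => false
  | x :: l => (p x) || (anyL p l)

theorem anyL_iff {p : ℕ → Bool} {l : List ℕ} : anyL p l = true ↔ ∃ x ∈ l, p x = true := by
  induction l with
  | nil => simp [anyL]
  | cons x l ih =>
    rw [anyL, Bool.or_eq_true, ih]
    simp

/-- all elements of the list satisfy `p` -/
def allL (p : ℕ → Bool) : List ℕ → Bool
  | [] => true
  | x :: l => (p x) && (allL p l)

theorem allL_iff {p : ℕ → Bool} {l : List ℕ} : allL p l = true ↔ ∀ x ∈ l, p x = true := by
  induction l with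
  | nil => simp [allL]
  | cons x l ih =>
    rw [allL, Bool.and_eq_true, ih]
    simp

/-- the composite of the permutations with indices `ks` in the list `acc`, at the point `i` -/
def compL (acc : List ℕ) : List ℕ → ℕ → ℕ
  | [], i => i
  | k :: ks, i => app (acc.getD k 0) (compL acc ks i)

/-- straight line programs -/
def slp (n : ℕ) : List (ℕ × List ℕ) → List ℕ → Bool
  | [], _ => true
  | (Q, ks) :: rest, acc =>
    (allR (fun i => Nat.beq (app Q i) (compL acc ks i)) n) && (slp n rest (Q :: acc))

/-- `P` codes an element of `G` -/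
def InG {n : ℕ} (G : Subgroup (Perm (Fin n))) (P : ℕ) : Prop :=
  ∃ g ∈ G, ∀ i : Fin n, ((g i : Fin n) : ℕ) = app P i

theorem comp_inG {n : ℕ} {G : Subgroup (Perm (Fin n))} {acc : List ℕ} (h : ∀ P ∈ acc, InG G P)
    (ks : List ℕ) (hks : ∀ k ∈ ks, k < acc.length) :
    ∃ g ∈ G, ∀ i : Fin n, ((g i : Fin n) : ℕ) = compL acc ks i := by
  induction ks with
  | nil => exact ⟨1, G.one_mem, fun i => rfl⟩
  | cons k ks ih =>
    obtain ⟨g, hg, hgi⟩ := ih (fun k' hk' => hks k' (List.mem_cons_of_mem _ hk'))
    have hk := hks k List.mem_cons_self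
    obtain ⟨g', hg', hgi'⟩ := h (acc.getD k 0) (by
      rw [List.getD_eq_getElem _ _ hk]
      exact List.getElem_mem hk)
    refine ⟨g' * g, G.mul_mem hg' hg, fun i => ?_⟩
    rw [Perm.mul_apply, hgi', hgi]
    rfl

/-- all indices are in range -/
def idx : List (ℕ × List ℕ) → ℕ → Bool
  | [], _ => true
  | (_, ks) :: rest, m => (allL (fun k => Nat.blt k m) ks) && (idx rest (m + 1))

theorem slp_inG {n : ℕ} {G : Subgroup (Perm (Fin n))} (steps : List (ℕ × List ℕ)) :
    ∀ (acc : List ℕ), (∀ P ∈ acc, InG G P) → slp n steps acc = true →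
      idx steps acc.length = true → ∀ Q ∈ steps, InG G Q.1 := by
  induction steps with
  | nil => intro acc _ _ _ Q hQ; simp at hQ
  | cons s rest ih =>
    obtain ⟨Q, ks⟩ := s
    intro acc hacc hslp hidx
    rw [slp, Bool.and_eq_true, allR_iff] at hslp
    rw [idx, Bool.and_eq_true, allL_iff] at hidx
    have hQ : InG G Q := by
      obtain ⟨g, hg, hgi⟩ := comp_inG hacc ks (fun k hk => by
        have := hidx.1 k hk
        rwa [Nat.blt_eq] at this)
      refine ⟨g, hg, fun i => ?_⟩
      have := hslp.1 i i.2
      rw [Nat.beq_eq] at this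
      rw [hgi, this]
    intro Q' hQ'
    rcases List.mem_cons.mp hQ' with rfl | h
    · exact hQ
    · refine ih (Q :: acc) ?_ hslp.2 ?_ Q' h
      · intro P hP
        rcases List.mem_cons.mp hP with rfl | hP
        · exact hQ
        · exact hacc P hP
      · exact hidx.2

/-- transitivity check: for `i < t` and `j < n`, `i ≤ j`, some element of the list fixes
`0, ..., i-1` and maps `i` to `j` -/
def trchk (Qs : List ℕ) (n t : ℕ) : Bool :=
  allR (fun i => allR (fun j => (Nat.blt j i) ||
    (anyL (fun Q => (Nat.beq (app Q i) j) &&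
      (allR (fun k => Nat.beq (app Q k) k) i)) Qs)) n) t

theorem trans_of_base {n : ℕ} {G : Subgroup (Perm (Fin n))} {t : ℕ} (htn : t ≤ n)
    (h : ∀ i : Fin n, (i : ℕ) < t → ∀ j : Fin n, i ≤ j →
      ∃ g ∈ G, g i = j ∧ ∀ k : Fin n, k < i → g k = k) : TTransitive G t := by
  refine ⟨by rw [Nat.card_eq_fintype_card, Fintype.card_fin]; exact htn, ?_⟩
  -- each injective tuple is the image of the base
  have key : ∀ m : ℕ, (hm : m ≤ t) → ∀ a : Fin n → Fin n, Function.Injective a →
      ∃ g ∈ G, ∀ i : Fin n, (i : ℕ) < m → g i = a i := by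
    intro m
    induction m with
    | zero => intro _ a _; exact ⟨1, G.one_mem, fun i hi => absurd hi (by omega)⟩
    | succ m ih =>
      intro hm a ha
      obtain ⟨g, hg, hgi⟩ := ih (by omega) a ha
      let im : Fin n := ⟨m, by omega⟩
      -- the preimage of `a m` is at least `m`
      have hge : im ≤ g⁻¹ (a im) := by
        by_contra hcon
        push Not at hcon
        have h1 := hgi (g⁻¹ (a im)) hcon
        rw [perm_apply_inv] at h1
        have h2 := ha h1
        rw [← h2] at hcon
        exact lt_irrefl _ hcon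
      obtain ⟨k, hk, hki, hkf⟩ := h im (by change m < t; omega) _ hge
      refine ⟨g * k, G.mul_mem hg hk, fun i hi => ?_⟩
      rw [Perm.mul_apply]
      rcases Nat.lt_succ_iff_lt_or_eq.mp hi with h1 | h1
      · rw [hkf i h1, hgi i h1]
      · have : i = im := Fin.ext h1
        rw [this, hki, perm_apply_inv]
  rw [multTrans_iff]
  intro a b ha hb
  -- extend to permutations
  have ext : ∀ a : Fin t → Fin n, Function.Injective a → ∃ g ∈ G, ∀ i : Fin t,
      g (Fin.castLE htn i) = a i := by
    intro a ha
    obtain ⟨σ, hσ⟩ : ∃ σ : Perm (Fin n), ∀ i : Fin t, σ (Fin.castLE htn i) = a i := by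
      classical
      let f : {x : Fin n // (x : ℕ) < t} → Fin n := fun x => a ⟨x.1, x.2⟩
      have hf : Function.Injective f := by
        intro x y hxy
        have := ha hxy
        rw [Fin.mk.injEq] at this
        exact Subtype.ext (Fin.ext this)
      let e : {x : Fin n // (x : ℕ) < t} ≃ {y : Fin n // y ∈ Set.range f} :=
        Equiv.ofInjective f hf
      refine ⟨e.extendSubtype, fun i => ?_⟩
      rw [Equiv.extendSubtype_apply_of_mem e (Fin.castLE htn i) (by simp)]
      rfl
    obtain ⟨g, hg, hgi⟩ := key t le_rfl σ σ.injective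
    exact ⟨g, hg, fun i => by rw [hgi _ (by simp), hσ]⟩
  obtain ⟨g, hg, hga⟩ := ext a ha
  obtain ⟨k, hk, hkb⟩ := ext b hb
  refine ⟨k * g⁻¹, G.mul_mem hk (G.inv_mem hg), fun i => ?_⟩
  rw [Perm.mul_apply, ← hga i, perm_inv_apply, hkb]

theorem trans_of_chk {n : ℕ} {G : Subgroup (Perm (Fin n))} {t : ℕ} (htn : t ≤ n)
    {Qs : List ℕ} (hQs : ∀ Q ∈ Qs, InG G Q) (h : trchk Qs n t = true) : TTransitive G t := by
  apply trans_of_base htn
  intro i hi j hij
  unfold trchk at h
  rw [allR_iff] at h
  have h1 := h i hi
  rw [allR_iff] at h1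
  have h2 := h1 j j.2
  rw [Bool.or_eq_true] at h2
  rcases h2 with h2 | h2
  · rw [Nat.blt_eq] at h2
    exact absurd hij (not_le.mpr h2)
  rw [anyL_iff] at h2
  obtain ⟨Q, hQ, h3⟩ := h2
  rw [Bool.and_eq_true, Nat.beq_eq, allR_iff] at h3
  obtain ⟨g, hg, hgi⟩ := hQs Q hQ
  refine ⟨g, hg, Fin.ext (by rw [hgi, h3.1]), fun k hk => Fin.ext ?_⟩
  have := h3.2 k hk
  rw [Nat.beq_eq] at this
  rw [hgi, this]

/-! ### Sets of points as bit masks -/

/-- the image of the mask `m` under the coded permutation `P` -/
def img (P m : ℕ) : ℕ → ℕ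
  | 0 => 0
  | k + 1 => bif Nat.testBit m k then Nat.lor (img P m k) (Nat.shiftLeft 1 (app P k))
      else img P m k

/-- the number of elements of the mask -/
def pop (m : ℕ) : ℕ → ℕ
  | 0 => 0
  | k + 1 => bif Nat.testBit m k then Nat.succ (pop m k) else pop m k

/-- the set coded by the mask `m` -/
def toSet (n m : ℕ) : Finset (Fin n) := Finset.univ.filter (fun i => Nat.testBit m i = true)

theorem mem_toSet {n m : ℕ} {i : Fin n} : i ∈ toSet n m ↔ Nat.testBit m i = true := by
  simp [toSet]

theorem img_lt {P m k n : ℕ} (hP : ∀ i < k, app P i < n) : img P m k < 2 ^ n := by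
  induction k with
  | zero => simp [img]
  | succ k ih =>
    have h1 := ih (fun i hi => hP i (by omega))
    rw [img]
    cases h : Nat.testBit m k with
    | false => simpa using h1
    | true =>
      simp only [cond_true]
      apply Nat.or_lt_two_pow h1
      have : Nat.shiftLeft 1 (app P k) = 2 ^ app P k := by
        change 1 <<< (app P k) = _
        rw [Nat.shiftLeft_eq, one_mul]
      rw [this]
      exact Nat.pow_lt_pow_right (by norm_num) (hP k (by omega))

theorem testBit_img {P m k j : ℕ} : Nat.testBit (img P m k) j = true ↔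
    ∃ i < k, Nat.testBit m i = true ∧ app P i = j := by
  induction k with
  | zero => simp [img]
  | succ k ih =>
    rw [img]
    cases h : Nat.testBit m k with
    | false =>
      simp only [cond_false]
      rw [ih]
      constructor
      · rintro ⟨i, hi, h1⟩
        exact ⟨i, by omega, h1⟩
      · rintro ⟨i, hi, h1, h2⟩
        refine ⟨i, ?_, h1, h2⟩
        rcases Nat.lt_succ_iff_lt_or_eq.mp hi with h3 | h3
        · exact h3
        · rw [h3, h] at h1
          exact absurd h1 (by simp)
    | true =>
      simp only [cond_true]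
      have e1 : Nat.testBit (Nat.lor (img P m k) (Nat.shiftLeft 1 (app P k))) j =
          (Nat.testBit (img P m k) j || Nat.testBit (1 <<< (app P k)) j) := Nat.testBit_or _ _ _
      rw [e1, Bool.or_eq_true, ih, Nat.shiftLeft_eq, one_mul, Nat.testBit_two_pow]
      simp only [decide_eq_true_eq]
      constructor
      · rintro (⟨i, hi, h1⟩ | h1)
        · exact ⟨i, by omega, h1⟩
        · exact ⟨k, by omega, h, h1⟩
      · rintro ⟨i, hi, h1, h2⟩
        rcases Nat.lt_succ_iff_lt_or_eq.mp hi with h3 | h3
        · exact Or.inl ⟨i, h3, h1, h2⟩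
        · right
          rw [h3] at h2
          exact h2

theorem map_toSet {n : ℕ} {g : Perm (Fin n)} {P : ℕ}
    (hg : ∀ i : Fin n, ((g i : Fin n) : ℕ) = app P i) (m : ℕ) :
    (toSet n m).map g.toEmbedding = toSet n (img P m n) := by
  ext j
  rw [Finset.mem_map, mem_toSet, testBit_img]
  constructor
  · rintro ⟨i, hi, rfl⟩
    exact ⟨i, i.2, mem_toSet.mp hi, (hg i).symm⟩
  · rintro ⟨i, hi, h1, h2⟩
    refine ⟨⟨i, hi⟩, mem_toSet.mpr h1, Fin.ext ?_⟩
    have := hg ⟨i, hi⟩
    change ((g ⟨i, hi⟩ : Fin n) : ℕ) = j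
    rw [this, h2]

theorem card_toSet {n m : ℕ} : (toSet n m).card = pop m n := by
  induction n with
  | zero => simp [toSet, pop]
  | succ n ih =>
    have h1 : toSet (n + 1) m = (toSet n m).map Fin.castSuccEmb ∪
        (if Nat.testBit m n = true then {Fin.last n} else ∅) := by
      ext i
      rw [Finset.mem_union, mem_toSet, Finset.mem_map]
      refine Fin.lastCases ?_ (fun i => ?_) i
      · constructor
        · intro h
          right
          rw [Fin.val_last] at h
          rw [if_pos h]
          exact Finset.mem_singleton_self _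
        · rintro (⟨j, -, hj⟩ | h)
          · have h5 := Fin.castSucc_lt_last j
            have h6 : Fin.castSucc j = Fin.last n := hj
            rw [h6] at h5
            exact absurd h5 (lt_irrefl _)
          · split_ifs at h with h2
            · rw [Fin.val_last]; exact h2
            · simp at h
      · constructor
        · intro h
          left
          exact ⟨i, mem_toSet.mpr h, rfl⟩
        · rintro (⟨j, hj, hji⟩ | h)
          · have h7 : j = i := Fin.castSucc_injective n hji
            have h8 := mem_toSet.mp hj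
            rw [h7] at h8
            exact h8
          · exfalso
            split_ifs at h with h2
            · rw [Finset.mem_singleton] at h
              have h5 := Fin.castSucc_lt_last i
              rw [h] at h5
              exact lt_irrefl _ h5
            · simp at h
    rw [h1, Finset.card_union_of_disjoint, Finset.card_map, ih, pop]
    · split_ifs with h2
      · rw [h2]; simp
      · rw [Bool.not_eq_true] at h2
        rw [h2]; simp
    · rw [Finset.disjoint_left]
      intro i hi hi'
      rw [Finset.mem_map] at hi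
      obtain ⟨j, -, rfl⟩ := hi
      split_ifs at hi' with h2
      · rw [Finset.mem_singleton] at hi'
        have h5 := Fin.castSucc_lt_last j
        have h6 : Fin.castSucc j = Fin.last n := hi'
        rw [h6] at h5
        exact lt_irrefl _ h5
      · simp at hi'

/-! ### Binary search trees of masks -/

/-- binary trees -/
inductive BT : Type
  | nil : BT
  | node : BT → ℕ → BT → BT

/-- search -/
def BT.mem : BT → ℕ → Bool
  | .nil, _ => false
  | .node l v r, x => bif Nat.beq x v then true else bif Nat.blt x v then l.mem x else r.mem x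

/-- all elements satisfy `p` -/
def BT.all : BT → (ℕ → Bool) → Bool
  | .nil, _ => true
  | .node l v r, p => (p v) && (l.all p) && (r.all p)

theorem BT.all_mem {p : ℕ → Bool} {x : ℕ} : ∀ t : BT, t.all p = true → t.mem x = true →
    p x = true := by
  intro t
  induction t with
  | nil => intro _ h; simp [BT.mem] at h
  | node l v r ihl ihr =>
    intro h1 h2
    rw [BT.all, Bool.and_eq_true, Bool.and_eq_true] at h1
    rw [BT.mem] at h2
    cases h3 : Nat.beq x v with
    | true =>
      rw [Nat.beq_eq] at h3
      rw [h3]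
      exact h1.1.1
    | false =>
      rw [h3] at h2
      simp only [cond_false] at h2
      cases h4 : Nat.blt x v with
      | true =>
        rw [h4] at h2
        exact ihl h1.1.2 h2
      | false =>
        rw [h4] at h2
        exact ihr h1.2 h2

/-- the family of sets coded by the tree -/
def BT.fam (n : ℕ) (t : BT) : Set (Finset (Fin n)) := {B | ∃ m, t.mem m = true ∧ B = toSet n m}

/-- a tree closed under all generators gives an invariant family -/
theorem BT.fam_inv {n : ℕ} {S : Set (Perm (Fin n))} {Ps : List ℕ} {T : BT}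
    (hS : ∀ g ∈ S, ∃ P ∈ Ps, ∀ i : Fin n, ((g i : Fin n) : ℕ) = app P i)
    (h : allL (fun P => T.all (fun m => T.mem (img P m n))) Ps = true) :
    ∀ g ∈ Subgroup.closure S, ∀ B ∈ T.fam n, B.map g.toEmbedding ∈ T.fam n := by
  rw [allL_iff] at h
  have hgen : ∀ g ∈ S, ∀ B ∈ T.fam n, B.map g.toEmbedding ∈ T.fam n := by
    rintro g hg _ ⟨m, hm, rfl⟩
    obtain ⟨P, hP, hgi⟩ := hS g hg
    refine ⟨img P m n, ?_, map_toSet hgi m⟩
    exact BT.all_mem (p := fun m => T.mem (img P m n)) T (h P hP) hm
  intro g hg
  refine Subgroup.closure_induction (p := fun g _ => ∀ B ∈ T.fam n,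
    B.map g.toEmbedding ∈ T.fam n) hgen ?_ ?_ ?_ hg
  · intro B hB
    rw [map_one_perm]; exact hB
  · intro g k _ _ h1 h2 B hB
    rw [← map_mul_perm]
    exact h1 _ (h2 _ hB)
  · intro g _ h1 B hB
    have hpow : ∀ m : ℕ, B.map (g ^ m : Perm (Fin n)).toEmbedding ∈ T.fam n := by
      intro m
      induction m with
      | zero => rw [pow_zero, map_one_perm]; exact hB
      | succ m ih => rw [pow_succ', ← map_mul_perm]; exact h1 _ ih
    have : g⁻¹ = g ^ (orderOf g - 1) := by
      rw [inv_eq_iff_mul_eq_one, ← pow_succ', Nat.sub_add_cancel (orderOf_pos g),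
        pow_orderOf_eq_one]
    rw [this]
    exact hpow _

/-- An invariant family for which a fixed `t`-set lies in exactly one member, in a `t`-transitive
group, is a Steiner system. -/
theorem steiner_of_fam {n t k : ℕ} {G : Subgroup (Perm (Fin n))} {𝓑 : Set (Finset (Fin n))}
    (htr : TTransitive G t) (hcard : ∀ B ∈ 𝓑, B.card = k)
    (hinv : ∀ g ∈ G, ∀ B ∈ 𝓑, B.map g.toEmbedding ∈ 𝓑)
    (T0 : Finset (Fin n)) (hT0 : T0.card = t) (h0 : ∃! B, B ∈ 𝓑 ∧ T0 ⊆ B) : IsSteiner t k 𝓑 := by
  classical
  refine ⟨hcard, fun T hT => ?_⟩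
  -- `g` maps `T0` onto `T`
  obtain ⟨g, hg, hgT⟩ : ∃ g ∈ G, T0.map g.toEmbedding = T := by
    obtain ⟨e⟩ : Nonempty (T0 ≃ T) := by
      rw [← Fintype.card_eq, Fintype.card_coe, Fintype.card_coe, hT0, hT]
    obtain ⟨g, hg, hgf⟩ := exists_agree htr.1 htr.2 T0 (by rw [hT0])
      (fun x => if h : x ∈ T0 then (e ⟨x, h⟩ : Fin n) else x) (by
        intro x hx y hy hxy
        simp only at hxy
        rw [dif_pos (Finset.mem_coe.mp hx), dif_pos (Finset.mem_coe.mp hy)] at hxy
        exact congrArg Subtype.val (e.injective (Subtype.ext hxy)))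
    refine ⟨g, hg, ?_⟩
    apply Finset.eq_of_subset_of_card_le
    · intro y hy
      obtain ⟨x, hx, rfl⟩ := Finset.mem_map.mp hy
      change g x ∈ T
      rw [hgf x hx, dif_pos hx]
      exact (e ⟨x, hx⟩).2
    · rw [Finset.card_map, hT0, hT]
  obtain ⟨B0, ⟨hB0, hTB0⟩, huniq⟩ := h0
  refine ⟨B0.map g.toEmbedding, ⟨hinv g hg B0 hB0, ?_⟩, ?_⟩
  · rw [← hgT]
    exact Finset.map_subset_map.mpr hTB0
  · rintro B ⟨hB, hTB⟩
    have h1 := huniq (B.map (g⁻¹ : Perm (Fin n)).toEmbedding) ⟨hinv _ (G.inv_mem hg) B hB, by
      have : T0 = T.map (g⁻¹ : Perm (Fin n)).toEmbedding := (map_inv_perm hgT).symm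
      rw [this]
      exact Finset.map_subset_map.mpr hTB⟩
    rw [← h1, map_mul_perm, mul_inv_cancel, map_one_perm]

end Pool.Agent.H922
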