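import Mathlib
import Pool.Agent.H922.Chk

set_option autoImplicit false
set_option linter.style.haveILetI false
set_option linter.unusedVariables false
set_option linter.unusedSectionVars false

/-!
# Computation with explicit permutations, continued
-/

namespace Pool.Agent.H922

open Equiv MulAction

/-- check that the lists `L` are permutations with codes `Ps` and inverses `Qs` -/
def chkGens (n : ℕ) : List (List ℕ) → List ℕ → List ℕ → Bool
  | [], [], [] => true
  | l :: L, P :: Ps, Q :: Qs =>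
    (allR (fun i => (Nat.blt (app P i) n) && (Nat.beq (l.getD i 0) (app P i)) &&
      (Nat.beq (app Q (app P i)) i)) n) && (chkGens n L Ps Qs)
  | _, _, _ => false

theorem chkGens_spec {n : ℕ} : ∀ (L : List (List ℕ)) (Ps Qs : List ℕ),
    chkGens n L Ps Qs = true →
    (∀ P ∈ Ps, ∃ l ∈ L, ∃ g : Perm (Fin n), (∀ i : Fin n, ((g i : Fin n) : ℕ) = l.getD i 0) ∧
      ∀ i : Fin n, ((g i : Fin n) : ℕ) = app P i) ∧
    (∀ l ∈ L, ∃ P ∈ Ps, ∀ i < n, l.getD i 0 = app P i) := by
  intro L
  induction L with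
  | nil =>
    intro Ps Qs h
    cases Ps with
    | nil => simp
    | cons P Ps => cases Qs <;> simp [chkGens] at h
  | cons l L ih =>
    intro Ps Qs h
    cases Ps with
    | nil => cases Qs <;> simp [chkGens] at h
    | cons P Ps =>
      cases Qs with
      | nil => simp [chkGens] at h
      | cons Q Qs =>
        rw [chkGens, Bool.and_eq_true, allR_iff] at h
        obtain ⟨h1, h2⟩ := h
        obtain ⟨ih1, ih2⟩ := ih Ps Qs h2
        have h3 : ∀ i < n, app P i < n ∧ l.getD i 0 = app P i ∧ app Q (app P i) = i := by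
          intro i hi
          have := h1 i hi
          rw [Bool.and_eq_true, Bool.and_eq_true, Nat.blt_eq, Nat.beq_eq, Nat.beq_eq] at this
          exact ⟨this.1.1, this.1.2, this.2⟩
        constructor
        · intro P' hP'
          rcases List.mem_cons.mp hP' with rfl | hP'
          · refine ⟨l, List.mem_cons_self, ?_⟩
            let f : Fin n → Fin n := fun i => ⟨app P' i, (h3 i i.2).1⟩
            have hf : Function.Injective f := by
              intro i j hij
              have h4 : app P' i = app P' j := congrArg Fin.val hij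
              apply Fin.ext
              rw [← (h3 i i.2).2.2, ← (h3 j j.2).2.2, h4]
            refine ⟨Equiv.ofBijective f (Finite.injective_iff_bijective.mp hf), fun i => ?_,
              fun i => rfl⟩
            rw [(h3 i i.2).2.1]
            rfl
          · obtain ⟨l', hl', h5⟩ := ih1 P' hP'
            exact ⟨l', List.mem_cons_of_mem _ hl', h5⟩
        · intro l' hl'
          rcases List.mem_cons.mp hl' with rfl | hl'
          · exact ⟨P, List.mem_cons_self, fun i hi => (h3 i hi).2.1⟩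
          · obtain ⟨P', hP', h5⟩ := ih2 l' hl'
            exact ⟨P', List.mem_cons_of_mem _ hP', h5⟩

theorem gens_inG {n : ℕ} {L : List (List ℕ)} {Ps Qs : List ℕ} (h : chkGens n L Ps Qs = true) :
    ∀ P ∈ Ps, InG (genGroup n L) P := by
  intro P hP
  obtain ⟨l, hl, g, hg, hgi⟩ := (chkGens_spec L Ps Qs h).1 P hP
  exact ⟨g, Subgroup.subset_closure ⟨l, hl, hg⟩, hgi⟩

theorem gens_code {n : ℕ} {L : List (List ℕ)} {Ps Qs : List ℕ} (h : chkGens n L Ps Qs = true) :
    ∀ g ∈ {g : Perm (Fin n) | ∃ l ∈ L, ∀ i : Fin n, ((g i : Fin n) : ℕ) = l.getD i 0},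
      ∃ P ∈ Ps, ∀ i : Fin n, ((g i : Fin n) : ℕ) = app P i := by
  rintro g ⟨l, hl, hg⟩
  obtain ⟨P, hP, hPi⟩ := (chkGens_spec L Ps Qs h).2 l hl
  exact ⟨P, hP, fun i => by rw [hg, hPi i i.2]⟩

/-- all checks for the straight line program in one -/
def chkSlp (n : ℕ) (L : List (List ℕ)) (Ps Qs : List ℕ) (steps : List (ℕ × List ℕ)) : Bool :=
  (chkGens n L Ps Qs) && (slp n steps Ps) && (idx steps Ps.length)

theorem chkSlp_inG {n : ℕ} {L : List (List ℕ)} {Ps Qs : List ℕ} {steps : List (ℕ × List ℕ)}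
    (h : chkSlp n L Ps Qs steps = true) : ∀ P ∈ Ps ++ steps.map Prod.fst, InG (genGroup n L) P := by
  unfold chkSlp at h
  rw [Bool.and_eq_true, Bool.and_eq_true] at h
  have h1 := gens_inG h.1.1
  intro P hP
  rcases List.mem_append.mp hP with hP | hP
  · exact h1 P hP
  · obtain ⟨s, hs, rfl⟩ := List.mem_map.mp hP
    exact slp_inG steps Ps h1 h.1.2 h.2 s hs

/-- transitivity check with elements mapping `j` to the base point `i` -/
def trchk' (Qs : List ℕ) (n t : ℕ) : Bool :=
  allR (fun i => allR (fun j => (Nat.ble j i) ||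
    (anyL (fun Q => (Nat.beq (app Q j) i) &&
      (allR (fun k => Nat.beq (app Q k) k) i)) Qs)) n) t

theorem trans_of_chk' {n : ℕ} {G : Subgroup (Perm (Fin n))} {t : ℕ} (htn : t ≤ n)
    {Qs : List ℕ} (hQs : ∀ Q ∈ Qs, InG G Q) (h : trchk' Qs n t = true) : TTransitive G t := by
  apply trans_of_base htn
  intro i hi j hij
  unfold trchk' at h
  rw [allR_iff] at h
  have h1 := h i hi
  rw [allR_iff] at h1
  have h2 := h1 j j.2
  rw [Bool.or_eq_true] at h2
  rcases h2 with h2 | h2
  · rw [Nat.ble_eq] at h2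
    have hji : j = i := le_antisymm h2 hij
    exact ⟨1, G.one_mem, by rw [hji]; rfl, fun k _ => rfl⟩
  rw [anyL_iff] at h2
  obtain ⟨Q, hQ, h3⟩ := h2
  rw [Bool.and_eq_true, Nat.beq_eq, allR_iff] at h3
  obtain ⟨g, hg, hgi⟩ := hQs Q hQ
  have hgj : g j = i := Fin.ext (by rw [hgi, h3.1])
  refine ⟨g⁻¹, G.inv_mem hg, by rw [Perm.inv_eq_iff_eq, hgj], fun k hk => ?_⟩
  rw [Perm.inv_eq_iff_eq]
  have := h3.2 k hk
  rw [Nat.beq_eq] at this
  exact (Fin.ext (by rw [hgi, this])).symm

/-- checks for a Steiner system given as a tree of masks: sizes, closedness, and a `t`-set which is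
in exactly one block -/
def chkFam (n k : ℕ) (Ps : List ℕ) (T : BT) (T0 B0 : ℕ) : Bool :=
  (T.all (fun m => Nat.beq (pop m n) k)) &&
  (allL (fun P => T.all (fun m => T.mem (img P m n))) Ps) &&
  (T.mem B0) && (Nat.beq (Nat.land B0 T0) T0) &&
  (T.all (fun m => (Nat.beq m B0) || !(Nat.beq (Nat.land m T0) T0)))

theorem subset_toSet {n T m : ℕ} (hT : T < 2 ^ n) : toSet n T ⊆ toSet n m ↔ Nat.land m T = T := by
  constructor
  · intro h
    apply Nat.eq_of_testBit_eq
    intro i
    have e1 : Nat.testBit (Nat.land m T) i = (Nat.testBit m i && Nat.testBit T i) :=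
      Nat.testBit_and _ _ _
    rw [e1]
    cases h1 : Nat.testBit T i with
    | false => simp
    | true =>
      have hi : i < n := by
        by_contra hcon
        push Not at hcon
        have := Nat.testBit_lt_two_pow (lt_of_lt_of_le hT (Nat.pow_le_pow_right (by norm_num) hcon))
        rw [h1] at this
        exact absurd this (by simp)
      have := h (mem_toSet.mpr (show Nat.testBit T ((⟨i, hi⟩ : Fin n) : ℕ) = true from h1))
      rw [mem_toSet] at this
      change Nat.testBit m i = true at this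
      rw [this]; rfl
  · intro h i hi
    rw [mem_toSet] at hi ⊢
    rw [← h] at hi
    have e1 : Nat.testBit (Nat.land m T) i = (Nat.testBit m i && Nat.testBit T i) :=
      Nat.testBit_and _ _ _
    rw [e1, Bool.and_eq_true] at hi
    exact hi.1

theorem steiner_of_chk {n t k : ℕ} {L : List (List ℕ)} {Ps Qs : List ℕ}
    (htr : TTransitive (genGroup n L) t) (hgen : chkGens n L Ps Qs = true) {T : BT} {T0 B0 : ℕ}
    (h : chkFam n k Ps T T0 B0 = true) (hT0 : T0 < 2 ^ n) (hT0t : pop T0 n = t) :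
    IsSteiner t k (T.fam n) ∧
      ∀ g ∈ genGroup n L, ∀ B ∈ T.fam n, B.map g.toEmbedding ∈ T.fam n := by
  unfold chkFam at h
  simp only [Bool.and_eq_true] at h
  obtain ⟨⟨⟨⟨h1, h2⟩, h3⟩, h4⟩, h5⟩ := h
  have hinv := BT.fam_inv (gens_code hgen) h2
  refine ⟨steiner_of_fam htr ?_ hinv (toSet n T0) (by rw [card_toSet, hT0t]) ?_, hinv⟩
  · rintro _ ⟨m, hm, rfl⟩
    rw [card_toSet]
    have h6 := BT.all_mem (p := fun m => Nat.beq (pop m n) k) T h1 hm
    rw [Nat.beq_eq] at h6
    exact h6
  · refine ⟨toSet n B0, ⟨⟨B0, h3, rfl⟩, ?_⟩, ?_⟩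
    · rw [subset_toSet hT0]
      rw [Nat.beq_eq] at h4
      exact h4
    · rintro _ ⟨⟨m, hm, rfl⟩, hsub⟩
      have h6 := BT.all_mem
        (p := fun m => (Nat.beq m B0) || !(Nat.beq (Nat.land m T0) T0)) T h5 hm
      rw [Bool.or_eq_true] at h6
      rcases h6 with h6 | h6
      · rw [Nat.beq_eq] at h6
        rw [h6]
      · exfalso
        rw [subset_toSet hT0] at hsub
        rw [hsub] at h6
        simp at h6

theorem not_steiner_of_chk {n t k : ℕ} {L : List (List ℕ)} {Ps Qs : List ℕ}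
    (htr : TTransitive (genGroup n L) t) (hgen : chkGens n L Ps Qs = true) {T : BT} {T0 B0 : ℕ}
    (h : chkFam n k Ps T T0 B0 = true) (hT0 : T0 < 2 ^ n) (hT0t : pop T0 n = t) (htk : t < k)
    (hkn : k < n) : ¬ TSteinerPrimitive (genGroup n L) t := by
  intro hst
  obtain ⟨h1, h2⟩ := steiner_of_chk htr hgen h hT0 hT0t
  exact hst ⟨k, T.fam n, htk, by rw [Nat.card_eq_fintype_card, Fintype.card_fin]; exact hkn, h1, h2⟩

theorem not_steiner_mono {X : Type*} {G H : Subgroup (Perm X)} {t : ℕ} (hGH : G ≤ H)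
    (h : ¬ TSteinerPrimitive H t) : ¬ TSteinerPrimitive G t := by
  intro hG
  apply h
  rintro ⟨k, 𝓑, h1, h2, h3, h4⟩
  exact hG ⟨k, 𝓑, h1, h2, h3, fun g hg => h4 g (hGH hg)⟩

end Pool.Agent.H922
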