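import Mathlib
import Pool.Agent.H922.Transp

set_option autoImplicit false
set_option linter.style.haveILetI false
set_option linter.unusedVariables false
set_option linter.unusedSectionVars false

/-!
# Invariant equivalence relations on `t`-sets in `(t+1)`-transitive groups
-/

namespace Pool.Agent.H922

open Equiv MulAction

variable {X : Type*} {G : Subgroup (Perm X)}

/-- In a `(t+1)`-transitive group a class of a nontrivial invariant equivalence relation on
`t`-sets is a Steiner system `S(s+1, t, n)` with `s + 2 ≤ t`. -/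
theorem class_steiner [DecidableEq X] [Finite X] {t : ℕ} (ht : 1 ≤ t)
    (htr : TTransitive G (t + 1))
    (r : Finset X → Finset X → Prop) (h1 : ∀ S, S.card = t → r S S)
    (h2 : ∀ S T, S.card = t → T.card = t → r S T → r T S)
    (h3 : ∀ S T U, S.card = t → T.card = t → U.card = t → r S T → r T U → r S U)
    (h4 : ∀ g ∈ G, ∀ S T, S.card = t → T.card = t → r S T →
      r (S.map g.toEmbedding) (T.map g.toEmbedding))
    (hnt : ∃ S T, S.card = t ∧ T.card = t ∧ r S T ∧ S ≠ T)
    (hnu : ∃ S T, S.card = t ∧ T.card = t ∧ ¬ r S T)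
    (S0 : Finset X) (hS0 : S0.card = t) :
    ∃ s, s + 2 ≤ t ∧ IsSteiner (s + 1) t {S | S.card = t ∧ r S0 S} := by
  classical
  haveI := Fintype.ofFinite X
  have htr' : TTransitive G t := tTransitive_of_le (by omega) htr
  have hprim : TPrimitive G t := tPrimitive_of_succ_trans htr
  -- distinct related sets meet in at most `t - 2` points
  have hmeet : ∀ S T, S.card = t → T.card = t → r S T → S ≠ T → (S ∩ T).card + 2 ≤ t := by
    intro S T hS hT hr hne
    by_contra hcon
    have hlt : (S ∩ T).card < t := by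
      rw [← hS]
      apply Finset.card_lt_card
      refine ⟨Finset.inter_subset_left, fun h => hne ?_⟩
      apply Finset.eq_of_subset_of_card_le (fun x hx => (Finset.mem_inter.mp (h hx)).2)
      rw [hS, hT]
    have := universal_of_meet ht htr'.1 htr'.2 hprim r h1 h2 h3 h4 S T hS hT hne hr (by omega)
    obtain ⟨U, V, hU, hV, hUV⟩ := hnu
    exact hUV (this U V hU hV)
  -- moving `t`-sets with subsets and one more point
  have move : ∀ (S S1 : Finset X), S.card = t → S1.card = t → ∀ R ⊆ S, ∀ R1 ⊆ S1,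
      R.card = R1.card → ∀ z ∉ S, ∀ z1 ∉ S1, ∃ g ∈ G, S.map g.toEmbedding = S1 ∧
      R.map g.toEmbedding = R1 ∧ g z = z1 := by
    intro S S1 hS hS1 R hR R1 hR1 hcard z hz z1 hz1
    have e1 : Nonempty (R ≃ R1) := by
      rw [← Fintype.card_eq, Fintype.card_coe, Fintype.card_coe, hcard]
    have e2 : Nonempty ((S \ R : Finset X) ≃ (S1 \ R1 : Finset X)) := by
      rw [← Fintype.card_eq, Fintype.card_coe, Fintype.card_coe, Finset.card_sdiff_of_subset hR,
        Finset.card_sdiff_of_subset hR1, hcard, hS, hS1]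
    obtain ⟨e1⟩ := e1
    obtain ⟨e2⟩ := e2
    let f : X → X := fun x => if h : x ∈ R then e1 ⟨x, h⟩ else
      if h' : x ∈ S \ R then e2 ⟨x, h'⟩ else z1
    have f1 : ∀ x (h : x ∈ R), f x = e1 ⟨x, h⟩ := fun x h => by simp only [f, dif_pos h]
    have f2 : ∀ x (h : x ∉ R) (h' : x ∈ S \ R), f x = e2 ⟨x, h'⟩ := fun x h h' => by
      simp only [f]; rw [dif_neg h, dif_pos h']
    have f3 : f z = z1 := by
      simp only [f]
      rw [dif_neg (fun h => hz (hR h)), dif_neg (fun h => hz (Finset.mem_sdiff.mp h).1)]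
    have fS : ∀ x ∈ S, f x ∈ S1 := by
      intro x hx
      by_cases hxR : x ∈ R
      · rw [f1 x hxR]; exact hR1 (e1 _).2
      · rw [f2 x hxR (Finset.mem_sdiff.mpr ⟨hx, hxR⟩)]
        exact (Finset.mem_sdiff.mp (e2 _).2).1
    obtain ⟨g, hg, hgf⟩ := exists_agree htr.1 htr.2 (insert z S)
      (by rw [Finset.card_insert_of_notMem hz, hS]) f (by
        intro x hx y hy hxy
        rw [Finset.coe_insert, Set.mem_insert_iff, Finset.mem_coe] at hx hy
        rcases hx with rfl | hx <;> rcases hy with rfl | hy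
        · rfl
        · rw [f3] at hxy
          exact absurd (hxy ▸ fS y hy) hz1
        · rw [f3] at hxy
          exact absurd (hxy ▸ fS x hx) hz1
        · by_cases hxR : x ∈ R <;> by_cases hyR : y ∈ R
          · rw [f1 x hxR, f1 y hyR] at hxy
            exact congrArg Subtype.val (e1.injective (Subtype.ext hxy))
          · rw [f1 x hxR, f2 y hyR (Finset.mem_sdiff.mpr ⟨hy, hyR⟩)] at hxy
            exfalso
            have h6 := (e2 ⟨y, Finset.mem_sdiff.mpr ⟨hy, hyR⟩⟩).2
            rw [← hxy] at h6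
            exact (Finset.mem_sdiff.mp h6).2 (e1 _).2
          · rw [f1 y hyR, f2 x hxR (Finset.mem_sdiff.mpr ⟨hx, hxR⟩)] at hxy
            exfalso
            have h6 := (e2 ⟨x, Finset.mem_sdiff.mpr ⟨hx, hxR⟩⟩).2
            rw [hxy] at h6
            exact (Finset.mem_sdiff.mp h6).2 (e1 _).2
          · rw [f2 x hxR (Finset.mem_sdiff.mpr ⟨hx, hxR⟩),
              f2 y hyR (Finset.mem_sdiff.mpr ⟨hy, hyR⟩)] at hxy
            exact congrArg Subtype.val (e2.injective (Subtype.ext hxy)))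
    refine ⟨g, hg, ?_, ?_, ?_⟩
    · apply Finset.eq_of_subset_of_card_le
      · intro y hy
        obtain ⟨x, hx, rfl⟩ := Finset.mem_map.mp hy
        change g x ∈ S1
        rw [hgf x (Finset.mem_insert_of_mem hx)]
        exact fS x hx
      · rw [Finset.card_map, hS, hS1]
    · apply Finset.eq_of_subset_of_card_le
      · intro y hy
        obtain ⟨x, hx, rfl⟩ := Finset.mem_map.mp hy
        change g x ∈ R1
        rw [hgf x (Finset.mem_insert_of_mem (hR hx)), f1 x hx]
        exact (e1 _).2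
      · rw [Finset.card_map, hcard]
    · rw [hgf z (Finset.mem_insert_self _ _), f3]
  -- the maximal intersection
  obtain ⟨A, B, hA, hB, hAB, hAneB⟩ := hnt
  let P : ℕ → Prop := fun m => ∃ S T, S.card = t ∧ T.card = t ∧ r S T ∧ S ≠ T ∧ (S ∩ T).card = m
  have hP : ∃ m, P m := ⟨_, A, B, hA, hB, hAB, hAneB, rfl⟩
  have hbd : ∀ m, P m → m + 2 ≤ t := by
    rintro m ⟨S, T, hS, hT, hr, hne, rfl⟩
    exact hmeet S T hS hT hr hne
  obtain ⟨s, hs, hmax⟩ : ∃ s, P s ∧ ∀ m, P m → m ≤ s := by
    obtain ⟨m0, hm0⟩ := hP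
    have hfin : {m | P m}.Finite := (Set.finite_le_nat t).subset (fun m hm => by
      have := hbd m hm
      change m ≤ t
      omega)
    obtain ⟨s, hs, hmax⟩ := Set.exists_max_image {m | P m} id hfin ⟨m0, hm0⟩
    exact ⟨s, hs, fun m hm => hmax m hm⟩
  have hst := hbd s hs
  obtain ⟨S, S', hS, hS', hSS', hne, hcard⟩ := hs
  refine ⟨s, hst, fun B hB => hB.1, ?_⟩
  obtain ⟨z, hz⟩ : (S' \ S).Nonempty := by
    rw [Finset.sdiff_nonempty]
    intro h
    apply hne
    symm
    exact Finset.eq_of_subset_of_card_le h (by rw [hS, hS'])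
  rw [Finset.mem_sdiff] at hz
  -- extension property
  have hext : ∀ S1, S1.card = t → r S0 S1 → ∀ R1 ⊆ S1, R1.card = s → ∀ z1 ∉ S1,
      ∃ S2, S2.card = t ∧ r S0 S2 ∧ R1 ⊆ S2 ∧ z1 ∈ S2 := by
    intro S1 hS1 hr1 R1 hR1 hR1c z1 hz1
    obtain ⟨g, hg, g1, g2, g3⟩ := move S S1 hS hS1 (S ∩ S') Finset.inter_subset_left R1 hR1
      (by rw [hcard, hR1c]) z hz.2 z1 hz1
    refine ⟨S'.map g.toEmbedding, by rw [Finset.card_map, hS'], ?_, ?_, ?_⟩
    · have := h4 g hg S S' hS hS' hSS'
      rw [g1] at this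
      exact h3 _ _ _ hS0 hS1 (by rw [Finset.card_map, hS']) hr1 this
    · rw [← g2]
      exact Finset.map_subset_map.mpr Finset.inter_subset_right
    · rw [← g3]
      exact mem_map_perm.mpr hz.1
  intro U hU
  -- a member with maximal intersection with `U`
  obtain ⟨T, hT, hTmax⟩ : ∃ T, (T.card = t ∧ r S0 T) ∧
      ∀ T', (T'.card = t ∧ r S0 T') → (T' ∩ U).card ≤ (T ∩ U).card := by
    have hfin : {T : Finset X | T.card = t ∧ r S0 T}.Finite := Set.toFinite _
    obtain ⟨T, hT, hTm⟩ := Set.exists_max_image {T : Finset X | T.card = t ∧ r S0 T}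
      (fun T => (T ∩ U).card) hfin ⟨S0, hS0, h1 S0 hS0⟩
    exact ⟨T, hT, fun T' hT' => hTm T' hT'⟩
  have hUT : U ⊆ T := by
    by_contra hcon
    obtain ⟨u, hu, huT⟩ := Finset.not_subset.mp hcon
    have hlt : (T ∩ U).card < s + 1 := by
      rw [← hU]
      apply Finset.card_lt_card
      refine ⟨Finset.inter_subset_right, fun h => huT (Finset.mem_inter.mp (h hu)).1⟩
    obtain ⟨R1, hR1, hR1T, hR1c⟩ := Finset.exists_subsuperset_card_eq
      (Finset.inter_subset_left : T ∩ U ⊆ T) (Nat.lt_succ_iff.mp hlt) (by rw [hT.1]; omega)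
    obtain ⟨T2, hT2, hrT2, hR1T2, huT2⟩ := hext T hT.1 hT.2 R1 hR1T hR1c u huT
    have h5 := hTmax T2 ⟨hT2, hrT2⟩
    have h6 : insert u (T ∩ U) ⊆ T2 ∩ U := by
      intro x hx
      rcases Finset.mem_insert.mp hx with rfl | hx
      · exact Finset.mem_inter.mpr ⟨huT2, hu⟩
      · exact Finset.mem_inter.mpr ⟨hR1T2 (hR1 hx), (Finset.mem_inter.mp hx).2⟩
    have h7 := Finset.card_le_card h6
    rw [Finset.card_insert_of_notMem (fun h => huT (Finset.mem_inter.mp h).1)] at h7
    omega
  refine ⟨T, ⟨hT, hUT⟩, ?_⟩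
  rintro T' ⟨hT', hUT'⟩
  by_contra hne'
  have h5 := hmax (T' ∩ T).card ⟨T', T, hT'.1, hT.1,
    h3 _ _ _ hT'.1 hS0 hT.1 (h2 _ _ hS0 hT'.1 hT'.2) hT.2, hne', rfl⟩
  have h6 : U ⊆ T' ∩ T := Finset.subset_inter hUT' hUT
  have h7 := Finset.card_le_card h6
  omega

/-- divisibility conditions for Steiner systems -/
theorem IsSteiner.dvd [DecidableEq X] [Finite X] {t k : ℕ} {𝓑 : Set (Finset X)}
    (h : IsSteiner t k 𝓑) {i : ℕ} (hi : i ≤ t) (hn : t ≤ Nat.card X) :
    (k - i).choose (t - i) ∣ (Nat.card X - i).choose (t - i) := by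
  classical
  haveI := Fintype.ofFinite X
  rw [Nat.card_eq_fintype_card] at hn ⊢
  obtain ⟨R, -, hR⟩ := Finset.exists_subset_card_eq (s := (Finset.univ : Finset X)) (n := i)
    (by rw [Finset.card_univ]; omega)
  -- count `t`-sets containing `R` inside a set `B`
  have count : ∀ B : Finset X, R ⊆ B →
      ((B.powersetCard t).filter (fun T => R ⊆ T)).card = (B.card - i).choose (t - i) := by
    intro B hRB
    rw [← hR, ← Finset.card_sdiff_of_subset hRB, ← Finset.card_powersetCard]
    apply Finset.card_bij' (fun T _ => T \ R) (fun T _ => T ∪ R)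
    · intro T hT
      rw [Finset.mem_filter, Finset.mem_powersetCard] at hT
      rw [Finset.mem_powersetCard]
      refine ⟨Finset.sdiff_subset_sdiff hT.1.1 (Finset.Subset.refl R), ?_⟩
      rw [Finset.card_sdiff_of_subset hT.2, hT.1.2]
    · intro T hT
      rw [Finset.mem_powersetCard] at hT
      rw [Finset.mem_filter, Finset.mem_powersetCard]
      refine ⟨⟨Finset.union_subset (hT.1.trans Finset.sdiff_subset) hRB, ?_⟩,
        Finset.subset_union_right⟩
      rw [Finset.card_union_of_disjoint, hT.2, hR]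
      · omega
      · rw [Finset.disjoint_left]
        intro x hx hxR
        exact (Finset.mem_sdiff.mp (hT.1 hx)).2 hxR
    · intro T hT
      rw [Finset.mem_filter, Finset.mem_powersetCard] at hT
      exact Finset.sdiff_union_of_subset hT.2
    · intro T hT
      rw [Finset.mem_powersetCard] at hT
      ext x
      simp only [Finset.mem_sdiff, Finset.mem_union]
      constructor
      · rintro ⟨h5 | h5, h6⟩
        · exact h5
        · exact absurd h5 h6
      · intro h5
        exact ⟨Or.inl h5, (Finset.mem_sdiff.mp (hT.1 h5)).2⟩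
  rw [← Finset.card_univ, ← count Finset.univ (Finset.subset_univ _)]
  choose! f hf huniq using fun T hT => h.2 T hT
  rw [Finset.card_eq_sum_card_fiberwise (f := f)
    (t := (((Finset.univ : Finset X).powersetCard t).filter (fun T => R ⊆ T)).image f)
    (fun x hx => Finset.mem_image_of_mem _ hx)]
  apply Finset.dvd_sum
  intro B hB
  obtain ⟨T0, hT0, rfl⟩ := Finset.mem_image.mp hB
  rw [Finset.mem_filter, Finset.mem_powersetCard] at hT0
  have hf0 := hf T0 hT0.1.2
  have hkB := h.1 _ hf0.1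
  rw [← hkB, ← count (f T0) (hT0.2.trans hf0.2)]
  apply dvd_of_eq
  congr 1
  ext T
  simp only [Finset.mem_filter, Finset.mem_powersetCard]
  constructor
  · rintro ⟨⟨h5, h6⟩, h7⟩
    refine ⟨⟨⟨Finset.subset_univ _, h6⟩, h7⟩, ?_⟩
    exact (huniq T h6 _ ⟨hf0.1, h5⟩).symm
  · rintro ⟨⟨⟨-, h6⟩, h7⟩, h8⟩
    refine ⟨⟨?_, h6⟩, h7⟩
    rw [← h8]
    exact (hf T h6).2

end Pool.Agent.H922
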