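import Mathlib
import Pool.Agent.H922.Cls

set_option autoImplicit false
set_option linter.style.haveILetI false
set_option linter.unusedVariables false
set_option linter.unusedSectionVars false

/-!
# Criteria for 2-set primitivity
-/

namespace Pool.Agent.H922

open Equiv MulAction

variable {X : Type*} {G : Subgroup (Perm X)}

theorem homog_of_trans [DecidableEq X] [Finite X] {t : ℕ} (htr : TTransitive G t)
    (S T : Finset X) (hS : S.card = t) (hT : T.card = t) :
    ∃ g ∈ G, S.map g.toEmbedding = T := by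
  classical
  obtain ⟨e⟩ : Nonempty (S ≃ T) := by
    rw [← Fintype.card_eq, Fintype.card_coe, Fintype.card_coe, hS, hT]
  obtain ⟨g, hg, hgf⟩ := exists_agree htr.1 htr.2 S (by rw [hS])
    (fun x => if h : x ∈ S then (e ⟨x, h⟩ : X) else x) (by
      intro x hx y hy hxy
      simp only at hxy
      rw [dif_pos (Finset.mem_coe.mp hx), dif_pos (Finset.mem_coe.mp hy)] at hxy
      exact congrArg Subtype.val (e.injective (Subtype.ext hxy)))
  refine ⟨g, hg, ?_⟩
  apply Finset.eq_of_subset_of_card_le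
  · intro y hy
    obtain ⟨x, hx, rfl⟩ := Finset.mem_map.mp hy
    change g x ∈ T
    rw [hgf x hx, dif_pos hx]
    exact (e ⟨x, hx⟩).2
  · rw [Finset.card_map, hS, hT]

/-- an invariant equivalence relation on the `t`-sets -/
structure InvRel [DecidableEq X] (G : Subgroup (Perm X)) (t : ℕ)
    (r : Finset X → Finset X → Prop) : Prop where
  refl : ∀ S, S.card = t → r S S
  symm : ∀ S T, S.card = t → T.card = t → r S T → r T S
  trans : ∀ S T U, S.card = t → T.card = t → U.card = t → r S T → r T U → r S U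
  inv : ∀ g ∈ G, ∀ S T, S.card = t → T.card = t → r S T →
    r (S.map g.toEmbedding) (T.map g.toEmbedding)

theorem map_pair [DecidableEq X] (g : Perm X) (x y : X) :
    ({x, y} : Finset X).map g.toEmbedding = {g x, g y} := by
  ext z
  simp [Finset.mem_map]

/-- 2-set primitivity of 2-primitive groups: it suffices to exclude relations with
`{x,y} ∼ {z,w}`, for four distinct points, `x` and `y` fixed -/
theorem tSetPrimitive_two [DecidableEq X] [Finite X] (htr : TTransitive G 2)
    (hprim : TPrimitive G 2) (x y : X) (hxy : x ≠ y)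
    (h : ∀ z w, z ≠ x → z ≠ y → w ≠ x → w ≠ y → z ≠ w → ∀ r, InvRel G 2 r →
      r {x, y} {z, w} → ∃ a b c, a ≠ b ∧ a ≠ c ∧ b ≠ c ∧ r {a, b} {a, c}) :
    TSetPrimitive G 2 := by
  rw [tSetPrimitive_iff]
  refine ⟨homog_of_trans htr, ?_⟩
  intro r r1 r2 r3 r4
  by_cases htriv : ∀ S T, S.card = 2 → T.card = 2 → r S T → S = T
  · exact Or.inl htriv
  right
  push Not at htriv
  obtain ⟨S, T, hS, hT, hST, hne⟩ := htriv
  have meet : ∀ a b c, a ≠ b → a ≠ c → b ≠ c → r {a, b} {a, c} →
      ∀ S T, S.card = 2 → T.card = 2 → r S T := by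
    intro a b c hab hac hbc hr
    apply universal_of_meet (by norm_num) htr.1 htr.2 hprim r r1 r2 r3 r4 {a, b} {a, c}
      (Finset.card_pair hab) (Finset.card_pair hac) ?_ hr ?_
    · intro h5
      have : b ∈ ({a, c} : Finset X) := by rw [← h5]; simp
      simp only [Finset.mem_insert, Finset.mem_singleton] at this
      rcases this with h6 | h6
      · exact hab h6.symm
      · exact hbc h6
    · have : ({a, b} : Finset X) ∩ {a, c} = {a} := by
        ext u
        simp only [Finset.mem_inter, Finset.mem_insert, Finset.mem_singleton]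
        constructor
        · rintro ⟨h5 | h5, h6 | h6⟩
          · exact h5
          · exact h5
          · exact h6
          · exact absurd (h5.symm.trans h6) hbc
        · intro h5
          exact ⟨Or.inl h5, Or.inl h5⟩
      rw [this, Finset.card_singleton]
  obtain ⟨g, hg, hgS⟩ := homog_of_trans htr S {x, y} hS (Finset.card_pair hxy)
  have hr := r4 g hg S T hS hT hST
  rw [hgS] at hr
  have hT' : (T.map g.toEmbedding).card = 2 := by rw [Finset.card_map, hT]
  have hne' : T.map g.toEmbedding ≠ {x, y} := by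
    rw [← hgS]
    intro h5
    exact hne (Finset.map_injective _ h5).symm
  obtain ⟨z, w, hzw, hzwT⟩ := Finset.card_eq_two.mp hT'
  rw [hzwT] at hr hne'
  by_cases hmeet : z ≠ x ∧ z ≠ y ∧ w ≠ x ∧ w ≠ y
  · obtain ⟨h1, h2, h3, h4⟩ := hmeet
    obtain ⟨a, b, c, hab, hac, hbc, hr'⟩ := h z w h1 h2 h3 h4 hzw r ⟨r1, r2, r3, r4⟩ hr
    exact meet a b c hab hac hbc hr'
  · -- the pairs meet
    have hsw : ∀ a b : X, ({a, b} : Finset X) = {b, a} := fun a b => Finset.pair_comm a b
    by_cases h1 : z = x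
    · subst h1
      exact meet z y w hxy hzw (fun h => hne' (by rw [h])) hr
    by_cases h2 : z = y
    · subst h2
      rw [hsw x z] at hr
      exact meet z x w (Ne.symm hxy) hzw (fun h => hne' (by rw [← h, hsw])) hr
    by_cases h3 : w = x
    · subst h3
      rw [hsw z w] at hr
      exact meet w y z hxy (Ne.symm hzw) (fun h => h2 h.symm) hr
    by_cases h4 : w = y
    · subst h4
      rw [hsw z w, hsw x w] at hr
      exact meet w x z (Ne.symm hxy) (Ne.symm hzw) (fun h => h1 h.symm) hr
    exact absurd ⟨h1, h2, h3, h4⟩ hmeet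

/-- the criterion with fixed points -/
theorem tSetPrimitive_two_of_fix [DecidableEq X] [Finite X] (htr : TTransitive G 2)
    (hprim : TPrimitive G 2) (x y : X) (hxy : x ≠ y)
    (h : ∀ z w, z ≠ x → z ≠ y → w ≠ x → w ≠ y → z ≠ w →
      ∃ g ∈ G, g x = x ∧ g y = y ∧ g z = z ∧ g w ≠ w) :
    TSetPrimitive G 2 := by
  apply tSetPrimitive_two htr hprim x y hxy
  intro z w h1 h2 h3 h4 hzw r hr hr1
  obtain ⟨g, hg, e1, e2, e3, e4⟩ := h z w h1 h2 h3 h4 hzw
  have h5 := hr.inv g hg _ _ (Finset.card_pair hxy) (Finset.card_pair hzw) hr1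
  rw [map_pair, map_pair, e1, e2, e3] at h5
  have hzgw : z ≠ g w := by
    intro h6
    rw [← e3] at h6
    exact hzw (g.injective h6)
  refine ⟨z, w, g w, hzw, hzgw, Ne.symm e4, ?_⟩
  exact hr.trans _ _ _ (Finset.card_pair hzw) (Finset.card_pair hxy) (Finset.card_pair hzgw)
    (hr.symm _ _ (Finset.card_pair hxy) (Finset.card_pair hzw) hr1) h5

/-- the criterion for 3-transitive groups -/
theorem tSetPrimitive_two_of_three [DecidableEq X] [Finite X] (htr : TTransitive G 3)
    (x y z : X) (hxy : x ≠ y) (hxz : x ≠ z) (hyz : y ≠ z)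
    (h : ∀ w, w ≠ x → w ≠ y → w ≠ z → ∃ g ∈ G, g x = x ∧ g y = y ∧ g z = z ∧ g w ≠ w) :
    TSetPrimitive G 2 := by
  apply tSetPrimitive_two_of_fix (tTransitive_of_le (by norm_num) htr)
    (tPrimitive_of_succ_trans htr) x y hxy
  intro z' w h1 h2 h3 h4 hzw
  obtain ⟨k, hk, hki⟩ := (multTrans_iff G 3).mp htr.2 ![x, y, z] ![x, y, z']
    (by intro i j hij; fin_cases i <;> fin_cases j <;> simp_all)
    (by
      intro i j hij
      have h1' := Ne.symm h1
      have h2' := Ne.symm h2
      fin_cases i <;> fin_cases j <;> simp_all)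
  have k1 : k x = x := hki 0
  have k2 : k y = y := hki 1
  have k3 : k z = z' := hki 2
  have hinv : ∀ u v, k u = v → k⁻¹ v = u := by
    intro u v huv
    rw [Perm.inv_eq_iff_eq, huv]
  obtain ⟨g, hg, e1, e2, e3, e4⟩ := h (k⁻¹ w)
    (fun h => h3 (by rw [Perm.inv_eq_iff_eq, k1] at h; exact h))
    (fun h => h4 (by rw [Perm.inv_eq_iff_eq, k2] at h; exact h))
    (fun h => hzw (by rw [Perm.inv_eq_iff_eq, k3] at h; exact h.symm))
  refine ⟨k * g * k⁻¹, G.mul_mem (G.mul_mem hk hg) (G.inv_mem hk), ?_, ?_, ?_, ?_⟩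
  · rw [Perm.mul_apply, Perm.mul_apply, hinv _ _ k1, e1, k1]
  · rw [Perm.mul_apply, Perm.mul_apply, hinv _ _ k2, e2, k2]
  · rw [Perm.mul_apply, Perm.mul_apply, hinv _ _ k3, e3, k3]
  · rw [Perm.mul_apply, Perm.mul_apply]
    intro h5
    apply e4
    rw [← hinv _ _ h5]

end Pool.Agent.H922
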