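import Mathlib
import Pool.Agent.H922.Chk2
import Pool.Agent.H922.Pair

set_option autoImplicit false
set_option linter.style.haveILetI false
set_option linter.unusedVariables false
set_option linter.unusedSectionVars false

/-!
# Computation with explicit permutations: masks, saturation, tables
-/

namespace Pool.Agent.H922

open Equiv MulAction

section Masks

variable {n : ℕ}

theorem exists_mask (S : Finset (Fin n)) : ∃ m < 2 ^ n, toSet n m = S := by
  classical
  induction S using Finset.induction_on with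
  | empty => exact ⟨0, by positivity, by ext i; simp [mem_toSet]⟩
  | insert a S ha ih =>
    obtain ⟨m, hm, hS⟩ := ih
    refine ⟨m ||| 2 ^ (a : ℕ), Nat.or_lt_two_pow hm
      (Nat.pow_lt_pow_right (by norm_num) a.2), ?_⟩
    ext i
    rw [mem_toSet, Nat.testBit_or, Nat.testBit_two_pow, Bool.or_eq_true, Finset.mem_insert, ← hS,
      mem_toSet]
    simp only [decide_eq_true_eq]
    constructor
    · rintro (h | h)
      · exact Or.inr h
      · exact Or.inl (Fin.ext h.symm)
    · rintro (h | h)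
      · right; rw [h]
      · exact Or.inl h

theorem toSet_inj {a b : ℕ} (ha : a < 2 ^ n) (hb : b < 2 ^ n) (h : toSet n a = toSet n b) :
    a = b := by
  apply Nat.eq_of_testBit_eq
  intro i
  by_cases hi : i < n
  · have h1 : (⟨i, hi⟩ : Fin n) ∈ toSet n a ↔ (⟨i, hi⟩ : Fin n) ∈ toSet n b := by rw [h]
    rw [mem_toSet, mem_toSet] at h1
    exact Bool.eq_iff_iff.mpr h1
  · push Not at hi
    rw [Nat.testBit_lt_two_pow (lt_of_lt_of_le ha (Nat.pow_le_pow_right (by norm_num) hi)),
      Nat.testBit_lt_two_pow (lt_of_lt_of_le hb (Nat.pow_le_pow_right (by norm_num) hi))]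

theorem toSet_inter {a b : ℕ} : toSet n a ∩ toSet n b = toSet n (Nat.land a b) := by
  ext i
  have e1 : Nat.testBit (Nat.land a b) i = (Nat.testBit a i && Nat.testBit b i) :=
    Nat.testBit_and _ _ _
  rw [Finset.mem_inter, mem_toSet, mem_toSet, mem_toSet, e1, Bool.and_eq_true]

theorem toSet_xor {a b : ℕ} : symmDiff (toSet n a) (toSet n b) = toSet n (Nat.xor a b) := by
  ext i
  have e1 : Nat.testBit (Nat.xor a b) i = (Nat.testBit a i ^^ Nat.testBit b i) :=
    Nat.testBit_xor _ _ _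
  rw [Finset.mem_symmDiff, mem_toSet, mem_toSet, mem_toSet, e1]
  cases Nat.testBit a i <;> cases Nat.testBit b i <;> simp

theorem toSet_ne {a b : ℕ} (ha : a < 2 ^ n) (hb : b < 2 ^ n) (h : a ≠ b) :
    toSet n a ≠ toSet n b := fun h' => h (toSet_inj ha hb h')

theorem InG.image {G : Subgroup (Perm (Fin n))} {P : ℕ} (h : InG G P) :
    ∃ g ∈ G, (∀ i : Fin n, ((g i : Fin n) : ℕ) = app P i) ∧
      ∀ m, (toSet n m).map g.toEmbedding = toSet n (img P m n) := by
  obtain ⟨g, hg, hgi⟩ := h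
  exact ⟨g, hg, hgi, fun m => map_toSet hgi m⟩

theorem InG.img_lt {G : Subgroup (Perm (Fin n))} {P : ℕ} (h : InG G P) (m : ℕ) :
    img P m n < 2 ^ n := by
  obtain ⟨g, hg, hgi⟩ := h
  apply Pool.Agent.H922.img_lt
  intro i hi
  rw [← hgi ⟨i, hi⟩]
  exact (g ⟨i, hi⟩).2

theorem TTransitive.le_of_fin {G : Subgroup (Perm (Fin n))} {t : ℕ} (h : TTransitive G t) :
    t ≤ n := by
  have := h.1
  rwa [Nat.card_eq_fintype_card, Fintype.card_fin] at this

end Masks

section Exc

/-- none of the four types of exceptions -/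
def NoExc {X : Type*} [DecidableEq X] (G : Subgroup (Perm X)) (t : ℕ) : Prop :=
  ¬ ExcA G t ∧ ¬ ExcB G t ∧ ¬ ExcC G t ∧ ¬ ExcD G t

variable {X : Type*} [DecidableEq X] {G : Subgroup (Perm X)} {t : ℕ}

theorem noExc_of_prim (h1 : TPrimitive G t) (h2 : TSetPrimitive G t) : NoExc G t :=
  ⟨fun h => h.2 h2, fun h => h.2 h1, fun h => h.2 h1, fun h => h.2 h2⟩

theorem noExc_of_not_steiner [Finite X] (ht : 1 ≤ t) (h : ¬ TSteinerPrimitive G t) :
    NoExc G t :=
  ⟨fun h' => h (h'.1.steiner ht), fun h' => h (h'.1.steiner ht), fun h' => h h'.1,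
    fun h' => h h'.1⟩

end Exc

section Sat

variable {n : ℕ} {G : Subgroup (Perm (Fin n))}

/-- one pass of saturation of a class containing `x` and `y` -/
def satPass (x y : ℕ) : List ℕ → ℕ → ℕ
  | [], m => m
  | P :: Ps, m =>
    satPass x y Ps (bif (Nat.testBit m (app P x) || Nat.testBit m (app P y)) then
      Nat.lor (Nat.lor m (Nat.shiftLeft 1 (app P x))) (Nat.shiftLeft 1 (app P y)) else m)

/-- several passes -/
def satIter (x y : ℕ) (Ps : List ℕ) : ℕ → ℕ → ℕ
  | 0, m => m
  | k + 1, m => satIter x y Ps k (satPass x y Ps m)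

theorem testBit_or_shift {m a i : ℕ} : Nat.testBit (Nat.lor m (Nat.shiftLeft 1 a)) i = true ↔
    Nat.testBit m i = true ∨ i = a := by
  have e1 : Nat.testBit (Nat.lor m (Nat.shiftLeft 1 a)) i =
      (Nat.testBit m i || Nat.testBit (1 <<< a) i) := Nat.testBit_or _ _ _
  rw [e1, Bool.or_eq_true, Nat.shiftLeft_eq, one_mul, Nat.testBit_two_pow]
  simp only [decide_eq_true_eq]
  constructor
  · rintro (h | h)
    · exact Or.inl h
    · exact Or.inr h.symm
  · rintro (h | h)
    · exact Or.inl h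
    · exact Or.inr h.symm

/-- the members of `m` are points outside `s` in the class of `x` -/
def ClassMask (s : Set (Fin n)) (r : Fin n → Fin n → Prop) (x : Fin n) (m : ℕ) : Prop :=
  ∀ i, Nat.testBit m i = true → ∃ hi : i < n, (⟨i, hi⟩ : Fin n) ∉ s ∧ r x ⟨i, hi⟩

theorem satPass_spec {s : Set (Fin n)} {r : Fin n → Fin n → Prop}
    (h2 : ∀ x, x ∉ s → ∀ y, y ∉ s → r x y → r y x)
    (h3 : ∀ x, x ∉ s → ∀ y, y ∉ s → ∀ z, z ∉ s → r x y → r y z → r x z)
    (h4 : ∀ g ∈ G, (∀ z ∈ s, g z = z) → ∀ x, x ∉ s → ∀ y, y ∉ s → r x y → r (g x) (g y))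
    {x y : Fin n} (hx : x ∉ s) (hy : y ∉ s) (hxy : r x y) (Ps : List ℕ) :
    ∀ m, (∀ P ∈ Ps, ∃ g ∈ G, (∀ z ∈ s, g z = z) ∧ ∀ i : Fin n, ((g i : Fin n) : ℕ) = app P i) →
      ClassMask s r x m → ClassMask s r x (satPass x y Ps m) := by
  induction Ps with
  | nil => intro m _ hm; exact hm
  | cons P Ps ih =>
    intro m hPs hm
    rw [satPass]
    apply ih _ (fun P' hP' => hPs P' (List.mem_cons_of_mem _ hP'))
    obtain ⟨g, hg, hgs, hgi⟩ := hPs P List.mem_cons_self
    have hns : ∀ z, z ∉ s → g z ∉ s := by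
      intro z hz hgz
      have := hgs _ hgz
      rw [g.injective this] at hgz
      exact hz hgz
    have hr := h4 g hg hgs x hx y hy hxy
    have egx : (⟨app P x, by rw [← hgi]; exact (g x).2⟩ : Fin n) = g x :=
      Fin.ext (hgi x).symm
    have egy : (⟨app P y, by rw [← hgi]; exact (g y).2⟩ : Fin n) = g y :=
      Fin.ext (hgi y).symm
    cases hc : (Nat.testBit m (app P x) || Nat.testBit m (app P y)) with
    | false => exact hm
    | true =>
      simp only [cond_true]
      -- both images are in the class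
      have hboth : r x (g x) ∧ r x (g y) := by
        rw [Bool.or_eq_true] at hc
        rcases hc with hc | hc
        · obtain ⟨hi, h5, h6⟩ := hm _ hc
          rw [egx] at h5 h6
          exact ⟨h6, h3 x hx _ (hns x hx) _ (hns y hy) h6 hr⟩
        · obtain ⟨hi, h5, h6⟩ := hm _ hc
          rw [egy] at h5 h6
          exact ⟨h3 x hx _ (hns y hy) _ (hns x hx) h6 (h2 _ (hns x hx) _ (hns y hy) hr), h6⟩
      intro i hi
      rw [testBit_or_shift, testBit_or_shift] at hi
      rcases hi with (hi | rfl) | rfl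
      · exact hm i hi
      · refine ⟨by rw [← hgi]; exact (g x).2, ?_⟩
        rw [egx]
        exact ⟨hns x hx, hboth.1⟩
      · refine ⟨by rw [← hgi]; exact (g y).2, ?_⟩
        rw [egy]
        exact ⟨hns y hy, hboth.2⟩

theorem satIter_spec {s : Set (Fin n)} {r : Fin n → Fin n → Prop}
    (h2 : ∀ x, x ∉ s → ∀ y, y ∉ s → r x y → r y x)
    (h3 : ∀ x, x ∉ s → ∀ y, y ∉ s → ∀ z, z ∉ s → r x y → r y z → r x z)
    (h4 : ∀ g ∈ G, (∀ z ∈ s, g z = z) → ∀ x, x ∉ s → ∀ y, y ∉ s → r x y → r (g x) (g y))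
    {x y : Fin n} (hx : x ∉ s) (hy : y ∉ s) (hxy : r x y) {Ps : List ℕ}
    (hPs : ∀ P ∈ Ps, ∃ g ∈ G, (∀ z ∈ s, g z = z) ∧ ∀ i : Fin n, ((g i : Fin n) : ℕ) = app P i)
    (k : ℕ) : ∀ m, ClassMask s r x m → ClassMask s r x (satIter x y Ps k m) := by
  induction k with
  | zero => intro m hm; exact hm
  | succ k ih =>
    intro m hm
    rw [satIter]
    exact ih _ (satPass_spec h2 h3 h4 hx hy hxy Ps m hPs hm)

/-- primitivity by saturation: `s` has mask `sm`, `x0` a point outside `s`; for all points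
`y` outside `s` the class of `x0` under the relation generated by `(x0, y)` is everything -/
theorem primOff_of_sat (sm x0 : ℕ) (hx0 : x0 < n) (hs0 : Nat.testBit sm x0 = false)
    {Ps : List ℕ} (k : ℕ)
    (hPs : ∀ P ∈ Ps, InG G P)
    (hfix : allL (fun P => allR (fun i => !(Nat.testBit sm i) || (Nat.beq (app P i) i)) n) Ps = true)
    (htr : ∀ y, y ∉ (toSet n sm : Set (Fin n)) → ∃ g ∈ G,
      (∀ z ∈ (toSet n sm : Set (Fin n)), g z = z) ∧ g y = ⟨x0, hx0⟩)
    (hsat : allR (fun y => (Nat.testBit sm y) || (Nat.beq y x0) ||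
      (allR (fun i => (Nat.testBit sm i) || (Nat.testBit (satIter x0 y Ps k
        (Nat.lor (Nat.shiftLeft 1 x0) (Nat.shiftLeft 1 y))) i)) n)) n = true) :
    PrimOff G (toSet n sm : Set (Fin n)) := by
  have hmem : ∀ i : Fin n, i ∈ (toSet n sm : Set (Fin n)) ↔ Nat.testBit sm i = true := by
    intro i
    rw [Finset.mem_coe, mem_toSet]
  have hPs' : ∀ P ∈ Ps, ∃ g ∈ G, (∀ z ∈ (toSet n sm : Set (Fin n)), g z = z) ∧
      ∀ i : Fin n, ((g i : Fin n) : ℕ) = app P i := by
    intro P hP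
    obtain ⟨g, hg, hgi⟩ := hPs P hP
    refine ⟨g, hg, fun z hz => Fin.ext ?_, hgi⟩
    rw [allL_iff] at hfix
    have h1 := hfix P hP
    rw [allR_iff] at h1
    have h2 := h1 z z.2
    rw [(hmem z).mp hz, Bool.not_true, Bool.false_or, Nat.beq_eq] at h2
    rw [hgi, h2]
  constructor
  · intro x hx y hy
    obtain ⟨g, hg, hgs, hgx⟩ := htr x hx
    obtain ⟨k, hk, hks, hky⟩ := htr y hy
    refine ⟨k⁻¹ * g, G.mul_mem (G.inv_mem hk) hg, fun z hz => ?_, ?_⟩
    · rw [Perm.mul_apply, hgs z hz, Perm.inv_eq_iff_eq, hks z hz]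
    · rw [Perm.mul_apply, hgx, Perm.inv_eq_iff_eq, hky]
  · intro r h1 h2 h3 h4
    by_cases htriv : ∀ x, x ∉ (toSet n sm : Set (Fin n)) → ∀ y, y ∉ (toSet n sm : Set (Fin n)) →
        r x y → x = y
    · exact Or.inl htriv
    right
    push Not at htriv
    obtain ⟨x, hx, y, hy, hxy, hne⟩ := htriv
    obtain ⟨g, hg, hgs, hgx⟩ := htr x hx
    have hns : ∀ g ∈ G, (∀ z ∈ (toSet n sm : Set (Fin n)), g z = z) → ∀ z,
        z ∉ (toSet n sm : Set (Fin n)) → g z ∉ (toSet n sm : Set (Fin n)) := by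
      intro g hg hgs z hz hgz
      have := hgs _ hgz
      rw [g.injective this] at hgz
      exact hz hgz
    have hx0' : (⟨x0, hx0⟩ : Fin n) ∉ (toSet n sm : Set (Fin n)) := by
      rw [hmem]
      change ¬ (Nat.testBit sm x0 = true)
      rw [hs0]
      simp
    have hgy := hns g hg hgs y hy
    have hr0 := h4 g hg hgs x hx y hy hxy
    rw [hgx] at hr0
    have hgy0 : ((g y : Fin n) : ℕ) ≠ x0 := by
      intro h5
      have : g y = g x := by rw [hgx]; exact Fin.ext h5
      exact hne (g.injective this).symm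
    rw [allR_iff] at hsat
    have h5 := hsat (g y) (g y).2
    rw [Bool.or_eq_true, Bool.or_eq_true] at h5
    rcases h5 with (h5 | h5) | h5
    · exact absurd ((hmem _).mpr h5) hgy
    · rw [Nat.beq_eq] at h5
      exact absurd h5 hgy0
    rw [allR_iff] at h5
    have hcm := satIter_spec h2 h3 h4 hx0' hgy hr0 hPs' k
      (Nat.lor (Nat.shiftLeft 1 x0) (Nat.shiftLeft 1 (g y))) (by
        intro i hi
        rw [testBit_or_shift] at hi
        rcases hi with hi | rfl
        · have e1 : Nat.testBit (Nat.shiftLeft 1 x0) i = Nat.testBit (1 <<< x0) i := rfl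
          rw [e1, Nat.shiftLeft_eq, one_mul, Nat.testBit_two_pow] at hi
          simp only [decide_eq_true_eq] at hi
          subst hi
          exact ⟨hx0, hx0', h1 _ hx0'⟩
        · exact ⟨(g y).2, hgy, hr0⟩)
    have hall : ∀ z, z ∉ (toSet n sm : Set (Fin n)) → r ⟨x0, hx0⟩ z := by
      intro z hz
      have h6 := h5 z z.2
      rw [Bool.or_eq_true] at h6
      rcases h6 with h6 | h6
      · exact absurd ((hmem _).mpr h6) hz
      · obtain ⟨hi, -, h7⟩ := hcm z h6
        exact h7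
    intro u hu v hv
    exact h3 u hu _ hx0' v hv (h2 _ hx0' u hu (hall u hu)) (hall v hv)

/-- moving the fixed points -/
theorem primOff_map {X : Type*} [Finite X] {G : Subgroup (Perm X)} {g : Perm X} (hg : g ∈ G) {s : Finset X}
    (h : PrimOff G (s : Set X)) : PrimOff G ((s.map g.toEmbedding : Finset X) : Set X) := by
  obtain ⟨h1, h2⟩ := h
  have hmem : ∀ x, g x ∉ ((s.map g.toEmbedding : Finset X) : Set X) ↔ x ∉ (s : Set X) := by
    intro x
    rw [Finset.mem_coe, Finset.mem_coe, mem_map_perm]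
  have hmem' : ∀ z ∈ ((s.map g.toEmbedding : Finset X) : Set X), g⁻¹ z ∈ (s : Set X) := by
    intro z hz
    obtain ⟨x, hx, rfl⟩ := Finset.mem_map.mp (Finset.mem_coe.mp hz)
    change g⁻¹ (g x) ∈ _
    rw [perm_inv_apply]
    exact hx
  have hfix : ∀ k : Perm X, (∀ z ∈ (s : Set X), k z = z) →
      ∀ z ∈ ((s.map g.toEmbedding : Finset X) : Set X), (g * k * g⁻¹) z = z := by
    intro k hk z hz
    rw [Perm.mul_apply, Perm.mul_apply, hk _ (hmem' z hz), perm_apply_inv]
  constructor
  · intro x hx y hy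
    obtain ⟨x, rfl⟩ := g.surjective x
    obtain ⟨y, rfl⟩ := g.surjective y
    obtain ⟨k, hk, hks, hkx⟩ := h1 x ((hmem x).mp hx) y ((hmem y).mp hy)
    refine ⟨g * k * g⁻¹, G.mul_mem (G.mul_mem hg hk) (G.inv_mem hg), hfix k hks, ?_⟩
    rw [Perm.mul_apply, Perm.mul_apply, perm_inv_apply, hkx]
  · intro r r1 r2 r3 r4
    rcases h2 (fun x y => r (g x) (g y)) (fun x hx => r1 _ ((hmem x).mpr hx))
      (fun x hx y hy => r2 _ ((hmem x).mpr hx) _ ((hmem y).mpr hy))
      (fun x hx y hy z hz => r3 _ ((hmem x).mpr hx) _ ((hmem y).mpr hy) _ ((hmem z).mpr hz))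
      (fun k hk hks x hx y hy hxy => by
        have := r4 (g * k * g⁻¹) (G.mul_mem (G.mul_mem hg hk) (G.inv_mem hg)) (hfix k hks)
          _ ((hmem x).mpr hx) _ ((hmem y).mpr hy) hxy
        rwa [Perm.mul_apply, Perm.mul_apply, Perm.mul_apply, Perm.mul_apply, perm_inv_apply,
          perm_inv_apply] at this) with h3 | h3
    · left
      intro x hx y hy hxy
      obtain ⟨x, rfl⟩ := g.surjective x
      obtain ⟨y, rfl⟩ := g.surjective y
      rw [h3 x ((hmem x).mp hx) y ((hmem y).mp hy) hxy]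
    · right
      intro x hx y hy
      obtain ⟨x, rfl⟩ := g.surjective x
      obtain ⟨y, rfl⟩ := g.surjective y
      exact h3 x ((hmem x).mp hx) y ((hmem y).mp hy)

end Sat

section Tables

/-- binary trees with keys and values -/
inductive TM : Type
  | nil : TM
  | node : TM → ℕ → ℕ → TM → TM

/-- the value of a key -/
def TM.find : TM → ℕ → ℕ
  | .nil, _ => 0
  | .node l k v r, x => bif Nat.beq x k then v else bif Nat.blt x k then l.find x else r.find x

end Tables

end Pool.Agent.H922
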