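import Mathlib
import Pool.Agent.H922.Defs4
import Pool.Agent.H922.Chk2

set_option autoImplicit false
set_option maxRecDepth 100000
set_option linter.style.longLine false

/-!
# Explicit data for a Mathieu group
-/

namespace Pool.Agent.H922


/-- codes of the generators -/
def m11Ps : List ℕ := [3804198212654061175034293003264,
  12687648671568608593796907667459]

/-- codes of the inverses of the generators -/
def m11Qs : List ℕ := [3804198212654061175034293003264,
  12687653509633065785748603543559]

/-- a straight line program -/
def m11Steps : List (ℕ × List ℕ) := [(2540252961799965566140517721091, [1, 0]),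
  (12687652301887834421841214051330, [2, 2]),
  (2540263844493516334234453678090, [1, 3]),
  (12687653509633065785748603543559, [1, 4]),
  (2540260225980208959665436893191, [1, 5]),
  (9905944070037806756643480583, [1, 5]),
  (1277566216884268452890981437447, [1, 6]),
  (2540262640290069958969591332865, [2, 8]),
  (3802960272620541527074241777665, [0, 8]),
  (6343214436248937419680153338880, [5, 9, 10, 10, 9, 10]),
  (8879751167164100115239427638272, [8, 10, 11, 10, 10, 11]),
  (6339503039885675228499291412480, [5, 12, 11, 12, 11]),
  (6345689115665822020528286737408, [12, 2]),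
  (10147399341275387021450769605632, [13, 2]),
  (6349398096538630475683288059904, [14, 2]),
  (10152358359702897427170067486720, [2, 15]),
  (12680222246162824703365995308032, [3, 5]),
  (1280034843410226242776116241408, [3, 7]),
  (8877269240097553885315024820224, [2, 7]),
  (7615809540720513249476579697664, [2, 9]),
  (8876039758996071269496168383488, [4, 8, 10, 10, 10]),
  (3807915658369941964124753757184, [1, 10, 10, 9, 10, 21]),
  (12683942110905162728821248492544, [1, 0]),
  (2542732475744152076199451952128, [1, 1]),
  (3810389124137493179869191734272, [14, 3]),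
  (6348164986304272629458304762880, [2, 4]),
  (10147396928142661138952563459072, [2, 4]),
  (6350637247866070507624738063360, [4, 6, 6, 5, 6, 5]),
  (3812861370360818862648358601728, [4, 7, 6, 6, 6]),
  (10146165031558796358034925814784, [1, 0]),
  (7609629520198236625868804850688, [1, 2]),
  (11417524615014102176689236739072, [20, 3]),
  (5078040925028554903880623719424, [21, 3])]

/-- the blocks of a Steiner system as bit masks -/
def m11Tree : BT := (.node (.node (.node (.node (.node (.node (.node .nil 31 .nil) 107 .nil) 117 (.node .nil 179 .nil)) 188 (.node (.node .nil 205 .nil) 218 (.node .nil 230 .nil))) 302 (.node (.node (.node .nil 313 .nil) 327 (.node .nil 348 .nil)) 370 (.node (.node .nil 395 .nil) 406 (.node .nil 421 .nil)))) 465 (.node (.node (.node (.node (.node .nil 488 .nil) 551 .nil) 570 (.node .nil 598 .nil)) 601 (.node (.node .nil 620 .nil) 654 (.node .nil 661 .nil))) 681 (.node (.node (.node .nil 707 .nil) 752 (.node .nil 781 .nil)) 787 (.node (.node .nil 820 .nil) 842 (.node .nil 865 .nil))))) 920 (.node (.node (.node (.node (.node (.node .nil 930 .nil) 964 .nil) 1069 (.node .nil 1078 .nil)) 1102 (.node (.node .nil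 1107 .nil) 1144 (.node .nil 1159 .nil))) 1177 (.node (.node (.node .nil 1194 .nil) 1236 (.node .nil 1249 .nil)) 1301 (.node (.node .nil 1306 .nil) 1315 (.node .nil 1353 .nil)))) 1380 (.node (.node (.node (.node .nil 1420 .nil) 1456 (.node .nil 1474 .nil)) 1547 (.node (.node .nil 1564 .nil) 1585 (.node .nil 1605 .nil))) 1634 (.node (.node (.node .nil 1682 .nil) 1700 (.node .nil 1736 .nil)) 1798 (.node (.node .nil 1832 .nil) 1872 (.node .nil 1921 .nil))))))

/-- the block through the first points -/
def m11B0 : ℕ := 31

end Pool.Agent.H922
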