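import Mathlib
import Pool.Agent.H922.Defs4
import Pool.Agent.H922.Chk3

set_option autoImplicit false
set_option maxRecDepth 100000
set_option linter.style.longLine false

/-!
# Explicit data for a Mathieu group
-/

namespace Pool.Agent.H922


/-- codes of the generators -/
def m11xPs : List ℕ := [14291501533772889026029460828200965,
  11696617042485065525512064219487237]

/-- codes of the inverses of the generators -/
def m11xQs : List ℕ := [14291501533772889026029460828200965,
  12985826368497452123582652376685571]

/-- a straight line program -/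
def m11xSteps : List (ℕ × List ℕ) := [(5203718103016945248598570645324806, [1, 1]),
  (5203714380737901115519649726865411, [0, 1]),
  (9091590107264163416731673865234438, [0, 3]),
  (9091600020446444129777288012105739, [0, 3]),
  (8884696882686374453172148117515, [1, 5]),
  (10393473462182739761530930924093446, [1, 6]),
  (11682672885890822598824149732304901, [1, 7]),
  (10393469747157239010180334660617225, [1, 7]),
  (2606293359979808980032912193754118, [0, 9]),
  (12985813995153498899119543473408000, [7, 9, 10, 9]),
  (3895495248692354626936761397287936, [11, 10, 11, 11, 10]),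
  (5198637600726038437946836932108288, [1, 1]),
  (1305688797117081689153124494745600, [1, 2]),
  (6499252064685320798356257038674944, [2, 2]),
  (6494183940583516385521677636738048, [2, 4]),
  (11692812858792511270805303645448192, [3, 4]),
  (7801131700952804150906648928454656, [3, 6]),
  (12987082876434307386318747385998336, [0, 7]),
  (6501793553176383887083278991100928, [0, 8]),
  (12992159672161006688398253052920832, [1, 8, 8, 8, 9]),
  (11695358059887686300608327124517888, [5, 10, 9, 9, 10, 9]),
  (6494178990038197243966036090291200, [3, 10, 11, 10, 11, 11, 10]),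
  (11691547682871701092446850946958336, [2, 2]),
  (9097940744504945922866191054930944, [3, 2]),
  (9092871375207188425063749442864128, [1, 4]),
  (12985815235504303971546056609498112, [2, 3]),
  (6492911334603445172557835874075648, [2, 4]),
  (11690277557600322408744043962958848, [2, 5]),
  (2601231424373990615563125842248704, [2, 7]),
  (7792261869034982271395607735174144, [3, 7]),
  (5201177844012888915434569233073152, [8, 8, 10, 9]),
  (9090334838482186587754816603161600, [9, 11, 10, 9, 11, 11]),
  (12990885840325427402399831853892608, [11, 12, 12, 10]),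
  (2606302024353513580096212577551360, [12, 13, 12, 11, 13]),
  (2610096304532840561359009149355008, [12, 13, 14, 13, 12, 14]),
  (5196106008507641141578736617915392, [13, 14]),
  (10392208292300654566847231830262784, [14, 14]),
  (6499255771260147889410021590565888, [17, 17, 16]),
  (11687742260019566783341755719746560, [16, 18, 17]),
  (5203715629552364051344978567234560, [17, 19, 19]),
  (14283895631376909467984388823188480, [19, 18, 20, 20, 20])]

/-- elements fixing the first two points -/
def m11xEx : List ℕ := [5201177844012888915434569233073152, 9090334838482186587754816603161600, 12990885840325427402399831853892608, 2606302024353513580096212577551360, 2610096304532840561359009149355008, 5196106008507641141578736617915392, 10392208292300654566847231830262784, 6499255771260147889410021590565888, 11687742260019566783341755719746560, 5203715629552364051344978567234560, 14283895631376909467984388823188480, 9097940744504945922866191054930944]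

/-- a system of hexads as bit masks -/
def m11xTree : BT := (.node (.node (.node (.node (.node .nil 235 .nil) 350 .nil) 663 (.node (.node .nil 825 .nil) 996 .nil)) 1141 (.node (.node (.node .nil 1421 .nil) 1458 .nil) 1582 (.node (.node .nil 1752 .nil) 1859 .nil))) 2236 (.node (.node (.node (.node .nil 2343 .nil) 2513 .nil) 2637 (.node (.node .nil 2674 .nil) 2954 .nil)) 3099 (.node (.node (.node .nil 3270 .nil) 3432 .nil) 3745 (.node .nil 3860 .nil))))

/-- the class numbers of the 220 triples -/
def m11xCls : TM := (.node (.node (.node (.node (.node (.node (.node (.node .nil 7 43 .nil) 11 32 (.node .nil 13 48 .nil)) 14 18 (.node (.node .nil 19 16 .nil) 21 26 .nil)) 22 29 (.node (.node (.node .nil 25 30 .nil) 26 41 (.node .nil 28 22 .nil)) 35 54 (.node (.node .nil 37 33 .nil) 38 9 .nil))) 41 28 (.node (.node (.node (.node .nil 42 23 .nil) 44 38 (.node .nil 49 36 .nil)) 50 48 (.node (.node .nil 52 10 .nil) 56 21 .nil)) 67 46 (.node (.node (.node .nil 69 39 .nil) 70 37 (.node .nil 73 20 .nil)) 74 35 (.node (.node .nil 76 13 .nil) 81 4 .nil)))) 82 2 (.node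 (.node (.node (.node (.node .nil 84 8 .nil) 88 50 (.node .nil 97 42 .nil)) 98 24 (.node (.node .nil 100 25 .nil) 104 14 .nil)) 112 3 (.node (.node (.node .nil 131 14 .nil) 133 7 (.node .nil 134 27 .nil)) 137 24 (.node (.node .nil 138 42 .nil) 140 52 .nil))) 145 17 (.node (.node (.node (.node .nil 146 11 .nil) 148 49 (.node .nil 152 45 .nil)) 161 35 (.node (.node .nil 162 20 .nil) 164 51 .nil)) 168 46 (.node (.node (.node .nil 176 53 .nil) 193 23 (.node .nil 194 28 .nil)) 196 30 (.node (.node .nil 200 54 .nil) 208 9 .nil))))) 224 32 (.node (.node (.node (.node (.node (.node .nil 259 45 .nil) 261 31 (.node .nil 262 50 .nil)) 265 34 (.node (.node .nil 266 8 .nil) 268 2 .nil)) 273 5 (.node (.node (.node .nil 274 13 .nil) 276 35 (.node .nil 280 37 .nil)) 289 55 (.node (.node .nil 290 1 .nil) 292 44 .nil))) 296 27 (.node (.node (.node (.node .nil 304 15 .nil) 321 38 (.node .nil 322 22 .nil)) 324 41 (.node (.node .nil 328 29 .nil) 336 18 .nil)) 352 16 (.node (.node (.node .nil 385 12 .nil) 386 39 (.node .nil 388 19 .nil)) 392 3 (.node (.node .nil 400 40 .nil)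 416 47 .nil)))) 448 6 (.node (.node (.node (.node (.node .nil 515 49 .nil) 517 11 (.node .nil 518 17 .nil)) 521 15 (.node (.node .nil 522 4 .nil) 524 40 .nil)) 529 27 (.node (.node (.node .nil 530 7 .nil) 532 14 (.node .nil 536 55 .nil)) 545 37 (.node (.node .nil 546 12 .nil) 548 6 .nil))) 552 5 (.node (.node (.node (.node .nil 560 34 .nil) 577 53 (.node .nil 578 52 .nil)) 580 47 (.node (.node .nil 584 1 .nil) 592 31 .nil)) 608 19 (.node (.node (.node .nil 641 29 .nil) 642 26 .nil) 644 16 (.node (.node .nil 648 33 .nil) 656 43 .nil)))))) 672 41 (.node (.node (.node (.node (.node (.node (.node .nil 704 44 .nil) 769 21 (.node .nil 770 10 .nil)) 772 32 (.node (.node .nil 776 36 .nil) 784 28 .nil)) 800 30 (.node (.node (.node .nil 832 51 .nil) 896 25 (.node .nil 1027 51 .nil)) 1029 3 (.node (.node .nil 1030 5 .nil) 1033 19 .nil))) 1034 6 (.node (.node (.node (.node .nil 1036 12 .nil) 1041 25 (.node .nil 1042 47 .nil)) 1044 42 (.node (.node .nil 1048 44 .nil) 1057 8 .nil)) 1058 40 (.node (.node (.node .nil 1060 4 .nil) 1064 17 (.node .nil 1072 39 .nil)) 1089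 10 (.node (.node .nil 1090 21 .nil) 1092 36 .nil)))) 1096 43 (.node (.node (.node (.node (.node .nil 1104 33 .nil) 1120 26 (.node .nil 1153 2 .nil)) 1154 15 (.node (.node .nil 1156 34 .nil) 1160 31 .nil)) 1168 1 (.node (.node (.node .nil 1184 13 .nil) 1216 55 (.node .nil 1281 52 .nil)) 1282 53 (.node (.node .nil 1284 24 .nil) 1288 7 .nil))) 1296 20 (.node (.node (.node (.node .nil 1312 11 .nil) 1344 49 (.node .nil 1408 48 .nil)) 1537 22 (.node (.node .nil 1538 38 .nil) 1540 23 .nil)) 1544 9 (.node (.node (.node .nil 1552 54 .nil) 1568 18 .nil) 1600 45 (.node (.node .nil 1664 50 .nil) 1792 46 .nil))))) 2051 44 (.node (.node (.node (.node (.node (.node .nil 2053 1 .nil) 2054 55 (.node .nil 2057 47 .nil)) 2058 25 (.node (.node .nil 2060 53 .nil) 2065 6 .nil)) 2066 19 (.node (.node (.node .nil 2068 46 .nil) 2072 51 (.node .nil 2081 50 .nil)) 2082 31 (.node (.node .nil 2084 45 .nil) 2088 49 .nil))) 2096 52 (.node (.node (.node (.node .nil 2113 40 .nil) 2114 34 (.node .nil 2116 15 .nil)) 2120 11 (.node (.node .nil 2128 12 .nil) 2144 7 .nil)) 2177 18 (.node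 (.node (.node .nil 2178 36 .nil) 2180 21 (.node .nil 2184 10 .nil)) 2192 38 (.node (.node .nil 2208 22 .nil) 2240 5 .nil)))) 2305 9 (.node (.node (.node (.node (.node .nil 2306 33 .nil) 2308 54 (.node .nil 2312 26 .nil)) 2320 23 (.node (.node .nil 2336 43 .nil) 2368 17 .nil)) 2432 4 (.node (.node (.node .nil 2561 13 .nil) 2562 3 (.node .nil 2564 20 .nil)) 2568 39 (.node (.node .nil 2576 24 .nil) 2592 2 .nil))) 2624 48 (.node (.node (.node (.node .nil 2688 8 .nil) 2816 42 (.node .nil 3073 41 .nil)) 3074 30 (.node (.node .nil 3076 28 .nil) 3080 16 .nil)) 3088 32 (.node (.node (.node .nil 3104 29 .nil) 3136 27 .nil) 3200 37 (.node (.node .nil 3328 14 .nil) 3584 35 .nil)))))))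

/-- the action of the generators on the class numbers -/
def m11xPi : List (List ℕ) := [[0, 45, 18, 4, 3, 24, 7, 6, 8, 31, 39, 51, 12, 22, 30, 46, 16, 19, 2, 17, 21, 20, 13, 34, 5, 26, 25, 32, 28, 41, 14, 9, 27, 33, 23, 37, 42, 35, 48, 10, 52, 29, 36, 44, 43, 1, 15, 49, 38, 47, 50, 11, 40, 53, 55, 54], [0, 30, 31, 43, 17, 4, 18, 1, 7, 6, 49, 15, 9, 34, 20, 36, 13, 40, 12, 50, 28, 10, 52, 23, 54, 29, 11, 39, 42, 48, 8, 44, 35, 16, 33, 24, 26, 3, 38, 27, 5, 2, 14, 47, 41, 51, 46, 37, 55, 53, 19, 22, 45, 21, 32, 25]]

end Pool.Agent.H922
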