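import Mathlib
import Pool.Agent.H922.Chk3
import Pool.Agent.H922.DataM11
import Pool.Agent.H922.DataM12
import Pool.Agent.H922.DataM11x
import Pool.Agent.H922.DataM22
import Pool.Agent.H922.DataM23
import Pool.Agent.H922.DataM24

set_option autoImplicit false
set_option linter.style.haveILetI false
set_option linter.unusedVariables false
set_option linter.unusedSectionVars false
set_option maxRecDepth 100000

/-!
# The Mathieu groups
-/

namespace Pool.Agent.H922

open Equiv MulAction

section General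

variable {X : Type*} {G : Subgroup (Perm X)}

theorem exists_rel_of_not [DecidableEq X] [Finite X] {t : ℕ} (htr : TTransitive G t)
    (h : ¬ TSetPrimitive G t) : ∃ r, InvRel G t r ∧
      (∃ S T, S.card = t ∧ T.card = t ∧ r S T ∧ S ≠ T) ∧
      (∃ S T, S.card = t ∧ T.card = t ∧ ¬ r S T) := by
  rw [tSetPrimitive_iff] at h
  by_contra hcon
  apply h
  refine ⟨homog_of_trans htr, ?_⟩
  intro r r1 r2 r3 r4
  by_contra hcon2
  push Not at hcon2
  obtain ⟨⟨S, T, hS, hT, hST, hne⟩, ⟨S', T', hS', hT', hST'⟩⟩ := hcon2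
  exact hcon ⟨r, ⟨r1, r2, r3, r4⟩, ⟨S, T, hS, hT, hST, hne⟩, ⟨S', T', hS', hT', hST'⟩⟩

/-- the arithmetic criterion for `(t+1)`-transitive groups -/
theorem tSetPrimitive_of_arith [DecidableEq X] [Finite X] {t : ℕ} (ht : 1 ≤ t)
    (htr : TTransitive G (t + 1))
    (h : ∀ s, s + 2 ≤ t → ∃ i ≤ s + 1,
      ¬ (t - i).choose (s + 1 - i) ∣ (Nat.card X - i).choose (s + 1 - i)) :
    TSetPrimitive G t := by
  by_contra hnot
  have htr' : TTransitive G t := tTransitive_of_le (by omega) htr
  obtain ⟨r, hr, hnt, hnu⟩ := exists_rel_of_not htr' hnot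
  obtain ⟨S0, -, hS0, -⟩ := id hnu
  obtain ⟨s, hs, hst⟩ := class_steiner ht htr r hr.refl hr.symm hr.trans hr.inv hnt
    hnu S0 hS0
  obtain ⟨i, hi, hdvd⟩ := h s hs
  exact hdvd (hst.dvd hi (by have := htr.1; omega))

theorem both_of_succ [DecidableEq X] [Finite X] {t : ℕ} (ht : 1 ≤ t)
    (htr : TTransitive G (t + 1)) (hp : TPrimitive G (t + 1)) (hn : Nat.card X ≠ 2 * t) :
    TPrimitive G t ∧ TSetPrimitive G t :=
  ⟨tPrimitive_of_succ_trans htr, tSetPrimitive_of_succ ht htr.1 htr.2 hp hn⟩

end General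

theorem card_fin' (n : ℕ) : Nat.card (Fin n) = n := by
  rw [Nat.card_eq_fintype_card, Fintype.card_fin]

/-! ### `M_11` in degree 11 -/

theorem m11_slp : chkSlp 11 m11L m11Ps m11Qs m11Steps = true := by decide +kernel
theorem m11_trc : trchk' (m11Ps ++ m11Steps.map Prod.fst) 11 4 = true := by decide +kernel
theorem m11_fam : chkFam 11 5 m11Ps m11Tree 15 m11B0 = true := by decide +kernel
theorem m11_gens : chkGens 11 m11L m11Ps m11Qs = true := by decide +kernel

theorem m11_trans : TTransitive (genGroup 11 m11L) 4 :=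
  trans_of_chk' (by norm_num) (chkSlp_inG m11_slp) m11_trc

theorem m11_not_steiner : ¬ TSteinerPrimitive (genGroup 11 m11L) 4 :=
  not_steiner_of_chk m11_trans m11_gens m11_fam (by norm_num) (by decide +kernel)
    (by norm_num) (by norm_num)

theorem m11_two : TPrimitive (genGroup 11 m11L) 2 ∧ TSetPrimitive (genGroup 11 m11L) 2 :=
  both_of_succ (by norm_num) (tTransitive_of_le (by norm_num) m11_trans)
    (tPrimitive_of_succ_trans m11_trans) (by rw [card_fin']; norm_num)

theorem m11_three : TPrimitive (genGroup 11 m11L) 3 ∧ TSetPrimitive (genGroup 11 m11L) 3 := by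
  refine ⟨tPrimitive_of_succ_trans m11_trans, tSetPrimitive_of_arith (by norm_num) m11_trans ?_⟩
  intro s hs
  rw [card_fin']
  have : s = 0 ∨ s = 1 := by omega
  rcases this with rfl | rfl
  · exact ⟨0, by norm_num, by decide⟩
  · exact ⟨0, by norm_num, by decide⟩

/-! ### `M_23` -/

theorem m23_slp : chkSlp 23 m23L m23Ps m23Qs m23Steps = true := by decide +kernel
theorem m23_trc : trchk' (m23Ps ++ m23Steps.map Prod.fst) 23 4 = true := by decide +kernel
theorem m23_fam : chkFam 23 7 m23Ps m23Tree 15 m23B0 = true := by decide +kernel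
theorem m23_gens : chkGens 23 m23L m23Ps m23Qs = true := by decide +kernel

theorem m23_trans : TTransitive (genGroup 23 m23L) 4 :=
  trans_of_chk' (by norm_num) (chkSlp_inG m23_slp) m23_trc

theorem m23_not_steiner : ¬ TSteinerPrimitive (genGroup 23 m23L) 4 :=
  not_steiner_of_chk m23_trans m23_gens m23_fam (by norm_num) (by decide +kernel)
    (by norm_num) (by norm_num)

theorem m23_two : TPrimitive (genGroup 23 m23L) 2 ∧ TSetPrimitive (genGroup 23 m23L) 2 :=
  both_of_succ (by norm_num) (tTransitive_of_le (by norm_num) m23_trans)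
    (tPrimitive_of_succ_trans m23_trans) (by rw [card_fin']; norm_num)

theorem m23_three : TPrimitive (genGroup 23 m23L) 3 ∧ TSetPrimitive (genGroup 23 m23L) 3 := by
  refine ⟨tPrimitive_of_succ_trans m23_trans, tSetPrimitive_of_arith (by norm_num) m23_trans ?_⟩
  intro s hs
  rw [card_fin']
  have : s = 0 ∨ s = 1 := by omega
  rcases this with rfl | rfl
  · exact ⟨0, by norm_num, by decide⟩
  · exact ⟨0, by norm_num, by decide⟩

/-! ### `M_12` -/

theorem m12_slp : chkSlp 12 m12L m12Ps m12Qs m12Steps = true := by decide +kernel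
theorem m12_trc : trchk' (m12Ps ++ m12Steps.map Prod.fst) 12 5 = true := by decide +kernel
theorem m12_fam : chkFam 12 6 m12Ps m12Tree 31 m12B0 = true := by decide +kernel
theorem m12_gens : chkGens 12 m12L m12Ps m12Qs = true := by decide +kernel
theorem m12_exmem : allL (fun P => anyL (fun Q => Nat.beq P Q)
    (m12Ps ++ m12Steps.map Prod.fst)) m12Ex = true := by decide +kernel
theorem m12_ex1 : allL (fun P => Nat.beq (img P 15 12) 15) m12Ex = true := by decide +kernel
theorem m12_ex2 : allR (fun m => !(Nat.beq (pop m 12) 4) || !(Nat.beq (Nat.land m 15) 0) ||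
    anyL (fun P => !(Nat.beq (img P m 12) m) && !(Nat.beq (Nat.land (img P m 12) m) 0)) m12Ex)
    4096 = true := by decide +kernel

theorem m12_trans : TTransitive (genGroup 12 m12L) 5 :=
  trans_of_chk' (by norm_num) (chkSlp_inG m12_slp) m12_trc

theorem m12_not_steiner : ¬ TSteinerPrimitive (genGroup 12 m12L) 5 :=
  not_steiner_of_chk m12_trans m12_gens m12_fam (by norm_num) (by decide +kernel)
    (by norm_num) (by norm_num)

theorem m12_two : TPrimitive (genGroup 12 m12L) 2 ∧ TSetPrimitive (genGroup 12 m12L) 2 :=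
  both_of_succ (by norm_num) (tTransitive_of_le (by norm_num) m12_trans)
    (tPrimitive_of_succ_trans (tTransitive_of_le (by norm_num) m12_trans))
    (by rw [card_fin']; norm_num)

theorem m12_three : TPrimitive (genGroup 12 m12L) 3 ∧ TSetPrimitive (genGroup 12 m12L) 3 :=
  both_of_succ (by norm_num) (tTransitive_of_le (by norm_num) m12_trans)
    (tPrimitive_of_succ_trans m12_trans) (by rw [card_fin']; norm_num)

theorem inG_of_mem {n : ℕ} {G : Subgroup (Perm (Fin n))} {Qs Es : List ℕ}
    (h : ∀ Q ∈ Qs, InG G Q) (hm : allL (fun P => anyL (fun Q => Nat.beq P Q) Qs) Es = true) :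
    ∀ P ∈ Es, InG G P := by
  intro P hP
  rw [allL_iff] at hm
  have := hm P hP
  rw [anyL_iff] at this
  obtain ⟨Q, hQ, h1⟩ := this
  rw [Nat.beq_eq] at h1
  rw [h1]
  exact h Q hQ

theorem m12_four : TPrimitive (genGroup 12 m12L) 4 ∧ TSetPrimitive (genGroup 12 m12L) 4 := by
  refine ⟨tPrimitive_of_succ_trans m12_trans, ?_⟩
  by_contra hnot
  have htr' : TTransitive (genGroup 12 m12L) 4 := tTransitive_of_le (by norm_num) m12_trans
  obtain ⟨r, hr, hnt, hnu⟩ := exists_rel_of_not htr' hnot
  have hS0 : (toSet 12 15).card = 4 := by rw [card_toSet]; decide +kernel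
  obtain ⟨s, hs, hst⟩ := class_steiner (by norm_num) m12_trans r hr.refl hr.symm hr.trans hr.inv
    hnt hnu (toSet 12 15) hS0
  have h3 : s = 0 ∨ s = 1 ∨ s = 2 := by omega
  rcases h3 with rfl | rfl | rfl
  · -- a parallel class
    obtain ⟨-, hst2⟩ := hst
    have hone : ∀ A B : Finset (Fin 12), A.card = 4 → r (toSet 12 15) A → B.card = 4 →
        r (toSet 12 15) B → (A ∩ B).Nonempty → A = B := by
      intro A B hA hrA hB hrB ⟨z, hz⟩
      rw [Finset.mem_inter] at hz
      obtain ⟨C, -, hC⟩ := hst2 {z} (Finset.card_singleton z)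
      rw [hC A ⟨⟨hA, hrA⟩, Finset.singleton_subset_iff.mpr hz.1⟩,
        hC B ⟨⟨hB, hrB⟩, Finset.singleton_subset_iff.mpr hz.2⟩]
    obtain ⟨T, ⟨⟨hT, hrT⟩, h4T⟩, -⟩ := hst2 {4} (Finset.card_singleton _)
    rw [Finset.singleton_subset_iff] at h4T
    obtain ⟨m, hm, rfl⟩ := exists_mask T
    have hmeet : toSet 12 m ∩ toSet 12 15 = ∅ := by
      by_contra hcon
      have := hone (toSet 12 m) (toSet 12 15) hT hrT hS0 (hr.refl _ hS0)
        (Finset.nonempty_iff_ne_empty.mpr hcon)
      rw [this, mem_toSet] at h4T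
      exact absurd h4T (by decide)
    have hland : Nat.land m 15 = 0 := by
      apply toSet_inj (n := 12) ?_ (by positivity)
      · rw [← toSet_inter, hmeet]
        ext i
        simp [mem_toSet]
      · exact lt_of_le_of_lt Nat.and_le_right (by norm_num)
    rw [card_toSet] at hT
    have h5 := (allR_iff.mp m12_ex2) m (by simpa using hm)
    rw [hT, hland] at h5
    simp only [Bool.or_eq_true] at h5
    rcases h5 with (h5 | h5) | h5
    · exact absurd h5 (by decide)
    · exact absurd h5 (by decide)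
    rw [anyL_iff] at h5
    obtain ⟨P, hP, h6⟩ := h5
    rw [Bool.and_eq_true] at h6
    obtain ⟨h6, h7⟩ := h6
    have hin := inG_of_mem (chkSlp_inG m12_slp) m12_exmem P hP
    obtain ⟨g, hg, hgi, hgm⟩ := hin.image
    have h8 := (allL_iff.mp m12_ex1) P hP
    rw [Nat.beq_eq] at h8
    have h9 := hr.inv g hg _ _ hS0 (by rw [card_toSet, hT]) hrT
    rw [hgm, hgm, h8] at h9
    have h10 := hone (toSet 12 (img P m 12)) (toSet 12 m)
      (by rw [← hgm, Finset.card_map, card_toSet, hT]) h9 (by rw [card_toSet, hT]) hrT (by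
        rw [toSet_inter]
        apply Finset.nonempty_iff_ne_empty.mpr
        intro h11
        have h12 : Nat.land (img P m 12) m = 0 := by
          apply toSet_inj (n := 12) ?_ (by positivity)
          · rw [h11]; ext i; simp [mem_toSet]
          · exact lt_of_le_of_lt Nat.and_le_right hm
        rw [h12] at h7
        exact absurd h7 (by decide))
    have h13 := toSet_inj (hin.img_lt m) hm h10
    rw [h13] at h6
    simp at h6
  · have := hst.dvd (i := 1) (by norm_num) (by rw [card_fin']; norm_num)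
    rw [card_fin'] at this
    exact absurd this (by decide)
  · have := hst.dvd (i := 1) (by norm_num) (by rw [card_fin']; norm_num)
    rw [card_fin'] at this
    exact absurd this (by decide)

/-! ### `M_22` and its automorphism group -/

theorem m22_slp : chkSlp 22 m22L m22Ps m22Qs m22Steps = true := by decide +kernel
theorem m22_trc : trchk' (m22Ps ++ m22Steps.map Prod.fst) 22 3 = true := by decide +kernel
theorem m22_fam : chkFam 22 6 (m22Ps ++ [m22OutP]) m22Tree 7 m22B0 = true := by decide +kernel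
theorem m22_gens : chkGens 22 (m22L ++ [m22Out]) (m22Ps ++ [m22OutP]) (m22Qs ++ [m22OutQ]) =
    true := by decide +kernel
theorem m22_exmem : allL (fun P => anyL (fun Q => Nat.beq P Q)
    (m22Ps ++ m22Steps.map Prod.fst)) m22Ex = true := by decide +kernel
theorem m22_ex : allR (fun w => Nat.blt w 3 || anyL (fun P => Nat.beq (app P 0) 0 &&
    Nat.beq (app P 1) 1 && Nat.beq (app P 2) 2 && !(Nat.beq (app P w) w)) m22Ex) 22 = true := by
  decide +kernel

theorem m22_trans : TTransitive (genGroup 22 m22L) 3 :=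
  trans_of_chk' (by norm_num) (chkSlp_inG m22_slp) m22_trc

theorem genGroup_mono {n : ℕ} {L M : List (List ℕ)} (h : L ⊆ M) :
    genGroup n L ≤ genGroup n M := by
  apply Subgroup.closure_mono
  rintro g ⟨l, hl, hg⟩
  exact ⟨l, h hl, hg⟩

theorem m22_not_steiner : ¬ TSteinerPrimitive (genGroup 22 (m22L ++ [m22Out])) 3 :=
  not_steiner_of_chk (m22_trans.mono (genGroup_mono (List.subset_append_left _ _))) m22_gens
    m22_fam (by norm_num) (by decide +kernel) (by norm_num) (by norm_num)

theorem m22_two : TPrimitive (genGroup 22 m22L) 2 ∧ TSetPrimitive (genGroup 22 m22L) 2 := by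
  refine ⟨tPrimitive_of_succ_trans m22_trans, ?_⟩
  apply tSetPrimitive_two_of_three m22_trans 0 1 2 (by decide) (by decide) (by decide)
  intro w h0 h1 h2
  have h3 := (allR_iff.mp m22_ex) w w.2
  rw [Bool.or_eq_true, anyL_iff] at h3
  rcases h3 with h3 | ⟨P, hP, h3⟩
  · exfalso
    rw [Nat.blt_eq] at h3
    have : w = 0 ∨ w = 1 ∨ w = 2 := by
      rcases w with ⟨w, hw⟩
      simp only at h3
      interval_cases w
      · left; rfl
      · right; left; rfl
      · right; right; rfl
    rcases this with h | h | h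
    · exact h0 h
    · exact h1 h
    · exact h2 h
  · obtain ⟨g, hg, hgi⟩ := inG_of_mem (chkSlp_inG m22_slp) m22_exmem P hP
    simp only [Bool.and_eq_true] at h3
    obtain ⟨⟨⟨e0, e1⟩, e2⟩, e3⟩ := h3
    refine ⟨g, hg, Fin.ext ?_, Fin.ext ?_, Fin.ext ?_, fun h => ?_⟩
    · rw [hgi]; simpa using e0
    · rw [hgi]; simpa using e1
    · rw [hgi]; simpa using e2
    · have h4 := hgi w
      rw [h] at h4
      rw [← h4] at e3
      simp at e3

end Pool.Agent.H922
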