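import Mathlib
import Pool.Agent.H922.Defs6
import Pool.Agent.H922.PL3
import Pool.Agent.H922.Chk3

set_option autoImplicit false
set_option linter.style.haveILetI false
set_option linter.unusedVariables false
set_option linter.unusedSectionVars false

/-!
# `PSL(2, q)`: elements, 2-transitivity, 2-primitivity
-/

namespace Pool.Agent.H922

open Equiv MulAction Matrix
open scoped OnePoint

variable {F : Type*} [Field F] [DecidableEq F]

theorem mem_PSigmaL {g : Perm (OnePoint F)} : g ∈ PSigmaL F ↔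
    ∃ (A : GL (Fin 2) F) (σ : F ≃+* F), IsSquare (A.det : F) ∧ ∀ x, g x = A • OnePoint.map σ x :=
  Iff.rfl

theorem mem_PSL2 {g : Perm (OnePoint F)} : g ∈ PSL2 F ↔
    ∃ A : GL (Fin 2) F, (A.det : F) = 1 ∧ ∀ x, g x = A • x := Iff.rfl

theorem PSL2_le_PGL2 : PSL2 F ≤ PGL2 F := by
  rintro g ⟨A, -, hA⟩
  rw [mem_PGL2]
  exact ⟨A, hA⟩

theorem PSL2_le_PSigmaL : PSL2 F ≤ PSigmaL F := by
  rintro g ⟨A, h1, hA⟩
  refine ⟨A, RingEquiv.refl F, by rw [h1]; exact IsSquare.one, fun x => ?_⟩
  rw [hA]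
  congr 1
  cases x <;> rfl

theorem PSigmaL_le : PSigmaL F ≤ PGammaL F := by
  rintro g ⟨A, σ, -, hA⟩
  exact ⟨A, σ, hA⟩

theorem det_mk2 {a b c d : F} {h : a * d - b * c ≠ 0} :
    ((mk2 a b c d h).det : F) = a * d - b * c := by
  simp only [GeneralLinearGroup.val_det_apply]
  exact det_fin_two_of a b c d

/-- an element of `PSL(2, F)` with given coefficients of determinant 1 -/
theorem psl_mk (a b c d : F) (h : a * d - b * c = 1) : ∃ g ∈ PSL2 F,
    (g ∞ = if c = 0 then ∞ else ((a / c : F) : OnePoint F)) ∧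
    ∀ x : F, g (x : OnePoint F) =
      if c * x + d = 0 then ∞ else (((a * x + b) / (c * x + d) : F) : OnePoint F) := by
  have hne : a * d - b * c ≠ 0 := by rw [h]; exact one_ne_zero
  refine ⟨MulAction.toPerm (mk2 a b c d hne), ⟨mk2 a b c d hne, by rw [det_mk2, h],
    fun x => rfl⟩, mk2_infty, fun x => mk2_coe⟩

/-- translations -/
theorem psl_transl (b : F) : ∃ g ∈ PSL2 F, g ∞ = ∞ ∧
    ∀ x : F, g (x : OnePoint F) = ((x + b : F) : OnePoint F) := by
  obtain ⟨g, hg, h1, h2⟩ := psl_mk 1 b 0 1 (by ring)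
  refine ⟨g, hg, by rw [h1, if_pos rfl], fun x => ?_⟩
  rw [h2, if_neg (by simp)]
  simp

/-- the torus -/
theorem psl_torus (s : F) (hs : s ≠ 0) : ∃ g ∈ PSL2 F, g ∞ = ∞ ∧
    ∀ x : F, g (x : OnePoint F) = ((s ^ 2 * x : F) : OnePoint F) := by
  obtain ⟨g, hg, h1, h2⟩ := psl_mk s 0 0 s⁻¹ (by rw [mul_inv_cancel₀ hs]; ring)
  refine ⟨g, hg, by rw [h1, if_pos rfl], fun x => ?_⟩
  rw [h2, if_neg (by simpa using hs), OnePoint.coe_eq_coe]
  field_simp
  ring

/-- the map `x ↦ -1/x` -/
theorem psl_swap : ∃ g ∈ PSL2 F, g ∞ = ((0 : F) : OnePoint F) ∧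
    g ((0 : F) : OnePoint F) = ∞ ∧
    ∀ x : F, x ≠ 0 → g (x : OnePoint F) = ((-1 / x : F) : OnePoint F) := by
  obtain ⟨g, hg, h1, h2⟩ := psl_mk (0 : F) (-1) 1 0 (by ring)
  refine ⟨g, hg, by rw [h1, if_neg one_ne_zero, zero_div], by rw [h2, if_pos (by ring)],
    fun x hx => ?_⟩
  rw [h2, if_neg (by simpa using hx), OnePoint.coe_eq_coe]
  simp

/-- `PSL(2, F)` maps any two distinct points to `0` and `∞`. -/
theorem psl_two (x y : OnePoint F) (hxy : x ≠ y) :
    ∃ g ∈ PSL2 F, g x = ((0 : F) : OnePoint F) ∧ g y = ∞ := by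
  -- first move `y` to `∞`
  obtain ⟨k, hk, hky⟩ : ∃ k ∈ PSL2 F, k y = ∞ := by
    cases y with
    | infty => exact ⟨1, (PSL2 F).one_mem, rfl⟩
    | coe y =>
      obtain ⟨g, hg, h1, h2⟩ := psl_transl (-y)
      obtain ⟨w, hw, -, w2, -⟩ := psl_swap (F := F)
      refine ⟨w * g, (PSL2 F).mul_mem hw hg, ?_⟩
      rw [Perm.mul_apply, h2, add_neg_cancel, w2]
  have hkx : k x ≠ ∞ := by
    rw [← hky]
    exact fun h => hxy (k.injective h)
  obtain ⟨z, hz⟩ : ∃ z : F, k x = z := by
    cases hh : k x with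
    | infty => exact absurd hh hkx
    | coe z => exact ⟨z, rfl⟩
  obtain ⟨g, hg, h1, h2⟩ := psl_transl (-z)
  refine ⟨g * k, (PSL2 F).mul_mem hg hk, ?_, ?_⟩
  · rw [Perm.mul_apply, hz, h2, add_neg_cancel]
  · rw [Perm.mul_apply, hky, h1]

theorem psl_two_trans [Finite F] : TTransitive (PSL2 F) 2 := by
  refine ⟨by rw [card_onePoint]; have := Finite.one_lt_card (α := F); omega, ?_⟩
  rw [multTrans_iff]
  intro a b ha hb
  have ha' : a 0 ≠ a 1 := fun h => absurd (ha h) (by decide)
  have hb' : b 0 ≠ b 1 := fun h => absurd (hb h) (by decide)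
  obtain ⟨g, hg, g0, g1⟩ := psl_two (a 0) (a 1) ha'
  obtain ⟨k, hk, k0, k1⟩ := psl_two (b 0) (b 1) hb'
  refine ⟨k⁻¹ * g, (PSL2 F).mul_mem ((PSL2 F).inv_mem hk) hg, fun i => ?_⟩
  fin_cases i
  · change (k⁻¹ * g) (a 0) = b 0
    rw [Perm.mul_apply, g0, Perm.inv_eq_iff_eq, k0]
  · change (k⁻¹ * g) (a 1) = b 1
    rw [Perm.mul_apply, g1, Perm.inv_eq_iff_eq, k1]

/-- `PSL(2, q)` is 2-primitive -/
theorem psl_two_prim [Finite F] : TPrimitive (PSL2 F) 2 := by
  haveI := Fintype.ofFinite F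
  rw [tPrimitive_iff]
  have hbase : PrimOff (PSL2 F) (({∞} : Finset (OnePoint F)) : Set (OnePoint F)) := by
    have hmem : ∀ x : OnePoint F, x ∉ (({∞} : Finset (OnePoint F)) : Set (OnePoint F)) ↔
        ∃ a : F, x = a := by
      intro x
      cases x with
      | infty => simp [OnePoint.infty_ne_coe]
      | coe a => simp [OnePoint.coe_ne_infty]
    constructor
    · intro x hx y hy
      obtain ⟨a, rfl⟩ := (hmem x).mp hx
      obtain ⟨b, rfl⟩ := (hmem y).mp hy
      obtain ⟨g, hg, h1, h2⟩ := psl_transl (b - a)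
      refine ⟨g, hg, fun z hz => ?_, by rw [h2, add_sub_cancel]⟩
      rw [Finset.coe_singleton, Set.mem_singleton_iff] at hz
      rw [hz, h1]
    · intro r r1 r2 r3 r4
      by_cases htriv : ∀ x, x ∉ (({∞} : Finset (OnePoint F)) : Set (OnePoint F)) → ∀ y,
          y ∉ (({∞} : Finset (OnePoint F)) : Set (OnePoint F)) → r x y → x = y
      · exact Or.inl htriv
      right
      push Not at htriv
      obtain ⟨x, hx, y, hy, hxy, hne⟩ := htriv
      obtain ⟨a, rfl⟩ := (hmem x).mp hx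
      obtain ⟨b, rfl⟩ := (hmem y).mp hy
      rw [Ne, OnePoint.coe_eq_coe] at hne
      have R2 : ∀ u v : F, r (u : OnePoint F) v → r v u := fun u v h =>
        r2 _ ((hmem _).mpr ⟨u, rfl⟩) _ ((hmem _).mpr ⟨v, rfl⟩) h
      have R3 : ∀ u v w : F, r (u : OnePoint F) v → r (v : OnePoint F) w →
          r (u : OnePoint F) w := fun u v w h h' =>
        r3 _ ((hmem _).mpr ⟨u, rfl⟩) _ ((hmem _).mpr ⟨v, rfl⟩) _ ((hmem _).mpr ⟨w, rfl⟩) h h'
      -- translation invariance
      have T : ∀ c u v : F, r (u : OnePoint F) v →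
          r ((u + c : F) : OnePoint F) ((v + c : F) : OnePoint F) := by
        intro c u v h
        obtain ⟨g, hg, h1, h2⟩ := psl_transl c
        have := r4 g hg (fun z hz => by
          rw [Finset.coe_singleton, Set.mem_singleton_iff] at hz
          rw [hz, h1]) _ ((hmem _).mpr ⟨u, rfl⟩) _ ((hmem _).mpr ⟨v, rfl⟩) h
        rwa [h2, h2] at this
      -- the class of zero
      have W1 : ∀ v w : F, r ((0 : F) : OnePoint F) v → r ((0 : F) : OnePoint F) w →
          r ((0 : F) : OnePoint F) ((v + w : F) : OnePoint F) := by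
        intro v w hv hw
        have := T v 0 w hw
        rw [zero_add, add_comm] at this
        exact R3 _ _ _ hv this
      have W2 : ∀ v : F, r ((0 : F) : OnePoint F) v → r ((0 : F) : OnePoint F) ((-v : F)) := by
        intro v hv
        have := T (-v) v 0 (R2 _ _ hv)
        rwa [add_neg_cancel, zero_add] at this
      have W3 : ∀ s v : F, r ((0 : F) : OnePoint F) v →
          r ((0 : F) : OnePoint F) ((s ^ 2 * v : F) : OnePoint F) := by
        intro s v hv
        by_cases hs : s = 0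
        · rw [hs]
          have : (0 : F) ^ 2 * v = 0 := by ring
          rw [this]
          exact r1 _ ((hmem _).mpr ⟨0, rfl⟩)
        obtain ⟨g, hg, h1, h2⟩ := psl_torus s hs
        have := r4 g hg (fun z hz => by
          rw [Finset.coe_singleton, Set.mem_singleton_iff] at hz
          rw [hz, h1]) _ ((hmem _).mpr ⟨0, rfl⟩) _ ((hmem _).mpr ⟨v, rfl⟩) hv
        rwa [h2, h2, mul_zero] at this
      have hd : r ((0 : F) : OnePoint F) ((b - a : F) : OnePoint F) := by
        have := T (-a) a b hxy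
        rwa [add_neg_cancel, ← sub_eq_add_neg] at this
      have hd0 : b - a ≠ 0 := sub_ne_zero.mpr (Ne.symm hne)
      have hall : ∀ w : F, r ((0 : F) : OnePoint F) w := by
        intro w
        -- `w = z (b - a)`
        obtain ⟨z, hz⟩ : ∃ z : F, w = z * (b - a) := ⟨w / (b - a), by
          rw [div_mul_cancel₀ _ hd0]⟩
        rw [hz]
        by_cases h2 : (2 : F) = 0
        · -- characteristic two: every element is a square
          haveI : CharP F 2 := CharTwo.of_one_ne_zero_of_two_eq_zero one_ne_zero h2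
          have hsq : IsSquare z := FiniteField.isSquare_of_char_two
            (by rw [ringChar.eq_iff]; infer_instance) z
          obtain ⟨s, hs⟩ := hsq
          rw [hs, ← pow_two]
          exact W3 s _ hd
        · have e1 : z * (b - a) = ((z + 1) / 2) ^ 2 * (b - a) +
              (-(((z - 1) / 2) ^ 2 * (b - a))) := by
            have : z = ((z + 1) / 2) ^ 2 - ((z - 1) / 2) ^ 2 := by field_simp; ring
            nth_rewrite 1 [this]
            ring
          rw [e1]
          exact W1 _ _ (W3 _ _ hd) (W2 _ (W3 _ _ hd))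
      intro u hu v hv
      obtain ⟨c, rfl⟩ := (hmem u).mp hu
      obtain ⟨d, rfl⟩ := (hmem v).mp hv
      exact R3 _ _ _ (R2 _ _ (hall c)) (hall d)
  intro s hs
  have hs1 : s.card = 1 := by omega
  obtain ⟨g, hg, hgs⟩ := homog_of_trans (tTransitive_of_le (by norm_num) psl_two_trans)
    ({∞} : Finset (OnePoint F)) s (Finset.card_singleton _) hs1
  have := primOff_map hg hbase
  rwa [hgs] at this

end Pool.Agent.H922
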