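import Mathlib
import Pool.Agent.H922.PSLa
import Pool.Agent.H922.Mat1

set_option autoImplicit false
set_option linter.style.haveILetI false
set_option linter.unusedVariables false
set_option linter.unusedSectionVars false

/-!
# Invariant relations on pairs for groups containing `PSL(2, q)`
-/

namespace Pool.Agent.H922

open Equiv MulAction Matrix Polynomial
open scoped OnePoint

variable {F : Type*} [Field F] [DecidableEq F]

section Squares

variable [Finite F]

omit [DecidableEq F] in
/-- the product of two nonsquares is a square -/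
theorem isSquare_mul_of_not {a b : F} (ha : ¬ IsSquare a) (hb : ¬ IsSquare b) :
    IsSquare (a * b) := by
  haveI := Fintype.ofFinite F
  by_cases hF : ringChar F = 2
  · exact FiniteField.isSquare_of_char_two hF _
  have ha0 : a ≠ 0 := by rintro rfl; exact ha IsSquare.zero
  have hb0 : b ≠ 0 := by rintro rfl; exact hb IsSquare.zero
  rw [FiniteField.isSquare_iff hF (mul_ne_zero ha0 hb0), mul_pow]
  rw [FiniteField.isSquare_iff hF ha0] at ha
  rw [FiniteField.isSquare_iff hF hb0] at hb
  rw [(FiniteField.pow_dichotomy hF ha0).resolve_left ha,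
    (FiniteField.pow_dichotomy hF hb0).resolve_left hb]
  ring

omit [DecidableEq F] in
/-- the quotient of two nonsquares is a square -/
theorem isSquare_div_of_not {a b : F} (ha : ¬ IsSquare a) (hb : ¬ IsSquare b) :
    IsSquare (a / b) := by
  have hb0 : b ≠ 0 := by rintro rfl; exact hb IsSquare.zero
  have h1 := isSquare_mul_of_not ha hb
  have : a / b = (a * b) * (b⁻¹ * b⁻¹) := by field_simp
  rw [this]
  exact h1.mul ⟨b⁻¹, rfl⟩

omit [DecidableEq F] in
theorem card_le_of_poly (p : F[X]) (hp : p ≠ 0) (h : ∀ a : F, a ≠ 0 → p.eval a = 0) :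
    Nat.card F ≤ p.natDegree + 1 := by
  classical
  haveI := Fintype.ofFinite F
  have h1 : (Finset.univ : Finset F).erase 0 ⊆ p.roots.toFinset := by
    intro a ha
    rw [Multiset.mem_toFinset, mem_roots hp]
    exact h a (Finset.mem_erase.mp ha).1
  have h2 := Finset.card_le_card h1
  have h3 := Multiset.toFinset_card_le p.roots
  have h4 := p.card_roots'
  rw [Finset.card_erase_of_mem (Finset.mem_univ _), Finset.card_univ,
    ← Nat.card_eq_fintype_card] at h2
  omega

end Squares

/-- an invariant equivalence relation on pairs in which related pairs are equal or disjoint -/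
structure PairRel (G : Subgroup (Perm (OnePoint F)))
    (r : Finset (OnePoint F) → Finset (OnePoint F) → Prop) : Prop where
  rel : InvRel G 2 r
  dis : ∀ a b c : OnePoint F, a ≠ b → a ≠ c → r {a, b} {a, c} → b = c

/-- the pair `{x, y}` is related to `{0, ∞}` -/
def PP (r : Finset (OnePoint F) → Finset (OnePoint F) → Prop) (x y : F) : Prop :=
  x ≠ 0 ∧ y ≠ 0 ∧ x ≠ y ∧ r {((0 : F) : OnePoint F), ∞} {(x : OnePoint F), (y : OnePoint F)}

variable {G : Subgroup (Perm (OnePoint F))}
  {r : Finset (OnePoint F) → Finset (OnePoint F) → Prop}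

theorem exists_pairRel [Finite F] (hG : PSL2 F ≤ G) (h : ¬ TSetPrimitive G 2) :
    ∃ r, PairRel G r ∧ ∃ x y : F, PP r x y := by
  have htr : TTransitive G 2 := psl_two_trans.mono hG
  have hpr : TPrimitive G 2 := psl_two_prim.mono hG
  obtain ⟨r, hr, ⟨S, T, hS, hT, hST, hne⟩, hnu⟩ := exists_rel_of_not htr h
  have hdis : ∀ a b c : OnePoint F, a ≠ b → a ≠ c → r {a, b} {a, c} → b = c := by
    intro a b c hab hac hrr
    by_contra hbc
    have h5 : ({a, b} : Finset (OnePoint F)) ≠ {a, c} := by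
      intro h6
      have : b ∈ ({a, c} : Finset (OnePoint F)) := by rw [← h6]; simp
      simp only [Finset.mem_insert, Finset.mem_singleton] at this
      rcases this with h7 | h7
      · exact hab h7.symm
      · exact hbc h7
    have h6 : (({a, b} : Finset (OnePoint F)) ∩ {a, c}).card + 1 = 2 := by
      have : ({a, b} : Finset (OnePoint F)) ∩ {a, c} = {a} := by
        ext u
        simp only [Finset.mem_inter, Finset.mem_insert, Finset.mem_singleton]
        constructor
        · rintro ⟨h5 | h5, h6 | h6⟩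
          · exact h5
          · exact h5
          · exact h6
          · exact absurd (h5.symm.trans h6) hbc
        · intro h5
          exact ⟨Or.inl h5, Or.inl h5⟩
      rw [this, Finset.card_singleton]
    have h7 := universal_of_meet (by norm_num) htr.1 htr.2 hpr r hr.refl hr.symm hr.trans hr.inv
      {a, b} {a, c} (Finset.card_pair hab) (Finset.card_pair hac) h5 hrr h6
    obtain ⟨U, V, hU, hV, hUV⟩ := hnu
    exact hUV (h7 U V hU hV)
  refine ⟨r, ⟨hr, hdis⟩, ?_⟩
  have h0 : ((0 : F) : OnePoint F) ≠ ∞ := OnePoint.coe_ne_infty 0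
  obtain ⟨g, hg, hgS⟩ := homog_of_trans htr S {((0 : F) : OnePoint F), ∞} hS
    (Finset.card_pair h0)
  have hr1 := hr.inv g hg S T hS hT hST
  rw [hgS] at hr1
  have hT' : (T.map g.toEmbedding).card = 2 := by rw [Finset.card_map, hT]
  have hne' : T.map g.toEmbedding ≠ {((0 : F) : OnePoint F), ∞} := by
    rw [← hgS]
    intro h5
    exact hne (Finset.map_injective _ h5).symm
  obtain ⟨z, w, hzw, hzwT⟩ := Finset.card_eq_two.mp hT'
  rw [hzwT] at hr1 hne'
  have hz0 : z ≠ ((0 : F) : OnePoint F) := by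
    rintro rfl
    exact hne' (by rw [← hdis _ _ _ h0 hzw hr1])
  have hzi : z ≠ ∞ := by
    rintro rfl
    rw [Finset.pair_comm ((0 : F) : OnePoint F)] at hr1 hne'
    exact hne' (by rw [← hdis _ _ _ h0.symm hzw hr1])
  have hw0 : w ≠ ((0 : F) : OnePoint F) := by
    rintro rfl
    rw [Finset.pair_comm z] at hr1 hne'
    exact hne' (by rw [← hdis _ _ _ h0 hzw.symm hr1])
  have hwi : w ≠ ∞ := by
    rintro rfl
    rw [Finset.pair_comm z, Finset.pair_comm ((0 : F) : OnePoint F)] at hr1 hne'
    exact hne' (by rw [← hdis _ _ _ h0.symm hzw.symm hr1])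
  cases z with
  | infty => exact absurd rfl hzi
  | coe x =>
    cases w with
    | infty => exact absurd rfl hwi
    | coe y =>
      refine ⟨x, y, ?_, ?_, ?_, hr1⟩
      · rwa [Ne, OnePoint.coe_eq_coe] at hz0
      · rwa [Ne, OnePoint.coe_eq_coe] at hw0
      · rwa [Ne, OnePoint.coe_eq_coe] at hzw

theorem card_zi : ({((0 : F) : OnePoint F), ∞} : Finset (OnePoint F)).card = 2 :=
  Finset.card_pair (OnePoint.coe_ne_infty 0)

theorem card_xy {x y : F} (h : x ≠ y) :
    ({(x : OnePoint F), (y : OnePoint F)} : Finset (OnePoint F)).card = 2 :=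
  Finset.card_pair (by rwa [Ne, OnePoint.coe_eq_coe])

theorem PP.symm {x y : F} (h : PP r x y) : PP r y x :=
  ⟨h.2.1, h.1, Ne.symm h.2.2.1, by
    rw [Finset.pair_comm (y : OnePoint F) (x : OnePoint F)]; exact h.2.2.2⟩

theorem PairRel.uniq (hr : PairRel G r) {x y y' : F} (h : PP r x y) (h' : PP r x y') :
    y = y' := by
  have h1 := hr.rel.trans _ _ _ (card_xy h.2.2.1) card_zi (card_xy h'.2.2.1)
    (hr.rel.symm _ _ card_zi (card_xy h.2.2.1) h.2.2.2) h'.2.2.2
  have h2 := hr.dis _ _ _ (by rw [Ne, OnePoint.coe_eq_coe]; exact h.2.2.1)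
    (by rw [Ne, OnePoint.coe_eq_coe]; exact h'.2.2.1) h1
  rwa [OnePoint.coe_eq_coe] at h2

theorem PairRel.two (hr : PairRel G r) {x y u v : F} (h : PP r x y) (h' : PP r u v) :
    r {(x : OnePoint F), (y : OnePoint F)} {(u : OnePoint F), (v : OnePoint F)} :=
  hr.rel.trans _ _ _ (card_xy h.2.2.1) card_zi (card_xy h'.2.2.1)
    (hr.rel.symm _ _ card_zi (card_xy h.2.2.1) h.2.2.2) h'.2.2.2

theorem PairRel.scale (hr : PairRel G r) (hG : PSL2 F ≤ G) {x y s : F} (h : PP r x y)
    (hs : s ≠ 0) : PP r (s ^ 2 * x) (s ^ 2 * y) := by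
  obtain ⟨g, hg, g1, g2⟩ := psl_torus s hs
  have hs2 : s ^ 2 ≠ 0 := pow_ne_zero 2 hs
  refine ⟨mul_ne_zero hs2 h.1, mul_ne_zero hs2 h.2.1,
    fun h5 => h.2.2.1 (mul_left_cancel₀ hs2 h5), ?_⟩
  have h1 := hr.rel.inv g (hG hg) _ _ card_zi (card_xy h.2.2.1) h.2.2.2
  rwa [map_pair, map_pair, g1, g2, g2, g2, mul_zero] at h1

theorem PairRel.scale' (hr : PairRel G r) (hG : PSL2 F ≤ G) {x y s : F} (h : PP r x y)
    (hs : s ≠ 0) (hsq : IsSquare s) : PP r (s * x) (s * y) := by
  obtain ⟨a, ha⟩ := hsq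
  have ha0 : a ≠ 0 := by rintro rfl; exact hs (by rw [ha, zero_mul])
  have := hr.scale hG h ha0
  rwa [pow_two, ← ha] at this

theorem PairRel.swap (hr : PairRel G r) (hG : PSL2 F ≤ G) {x y : F} (h : PP r x y) :
    PP r (-1 / x) (-1 / y) := by
  obtain ⟨g, hg, g1, g2, g3⟩ := psl_swap (F := F)
  refine ⟨div_ne_zero (neg_ne_zero.mpr one_ne_zero) h.1,
    div_ne_zero (neg_ne_zero.mpr one_ne_zero) h.2.1, fun h5 => h.2.2.1 ?_, ?_⟩
  · rw [div_eq_div_iff h.1 h.2.1] at h5
    exact (mul_left_cancel₀ (neg_ne_zero.mpr one_ne_zero) h5).symm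
  · have h1 := hr.rel.inv g (hG hg) _ _ card_zi (card_xy h.2.2.1) h.2.2.2
    rwa [map_pair, map_pair, g1, g2, g3 x h.1, g3 y h.2.1,
      Finset.pair_comm (∞ : OnePoint F)] at h1

/-- a pair with square ratio is `{x, -x}` -/
theorem PairRel.square_case (hr : PairRel G r) (hG : PSL2 F ≤ G) {x y : F} (h : PP r x y)
    (hsq : IsSquare (y / x)) : y = -x ∧ IsSquare (-1 : F) ∧ (2 : F) ≠ 0 := by
  have hx := h.1
  have hy := h.2.1
  have h1 := hr.scale' hG h (div_ne_zero hy hx) hsq
  rw [div_mul_cancel₀ y hx] at h1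
  have h2 := hr.uniq h1 h.symm
  have h3 : y * y = x * x := by
    field_simp at h2
    linear_combination h2
  have h4 : (y - x) * (y + x) = 0 := by linear_combination h3
  have h5 : y + x = 0 := by
    rcases mul_eq_zero.mp h4 with h6 | h6
    · exact absurd (sub_eq_zero.mp h6).symm h.2.2.1
    · exact h6
  have h6 : y = -x := eq_neg_of_add_eq_zero_left h5
  refine ⟨h6, ?_, ?_⟩
  · rw [h6, neg_div, div_self hx] at hsq
    exact hsq
  · intro h7
    apply h.2.2.1
    rw [h6]
    linear_combination x * h7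

/-- a pair with nonsquare ratio forces `-1` to be a nonsquare -/
theorem PairRel.nonsquare_case (hr : PairRel G r) (hG : PSL2 F ≤ G) {x y : F} (h : PP r x y)
    (hsq : ¬ IsSquare (y / x)) : ¬ IsSquare (-1 : F) := by
  intro hm
  have hx := h.1
  have hy := h.2.1
  have h1 := hr.swap hG h
  have h2 : IsSquare (-1 / x ^ 2) := by
    rw [pow_two]
    exact hm.div ⟨x, rfl⟩
  have h3 := hr.scale' hG h (div_ne_zero (neg_ne_zero.mpr one_ne_zero) (pow_ne_zero 2 hx)) h2
  have e1 : -1 / x ^ 2 * x = -1 / x := by field_simp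
  rw [e1] at h3
  have h4 := hr.uniq h1 h3
  have h5 : (y / x) * (y / x) = 1 := by
    field_simp
    field_simp at h4
    linear_combination h4
  have h6 : (y / x - 1) * (y / x + 1) = 0 := by linear_combination h5
  rcases mul_eq_zero.mp h6 with h7 | h7
  · apply hsq
    rw [sub_eq_zero.mp h7]
    exact IsSquare.one
  · apply hsq
    rw [eq_neg_of_add_eq_zero_left h7]
    exact hm

/-- first case: two pairs `{x, -x}` and `{s, -s}` -/
theorem PairRel.case_one (hr : PairRel G r) (hG : PSL2 F ≤ G) {x s : F} (hx : PP r x (-x))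
    (hs : PP r s (-s)) (h1 : s ≠ x) (h2 : s ≠ -x) (hsq : IsSquare (-1 : F)) :
    s ^ 2 = - x ^ 2 := by
  have hx0 := hx.1
  have hs0 := hs.1
  have h2x : x + x ≠ 0 := by
    intro h
    exact hx.2.2.1 (eq_neg_of_add_eq_zero_left h)
  have e1 : s + x ≠ 0 := fun h => h2 (eq_neg_of_add_eq_zero_left h)
  have e2 : s - x ≠ 0 := sub_ne_zero.mpr h1
  obtain ⟨α, hα⟩ : ∃ α : F, α * (x + x) = 1 := ⟨(x + x)⁻¹, inv_mul_cancel₀ h2x⟩
  have hα0 : α ≠ 0 := left_ne_zero_of_mul (by rw [hα]; exact one_ne_zero)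
  obtain ⟨g, hg, -, g2⟩ := psl_mk α (-α * x) 1 x (by linear_combination hα)
  have gx : g (x : OnePoint F) = ((0 : F) : OnePoint F) := by
    rw [g2, one_mul, if_neg h2x, OnePoint.coe_eq_coe]
    rw [div_eq_zero_iff]
    left
    ring
  have gnx : g ((-x : F) : OnePoint F) = ∞ := by
    rw [g2, if_pos (by ring)]
  have gs : g (s : OnePoint F) = ((α * (s - x) / (s + x) : F) : OnePoint F) := by
    rw [g2, one_mul, if_neg e1, OnePoint.coe_eq_coe]
    congr 1
    ring
  have gns : g ((-s : F) : OnePoint F) = ((α * (s + x) / (s - x) : F) : OnePoint F) := by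
    have e3 : 1 * (-s) + x ≠ 0 := by
      intro h; apply e2; linear_combination -h
    rw [g2, if_neg e3, OnePoint.coe_eq_coe, div_eq_div_iff e3 e2]
    ring
  have h3 := hr.two hx hs
  have h4 := hr.rel.inv g (hG hg) _ _ (card_xy hx.2.2.1) (card_xy hs.2.2.1) h3
  rw [map_pair, map_pair, gx, gnx, gs, gns] at h4
  have hP : PP r (α * (s - x) / (s + x)) (α * (s + x) / (s - x)) := by
    refine ⟨?_, ?_, ?_, h4⟩
    · exact div_ne_zero (mul_ne_zero hα0 e2) e1
    · exact div_ne_zero (mul_ne_zero hα0 e1) e2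
    · intro h5
      have h6 : g (s : OnePoint F) = g ((-s : F) : OnePoint F) := by rw [gs, gns, h5]
      have h7 := g.injective h6
      rw [OnePoint.coe_eq_coe] at h7
      exact hs.2.2.1 h7
  have hratio : IsSquare ((α * (s + x) / (s - x)) / (α * (s - x) / (s + x))) :=
    ⟨(s + x) / (s - x), by field_simp⟩
  obtain ⟨h5, -, h20⟩ := hr.square_case hG hP hratio
  have h6 : (s + x) ^ 2 = - (s - x) ^ 2 := by
    rw [div_eq_iff e2] at h5
    have h7 : α * (s + x) * (s + x) = -(α * (s - x)) * (s - x) := by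
      rw [h5]; field_simp
    have h8 : α * ((s + x) ^ 2 + (s - x) ^ 2) = 0 := by linear_combination h7
    have h9 := (mul_eq_zero.mp h8).resolve_left hα0
    linear_combination h9
  have h7 : (2 : F) * (s ^ 2 + x ^ 2) = 0 := by linear_combination h6
  have h8 := (mul_eq_zero.mp h7).resolve_left h20
  linear_combination h8

/-- second case: `P 1 c`, `c` a nonsquare -/
theorem PairRel.case_two [Finite F] (hr : PairRel G r) (hG : PSL2 F ≤ G) {c s : F}
    (h1 : PP r 1 c) (hc : ¬ IsSquare c) (hs : IsSquare s) (hs0 : s ≠ 0) (hs1 : s ≠ 1) :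
    c * s ^ 2 - (c + 1) * s + c = 0 ∨ s ^ 2 - (c + 1) * s + 1 = 0 := by
  have hc0 := h1.2.1
  have hc1 : (1 : F) - c ≠ 0 := sub_ne_zero.mpr h1.2.2.1
  have hPs := hr.scale' hG h1 hs0 hs
  rw [mul_one] at hPs
  have e1 : s - c ≠ 0 := by
    intro h; rw [sub_eq_zero] at h; rw [h] at hs; exact hc hs
  have e2 : s - 1 ≠ 0 := sub_ne_zero.mpr hs1
  have e3 : c * s - 1 ≠ 0 := by
    intro h
    apply hc
    have : c = 1 / s := by rw [eq_div_iff hs0]; linear_combination h
    rw [this]
    exact IsSquare.one.div hs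
  obtain ⟨g, hg, -, g2⟩ := psl_mk (1 / (1 - c)) (-(1 / (1 - c))) 1 (-c) (by field_simp; ring)
  have gx : g ((1 : F) : OnePoint F) = ((0 : F) : OnePoint F) := by
    rw [g2, if_neg (by intro h; apply hc1; linear_combination h), OnePoint.coe_eq_coe]
    rw [div_eq_zero_iff]
    left
    ring
  have gc : g (c : OnePoint F) = ∞ := by
    rw [g2, if_pos (by ring)]
  have gs : g (s : OnePoint F) = ((1 / (1 - c) * (s - 1) / (s - c) : F) : OnePoint F) := by
    have e4 : 1 * s + -c ≠ 0 := by intro h; apply e1; linear_combination h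
    rw [g2, if_neg e4, OnePoint.coe_eq_coe, div_eq_div_iff e4 e1]
    ring
  have gcs : g ((s * c : F) : OnePoint F) =
      ((1 / (1 - c) * (c * s - 1) / (c * (s - 1)) : F) : OnePoint F) := by
    have e4 : 1 * (s * c) + -c ≠ 0 := by
      intro h
      have : c * (s - 1) = 0 := by linear_combination h
      rcases mul_eq_zero.mp this with h5 | h5
      · exact hc0 h5
      · exact e2 h5
    rw [g2, if_neg e4, OnePoint.coe_eq_coe, div_eq_div_iff e4 (mul_ne_zero hc0 e2)]
    ring
  have h3 := hr.two h1 hPs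
  have h4 := hr.rel.inv g (hG hg) _ _ (card_xy h1.2.2.1) (card_xy hPs.2.2.1) h3
  rw [map_pair, map_pair, gx, gc, gs, gcs] at h4
  set u := 1 / (1 - c) * (s - 1) / (s - c) with hu
  set v := 1 / (1 - c) * (c * s - 1) / (c * (s - 1)) with hv
  have hu0 : u ≠ 0 := div_ne_zero (mul_ne_zero (one_div_ne_zero hc1) e2) e1
  have hv0 : v ≠ 0 := div_ne_zero (mul_ne_zero (one_div_ne_zero hc1) e3) (mul_ne_zero hc0 e2)
  have hP : PP r u v := by
    refine ⟨hu0, hv0, ?_, h4⟩
    intro h5
    have h6 : g (s : OnePoint F) = g ((s * c : F) : OnePoint F) := by rw [gs, gcs, h5]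
    have h7 := g.injective h6
    rw [OnePoint.coe_eq_coe] at h7
    exact hPs.2.2.1 h7
  by_cases hus : IsSquare u
  · -- `v = c u`
    have h5 := hr.scale' hG h1 hu0 hus
    rw [mul_one] at h5
    have h6 := hr.uniq hP h5
    left
    rw [hu, hv] at h6
    have h7 : (c * s - 1) * (s - c) = c * (s - 1) * ((s - 1) * c) := by
      field_simp at h6
      linear_combination h6
    have h8 : (1 - c) * (c * s ^ 2 - (c + 1) * s + c) = 0 := by linear_combination h7
    exact (mul_eq_zero.mp h8).resolve_left hc1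
  · -- `u = c v`
    have hq : IsSquare (u / c) := isSquare_div_of_not hus hc
    have h5 := hr.scale' hG h1 (div_ne_zero hu0 hc0) hq
    rw [mul_one, div_mul_cancel₀ u hc0] at h5
    have h6 := hr.uniq hP h5.symm
    right
    rw [hu, hv] at h6
    have h7 : (c * s - 1) * (s - c) = (s - 1) * (s - 1) := by
      field_simp at h6
      linear_combination h6
    have h8 : (c - 1) * (s ^ 2 - (c + 1) * s + 1) = 0 := by linear_combination h7
    refine (mul_eq_zero.mp h8).resolve_left ?_
    intro h9; apply hc1; linear_combination -h9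

end Pool.Agent.H922
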