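import Mathlib
import Pool.Agent.H922.PSLb

set_option autoImplicit false
set_option linter.style.haveILetI false
set_option linter.unusedVariables false
set_option linter.unusedSectionVars false

/-!
# 2-set primitivity of groups containing `PSL(2, q)`: the bound on `q`
-/

namespace Pool.Agent.H922

open Equiv MulAction Matrix Polynomial
open scoped OnePoint

variable {F : Type*} [Field F] [DecidableEq F] [Finite F] {G : Subgroup (Perm (OnePoint F))}
  {r : Finset (OnePoint F) → Finset (OnePoint F) → Prop}

omit [DecidableEq F] in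
theorem card_odd_of_two_ne (h2 : (2 : F) ≠ 0) : Nat.card F % 2 = 1 := by
  haveI := Fintype.ofFinite F
  have hF : ringChar F ≠ 2 := by
    intro h
    apply h2
    have := ringChar.Nat.cast_ringChar (R := F)
    rw [h] at this
    exact_mod_cast this
  rw [Nat.card_eq_fintype_card]
  exact FiniteField.odd_card_of_char_ne_two hF

omit [DecidableEq F] in
theorem neg_one_sq_iff : IsSquare (-1 : F) ↔ Nat.card F % 4 ≠ 3 := by
  haveI := Fintype.ofFinite F
  rw [Nat.card_eq_fintype_card]
  exact FiniteField.isSquare_neg_one_iff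

/-- normalisation in the nonsquare case -/
theorem PairRel.normal (hr : PairRel G r) (hG : PSL2 F ≤ G) {x y : F} (h : PP r x y)
    (hsq : ¬ IsSquare (y / x)) : ∃ c, PP r 1 c ∧ ¬ IsSquare c := by
  have hx := h.1
  have hy := h.2.1
  by_cases hxs : IsSquare x
  · have := hr.scale' hG h (inv_ne_zero hx) hxs.inv
    rw [inv_mul_cancel₀ hx] at this
    refine ⟨_, this, ?_⟩
    rwa [← div_eq_inv_mul]
  · have hys : IsSquare y := by
      have := isSquare_mul_of_not hsq hxs
      rwa [div_mul_cancel₀ y hx] at this
    have := hr.scale' hG h.symm (inv_ne_zero hy) hys.inv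
    rw [inv_mul_cancel₀ hy] at this
    refine ⟨_, this, ?_⟩
    intro h5
    apply hsq
    have e : y / x = (y⁻¹ * x)⁻¹ := by field_simp
    rw [e]
    exact h5.inv

theorem card_of_rel (hr : PairRel G r) (hG : PSL2 F ≤ G) {x y : F} (h : PP r x y) :
    Nat.card F = 3 ∨ Nat.card F = 5 ∨ Nat.card F = 7 ∨ Nat.card F = 9 ∨ Nat.card F = 11 := by
  have hq1 : 1 < Nat.card F := Finite.one_lt_card
  by_cases hsq : IsSquare (y / x)
  · obtain ⟨rfl, hm1, h2⟩ := hr.square_case hG h hsq
    have hodd := card_odd_of_two_ne h2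
    have h4 := neg_one_sq_iff.mp hm1
    have hall : ∀ a : F, a ≠ 0 → (X ^ 8 - C 1 : F[X]).eval a = 0 := by
      intro a ha
      simp only [eval_sub, eval_pow, eval_X, eval_C]
      have hPs := hr.scale hG h ha
      have hx := h.1
      by_cases h5 : a ^ 2 = 1
      · have : a ^ 8 = (a ^ 2) ^ 4 := by ring
        rw [this, h5]; ring
      by_cases h6 : a ^ 2 = -1
      · have : a ^ 8 = (a ^ 2) ^ 4 := by ring
        rw [this, h6]; ring
      have e1 : a ^ 2 * -x = -(a ^ 2 * x) := by ring
      rw [e1] at hPs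
      have h7 := hr.case_one hG h hPs (fun h8 => h5 (by
        have : (a ^ 2 - 1) * x = 0 := by linear_combination h8
        exact sub_eq_zero.mp ((mul_eq_zero.mp this).resolve_right hx)))
        (fun h8 => h6 (by
          have : (a ^ 2 + 1) * x = 0 := by linear_combination h8
          exact eq_neg_of_add_eq_zero_left ((mul_eq_zero.mp this).resolve_right hx))) hm1
      have h8 : (a ^ 4 + 1) * x ^ 2 = 0 := by linear_combination h7
      have h9 := (mul_eq_zero.mp h8).resolve_right (pow_ne_zero 2 hx)
      have : a ^ 8 - 1 = (a ^ 4 + 1) * (a ^ 4 - 1) := by ring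
      rw [this, h9, zero_mul]
    have hle := card_le_of_poly (X ^ 8 - C 1) (by
      intro h5
      have := congrArg (fun p : F[X] => p.eval 0) h5
      simp at this) hall
    have hdeg : (X ^ 8 - C 1 : F[X]).natDegree ≤ 8 := by compute_degree
    omega
  · have hm1 := hr.nonsquare_case hG h hsq
    obtain ⟨c, hc1, hc⟩ := hr.normal hG h hsq
    rw [neg_one_sq_iff] at hm1
    push Not at hm1
    let p : F[X] := (X ^ 2 - C 1) * (C c * X ^ 4 - C (c + 1) * X ^ 2 + C c) *
      (X ^ 4 - C (c + 1) * X ^ 2 + C 1)
    have hp : p ≠ 0 := by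
      intro h5
      have := congrArg (fun p : F[X] => p.eval 0) h5
      simp [p] at this
      exact hc1.2.1 this
    have hall : ∀ a : F, a ≠ 0 → p.eval a = 0 := by
      intro a ha
      simp only [p, eval_mul, eval_sub, eval_add, eval_pow, eval_X, eval_C]
      by_cases h5 : a ^ 2 = 1
      · rw [h5]; ring
      rcases hr.case_two hG hc1 hc (s := a ^ 2) ⟨a, pow_two a⟩ (pow_ne_zero 2 ha) h5 with h6 | h6
      · have : c * a ^ 4 - (c + 1) * a ^ 2 + c = 0 := by linear_combination h6
        rw [this]; ring
      · have : a ^ 4 - (c + 1) * a ^ 2 + 1 = 0 := by linear_combination h6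
        rw [this]; ring
    have hle := card_le_of_poly p hp hall
    have hdeg : p.natDegree ≤ 10 := by
      simp only [p]
      compute_degree
    omega

/-- an element with nonsquare determinant forces `q ≤ 5` -/
theorem card_of_rel_nonsq (hr : PairRel G r) (hG : PSL2 F ≤ G) {x y : F} (h : PP r x y)
    {g : Perm (OnePoint F)} (hg : g ∈ G) (g1 : g ∞ = ∞) {ν : F} {σ : F ≃+* F}
    (hν : ¬ IsSquare ν) (gx : ∀ x : F, g (x : OnePoint F) = ((ν * σ x : F) : OnePoint F)) :
    Nat.card F ≤ 5 := by
  have hν0 : ν ≠ 0 := by rintro rfl; exact hν IsSquare.zero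
  have hinv : ∀ {x y : F}, PP r x y → PP r (ν * σ x) (ν * σ y) := by
    intro x y h
    refine ⟨mul_ne_zero hν0 (by simpa using h.1), mul_ne_zero hν0 (by simpa using h.2.1),
      fun h5 => h.2.2.1 (σ.injective (mul_left_cancel₀ hν0 h5)), ?_⟩
    have h1 := hr.rel.inv g hg _ _ card_zi (card_xy h.2.2.1) h.2.2.2
    rwa [map_pair, map_pair, g1, gx, gx, gx, map_zero, mul_zero] at h1
  by_cases hsq : IsSquare (y / x)
  · obtain ⟨rfl, hm1, h2⟩ := hr.square_case hG h hsq
    have hx := h.1
    -- every nonzero `s` gives a pair `{s, -s}`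
    have hS : ∀ s : F, s ≠ 0 → PP r s (-s) := by
      intro s hs
      by_cases hsx : IsSquare (s / x)
      · have := hr.scale' hG h (div_ne_zero hs hx) hsx
        have e1 : s / x * -x = -s := by field_simp
        rwa [div_mul_cancel₀ s hx, e1] at this
      · have h3 := hinv h
        have e1 : ν * σ (-x) = -(ν * σ x) := by rw [map_neg]; ring
        rw [e1] at h3
        -- `σ x / x` is a square
        have hσx : IsSquare (σ x / x) := by
          by_cases hxs : IsSquare x
          · exact (hxs.map σ).div hxs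
          · apply isSquare_div_of_not _ hxs
            intro h5
            apply hxs
            have := h5.map σ.symm
            rwa [RingEquiv.symm_apply_apply] at this
        have hσx0 : σ x ≠ 0 := by simpa using hx
        have h4 : IsSquare (s / (ν * σ x)) := by
          have e2 : s / (ν * σ x) = (s / x) / ν / (σ x / x) := by field_simp
          rw [e2]
          exact (isSquare_div_of_not hsx hν).div hσx
        have h5 := hr.scale' hG h3 (div_ne_zero hs (mul_ne_zero hν0 hσx0)) h4
        have e3 : s / (ν * σ x) * (ν * σ x) = s := div_mul_cancel₀ s (mul_ne_zero hν0 hσx0)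
        have e4 : s / (ν * σ x) * -(ν * σ x) = -s := by rw [mul_neg, e3]
        rwa [e3, e4] at h5
    have hall : ∀ a : F, a ≠ 0 → (X ^ 4 - C 1 : F[X]).eval a = 0 := by
      intro a ha
      simp only [eval_sub, eval_pow, eval_X, eval_C]
      by_cases h5 : a = 1
      · rw [h5]; ring
      by_cases h6 : a = -1
      · rw [h6]; ring
      have h7 := hr.case_one hG (hS 1 one_ne_zero) (hS a ha) h5 h6 hm1
      have : a ^ 4 = (a ^ 2) ^ 2 := by ring
      rw [this, h7]; ring
    have hle := card_le_of_poly (X ^ 4 - C 1) (by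
      intro h5
      have := congrArg (fun p : F[X] => p.eval 0) h5
      simp at this) hall
    have hdeg : (X ^ 4 - C 1 : F[X]).natDegree ≤ 4 := by compute_degree
    omega
  · have hm1 := hr.nonsquare_case hG h hsq
    have hcard := card_of_rel hr hG h
    have hmod := mt neg_one_sq_iff.mpr hm1
    push Not at hmod
    have hprime : (Nat.card F).Prime := by
      rcases hcard with h5 | h5 | h5 | h5 | h5
      · rw [h5]; norm_num
      · omega
      · rw [h5]; norm_num
      · omega
      · rw [h5]; norm_num
    -- no automorphisms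
    have hσ : σ = 1 := by
      haveI := Fintype.ofFinite F
      obtain ⟨p, hchar⟩ := CharP.exists F
      haveI := hchar
      haveI hp : Fact p.Prime := ⟨CharP.char_is_prime F p⟩
      letI : Algebra (ZMod p) F := ZMod.algebra F p
      have hcardF : Nat.card F = p ^ Module.finrank (ZMod p) F := by
        rw [Module.natCard_eq_pow_finrank (K := ZMod p), Nat.card_zmod]
      have hn : Module.finrank (ZMod p) F = 1 := by
        by_contra hne
        rw [hcardF] at hprime
        exact Nat.Prime.not_prime_pow' hne hprime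
      have haut : Nat.card (F ≃+* F) = 1 := by
        rw [← Nat.card_congr (autEquiv (F := F) p), IsGalois.card_aut_eq_finrank (ZMod p) F]
        exact hn
      exact (Nat.card_eq_one_iff_unique.mp haut).1.elim _ _
    obtain ⟨c, hc1, hc⟩ := hr.normal hG h hsq
    have hc0 := hc1.2.1
    have h1 := hinv hc1
    rw [hσ] at h1
    change PP r (ν * 1) (ν * c) at h1
    rw [mul_one] at h1
    have hνc : IsSquare (ν * c) := isSquare_mul_of_not hν hc
    have h2 := hr.scale' hG hc1 (mul_ne_zero hν0 hc0) hνc
    rw [mul_one] at h2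
    have h3 := hr.uniq h1.symm h2
    have h4 : c ^ 2 = 1 := by
      have : ν * (c ^ 2 - 1) = 0 := by linear_combination -h3
      exact sub_eq_zero.mp ((mul_eq_zero.mp this).resolve_left hν0)
    have h5 : c = -1 := by
      have : (c - 1) * (c + 1) = 0 := by linear_combination h4
      rcases mul_eq_zero.mp this with h6 | h6
      · exact absurd (sub_eq_zero.mp h6).symm hc1.2.2.1
      · exact eq_neg_of_add_eq_zero_left h6
    have hall : ∀ a : F, a ≠ 0 → (X ^ 2 - C 1 : F[X]).eval a = 0 := by
      intro a ha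
      simp only [eval_sub, eval_pow, eval_X, eval_C]
      by_contra h6
      have h6' : a ^ 2 ≠ 1 := fun h7 => h6 (by rw [h7]; ring)
      apply hm1
      have h7 : a ^ 4 = -1 := by
        rcases hr.case_two hG hc1 hc (s := a ^ 2) ⟨a, pow_two a⟩ (pow_ne_zero 2 ha) h6' with h8 | h8
        · rw [h5] at h8; linear_combination -h8
        · rw [h5] at h8; linear_combination h8
      rw [← h7]
      exact ⟨a ^ 2, by ring⟩
    have hle := card_le_of_poly (X ^ 2 - C 1) (by
      intro h5
      have := congrArg (fun p : F[X] => p.eval 0) h5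
      simp at this) hall
    have hdeg : (X ^ 2 - C 1 : F[X]).natDegree ≤ 2 := by compute_degree
    omega

/-- If `PSL(2, q) ≤ G ≤ PΓL(2, q)` is not 2-set primitive then `q = 3`, `q = 5`, or
`q = 7, 9, 11` and `G ≤ PΣL(2, q)`. -/
theorem psl_not_set (hG : PSL2 F ≤ G) (hG' : G ≤ PGammaL F) (h : ¬ TSetPrimitive G 2) :
    Nat.card F = 3 ∨ Nat.card F = 5 ∨
      ((Nat.card F = 7 ∨ Nat.card F = 9 ∨ Nat.card F = 11) ∧ G ≤ PSigmaL F) := by
  obtain ⟨r, hr, x, y, hxy⟩ := exists_pairRel hG h
  rcases card_of_rel hr hG hxy with h3 | h5 | h7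
  · exact Or.inl h3
  · exact Or.inr (Or.inl h5)
  right; right
  refine ⟨h7, ?_⟩
  intro g hg
  by_contra hgS
  have h0 : ((0 : F) : OnePoint F) ≠ ∞ := OnePoint.coe_ne_infty 0
  obtain ⟨k, hk, k0, k1⟩ := psl_two (g ((0 : F) : OnePoint F)) (g ∞) (g.injective.ne h0)
  have hkg : k * g ∈ G := G.mul_mem (hG hk) hg
  obtain ⟨ν, σ, hν0, hx⟩ := semi_fix_two (hG' hkg) (by rw [Perm.mul_apply, k1])
    (by rw [Perm.mul_apply, k0])
  have hν : ¬ IsSquare ν := by
    intro hsq
    apply hgS
    have h8 : k * g ∈ PSigmaL F := by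
      have hd : ν * 1 - 0 * 0 ≠ 0 := by simpa using hν0
      refine ⟨mk2 ν 0 0 1 hd, σ, by rw [det_mk2]; simpa using hsq, fun z => ?_⟩
      cases z with
      | infty =>
        rw [Perm.mul_apply, k1]
        change _ = mk2 ν 0 0 1 hd • (∞ : OnePoint F)
        rw [mk2_infty, if_pos rfl]
      | coe z =>
        rw [hx]
        change _ = mk2 ν 0 0 1 hd • ((σ z : F) : OnePoint F)
        rw [mk2_coe, if_neg (by simp)]
        simp
    have h9 : g = k⁻¹ * (k * g) := by rw [inv_mul_cancel_left]
    rw [h9]
    exact (PSigmaL F).mul_mem ((PSigmaL F).inv_mem (PSL2_le_PSigmaL hk)) h8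
  have := card_of_rel_nonsq hr hG hxy hkg (by rw [Perm.mul_apply, k1]) hν hx
  omega

end Pool.Agent.H922
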