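import Mathlib
import Pool.Agent.H922.PSLc

set_option autoImplicit false
set_option linter.style.haveILetI false
set_option linter.unusedVariables false
set_option linter.unusedSectionVars false

/-!
# The exceptional groups `PSL(2, q) ≤ G ≤ PΓL(2, q)`, `q = 3, 5, 7, 9, 11`
-/

namespace Pool.Agent.H922

open Equiv MulAction Matrix
open scoped OnePoint

variable {F : Type*} [Field F] [DecidableEq F] [Finite F]

/-- the relation generated by `({0, ∞}, {1, c})` -/
def RelH (H : Subgroup (Perm (OnePoint F))) (c : F) (S T : Finset (OnePoint F)) : Prop :=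
  S = T ∨ ∃ g ∈ H, ({((0 : F) : OnePoint F), ∞} : Finset (OnePoint F)).map g.toEmbedding = S ∧
    ({((1 : F) : OnePoint F), (c : OnePoint F)} : Finset (OnePoint F)).map g.toEmbedding = T

theorem not_set_of_relH {G H : Subgroup (Perm (OnePoint F))} (hGH : G ≤ H) {c : F} (hc0 : c ≠ 0)
    (hc1 : c ≠ 1)
    (hi : ∃ h ∈ H, ({((0 : F) : OnePoint F), ∞} : Finset (OnePoint F)).map h.toEmbedding =
        {((1 : F) : OnePoint F), (c : OnePoint F)} ∧
      ({((1 : F) : OnePoint F), (c : OnePoint F)} : Finset (OnePoint F)).map h.toEmbedding =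
        {((0 : F) : OnePoint F), ∞})
    (hii : ∀ g ∈ H, ({((0 : F) : OnePoint F), ∞} : Finset (OnePoint F)).map g.toEmbedding =
        {((0 : F) : OnePoint F), ∞} →
      ({((1 : F) : OnePoint F), (c : OnePoint F)} : Finset (OnePoint F)).map g.toEmbedding =
        {((1 : F) : OnePoint F), (c : OnePoint F)} ∨
      ∃ g' ∈ H, ({((0 : F) : OnePoint F), ∞} : Finset (OnePoint F)).map g'.toEmbedding =
        ({((1 : F) : OnePoint F), (c : OnePoint F)} : Finset (OnePoint F)).map g.toEmbedding ∧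
        ({((1 : F) : OnePoint F), (c : OnePoint F)} : Finset (OnePoint F)).map g'.toEmbedding =
        {((1 : F) : OnePoint F), (c : OnePoint F)}) :
    ¬ TSetPrimitive G 2 := by
  set A : Finset (OnePoint F) := {((0 : F) : OnePoint F), ∞} with hA
  set B : Finset (OnePoint F) := {((1 : F) : OnePoint F), (c : OnePoint F)} with hB
  have hAc : A.card = 2 := card_zi
  have hBc : B.card = 2 := card_xy (Ne.symm hc1)
  have hAB : Disjoint A B := by
    rw [Finset.disjoint_left]
    intro x hx hxB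
    simp only [hA, hB, Finset.mem_insert, Finset.mem_singleton] at hx hxB
    rcases hx with rfl | rfl
    · rcases hxB with h | h
      · rw [OnePoint.coe_eq_coe] at h; exact zero_ne_one h
      · rw [OnePoint.coe_eq_coe] at h; exact hc0 h.symm
    · rcases hxB with h | h
      · exact OnePoint.infty_ne_coe _ h
      · exact OnePoint.infty_ne_coe _ h
  obtain ⟨h, hh, hhA, hhB⟩ := hi
  rw [tSetPrimitive_iff]
  rintro ⟨-, hp⟩
  have symm : ∀ S T, RelH H c S T → RelH H c T S := by
    rintro S T (rfl | ⟨g, hg, hgA, hgB⟩)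
    · exact Or.inl rfl
    · right
      refine ⟨g * h, H.mul_mem hg hh, ?_, ?_⟩
      · rw [← map_mul_perm, ← hA, hhA, hgB]
      · rw [← map_mul_perm, ← hB, hhB, hgA]
  rcases hp (RelH H c) (fun _ _ => Or.inl rfl) (fun S T _ _ h => symm S T h)
    (fun S T U _ _ _ hST hTU => by
      rcases hST with rfl | ⟨g, hg, hgA, hgB⟩
      · exact hTU
      rcases hTU with rfl | ⟨k, hk, hkA, hkB⟩
      · exact Or.inr ⟨g, hg, hgA, hgB⟩
      -- `m = k⁻¹ g h`
      have hm : k⁻¹ * g * h ∈ H := H.mul_mem (H.mul_mem (H.inv_mem hk) hg) hh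
      have hkT : T.map (k⁻¹ : Perm (OnePoint F)).toEmbedding = A := map_inv_perm hkA
      have hmA : A.map (k⁻¹ * g * h : Perm (OnePoint F)).toEmbedding = A := by
        rw [← map_mul_perm, ← map_mul_perm, hhA, hgB, hkT]
      have hmB : B.map (k⁻¹ * g * h : Perm (OnePoint F)).toEmbedding =
          S.map (k⁻¹ : Perm (OnePoint F)).toEmbedding := by
        rw [← map_mul_perm, ← map_mul_perm, hhB, hgA]
      have hSk : ∀ V, S.map (k⁻¹ : Perm (OnePoint F)).toEmbedding = V →
          S = V.map k.toEmbedding := by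
        intro V hV
        rw [← hV, map_mul_perm, mul_inv_cancel, map_one_perm]
      rcases hii _ hm hmA with h5 | ⟨g', hg', h5, h6⟩
      · left
        rw [hmB] at h5
        rw [hSk _ h5, hkB]
      · right
        rw [hmB] at h5
        refine ⟨k * g', H.mul_mem hk hg', ?_, ?_⟩
        · rw [← map_mul_perm, h5]
          exact (hSk _ rfl).symm
        · rw [← map_mul_perm, h6, hkB])
    (fun g hg S T _ _ hST => by
      rcases hST with rfl | ⟨k, hk, hkA, hkB⟩
      · exact Or.inl rfl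
      · right
        refine ⟨g * k, H.mul_mem (hGH hg) hk, ?_, ?_⟩
        · rw [← map_mul_perm, hkA]
        · rw [← map_mul_perm, hkB]) with h1 | h1
  · have h2 := h1 A B hAc hBc (Or.inr ⟨1, H.one_mem, map_one_perm, map_one_perm⟩)
    rw [h2] at hAB
    have h3 : B = ∅ := by simpa using hAB
    rw [h3] at hBc
    simp at hBc
  · have hC : ({((0 : F) : OnePoint F), ((1 : F) : OnePoint F)} : Finset (OnePoint F)).card = 2 :=
      card_xy zero_ne_one
    rcases h1 A _ hAc hC with h2 | ⟨g, hg, hgA, hgB⟩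
    · have : (∞ : OnePoint F) ∈ ({((0 : F) : OnePoint F), ((1 : F) : OnePoint F)} :
          Finset (OnePoint F)) := by rw [← h2]; simp [hA]
      simp only [Finset.mem_insert, Finset.mem_singleton] at this
      rcases this with h3 | h3
      · exact OnePoint.infty_ne_coe _ h3
      · exact OnePoint.infty_ne_coe _ h3
    · have h3 : Disjoint (A.map g.toEmbedding) (B.map g.toEmbedding) :=
        (Finset.disjoint_map _).mpr hAB
      rw [hgA, hgB, Finset.disjoint_left] at h3
      exact h3 (show ((0 : F) : OnePoint F) ∈ A by simp [hA]) (by simp)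

/-- elements of `PΓL(2, F)` preserving `{0, ∞}` -/
theorem fix_pair {g : Perm (OnePoint F)} (hg : g ∈ PGammaL F)
    (h : ({((0 : F) : OnePoint F), ∞} : Finset (OnePoint F)).map g.toEmbedding =
      {((0 : F) : OnePoint F), ∞}) :
    ∃ (ν : F) (σ : F ≃+* F), ν ≠ 0 ∧ (g ∈ PSigmaL F → IsSquare ν) ∧
      ((∀ x : F, x ≠ 0 → g (x : OnePoint F) = ((ν * σ x : F) : OnePoint F)) ∨
      (∀ x : F, x ≠ 0 → g (x : OnePoint F) = ((ν * σ (-1 / x) : F) : OnePoint F))) := by
  have h0 : ((0 : F) : OnePoint F) ≠ ∞ := OnePoint.coe_ne_infty 0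
  rw [map_pair] at h
  -- the square condition
  have hsq : ∀ (k : Perm (OnePoint F)) (ν : F) (σ : F ≃+* F), ν ≠ 0 → k ∞ = ∞ →
      (∀ x : F, k (x : OnePoint F) = ((ν * σ x : F) : OnePoint F)) → k ∈ PSigmaL F →
      IsSquare ν := by
    rintro k ν σ hν k1 hx ⟨A, τ, hAs, hA⟩
    have e1 : A • (∞ : OnePoint F) = ∞ := by
      have := hA ∞
      rw [k1] at this
      exact this.symm
    have e2 : A • ((0 : F) : OnePoint F) = ((0 : F) : OnePoint F) := by
      have := hA ((0 : F) : OnePoint F)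
      rw [hx, map_zero, mul_zero, OnePoint.map_some, map_zero] at this
      exact this.symm
    have e3 : A • ((1 : F) : OnePoint F) = ((ν : F) : OnePoint F) := by
      have := hA ((1 : F) : OnePoint F)
      rw [hx, map_one, mul_one, OnePoint.map_some, map_one] at this
      exact this.symm
    rw [OnePoint.smul_infty_eq_self_iff] at e1
    have hdet := A.det_ne_zero
    have hdet' : (A.det : F) = A 0 0 * A 1 1 - A 0 1 * A 1 0 := by
      simp only [GeneralLinearGroup.val_det_apply]
      exact det_fin_two _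
    rw [det_fin_two, e1, mul_zero, sub_zero] at hdet
    have ha : A 0 0 ≠ 0 := left_ne_zero_of_mul hdet
    have hd : A 1 1 ≠ 0 := right_ne_zero_of_mul hdet
    rw [OnePoint.smul_some_eq_ite, e1, mul_zero, zero_add, if_neg hd, mul_zero, zero_add,
      OnePoint.coe_eq_coe, div_eq_zero_iff] at e2
    have hb : A 0 1 = 0 := e2.resolve_right hd
    rw [OnePoint.smul_some_eq_ite, e1, zero_mul, zero_add, if_neg hd, hb, add_zero,
      OnePoint.coe_eq_coe, mul_one] at e3
    rw [hdet', hb, zero_mul, sub_zero] at hAs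
    have : ν = (A 0 0 * A 1 1) * ((A 1 1)⁻¹ * (A 1 1)⁻¹) := by
      rw [← e3]; field_simp
    rw [this]
    exact hAs.mul ⟨_, rfl⟩
  by_cases hfix : g ∞ = ∞
  · have h00 : g ((0 : F) : OnePoint F) = ((0 : F) : OnePoint F) := by
      have : g ((0 : F) : OnePoint F) ∈ ({((0 : F) : OnePoint F), ∞} : Finset (OnePoint F)) := by
        rw [← h]; simp
      simp only [Finset.mem_insert, Finset.mem_singleton] at this
      rcases this with h5 | h5
      · exact h5
      · exact absurd (g.injective (h5.trans hfix.symm)) h0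
    obtain ⟨ν, σ, hν, hx⟩ := semi_fix_two hg hfix h00
    exact ⟨ν, σ, hν, hsq g ν σ hν hfix hx, Or.inl fun x _ => hx x⟩
  · have h1 : g ∞ = ((0 : F) : OnePoint F) := by
      have : g ∞ ∈ ({((0 : F) : OnePoint F), ∞} : Finset (OnePoint F)) := by
        rw [← h]; simp
      simp only [Finset.mem_insert, Finset.mem_singleton] at this
      exact this.resolve_right hfix
    have h2 : g ((0 : F) : OnePoint F) = ∞ := by
      have : g ((0 : F) : OnePoint F) ∈ ({((0 : F) : OnePoint F), ∞} : Finset (OnePoint F)) := by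
        rw [← h]; simp
      simp only [Finset.mem_insert, Finset.mem_singleton] at this
      rcases this with h5 | h5
      · exact absurd (g.injective (h5.trans h1.symm)) h0
      · exact h5
    obtain ⟨w, hw, w1, w2, w3⟩ := psl_swap (F := F)
    have hwP : w ∈ PGammaL F := PGL2_le (PSL2_le_PGL2 hw)
    have f1 : (g * w) ∞ = ∞ := by rw [Perm.mul_apply, w1, h2]
    obtain ⟨ν, σ, hν, hx⟩ := semi_fix_two ((PGammaL F).mul_mem hg hwP)
      f1 (by rw [Perm.mul_apply, w2, h1])
    refine ⟨ν, σ, hν, fun hgS => hsq (g * w) ν σ hν f1 hx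
      ((PSigmaL F).mul_mem hgS (PSL2_le_PSigmaL hw)), Or.inr fun x hx0 => ?_⟩
    have hx1 : (-1 / x : F) ≠ 0 := div_ne_zero (neg_ne_zero.mpr one_ne_zero) hx0
    have e1 := hx (-1 / x)
    rw [Perm.mul_apply, w3 _ hx1] at e1
    have e2 : -1 / (-1 / x) = x := by field_simp
    rwa [e2] at e1

/-- an element of `PΓL(2, F)` with given coefficients -/
theorem pgl_mk (a b c d : F) (h : a * d - b * c ≠ 0) : ∃ g ∈ PGammaL F,
    (IsSquare (a * d - b * c) → g ∈ PSigmaL F) ∧
    (g ∞ = if c = 0 then ∞ else ((a / c : F) : OnePoint F)) ∧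
    ∀ x : F, g (x : OnePoint F) =
      if c * x + d = 0 then ∞ else (((a * x + b) / (c * x + d) : F) : OnePoint F) := by
  refine ⟨MulAction.toPerm (mk2 a b c d h), PGL2_le (mem_PGL2.mpr ⟨_, fun x => rfl⟩),
    fun hsq => ⟨mk2 a b c d h, RingEquiv.refl F, by rw [det_mk2]; exact hsq, fun x => ?_⟩,
    mk2_infty, fun x => mk2_coe⟩
  have : OnePoint.map (RingEquiv.refl F) x = x := by cases x <;> rfl
  rw [this]
  rfl

/-- harmonic pairs: `c = -1` -/
theorem not_set_neg_one {G H : Subgroup (Perm (OnePoint F))} (hGH : G ≤ H)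
    (hH : H = PGammaL F ∧ (∀ x : F, x ≠ 0 → x ^ 2 = 1 ∨ x ^ 2 = -1) ∨
      H = PSigmaL F ∧ (∀ x : F, x ≠ 0 → IsSquare x → x ^ 2 = 1 ∨ x ^ 2 = -1) ∧
        IsSquare (2 : F)) (h2 : (2 : F) ≠ 0) : ¬ TSetPrimitive G 2 := by
  have hle : H ≤ PGammaL F := by
    rcases hH with ⟨rfl, -⟩ | ⟨rfl, -⟩
    · exact le_rfl
    · exact PSigmaL_le
  have hmk : ∀ g : Perm (OnePoint F), g ∈ PGammaL F → (IsSquare (2 : F) → g ∈ PSigmaL F) →
      g ∈ H := by
    intro g hg hg'
    rcases hH with ⟨rfl, -⟩ | ⟨rfl, -, h5⟩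
    · exact hg
    · exact hg' h5
  have h11 : (1 : F) ≠ -1 := by
    intro h; apply h2; linear_combination h
  apply not_set_of_relH hGH (c := (-1 : F)) (neg_ne_zero.mpr one_ne_zero) (Ne.symm h11)
  · -- `h z = (z + 1) / (1 - z)`
    have hd : (1 : F) * 1 - 1 * (-1) ≠ 0 := by
      intro h; apply h2; linear_combination h
    obtain ⟨g, hg, hgS, g1, g2⟩ := pgl_mk (1 : F) 1 (-1) 1 hd
    refine ⟨g, hmk g hg (fun h => hgS (by
      have e : (1 : F) * 1 - 1 * (-1) = 2 := by ring
      rw [e]; exact h)), ?_, ?_⟩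
    · rw [map_pair, g1, if_neg (neg_ne_zero.mpr one_ne_zero), g2, if_neg (by simp)]
      have e1 : (1 * 0 + 1) / (-1 * 0 + 1) = (1 : F) := by simp
      have e2 : (1 : F) / -1 = -1 := by field_simp
      rw [e1, e2]
    · rw [map_pair, g2, if_pos (by ring), g2, if_neg (by
        intro h; apply h2; linear_combination h)]
      have e1 : (1 * -1 + 1) / (-1 * -1 + 1) = (0 : F) := by
        rw [div_eq_zero_iff]; left; ring
      rw [e1, Finset.pair_comm]
  · intro g hg hgp
    obtain ⟨ν, σ, hν, hνsq, hx⟩ := fix_pair (hle hg) hgp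
    -- the image of `{1, -1}` is `{ν, -ν}`
    have himg : ({((1 : F) : OnePoint F), ((-1 : F) : OnePoint F)} :
        Finset (OnePoint F)).map g.toEmbedding = {(ν : OnePoint F), ((-ν : F) : OnePoint F)} := by
      rw [map_pair]
      rcases hx with hx | hx
      · rw [hx 1 one_ne_zero, hx (-1) (neg_ne_zero.mpr one_ne_zero), map_one, map_neg, map_one,
          mul_one, mul_neg, mul_one]
      · have e1 : (-1 : F) / 1 = -1 := by simp
        have e2 : (-1 : F) / -1 = 1 := by field_simp
        rw [hx 1 one_ne_zero, hx (-1) (neg_ne_zero.mpr one_ne_zero), e1, e2, map_one, map_neg,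
          map_one, mul_one, mul_neg, mul_one, Finset.pair_comm]
    have hν2 : ν ^ 2 = 1 ∨ ν ^ 2 = -1 := by
      rcases hH with ⟨rfl, h5⟩ | ⟨rfl, h5, -⟩
      · exact h5 ν hν
      · exact h5 ν hν (hνsq hg)
    rw [himg]
    rcases hν2 with h5 | h5
    · left
      have : (ν - 1) * (ν + 1) = 0 := by linear_combination h5
      rcases mul_eq_zero.mp this with h6 | h6
      · rw [sub_eq_zero.mp h6]
      · rw [eq_neg_of_add_eq_zero_left h6, neg_neg, Finset.pair_comm]
    · right
      -- `g' z = (z + ν) / (ν z + 1)`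
      have hd : (1 : F) * 1 - ν * ν ≠ 0 := by
        intro h; apply h2; linear_combination h + h5
      obtain ⟨g', hg', hgS', g1', g2'⟩ := pgl_mk (1 : F) ν ν 1 hd
      have n1 : ν + 1 ≠ 0 := by
        intro h; apply h2; linear_combination (1 - ν) * h + h5
      have n2 : ν - 1 ≠ 0 := by
        intro h; apply h2; linear_combination (-1 - ν) * h + h5
      refine ⟨g', hmk g' hg' (fun h => hgS' (by
        have e : (1 : F) * 1 - ν * ν = 2 := by linear_combination -h5
        rw [e]; exact h)), ?_, ?_⟩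
      · rw [map_pair, g1', if_neg hν, g2', if_neg (by simp)]
        have e1 : (1 * 0 + ν) / (ν * 0 + 1) = ν := by simp
        have e2 : 1 / ν = -ν := by rw [div_eq_iff hν]; linear_combination h5
        rw [e1, e2]
      · rw [map_pair, g2', if_neg (by rw [mul_one]; exact n1), g2', if_neg (by
          intro h; apply n2; linear_combination -h)]
        have e1 : (1 * 1 + ν) / (ν * 1 + 1) = 1 := by
          rw [div_eq_iff (by rw [mul_one]; exact n1)]; ring
        have e2 : (1 * -1 + ν) / (ν * -1 + 1) = -1 := by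
          rw [div_eq_iff (by intro h; apply n2; linear_combination -h)]; ring
        rw [e1, e2]

/-- the condition for the pairs `{s, c s}` and `{1, c}` -/
def Wit {K : Type*} [Field K] (c s α β γ δ : K) : Prop :=
  IsSquare (α * δ - β * γ) ∧ α * δ - β * γ ≠ 0 ∧ β = s * δ ∧ α = c * s * γ ∧ γ ≠ 0 ∧ δ ≠ 0 ∧
    γ + δ ≠ 0 ∧ γ * c + δ ≠ 0 ∧ ((α + β = γ + δ ∧ α * c + β = c * (γ * c + δ)) ∨
      (α + β = c * (γ + δ) ∧ α * c + β = γ * c + δ))

/-- `c` a nonsquare, `-1` a nonsquare -/
theorem not_set_wit {G : Subgroup (Perm (OnePoint F))} (hG : G ≤ PSigmaL F) {c : F}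
    (hc0 : c ≠ 0) (hc : ¬ IsSquare c) (hm : ¬ IsSquare (-1 : F)) (haut : ∀ σ : F ≃+* F, σ c = c)
    (hi : IsSquare (c * (1 - c)))
    (hw : ∀ s : F, s ≠ 0 → IsSquare s → s ≠ 1 → ∃ α β γ δ, Wit c s α β γ δ) :
    ¬ TSetPrimitive G 2 := by
  have hc1 : c ≠ 1 := by rintro rfl; exact hc IsSquare.one
  have h1c : 1 - c ≠ 0 := sub_ne_zero.mpr (Ne.symm hc1)
  apply not_set_of_relH hG hc0 hc1
  · -- `h z = (-c z + c) / (-z + c)`
    have hd : (-c) * c - c * (-1) ≠ 0 := by
      have : (-c) * c - c * (-1) = c * (1 - c) := by ring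
      rw [this]
      exact mul_ne_zero hc0 h1c
    obtain ⟨g, hg, hgS, g1, g2⟩ := pgl_mk (-c) c (-1) c hd
    refine ⟨g, hgS (by
      have e : (-c) * c - c * (-1) = c * (1 - c) := by ring
      rw [e]; exact hi), ?_, ?_⟩
    · rw [map_pair, g1, if_neg (neg_ne_zero.mpr one_ne_zero), g2, if_neg (by simpa using hc0)]
      have e1 : (-c * 0 + c) / (-1 * 0 + c) = 1 := by
        rw [mul_zero, zero_add, mul_zero, zero_add, div_self hc0]
      have e2 : -c / -1 = c := by field_simp
      rw [e1, e2]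
    · rw [map_pair, g2, if_neg (by
        intro h; apply h1c; linear_combination -h), g2, if_pos (by ring)]
      have e1 : (-c * 1 + c) / (-1 * 1 + c) = 0 := by
        rw [div_eq_zero_iff]; left; ring
      rw [e1]
  · intro g hg hgp
    obtain ⟨ν, σ, hν, hνsq, hx⟩ := fix_pair (PSigmaL_le hg) hgp
    -- the image of `{1, c}` is `{s, c s}`
    obtain ⟨s, hs0, hs, himg⟩ : ∃ s : F, s ≠ 0 ∧ IsSquare s ∧
        ({((1 : F) : OnePoint F), (c : OnePoint F)} : Finset (OnePoint F)).map g.toEmbedding =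
        {(s : OnePoint F), ((c * s : F) : OnePoint F)} := by
      rcases hx with hx | hx
      · refine ⟨ν, hν, hνsq hg, ?_⟩
        rw [map_pair, hx 1 one_ne_zero, hx c hc0, map_one, haut, mul_one, mul_comm ν c]
      · refine ⟨-ν / c, div_ne_zero (neg_ne_zero.mpr hν) hc0, ?_, ?_⟩
        · have e : -ν / c = ν * ((-1) / c) := by field_simp
          rw [e]
          exact (hνsq hg).mul (isSquare_div_of_not hm hc)
        · have e1 : (-1 : F) / 1 = -1 := by simp
          rw [map_pair, hx 1 one_ne_zero, hx c hc0, e1, map_neg, map_one, map_div₀, map_neg,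
            map_one, haut, Finset.pair_comm]
          have e2 : ν * (-1 / c) = -ν / c := by field_simp
          have e3 : ν * -1 = c * (-ν / c) := by field_simp
          rw [e2, e3]
    rw [himg]
    by_cases hs1 : s = 1
    · left
      rw [hs1, mul_one]
    right
    obtain ⟨α, β, γ, δ, w1, w2, w3, w4, w5, w6, w7, w8, w9⟩ := hw s hs0 hs hs1
    obtain ⟨g', hg', hgS', g1', g2'⟩ := pgl_mk α β γ δ w2
    refine ⟨g', hgS' w1, ?_, ?_⟩
    · rw [map_pair, g1', if_neg w5, g2', if_neg (by rw [mul_zero, zero_add]; exact w6)]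
      have e1 : (α * 0 + β) / (γ * 0 + δ) = s := by
        rw [mul_zero, zero_add, mul_zero, zero_add, div_eq_iff w6, w3]
      have e2 : α / γ = c * s := by rw [div_eq_iff w5, w4]
      rw [e1, e2]
    · rw [map_pair, g2', if_neg (by rw [mul_one]; exact w7), g2', if_neg w8]
      rcases w9 with ⟨w9, w10⟩ | ⟨w9, w10⟩
      · have e1 : (α * 1 + β) / (γ * 1 + δ) = 1 := by
          rw [mul_one, mul_one, div_eq_iff w7, one_mul, w9]
        have e2 : (α * c + β) / (γ * c + δ) = c := by
          rw [div_eq_iff w8, w10]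
        rw [e1, e2]
      · have e1 : (α * 1 + β) / (γ * 1 + δ) = c := by
          rw [mul_one, mul_one, div_eq_iff w7, w9]
        have e2 : (α * c + β) / (γ * c + δ) = 1 := by
          rw [div_eq_iff w8, one_mul, w10]
        rw [e1, e2, Finset.pair_comm]

/-- transport of witnesses along a ring homomorphism -/
theorem Wit.map {K L : Type*} [Field K] [Field L] (f : K →+* L) {c s α β γ δ : K}
    (h : Wit c s α β γ δ) : Wit (f c) (f s) (f α) (f β) (f γ) (f δ) := by
  obtain ⟨w1, w2, w3, w4, w5, w6, w7, w8, w9⟩ := h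
  have hi := f.injective
  refine ⟨?_, ?_, ?_, ?_, ?_, ?_, ?_, ?_, ?_⟩
  · rw [← map_mul, ← map_mul, ← map_sub]; exact w1.map f
  · rw [← map_mul, ← map_mul, ← map_sub]; exact (map_ne_zero f).mpr w2
  · rw [w3, map_mul]
  · rw [w4, map_mul, map_mul]
  · exact (map_ne_zero f).mpr w5
  · exact (map_ne_zero f).mpr w6
  · rw [← map_add]; exact (map_ne_zero f).mpr w7
  · rw [← map_mul, ← map_add]; exact (map_ne_zero f).mpr w8
  · rcases w9 with ⟨w9, w10⟩ | ⟨w9, w10⟩
    · left
      exact ⟨by rw [← map_add, w9, map_add],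
        by rw [← map_mul, ← map_add, w10, map_mul, map_add, map_mul]⟩
    · right
      exact ⟨by rw [← map_add, w9, map_mul, map_add],
        by rw [← map_mul, ← map_add, w10, map_add, map_mul]⟩

/-- a field with a prime number of elements -/
theorem exists_zmod_equiv {p : ℕ} [Fact p.Prime] (h : Nat.card F = p) :
    Nonempty (ZMod p ≃+* F) := by
  haveI := Fintype.ofFinite F
  haveI : CharP F p := by
    rw [Nat.card_eq_fintype_card] at h
    exact charP_of_card_eq_prime h
  exact ⟨ZMod.ringEquiv F (by rw [← Nat.card_eq_fintype_card]; exact h)⟩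

theorem seven_isSquare : ∀ s : ZMod 7, s ≠ 0 → IsSquare s → s = 1 ∨ s = 2 ∨ s = 4 := by decide

theorem eleven_isSquare : ∀ s : ZMod 11, s ≠ 0 → IsSquare s →
    s = 1 ∨ s = 3 ∨ s = 4 ∨ s = 5 ∨ s = 9 := by decide

theorem not_set_of_equiv {p : ℕ} [Fact p.Prime] (e : ZMod p ≃+* F)
    {G : Subgroup (Perm (OnePoint F))} (hG : G ≤ PSigmaL F) {c : ZMod p}
    (hc0 : c ≠ 0) (hc : ¬ IsSquare c) (hm : ¬ IsSquare (-1 : ZMod p))
    (hi : IsSquare (c * (1 - c)))
    (hw : ∀ s : ZMod p, s ≠ 0 → IsSquare s → s ≠ 1 → ∃ α β γ δ, Wit c s α β γ δ) :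
    ¬ TSetPrimitive G 2 := by
  have hsq : ∀ x : ZMod p, IsSquare (e x) ↔ IsSquare x := by
    intro x
    constructor
    · intro h
      have := h.map e.symm
      rwa [e.symm_apply_apply] at this
    · intro h; exact h.map e
  apply not_set_wit hG (c := e c) (by simpa using hc0) (by rw [hsq]; exact hc)
  · have : (-1 : F) = e (-1) := by simp
    rw [this, hsq]; exact hm
  · intro σ
    have h1 : (σ : F →+* F).comp (e : ZMod p →+* F) = (e : ZMod p →+* F) := Subsingleton.elim _ _
    exact congrArg (fun f : ZMod p →+* F => f c) h1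
  · have : e c * (1 - e c) = e (c * (1 - c)) := by simp
    rw [this, hsq]; exact hi
  · intro s hs0 hs hs1
    obtain ⟨t, rfl⟩ := e.surjective s
    rw [hsq] at hs
    obtain ⟨α, β, γ, δ, h⟩ := hw t (by simpa using hs0) hs (by rintro rfl; exact hs1 (map_one e))
    exact ⟨_, _, _, _, h.map (e : ZMod p →+* F)⟩

end Pool.Agent.H922
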