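import Mathlib
import Pool.Agent.H922.PSLd

set_option autoImplicit false
set_option linter.style.haveILetI false
set_option linter.unusedVariables false
set_option linter.unusedSectionVars false

/-!
# `PSL(2, q) ≤ G ≤ PΓL(2, q)`: the small cases and the final statement
-/

namespace Pool.Agent.H922

open Equiv MulAction Matrix
open scoped OnePoint

variable {F : Type*} [Field F] [DecidableEq F] [Finite F]

instance fact_seven : Fact (Nat.Prime 7) := ⟨by norm_num⟩

instance fact_eleven : Fact (Nat.Prime 11) := ⟨by norm_num⟩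

theorem not_set_seven {G : Subgroup (Perm (OnePoint F))} (hG : G ≤ PSigmaL F)
    (h : Nat.card F = 7) : ¬ TSetPrimitive G 2 := by
  obtain ⟨e⟩ := exists_zmod_equiv h
  apply not_set_of_equiv e hG (c := 3) (by decide) (by decide) (by decide) (by decide)
  intro s hs0 hs hs1
  rcases seven_isSquare s hs0 hs with rfl | rfl | rfl
  · exact absurd rfl hs1
  · exact ⟨6, 4, 1, 2, by unfold Wit; decide⟩
  · exact ⟨5, 4, 1, 1, by unfold Wit; decide⟩

theorem not_set_eleven {G : Subgroup (Perm (OnePoint F))} (hG : G ≤ PSigmaL F)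
    (h : Nat.card F = 11) : ¬ TSetPrimitive G 2 := by
  obtain ⟨e⟩ := exists_zmod_equiv h
  apply not_set_of_equiv e hG (c := 2) (by decide) (by decide) (by decide) (by decide)
  intro s hs0 hs hs1
  rcases eleven_isSquare s hs0 hs with rfl | rfl | rfl | rfl | rfl
  · exact absurd rfl hs1
  · exact ⟨6, 9, 1, 3, by unfold Wit; decide⟩
  · exact ⟨8, 9, 1, 5, by unfold Wit; decide⟩
  · exact ⟨10, 5, 1, 1, by unfold Wit; decide⟩
  · exact ⟨7, 3, 1, 4, by unfold Wit; decide⟩

theorem two_ne_of_odd (h : Nat.card F % 2 = 1) : (2 : F) ≠ 0 := by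
  intro h2
  haveI := Fintype.ofFinite F
  have h3 : ringChar F = 2 := by
    have hd : ringChar F ∣ 2 := by
      rw [← ringChar.spec]; exact_mod_cast h2
    rcases (Nat.dvd_prime Nat.prime_two).mp hd with h4 | h4
    · exact absurd h4 (CharP.ringChar_ne_one)
    · exact h4
  have h5 := FiniteField.even_card_of_char_two h3
  rw [← Nat.card_eq_fintype_card] at h5
  omega

theorem not_set_five {G : Subgroup (Perm (OnePoint F))} (hG : G ≤ PGammaL F)
    (h : Nat.card F = 5) : ¬ TSetPrimitive G 2 := by
  haveI := Fintype.ofFinite F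
  refine not_set_neg_one hG (Or.inl ⟨rfl, fun x hx => ?_⟩) (two_ne_of_odd (by rw [h]))
  have h1 := FiniteField.pow_card_sub_one_eq_one x hx
  rw [← Nat.card_eq_fintype_card, h] at h1
  have h2 : (x ^ 2 - 1) * (x ^ 2 + 1) = 0 := by
    have : x ^ (5 - 1) = x ^ 4 := rfl
    rw [this] at h1
    linear_combination h1
  rcases mul_eq_zero.mp h2 with h3 | h3
  · left; linear_combination h3
  · right; linear_combination h3

theorem not_set_nine {G : Subgroup (Perm (OnePoint F))} (hG : G ≤ PSigmaL F)
    (h : Nat.card F = 9) : ¬ TSetPrimitive G 2 := by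
  haveI := Fintype.ofFinite F
  have h2 : (2 : F) ≠ 0 := two_ne_of_odd (by rw [h])
  have h3 : (3 : F) = 0 := by
    haveI : CharP F (ringChar F) := ringChar.charP F
    obtain ⟨n, hp, hn⟩ := FiniteField.card F (ringChar F)
    rw [← Nat.card_eq_fintype_card, h] at hn
    have : ringChar F ∣ 9 := by rw [hn]; exact dvd_pow_self _ n.pos.ne'
    have h4 : ringChar F = 3 := by
      have : ringChar F ∣ 3 ^ 2 := this
      exact (Nat.prime_dvd_prime_iff_eq hp Nat.prime_three).mp (hp.dvd_of_dvd_pow this)
    have := CharP.cast_eq_zero F (ringChar F)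
    rw [h4] at this
    exact_mod_cast this
  refine not_set_neg_one hG (Or.inr ⟨rfl, fun x hx hxs => ?_, ?_⟩) h2
  · obtain ⟨y, rfl⟩ := hxs
    have hy : y ≠ 0 := by rintro rfl; exact hx (mul_zero 0)
    have h1 := FiniteField.pow_card_sub_one_eq_one y hy
    rw [← Nat.card_eq_fintype_card, h] at h1
    have : y ^ (9 - 1) = y ^ 8 := rfl
    rw [this] at h1
    have h4 : ((y * y) ^ 2 - 1) * ((y * y) ^ 2 + 1) = 0 := by linear_combination h1
    rcases mul_eq_zero.mp h4 with h5 | h5
    · left; linear_combination h5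
    · right; linear_combination h5
  · have : (2 : F) = -1 := by linear_combination h3
    rw [this, neg_one_sq_iff, h]
    norm_num

end Pool.Agent.H922
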