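import Mathlib
import Pool.Agent.H922.Defs7
import Pool.Agent.H922.PSLe
import Pool.Agent.H922.Transp

set_option autoImplicit false
set_option linter.style.haveILetI false
set_option linter.unusedVariables false
set_option linter.unusedSectionVars false

/-!
# `PSL(2, q) ≤ G ≤ PΓL(2, q)`, `t = 2`: final statement
-/

namespace Pool.Agent.H922

open Equiv MulAction Matrix
open scoped OnePoint

universe u

variable {X : Type u} [Finite X] [DecidableEq X] {G : Subgroup (Perm X)}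

theorem conjGroup_le_iff {Y Z : Type*} {e : Y ≃ Z} {H : Subgroup (Perm Y)}
    {K : Subgroup (Perm Z)} : conjGroup e H ≤ K ↔ H ≤ conjGroup e.symm K := by
  constructor
  · intro h g hg
    have h1 : e.permCongr g ∈ conjGroup e H := ⟨g, hg, rfl⟩
    refine ⟨e.permCongr g, h h1, ?_⟩
    ext x
    simp [Equiv.permCongrHom]
  · rintro h g ⟨k, hk, rfl⟩
    obtain ⟨m, hm, hmk⟩ := h hk
    have : (e.permCongrHom.toMonoidHom k : Perm Z) = m := by
      rw [← hmk]
      ext x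
      simp [Equiv.permCongrHom]
    rw [this]
    exact hm

theorem le_conjGroup_iff {Y Z : Type*} {e : Y ≃ Z} {H : Subgroup (Perm Y)}
    {K : Subgroup (Perm Z)} : K ≤ conjGroup e H ↔ conjGroup e.symm K ≤ H := by
  rw [conjGroup_le_iff, Equiv.symm_symm]

/-- 2-transitivity and 2-primitivity -/
theorem IsPSL2.two {q : ℕ} (h : IsPSL2 G q) : TTransitive G 2 ∧ TPrimitive G 2 := by
  obtain ⟨F, iF, iD, e, hq, h1, h2⟩ := h
  haveI : Finite (OnePoint F) := Finite.of_equiv X e.symm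
  haveI : Finite F := Finite.of_injective (fun x : F => (x : OnePoint F))
    (fun x y h => OnePoint.coe_eq_coe.mp h)
  exact ⟨(trans_conj.mpr psl_two_trans).mono h1, (prim_conj.mpr psl_two_prim).mono h1⟩

theorem IsPSigma2.isPSL2 {q : ℕ} (h : IsPSigma2 G q) : IsPSL2 G q := by
  obtain ⟨F, iF, iD, e, hq, h1, h2⟩ := h
  exact ⟨F, iF, iD, e, hq, h1, h2.trans (Subgroup.map_mono PSigmaL_le)⟩

/-- the groups which are not 2-set primitive -/
theorem IsPSL2.not_set {q : ℕ} (h : IsPSL2 G q) (hs : ¬ TSetPrimitive G 2) : ListPSL2 G := by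
  obtain ⟨F, iF, iD, e, hq, h1, h2⟩ := h
  haveI : Finite (OnePoint F) := Finite.of_equiv X e.symm
  haveI : Finite F := Finite.of_injective (fun x : F => (x : OnePoint F))
    (fun x y h => OnePoint.coe_eq_coe.mp h)
  have h3 : PSL2 F ≤ conjGroup e.symm G := conjGroup_le_iff.mp h1
  have h4 : conjGroup e.symm G ≤ PGammaL F := le_conjGroup_iff.mp h2
  have h5 : ¬ TSetPrimitive (conjGroup e.symm G) 2 := by rw [set_conj]; exact hs
  rcases psl_not_set h3 h4 h5 with h6 | h6 | ⟨h6, h7⟩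
  · exact Or.inl ⟨F, iF, iD, e, h6, h1, h2⟩
  · exact Or.inr (Or.inl ⟨F, iF, iD, e, h6, h1, h2⟩)
  · have h8 : G ≤ conjGroup e (PSigmaL F) := le_conjGroup_iff.mpr h7
    rcases h6 with h6 | h6 | h6
    · exact Or.inr (Or.inr (Or.inl ⟨F, iF, iD, e, h6, h1, h8⟩))
    · exact Or.inr (Or.inr (Or.inr (Or.inl ⟨F, iF, iD, e, h6, h1, h8⟩)))
    · exact Or.inr (Or.inr (Or.inr (Or.inr ⟨F, iF, iD, e, h6, h1, h8⟩)))

theorem ListPSL2.isPSL2 (h : ListPSL2 G) : ∃ q, IsPSL2 G q := by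
  rcases h with h | h | h | h | h
  · exact ⟨_, h⟩
  · exact ⟨_, h⟩
  · exact ⟨_, h.isPSL2⟩
  · exact ⟨_, h.isPSL2⟩
  · exact ⟨_, h.isPSL2⟩

/-- the converse -/
theorem ListPSL2.not_set (h : ListPSL2 G) : ¬ TSetPrimitive G 2 := by
  have key : ∀ (F : Type u) (_ : Field F) (_ : DecidableEq F) (e : OnePoint F ≃ X),
      Finite F ∧ (¬ TSetPrimitive (conjGroup e.symm G) 2 → ¬ TSetPrimitive G 2) := by
    intro F _ _ e
    haveI : Finite (OnePoint F) := Finite.of_equiv X e.symm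
    haveI : Finite F := Finite.of_injective (fun x : F => (x : OnePoint F))
      (fun x y h => OnePoint.coe_eq_coe.mp h)
    exact ⟨inferInstance, fun h => by rwa [set_conj] at h⟩
  rcases h with h | h | h | h | h
  · -- `q = 3`
    have h2 := h.two
    obtain ⟨F, iF, iD, e, hq, h1, -⟩ := h
    obtain ⟨hF, -⟩ := key F iF iD e
    apply not_tSetPrimitive_of_two_mul le_rfl
    rw [Nat.card_congr e.symm]
    have : Nat.card (OnePoint F) = Nat.card F + 1 := Finite.card_option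
    rw [this, hq]
  all_goals
    obtain ⟨F, iF, iD, e, hq, h1, h2⟩ := h
    obtain ⟨hF, hk⟩ := key F iF iD e
    apply hk
    have h4 := le_conjGroup_iff.mp h2
  · exact not_set_five h4 hq
  · exact not_set_seven h4 hq
  · exact not_set_nine h4 hq
  · exact not_set_eleven h4 hq

/-- `t = 2` for the groups with socle `PSL(2, q)` -/
theorem psl2_result {q : ℕ} (h : IsPSL2 G q) :
    (ExcA G 2 ↔ ListPSL2 G) ∧ ¬ ExcB G 2 ∧ ¬ ExcC G 2 ∧ (ExcD G 2 ↔ ListPSL2 G) := by
  obtain ⟨h1, h2⟩ := h.two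
  refine ⟨⟨fun h3 => h.not_set h3.2, fun h3 => ⟨h2, h3.not_set⟩⟩, fun h3 => h3.2 h2,
    fun h3 => h3.2 h2, ⟨fun h3 => h.not_set h3.2, fun h3 => ⟨h2.steiner (by norm_num),
      h3.not_set⟩⟩⟩

end Pool.Agent.H922
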