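import Mathlib
import Pool.Agent.H922.Pair
import Pool.Agent.H922.Chk3

set_option autoImplicit false
set_option linter.style.haveILetI false
set_option linter.unusedVariables false
set_option linter.unusedSectionVars false

/-!
# Invariant systems of lines
-/

namespace Pool.Agent.H922

open Equiv MulAction

/-- A 2-transitive group with a nontrivial invariant system of lines is not 2-Steiner primitive.
`L a b x` means: `x` is on the line through `a` and `b`. -/
theorem not_steiner_of_lines {X : Type*} [Finite X] {G : Subgroup (Perm X)}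
    (htr : TTransitive G 2) (L : X → X → X → Prop)
    (h1 : ∀ a b, a ≠ b → L a b a ∧ L a b b)
    (h2 : ∀ a b c d, a ≠ b → c ≠ d → L a b c → L a b d → ∀ x, L a b x ↔ L c d x)
    (hinv : ∀ g ∈ G, ∀ a b x, a ≠ b → L a b x → L (g a) (g b) (g x))
    (h3 : ∃ a b c, a ≠ b ∧ c ≠ a ∧ c ≠ b ∧ L a b c) (h4 : ∃ a b c, a ≠ b ∧ ¬ L a b c) :
    ¬ TSteinerPrimitive G 2 := by
  classical
  haveI := Fintype.ofFinite X
  intro hst
  apply hst
  obtain ⟨a0, b0, c0, hab0, hca0, hcb0, hL0⟩ := h3
  obtain ⟨a1, b1, c1, hab1, hL1⟩ := h4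
  let line : X → X → Finset X := fun a b => Finset.univ.filter (fun x => L a b x)
  have hmem : ∀ a b x, x ∈ line a b ↔ L a b x := by
    intro a b x
    simp [line]
  have hmap : ∀ g ∈ G, ∀ a b, a ≠ b → (line a b).map g.toEmbedding = line (g a) (g b) := by
    intro g hg a b hab
    ext x
    rw [mem_map_perm', hmem, hmem]
    constructor
    · intro h
      have := hinv g hg a b _ hab h
      have e : g (g⁻¹ x) = x := by simp
      rwa [e] at this
    · intro h
      have := hinv g⁻¹ (G.inv_mem hg) (g a) (g b) x (g.injective.ne hab) h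
      rwa [perm_inv_apply, perm_inv_apply] at this
  have hcard : ∀ a b, a ≠ b → (line a b).card = (line a0 b0).card := by
    intro a b hab
    obtain ⟨g, hg, e1, e2⟩ := two_trans le_rfl htr hab hab0
    rw [← e1, ← e2, ← hmap g hg a b hab, Finset.card_map]
  refine ⟨(line a0 b0).card, {B | ∃ a b, a ≠ b ∧ B = line a b}, ?_, ?_, ⟨?_, ?_⟩, ?_⟩
  · -- more than two points
    have : ({a0, b0, c0} : Finset X) ⊆ line a0 b0 := by
      intro x hx
      simp only [Finset.mem_insert, Finset.mem_singleton] at hx
      rw [hmem]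
      rcases hx with rfl | rfl | rfl
      · exact (h1 _ _ hab0).1
      · exact (h1 _ _ hab0).2
      · exact hL0
    have h5 := Finset.card_le_card this
    rw [Finset.card_eq_three.mpr ⟨a0, b0, c0, hab0, Ne.symm hca0, Ne.symm hcb0, rfl⟩] at h5
    omega
  · rw [← hcard a1 b1 hab1, Nat.card_eq_fintype_card, ← Finset.card_univ]
    apply Finset.card_lt_card
    refine ⟨Finset.subset_univ _, fun h => hL1 ?_⟩
    rw [← hmem]
    exact h (Finset.mem_univ _)
  · rintro B ⟨a, b, hab, rfl⟩
    exact hcard a b hab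
  · intro T hT
    obtain ⟨a, b, hab, rfl⟩ := Finset.card_eq_two.mp hT
    refine ⟨line a b, ⟨⟨a, b, hab, rfl⟩, ?_⟩, ?_⟩
    · intro x hx
      simp only [Finset.mem_insert, Finset.mem_singleton] at hx
      rw [hmem]
      rcases hx with rfl | rfl
      · exact (h1 _ _ hab).1
      · exact (h1 _ _ hab).2
    · rintro B ⟨⟨c, d, hcd, rfl⟩, hsub⟩
      have ha : L c d a := by rw [← hmem]; exact hsub (by simp)
      have hb : L c d b := by rw [← hmem]; exact hsub (by simp)
      ext x
      rw [hmem, hmem]
      exact h2 c d a b hcd hab ha hb x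
  · rintro g hg B ⟨a, b, hab, rfl⟩
    exact ⟨g a, g b, g.injective.ne hab, hmap g hg a b hab⟩

end Pool.Agent.H922
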