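import Mathlib
import Pool.Agent.H922.Defs9
import Pool.Agent.H922.Lin

set_option autoImplicit false
set_option linter.style.haveILetI false
set_option linter.unusedVariables false
set_option linter.unusedSectionVars false

/-!
# Affine groups over the field with two elements
-/

namespace Pool.Agent.H922

open Equiv MulAction

section Criterion

variable {X : Type*} [Finite X] {G : Subgroup (Perm X)}

/-- criterion for 2-primitivity -/
theorem tPrimitive_two_of_rel (htr : TTransitive G 2) (a : X)
    (h : ∀ r : X → X → Prop, (∀ x, x ≠ a → r x x) → (∀ x y, x ≠ a → y ≠ a → r x y → r y x) →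
      (∀ x y z, x ≠ a → y ≠ a → z ≠ a → r x y → r y z → r x z) →
      (∀ g ∈ G, g a = a → ∀ x y, x ≠ a → y ≠ a → r x y → r (g x) (g y)) →
      ∀ x y, x ≠ a → y ≠ a → x ≠ y → r x y → ∀ z, z ≠ a → r x z) : TPrimitive G 2 := by
  classical
  rw [tPrimitive_iff]
  have hmem : ∀ x : X, x ∉ (({a} : Finset X) : Set X) ↔ x ≠ a := by
    intro x; simp
  have hbase : PrimOff G (({a} : Finset X) : Set X) := by
    constructor
    · intro x hx y hy
      rw [hmem] at hx hy
      obtain ⟨g, hg, e1, e2⟩ := two_trans le_rfl htr (Ne.symm hx) (Ne.symm hy)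
      refine ⟨g, hg, fun z hz => ?_, e2⟩
      rw [Finset.coe_singleton, Set.mem_singleton_iff] at hz
      rw [hz, e1]
    · intro r r1 r2 r3 r4
      by_cases htriv : ∀ x, x ∉ (({a} : Finset X) : Set X) → ∀ y,
          y ∉ (({a} : Finset X) : Set X) → r x y → x = y
      · exact Or.inl htriv
      right
      push Not at htriv
      obtain ⟨x, hx, y, hy, hxy, hne⟩ := htriv
      rw [hmem] at hx hy
      have hall := h r (fun x hx => r1 x ((hmem x).mpr hx))
        (fun x y hx hy => r2 x ((hmem x).mpr hx) y ((hmem y).mpr hy))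
        (fun x y z hx hy hz => r3 x ((hmem x).mpr hx) y ((hmem y).mpr hy) z ((hmem z).mpr hz))
        (fun g hg hga x y hx hy => r4 g hg (fun z hz => by
          rw [Finset.coe_singleton, Set.mem_singleton_iff] at hz
          rw [hz, hga]) x ((hmem x).mpr hx) y ((hmem y).mpr hy)) x y hx hy hne hxy
      intro u hu v hv
      have hu' := (hmem u).mp hu
      have hv' := (hmem v).mp hv
      exact r3 u hu x ((hmem x).mpr hx) v hv (r2 x ((hmem x).mpr hx) u hu (hall u hu'))
        (hall v hv')
  intro s hs
  have hs1 : s.card = 1 := by omega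
  obtain ⟨b, rfl⟩ := Finset.card_eq_one.mp hs1
  -- move `a` to `b`
  have htr1 : TTransitive G 1 := tTransitive_of_le (by norm_num) htr
  obtain ⟨g, hg, hgi⟩ := (multTrans_iff G 1).mp htr1.2 ![a] ![b]
    (fun i j _ => Subsingleton.elim _ _) (fun i j _ => Subsingleton.elim _ _)
  have := primOff_map hg hbase
  rw [Finset.map_singleton] at this
  have e1 : g.toEmbedding a = b := hgi 0
  rwa [e1] at this

end Criterion

section Functional

variable {V : Type*} [AddCommGroup V] [Module (ZMod 2) V]

theorem zmod2_cases (a : ZMod 2) : a = 0 ∨ a = 1 := by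
  revert a; decide

theorem zmod2_add_self' (v : V) : v + v = 0 := by
  have : (2 : ZMod 2) • v = v + v := two_smul _ v
  rw [← this]
  have h2 : (2 : ZMod 2) = 0 := by decide
  rw [h2, zero_smul]

/-- functionals with prescribed values on an independent family -/
theorem exists_functional {k : ℕ} {x : Fin k → V} (hx : LinearIndependent (ZMod 2) x)
    (a : Fin k → ZMod 2) : ∃ f : V →ₗ[ZMod 2] ZMod 2, ∀ i, f (x i) = a i := by
  have h1 : ∀ i, ∃ f : V →ₗ[ZMod 2] ZMod 2, f (x i) = 1 ∧ ∀ j, j ≠ i → f (x j) = 0 := by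
    intro i
    have h2 : x i ∉ Submodule.span (ZMod 2) (x '' {i}ᶜ) := by
      apply hx.notMem_span_image
      simp
    obtain ⟨f, hf, hle⟩ := Submodule.exists_le_ker_of_notMem h2
    refine ⟨f, (zmod2_cases _).resolve_left hf, fun j hj => ?_⟩
    have : x j ∈ Submodule.span (ZMod 2) (x '' {i}ᶜ) :=
      Submodule.subset_span ⟨j, hj, rfl⟩
    exact LinearMap.mem_ker.mp (hle this)
  choose f hf hf' using h1
  refine ⟨∑ i, a i • f i, fun j => ?_⟩
  rw [LinearMap.sum_apply, Finset.sum_eq_single j]
  · rw [LinearMap.smul_apply, hf, smul_eq_mul, mul_one]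
  · intro i _ hi
    rw [LinearMap.smul_apply, hf' i j (Ne.symm hi), smul_zero]
  · intro h
    exact absurd (Finset.mem_univ j) h

theorem indep_two {x y : V} (hx : x ≠ 0) (hy : y ≠ 0) (hxy : x ≠ y) :
    LinearIndependent (ZMod 2) ![x, y] := by
  rw [Fintype.linearIndependent_iff]
  intro g hg
  rw [Fin.sum_univ_two] at hg
  change g 0 • x + g 1 • y = 0 at hg
  rcases zmod2_cases (g 0) with h0 | h0 <;> rcases zmod2_cases (g 1) with h1 | h1
  · intro i; fin_cases i
    · exact h0
    · exact h1
  · rw [h0, h1, zero_smul, one_smul, zero_add] at hg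
    exact absurd hg hy
  · rw [h0, h1, zero_smul, one_smul, add_zero] at hg
    exact absurd hg hx
  · rw [h0, h1, one_smul, one_smul] at hg
    exfalso
    apply hxy
    have := zmod2_add_self' y
    rw [← this] at hg
    exact add_right_cancel hg

theorem indep_three {x y z : V} (hx : x ≠ 0) (hy : y ≠ 0) (hz : z ≠ 0) (hxy : x ≠ y)
    (hxz : x ≠ z) (hyz : y ≠ z) (hs : x + y ≠ z) :
    LinearIndependent (ZMod 2) ![x, y, z] := by
  rw [Fintype.linearIndependent_iff]
  intro g hg
  rw [Fin.sum_univ_three] at hg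
  change g 0 • x + g 1 • y + g 2 • z = 0 at hg
  have hsw : ∀ u v : V, u + v = 0 → u = v := by
    intro u v h
    rw [← zmod2_add_self' v] at h
    exact add_right_cancel h
  rcases zmod2_cases (g 0) with h0 | h0 <;> rcases zmod2_cases (g 1) with h1 | h1 <;>
    rcases zmod2_cases (g 2) with h2 | h2 <;>
    simp only [h0, h1, h2, zero_smul, one_smul, zero_add, add_zero] at hg
  · intro i; fin_cases i
    · exact h0
    · exact h1
    · exact h2
  · exact absurd hg hz
  · exact absurd hg hy
  · exact absurd (hsw _ _ hg) hyz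
  · exact absurd hg hx
  · exact absurd (hsw _ _ hg) hxz
  · exact absurd (hsw _ _ hg) hxy
  · exact absurd (hsw _ _ hg) hs

variable {φ : V →ₗ[ZMod 2] V →ₗ[ZMod 2] ZMod 2}

theorem IsSymp.comm (h : IsSymp φ) (v w : V) : φ v w = φ w v := by
  have h1 := h.1 (v + w)
  rw [map_add, map_add, LinearMap.add_apply, LinearMap.add_apply, h.1, h.1, zero_add,
    add_zero] at h1
  have : ∀ a b : ZMod 2, a + b = 0 → b = a := by decide
  exact (this _ _ h1)

theorem IsSymp.exists_vec [Finite V] (h : IsSymp φ) {k : ℕ} {x : Fin k → V}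
    (hx : LinearIndependent (ZMod 2) x) (a : Fin k → ZMod 2) : ∃ w, ∀ i, φ (x i) w = a i := by
  haveI : Module.Finite (ZMod 2) V := Module.Finite.of_finite
  obtain ⟨f, hf⟩ := exists_functional hx a
  have hinj : Function.Injective φ := by
    rw [injective_iff_map_eq_zero]
    intro v hv
    apply h.2
    intro w
    rw [hv, LinearMap.zero_apply]
  have hsurj : Function.Surjective φ := by
    have : Module.finrank (ZMod 2) V = Module.finrank (ZMod 2) (V →ₗ[ZMod 2] ZMod 2) :=
      (Subspace.dual_finrank_eq (K := ZMod 2) (V := V)).symm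
    exact (LinearMap.injective_iff_surjective_of_finrank_eq_finrank this).mp hinj
  obtain ⟨w, hw⟩ := hsurj f
  refine ⟨w, fun i => ?_⟩
  rw [h.comm, hw, hf]

/-- the transvection with centre `v` -/
theorem IsSymp.exists_transv (h : IsSymp φ) (v : V) : ∃ A : V ≃ₗ[ZMod 2] V,
    (∀ w, A w = w + φ w v • v) ∧ ∀ w w', φ (A w) (A w') = φ w w' := by
  let B : V →ₗ[ZMod 2] V := LinearMap.id + (φ.flip v).smulRight v
  have hB : ∀ w, B w = w + φ w v • v := by
    intro w
    simp [B]
  have hBB : ∀ w, B (B w) = w := by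
    intro w
    rw [hB, hB, map_add, map_smul, LinearMap.add_apply, LinearMap.smul_apply, h.1, smul_zero,
      add_zero, add_assoc, zmod2_add_self', add_zero]
  refine ⟨LinearEquiv.ofInvolutive B hBB, fun w => hB w, fun w w' => ?_⟩
  change φ (B w) (B w') = φ w w'
  rw [hB, hB, map_add, map_add, LinearMap.add_apply, LinearMap.add_apply, map_smul, map_smul,
    map_smul, LinearMap.smul_apply, LinearMap.smul_apply, h.1, smul_zero, smul_zero,
    add_zero, h.comm v w', add_assoc]
  have : ∀ a b : ZMod 2, b • a + a • b = 0 := by decide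
  rw [this, add_zero]

end Functional

end Pool.Agent.H922
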