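import Mathlib
import Pool.Agent.H922.Sym
import Pool.Agent.H922.PSLf

set_option autoImplicit false
set_option linter.style.haveILetI false
set_option linter.unusedVariables false
set_option linter.unusedSectionVars false

/-!
# `AGL(d, 2)` and `2^{2m} : Sp(2m, 2)`
-/

namespace Pool.Agent.H922

open Equiv MulAction

section Aff

variable {V : Type*} [AddCommGroup V] [Module (ZMod 2) V] [Finite V] {G : Subgroup (Perm V)}

theorem isAff_of {V : Type*} [AddCommGroup V] [Module (ZMod 2) V] {G : Subgroup (Perm V)}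
    (h1 : ∀ g ∈ G, ∃ (A : V ≃ₗ[ZMod 2] V) (b : V), ∀ v, g v = A v + b)
    (h2 : ∀ b : V, ∃ g ∈ G, ∀ v, g v = v + b) : IsAff G := by
  constructor
  · intro a
    obtain ⟨g, hg, hgv⟩ := h2 a
    have : Equiv.addLeft a = g := by
      ext v
      rw [hgv, Equiv.coe_addLeft, add_comm]
    rw [this]
    exact hg
  · intro g hg x y
    obtain ⟨A, b, hA⟩ := h1 g hg
    rw [hA, hA, hA, hA, map_add, map_zero]
    abel

variable {φ : V →ₗ[ZMod 2] V →ₗ[ZMod 2] ZMod 2}

/-- 2-primitivity from the symplectic transvections -/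
theorem asp_prim (hφ : IsSymp φ) (htr : TTransitive G 2)
    (hG : ∀ v : V, ∃ g ∈ G, ∀ w, g w = w + φ w v • v) : TPrimitive G 2 := by
  apply tPrimitive_two_of_rel htr 0
  intro r r1 r2 r3 r4 x y hx hy hxy hr
  -- moving by transvections
  have hmove : ∀ c d e : V, c ≠ 0 → d ≠ 0 → φ c (d + e) = 0 → φ d e = 1 → r c d → r c e := by
    intro c d e hc hd h1 h2 h3
    obtain ⟨g, hg, hgw⟩ := hG (d + e)
    have h4 := r4 g hg (by rw [hgw]; simp) c d hc hd h3
    rw [hgw, hgw, h1, zero_smul, add_zero, map_add, hφ.1, zero_add, h2, one_smul, ← add_assoc,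
      zmod2_add_self', zero_add] at h4
    exact h4
  have hne0 : ∀ d e : V, φ d e = 1 → e ≠ 0 := by
    rintro d e h rfl
    rw [map_zero] at h
    exact zero_ne_one h
  have hne0' : ∀ d e : V, φ d e = 1 → d ≠ 0 := by
    rintro d e h rfl
    rw [map_zero, LinearMap.zero_apply] at h
    exact zero_ne_one h
  have hne : ∀ d e : V, φ d e = 1 → d ≠ e := by
    rintro d e h rfl
    rw [hφ.1] at h
    exact zero_ne_one h
  -- property P
  have P : ∀ c d, φ c d = 1 → r c d → ∀ e, φ c e = 1 → r c e := by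
    intro c d hcd hr e hce
    have hc := hne0' _ _ hcd
    have hd := hne0 _ _ hcd
    have he := hne0 _ _ hce
    have step : ∀ d e, φ c d = 1 → φ c e = 1 → φ d e = 1 → r c d → r c e := by
      intro d e h1 h2 h3 h4
      refine hmove c d e hc (hne0 _ _ h1) ?_ h3 h4
      rw [map_add, h1, h2]
      decide
    rcases zmod2_cases (φ d e) with h0 | h1
    · by_cases hde : d = e
      · rw [← hde]; exact hr
      obtain ⟨f, hf⟩ := hφ.exists_vec (indep_three hc hd he (hne _ _ hcd) (hne _ _ hce) hde (by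
        intro h5
        have h6 : φ d (c + d) = 1 := by rw [map_add, hφ.1, add_zero, hφ.comm, hcd]
        rw [h5, h0] at h6
        exact zero_ne_one h6)) ![1, 1, 1]
      have f0 : φ c f = 1 := hf 0
      have f1 : φ d f = 1 := hf 1
      have f2 : φ e f = 1 := hf 2
      exact step f e f0 hce (by rw [hφ.comm, f2]) (step d f hcd f0 f1 hr)
    · exact step d e hcd hce h1 hr
  -- a related pair with product 1
  have hx1 : ∃ d, φ x d = 1 ∧ r x d := by
    rcases zmod2_cases (φ x y) with h0 | h1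
    swap
    · exact ⟨y, h1, hr⟩
    obtain ⟨z, hz⟩ := hφ.exists_vec (indep_two hx hy hxy) ![0, 1]
    have z0 : φ x z = 0 := hz 0
    have z1 : φ y z = 1 := hz 1
    have hz0 := hne0 _ _ z1
    have hxz : r x z := hmove x y z hx hy (by rw [map_add, h0, z0, add_zero]) z1 hr
    have hyz : r y z := r3 y x z hy hx hz0 (r2 x y hx hy hr) hxz
    have Py := P y z z1 hyz
    -- a vector with products 1 with `x` and `y`
    obtain ⟨w, hw⟩ := hφ.exists_vec (indep_two hx hy hxy) ![1, 1]
    have w0 : φ x w = 1 := hw 0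
    have w1 : φ y w = 1 := hw 1
    exact ⟨w, w0, r3 x y w hx hy (hne0 _ _ w0) hr (Py w w1)⟩
  obtain ⟨d, hd, hrd⟩ := hx1
  have Px := P x d hd hrd
  intro z hz
  by_cases hxz : x = z
  · rw [← hxz]; exact r1 x hx
  obtain ⟨w, hw⟩ := hφ.exists_vec (indep_two hx hz hxz) ![1, 1]
  have w0 : φ x w = 1 := hw 0
  have w1 : φ z w = 1 := hw 1
  have hw0 := hne0 _ _ w0
  have hxw := Px w w0
  have hwx := r2 x w hx hw0 hxw
  have Pw := P w x (by rw [hφ.comm]; exact w0) hwx
  exact r3 x w z hx hw0 hz hxw (Pw z (by rw [hφ.comm]; exact w1))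

/-- 2-primitivity of `AGL(d, 2)` -/
theorem agl_prim (htr : TTransitive G 2)
    (hG : ∀ A : V ≃ₗ[ZMod 2] V, ∃ g ∈ G, ∀ w, g w = A w) : TPrimitive G 2 := by
  apply tPrimitive_two_of_rel htr 0
  intro r r1 r2 r3 r4 x y hx hy hxy hr z hz
  by_cases hxz : x = z
  · rw [← hxz]; exact r1 x hx
  by_cases hyz : y = z
  · rw [← hyz]; exact hr
  -- a functional vanishing at `x`, equal to 1 at `y` and `z`
  have hf : ∃ f : V →ₗ[ZMod 2] ZMod 2, f x = 0 ∧ f y = 1 ∧ f z = 1 := by
    by_cases hs : x + y = z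
    · obtain ⟨f, hf⟩ := exists_functional (indep_two hx hy hxy) ![0, 1]
      have f0 : f x = 0 := hf 0
      have f1 : f y = 1 := hf 1
      exact ⟨f, f0, f1, by rw [← hs, map_add, f0, f1, zero_add]⟩
    · obtain ⟨f, hf⟩ := exists_functional (indep_three hx hy hz hxy hxz hyz hs) ![0, 1, 1]
      exact ⟨f, hf 0, hf 1, hf 2⟩
  obtain ⟨f, f0, f1, f2⟩ := hf
  let B : V →ₗ[ZMod 2] V := LinearMap.id + f.smulRight (y + z)
  have hB : ∀ w, B w = w + f w • (y + z) := by
    intro w
    simp [B]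
  have hBB : ∀ w, B (B w) = w := by
    intro w
    have h5 : f (y + z) = 0 := by rw [map_add, f1, f2]; decide
    rw [hB, hB, map_add, map_smul, h5, smul_zero, add_zero, add_assoc, zmod2_add_self', add_zero]
  obtain ⟨g, hg, hgw⟩ := hG (LinearEquiv.ofInvolutive B hBB)
  have hg' : ∀ w, g w = w + f w • (y + z) := fun w => (hgw w).trans (hB w)
  have h4 := r4 g hg (by rw [hg']; simp) x y hx hy hr
  rw [hg', hg', f0, f1, zero_smul, add_zero, one_smul, ← add_assoc, zmod2_add_self',
    zero_add] at h4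
  exact h4

end Aff

universe u

variable {X : Type u} [Finite X] [DecidableEq X] {G : Subgroup (Perm X)}

theorem mem_conj_symm {Y Z : Type*} {e : Y ≃ Z} {K : Subgroup (Perm Z)} {g : Perm Z}
    (hg : g ∈ K) : ∃ h ∈ conjGroup e.symm K, ∀ v, e (h v) = g (e v) := by
  refine ⟨e.symm.permCongr g, ⟨g, hg, rfl⟩, fun v => ?_⟩
  simp

theorem of_mem_conj_symm {Y Z : Type*} {e : Y ≃ Z} {K : Subgroup (Perm Z)} {h : Perm Y}
    (hh : h ∈ conjGroup e.symm K) : ∃ g ∈ K, ∀ v, e (h v) = g (e v) := by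
  obtain ⟨g, hg, rfl⟩ := hh
  refine ⟨g, hg, fun v => ?_⟩
  simp [Equiv.permCongrHom]

/-- the conclusion for the affine groups over the field with two elements -/
theorem IsASp.prim (h : IsASp G) (htr : TTransitive G 2) (hn : 4 ≤ Nat.card X) :
    TPrimitive G 2 ∧ ¬ TSetPrimitive G 2 := by
  classical
  obtain ⟨V, iV, iM, e, φ, hφ, hG1, hG2⟩ := h
  haveI : Finite V := Finite.of_equiv X e.symm
  have htr' : TTransitive (conjGroup e.symm G) 2 := trans_conj.mpr htr
  have hmem : ∀ (A : V ≃ₗ[ZMod 2] V) (b : V), (∀ v w, φ (A v) (A w) = φ v w) →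
      ∃ g ∈ conjGroup e.symm G, ∀ v, g v = A v + b := by
    intro A b hA
    obtain ⟨g, hg, hgv⟩ := hG2 A b hA
    obtain ⟨k, hk, hkv⟩ := mem_conj_symm (e := e) hg
    refine ⟨k, hk, fun v => ?_⟩
    apply e.injective
    rw [hkv, hgv]
  constructor
  · have : TPrimitive (conjGroup e.symm G) 2 := by
      apply asp_prim hφ htr'
      intro v
      obtain ⟨A, hA, hA'⟩ := hφ.exists_transv v
      obtain ⟨g, hg, hgv⟩ := hmem A 0 hA'
      exact ⟨g, hg, fun w => by rw [hgv, add_zero, hA]⟩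
    exact prim_conj.mp this
  · intro hset
    have hset' : TSetPrimitive (conjGroup e.symm G) 2 := set_conj.mpr hset
    refine IsAff.not_two_set (isAff_of ?_ ?_) (by rw [Nat.card_congr e]; exact hn) hset'
    · intro g hg
      obtain ⟨k, hk, hkv⟩ := of_mem_conj_symm hg
      obtain ⟨A, b, hA⟩ := hG1 k hk
      exact ⟨A, b, fun v => e.injective (by rw [hkv, hA])⟩
    · intro b
      obtain ⟨g, hg, hgv⟩ := hmem (LinearEquiv.refl _ _) b (fun v w => rfl)
      exact ⟨g, hg, hgv⟩

theorem IsAGL2.prim (h : IsAGL2 G) (htr : TTransitive G 2) (hn : 4 ≤ Nat.card X) :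
    TPrimitive G 2 ∧ ¬ TSetPrimitive G 2 := by
  classical
  obtain ⟨V, iV, iM, e, hG1, hG2⟩ := h
  haveI : Finite V := Finite.of_equiv X e.symm
  have htr' : TTransitive (conjGroup e.symm G) 2 := trans_conj.mpr htr
  have hmem : ∀ (A : V ≃ₗ[ZMod 2] V) (b : V),
      ∃ g ∈ conjGroup e.symm G, ∀ v, g v = A v + b := by
    intro A b
    obtain ⟨g, hg, hgv⟩ := hG2 A b
    obtain ⟨k, hk, hkv⟩ := mem_conj_symm (e := e) hg
    refine ⟨k, hk, fun v => ?_⟩
    apply e.injective
    rw [hkv, hgv]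
  constructor
  · have : TPrimitive (conjGroup e.symm G) 2 := by
      apply agl_prim htr'
      intro A
      obtain ⟨g, hg, hgv⟩ := hmem A 0
      exact ⟨g, hg, fun w => by rw [hgv, add_zero]⟩
    exact prim_conj.mp this
  · intro hset
    have hset' : TSetPrimitive (conjGroup e.symm G) 2 := set_conj.mpr hset
    refine IsAff.not_two_set (isAff_of ?_ ?_) (by rw [Nat.card_congr e]; exact hn) hset'
    · intro g hg
      obtain ⟨k, hk, hkv⟩ := of_mem_conj_symm hg
      obtain ⟨A, b, hA⟩ := hG1 k hk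
      exact ⟨A, b, fun v => e.injective (by rw [hkv, hA])⟩
    · intro b
      obtain ⟨g, hg, hgv⟩ := hmem (LinearEquiv.refl _ _) b
      exact ⟨g, hg, hgv⟩

end Pool.Agent.H922
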