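import Mathlib
import Pool.Agent.H922.Sym2

set_option autoImplicit false
set_option linter.style.haveILetI false
set_option linter.unusedVariables false
set_option linter.unusedSectionVars false

/-!
# `Sp(2m, 2)` acting on quadratic forms
-/

namespace Pool.Agent.H922

open Equiv MulAction

section Lemmas

variable {V : Type*} [AddCommGroup V] [Module (ZMod 2) V] [Finite V]
  {φ : V →ₗ[ZMod 2] V →ₗ[ZMod 2] ZMod 2}

theorem exists_perp (hV : 64 ≤ Nat.card V) (a b c : V) (T : Finset V) (hT : T.card ≤ 7) :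
    ∃ w, φ w a = 0 ∧ φ w b = 0 ∧ φ w c = 0 ∧ w ∉ T := by
  classical
  haveI := Fintype.ofFinite V
  by_contra hcon
  push Not at hcon
  let f : V → ZMod 2 × ZMod 2 × ZMod 2 := fun w => (φ w a, φ w b, φ w c)
  have h1 := Finset.card_le_mul_card_image (f := f) (Finset.univ : Finset V) 7 (by
    intro p hp
    obtain ⟨x0, -, hx0⟩ := Finset.mem_image.mp hp
    have : ((Finset.univ : Finset V).filter (fun x => f x = p)).card ≤ T.card := by
      apply Finset.card_le_card_of_injOn (fun x => x - x0)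
      · intro x hx
        rw [Finset.mem_coe, Finset.mem_filter] at hx
        have h2 : f x = f x0 := hx.2.trans hx0.symm
        have e1 : φ x a = φ x0 a := congrArg Prod.fst h2
        have e2 : φ x b = φ x0 b := congrArg (fun q => q.2.1) h2
        have e3 : φ x c = φ x0 c := congrArg (fun q => q.2.2) h2
        exact hcon (x - x0) (by rw [map_sub, LinearMap.sub_apply, e1, sub_self])
          (by rw [map_sub, LinearMap.sub_apply, e2, sub_self])
          (by rw [map_sub, LinearMap.sub_apply, e3, sub_self])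
      · intro x _ y _ hxy
        exact sub_left_inj.mp hxy
    omega)
  rw [Finset.card_univ, ← Nat.card_eq_fintype_card] at h1
  have h2 : (Finset.univ.image f).card ≤ 8 := by
    have : (Finset.univ.image f).card ≤ (Finset.univ : Finset (ZMod 2 × ZMod 2 × ZMod 2)).card :=
      Finset.card_le_card (Finset.subset_univ _)
    simpa using this
  omega

theorem zmod2_one_add_one : (1 : ZMod 2) + 1 = 0 := by decide

/-- the main argument for the 2-primitivity of the symplectic groups on quadratic forms -/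
theorem quad_rel (hφ : IsSymp φ) (hV : 64 ≤ Nat.card V) {Q : V → ZMod 2}
    (hQ : ∀ v w, Q (v + w) = Q v + Q w + φ v w) (r : V → V → Prop)
    (r1 : ∀ x, x ≠ 0 → Q x = 0 → r x x)
    (r2 : ∀ x y, x ≠ 0 → Q x = 0 → y ≠ 0 → Q y = 0 → r x y → r y x)
    (r3 : ∀ x y z, x ≠ 0 → Q x = 0 → y ≠ 0 → Q y = 0 → z ≠ 0 → Q z = 0 → r x y → r y z → r x z)
    (r4 : ∀ v, Q v = 1 → ∀ x y, x ≠ 0 → Q x = 0 → y ≠ 0 → Q y = 0 → r x y →
      r (x + φ v x • v) (y + φ v y • v))
    {x y : V} (hx : x ≠ 0) (hQx : Q x = 0) (hy : y ≠ 0) (hQy : Q y = 0) (hxy : x ≠ y)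
    (hr : r x y) {z : V} (hz : z ≠ 0) (hQz : Q z = 0) : r x z := by
  classical
  have hne0 : ∀ d e : V, φ d e = 1 → e ≠ 0 := by
    rintro d e h rfl
    rw [map_zero] at h
    exact zero_ne_one h
  have hne0' : ∀ d e : V, φ d e = 1 → d ≠ 0 := by
    rintro d e h rfl
    rw [map_zero, LinearMap.zero_apply] at h
    exact zero_ne_one h
  have hne : ∀ d e : V, φ d e = 1 → d ≠ e := by
    rintro d e h rfl
    rw [hφ.1] at h
    exact zero_ne_one h
  -- Step B
  have step : ∀ c d e, Q c = 0 → Q d = 0 → Q e = 0 → φ c d = 1 → φ c e = 1 → φ d e = 1 →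
      r c d → r c e := by
    intro c d e hc hd he h1 h2 h3 h4
    have h5 := r4 (d + e) (by rw [hQ, hd, he, h3]; decide) c d (hne0' _ _ h1) hc (hne0 _ _ h1)
      hd h4
    have e1 : φ (d + e) c = 0 := by
      rw [hφ.comm, map_add, h1, h2]; decide
    have e2 : φ (d + e) d = 1 := by
      rw [hφ.comm, map_add, hφ.1, h3, zero_add]
    rw [e1, e2, zero_smul, add_zero, one_smul, ← add_assoc, zmod2_add_self', zero_add] at h5
    exact h5
  have P : ∀ c d, Q c = 0 → Q d = 0 → φ c d = 1 → r c d → ∀ e, Q e = 0 → φ c e = 1 → r c e := by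
    intro c d hQc hQd hcd hr e hQe hce
    have hc := hne0' _ _ hcd
    have hd := hne0 _ _ hcd
    have he := hne0 _ _ hce
    rcases zmod2_cases (φ d e) with h0 | h1
    swap
    · exact step c d e hQc hQd hQe hcd hce h1 hr
    by_cases hde : d = e
    · rw [← hde]; exact hr
    obtain ⟨w, w0, w1, w2, hwT⟩ := exists_perp (φ := φ) hV c d e {0, d + e}
      (le_trans Finset.card_le_two (by norm_num))
    simp only [Finset.mem_insert, Finset.mem_singleton, not_or] at hwT
    have hind : LinearIndependent (ZMod 2) ![c, d, e, w] := by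
      rw [Fintype.linearIndependent_iff]
      intro g hg
      rw [Fin.sum_univ_four] at hg
      change g 0 • c + g 1 • d + g 2 • e + g 3 • w = 0 at hg
      have k1 := congrArg (fun u => φ d u) hg
      have k0 := congrArg (fun u => φ c u) hg
      simp only [map_add, map_smul, map_zero, hφ.1, hcd, hce, h0, smul_eq_mul, mul_zero, mul_one,
        zero_add, add_zero] at k1 k0
      rw [hφ.comm d c, hcd, hφ.comm d w, w1, mul_one, mul_zero, add_zero] at k1
      rw [hφ.comm c w, w0, mul_zero, add_zero] at k0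
      have k2 : g 1 = g 2 := by
        revert k0
        generalize g 1 = a
        generalize g 2 = b
        revert a b
        decide
      rw [k1, ← k2, zero_smul, zero_add, ← smul_add] at hg
      rcases zmod2_cases (g 1) with a1 | a1 <;> rcases zmod2_cases (g 3) with a3 | a3
      · intro i; fin_cases i
        · exact k1
        · exact a1
        · exact k2.symm.trans a1
        · exact a3
      · rw [a1, a3, zero_smul, one_smul, zero_add] at hg
        exact absurd hg hwT.1
      · rw [a1, a3, zero_smul, one_smul, add_zero] at hg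
        exfalso
        apply hde
        rw [← zmod2_add_self' e] at hg
        exact add_right_cancel hg
      · rw [a1, a3, one_smul, one_smul] at hg
        exfalso
        apply hwT.2
        rw [← zmod2_add_self' w] at hg
        exact (add_right_cancel hg).symm
    obtain ⟨f, hf⟩ := hφ.exists_vec hind ![1, 1, 1, Q w + 1]
    have f0 : φ c f = 1 := hf 0
    have f1 : φ d f = 1 := hf 1
    have f2 : φ e f = 1 := hf 2
    have f3 : φ w f = Q w + 1 := hf 3
    obtain ⟨f', g0, g1, g2, g3⟩ : ∃ f', φ c f' = 1 ∧ φ d f' = 1 ∧ φ e f' = 1 ∧ Q f' = 0 := by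
      rcases zmod2_cases (Q f) with h5 | h5
      · exact ⟨f, f0, f1, f2, h5⟩
      · refine ⟨f + w, ?_, ?_, ?_, ?_⟩
        · rw [map_add, f0, hφ.comm c w, w0, add_zero]
        · rw [map_add, f1, hφ.comm d w, w1, add_zero]
        · rw [map_add, f2, hφ.comm e w, w2, add_zero]
        · rw [hQ, h5, hφ.comm, f3]
          generalize Q w = a
          revert a
          decide
    exact step c f' e hQc g3 hQe g0 hce (by rw [hφ.comm, g2]) (step c d f' hQc hQd g3 hcd g0 g1 hr)
  -- connectivity
  have conn : ∀ c e, c ≠ 0 → Q c = 0 → e ≠ 0 → Q e = 0 → c ≠ e → φ c e = 0 →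
      ∃ f, φ c f = 1 ∧ φ e f = 1 ∧ Q f = 0 := by
    intro c e hc hQc he hQe hce h0
    obtain ⟨f, hf⟩ := hφ.exists_vec (indep_two hc he hce) ![1, 1]
    have f0 : φ c f = 1 := hf 0
    have f1 : φ e f = 1 := hf 1
    rcases zmod2_cases (Q f) with h5 | h5
    · exact ⟨f, f0, f1, h5⟩
    · refine ⟨f + c, ?_, ?_, ?_⟩
      · rw [map_add, f0, hφ.1, add_zero]
      · rw [map_add, f1, hφ.comm, h0, add_zero]
      · rw [hQ, h5, hQc, hφ.comm, f0]; decide
  -- a related pair with product 1 at `x`
  have hx1 : ∃ d, Q d = 0 ∧ φ x d = 1 ∧ r x d := by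
    rcases zmod2_cases (φ x y) with h0 | h1
    swap
    · exact ⟨y, hQy, h1, hr⟩
    -- Step A
    obtain ⟨v, v0, v1, hQv⟩ : ∃ v, φ x v = 0 ∧ φ y v = 1 ∧ Q v = 1 := by
      obtain ⟨v, hv⟩ := hφ.exists_vec (indep_two hx hy hxy) ![0, 1]
      have v0 : φ x v = 0 := hv 0
      have v1 : φ y v = 1 := hv 1
      rcases zmod2_cases (Q v) with h5 | h5
      · refine ⟨v + y, ?_, ?_, ?_⟩
        · rw [map_add, v0, h0, add_zero]
        · rw [map_add, v1, hφ.1, add_zero]
        · rw [hQ, h5, hQy, hφ.comm, v1]; decide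
      · exact ⟨v, v0, v1, h5⟩
    have h5 := r4 v hQv x y hx hQx hy hQy hr
    rw [hφ.comm v x, v0, hφ.comm v y, v1, zero_smul, add_zero, one_smul] at h5
    have hQyv : Q (y + v) = 0 := by rw [hQ, hQy, hQv, v1]; decide
    have hyv : φ y (y + v) = 1 := by rw [map_add, hφ.1, v1, zero_add]
    have h6 : r y (y + v) := r3 y x (y + v) hy hQy hx hQx (hne0 _ _ hyv) hQyv
      (r2 x y hx hQx hy hQy hr) h5
    obtain ⟨f, f0, f1, hQf⟩ := conn x y hx hQx hy hQy hxy h0
    exact ⟨f, hQf, f0, r3 x y f hx hQx hy hQy (hne0 _ _ f0) hQf hr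
      (P y (y + v) hQy hQyv hyv h6 f hQf f1)⟩
  obtain ⟨d, hQd, hd, hrd⟩ := hx1
  by_cases hxz : x = z
  · rw [← hxz]; exact r1 x hx hQx
  rcases zmod2_cases (φ x z) with h0 | h1
  · obtain ⟨f, f0, f1, hQf⟩ := conn x z hx hQx hz hQz hxz h0
    have hf0 := hne0 _ _ f0
    have h5 := P x d hQx hQd hd hrd f hQf f0
    have h6 := r2 x f hx hQx hf0 hQf h5
    have h7 := P f x hQf hQx (by rw [hφ.comm]; exact f0) h6 z hQz (by rw [hφ.comm]; exact f1)
    exact r3 x f z hx hQx hf0 hQf hz hQz h5 h7
  · exact P x d hQx hQd hd hrd z hQz h1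

end Lemmas

end Pool.Agent.H922
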