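import Mathlib
import Pool.Agent.H922.Quad

set_option autoImplicit false
set_option linter.style.haveILetI false
set_option linter.unusedVariables false
set_option linter.unusedSectionVars false

/-!
# `Sp(2m, 2)` acting on quadratic forms: 2-primitive, not 2-set primitive
-/

namespace Pool.Agent.H922

open Equiv MulAction

section Forms

variable {V : Type*} [AddCommGroup V] [Module (ZMod 2) V] [Finite V]
  {φ : V →ₗ[ZMod 2] V →ₗ[ZMod 2] ZMod 2} {N : ℕ}

theorem QForm.zero (Q : QForm φ N) : Q.1 0 = 0 := by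
  have := Q.2.1 0 0
  rw [add_zero, map_zero, add_zero] at this
  have h : ∀ a : ZMod 2, a = a + a → a = 0 := by decide
  exact h _ this

theorem QForm.smul (Q : QForm φ N) (a : ZMod 2) (v : V) : Q.1 (a • v) = a * Q.1 v := by
  rcases zmod2_cases a with h | h
  · rw [h, zero_smul, Q.zero, zero_mul]
  · rw [h, one_smul, one_mul]

/-- the image of a form under an isometry -/
def actQ (A : V ≃ₗ[ZMod 2] V) (hA : ∀ v w, φ (A v) (A w) = φ v w) (Q : QForm φ N) :
    QForm φ N := by
  refine ⟨fun v => Q.1 (A.symm v), fun v w => ?_, ?_⟩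
  · have h1 := hA (A.symm v) (A.symm w)
    rw [A.apply_symm_apply, A.apply_symm_apply] at h1
    change Q.1 (A.symm (v + w)) = Q.1 (A.symm v) + Q.1 (A.symm w) + φ v w
    rw [map_add, Q.2.1, h1]
  · refine Eq.trans ?_ Q.2.2
    apply Nat.card_congr
    exact Equiv.subtypeEquiv A.symm.toEquiv (fun v => Iff.rfl)

theorem actQ_apply (A : V ≃ₗ[ZMod 2] V) (hA : ∀ v w, φ (A v) (A w) = φ v w) (Q : QForm φ N)
    (v : V) : (actQ A hA Q).1 v = Q.1 (A.symm v) := rfl

/-- the form `Q + φ(·, c)`, for `Q c = 0` -/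
def shiftQ (hφ : IsSymp φ) (Q : QForm φ N) (c : V) (hc : Q.1 c = 0) : QForm φ N := by
  refine ⟨fun v => Q.1 v + φ v c, fun v w => ?_, ?_⟩
  · change Q.1 (v + w) + φ (v + w) c = (Q.1 v + φ v c) + (Q.1 w + φ w c) + φ v w
    rw [Q.2.1, map_add, LinearMap.add_apply]
    ring
  · refine Eq.trans ?_ Q.2.2
    obtain ⟨A, hA, -⟩ := hφ.exists_transv c
    apply Nat.card_congr
    refine Equiv.subtypeEquiv A.toEquiv (fun v => ?_)
    have : Q.1 (A v) = Q.1 v + φ v c := by
      rw [hA, Q.2.1, Q.smul, hc, mul_zero, add_zero, map_smul, smul_eq_mul]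
      generalize φ v c = a
      generalize Q.1 v = b
      revert a b
      decide
    change Q.1 v + φ v c = 0 ↔ Q.1 (A v) = 0
    rw [this]

theorem shiftQ_apply (hφ : IsSymp φ) (Q : QForm φ N) (c : V) (hc : Q.1 c = 0) (v : V) :
    (shiftQ hφ Q c hc).1 v = Q.1 v + φ v c := rfl

theorem shiftQ_inj (hφ : IsSymp φ) (Q : QForm φ N) {c d : V} (hc : Q.1 c = 0) (hd : Q.1 d = 0)
    (h : shiftQ hφ Q c hc = shiftQ hφ Q d hd) : c = d := by
  have h1 : ∀ v, φ (c - d) v = 0 := by
    intro v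
    have h2 := congrArg (fun q : QForm φ N => q.1 v) h
    simp only [shiftQ_apply] at h2
    rw [hφ.comm, map_sub, add_left_cancel h2, sub_self]
  exact sub_eq_zero.mp (hφ.2 _ h1)

theorem shiftQ_zero (hφ : IsSymp φ) (Q : QForm φ N) : shiftQ hφ Q 0 Q.zero = Q := by
  apply Subtype.ext
  funext v
  rw [shiftQ_apply, map_zero, add_zero]

theorem IsSymp.surj (h : IsSymp φ) : Function.Surjective φ := by
  haveI : Module.Finite (ZMod 2) V := Module.Finite.of_finite
  have hinj : Function.Injective φ := by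
    rw [injective_iff_map_eq_zero]
    intro v hv
    apply h.2
    intro w
    rw [hv, LinearMap.zero_apply]
  have : Module.finrank (ZMod 2) V = Module.finrank (ZMod 2) (V →ₗ[ZMod 2] ZMod 2) :=
    (Subspace.dual_finrank_eq (K := ZMod 2) (V := V)).symm
  exact (LinearMap.injective_iff_surjective_of_finrank_eq_finrank this).mp hinj

theorem exists_shift (hφ : IsSymp φ) (hN : 2 * N ≠ Nat.card V) (Q Q' : QForm φ N) :
    ∃ (c : V) (hc : Q.1 c = 0), Q' = shiftQ hφ Q c hc := by
  classical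
  haveI := Fintype.ofFinite V
  -- the difference is linear
  let f : V →+ ZMod 2 := AddMonoidHom.mk' (fun v => Q'.1 v + Q.1 v) (by
    intro v w
    rw [Q'.2.1, Q.2.1]
    generalize φ v w = a
    generalize Q'.1 v = b
    generalize Q'.1 w = c
    generalize Q.1 v = d
    generalize Q.1 w = e
    revert a b c d e
    decide)
  obtain ⟨c, hc⟩ := hφ.surj (f.toZModLinearMap 2)
  have hQ' : ∀ v, Q'.1 v = Q.1 v + φ v c := by
    intro v
    have h1 : φ c v = Q'.1 v + Q.1 v := by rw [hc]; rfl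
    rw [hφ.comm, h1]
    generalize Q'.1 v = b
    generalize Q.1 v = d
    revert b d
    decide
  have hQc : Q.1 c = 0 := by
    rcases zmod2_cases (Q.1 c) with h5 | h5
    · exact h5
    exfalso
    apply hN
    have h1 : Nat.card {v // Q'.1 v = 0} = Nat.card {v // ¬ Q.1 v = 0} := by
      apply Nat.card_congr
      refine Equiv.subtypeEquiv (Equiv.addRight c) (fun v => ?_)
      rw [hQ', Equiv.coe_addRight, Q.2.1, h5]
      generalize φ v c = a
      generalize Q.1 v = b
      revert a b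
      decide
    have h2 : Nat.card {v // Q.1 v = 0} + Nat.card {v // ¬ Q.1 v = 0} = Nat.card V := by
      rw [← Nat.card_congr (Equiv.sumCompl (fun v => Q.1 v = 0)), Nat.card_sum]
    rw [← h1, Q.2.2, Q'.2.2] at h2
    omega
  exact ⟨c, hQc, Subtype.ext (funext hQ')⟩

variable {K : Subgroup (Perm (QForm φ N))}

/-- the action of transvections on forms -/
theorem exists_transvQ (hφ : IsSymp φ)
    (hK : ∀ (A : V ≃ₗ[ZMod 2] V) (hA : ∀ v w, φ (A v) (A w) = φ v w),
      ∃ g ∈ K, ∀ Q, g Q = actQ A hA Q) (v : V) :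
    ∃ g ∈ K, ∀ (Q : QForm φ N) (w : V), (g Q).1 w = Q.1 w + φ w v * (Q.1 v + 1) := by
  obtain ⟨A, hA, hA'⟩ := hφ.exists_transv v
  obtain ⟨g, hg, hgQ⟩ := hK A hA'
  refine ⟨g, hg, fun Q w => ?_⟩
  have h1 : A.symm w = w + φ w v • v := by
    rw [LinearEquiv.symm_apply_eq, hA, map_add, map_smul, LinearMap.add_apply,
      LinearMap.smul_apply, hφ.1, smul_zero, add_zero, add_assoc, zmod2_add_self', add_zero]
  rw [hgQ, actQ_apply, h1, Q.2.1, Q.smul, map_smul, smul_eq_mul]
  generalize φ w v = a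
  generalize Q.1 v = b
  generalize Q.1 w = c
  revert a b c
  decide

theorem sp_prim [Finite (QForm φ N)] (hφ : IsSymp φ) (hV : 64 ≤ Nat.card V)
    (hN : 2 * N ≠ Nat.card V)
    (hK : ∀ (A : V ≃ₗ[ZMod 2] V) (hA : ∀ v w, φ (A v) (A w) = φ v w),
      ∃ g ∈ K, ∀ Q, g Q = actQ A hA Q) (htr : TTransitive K 2) : TPrimitive K 2 := by
  have hne : Nonempty (QForm φ N) := by
    have h2 := htr.1
    exact (Finite.one_lt_card_iff_nontrivial.mp (by omega)).to_nonempty
  obtain ⟨Q0⟩ := hne
  apply tPrimitive_two_of_rel htr Q0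
  intro r r1 r2 r3 r4 Q1 Q2 h1 h2 h12 hr Q3 h3
  obtain ⟨c1, hc1, rfl⟩ := exists_shift hφ hN Q0 Q1
  obtain ⟨c2, hc2, rfl⟩ := exists_shift hφ hN Q0 Q2
  obtain ⟨c3, hc3, rfl⟩ := exists_shift hφ hN Q0 Q3
  have hS0 : ∀ c (hc : Q0.1 c = 0), c ≠ 0 → shiftQ hφ Q0 c hc ≠ Q0 := by
    intro c hc hc0 h
    apply hc0
    apply shiftQ_inj hφ Q0 hc Q0.zero
    rw [h, shiftQ_zero]
  have hS0' : ∀ c (hc : Q0.1 c = 0), shiftQ hφ Q0 c hc ≠ Q0 → c ≠ 0 := by
    rintro c hc h rfl
    exact h (shiftQ_zero hφ Q0)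
  have key := quad_rel hφ hV Q0.2.1
    (fun c d => ∃ (hc : Q0.1 c = 0) (hd : Q0.1 d = 0),
      r (shiftQ hφ Q0 c hc) (shiftQ hφ Q0 d hd))
    (fun x hx hQx => ⟨hQx, hQx, r1 _ (hS0 x hQx hx)⟩)
    (fun x y hx hQx hy hQy ⟨_, _, h⟩ => ⟨hQy, hQx, r2 _ _ (hS0 x hQx hx) (hS0 y hQy hy) h⟩)
    (fun x y z hx hQx hy hQy hz hQz ⟨_, _, h⟩ ⟨_, _, h'⟩ =>
      ⟨hQx, hQz, r3 _ _ _ (hS0 x hQx hx) (hS0 y hQy hy) (hS0 z hQz hz) h h'⟩)
    (by
      rintro v hv x y hx hQx hy hQy ⟨_, _, h⟩
      obtain ⟨g, hg, hgQ⟩ := exists_transvQ hφ hK v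
      have hfix : g Q0 = Q0 := by
        apply Subtype.ext
        funext w
        rw [hgQ, hv, zmod2_one_add_one, mul_zero, add_zero]
      have hQt : ∀ x, Q0.1 x = 0 → Q0.1 (x + φ v x • v) = 0 := by
        intro x hQx
        rw [Q0.2.1, hQx, Q0.smul, hv, map_smul, smul_eq_mul, hφ.comm x v]
        generalize φ v x = a
        revert a
        decide
      have hgs : ∀ x (hQx : Q0.1 x = 0), g (shiftQ hφ Q0 x hQx) =
          shiftQ hφ Q0 (x + φ v x • v) (hQt x hQx) := by
        intro x hQx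
        apply Subtype.ext
        funext w
        rw [hgQ, shiftQ_apply, shiftQ_apply, shiftQ_apply, map_add, map_smul, smul_eq_mul, hv]
        generalize φ w x = a
        generalize φ w v = b
        generalize φ v x = c
        generalize Q0.1 w = d
        revert a b c d
        decide
      refine ⟨hQt x hQx, hQt y hQy, ?_⟩
      have := r4 g hg hfix _ _ (hS0 x hQx hx) (hS0 y hQy hy) h
      rwa [hgs, hgs] at this)
    (hS0' _ hc1 h1) hc1 (hS0' _ hc2 h2) hc2 (by rintro rfl; exact h12 rfl) ⟨hc1, hc2, hr⟩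
    (hS0' _ hc3 h3) hc3
  obtain ⟨_, _, h⟩ := key
  exact h

theorem sp_not_set [Finite (QForm φ N)] [DecidableEq (QForm φ N)] (hφ : IsSymp φ)
    (hV : 64 ≤ Nat.card V) (hN : 2 * N ≠ Nat.card V)
    (hK : ∀ g ∈ K, ∃ (A : V ≃ₗ[ZMod 2] V), ∀ (Q : QForm φ N) (v : V), (g Q).1 (A v) = Q.1 v)
    (htr : TTransitive K 2) : ¬ TSetPrimitive K 2 := by
  classical
  have hnt : Nontrivial (QForm φ N) := by
    have h2 := htr.1
    exact Finite.one_lt_card_iff_nontrivial.mp (by omega)
  obtain ⟨Q0, Q1, h01⟩ := exists_pair_ne (QForm φ N)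
  obtain ⟨c, hc, rfl⟩ := exists_shift hφ hN Q0 Q1
  have hc0 : c ≠ 0 := by
    rintro rfl
    exact h01 (shiftQ_zero hφ Q0).symm
  -- a singular vector orthogonal to `c`
  obtain ⟨u, hu0, huc, hQu, hcu⟩ : ∃ u, u ≠ 0 ∧ u ≠ c ∧ Q0.1 u = 0 ∧ φ u c = 0 := by
    obtain ⟨w1, p1, -, -, hw1⟩ := exists_perp (φ := φ) hV c 0 0 {0, c}
      (le_trans Finset.card_le_two (by norm_num))
    simp only [Finset.mem_insert, Finset.mem_singleton, not_or] at hw1
    rcases zmod2_cases (Q0.1 w1) with h5 | h5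
    · exact ⟨w1, hw1.1, hw1.2, h5, p1⟩
    obtain ⟨w2, p2, p3, -, hw2⟩ := exists_perp (φ := φ) hV c w1 0 {0, c, w1, c + w1}
      (le_trans Finset.card_le_four (by norm_num))
    simp only [Finset.mem_insert, Finset.mem_singleton, not_or] at hw2
    rcases zmod2_cases (Q0.1 w2) with h6 | h6
    · exact ⟨w2, hw2.1, hw2.2.1, h6, p2⟩
    · refine ⟨w1 + w2, ?_, ?_, ?_, ?_⟩
      · intro h7
        apply hw2.2.2.1
        rw [← zmod2_add_self' w2] at h7
        exact (add_right_cancel h7).symm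
      · intro h7
        apply hw2.2.2.2
        rw [← h7, add_comm w1 w2, add_assoc, zmod2_add_self', add_zero]
      · rw [Q0.2.1, h5, h6, hφ.comm, p3]; decide
      · rw [map_add, LinearMap.add_apply, p1, p2, add_zero]
  have hQuc : Q0.1 (u + c) = 0 := by rw [Q0.2.1, hQu, hc, hcu]; decide
  have hne : ∀ c (hc : Q0.1 c = 0), c ≠ 0 → Q0 ≠ shiftQ hφ Q0 c hc := by
    intro c hc hc0 h
    apply hc0
    apply shiftQ_inj hφ Q0 hc Q0.zero
    rw [← h, shiftQ_zero]
  have huc0 : u + c ≠ 0 := by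
    intro h7
    apply huc
    rw [← zmod2_add_self' c] at h7
    exact add_right_cancel h7
  have hne2 : shiftQ hφ Q0 u hQu ≠ shiftQ hφ Q0 (u + c) hQuc := by
    intro h
    have := shiftQ_inj hφ Q0 hQu hQuc h
    exact hc0 (left_eq_add.mp this)
  intro hset
  rw [tSetPrimitive_iff] at hset
  rcases hset.2 (fun S T => ∀ v, ∑ Q ∈ S, Q.1 v = ∑ Q ∈ T, Q.1 v) (fun S _ v => rfl)
    (fun S T _ _ h v => (h v).symm) (fun S T U _ _ _ h h' v => (h v).trans (h' v))
    (fun g hg S T _ _ h v => by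
      obtain ⟨A, hA⟩ := hK g hg
      have e1 : ∀ S : Finset (QForm φ N), ∑ Q ∈ S.map g.toEmbedding, Q.1 v =
          ∑ Q ∈ S, Q.1 (A.symm v) := by
        intro S
        rw [Finset.sum_map]
        apply Finset.sum_congr rfl
        intro Q _
        have := hA Q (A.symm v)
        rw [A.apply_symm_apply] at this
        exact this
      rw [e1, e1, h]) with h | h
  · have h1 := h {Q0, shiftQ hφ Q0 c hc} {shiftQ hφ Q0 u hQu, shiftQ hφ Q0 (u + c) hQuc}
      (Finset.card_pair h01) (Finset.card_pair hne2) (fun v => by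
        rw [Finset.sum_pair h01, Finset.sum_pair hne2, shiftQ_apply, shiftQ_apply, shiftQ_apply,
          map_add]
        generalize φ v c = a
        generalize φ v u = b
        generalize Q0.1 v = d
        revert a b d
        decide)
    have h2 : Q0 ∈ ({shiftQ hφ Q0 u hQu, shiftQ hφ Q0 (u + c) hQuc} : Finset (QForm φ N)) := by
      rw [← h1]; simp
    simp only [Finset.mem_insert, Finset.mem_singleton] at h2
    rcases h2 with h2 | h2
    · exact hne _ _ hu0 h2
    · exact hne _ _ huc0 h2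
  · have h1 := h {Q0, shiftQ hφ Q0 c hc} {Q0, shiftQ hφ Q0 u hQu}
      (Finset.card_pair h01) (Finset.card_pair (hne _ _ hu0))
    apply huc
    have h2 : ∀ v, φ (u - c) v = 0 := by
      intro v
      have h3 := h1 v
      rw [Finset.sum_pair h01, Finset.sum_pair (hne _ _ hu0), shiftQ_apply, shiftQ_apply] at h3
      rw [hφ.comm, map_sub, add_left_cancel (add_left_cancel h3), sub_self]
    exact sub_eq_zero.mp (hφ.2 _ h2)

end Forms

universe u

variable {X : Type u} [Finite X] [DecidableEq X] {G : Subgroup (Perm X)}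

theorem IsSp2.prim (h : IsSp2 G) (htr : TTransitive G 2) :
    TPrimitive G 2 ∧ ¬ TSetPrimitive G 2 := by
  classical
  obtain ⟨m, V, iV, iM, φ, N, e, hm, hV, hφ, hN, hG⟩ := h
  haveI : Finite V := Nat.finite_of_card_ne_zero (by rw [hV]; positivity)
  haveI : Finite (QForm φ N) := Finite.of_equiv X e.symm
  have htr' : TTransitive (conjGroup e.symm G) 2 := trans_conj.mpr htr
  have hV64 : 64 ≤ Nat.card V := by
    rw [hV]
    calc 64 = 2 ^ (2 * 3) := by norm_num
      _ ≤ 2 ^ (2 * m) := Nat.pow_le_pow_right (by norm_num) (by omega)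
  have hN2 : 2 * N ≠ Nat.card V := by
    obtain ⟨k, rfl⟩ : ∃ k, m = k + 1 := ⟨m - 1, by omega⟩
    have e1 : k + 1 - 1 = k := by omega
    have e2 : 2 ^ (2 * (k + 1)) = 2 * (2 ^ k * 2 ^ (k + 1)) := by ring
    have h0 : 0 < 2 ^ k := by positivity
    have h1 : 0 < 2 ^ (k + 1) := by positivity
    rw [e1] at hN
    rw [hV, e2]
    rcases hN with hN | hN
    · rw [hN]
      intro h5
      have h6 := Nat.eq_of_mul_eq_mul_left (by norm_num) h5
      have h7 := Nat.eq_of_mul_eq_mul_left h0 h6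
      omega
    · rw [hN]
      intro h5
      have h6 := Nat.eq_of_mul_eq_mul_left (by norm_num) h5
      have h7 := Nat.eq_of_mul_eq_mul_left h0 h6
      omega
  constructor
  · have : TPrimitive (conjGroup e.symm G) 2 := by
      apply sp_prim hφ hV64 hN2 _ htr'
      intro A hA
      let p : Perm (QForm φ N) := {
        toFun := actQ A hA
        invFun := actQ A.symm (fun v w => by
          have := hA (A.symm v) (A.symm w)
          rw [A.apply_symm_apply, A.apply_symm_apply] at this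
          exact this.symm)
        left_inv := fun Q => by
          apply Subtype.ext
          funext v
          rw [actQ_apply, actQ_apply]
          simp
        right_inv := fun Q => by
          apply Subtype.ext
          funext v
          rw [actQ_apply, actQ_apply]
          simp }
      have hp : e.permCongr p ∈ G := by
        rw [hG]
        refine ⟨A, hA, fun Q Q' hQ => ?_⟩
        rw [Equiv.permCongr_apply, e.symm_apply_apply]
        congr 1
        apply Subtype.ext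
        funext v
        change Q.1 (A.symm v) = Q'.1 v
        rw [← hQ, A.apply_symm_apply]
      obtain ⟨k, hk, hkv⟩ := mem_conj_symm (e := e) hp
      refine ⟨k, hk, fun Q => ?_⟩
      apply e.injective
      rw [hkv, Equiv.permCongr_apply, e.symm_apply_apply]
      rfl
    exact prim_conj.mp this
  · intro hset
    have hset' : TSetPrimitive (conjGroup e.symm G) 2 := set_conj.mpr hset
    refine sp_not_set hφ hV64 hN2 ?_ htr' hset'
    intro g hg
    obtain ⟨k, hk, hkv⟩ := of_mem_conj_symm hg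
    obtain ⟨A, hA, hAQ⟩ := (hG k).mp hk
    refine ⟨A, fun Q v => ?_⟩
    have h1 := hAQ Q (actQ A hA Q) (fun v => by rw [actQ_apply, A.symm_apply_apply])
    have h2 : g Q = actQ A hA Q := e.injective (by rw [hkv, h1])
    rw [h2, actQ_apply, A.symm_apply_apply]

end Pool.Agent.H922
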