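import Mathlib
import Pool.Agent.H922.Br2
import Pool.Agent.H922.Quad2

set_option autoImplicit false
set_option linter.style.haveILetI false
set_option linter.unusedVariables false
set_option linter.unusedSectionVars false

/-!
# Suzuki groups, groups over the field with two elements
-/

namespace Pool.Agent.H922.C

open Equiv MulAction Matrix

universe u

section Lin

variable {F X : Type*} [Field F] {n : ℕ} {P : X → Fin n → F}

theorem toMatrix_mulVec (A : (Fin n → F) ≃ₗ[F] (Fin n → F)) (v : Fin n → F) :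
    (LinearMap.toMatrix' (A : (Fin n → F) →ₗ[F] (Fin n → F))) *ᵥ v = A v := by
  rw [LinearMap.toMatrix'_mulVec]
  rfl

theorem toMatrix_det (A : (Fin n → F) ≃ₗ[F] (Fin n → F)) :
    (LinearMap.toMatrix' (A : (Fin n → F) →ₗ[F] (Fin n → F))).det ≠ 0 := by
  rw [LinearMap.det_toMatrix']
  exact (LinearEquiv.isUnit_det' A).ne_zero

/-- the linear bijection given by a matrix -/
noncomputable def linEquiv {M : Matrix (Fin n) (Fin n) F} (hM : Function.Bijective (M.mulVec)) :
    (Fin n → F) ≃ₗ[F] (Fin n → F) := LinearEquiv.ofBijective M.mulVecLin hM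

theorem linEquiv_apply {M : Matrix (Fin n) (Fin n) F} (hM : Function.Bijective (M.mulVec))
    (v : Fin n → F) : linEquiv hM v = M *ᵥ v := rfl

theorem mulVec_bij {M : Matrix (Fin n) (Fin n) F} (hM : M.det ≠ 0) :
    Function.Bijective (M.mulVec) := by
  have hu : IsUnit M := (isUnit_iff_isUnit_det M).mpr (isUnit_iff_ne_zero.mpr hM)
  exact ⟨mulVec_injective_iff_isUnit.mpr hu, mulVec_surjective_iff_isUnit.mpr hu⟩

end Lin

section Suz

variable {X : Type u} {G : Subgroup (Perm X)}

theorem suz_eq {F : Type*} [Field F] (θ : F ≃+* F) (x : Option (F × F)) :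
    suz θ x = ovoid θ x := by
  rcases x with _ | ⟨a, b⟩ <;> rfl

theorem IsSz.old (h : IsSz G) : H922.IsSz G := by
  obtain ⟨F, iF, θ, e, hF, hθ, h1, h2⟩ := h
  refine ⟨F, iF, θ, e.symm, hθ, hF, ?_, ?_⟩
  · rintro g hg
    obtain ⟨k, ⟨A, hA⟩, hk⟩ := mem_conjGroup.mp hg
    refine h1 (LinearMap.toMatrix' (A : (Fin 4 → F) →ₗ[F] (Fin 4 → F))) g
      ⟨toMatrix_det A, fun x => ?_⟩
    obtain ⟨y, rfl⟩ := e.symm.surjective x
    obtain ⟨c, hc⟩ := hA y
    refine ⟨c, ?_⟩
    rw [hk]
    beta_reduce
    rw [e.apply_symm_apply, e.apply_symm_apply, suz_eq, suz_eq, ← hc]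
    exact toMatrix_mulVec A _
  · intro g hg
    obtain ⟨M, σ, hM⟩ := h2 g hg
    rw [mem_conjGroup]
    refine ⟨e.permCongr g, ⟨σ, semiEquiv hM.1 σ, fun c v => semiEquiv_smul hM.1 σ c v,
      fun y => ?_⟩, fun y => ?_⟩
    · obtain ⟨c, hc⟩ := hM.2 (e.symm y)
      refine ⟨c, ?_⟩
      beta_reduce at hc
      rw [e.apply_symm_apply] at hc
      rw [semiEquiv_apply, ← suz_eq, hc, ← suz_eq, Equiv.permCongr_apply]
    · rw [Equiv.permCongr_apply, e.symm_apply_apply]

end Suz

section Two

variable {n : ℕ} {J : Matrix (Fin n) (Fin n) (ZMod 2)}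

/-- the bilinear form of a matrix -/
noncomputable def bil (J : Matrix (Fin n) (Fin n) (ZMod 2)) :
    (Fin n → ZMod 2) →ₗ[ZMod 2] (Fin n → ZMod 2) →ₗ[ZMod 2] ZMod 2 := toLinearMap₂' (ZMod 2) J

theorem bil_apply (J : Matrix (Fin n) (Fin n) (ZMod 2)) (v w : Fin n → ZMod 2) :
    bil J v w = v ⬝ᵥ J *ᵥ w := toLinearMap₂'_apply' J v w

theorem bil_comm (hJ : Jᵀ = J) (v w : Fin n → ZMod 2) : bil J v w = bil J w v := by
  rw [bil_apply, bil_apply]
  conv_lhs => rw [← hJ]
  rw [mulVec_transpose, dotProduct_comm, ← dotProduct_mulVec]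

theorem IsAlt.symp (h : IsAlt J) : IsSymp (bil J) := by
  obtain ⟨h1, h2, h3⟩ := h
  refine ⟨?_, ?_⟩
  · let f : (Fin n → ZMod 2) →+ ZMod 2 := {
      toFun := fun v => bil J v v
      map_zero' := by simp
      map_add' := fun v w => by
        rw [LinearMap.map_add₂, map_add, map_add, bil_comm h2 w v]
        generalize bil J v w = a
        generalize bil J v v = b
        generalize bil J w w = c
        revert a b c
        decide }
    have hf : f = 0 := by
      apply AddMonoidHom.functions_ext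
      intro i a
      change bil J (Pi.single i a) (Pi.single i a) = 0
      rw [bil_apply, mulVec_single, single_dotProduct]
      simp [h3]
    intro v
    exact DFunLike.congr_fun hf v
  · intro v hv
    apply eq_zero_of_vecMul_eq_zero h1
    ext i
    have h4 := hv (Pi.single i 1)
    rw [bil_apply, dotProduct_mulVec, dotProduct_single_one] at h4
    exact h4

theorem bil_isom {M : Matrix (Fin n) (Fin n) (ZMod 2)} :
    Mᵀ * J * M = J ↔ ∀ v w, bil J (M *ᵥ v) (M *ᵥ w) = bil J v w := by
  have key : ∀ v w, bil J (M *ᵥ v) (M *ᵥ w) = bil (Mᵀ * J * M) v w := by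
    intro v w
    rw [bil_apply, bil_apply, ← mulVec_mulVec, ← mulVec_mulVec, dotProduct_mulVec v Mᵀ,
      vecMul_transpose]
  constructor
  · intro h v w
    rw [key, h]
  · intro h
    have h1 : bil (Mᵀ * J * M) = bil J := by
      apply LinearMap.ext₂
      intro v w
      rw [← key, h]
    exact (toLinearMap₂' (ZMod 2)).injective h1

variable {X : Type u} {G : Subgroup (Perm X)}

theorem IsAff2.old (h : IsAff2 G) : IsAGL2 G ∨ IsASp G := by
  obtain ⟨n, J, e, hJ, h1, h2⟩ := h
  have hup : ∀ g ∈ G, ∃ (A : (Fin n → ZMod 2) ≃ₗ[ZMod 2] (Fin n → ZMod 2)) (b : Fin n → ZMod 2),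
      ∀ v, g (e.symm v) = e.symm (A v + b) := by
    intro g hg
    obtain ⟨M, b, hM⟩ := h2 g hg
    have hbij : Function.Bijective M.mulVec := by
      constructor
      · intro v w hvw
        have h3 := hM (e.symm v)
        have h4 := hM (e.symm w)
        rw [e.apply_symm_apply] at h3 h4
        rw [hvw, ← h4] at h3
        exact e.symm.injective (g.injective (e.injective h3))
      · intro w
        have h3 := hM (g.symm (e.symm (w + b)))
        rw [g.apply_symm_apply, e.apply_symm_apply] at h3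
        exact ⟨_, (add_right_cancel h3).symm⟩
    refine ⟨linEquiv hbij, b, fun v => ?_⟩
    rw [← e.symm_apply_apply (g (e.symm v)), hM, e.apply_symm_apply]
    rfl
  have hlow : ∀ (A : (Fin n → ZMod 2) ≃ₗ[ZMod 2] (Fin n → ZMod 2)) (b : Fin n → ZMod 2),
      (∀ v w, bil J (A v) (A w) = bil J v w) → ∃ g ∈ G, ∀ v, g (e.symm v) = e.symm (A v + b) := by
    intro A b hA
    let k : Perm X := (e.trans (A.toEquiv.trans (Equiv.addRight b))).trans e.symm
    have hk : ∀ v, k (e.symm v) = e.symm (A v + b) := by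
      intro v
      simp [k]
    refine ⟨k, h1 (LinearMap.toMatrix' (A : (Fin n → ZMod 2) →ₗ[ZMod 2] (Fin n → ZMod 2))) b k
      ?_ ?_, hk⟩
    · rw [bil_isom]
      intro v w
      rw [toMatrix_mulVec, toMatrix_mulVec, hA]
    · intro x
      obtain ⟨v, rfl⟩ := e.symm.surjective x
      rw [hk, e.apply_symm_apply, e.apply_symm_apply, toMatrix_mulVec]
  rcases hJ with rfl | hJ
  · left
    exact ⟨Fin n → ZMod 2, inferInstance, inferInstance, e.symm, hup,
      fun A b => hlow A b fun v w => by simp [bil_apply]⟩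
  · right
    exact ⟨Fin n → ZMod 2, inferInstance, inferInstance, e.symm, bil J, hJ.symp, hup, hlow⟩

theorem IsSp2.old (h : IsSp2 G) : H922.IsSp2 G := by
  obtain ⟨m, N, J, Q, hm, hJ, hN, hQ, hf, hG⟩ := h
  have hf' : ∀ f : (Fin (2 * m) → ZMod 2) → ZMod 2, (∃ x, Q x = f) ↔
      ((∀ v w, f (v + w) = f v + f w + bil J v w) ∧ Nat.card {v // f v = 0} = N) := by
    intro f
    rw [hf]
    simp only [bil_apply]
  let ι : X → QForm (bil J) N := fun x => ⟨Q x, (hf' (Q x)).mp ⟨x, rfl⟩⟩
  have hι : Function.Bijective ι := by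
    constructor
    · intro x y hxy
      exact hQ (congrArg Subtype.val hxy)
    · intro q
      obtain ⟨x, hx⟩ := (hf' q.1).mpr q.2
      exact ⟨x, Subtype.ext hx⟩
  let e : X ≃ QForm (bil J) N := Equiv.ofBijective ι hι
  have he : ∀ x, (e x).1 = Q x := fun x => rfl
  refine ⟨m, Fin (2 * m) → ZMod 2, inferInstance, inferInstance, bil J, N, e.symm, hm, ?_,
    hJ.symp, hN, ?_⟩
  · rw [Nat.card_fun, Nat.card_fin, Nat.card_zmod]
  · intro g
    rw [hG]
    constructor
    · rintro ⟨M, hM, hg⟩
      have hdet : M.det ≠ 0 := by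
        intro h0
        have := congrArg det hM
        rw [det_mul, det_mul, h0, mul_zero] at this
        exact hJ.1 this.symm
      refine ⟨linEquiv (mulVec_bij hdet), fun v w => ?_, fun Q1 Q2 h12 => ?_⟩
      · rw [linEquiv_apply, linEquiv_apply]
        exact bil_isom.mp hM v w
      · rw [← e.apply_eq_iff_eq, e.apply_symm_apply]
        apply Subtype.ext
        rw [he]
        ext v
        obtain ⟨w, rfl⟩ := (mulVec_bij hdet).2 v
        have h3 := h12 w
        rw [linEquiv_apply] at h3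
        have h4 := hg (e.symm Q1) w
        rw [h4, h3, ← he, e.apply_symm_apply]
    · rintro ⟨A, hA, hg⟩
      refine ⟨LinearMap.toMatrix' (A : (Fin (2 * m) → ZMod 2) →ₗ[ZMod 2] (Fin (2 * m) → ZMod 2)),
        ?_, fun x v => ?_⟩
      · rw [bil_isom]
        intro v w
        rw [toMatrix_mulVec, toMatrix_mulVec, hA]
      · have h1 := hg (e x) (actQ A hA (e x)) fun w => by
          rw [actQ_apply, A.symm_apply_apply]
        rw [e.symm_apply_apply] at h1
        rw [toMatrix_mulVec, h1, ← he, e.apply_symm_apply, actQ_apply, A.symm_apply_apply, he]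

end Two

end Pool.Agent.H922.C
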