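import Mathlib
import Pool.Agent.H922.Chk3
import Pool.Agent.H922.Sym

set_option autoImplicit false
set_option linter.style.haveILetI false
set_option linter.unusedVariables false
set_option linter.unusedSectionVars false

/-!
# Computation with explicit permutations: words in few elements
-/

namespace Pool.Agent.H922

open Equiv MulAction

/-- apply a word -/
def appW (Ps : List ℕ) : List ℕ → ℕ → ℕ
  | [], i => i
  | k :: w, i => app (Ps.getD k 0) (appW Ps w i)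

/-- all letters are in range -/
def okW (m : ℕ) (Ws : List (List ℕ)) : Bool :=
  Ws.all (fun w => allL (fun k => Nat.blt k m) w)

/-- mark the images of `x` under the words -/
def wmask (Ps : List ℕ) (x : ℕ) : List (List ℕ) → ℕ → ℕ
  | [], m => m
  | w :: Ws, m => wmask Ps x Ws (Nat.lor m (Nat.shiftLeft 1 (appW Ps w x)))

/-- saturate with the images of the pair `(x, y)` under the words -/
def emask (Ps : List ℕ) (x y : ℕ) : List (List ℕ) → ℕ → ℕ
  | [], m => m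
  | w :: Ws, m => emask Ps x y Ws
      (bif (Nat.testBit m (appW Ps w x) || Nat.testBit m (appW Ps w y)) then
        Nat.lor (Nat.lor m (Nat.shiftLeft 1 (appW Ps w x))) (Nat.shiftLeft 1 (appW Ps w y)) else m)

/-- the codes fix the points of the list -/
def fixL (n : ℕ) (zs : List ℕ) (Ps : List ℕ) : Bool :=
  allL (fun P => allL (fun z => Nat.beq (app P z) z) zs) Ps

variable {n : ℕ} {G : Subgroup (Perm (Fin n))}

/-- the codes belong to elements of `G` fixing the points in `s` -/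
def InGF (G : Subgroup (Perm (Fin n))) (s : Set (Fin n)) (P : ℕ) : Prop :=
  ∃ g ∈ G, (∀ z ∈ s, g z = z) ∧ ∀ i : Fin n, ((g i : Fin n) : ℕ) = app P i

theorem appW_ex {s : Set (Fin n)} {Ps : List ℕ} (h : ∀ P ∈ Ps, InGF G s P) (w : List ℕ)
    (hw : allL (fun k => Nat.blt k Ps.length) w = true) :
    ∃ g ∈ G, (∀ z ∈ s, g z = z) ∧ ∀ i : Fin n, ((g i : Fin n) : ℕ) = appW Ps w i := by
  induction w with
  | nil => exact ⟨1, G.one_mem, fun z _ => rfl, fun i => rfl⟩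
  | cons k w ih =>
    rw [allL_iff] at hw
    obtain ⟨g, hg, hgs, hgi⟩ := ih (by
      rw [allL_iff]
      exact fun k' hk' => hw k' (List.mem_cons_of_mem _ hk'))
    have hk := hw k List.mem_cons_self
    rw [Nat.blt_eq] at hk
    obtain ⟨g', hg', hgs', hgi'⟩ := h (Ps.getD k 0) (by
      rw [List.getD_eq_getElem _ _ hk]
      exact List.getElem_mem hk)
    refine ⟨g' * g, G.mul_mem hg' hg, fun z hz => ?_, fun i => ?_⟩
    · rw [Perm.mul_apply, hgs z hz, hgs' z hz]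
    · rw [Perm.mul_apply, hgi', hgi]
      rfl

theorem appW_lt {s : Set (Fin n)} {Ps : List ℕ} (h : ∀ P ∈ Ps, InGF G s P) {w : List ℕ}
    (hw : allL (fun k => Nat.blt k Ps.length) w = true) {x : ℕ} (hx : x < n) :
    appW Ps w x < n := by
  obtain ⟨g, -, -, hgi⟩ := appW_ex h w hw
  rw [← hgi ⟨x, hx⟩]
  exact (g _).2

theorem wmask_spec {Ps : List ℕ} {x : ℕ} (Ws : List (List ℕ)) : ∀ m i,
    Nat.testBit (wmask Ps x Ws m) i = true →
      Nat.testBit m i = true ∨ ∃ w ∈ Ws, appW Ps w x = i := by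
  induction Ws with
  | nil => intro m i h; exact Or.inl h
  | cons w Ws ih =>
    intro m i h
    rcases ih _ i h with h1 | ⟨w', hw', h1⟩
    · rw [testBit_or_shift] at h1
      rcases h1 with h2 | h2
      · exact Or.inl h2
      · exact Or.inr ⟨w, List.mem_cons_self, h2.symm⟩
    · exact Or.inr ⟨w', List.mem_cons_of_mem _ hw', h1⟩

theorem testBit_full {i : ℕ} (hi : i < n) : Nat.testBit (2 ^ n - 1) i = true := by
  rw [Nat.testBit_two_pow_sub_one]
  exact decide_eq_true hi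

/-- the orbit of `x` -/
theorem orbit_of_wmask {s : Set (Fin n)} {Ps : List ℕ} (h : ∀ P ∈ Ps, InGF G s P) {x : ℕ}
    (hx : x < n) {Ws : List (List ℕ)} (hok : okW Ps.length Ws = true) {m i : ℕ} (hi : i < n)
    (hm : Nat.testBit m i = false) (hbit : Nat.testBit (wmask Ps x Ws m) i = true) :
    ∃ g ∈ G, (∀ z ∈ s, g z = z) ∧ g ⟨x, hx⟩ = ⟨i, hi⟩ := by
  rcases wmask_spec Ws m i hbit with h1 | ⟨w, hw, h1⟩
  · rw [hm] at h1
    exact absurd h1 (by simp)
  · unfold okW at hok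
    rw [List.all_eq_true] at hok
    obtain ⟨g, hg, hgs, hgi⟩ := appW_ex h w (hok w hw)
    exact ⟨g, hg, hgs, Fin.ext (by rw [hgi]; exact h1)⟩

theorem inGF_of_fix {Ps : List ℕ} {zs : List ℕ} (h : ∀ P ∈ Ps, InG G P)
    (hfix : fixL n zs Ps = true) : ∀ P ∈ Ps, InGF G {z : Fin n | (z : ℕ) ∈ zs} P := by
  intro P hP
  obtain ⟨g, hg, hgi⟩ := h P hP
  refine ⟨g, hg, fun z hz => Fin.ext ?_, hgi⟩
  unfold fixL at hfix
  rw [allL_iff] at hfix
  have h1 := hfix P hP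
  rw [allL_iff] at h1
  have h2 := h1 z hz
  rw [Nat.beq_eq] at h2
  rw [hgi, h2]

theorem inGF_empty {Ps : List ℕ} (h : ∀ P ∈ Ps, InG G P) : ∀ P ∈ Ps, InGF G ∅ P := by
  intro P hP
  obtain ⟨g, hg, hgi⟩ := h P hP
  exact ⟨g, hg, fun z hz => absurd hz (by simp), hgi⟩

/-- 2-transitivity from words -/
theorem two_trans_of_words (hn : 2 ≤ n) {Ps S1 : List ℕ} (hPs : ∀ P ∈ Ps, InG G P)
    (hS1 : ∀ P ∈ S1, InG G P) (hfix : fixL n [0] S1 = true) {W0 W1 : List (List ℕ)}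
    (hok0 : okW Ps.length W0 = true) (hok1 : okW S1.length W1 = true)
    (h0 : Nat.beq (wmask Ps 0 W0 0) (2 ^ n - 1) = true)
    (h1 : Nat.beq (wmask S1 1 W1 1) (2 ^ n - 1) = true) :
    TTransitive G 2 ∧ ∀ x y : Fin n, (x : ℕ) ≠ 0 → (y : ℕ) ≠ 0 →
      ∃ g ∈ G, g ⟨0, by omega⟩ = ⟨0, by omega⟩ ∧ g x = y := by
  rw [Nat.beq_eq] at h0 h1
  have a0 : ∀ i : Fin n, ∃ g ∈ G, g ⟨0, by omega⟩ = i := by
    intro i
    obtain ⟨g, hg, -, hgi⟩ := orbit_of_wmask (inGF_empty hPs) (by omega : 0 < n) hok0 i.2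
      (by rw [Nat.zero_testBit]) (by rw [h0]; exact testBit_full i.2)
    exact ⟨g, hg, hgi⟩
  have a1 : ∀ i : Fin n, (i : ℕ) ≠ 0 → ∃ g ∈ G, g ⟨0, by omega⟩ = ⟨0, by omega⟩ ∧
      g ⟨1, by omega⟩ = i := by
    intro i hi
    obtain ⟨g, hg, hgs, hgi⟩ := orbit_of_wmask (inGF_of_fix hS1 hfix) (by omega : 1 < n) hok1 i.2
      (m := 1) (by
        have e : (1 : ℕ) = 2 ^ 1 - 1 := rfl
        rw [e, Nat.testBit_two_pow_sub_one]
        exact decide_eq_false (by omega)) (by rw [h1]; exact testBit_full i.2)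
    exact ⟨g, hg, hgs ⟨0, by omega⟩ (by simp), hgi⟩
  have two : ∀ x y : Fin n, x ≠ y → ∃ g ∈ G, g ⟨0, by omega⟩ = x ∧ g ⟨1, by omega⟩ = y := by
    intro x y hxy
    obtain ⟨g, hg, hgx⟩ := a0 x
    obtain ⟨k, hk, k0, k1⟩ := a1 (g⁻¹ y) (by
      intro h
      apply hxy
      have : g⁻¹ y = ⟨0, by omega⟩ := Fin.ext h
      rw [Perm.inv_eq_iff_eq, hgx] at this
      exact this.symm)
    refine ⟨g * k, G.mul_mem hg hk, ?_, ?_⟩
    · rw [Perm.mul_apply, k0, hgx]
    · rw [Perm.mul_apply, k1, perm_apply_inv]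
  constructor
  · refine ⟨by rw [Nat.card_eq_fintype_card, Fintype.card_fin]; exact hn, ?_⟩
    rw [multTrans_iff]
    intro a b ha hb
    have ha' : a 0 ≠ a 1 := fun h => absurd (ha h) (by decide)
    have hb' : b 0 ≠ b 1 := fun h => absurd (hb h) (by decide)
    obtain ⟨g, hg, g0, g1⟩ := two (a 0) (a 1) ha'
    obtain ⟨k, hk, k0, k1⟩ := two (b 0) (b 1) hb'
    refine ⟨k * g⁻¹, G.mul_mem hk (G.inv_mem hg), fun i => ?_⟩
    fin_cases i
    · change (k * g⁻¹) (a 0) = b 0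
      rw [Perm.mul_apply, ← g0, perm_inv_apply, k0]
    · change (k * g⁻¹) (a 1) = b 1
      rw [Perm.mul_apply, ← g1, perm_inv_apply, k1]
  · intro x y hx hy
    obtain ⟨g, hg, g0, g1⟩ := a1 x hx
    obtain ⟨k, hk, k0, k1⟩ := a1 y hy
    refine ⟨k * g⁻¹, G.mul_mem hk (G.inv_mem hg), ?_, ?_⟩
    · rw [Perm.mul_apply]
      nth_rewrite 1 [← g0]
      rw [perm_inv_apply, k0]
    · rw [Perm.mul_apply, ← g1, perm_inv_apply, k1]

/-- representatives of the orbits of the stabiliser of `0` and `1`: the point `z`, words in `S2`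
giving its orbit, words in `S1` for the saturation of the pair `(1, z)`, codes fixing
`0`, `1`, `z`, and pairs of codes for the exceptional points -/
structure Rep where
  /-- the point -/
  z : ℕ
  /-- words for the orbit -/
  orb : List (List ℕ)
  /-- words for the saturation -/
  sat : List (List ℕ)
  /-- codes of elements fixing three points -/
  fix : List ℕ
  /-- exceptional pairs -/
  ex : List (ℕ × ℕ)

/-- the union of the orbits -/
def repMask (S2 : List ℕ) : List Rep → ℕ → ℕ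
  | [], m => m
  | R :: Rs, m => repMask S2 Rs (wmask S2 R.z R.orb m)

theorem repMask_spec {S2 : List ℕ} (Rs : List Rep) : ∀ m i,
    Nat.testBit (repMask S2 Rs m) i = true →
      Nat.testBit m i = true ∨ ∃ R ∈ Rs, ∃ w ∈ R.orb, appW S2 w R.z = i := by
  induction Rs with
  | nil => intro m i h; exact Or.inl h
  | cons R Rs ih =>
    intro m i h
    rcases ih _ i h with h1 | ⟨R', hR', h1⟩
    · rcases wmask_spec R.orb _ i h1 with h2 | ⟨w, hw, h2⟩
      · exact Or.inl h2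
      · exact Or.inr ⟨R, List.mem_cons_self, w, hw, h2⟩
    · exact Or.inr ⟨R', List.mem_cons_of_mem _ hR', h1⟩

/-- checks for the representatives, without 2-set primitivity -/
def repOK (n l1 l2 : ℕ) (S1 : List ℕ) (R : Rep) : Bool :=
  (Nat.blt R.z n) && (Nat.blt 1 R.z) && (okW l2 R.orb) && (okW l1 R.sat) &&
    (Nat.beq (emask S1 1 R.z R.sat 2) (2 ^ n - 2))

theorem emask_spec {s : Set (Fin n)} {r : Fin n → Fin n → Prop} {S1 : List ℕ}
    (hS1 : ∀ P ∈ S1, InGF G s P)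
    (h2 : ∀ x, x ∉ s → ∀ y, y ∉ s → r x y → r y x)
    (h3 : ∀ x, x ∉ s → ∀ y, y ∉ s → ∀ z, z ∉ s → r x y → r y z → r x z)
    (h4 : ∀ g ∈ G, (∀ z ∈ s, g z = z) → ∀ x, x ∉ s → ∀ y, y ∉ s → r x y → r (g x) (g y))
    {x y : Fin n} (hx : x ∉ s) (hy : y ∉ s) (hxy : r x y) (Ws : List (List ℕ))
    (hok : okW S1.length Ws = true) :
    ∀ m, ClassMask s r x m → ClassMask s r x (emask S1 x y Ws m) := by
  induction Ws with
  | nil => intro m hm; exact hm
  | cons w Ws ih =>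
    intro m hm
    unfold okW at hok
    rw [List.all_cons, Bool.and_eq_true] at hok
    rw [emask]
    apply ih hok.2
    obtain ⟨g, hg, hgs, hgi⟩ := appW_ex hS1 w hok.1
    have hns : ∀ z, z ∉ s → g z ∉ s := by
      intro z hz hgz
      have := hgs _ hgz
      rw [g.injective this] at hgz
      exact hz hgz
    have hr := h4 g hg hgs x hx y hy hxy
    have egx : (⟨appW S1 w x, by rw [← hgi]; exact (g x).2⟩ : Fin n) = g x :=
      Fin.ext (hgi x).symm
    have egy : (⟨appW S1 w y, by rw [← hgi]; exact (g y).2⟩ : Fin n) = g y :=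
      Fin.ext (hgi y).symm
    cases hc : (Nat.testBit m (appW S1 w x) || Nat.testBit m (appW S1 w y)) with
    | false => exact hm
    | true =>
      simp only [cond_true]
      have hboth : r x (g x) ∧ r x (g y) := by
        rw [Bool.or_eq_true] at hc
        rcases hc with hc | hc
        · obtain ⟨hi, h5, h6⟩ := hm _ hc
          rw [egx] at h5 h6
          exact ⟨h6, h3 x hx _ (hns x hx) _ (hns y hy) h6 hr⟩
        · obtain ⟨hi, h5, h6⟩ := hm _ hc
          rw [egy] at h5 h6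
          exact ⟨h3 x hx _ (hns y hy) _ (hns x hx) h6 (h2 _ (hns x hx) _ (hns y hy) hr), h6⟩
      intro i hi
      rw [testBit_or_shift, testBit_or_shift] at hi
      rcases hi with (hi | rfl) | rfl
      · exact hm i hi
      · refine ⟨by rw [← hgi]; exact (g x).2, ?_⟩
        rw [egx]
        exact ⟨hns x hx, hboth.1⟩
      · refine ⟨by rw [← hgi]; exact (g y).2, ?_⟩
        rw [egy]
        exact ⟨hns y hy, hboth.2⟩

theorem testBit_full' {i : ℕ} (hi : i < n) (hi0 : i ≠ 0) :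
    Nat.testBit (2 ^ n - 2) i = true := by
  obtain ⟨k, rfl⟩ : ∃ k, n = k + 1 := ⟨n - 1, by omega⟩
  obtain ⟨j, rfl⟩ : ∃ j, i = j + 1 := ⟨i - 1, by omega⟩
  have : 2 ^ (k + 1) - 2 = 2 * (2 ^ k - 1) := by
    have := Nat.pow_succ 2 k
    omega
  rw [this, Nat.testBit_succ, Nat.mul_div_cancel_left _ (by norm_num : 0 < 2),
    Nat.testBit_two_pow_sub_one]
  exact decide_eq_true (by omega)

/-- 2-primitivity from words -/
theorem prim_of_words (hn : 2 ≤ n) (htr : TTransitive G 2)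
    (h1t : ∀ x y : Fin n, (x : ℕ) ≠ 0 → (y : ℕ) ≠ 0 →
      ∃ g ∈ G, g ⟨0, by omega⟩ = ⟨0, by omega⟩ ∧ g x = y)
    {S1 S2 : List ℕ} (hS1 : ∀ P ∈ S1, InG G P) (hS2 : ∀ P ∈ S2, InG G P)
    (hfix1 : fixL n [0] S1 = true) (hfix2 : fixL n [0, 1] S2 = true) {Rs : List Rep}
    (hRs : Rs.all (repOK n S1.length S2.length S1) = true)
    (hcov : Nat.beq (repMask S2 Rs 3) (2 ^ n - 1) = true) :
    TPrimitive G 2 ∧ ∀ x : Fin n, (x : ℕ) ≠ 0 → (x : ℕ) ≠ 1 → ∃ R ∈ Rs, ∃ hz : R.z < n,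
      ∃ g ∈ G, g ⟨0, by omega⟩ = ⟨0, by omega⟩ ∧ g ⟨1, by omega⟩ = ⟨1, by omega⟩ ∧
        g ⟨R.z, hz⟩ = x := by
  rw [List.all_eq_true] at hRs
  rw [Nat.beq_eq] at hcov
  have hR : ∀ R ∈ Rs, R.z < n ∧ 1 < R.z ∧ okW S2.length R.orb = true ∧
      okW S1.length R.sat = true ∧ emask S1 1 R.z R.sat 2 = 2 ^ n - 2 := by
    intro R hR
    have := hRs R hR
    unfold repOK at this
    rw [Bool.and_eq_true, Bool.and_eq_true, Bool.and_eq_true, Bool.and_eq_true, Nat.blt_eq,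
      Nat.blt_eq, Nat.beq_eq] at this
    exact ⟨this.1.1.1.1, this.1.1.1.2, this.1.1.2, this.1.2, this.2⟩
  have hrep : ∀ x : Fin n, (x : ℕ) ≠ 0 → (x : ℕ) ≠ 1 → ∃ R ∈ Rs, ∃ hz : R.z < n,
      ∃ g ∈ G, g ⟨0, by omega⟩ = ⟨0, by omega⟩ ∧ g ⟨1, by omega⟩ = ⟨1, by omega⟩ ∧
        g ⟨R.z, hz⟩ = x := by
    intro x hx0 hx1
    rcases repMask_spec Rs 3 x (by rw [hcov]; exact testBit_full x.2) with h5 | ⟨R, hR', w, hw, h5⟩
    · exfalso
      have h6 : (3 : ℕ) = 2 ^ 2 - 1 := rfl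
      rw [h6, Nat.testBit_two_pow_sub_one, decide_eq_true_eq] at h5
      omega
    · obtain ⟨hz, -, hok, -, -⟩ := hR R hR'
      unfold okW at hok
      rw [List.all_eq_true] at hok
      obtain ⟨g, hg, hgs, hgi⟩ := appW_ex (inGF_of_fix hS2 hfix2) w (hok w hw)
      exact ⟨R, hR', hz, g, hg, hgs ⟨0, by omega⟩ (by simp), hgs ⟨1, by omega⟩ (by simp),
        Fin.ext (by rw [hgi]; exact h5)⟩
  refine ⟨?_, hrep⟩
  apply tPrimitive_two_of_rel htr ⟨0, by omega⟩
  intro r r1 r2 r3 r4 x y hx hy hxy hr z hz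
  have hval : ∀ u : Fin n, u ≠ ⟨0, by omega⟩ → (u : ℕ) ≠ 0 := fun u hu h => hu (Fin.ext h)
  -- move `x` to `1`
  obtain ⟨g, hg, g0, gx⟩ := h1t x ⟨1, by omega⟩ (hval x hx) (by simp)
  have hr1 := r4 g hg g0 x y hx hy hr
  rw [gx] at hr1
  have hne0 : ∀ (k : Perm (Fin n)) (u : Fin n), k ⟨0, by omega⟩ = ⟨0, by omega⟩ →
      u ≠ ⟨0, by omega⟩ → k u ≠ ⟨0, by omega⟩ := by
    intro k u hk hu h
    rw [← hk] at h
    exact hu (k.injective h)
  have hgy0 := hne0 g y g0 hy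
  have hgy1 : g y ≠ ⟨1, by omega⟩ := by
    rw [← gx]
    exact g.injective.ne (Ne.symm hxy)
  obtain ⟨R, hR', hRz, k, hk, k0, k1, kz⟩ := hrep (g y) (hval _ hgy0)
    (fun h => hgy1 (Fin.ext h))
  obtain ⟨-, hz1, -, hok, hsat⟩ := hR R hR'
  have hone : (⟨1, by omega⟩ : Fin n) ≠ ⟨0, by omega⟩ := by
    intro h; have := congrArg Fin.val h; simp at this
  have hki0 : k⁻¹ ⟨0, by omega⟩ = ⟨0, by omega⟩ := by rw [Perm.inv_eq_iff_eq, k0]
  have hki1 : k⁻¹ ⟨1, by omega⟩ = ⟨1, by omega⟩ := by rw [Perm.inv_eq_iff_eq, k1]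
  have hr2 := r4 k⁻¹ (G.inv_mem hk) hki0 _ _ hone hgy0 hr1
  rw [hki1, ← kz, perm_inv_apply] at hr2
  have hRz0 : (⟨R.z, hRz⟩ : Fin n) ≠ ⟨0, by omega⟩ := by
    intro h; have := congrArg Fin.val h; simp at this; omega
  -- saturate
  set s : Set (Fin n) := {z : Fin n | (z : ℕ) ∈ [0]} with hs
  have hmem : ∀ u : Fin n, u ∉ s ↔ u ≠ ⟨0, by omega⟩ := by
    intro u
    rw [hs, Set.mem_ofPred_eq, List.mem_singleton, Ne, Fin.ext_iff]
  have hcm := emask_spec (s := s) (r := r) (inGF_of_fix hS1 hfix1)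
    (fun x hx y hy => r2 x y ((hmem x).mp hx) ((hmem y).mp hy))
    (fun x hx y hy z hz => r3 x y z ((hmem x).mp hx) ((hmem y).mp hy) ((hmem z).mp hz))
    (fun g hg hgs x hx y hy => r4 g hg (hgs _ (by rw [hs]; simp)) x y ((hmem x).mp hx)
      ((hmem y).mp hy)) ((hmem _).mpr hone) ((hmem _).mpr hRz0) hr2 R.sat hok 2 (by
        intro i hi
        have : i = 1 := by
          have h6 : (2 : ℕ) = 2 ^ 1 := rfl
          rw [h6, Nat.testBit_two_pow, decide_eq_true_eq] at hi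
          exact hi.symm
        subst this
        exact ⟨by omega, (hmem _).mpr hone, r1 _ hone⟩)
  rw [hsat] at hcm
  have hall : ∀ u : Fin n, u ≠ ⟨0, by omega⟩ → r ⟨1, by omega⟩ u := by
    intro u hu
    obtain ⟨hi, _, h5⟩ := hcm u (testBit_full' u.2 (hval u hu))
    exact h5
  -- transport back
  have h6 := r4 g⁻¹ (G.inv_mem hg) (by rw [Perm.inv_eq_iff_eq, g0]) _ _ hone
    (hne0 g z g0 hz) (hall (g z) (hne0 g z g0 hz))
  rw [← gx, perm_inv_apply, perm_inv_apply] at h6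
  exact h6

end Pool.Agent.H922
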