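import Mathlib
import Pool.Agent.H922.Chk4
import Pool.Agent.H922.Pair

set_option autoImplicit false
set_option linter.style.haveILetI false
set_option linter.unusedVariables false
set_option linter.unusedSectionVars false

/-!
# Computation with explicit permutations: 2-set primitivity
-/

namespace Pool.Agent.H922

open Equiv MulAction

/-- the pairs `{a, b}` and `{c, d}` have exactly one common point (for `a ≠ b`, `c ≠ d`) -/
def ov (a b c d : ℕ) : Bool :=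
  ((Nat.beq a c) && !(Nat.beq b d)) || ((Nat.beq a d) && !(Nat.beq b c)) ||
    ((Nat.beq b c) && !(Nat.beq a d)) || ((Nat.beq b d) && !(Nat.beq a c))

/-- the exceptional pair of codes `(k, h)` works for the points `z` and `w` -/
def exOK (z w : ℕ) (p : ℕ × ℕ) : Bool :=
  (((Nat.beq (app p.1 0) z) && (Nat.beq (app p.1 1) w)) ||
    ((Nat.beq (app p.1 0) w) && (Nat.beq (app p.1 1) z))) &&
  (((Nat.beq (app p.2 0) 0) && (Nat.beq (app p.2 1) 1)) ||
    ((Nat.beq (app p.2 0) 1) && (Nat.beq (app p.2 1) 0))) &&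
  (ov (app p.1 z) (app p.1 w) (app p.2 (app p.1 z)) (app p.2 (app p.1 w)))

/-- the check for 2-set primitivity -/
def setOK (n : ℕ) (R : Rep) : Bool :=
  (fixL n [0, 1, R.z] R.fix) && (allR (fun w => (Nat.beq w 0) || (Nat.beq w 1) ||
    (Nat.beq w R.z) || (anyL (fun P => !(Nat.beq (app P w) w)) R.fix) ||
    (R.ex.any (exOK R.z w))) n)

variable {n : ℕ} {G : Subgroup (Perm (Fin n))}

theorem ov_spec {r : Finset (Fin n) → Finset (Fin n) → Prop} {a b c d : Fin n} (hab : a ≠ b)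
    (hcd : c ≠ d) (h : ov a b c d = true) (hr : r {a, b} {c, d}) :
    ∃ x y z, x ≠ y ∧ x ≠ z ∧ y ≠ z ∧ r {x, y} {x, z} := by
  have hsw : ∀ u v : Fin n, ({u, v} : Finset (Fin n)) = {v, u} := fun u v => Finset.pair_comm u v
  have hbeq : ∀ u v : Fin n, (!(Nat.beq (u : ℕ) v)) = true → u ≠ v := by
    rintro u v h rfl
    have : Nat.beq (u : ℕ) u = true := by rw [Nat.beq_eq]
    rw [this] at h
    simp at h
  unfold ov at h
  rw [Bool.or_eq_true, Bool.or_eq_true, Bool.or_eq_true, Bool.and_eq_true, Bool.and_eq_true,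
    Bool.and_eq_true, Bool.and_eq_true, Nat.beq_eq, Nat.beq_eq, Nat.beq_eq, Nat.beq_eq] at h
  rcases h with ((⟨h1, h2⟩ | ⟨h1, h2⟩) | ⟨h1, h2⟩) | ⟨h1, h2⟩
  · have e := Fin.ext h1
    subst e
    exact ⟨a, b, d, hab, hcd, hbeq _ _ h2, hr⟩
  · have e := Fin.ext h1
    subst e
    rw [hsw c a] at hr
    exact ⟨a, b, c, hab, Ne.symm hcd, hbeq _ _ h2, hr⟩
  · have e := Fin.ext h1
    subst e
    rw [hsw a b] at hr
    exact ⟨b, a, d, Ne.symm hab, hcd, hbeq _ _ h2, hr⟩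
  · have e := Fin.ext h1
    subst e
    rw [hsw a b, hsw c b] at hr
    exact ⟨b, a, c, Ne.symm hab, Ne.symm hcd, hbeq _ _ h2, hr⟩

theorem set_of_words (hn : 2 ≤ n) (htr : TTransitive G 2) (hprim : TPrimitive G 2) {Rs : List Rep}
    (hrep : ∀ x : Fin n, (x : ℕ) ≠ 0 → (x : ℕ) ≠ 1 → ∃ R ∈ Rs, ∃ hz : R.z < n,
      ∃ g ∈ G, g ⟨0, by omega⟩ = ⟨0, by omega⟩ ∧ g ⟨1, by omega⟩ = ⟨1, by omega⟩ ∧
        g ⟨R.z, hz⟩ = x)
    (hfix : ∀ R ∈ Rs, ∀ P ∈ R.fix, InG G P)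
    (hex : ∀ R ∈ Rs, ∀ p ∈ R.ex, InG G p.1 ∧ InG G p.2)
    (hset : Rs.all (setOK n) = true) : TSetPrimitive G 2 := by
  rw [List.all_eq_true] at hset
  have h01 : (⟨0, by omega⟩ : Fin n) ≠ ⟨1, by omega⟩ := by
    intro h; have := congrArg Fin.val h; simp at this
  apply tSetPrimitive_two htr hprim _ _ h01
  intro z w hz0 hz1 hw0 hw1 hzw r hr hr1
  have hval : ∀ (u : Fin n) (j : ℕ) (hj : j < n), u ≠ ⟨j, hj⟩ → (u : ℕ) ≠ j :=
    fun u j hj hu h => hu (Fin.ext h)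
  obtain ⟨R, hR, hRz, g, hg, g0, g1, gz⟩ := hrep z (hval _ _ _ hz0) (hval _ _ _ hz1)
  have gi0 : g⁻¹ ⟨0, by omega⟩ = ⟨0, by omega⟩ := by rw [Perm.inv_eq_iff_eq, g0]
  have gi1 : g⁻¹ ⟨1, by omega⟩ = ⟨1, by omega⟩ := by rw [Perm.inv_eq_iff_eq, g1]
  have hr2 := hr.inv g⁻¹ (G.inv_mem hg) _ _ (Finset.card_pair h01) (Finset.card_pair hzw) hr1
  rw [map_pair, map_pair, gi0, gi1, ← gz, perm_inv_apply] at hr2
  set w' := g⁻¹ w with hw'
  have hgw : g w' = w := by rw [hw', perm_apply_inv]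
  have hw'0 : w' ≠ ⟨0, by omega⟩ := by
    intro h; rw [h, g0] at hgw; exact hw0 hgw.symm
  have hw'1 : w' ≠ ⟨1, by omega⟩ := by
    intro h; rw [h, g1] at hgw; exact hw1 hgw.symm
  have hw'z : w' ≠ ⟨R.z, hRz⟩ := by
    intro h; rw [h, gz] at hgw; exact hzw hgw
  have hchk := hset R hR
  unfold setOK at hchk
  rw [Bool.and_eq_true, allR_iff] at hchk
  obtain ⟨hc1, hc2⟩ := hchk
  have hc3 := hc2 w' w'.2
  rw [Bool.or_eq_true, Bool.or_eq_true, Bool.or_eq_true, Bool.or_eq_true, Nat.beq_eq, Nat.beq_eq,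
    Nat.beq_eq] at hc3
  rcases hc3 with (((h5 | h5) | h5) | h5) | h5
  · exact absurd (Fin.ext h5) hw'0
  · exact absurd (Fin.ext h5) hw'1
  · exact absurd (Fin.ext h5) hw'z
  · -- an element fixing three points
    rw [anyL_iff] at h5
    obtain ⟨P, hP, hPw⟩ := h5
    obtain ⟨k, hk, hks, hki⟩ := inGF_of_fix (hfix R hR) hc1 P hP
    have k0 := hks ⟨0, by omega⟩ (by simp)
    have k1 := hks ⟨1, by omega⟩ (by simp)
    have kz := hks ⟨R.z, hRz⟩ (by simp)
    have kw : k w' ≠ w' := by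
      intro h
      have h6 : app P w' = w' := by rw [← hki, h]
      have h7 : Nat.beq (app P w') w' = true := by rw [Nat.beq_eq]; exact h6
      rw [h7] at hPw
      simp at hPw
    have hr3 := hr.inv k hk _ _ (Finset.card_pair h01) (Finset.card_pair (Ne.symm hw'z)) hr2
    rw [map_pair, map_pair, k0, k1, kz] at hr3
    have hzk : (⟨R.z, hRz⟩ : Fin n) ≠ k w' := by
      intro h
      rw [← kz] at h
      exact hw'z (k.injective h).symm
    refine ⟨⟨R.z, hRz⟩, w', k w', Ne.symm hw'z, hzk, Ne.symm kw, ?_⟩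
    exact hr.trans _ _ _ (Finset.card_pair (Ne.symm hw'z)) (Finset.card_pair h01)
      (Finset.card_pair hzk) (hr.symm _ _ (Finset.card_pair h01)
      (Finset.card_pair (Ne.symm hw'z)) hr2) hr3
  · -- exceptional points
    rw [List.any_eq_true] at h5
    obtain ⟨p, hp, hpc⟩ := h5
    obtain ⟨⟨k, hk, hki⟩, ⟨h, hh, hhi⟩⟩ := hex R hR p hp
    unfold exOK at hpc
    rw [Bool.and_eq_true, Bool.and_eq_true, Bool.or_eq_true, Bool.or_eq_true, Bool.and_eq_true,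
      Bool.and_eq_true, Bool.and_eq_true, Bool.and_eq_true, Nat.beq_eq, Nat.beq_eq, Nat.beq_eq,
      Nat.beq_eq, Nat.beq_eq, Nat.beq_eq, Nat.beq_eq, Nat.beq_eq] at hpc
    obtain ⟨⟨e1, e2⟩, e3⟩ := hpc
    have hkpair : ({⟨0, by omega⟩, ⟨1, by omega⟩} : Finset (Fin n)).map k.toEmbedding =
        {⟨R.z, hRz⟩, w'} := by
      rw [map_pair]
      rcases e1 with ⟨e4, e5⟩ | ⟨e4, e5⟩
      · have f1 : k ⟨0, by omega⟩ = ⟨R.z, hRz⟩ := Fin.ext (by rw [hki]; exact e4)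
        have f2 : k ⟨1, by omega⟩ = w' := Fin.ext (by rw [hki]; exact e5)
        rw [f1, f2]
      · have f1 : k ⟨0, by omega⟩ = w' := Fin.ext (by rw [hki]; exact e4)
        have f2 : k ⟨1, by omega⟩ = ⟨R.z, hRz⟩ := Fin.ext (by rw [hki]; exact e5)
        rw [f1, f2, Finset.pair_comm]
    have hhpair : ({⟨0, by omega⟩, ⟨1, by omega⟩} : Finset (Fin n)).map h.toEmbedding =
        {⟨0, by omega⟩, ⟨1, by omega⟩} := by
      rw [map_pair]
      rcases e2 with ⟨e4, e5⟩ | ⟨e4, e5⟩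
      · have f1 : h ⟨0, by omega⟩ = ⟨0, by omega⟩ := Fin.ext (by rw [hhi]; exact e4)
        have f2 : h ⟨1, by omega⟩ = ⟨1, by omega⟩ := Fin.ext (by rw [hhi]; exact e5)
        rw [f1, f2]
      · have f1 : h ⟨0, by omega⟩ = ⟨1, by omega⟩ := Fin.ext (by rw [hhi]; exact e4)
        have f2 : h ⟨1, by omega⟩ = ⟨0, by omega⟩ := Fin.ext (by rw [hhi]; exact e5)
        rw [f1, f2, Finset.pair_comm]
    have hzw' : (⟨R.z, hRz⟩ : Fin n) ≠ w' := Ne.symm hw'z
    have hr3 := hr.inv k hk _ _ (Finset.card_pair h01) (Finset.card_pair hzw') hr2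
    rw [hkpair, map_pair] at hr3
    have hk1 : k ⟨R.z, hRz⟩ ≠ k w' := k.injective.ne hzw'
    have hr4 := hr.trans _ _ _ (Finset.card_pair h01) (Finset.card_pair hzw')
      (Finset.card_pair hk1) hr2 hr3
    have hr5 := hr.inv h hh _ _ (Finset.card_pair h01) (Finset.card_pair hk1) hr4
    rw [hhpair, map_pair] at hr5
    have hh1 : h (k ⟨R.z, hRz⟩) ≠ h (k w') := h.injective.ne hk1
    have hr6 := hr.trans _ _ _ (Finset.card_pair hk1) (Finset.card_pair h01)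
      (Finset.card_pair hh1) (hr.symm _ _ (Finset.card_pair h01) (Finset.card_pair hk1) hr4) hr5
    refine ov_spec hk1 hh1 ?_ hr6
    rw [hhi, hhi, hki, hki]
    exact e3

end Pool.Agent.H922
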