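import Mathlib
import Pool.Agent.H922.Chk5

set_option autoImplicit false
set_option linter.style.haveILetI false
set_option linter.unusedVariables false
set_option linter.unusedSectionVars false

/-!
# Computation with explicit permutations: all checks together
-/

namespace Pool.Agent.H922

open Equiv MulAction

/-- every member of the first list is in the second -/
def subL (As Qs : List ℕ) : Bool := allL (fun P => anyL (fun Q => Nat.beq P Q) Qs) As

theorem subL_spec {As Qs : List ℕ} (h : subL As Qs = true) : ∀ P ∈ As, P ∈ Qs := by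
  intro P hP
  unfold subL at h
  rw [allL_iff] at h
  have h1 := h P hP
  rw [anyL_iff] at h1
  obtain ⟨Q, hQ, h2⟩ := h1
  rw [Nat.beq_eq] at h2
  rw [h2]
  exact hQ

/-- the data for an explicit group -/
structure Dat where
  /-- lists of images of the generators -/
  L : List (List ℕ)
  /-- codes of the generators -/
  Ps : List ℕ
  /-- codes of their inverses -/
  Qs : List ℕ
  /-- straight line program -/
  steps : List (ℕ × List ℕ)
  /-- all elements used for words moving 0 -/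
  A0 : List ℕ
  /-- elements fixing 0 -/
  A1 : List ℕ
  /-- elements fixing 0 and 1 -/
  A2 : List ℕ
  /-- words moving 0 to all points -/
  W0 : List (List ℕ)
  /-- words moving 1 to all points -/
  W1 : List (List ℕ)
  /-- representatives -/
  Rs : List Rep

/-- all elements of the straight line program -/
def Dat.all (D : Dat) : List ℕ := D.Ps ++ D.steps.map Prod.fst

/-- the checks for 2-transitivity -/
def chkTwo (n : ℕ) (D : Dat) : Bool :=
  (chkSlp n D.L D.Ps D.Qs D.steps) && (subL D.A0 D.all) && (subL D.A1 D.all) &&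
  (subL D.A2 D.all) && (fixL n [0] D.A1) && (fixL n [0, 1] D.A2) &&
  (okW D.A0.length D.W0) && (okW D.A1.length D.W1) &&
  (Nat.beq (wmask D.A0 0 D.W0 0) (2 ^ n - 1)) && (Nat.beq (wmask D.A1 1 D.W1 1) (2 ^ n - 1))

/-- the checks for 2-primitivity -/
def chkPrim (n : ℕ) (D : Dat) : Bool :=
  (D.Rs.all (repOK n D.A1.length D.A2.length D.A1)) &&
    (Nat.beq (repMask D.A2 D.Rs 3) (2 ^ n - 1))

/-- the checks for 2-set primitivity -/
def chkSet (n : ℕ) (D : Dat) : Bool :=
  (D.Rs.all (fun R => (subL R.fix D.all) &&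
    (R.ex.all (fun p => (subL [p.1] D.all) && (subL [p.2] D.all))))) &&
  (D.Rs.all (setOK n))

variable {n : ℕ} {D : Dat}

theorem chkTwo_spec (hn : 2 ≤ n) (h : chkTwo n D = true) :
    TTransitive (genGroup n D.L) 2 ∧ ∀ x y : Fin n, (x : ℕ) ≠ 0 → (y : ℕ) ≠ 0 →
      ∃ g ∈ genGroup n D.L, g ⟨0, by omega⟩ = ⟨0, by omega⟩ ∧ g x = y := by
  unfold chkTwo at h
  simp only [Bool.and_eq_true] at h
  obtain ⟨⟨⟨⟨⟨⟨⟨⟨⟨h1, h2⟩, h3⟩, h4⟩, h5⟩, h6⟩, h7⟩, h8⟩, h9⟩, h10⟩ := h
  have hall := chkSlp_inG h1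
  exact two_trans_of_words hn (fun P hP => hall P (subL_spec h2 P hP))
    (fun P hP => hall P (subL_spec h3 P hP)) h5 h7 h8 h9 h10

theorem chkPrim_spec (hn : 2 ≤ n) (h : chkTwo n D = true) (h' : chkPrim n D = true) :
    TPrimitive (genGroup n D.L) 2 ∧ ∀ x : Fin n, (x : ℕ) ≠ 0 → (x : ℕ) ≠ 1 →
      ∃ R ∈ D.Rs, ∃ hz : R.z < n, ∃ g ∈ genGroup n D.L, g ⟨0, by omega⟩ = ⟨0, by omega⟩ ∧
        g ⟨1, by omega⟩ = ⟨1, by omega⟩ ∧ g ⟨R.z, hz⟩ = x := by
  obtain ⟨htr, h1t⟩ := chkTwo_spec hn h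
  unfold chkTwo at h
  simp only [Bool.and_eq_true] at h
  obtain ⟨⟨⟨⟨⟨⟨⟨⟨⟨h1, h2⟩, h3⟩, h4⟩, h5⟩, h6⟩, h7⟩, h8⟩, h9⟩, h10⟩ := h
  have hall := chkSlp_inG h1
  unfold chkPrim at h'
  rw [Bool.and_eq_true] at h'
  exact prim_of_words hn htr h1t (fun P hP => hall P (subL_spec h3 P hP))
    (fun P hP => hall P (subL_spec h4 P hP)) h5 h6 h'.1 h'.2

theorem chkSet_spec (hn : 2 ≤ n) (h : chkTwo n D = true) (h' : chkPrim n D = true)
    (h'' : chkSet n D = true) :
    TPrimitive (genGroup n D.L) 2 ∧ TSetPrimitive (genGroup n D.L) 2 := by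
  obtain ⟨htr, -⟩ := chkTwo_spec hn h
  obtain ⟨hprim, hrep⟩ := chkPrim_spec hn h h'
  refine ⟨hprim, ?_⟩
  unfold chkTwo at h
  simp only [Bool.and_eq_true] at h
  have hall := chkSlp_inG h.1.1.1.1.1.1.1.1.1
  unfold chkSet at h''
  rw [Bool.and_eq_true, List.all_eq_true] at h''
  have hmem : ∀ R ∈ D.Rs, (∀ P ∈ R.fix, InG (genGroup n D.L) P) ∧
      ∀ p ∈ R.ex, InG (genGroup n D.L) p.1 ∧ InG (genGroup n D.L) p.2 := by
    intro R hR
    have h5 := h''.1 R hR
    rw [Bool.and_eq_true, List.all_eq_true] at h5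
    refine ⟨fun P hP => hall P (subL_spec h5.1 P hP), fun p hp => ?_⟩
    have h6 := h5.2 p hp
    rw [Bool.and_eq_true] at h6
    exact ⟨hall _ (subL_spec h6.1 _ (by simp)), hall _ (subL_spec h6.2 _ (by simp))⟩
  exact set_of_words hn htr hprim hrep (fun R hR => (hmem R hR).1) (fun R hR => (hmem R hR).2)
    h''.2

end Pool.Agent.H922
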