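import Mathlib
import Pool.Agent.H922.Chk5

set_option autoImplicit false

/-!
# Data: as
-/

namespace Pool.Agent.H922

/-- code of an element -/
def asP0 : ℕ := 20002385547518848927280206623055876356545971200

/-- code of an element -/
def asP1 : ℕ := 15720632936176487964626571721911953929696972800

/-- code of an element -/
def asP2 : ℕ := 20002390997353631640478693215783188759164485633

/-- code of an element -/
def asP3 : ℕ := 19985662708226909296833300662413748493797569536

/-- code of an element -/
def asP4 : ℕ := 4284537482250138436654770417652265205131904000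

/-- code of an element -/
def asP5 : ℕ := 14287814140555396656689068309123686475734451200

/-- codes of the generators -/
def asPs : List ℕ := [asP0, asP1, asP2]

/-- codes of the inverses of the generators -/
def asQs : List ℕ := [20002385547518848927280206623055876356545971200, 19985662708226909296833300662413748493797569536, 20002390997353631640478693215783188759164485633]

/-- a straight line program -/
def asSteps : List (ℕ × List ℕ) := [(asP3, [1, 1, 1, 1]),
  (asP4, [2, 1, 0, 1, 2, 2, 1, 0, 0]),
  (asP5, [3, 3, 2, 1, 1, 2, 3, 2, 1])]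

/-- generators and inverses -/
def asA0 : List ℕ := [asP0, asP1, asP3, asP2]

/-- elements fixing 0 -/
def asA1 : List ℕ := [asP0, asP1, asP3]

/-- elements fixing 0 and 1 -/
def asA2 : List ℕ := [asP4, asP5, asP0]

/-- words mapping 0 to all points -/
def asW0 : List (List ℕ) :=
  [[], [3], [1,1,3], [3,1,1,3], [1,3], [3,1,3], [0,1,1,3], [1,0,2,3], [0,2,3], [3,0,2,3],
  [2,2,3], [0,2,2,3], [3,2,3], [2,3], [1,3,1,1,3], [2,0,2,2,3]]

/-- words mapping 1 to all points -/
def asW1 : List (List ℕ) :=
  [[], [1,1], [0,1,0,2], [1], [2,0,1,1], [0,1,1], [1,0,2], [0,2], [1,0,2,2], [2,2], [0,2,2],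
  [1,1,0,2], [2], [1,0,1,0,2], [2,0,2,2]]

/-- orbit of 2 -/
def asO0 : List (List ℕ) :=
  [[], [0,2,1], [0], [1,2,0,0], [2,0,0], [0,0], [1], [2,1]]

/-- saturation for 2 -/
def asE0 : List (List ℕ) :=
  [[], [0], [1,1], [2,2], [0,1,0], [1,1,0], [2,2,0], [1,0,1], [2,0,1], [0,1,1], [0,2,2],
  [0,1,1,0], [0,2,0,1], [2,0,1,1]]

/-- orbit of 4 -/
def asO1 : List (List ℕ) :=
  [[], [0,0], [2,0], [2,1], [1], [0]]

/-- saturation for 4 -/
def asE1 : List (List ℕ) :=
  [[], [1], [2], [0,1], [1,1], [0,2], [2,0,1], [0,1,1], [1,0,2], [2,2,0,1], [1,0,1,1],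
  [2,0,1,1], [0,1,0,2], [0,2,0,1,1]]

/-- the representatives -/
def asRs : List Rep := [⟨2, asO0, asE0, [], []⟩,
  ⟨4, asO1, asE1, [], []⟩]

end Pool.Agent.H922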