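import Mathlib
import Pool.Agent.H922.Chk5

set_option autoImplicit false

/-!
# Data: la
-/

namespace Pool.Agent.H922

/-- code of an element -/
def laP0 : ℕ := 12682705376246471212308037110790

/-- code of an element -/
def laP1 : ℕ := 8884701711304948020679174789120

/-- code of an element -/
def laP2 : ℕ := 5081747499851023015928360077312

/-- code of an element -/
def laP3 : ℕ := 8877280118059523803504850243584

/-- code of an element -/
def laP4 : ℕ := 10147396931687892505021640608768

/-- code of an element -/
def laP5 : ℕ := 10143686731266258084385530053632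

/-- code of an element -/
def laP6 : ℕ := 6345692734179145155486245979136

/-- code of an element -/
def laP7 : ℕ := 2545215604650664606335454151680

/-- code of an element -/
def laP8 : ℕ := 1267662700120981394183797345282

/-- code of an element -/
def laP9 : ℕ := 3815340873671608081723801210882

/-- code of an element -/
def laP10 : ℕ := 7612095727693123236083011683328

/-- code of an element -/
def laP11 : ℕ := 12685176419451544808364882007042

/-- code of an element -/
def laP12 : ℕ := 6349404136445364315557090820097

/-- code of an element -/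
def laP13 : ℕ := 5070614499626228644364898277378

/-- code of an element -/
def laP14 : ℕ := 1278795694448582258689193286658

/-- code of an element -/
def laP15 : ℕ := 2547687857951779903992760369153

/-- code of an element -/
def laP16 : ℕ := 8877274067525161789265629159426

/-- code of an element -/
def laP17 : ℕ := 1276323437609142996384550495234

/-- code of an element -/
def laP18 : ℕ := 7607146387745340914268894144514

/-- code of an element -/
def laP19 : ℕ := 11421242060733428218400489866240

/-- codes of the generators -/
def laPs : List ℕ := [laP0, laP1]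

/-- codes of the inverses of the generators -/
def laQs : List ℕ := [12682705376246471212308037110790, 5081747499851023015928360077312]

/-- a straight line program -/
def laSteps : List (ℕ × List ℕ) := [(laP2, [1, 1]),
  (laP3, [1, 0, 1, 0, 1, 2, 1, 2, 1, 2]),
  (laP4, [1, 2, 1, 2, 1, 2, 3, 2, 3, 2]),
  (laP5, [1, 4, 1, 1]),
  (laP6, [1, 1, 3, 1]),
  (laP7, [6, 3, 6]),
  (laP8, [7, 6, 3, 3, 0]),
  (laP9, [8, 7, 6, 1, 3]),
  (laP10, [2, 3]),
  (laP11, [10, 9, 10, 6, 3, 4]),
  (laP12, [9, 10, 11, 4]),
  (laP13, [12, 11, 8, 7]),
  (laP14, [13, 12, 13, 10, 8, 8, 8, 8]),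
  (laP15, [12, 13, 14, 8]),
  (laP16, [15, 14]),
  (laP17, [16, 15, 13, 13, 11]),
  (laP18, [17, 16, 14, 11, 10]),
  (laP19, [12, 11])]

/-- generators and inverses -/
def laA0 : List ℕ := [laP0, laP1, laP2]

/-- elements fixing 0 -/
def laA1 : List ℕ := [laP3, laP4, laP2, laP1]

/-- elements fixing 0 and 1 -/
def laA2 : List ℕ := [laP5, laP6, laP7]

/-- words mapping 0 to all points -/
def laW0 : List (List ℕ) :=
  [[], [2,0], [1,0], [0,2,0], [1,0,1,0], [2,0,2,0], [0], [0,1,0], [1,0,2,0], [0,2,0,2,0],
  [2,0,1,0]]

/-- words mapping 1 to all points -/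
def laW1 : List (List ℕ) :=
  [[], [2], [1], [0], [0,0], [3], [2,0], [3,1], [1,1], [3,0]]

/-- orbit of 2 -/
def laO0 : List (List ℕ) :=
  [[], [2,0], [0], [2,1], [1], [2]]

/-- saturation for 2 -/
def laE0 : List (List ℕ) :=
  [[], [2], [2,1], [3,1], [1,2], [0,3], [3,0,0], [0,3,0], [2,1,1]]

/-- orbit of 3 -/
def laO1 : List (List ℕ) :=
  [[], [1], [0]]

/-- saturation for 3 -/
def laE1 : List (List ℕ) :=
  [[], [0], [1], [0,0], [3,1], [1,2], [2,0,0], [3,0,0], [1,2,1,1]]

/-- the representatives -/
def laRs : List Rep := [⟨2, laO0, laE0, [], [(laP8, laP7), (laP9, laP10), (laP11, laP12), (laP13, laP5), (laP14, laP15), (laP16, laP7), (laP17, laP10), (laP18, laP19)]⟩,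
  ⟨3, laO1, laE1, [laP19], []⟩]

end Pool.Agent.H922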