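import Mathlib
import Pool.Agent.H922.Defs2
import Pool.Agent.H922.Defs4
import Pool.Agent.H922.Defs5
import Pool.Agent.H922.Defs7
import Pool.Agent.H922.Defs8
import Pool.Agent.H922.Defs9
import Pool.Agent.H922.Defs10
import Pool.Agent.H922.Defs11

set_option autoImplicit false

/-!
# Groups between `AGL(1, q)` and `AΓL(1, q)`
-/

namespace Pool.Agent.H922

open Equiv MulAction

universe u

/-- Up to a bijection of `X` with a field with `q` elements, `AGL(1, q) ≤ G ≤ AΓL(1, q)`. -/
def IsAL {X : Type u} (G : Subgroup (Perm X)) (q : ℕ) : Prop :=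
  ∃ (F : Type u) (_ : Field F) (e : F ≃ X), Nat.card F = q ∧ Between G F e

end Pool.Agent.H922
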