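import Mathlib
import Pool.Agent.H922.Chk6
import Pool.Agent.H922.Defs11
import Pool.Agent.H922.DataCo3

set_option autoImplicit false
set_option linter.unusedVariables false

/-!
# The Conway group `Co₃` in degree 276
-/

namespace Pool.Agent.H922

open Equiv MulAction

/-- data for `Co₃` -/
def coD : Dat := ⟨coL, coPs, coQs, coSteps, coA0, coA1, coA2, coW0, coW1, coRs⟩

theorem co_chk1 : chkTwo 276 coD = true := by decide +kernel
theorem co_chk2 : chkPrim 276 coD = true := by decide +kernel
theorem co_chk3 : chkSet 276 coD = true := by decide +kernel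

theorem co_two : TPrimitive (genGroup 276 coL) 2 ∧ TSetPrimitive (genGroup 276 coL) 2 :=
  chkSet_spec (D := coD) (by norm_num) co_chk1 co_chk2 co_chk3

end Pool.Agent.H922
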