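import Mathlib
import Pool.Agent.H922.Chk6
import Pool.Agent.H922.Defs11
import Pool.Agent.H922.DataHS

set_option autoImplicit false
set_option linter.unusedVariables false

/-!
# The Higman-Sims group in degree 176
-/

namespace Pool.Agent.H922

open Equiv MulAction

/-- data for `HS` -/
def hsD : Dat := ⟨hsL, hsPs, hsQs, hsSteps, hsA0, hsA1, hsA2, hsW0, hsW1, hsRs⟩

theorem hs_chk1 : chkTwo 176 hsD = true := by decide +kernel
theorem hs_chk2 : chkPrim 176 hsD = true := by decide +kernel
theorem hs_chk3 : chkSet 176 hsD = true := by decide +kernel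

theorem hs_two : TPrimitive (genGroup 176 hsL) 2 ∧ TSetPrimitive (genGroup 176 hsL) 2 :=
  chkSet_spec (D := hsD) (by norm_num) hs_chk1 hs_chk2 hs_chk3

end Pool.Agent.H922
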