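import Mathlib
import Pool.Agent.H922.Chk6
import Pool.Agent.H922.Defs11
import Pool.Agent.H922.DataL11
import Pool.Agent.H922.DataA6
import Pool.Agent.H922.DataG2

set_option autoImplicit false
set_option linter.unusedVariables false

/-!
# Small explicit groups
-/

namespace Pool.Agent.H922

open Equiv MulAction

/-- data for `PSL(2, 11)` -/
def laD : Dat := ⟨laL, laPs, laQs, laSteps, laA0, laA1, laA2, laW0, laW1, laRs⟩

/-- data for `2⁴ : A₆` -/
def asD : Dat := ⟨asL, asPs, asQs, asSteps, asA0, asA1, asA2, asW0, asW1, asRs⟩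

/-- data for `2⁶ : G₂(2)'` -/
def gtD : Dat := ⟨gtL, gtPs, gtQs, gtSteps, gtA0, gtA1, gtA2, gtW0, gtW1, gtRs⟩

theorem la_chk1 : chkTwo 11 laD = true := by decide +kernel
theorem la_chk2 : chkPrim 11 laD = true := by decide +kernel
theorem la_chk3 : chkSet 11 laD = true := by decide +kernel
theorem as_chk1 : chkTwo 16 asD = true := by decide +kernel
theorem as_chk2 : chkPrim 16 asD = true := by decide +kernel
theorem gt_chk1 : chkTwo 64 gtD = true := by decide +kernel
theorem gt_chk2 : chkPrim 64 gtD = true := by decide +kernel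

theorem la_two : TPrimitive (genGroup 11 laL) 2 ∧ TSetPrimitive (genGroup 11 laL) 2 :=
  chkSet_spec (D := laD) (by norm_num) la_chk1 la_chk2 la_chk3

theorem as_two : TTransitive (genGroup 16 asL) 2 ∧ TPrimitive (genGroup 16 asL) 2 :=
  ⟨(chkTwo_spec (D := asD) (by norm_num) as_chk1).1,
    (chkPrim_spec (D := asD) (by norm_num) as_chk1 as_chk2).1⟩

theorem gt_two : TTransitive (genGroup 64 gtL) 2 ∧ TPrimitive (genGroup 64 gtL) 2 :=
  ⟨(chkTwo_spec (D := gtD) (by norm_num) gt_chk1).1,
    (chkPrim_spec (D := gtD) (by norm_num) gt_chk1 gt_chk2).1⟩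

end Pool.Agent.H922
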