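import Mathlib
import Pool.Agent.H922.DataNT
import Pool.Agent.H922.ExSmall
import Pool.Agent.H922.ExHS
import Pool.Agent.H922.ExCo3

set_option autoImplicit false
set_option linter.unusedVariables false
set_option maxRecDepth 100000

/-!
# Three explicit groups are not 3-transitive
-/

namespace Pool.Agent.H922

open Equiv MulAction

theorem la_gens : chkGens 11 laL laPs laQs = true := by decide +kernel
theorem hs_gens : chkGens 176 hsL hsPs hsQs = true := by decide +kernel
theorem co_gens : chkGens 276 coL coPs coQs = true := by decide +kernel

theorem la_cnt : chkCnt 11 laPs laFam 7 11 laAs laBs = true := by decide +kernel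
theorem hs_cnt : chkCnt 176 hsPs hsFam 259 67 hsAs hsBs = true := by decide +kernel
theorem co_sw : chkSw 276 coR coPs coSs = true := by decide +kernel

theorem la_not_three : ¬ TTransitive (genGroup 11 laL) 3 :=
  not_three_of_cnt la_gens la_cnt (by decide)

theorem hs_not_three : ¬ TTransitive (genGroup 176 hsL) 3 :=
  not_three_of_cnt hs_gens hs_cnt (by decide +kernel)

theorem co_par : parB 276 coR 0 1 2 ≠ parB 276 coR 0 1 24 := by decide +kernel

theorem co_not_three : ¬ TTransitive (genGroup 276 coL) 3 :=
  not_three_of_switch co_gens co_sw (x := ⟨0, by norm_num⟩) (y := ⟨1, by norm_num⟩)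
    (z := ⟨2, by norm_num⟩) (w := ⟨24, by norm_num⟩) (by simp) (by simp) (by simp) (by simp)
    (by simp) co_par

end Pool.Agent.H922
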