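import Mathlib
import Pool.Agent.H922.Defs3
import Pool.Agent.H922.DataR3

set_option autoImplicit false
set_option linter.unusedVariables false

/-!
# The smallest Ree group in degree 28
-/

namespace Pool.Agent.H922

open Equiv MulAction

theorem r3_slp : chkSlp 28 r3L r3Ps r3Qs r3Steps = true := by decide +kernel
theorem r3_trc : trchk' (r3Ps ++ r3Steps.map Prod.fst) 28 2 = true := by decide +kernel
theorem r3_fam : chkFam 28 4 r3Ps r3Tree 3 r3B0 = true := by decide +kernel
theorem r3_gens : chkGens 28 r3L r3Ps r3Qs = true := by decide +kernel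

theorem r3_trans : TTransitive (genGroup 28 r3L) 2 :=
  trans_of_chk' (by norm_num) (chkSlp_inG r3_slp) r3_trc

theorem r3_not_steiner : ¬ TSteinerPrimitive (genGroup 28 r3L) 2 :=
  not_steiner_of_chk r3_trans r3_gens r3_fam (by norm_num) (by decide +kernel)
    (by norm_num) (by norm_num)

end Pool.Agent.H922
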