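import Mathlib
import Pool.Agent.H922.Defs8
import Pool.Agent.H922.Lin

set_option autoImplicit false
set_option linter.style.haveILetI false
set_option linter.unusedVariables false
set_option linter.unusedSectionVars false

/-!
# Families of groups preserving lines
-/

namespace Pool.Agent.H922

open Equiv MulAction

universe u

variable {X : Type u} [Finite X] {G : Subgroup (Perm X)}

theorem IsRee.not_steiner (h : IsRee G) (htr : TTransitive G 2) : ¬ TSteinerPrimitive G 2 := by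
  have htwo : ∃ a b : X, a ≠ b := by
    have h5 := htr.1
    obtain ⟨a, b, hab⟩ := (Finite.one_lt_card_iff_nontrivial.mp (by omega : 1 < Nat.card X)).exists_pair_ne
    exact ⟨a, b, hab⟩
  apply not_steiner_of_lines htr
    (fun a b x => ∃ t ∈ G, t a = a ∧ t b = b ∧ t ≠ 1 ∧ t * t = 1 ∧ t x = x)
  · intro a b hab
    obtain ⟨t, ht, h1, h2, h3, h4, -⟩ := h a b hab
    exact ⟨⟨t, ht, h1, h2, h3, h4, h1⟩, ⟨t, ht, h1, h2, h3, h4, h2⟩⟩
  · rintro a b c d hab hcd ⟨t, ht, h1, h2, h3, h4, hc⟩ ⟨t', ht', h1', h2', h3', h4', hd⟩ x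
    obtain ⟨s, hs, s1, s2, s3, s4, -, huniq⟩ := h a b hab
    obtain ⟨r, hr, r1, r2, r3, r4, -, huniq'⟩ := h c d hcd
    have e1 := huniq t ht h1 h2 h3 h4
    have e2 := huniq t' ht' h1' h2' h3' h4'
    subst e1
    subst e2
    constructor
    · rintro ⟨k, hk, k1, k2, k3, k4, k5⟩
      have := huniq k hk k1 k2 k3 k4
      subst this
      exact ⟨k, hk, hc, hd, k3, k4, k5⟩
    · rintro ⟨k, hk, k1, k2, k3, k4, k5⟩
      have e3 := huniq' k hk k1 k2 k3 k4
      have e4 := huniq' t' ht' hc hd h3 h4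
      subst e4
      subst e3
      exact ⟨k, hk, h1, h2, k3, k4, k5⟩
  · rintro g hg a b x hab ⟨t, ht, h1, h2, h3, h4, h5⟩
    refine ⟨g * t * g⁻¹, G.mul_mem (G.mul_mem hg ht) (G.inv_mem hg), ?_, ?_, ?_, ?_, ?_⟩
    · rw [Perm.mul_apply, Perm.mul_apply, perm_inv_apply, h1]
    · rw [Perm.mul_apply, Perm.mul_apply, perm_inv_apply, h2]
    · intro h6
      apply h3
      have : t = g⁻¹ * (g * t * g⁻¹) * g := by group
      rw [this, h6]
      group
    · have : g * t * g⁻¹ * (g * t * g⁻¹) = g * (t * t) * g⁻¹ := by group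
      rw [this, h4]
      group
    · rw [Perm.mul_apply, Perm.mul_apply, perm_inv_apply, h5]
  · obtain ⟨a, b, hab⟩ := htwo
    obtain ⟨t, ht, h1, h2, h3, h4, ⟨c, hca, hcb, hc⟩, -⟩ := h a b hab
    exact ⟨a, b, c, hab, hca, hcb, t, ht, h1, h2, h3, h4, hc⟩
  · obtain ⟨a, b, hab⟩ := htwo
    obtain ⟨t, ht, h1, h2, h3, h4, -, huniq⟩ := h a b hab
    have : ∃ x, t x ≠ x := by
      by_contra hcon
      push Not at hcon
      exact h3 (Equiv.ext hcon)
    obtain ⟨x, hx⟩ := this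
    refine ⟨a, b, x, hab, ?_⟩
    rintro ⟨k, hk, k1, k2, k3, k4, k5⟩
    rw [huniq k hk k1 k2 k3 k4] at k5
    exact hx k5

/-- groups induced by semilinear maps on a set of points of a projective space -/
theorem not_steiner_of_semi {F V : Type*} [Field F] [AddCommGroup V] [Module F V] {P : V → Prop}
    (hP0 : ∀ v, P v → v ≠ 0) (π : {v : V // P v} → X) (hsurj : Function.Surjective π)
    (hπ : ∀ v w, π v = π w ↔ ∃ c : F, (w : V) = c • (v : V)) (htr : TTransitive G 2)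
    (hG : ∀ g ∈ G, ∃ (σ : F ≃+* F) (A : V ≃+ V), (∀ (c : F) (v : V), A (c • v) = σ c • A v) ∧
      ∀ v : {v : V // P v}, ∃ w : {v : V // P v}, (w : V) = A v ∧ g (π v) = π w)
    (h3 : ∃ (u v w : {v : V // P v}) (α β : F), π u ≠ π v ∧ π w ≠ π u ∧ π w ≠ π v ∧
      (w : V) = α • (u : V) + β • (v : V))
    (h4 : ∃ (u v w : {v : V // P v}), π u ≠ π v ∧
      ∀ α β : F, (w : V) ≠ α • (u : V) + β • (v : V)) : ¬ TSteinerPrimitive G 2 := by
  -- representatives of the same point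
  have hrep : ∀ v w : {v : V // P v}, π v = π w → ∃ c : F, c ≠ 0 ∧ (w : V) = c • (v : V) := by
    intro v w h
    obtain ⟨c, hc⟩ := (hπ v w).mp h
    refine ⟨c, ?_, hc⟩
    rintro rfl
    rw [zero_smul] at hc
    exact hP0 _ w.2 hc
  have key : ∀ u v w1 w2 : {v : V // P v}, ∀ α1 β1 α2 β2 : F,
      (w1 : V) = α1 • (u : V) + β1 • (v : V) → (w2 : V) = α2 • (u : V) + β2 • (v : V) →
      π w1 ≠ π w2 → α1 * β2 - α2 * β1 ≠ 0 := by
    intro u v w1 w2 α1 β1 α2 β2 e1 e2 hne hD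
    apply hne
    rw [hπ]
    have h5 : α2 • (w1 : V) = α1 • (w2 : V) := by
      rw [e1, e2, smul_add, smul_add, smul_smul, smul_smul, smul_smul, smul_smul,
        mul_comm α2 α1]
      congr 2
      linear_combination -hD
    by_cases ha : α1 = 0
    · rw [ha, zero_smul, smul_eq_zero] at h5
      have ha2 : α2 = 0 := h5.resolve_right (hP0 _ w1.2)
      rw [ha, zero_smul, zero_add] at e1
      rw [ha2, zero_smul, zero_add] at e2
      have hb : β1 ≠ 0 := by
        rintro rfl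
        rw [zero_smul] at e1
        exact hP0 _ w1.2 e1
      refine ⟨β2 / β1, ?_⟩
      rw [e2, e1, smul_smul, div_mul_cancel₀ _ hb]
    · refine ⟨α1⁻¹ * α2, ?_⟩
      rw [mul_smul, h5, smul_smul, inv_mul_cancel₀ ha, one_smul]
  apply not_steiner_of_lines htr
    (fun a b x => ∃ (u v w : {v : V // P v}) (α β : F), π u = a ∧ π v = b ∧ π w = x ∧
      (w : V) = α • (u : V) + β • (v : V))
  · intro a b hab
    obtain ⟨u, rfl⟩ := hsurj a
    obtain ⟨v, rfl⟩ := hsurj b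
    exact ⟨⟨u, v, u, 1, 0, rfl, rfl, rfl, by simp⟩, ⟨u, v, v, 0, 1, rfl, rfl, rfl, by simp⟩⟩
  · -- lines through two points
    have half : ∀ a b c d, a ≠ b → c ≠ d →
        (∃ (u v w : {v : V // P v}) (α β : F), π u = a ∧ π v = b ∧ π w = c ∧
          (w : V) = α • (u : V) + β • (v : V)) →
        (∃ (u v w : {v : V // P v}) (α β : F), π u = a ∧ π v = b ∧ π w = d ∧
          (w : V) = α • (u : V) + β • (v : V)) →
        ∃ (u v w1 w2 : {v : V // P v}) (α1 β1 α2 β2 : F), π u = a ∧ π v = b ∧ π w1 = c ∧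
          π w2 = d ∧ (w1 : V) = α1 • (u : V) + β1 • (v : V) ∧
          (w2 : V) = α2 • (u : V) + β2 • (v : V) ∧ α1 * β2 - α2 * β1 ≠ 0 := by
      rintro a b c d hab hcd ⟨u, v, w, α, β, rfl, rfl, rfl, e⟩ ⟨u', v', w', α', β', hu, hv, rfl, e'⟩
      obtain ⟨s, hs, hs'⟩ := hrep u u' hu.symm
      obtain ⟨t, ht, ht'⟩ := hrep v v' hv.symm
      have e2 : (w' : V) = (α' * s) • (u : V) + (β' * t) • (v : V) := by
        rw [e', hs', ht', smul_smul, smul_smul]
      exact ⟨u, v, w, w', α, β, α' * s, β' * t, rfl, rfl, rfl, rfl, e, e2,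
        key u v w w' _ _ _ _ e e2 hcd⟩
    intro a b c d hab hcd hc hd x
    obtain ⟨u, v, w1, w2, α1, β1, α2, β2, rfl, rfl, rfl, rfl, e1, e2, hD⟩ :=
      half a b c d hab hcd hc hd
    constructor
    · rintro ⟨u', v', w, α, β, hu, hv, rfl, e⟩
      obtain ⟨s, hs, hs'⟩ := hrep u u' hu.symm
      obtain ⟨t, ht, ht'⟩ := hrep v v' hv.symm
      rw [hs', ht', smul_smul, smul_smul] at e
      refine ⟨w1, w2, w, (α * s * β2 - β * t * α2) / (α1 * β2 - α2 * β1),
        (β * t * α1 - α * s * β1) / (α1 * β2 - α2 * β1), rfl, rfl, rfl, ?_⟩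
      rw [e, e1, e2, smul_add, smul_add, smul_smul, smul_smul, smul_smul, smul_smul]
      have a1 : α * s = (α * s * β2 - β * t * α2) / (α1 * β2 - α2 * β1) * α1 +
          (β * t * α1 - α * s * β1) / (α1 * β2 - α2 * β1) * α2 := by
        rw [div_mul_eq_mul_div, div_mul_eq_mul_div, ← add_div, eq_div_iff hD]
        ring
      have a2 : β * t = (α * s * β2 - β * t * α2) / (α1 * β2 - α2 * β1) * β1 +
          (β * t * α1 - α * s * β1) / (α1 * β2 - α2 * β1) * β2 := by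
        rw [div_mul_eq_mul_div, div_mul_eq_mul_div, ← add_div, eq_div_iff hD]
        ring
      rw [add_add_add_comm, ← add_smul, ← add_smul, ← a1, ← a2]
    · rintro ⟨w1', w2', w, α, β, hu, hv, rfl, e⟩
      obtain ⟨s, hs, hs'⟩ := hrep w1 w1' hu.symm
      obtain ⟨t, ht, ht'⟩ := hrep w2 w2' hv.symm
      rw [hs', ht', smul_smul, smul_smul] at e
      refine ⟨u, v, w, α * s * α1 + β * t * α2, α * s * β1 + β * t * β2, rfl, rfl, rfl, ?_⟩
      rw [e, e1, e2, smul_add, smul_add, smul_smul, smul_smul, smul_smul, smul_smul,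
        add_add_add_comm, ← add_smul, ← add_smul]
  · rintro g hg a b x hab ⟨u, v, w, α, β, rfl, rfl, rfl, e⟩
    obtain ⟨σ, A, hA, hAπ⟩ := hG g hg
    obtain ⟨u', hu, hu'⟩ := hAπ u
    obtain ⟨v', hv, hv'⟩ := hAπ v
    obtain ⟨w', hw, hw'⟩ := hAπ w
    refine ⟨u', v', w', σ α, σ β, hu'.symm, hv'.symm, hw'.symm, ?_⟩
    rw [hw, hu, hv, e, map_add, hA, hA]
  · obtain ⟨u, v, w, α, β, h5, h6, h7, h8⟩ := h3
    exact ⟨π u, π v, π w, h5, h6, h7, u, v, w, α, β, rfl, rfl, rfl, h8⟩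
  · obtain ⟨u, v, w, h5, h6⟩ := h4
    refine ⟨π u, π v, π w, h5, ?_⟩
    rintro ⟨u', v', w', α, β, hu, hv, hw, e⟩
    obtain ⟨s, hs, hs'⟩ := hrep u u' hu.symm
    obtain ⟨t, ht, ht'⟩ := hrep v v' hv.symm
    obtain ⟨r, hr, hr'⟩ := hrep w w' hw.symm
    rw [hs', ht', hr', smul_smul, smul_smul] at e
    apply h6 (r⁻¹ * (α * s)) (r⁻¹ * (β * t))
    have e5 : (w : V) = r⁻¹ • (r • (w : V)) := by rw [smul_smul, inv_mul_cancel₀ hr, one_smul]
    exact e5.trans (by rw [e, smul_add, smul_smul, smul_smul])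

end Pool.Agent.H922
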