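import Mathlib
import Pool.Agent.H922.Lin2

set_option autoImplicit false
set_option linter.style.haveILetI false
set_option linter.unusedVariables false
set_option linter.unusedSectionVars false

/-!
# Affine, projective and unitary groups preserving lines
-/

namespace Pool.Agent.H922

open Equiv MulAction

universe u

variable {X : Type u} [Finite X] {G : Subgroup (Perm X)}

theorem IsPGL.not_steiner (h : IsPGL G) (htr : TTransitive G 2) : ¬ TSteinerPrimitive G 2 := by
  obtain ⟨F, V, iF, iV, iM, π, hdim, hsurj, hπ, hG⟩ := h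
  obtain ⟨f, hf⟩ := exists_linearIndependent_of_le_finrank hdim
  have hf0 : ∀ i, f i ≠ 0 := fun i => hf.ne_zero i
  have hlin : ∀ α β γ : F, α • f 0 + β • f 1 + γ • f 2 = 0 → α = 0 ∧ β = 0 ∧ γ = 0 := by
    intro α β γ h5
    have := Fintype.linearIndependent_iff.mp hf ![α, β, γ] (by
      rw [Fin.sum_univ_three]
      exact h5)
    exact ⟨this 0, this 1, this 2⟩
  have h01 : f 0 + f 1 ≠ 0 := by
    intro h5
    have := hlin 1 1 0 (by rw [one_smul, one_smul, zero_smul, add_zero, h5])
    exact one_ne_zero this.1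
  apply not_steiner_of_semi (P := fun v => v ≠ 0) (fun v hv => hv) π hsurj hπ htr hG
  · refine ⟨⟨f 0, hf0 0⟩, ⟨f 1, hf0 1⟩, ⟨f 0 + f 1, h01⟩, 1, 1, ?_, ?_, ?_, by simp⟩
    · rw [Ne, hπ]
      rintro ⟨c, hc⟩
      have := hlin c (-1) 0 (by
        change f 1 = c • f 0 at hc
        rw [← hc, zero_smul, add_zero, neg_smul, one_smul, add_neg_cancel])
      have h5 := this.2.1
      rw [neg_eq_zero] at h5
      exact one_ne_zero h5
    · rw [Ne, hπ]
      rintro ⟨c, hc⟩
      change f 0 = c • (f 0 + f 1) at hc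
      have := hlin (c - 1) c 0 (by
        rw [zero_smul, add_zero, sub_smul, one_smul]
        rw [smul_add] at hc
        nth_rewrite 2 [hc]
        abel)
      have h5 := this.1
      rw [this.2.1, zero_sub, neg_eq_zero] at h5
      exact one_ne_zero h5
    · rw [Ne, hπ]
      rintro ⟨c, hc⟩
      change f 1 = c • (f 0 + f 1) at hc
      have := hlin c (c - 1) 0 (by
        rw [zero_smul, add_zero, sub_smul, one_smul]
        rw [smul_add] at hc
        nth_rewrite 2 [hc]
        abel)
      have h5 := this.2.1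
      rw [this.1, zero_sub, neg_eq_zero] at h5
      exact one_ne_zero h5
  · refine ⟨⟨f 0, hf0 0⟩, ⟨f 1, hf0 1⟩, ⟨f 2, hf0 2⟩, ?_, ?_⟩
    · rw [Ne, hπ]
      rintro ⟨c, hc⟩
      have := hlin c (-1) 0 (by
        change f 1 = c • f 0 at hc
        rw [← hc, zero_smul, add_zero, neg_smul, one_smul, add_neg_cancel])
      have h5 := this.2.1
      rw [neg_eq_zero] at h5
      exact one_ne_zero h5
    · intro α β h5
      change f 2 = α • f 0 + β • f 1 at h5
      have := hlin α β (-1) (by rw [← h5, neg_smul, one_smul, add_neg_cancel])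
      have h6 := this.2.2
      rw [neg_eq_zero] at h6
      exact one_ne_zero h6

theorem IsPGU.not_steiner (h : IsPGU G) (htr : TTransitive G 2) : ¬ TSteinerPrimitive G 2 := by
  obtain ⟨F, iF, τ, π, hτ, ⟨x0, hx0⟩, hsurj, hπ, hG⟩ := h
  -- a nonzero element with `s + τ s = 0`
  obtain ⟨s, hs0, hs⟩ : ∃ s : F, s ≠ 0 ∧ s + τ s = 0 := by
    refine ⟨x0 - τ x0, fun h => hx0 (sub_eq_zero.mp h).symm, ?_⟩
    rw [map_sub, hτ]
    ring
  -- an element with `b + τ b = -1`
  obtain ⟨y, hy⟩ : ∃ y : F, y + τ y ≠ 0 := by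
    by_cases h2 : (2 : F) = 0
    · refine ⟨x0, fun h => hx0 ?_⟩
      linear_combination h - x0 * h2
    · refine ⟨1, fun h => h2 ?_⟩
      rw [map_one] at h
      linear_combination h
  obtain ⟨b, hb⟩ : ∃ b : F, b + τ b = -1 := by
    refine ⟨-y / (y + τ y), ?_⟩
    rw [map_div₀, map_neg, map_add, hτ, add_comm (τ y) y, ← add_div, div_eq_iff hy]
    ring
  have e0 : ∀ a b c a' b' c' : F, herm τ ![a, b, c] ![a', b', c'] =
      a * τ c' + b * τ b' + c * τ a' := by
    intro a b c a' b' c'
    simp [herm]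
  let P : (Fin 3 → F) → Prop := fun v => v ≠ 0 ∧ herm τ v v = 0
  have p0 : P ![1, 0, 0] := ⟨by
    intro h5; have := congrFun h5 0; simp at this, by rw [e0]; simp⟩
  have p1 : P ![0, 0, 1] := ⟨by
    intro h5; have := congrFun h5 2; simp at this, by rw [e0]; simp⟩
  have p2 : P ![1, 0, s] := ⟨by
    intro h5; have := congrFun h5 0; simp at this, by
      rw [e0, map_zero, map_one]; linear_combination hs⟩
  have p3 : P ![1, 1, b] := ⟨by
    intro h5; have := congrFun h5 0; simp at this, by
      rw [e0, map_one]; linear_combination hb⟩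
  have ne01 : π ⟨_, p0⟩ ≠ π ⟨_, p1⟩ := by
    rw [Ne, hπ]
    rintro ⟨c, hc⟩
    have := congrFun hc 2
    simp at this
  apply not_steiner_of_semi (P := P) (fun v hv => hv.1) π hsurj hπ htr hG
  · refine ⟨⟨_, p0⟩, ⟨_, p1⟩, ⟨_, p2⟩, 1, s, ne01, ?_, ?_, ?_⟩
    · rw [Ne, hπ]
      rintro ⟨c, hc⟩
      have h5 := congrFun hc 0
      have h6 := congrFun hc 2
      simp at h5 h6
      rcases h6 with h6 | h6
      · rw [h6] at h5
        simp at h5
      · exact hs0 h6
    · rw [Ne, hπ]
      rintro ⟨c, hc⟩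
      have h5 := congrFun hc 0
      have h6 := congrFun hc 2
      simp at h5 h6
      rw [← h5] at h6
      simp at h6
    · ext i
      fin_cases i <;> simp
  · refine ⟨⟨_, p0⟩, ⟨_, p1⟩, ⟨_, p3⟩, ne01, ?_⟩
    intro α β h5
    have := congrFun h5 1
    simp at this

theorem IsAGL.not_steiner (h : IsAGL G) (htr : TTransitive G 2) : ¬ TSteinerPrimitive G 2 := by
  obtain ⟨F, V, iF, iV, iM, e, hF, hdim, hG⟩ := h
  obtain ⟨f, hf⟩ := exists_linearIndependent_of_le_finrank hdim
  have hf0 : ∀ i, f i ≠ 0 := fun i => hf.ne_zero i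
  obtain ⟨c0, hc0, hc1⟩ : ∃ c : F, c ≠ 0 ∧ c ≠ 1 := by
    haveI : Finite F := Nat.finite_of_card_ne_zero (by omega)
    haveI := Fintype.ofFinite F
    classical
    by_contra hcon
    push Not at hcon
    have : (Finset.univ : Finset F) ⊆ {0, 1} := by
      intro c _
      simp only [Finset.mem_insert, Finset.mem_singleton]
      by_cases hc : c = 0
      · exact Or.inl hc
      · exact Or.inr (hcon c hc)
    have h5 := Finset.card_le_card this
    rw [Finset.card_univ, ← Nat.card_eq_fintype_card] at h5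
    have h6 : ({0, 1} : Finset F).card ≤ 2 := Finset.card_le_two
    omega
  apply not_steiner_of_lines htr
    (fun a b x => ∃ c : F, e.symm x = e.symm a + c • (e.symm b - e.symm a))
  · intro a b hab
    exact ⟨⟨0, by simp⟩, ⟨1, by simp⟩⟩
  · rintro a b c d hab hcd ⟨γ, hγ⟩ ⟨δ, hδ⟩ x
    have hne : δ - γ ≠ 0 := by
      intro h5
      apply hcd
      apply e.symm.injective
      rw [hγ, hδ, sub_eq_zero.mp h5]
    constructor
    · rintro ⟨ξ, hξ⟩
      refine ⟨(ξ - γ) / (δ - γ), ?_⟩
      rw [hξ, hγ, hδ, add_sub_add_left_eq_sub, ← sub_smul, smul_smul, div_mul_cancel₀ _ hne,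
        add_assoc, ← add_smul, add_sub_cancel]
    · rintro ⟨ξ, hξ⟩
      refine ⟨γ + ξ * (δ - γ), ?_⟩
      rw [hξ, hγ, hδ, add_sub_add_left_eq_sub, ← sub_smul, smul_smul, add_assoc, ← add_smul]
  · rintro g hg a b x hab ⟨c, hc⟩
    obtain ⟨σ, A, v, hA, hgv⟩ := hG g hg
    have e1 : ∀ y : X, e.symm (g y) = A (e.symm y) + v := by
      intro y
      have := hgv (e.symm y)
      rw [e.apply_symm_apply] at this
      rw [this, e.symm_apply_apply]
    refine ⟨σ c, ?_⟩
    rw [e1, e1, e1, hc, map_add, hA, map_sub, add_sub_add_right_eq_sub]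
    abel
  · refine ⟨e 0, e (f 0), e (c0 • f 0), fun h5 => hf0 0 (e.injective h5).symm, ?_, ?_, c0, ?_⟩
    · intro h5
      have := e.injective h5
      rw [smul_eq_zero] at this
      rcases this with h6 | h6
      · exact hc0 h6
      · exact hf0 0 h6
    · intro h5
      have := e.injective h5
      have h6 : (c0 - 1) • f 0 = 0 := by rw [sub_smul, one_smul, this, sub_self]
      rw [smul_eq_zero] at h6
      rcases h6 with h6 | h6
      · exact hc1 (sub_eq_zero.mp h6)
      · exact hf0 0 h6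
    · simp
  · refine ⟨e 0, e (f 0), e (f 1), fun h5 => hf0 0 (e.injective h5).symm, ?_⟩
    rintro ⟨c, hc⟩
    rw [e.symm_apply_apply, e.symm_apply_apply, e.symm_apply_apply, zero_add, sub_zero] at hc
    have := Fintype.linearIndependent_iff.mp hf ![c, -1] (by
      rw [Fin.sum_univ_two]
      change c • f 0 + (-1 : F) • f 1 = 0
      rw [← hc, neg_smul, one_smul, add_neg_cancel])
    have h5 := this 1
    change (-1 : F) = 0 at h5
    rw [neg_eq_zero] at h5
    exact one_ne_zero h5

end Pool.Agent.H922
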