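import Mathlib
import Pool.Agent.H922.Defs10
import Pool.Agent.H922.Aff6
import Pool.Agent.H922.Sym2

set_option autoImplicit false
set_option linter.style.haveILetI false
set_option linter.unusedVariables false
set_option linter.unusedSectionVars false

/-!
# The Suzuki groups: elements and the stabiliser of two points
-/

namespace Pool.Agent.H922

open Equiv MulAction

section Field

variable {F : Type*} [Field F] {θ : F ≃+* F}

theorem suz_char (hθ : ∀ x, θ (θ x) = x ^ 2) : (2 : F) = 0 := by
  have h := hθ 2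
  rw [map_ofNat, map_ofNat] at h
  linear_combination -h

theorem suz_add_self (hθ : ∀ x, θ (θ x) = x ^ 2) (x : F) : x + x = 0 := by
  have h := suz_char hθ
  linear_combination x * h

theorem suz_eq_of_add (hθ : ∀ x, θ (θ x) = x ^ 2) {x y : F} (h : x + y = 0) : x = y := by
  have h2 := suz_char hθ
  linear_combination h - y * h2

theorem suz_exists_ne [Finite F] (hF : 2 < Nat.card F) : ∃ c : F, c ≠ 0 ∧ c ≠ 1 := by
  haveI := Fintype.ofFinite F
  classical
  by_contra hcon
  push Not at hcon
  have : (Finset.univ : Finset F) ⊆ {0, 1} := by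
    intro c _
    simp only [Finset.mem_insert, Finset.mem_singleton]
    by_cases hc : c = 0
    · exact Or.inl hc
    · exact Or.inr (hcon c hc)
  have h5 := Finset.card_le_card this
  rw [Finset.card_univ, ← Nat.card_eq_fintype_card] at h5
  have h6 : ({0, 1} : Finset F).card ≤ 2 := Finset.card_le_two
  omega

theorem suz_idem {x : F} (h : x ^ 2 = x) : x = 0 ∨ x = 1 := by
  have : x * (x - 1) = 0 := by linear_combination h
  rcases mul_eq_zero.mp this with h1 | h1
  · exact Or.inl h1
  · exact Or.inr (sub_eq_zero.mp h1)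

theorem suz_fix (hθ : ∀ x, θ (θ x) = x ^ 2) {x : F} (h : θ x = x) : x = 0 ∨ x = 1 := by
  apply suz_idem
  rw [← hθ, h, h]

theorem suz_sq_ne [Finite F] (hθ : ∀ x, θ (θ x) = x ^ 2) (hF : 2 < Nat.card F) :
    ∃ a, θ a ≠ a ^ 2 := by
  by_contra hcon
  push Not at hcon
  obtain ⟨c, hc0, hc1⟩ := suz_exists_ne hF
  have h1 := hθ c
  rw [hcon c, map_pow, hcon c] at h1
  have h2 : (c ^ 2) * (c ^ 2 - 1) = 0 := by linear_combination h1
  rcases mul_eq_zero.mp h2 with h3 | h3
  · exact hc0 (pow_eq_zero_iff (by norm_num) |>.mp h3)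
  · have h4 : (c - 1) ^ 2 = 0 := by
      have := suz_char hθ
      linear_combination h3 - (c - 1) * this
    exact hc1 (sub_eq_zero.mp (pow_eq_zero_iff (by norm_num) |>.mp h4))

/-- a multiple of `θ(x) x²` is additive only if it is zero -/
theorem suz_not_add [Finite F] (hθ : ∀ x, θ (θ x) = x ^ 2) (hF : 2 < Nat.card F) {c : F}
    (h : ∀ x, c * (θ (x + 1) * (x + 1) ^ 2) = c * (θ x * x ^ 2) + c) : c = 0 := by
  obtain ⟨a, ha⟩ := suz_sq_ne hθ hF
  have h2 := suz_char hθ
  have h1 := h a
  rw [map_add, map_one] at h1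
  have h3 : c * (θ a - a ^ 2) = 0 := by
    linear_combination h1 - (c * (θ a * a + a ^ 2 + a)) * h2
  rcases mul_eq_zero.mp h3 with h4 | h4
  · exact h4
  · exact absurd (sub_eq_zero.mp h4) ha

theorem suz_mul_theta (hθ : ∀ x, θ (θ x) = x ^ 2) {x : F} (h : x * θ x = 1) : x = 1 := by
  have hx : x ≠ 0 := by
    rintro rfl
    rw [zero_mul] at h
    exact zero_ne_one h
  have h1 : θ x * x ^ 2 = 1 := by
    have := congrArg θ h
    rw [map_mul, hθ, map_one] at this
    exact this
  have h2 : x ^ 2 = x := by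
    have h3 : x ^ 2 * (x * θ x) = x * (θ x * x ^ 2) := by ring
    rw [h, h1, mul_one, mul_one] at h3
    exact h3
  rcases suz_idem h2 with h3 | h3
  · exact absurd h3 hx
  · exact h3

theorem suzN_zero : suzN θ 0 0 = 0 := by simp [suzN]

theorem suzN_ne (hθ : ∀ x, θ (θ x) = x ^ 2) {a b : F} (h : ¬ (a = 0 ∧ b = 0)) :
    suzN θ a b ≠ 0 := by
  intro h0
  unfold suzN at h0
  apply h
  by_cases ha : a = 0
  · rw [ha, map_zero, zero_mul, zero_mul, zero_add, zero_add] at h0
    exact ⟨ha, (map_eq_zero_iff θ θ.injective).mp h0⟩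
  exfalso
  have h2 := suz_char hθ
  -- scale to `a = 1`
  have hθa : θ a ≠ 0 := fun h5 => ha ((map_eq_zero_iff θ θ.injective).mp h5)
  set y := b / (a * θ a) with hy
  have hb : b = a * θ a * y := by rw [hy]; field_simp
  have h1 : θ b = θ a * a ^ 2 * θ y := by
    rw [hb, map_mul, map_mul, hθ]
  rw [h1, hb] at h0
  have h3 : θ a * a ^ 2 * (y + 1 + θ y) = 0 := by linear_combination h0
  have h4 : y + 1 + θ y = 0 := by
    rcases mul_eq_zero.mp h3 with h5 | h5
    · exact absurd h5 (mul_ne_zero hθa (pow_ne_zero 2 ha))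
    · exact h5
  have h5 : θ y = y + 1 := (suz_eq_of_add hθ h4).symm
  have h6 : y ^ 2 = y := by
    rw [← hθ, h5, map_add, map_one, h5]
    linear_combination h2
  have h7 : θ y = y := by
    rcases suz_idem h6 with h8 | h8
    · rw [h8, map_zero]
    · rw [h8, map_one]
  rw [h7] at h5
  have : (1 : F) = 0 := by linear_combination -h5
  exact one_ne_zero this

theorem suzN_inv (hθ : ∀ x, θ (θ x) = x ^ 2) {a b : F} (h : suzN θ a b ≠ 0) :
    suzN θ (b / suzN θ a b) (a / suzN θ a b) = 1 / suzN θ a b := by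
  have h2 := suz_char hθ
  have e1 : θ (suzN θ a b) = θ a * θ b + a ^ 2 * θ a ^ 2 + b ^ 2 := by
    unfold suzN
    rw [map_add, map_add, map_mul, map_mul, map_pow, hθ, hθ]
  have e2 : θ (suzN θ a b) ≠ 0 := fun h5 => h ((map_eq_zero_iff θ θ.injective).mp h5)
  have key : suzN θ a b * θ (suzN θ a b) =
      a * b * θ (suzN θ a b) + θ b * b ^ 2 + θ a * suzN θ a b ^ 2 := by
    rw [e1]
    unfold suzN
    linear_combination (-(θ a ^ 2 * a ^ 3 * b) - θ a * θ b * a * b) * h2
  generalize hn : suzN θ a b = n at *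
  unfold suzN
  rw [map_div₀, map_div₀]
  field_simp
  linear_combination -key

theorem suzN_transl (hθ : ∀ x, θ (θ x) = x ^ 2) (a b c d : F) :
    suzN θ (a + c) (b + d + θ c * a) =
      suzN θ a b + c * b + (d + c * θ c) * a + suzN θ c d := by
  have h2 := suz_char hθ
  unfold suzN
  rw [map_add, map_add, map_add, map_mul, hθ]
  linear_combination (θ a * c ^ 2 + θ c * a ^ 2 + θ a * a * c + θ c * a * c) * h2

theorem suzN_scale (hθ : ∀ x, θ (θ x) = x ^ 2) (a b k : F) :
    suzN θ (k * a) (k * θ k * b) = k ^ 2 * θ k * suzN θ a b := by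
  unfold suzN
  rw [map_mul, map_mul, map_mul, hθ]
  ring

end Field

section Elements

variable {F : Type*} [Field F] {θ : F ≃+* F}

/-- criterion for membership in the Suzuki group -/
theorem mem_Suz_of {g : Perm (Option (F × F))} (f : (Fin 4 → F) → (Fin 4 → F))
    (hadd : ∀ v w, f (v + w) = f v + f w) (hsmul : ∀ (c : F) v, f (c • v) = c • f v)
    (hinj : ∀ v, f v = 0 → v = 0) (hg : ∀ x, ∃ c : F, f (ovoid θ x) = c • ovoid θ (g x)) :
    g ∈ Suz θ := by
  let A : (Fin 4 → F) →ₗ[F] (Fin 4 → F) := ⟨⟨f, hadd⟩, hsmul⟩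
  have hA : Function.Injective A := by
    rw [injective_iff_map_eq_zero]
    exact hinj
  exact ⟨LinearEquiv.ofInjectiveEndo A hA, hg⟩

variable [Finite F]

theorem suz_T (hθ : ∀ x, θ (θ x) = x ^ 2) (c d : F) : ∃ g ∈ Suz θ, g none = none ∧
    ∀ a b : F, g (some (a, b)) = some (a + c, b + d + θ c * a) := by
  let t : Option (F × F) → Option (F × F) := Option.map (fun p => (p.1 + c, p.2 + d + θ c * p.1))
  have ht : Function.Injective t := by
    apply Option.map_injective
    rintro ⟨a, b⟩ ⟨a', b'⟩ h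
    simp only [Prod.mk.injEq] at h
    have h1 : a = a' := add_right_cancel h.1
    rw [h1] at h
    rw [h1, add_right_cancel (add_right_cancel h.2)]
  refine ⟨Equiv.ofBijective t (Finite.injective_iff_bijective.mp ht), ?_, rfl, fun a b => rfl⟩
  apply mem_Suz_of (fun v => ![v 0 + c * v 1 + (d + c * θ c) * v 2 + suzN θ c d * v 3,
    v 1 + θ c * v 2 + d * v 3, v 2 + c * v 3, v 3])
  · intro v w
    ext i
    fin_cases i <;> simp <;> ring
  · intro k v
    ext i
    fin_cases i <;> simp <;> ring
  · intro v hv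
    have h3 := congrFun hv 3
    have h2 := congrFun hv 2
    have h1 := congrFun hv 1
    have h0 := congrFun hv 0
    simp at h3 h2 h1 h0
    rw [h3] at h2 h1 h0
    simp at h2 h1 h0
    rw [h2] at h1 h0
    simp at h1 h0
    rw [h1] at h0
    simp at h0
    ext i
    fin_cases i
    · exact h0
    · exact h1
    · exact h2
    · exact h3
  · rintro (_ | ⟨a, b⟩)
    · refine ⟨1, ?_⟩
      change _ = (1 : F) • ovoid θ none
      ext i
      fin_cases i <;> simp [ovoid]
    · refine ⟨1, ?_⟩
      change _ = (1 : F) • ovoid θ (some (a + c, b + d + θ c * a))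
      have e := suzN_transl hθ a b c d
      ext i
      fin_cases i
      · simp [ovoid, e]
      · simp [ovoid]
        ring
      · simp [ovoid]
      · simp [ovoid]

theorem suz_H (hθ : ∀ x, θ (θ x) = x ^ 2) (k : F) (hk : k ≠ 0) : ∃ g ∈ Suz θ, g none = none ∧
    ∀ a b : F, g (some (a, b)) = some (k * a, k * θ k * b) := by
  have hθk : θ k ≠ 0 := fun h5 => hk ((map_eq_zero_iff θ θ.injective).mp h5)
  let t : Option (F × F) → Option (F × F) := Option.map (fun p => (k * p.1, k * θ k * p.2))
  have ht : Function.Injective t := by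
    apply Option.map_injective
    rintro ⟨a, b⟩ ⟨a', b'⟩ h
    simp only [Prod.mk.injEq] at h
    rw [mul_left_cancel₀ hk h.1, mul_left_cancel₀ (mul_ne_zero hk hθk) h.2]
  refine ⟨Equiv.ofBijective t (Finite.injective_iff_bijective.mp ht), ?_, rfl, fun a b => rfl⟩
  apply mem_Suz_of (fun v => ![k ^ 2 * θ k * v 0, k * θ k * v 1, k * v 2, v 3])
  · intro v w
    ext i
    fin_cases i <;> simp <;> ring
  · intro k v
    ext i
    fin_cases i <;> simp <;> ring
  · intro v hv
    have h3 := congrFun hv 3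
    have h2 := congrFun hv 2
    have h1 := congrFun hv 1
    have h0 := congrFun hv 0
    simp [hk] at h3 h2 h1 h0
    ext i
    fin_cases i
    · exact h0
    · exact h1
    · exact h2
    · exact h3
  · rintro (_ | ⟨a, b⟩)
    · refine ⟨k ^ 2 * θ k, ?_⟩
      change _ = (k ^ 2 * θ k) • ovoid θ none
      ext i
      fin_cases i <;> simp [ovoid]
    · refine ⟨1, ?_⟩
      change _ = (1 : F) • ovoid θ (some (k * a, k * θ k * b))
      have e := suzN_scale hθ a b k
      ext i
      fin_cases i <;> simp [ovoid, e]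

open Classical in
theorem suz_W (hθ : ∀ x, θ (θ x) = x ^ 2) : ∃ g ∈ Suz θ, g none = some (0, 0) ∧
    g (some (0, 0)) = none ∧ (∀ a b : F, ¬ (a = 0 ∧ b = 0) →
      g (some (a, b)) = some (b / suzN θ a b, a / suzN θ a b)) ∧ g * g = 1 := by
  let t : Option (F × F) → Option (F × F) := fun x => match x with
    | none => some (0, 0)
    | some p => if p.1 = 0 ∧ p.2 = 0 then none else some (p.2 / suzN θ p.1 p.2, p.1 / suzN θ p.1 p.2)
  have t0 : t (some (0, 0)) = none := if_pos ⟨rfl, rfl⟩
  have t1 : ∀ a b : F, ¬ (a = 0 ∧ b = 0) →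
      t (some (a, b)) = some (b / suzN θ a b, a / suzN θ a b) := fun a b h => if_neg h
  have tt : ∀ x, t (t x) = x := by
    rintro (_ | ⟨a, b⟩)
    · exact t0
    · by_cases h : a = 0 ∧ b = 0
      · rw [h.1, h.2, t0]
      · have hN := suzN_ne hθ h
        rw [t1 a b h, t1, suzN_inv hθ hN]
        · congr 2
          · field_simp
          · field_simp
        · rintro ⟨h1, h2⟩
          rw [div_eq_zero_iff] at h1 h2
          exact h ⟨h2.resolve_right hN, h1.resolve_right hN⟩
  refine ⟨⟨t, t, tt, tt⟩, ?_, rfl, t0, t1, Equiv.ext tt⟩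
  apply mem_Suz_of (fun v => ![v 3, v 2, v 1, v 0])
  · intro v w
    ext i
    fin_cases i <;> simp
  · intro k v
    ext i
    fin_cases i <;> simp
  · intro v hv
    have h3 := congrFun hv 3
    have h2 := congrFun hv 2
    have h1 := congrFun hv 1
    have h0 := congrFun hv 0
    simp at h3 h2 h1 h0
    ext i
    fin_cases i
    · exact h3
    · exact h2
    · exact h1
    · exact h0
  · rintro (_ | ⟨a, b⟩)
    · refine ⟨1, ?_⟩
      change _ = (1 : F) • ovoid θ (some (0, 0))
      ext i
      fin_cases i <;> simp [ovoid, suzN]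
    · by_cases h : a = 0 ∧ b = 0
      · rw [h.1, h.2]
        refine ⟨1, ?_⟩
        change _ = (1 : F) • ovoid θ (t (some (0, 0)))
        rw [t0]
        ext i
        fin_cases i <;> simp [ovoid, suzN]
      · have hN := suzN_ne hθ h
        refine ⟨suzN θ a b, ?_⟩
        change _ = suzN θ a b • ovoid θ (t (some (a, b)))
        rw [t1 a b h]
        have e := suzN_inv hθ hN
        ext i
        fin_cases i
        · simp [ovoid, e, hN]
        · simp [ovoid]
          field_simp
        · simp [ovoid]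
          field_simp
        · simp [ovoid]

end Elements

end Pool.Agent.H922
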