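import Mathlib
import Pool.Agent.H922.Suz

set_option autoImplicit false
set_option linter.style.haveILetI false
set_option linter.unusedVariables false
set_option linter.unusedSectionVars false

/-!
# The Suzuki groups: the stabiliser of two points, 2-transitivity
-/

namespace Pool.Agent.H922

open Equiv MulAction

universe u

variable {F : Type u} [Field F] [Finite F] {θ : F ≃+* F}

theorem suz_two (hθ : ∀ x, θ (θ x) = x ^ 2) (x y : Option (F × F)) (hxy : x ≠ y) :
    ∃ g ∈ Suz θ, g x = none ∧ g y = some (0, 0) := by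
  have h2 := suz_char hθ
  -- moving a finite point to the origin
  have hT : ∀ a b : F, ∃ g ∈ Suz θ, g none = none ∧ g (some (a, b)) = some (0, 0) := by
    intro a b
    obtain ⟨g, hg, g0, g1⟩ := suz_T hθ a (b + θ a * a)
    refine ⟨g, hg, g0, ?_⟩
    rw [g1]
    congr 2
    · linear_combination a * h2
    · linear_combination (b + θ a * a) * h2
  -- moving a point to infinity
  obtain ⟨g, hg, hgx⟩ : ∃ g ∈ Suz θ, g x = none := by
    rcases x with _ | ⟨a, b⟩
    · exact ⟨1, (Suz θ).one_mem, rfl⟩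
    · obtain ⟨g, hg, g0, g1⟩ := hT a b
      obtain ⟨w, hw, w0, w1, w2, -⟩ := suz_W hθ
      exact ⟨w * g, (Suz θ).mul_mem hw hg, by rw [Perm.mul_apply, g1, w1]⟩
  have hgy : g y ≠ none := by
    rw [← hgx]
    exact g.injective.ne (Ne.symm hxy)
  obtain ⟨⟨a, b⟩, hab⟩ := Option.ne_none_iff_exists'.mp hgy
  obtain ⟨k, hk, k0, k1⟩ := hT a b
  exact ⟨k * g, (Suz θ).mul_mem hk hg, by rw [Perm.mul_apply, hgx, k0],
    by rw [Perm.mul_apply, hab, k1]⟩

theorem suz_trans (hθ : ∀ x, θ (θ x) = x ^ 2) : TTransitive (Suz θ) 2 := by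
  constructor
  · have : Nontrivial (Option (F × F)) := ⟨none, some (0, 0), by simp⟩
    exact Finite.one_lt_card_iff_nontrivial.mpr this
  rw [multTrans_iff]
  intro a b ha hb
  have ha' : a 0 ≠ a 1 := fun h => absurd (ha h) (by decide)
  have hb' : b 0 ≠ b 1 := fun h => absurd (hb h) (by decide)
  obtain ⟨g, hg, g0, g1⟩ := suz_two hθ (a 0) (a 1) ha'
  obtain ⟨k, hk, k0, k1⟩ := suz_two hθ (b 0) (b 1) hb'
  refine ⟨k⁻¹ * g, (Suz θ).mul_mem ((Suz θ).inv_mem hk) hg, fun i => ?_⟩
  fin_cases i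
  · change (k⁻¹ * g) (a 0) = b 0
    rw [Perm.mul_apply, g0, Perm.inv_eq_iff_eq, k0]
  · change (k⁻¹ * g) (a 1) = b 1
    rw [Perm.mul_apply, g1, Perm.inv_eq_iff_eq, k1]

/-- the shape of a semilinear map fixing the two base points -/
theorem asuz_shape (hθ : ∀ x, θ (θ x) = x ^ 2) (hF : 2 < Nat.card F)
    {g : Perm (Option (F × F))} {σ : F ≃+* F} {A : (Fin 4 → F) ≃+ (Fin 4 → F)}
    (hA : ∀ (c : F) (v : Fin 4 → F), A (c • v) = σ c • A v)
    (hg : ∀ x, ∃ c : F, A (ovoid θ x) = c • ovoid θ (g x)) (h0 : g none = none)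
    (h1 : g (some (0, 0)) = some (0, 0)) :
    ∃ κ m ν l μ ρ : F, κ ≠ 0 ∧
      (∀ a b, g (some (a, b)) = some (κ * σ a, m * σ b + ν * σ a)) ∧
      ∀ a b, suzN θ (κ * σ a) (m * σ b + ν * σ a) =
        l * σ (suzN θ a b) + μ * σ b + ρ * σ a := by
  have h2 := suz_char hθ
  have hcomm : ∀ x, σ (θ x) = θ (σ x) := by
    intro x
    exact congrArg (fun k : F ≃+* F => k x) (aut_comm σ θ)
  -- the images of the standard basis
  obtain ⟨c0, hc0⟩ := hg none
  obtain ⟨c3, hc3⟩ := hg (some (0, 0))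
  rw [h0] at hc0
  rw [h1] at hc3
  have e0 : ovoid θ none = ![1, 0, 0, 0] := rfl
  have e3 : ovoid θ (some (0, 0)) = ![0, 0, 0, 1] := by
    change ![suzN θ 0 0, 0, 0, 1] = _
    rw [suzN_zero]
  have hc30 : c3 ≠ 0 := by
    rintro rfl
    rw [zero_smul] at hc3
    exact ovoid_ne_zero θ _ ((map_eq_zero_iff A A.injective).mp hc3)
  set p := A ![0, 1, 0, 0] with hp
  set r := A ![0, 0, 1, 0] with hr
  have hAv : ∀ v0 v1 v2 v3 : F, A ![v0, v1, v2, v3] =
      (σ v0 * c0) • ![1, 0, 0, 0] + σ v1 • p + σ v2 • r + (σ v3 * c3) • ![0, 0, 0, 1] := by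
    intro v0 v1 v2 v3
    have : (![v0, v1, v2, v3] : Fin 4 → F) = v0 • ![1, 0, 0, 0] + v1 • ![0, 1, 0, 0] +
        v2 • ![0, 0, 1, 0] + v3 • ![0, 0, 0, 1] := by
      ext i
      fin_cases i <;> simp
    rw [this, map_add, map_add, map_add, hA, hA, hA, hA, ← e0, ← e3, hc0, hc3, smul_smul,
      smul_smul]
  -- the equations
  have heq : ∀ a b : F, ∃ a' b' c : F, g (some (a, b)) = some (a', b') ∧ c ≠ 0 ∧
      σ b * p 3 + σ a * r 3 + c3 = c ∧ σ b * p 2 + σ a * r 2 = c * a' ∧
      σ b * p 1 + σ a * r 1 = c * b' ∧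
      σ (suzN θ a b) * c0 + σ b * p 0 + σ a * r 0 = c * suzN θ a' b' := by
    intro a b
    have hgn : g (some (a, b)) ≠ none := by
      rw [← h0]
      exact g.injective.ne (by simp)
    obtain ⟨⟨a', b'⟩, hab⟩ := Option.ne_none_iff_exists'.mp hgn
    obtain ⟨c, hc⟩ := hg (some (a, b))
    have hc' : c ≠ 0 := by
      rintro rfl
      rw [zero_smul] at hc
      exact ovoid_ne_zero θ _ ((map_eq_zero_iff A A.injective).mp hc)
    rw [hab] at hc
    have e : ovoid θ (some (a, b)) = ![suzN θ a b, b, a, 1] := rfl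
    have e' : ovoid θ (some (a', b')) = ![suzN θ a' b', b', a', 1] := rfl
    rw [e, e', hAv] at hc
    have k0 := congrFun hc 0
    have k1 := congrFun hc 1
    have k2 := congrFun hc 2
    have k3 := congrFun hc 3
    simp at k0 k1 k2 k3
    exact ⟨a', b', c, hab, hc', k3, k2, k1, k0⟩
  have hp3 : p 3 = 0 := by
    by_contra hne
    obtain ⟨a', b', c, -, hc, k, -⟩ := heq 0 (σ.symm (-c3 / p 3))
    rw [map_zero, zero_mul, add_zero, σ.apply_symm_apply, div_mul_cancel₀ _ hne] at k
    apply hc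
    rw [← k]
    ring
  have hr3 : r 3 = 0 := by
    by_contra hne
    obtain ⟨a', b', c, -, hc, k, -⟩ := heq (σ.symm (-c3 / r 3)) 0
    rw [map_zero, zero_mul, zero_add, σ.apply_symm_apply, div_mul_cancel₀ _ hne] at k
    apply hc
    rw [← k]
    ring
  have heq' : ∀ a b : F, g (some (a, b)) =
      some ((σ b * p 2 + σ a * r 2) / c3, (σ b * p 1 + σ a * r 1) / c3) ∧
      suzN θ ((σ b * p 2 + σ a * r 2) / c3) ((σ b * p 1 + σ a * r 1) / c3) =
        (σ (suzN θ a b) * c0 + σ b * p 0 + σ a * r 0) / c3 := by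
    intro a b
    obtain ⟨a', b', c, k0, hc, k1, k2, k3, k4⟩ := heq a b
    rw [hp3, hr3, mul_zero, mul_zero, zero_add, zero_add] at k1
    rw [← k1] at k2 k3 k4
    have f1 : (σ b * p 2 + σ a * r 2) / c3 = a' := by rw [k2]; field_simp
    have f2 : (σ b * p 1 + σ a * r 1) / c3 = b' := by rw [k3]; field_simp
    rw [f1, f2, k0, k4]
    refine ⟨rfl, ?_⟩
    field_simp
  -- the coefficient `p 2` vanishes
  have hp2 : p 2 = 0 := by
    set P := p 2 / c3 with hP
    have hpoly : ∀ x : F, θ P * P ^ 2 * (θ x * x ^ 2) =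
        (c0 / c3) * θ x + (p 0 / c3) * x - P * (p 1 / c3) * x ^ 2 - θ (p 1 / c3) * θ x := by
      intro x
      have := (heq' 0 (σ.symm x)).2
      rw [map_zero, zero_mul, zero_mul, zero_mul, add_zero, add_zero, add_zero,
        σ.apply_symm_apply] at this
      have e1 : suzN θ 0 (σ.symm x) = θ (σ.symm x) := by
        unfold suzN
        rw [map_zero, zero_mul, zero_mul, zero_add, zero_add]
      rw [e1, hcomm, σ.apply_symm_apply, mul_div_assoc, mul_div_assoc, ← hP] at this
      unfold suzN at this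
      rw [map_mul, map_mul] at this
      have e2 : (θ x * c0 + x * p 0) / c3 = (c0 / c3) * θ x + (p 0 / c3) * x := by
        field_simp
      rw [e2] at this
      linear_combination this
    have h5 := suz_not_add hθ hF (c := θ P * P ^ 2) (by
      intro x
      have e1 := hpoly (x + 1)
      have e2 := hpoly x
      have e3 := hpoly 1
      rw [e1, e2]
      rw [map_one] at e3
      rw [map_add, map_one]
      linear_combination -e3 - (P * (p 1 / c3) * x) * h2)
    have h6 : P = 0 := by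
      rcases mul_eq_zero.mp h5 with h7 | h7
      · exact (map_eq_zero_iff θ θ.injective).mp h7
      · exact (pow_eq_zero_iff (by norm_num)).mp h7
    rw [hP, div_eq_zero_iff] at h6
    exact h6.resolve_right hc30
  have hform : ∀ a b, g (some (a, b)) =
      some (r 2 / c3 * σ a, p 1 / c3 * σ b + r 1 / c3 * σ a) := by
    intro a b
    rw [(heq' a b).1, hp2, mul_zero, zero_add]
    congr 2
    · field_simp
    · field_simp
  refine ⟨r 2 / c3, p 1 / c3, r 1 / c3, c0 / c3, p 0 / c3, r 0 / c3, ?_, hform, ?_⟩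
  · intro hκ
    obtain ⟨x, hx⟩ := g.surjective (some (1, 0))
    rcases x with _ | ⟨a, b⟩
    · rw [h0] at hx
      simp at hx
    · rw [hform, hκ, zero_mul] at hx
      simp at hx
  · intro a b
    have := (heq' a b).2
    rw [hp2, mul_zero, zero_add] at this
    have e1 : r 2 / c3 * σ a = σ a * r 2 / c3 := by field_simp
    have e2 : p 1 / c3 * σ b + r 1 / c3 * σ a = (σ b * p 1 + σ a * r 1) / c3 := by field_simp
    rw [e1, e2, this]
    field_simp

/-- the stabiliser of two points in the Suzuki group -/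
theorem suz_fix_two (hθ : ∀ x, θ (θ x) = x ^ 2) (hF : 2 < Nat.card F)
    {g : Perm (Option (F × F))} (hg : g ∈ Suz θ) (h0 : g none = none)
    (h1 : g (some (0, 0)) = some (0, 0)) :
    ∃ κ : F, κ ≠ 0 ∧ ∀ a b, g (some (a, b)) = some (κ * a, κ * θ κ * b) := by
  have h2 := suz_char hθ
  obtain ⟨A, hA⟩ := hg
  obtain ⟨κ, m, ν, l, μ, ρ, hκ, hgab, hN⟩ := asuz_shape hθ hF (σ := RingEquiv.refl F)
    (A := A.toAddEquiv) (fun c v => A.map_smul c v) hA h0 h1
  have hN' : ∀ a b : F, suzN θ (κ * a) (m * b + ν * a) = l * suzN θ a b + μ * b + ρ * a := hN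
  have hgab' : ∀ a b : F, g (some (a, b)) = some (κ * a, m * b + ν * a) := hgab
  -- `a = 0`
  have e1 : ∀ b : F, θ m * θ b = l * θ b + μ * b := by
    intro b
    have := hN' 0 b
    unfold suzN at this
    rw [mul_zero, map_zero, mul_zero, add_zero, map_mul] at this
    linear_combination this
  have e2 : θ m = l + μ := by
    have := e1 1
    rw [map_one] at this
    linear_combination this
  obtain ⟨c, hc0, hc1⟩ := suz_exists_ne hF
  have hμ : μ = 0 := by
    have h5 := e1 c
    have h6 : μ * (θ c - c) = 0 := by linear_combination h5 - θ c * e2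
    rcases mul_eq_zero.mp h6 with h7 | h7
    · exact h7
    · rcases suz_fix hθ (sub_eq_zero.mp h7) with h8 | h8
      · exact absurd h8 hc0
      · exact absurd h8 hc1
  rw [hμ, add_zero] at e2
  -- `b = 0`
  have e3 : ∀ a : F, (θ κ * κ ^ 2 - l) * (θ a * a ^ 2) + κ * ν * a ^ 2 + θ ν * θ a = ρ * a := by
    intro a
    have := hN' a 0
    unfold suzN at this
    rw [mul_zero, mul_zero, map_zero, zero_add, mul_zero, map_mul, map_mul] at this
    linear_combination this
  have e4 : θ κ * κ ^ 2 - l = 0 := by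
    apply suz_not_add hθ hF
    intro x
    have k1 := e3 (x + 1)
    have k2 := e3 x
    have k3 := e3 1
    rw [map_add, map_one] at k1
    rw [map_one] at k3
    rw [map_add, map_one]
    linear_combination k1 - k2 - k3 - (κ * ν * x) * h2
  -- the additive relation
  have e5 : ∀ a : F, κ * ν * a ^ 2 + θ ν * θ a = ρ * a := by
    intro a
    have := e3 a
    rw [e4, zero_mul, zero_add] at this
    exact this
  have hν : ν = 0 := by
    obtain ⟨a, ha⟩ := suz_sq_ne hθ hF
    have k1 := e5 (c * a)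
    have k2 := e5 a
    have k3 := e5 c
    have k4 := e5 1
    rw [map_mul] at k1
    rw [map_one] at k4
    have h5 : (κ * ν) * ((c ^ 2 - c) * (a ^ 2 - θ a)) = 0 := by
      linear_combination k1 - c * k2 - θ a * k3 + c * θ a * k4
    rcases mul_eq_zero.mp h5 with h6 | h6
    · exact (mul_eq_zero.mp h6).resolve_left hκ
    · exfalso
      rcases mul_eq_zero.mp h6 with h7 | h7
      · rcases suz_idem (sub_eq_zero.mp h7) with h8 | h8
        · exact hc0 h8
        · exact hc1 h8
      · exact ha (sub_eq_zero.mp h7).symm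
  -- the general equation
  have hm : m = κ * θ κ := by
    have h5 := hN' 1 1
    unfold suzN at h5
    simp only [hν, hμ, mul_one, add_zero, map_one, one_pow] at h5
    have h6 := e5 1
    rw [hν, map_zero, map_one] at h6
    have h7 : κ * (m - κ * θ κ) = 0 := by
      linear_combination h5 - e2 - 2 * e4 - h6
    rcases mul_eq_zero.mp h7 with h8 | h8
    · exact absurd h8 hκ
    · exact sub_eq_zero.mp h8
  refine ⟨κ, hκ, fun a b => ?_⟩
  rw [hgab', hν, hm, zero_mul, add_zero]

end Pool.Agent.H922
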