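import Mathlib
import Pool.Agent.H922.Suz2

set_option autoImplicit false
set_option linter.style.haveILetI false
set_option linter.unusedVariables false
set_option linter.unusedSectionVars false

/-!
# The Suzuki groups: fixed points, centralisers, imprimitivity
-/

namespace Pool.Agent.H922

open Equiv MulAction

universe u

variable {F : Type u} [Field F] [Finite F] {θ : F ≃+* F}

/-- the stabiliser of one point -/
theorem suz_fix_one (hθ : ∀ x, θ (θ x) = x ^ 2) (hF : 2 < Nat.card F)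
    {g : Perm (Option (F × F))} (hg : g ∈ Suz θ) (h0 : g none = none) :
    ∃ κ c d : F, κ ≠ 0 ∧
      ∀ a b, g (some (a, b)) = some (κ * a + c, κ * θ κ * b + d + θ c * (κ * a)) := by
  have hgn : g (some (0, 0)) ≠ none := by
    rw [← h0]
    exact g.injective.ne (by simp)
  obtain ⟨⟨c, d⟩, hcd⟩ := Option.ne_none_iff_exists'.mp hgn
  obtain ⟨k, hk, k0, k1⟩ := suz_T hθ c d
  have e0 : (k⁻¹ * g) none = none := by rw [Perm.mul_apply, h0, Perm.inv_eq_iff_eq, k0]
  have e1 : (k⁻¹ * g) (some (0, 0)) = some (0, 0) := by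
    rw [Perm.mul_apply, hcd, Perm.inv_eq_iff_eq, k1, mul_zero, add_zero, zero_add, zero_add]
  obtain ⟨κ, hκ, hκ'⟩ := suz_fix_two hθ hF ((Suz θ).mul_mem ((Suz θ).inv_mem hk) hg) e0 e1
  refine ⟨κ, c, d, hκ, fun a b => ?_⟩
  have := hκ' a b
  rw [Perm.mul_apply, Perm.inv_eq_iff_eq, k1] at this
  exact this

theorem suz_three (hθ : ∀ x, θ (θ x) = x ^ 2) (hF : 2 < Nat.card F)
    {g : Perm (Option (F × F))} (hg : g ∈ Suz θ) {x y z : Option (F × F)} (hxy : x ≠ y)
    (hxz : x ≠ z) (hyz : y ≠ z) (hx : g x = x) (hy : g y = y) (hz : g z = z) : g = 1 := by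
  obtain ⟨k, hk, k0, k1⟩ := suz_two hθ x y hxy
  have hi : ∀ u v, k u = v → k⁻¹ v = u := by
    intro u v h
    rw [← h, perm_inv_apply]
  have hm : k * g * k⁻¹ ∈ Suz θ := (Suz θ).mul_mem ((Suz θ).mul_mem hk hg) ((Suz θ).inv_mem hk)
  have e0 : (k * g * k⁻¹) none = none := by
    rw [Perm.mul_apply, Perm.mul_apply, hi _ _ k0, hx, k0]
  have e1 : (k * g * k⁻¹) (some (0, 0)) = some (0, 0) := by
    rw [Perm.mul_apply, Perm.mul_apply, hi _ _ k1, hy, k1]
  obtain ⟨κ, hκ, hκ'⟩ := suz_fix_two hθ hF hm e0 e1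
  have hkz : k z ≠ none := by
    rw [← k0]
    exact k.injective.ne (Ne.symm hxz)
  obtain ⟨⟨a, b⟩, hab⟩ := Option.ne_none_iff_exists'.mp hkz
  have hab0 : ¬ (a = 0 ∧ b = 0) := by
    rintro ⟨rfl, rfl⟩
    rw [← k1] at hab
    exact hyz (k.injective hab).symm
  have e2 : (k * g * k⁻¹) (some (a, b)) = some (a, b) := by
    rw [Perm.mul_apply, Perm.mul_apply, hi _ _ hab, hz, hab]
  rw [hκ'] at e2
  simp only [Option.some.injEq, Prod.mk.injEq] at e2
  have hκ1 : κ = 1 := by
    by_cases ha : a = 0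
    · have hb : b ≠ 0 := fun h => hab0 ⟨ha, h⟩
      apply suz_mul_theta hθ
      have := e2.2
      exact mul_right_cancel₀ hb (this.trans (one_mul b).symm)
    · exact mul_right_cancel₀ ha (e2.1.trans (one_mul a).symm)
  have h1 : k * g * k⁻¹ = 1 := by
    ext u
    rcases u with _ | ⟨a, b⟩
    · rw [e0]; rfl
    · rw [hκ', hκ1, map_one, one_mul, mul_one, one_mul]; rfl
  have : g = k⁻¹ * (k * g * k⁻¹) * k := by group
  rw [this, h1]
  group

/-- the centraliser of an involution acts freely off its fixed point -/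
theorem suz_cent (hθ : ∀ x, θ (θ x) = x ^ 2) (hF : 2 < Nat.card F)
    {z h : Perm (Option (F × F))} (hz : z ∈ Suz θ) (hh : h ∈ Suz θ) (hz1 : z ≠ 1)
    (hz2 : z * z = 1) (hc : h * z = z * h) {x y : Option (F × F)} (hxy : x ≠ y) (hzx : z x = x)
    (hhy : h y = y) : h = 1 := by
  have h2 := suz_char hθ
  obtain ⟨k, hk, k0, -⟩ := suz_two hθ x y hxy
  have hi : ∀ u v, k u = v → k⁻¹ v = u := by
    intro u v h
    rw [← h, perm_inv_apply]
  -- conjugates
  have hz' : k * z * k⁻¹ ∈ Suz θ := (Suz θ).mul_mem ((Suz θ).mul_mem hk hz) ((Suz θ).inv_mem hk)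
  have hh' : k * h * k⁻¹ ∈ Suz θ := (Suz θ).mul_mem ((Suz θ).mul_mem hk hh) ((Suz θ).inv_mem hk)
  set z' := k * z * k⁻¹ with hzd
  set h' := k * h * k⁻¹ with hhd
  have hz1' : z' ≠ 1 := by
    intro h5
    apply hz1
    have : z = k⁻¹ * z' * k := by rw [hzd]; group
    rw [this, h5]
    group
  have hz2' : z' * z' = 1 := by
    have : z' * z' = k * (z * z) * k⁻¹ := by rw [hzd]; group
    rw [this, hz2]
    group
  have hc' : h' * z' = z' * h' := by
    have e1 : h' * z' = k * (h * z) * k⁻¹ := by rw [hzd, hhd]; group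
    have e2 : z' * h' = k * (z * h) * k⁻¹ := by rw [hzd, hhd]; group
    rw [e1, e2, hc]
  have z0 : z' none = none := by
    rw [hzd, Perm.mul_apply, Perm.mul_apply, hi _ _ k0, hzx, k0]
  have hzz : ∀ u, z' (z' u) = u := fun u => congrArg (fun p : Perm _ => p u) hz2'
  obtain ⟨κ, c, d, hκ, hzab⟩ := suz_fix_one hθ hF hz' z0
  -- `κ = 1`, `c = 0`
  have hκ1 : κ = 1 := by
    have e1 := hzz (some (0, 0))
    have e2 := hzz (some (1, 0))
    rw [hzab, hzab] at e1 e2
    simp only [Option.some.injEq, Prod.mk.injEq] at e1 e2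
    have e3 : (κ - 1) ^ 2 = 0 := by
      linear_combination e2.1 - e1.1 - (κ - 1) * h2
    exact sub_eq_zero.mp ((pow_eq_zero_iff (by norm_num)).mp e3)
  have hc0 : c = 0 := by
    have e1 := hzz (some (0, 0))
    rw [hzab, hzab, hκ1] at e1
    simp only [Option.some.injEq, Prod.mk.injEq, map_one, one_mul, mul_one, mul_zero,
      add_zero, zero_add] at e1
    have e2 : θ c * c = 0 := by linear_combination e1.2 - d * h2
    rcases mul_eq_zero.mp e2 with h5 | h5
    · exact (map_eq_zero_iff θ θ.injective).mp h5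
    · exact h5
  have hzab' : ∀ a b, z' (some (a, b)) = some (a, b + d) := by
    intro a b
    rw [hzab, hκ1, hc0]
    simp
  have hd0 : d ≠ 0 := by
    rintro rfl
    apply hz1'
    ext u
    rcases u with _ | ⟨a, b⟩
    · rw [z0]; rfl
    · rw [hzab', add_zero]; rfl
  -- `h'` fixes infinity
  have hcu : ∀ u, h' (z' u) = z' (h' u) := fun u => congrArg (fun p : Perm _ => p u) hc'
  have h0 : h' none = none := by
    have e1 := hcu none
    rw [z0] at e1
    rcases hu : h' none with _ | ⟨a, b⟩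
    · rfl
    · rw [hu, hzab'] at e1
      simp only [Option.some.injEq, Prod.mk.injEq, left_eq_add, true_and] at e1
      exact absurd e1 hd0
  obtain ⟨κ', c', d', hκ', hhab⟩ := suz_fix_one hθ hF hh' h0
  have hκ'1 : κ' = 1 := by
    have e1 := hcu (some (0, 0))
    rw [hzab', hhab, hhab, hzab'] at e1
    simp only [Option.some.injEq, Prod.mk.injEq] at e1
    apply suz_mul_theta hθ
    have e2 : κ' * θ κ' * d = 1 * d := by linear_combination e1.2
    exact mul_right_cancel₀ hd0 e2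
  have hky : k y ≠ none := by
    rw [← k0]
    exact k.injective.ne (Ne.symm hxy)
  obtain ⟨⟨a, b⟩, hab⟩ := Option.ne_none_iff_exists'.mp hky
  have e2 : h' (some (a, b)) = some (a, b) := by
    rw [hhd, Perm.mul_apply, Perm.mul_apply, hi _ _ hab, hhy, hab]
  rw [hhab, hκ'1] at e2
  simp only [Option.some.injEq, Prod.mk.injEq, map_one, one_mul, mul_one] at e2
  have hc'0 : c' = 0 := by linear_combination e2.1
  have hd'0 : d' = 0 := by
    have := e2.2
    rw [hc'0, map_zero, zero_mul, add_zero] at this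
    linear_combination this
  have h1 : h' = 1 := by
    ext u
    rcases u with _ | ⟨a, b⟩
    · rw [h0]; rfl
    · rw [hhab, hκ'1, hc'0, hd'0]
      simp
  have : h = k⁻¹ * h' * k := by rw [hhd]; group
  rw [this, h1]
  group

/-- the first coordinates are a system of imprimitivity of the point stabiliser -/
theorem asuz_fix_one (hθ : ∀ x, θ (θ x) = x ^ 2) (hF : 2 < Nat.card F)
    {g : Perm (Option (F × F))} (hg : g ∈ ASuz θ) (h0 : g none = none) :
    ∀ a b b' : F, ∃ c d d', g (some (a, b)) = some (c, d) ∧ g (some (a, b')) = some (c, d') := by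
  have hgn : g (some (0, 0)) ≠ none := by
    rw [← h0]
    exact g.injective.ne (by simp)
  obtain ⟨⟨c, d⟩, hcd⟩ := Option.ne_none_iff_exists'.mp hgn
  obtain ⟨k, hk, k0, k1⟩ := suz_T hθ c d
  have hk' : k ∈ ASuz θ := by
    obtain ⟨A, hA⟩ := hk
    exact ⟨RingEquiv.refl F, A.toAddEquiv, fun c v => A.map_smul c v, hA⟩
  have e0 : (k⁻¹ * g) none = none := by rw [Perm.mul_apply, h0, Perm.inv_eq_iff_eq, k0]
  have e1 : (k⁻¹ * g) (some (0, 0)) = some (0, 0) := by
    rw [Perm.mul_apply, hcd, Perm.inv_eq_iff_eq, k1, mul_zero, add_zero, zero_add, zero_add]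
  obtain ⟨σ, A, hA, hA'⟩ := (ASuz θ).mul_mem ((ASuz θ).inv_mem hk') hg
  obtain ⟨κ, m, ν, l, μ, ρ, hκ, hgab, -⟩ := asuz_shape hθ hF hA hA' e0 e1
  intro a b b'
  have h5 := hgab a b
  have h6 := hgab a b'
  rw [Perm.mul_apply, Perm.inv_eq_iff_eq, k1] at h5 h6
  exact ⟨_, _, _, h5, h6⟩

theorem asuz_not_prim (hθ : ∀ x, θ (θ x) = x ^ 2) (hF : 2 < Nat.card F)
    {G : Subgroup (Perm (Option (F × F)))} (hG : G ≤ ASuz θ) : ¬ TPrimitive G 2 := by
  intro hp
  rw [tPrimitive_iff] at hp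
  obtain ⟨-, h⟩ := hp {none} (by simp)
  have hmem : ∀ x : Option (F × F), x ∉ (({none} : Finset (Option (F × F))) : Set _) ↔
      ∃ a b, x = some (a, b) := by
    intro x
    rcases x with _ | ⟨a, b⟩
    · simp
    · simp
  rcases h (fun x y => ∃ a b b', x = some (a, b) ∧ y = some (a, b')) (by
      intro x hx
      obtain ⟨a, b, rfl⟩ := (hmem x).mp hx
      exact ⟨a, b, b, rfl, rfl⟩) (by
      rintro x - y - ⟨a, b, b', rfl, rfl⟩
      exact ⟨a, b', b, rfl, rfl⟩) (by
      rintro x - y - z - ⟨a, b, b', rfl, rfl⟩ ⟨c, d, d', h1, rfl⟩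
      simp only [Option.some.injEq, Prod.mk.injEq] at h1
      obtain ⟨rfl, rfl⟩ := h1
      exact ⟨a, b, d', rfl, rfl⟩) (by
      rintro g hg hfix x - y - ⟨a, b, b', rfl, rfl⟩
      obtain ⟨c, d, d', h1, h2⟩ := asuz_fix_one hθ hF (hG hg) (hfix none (by simp)) a b b'
      exact ⟨c, d, d', h1, h2⟩) with h1 | h1
  · have := h1 (some (0, 0)) ((hmem _).mpr ⟨0, 0, rfl⟩) (some (0, 1)) ((hmem _).mpr ⟨0, 1, rfl⟩)
      ⟨0, 0, 1, rfl, rfl⟩
    simp at this
  · obtain ⟨a, b, b', h2, h3⟩ := h1 (some (0, 0)) ((hmem _).mpr ⟨0, 0, rfl⟩) (some (1, 0))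
      ((hmem _).mpr ⟨1, 0, rfl⟩)
    simp only [Option.some.injEq, Prod.mk.injEq] at h2 h3
    have : (0 : F) = 1 := h2.1.trans h3.1.symm
    exact zero_ne_one this

end Pool.Agent.H922
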