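import Mathlib
import Pool.Agent.H922.Suz3

set_option autoImplicit false
set_option linter.style.haveILetI false
set_option linter.unusedVariables false
set_option linter.unusedSectionVars false

/-!
# The Suzuki groups: relations between pairs with a common point
-/

namespace Pool.Agent.H922

open Equiv MulAction

universe u

variable {F : Type u} [Field F] [Finite F] {θ : F ≃+* F}

theorem suz_surj1 (hθ : ∀ x, θ (θ x) = x ^ 2) {y : F} (hy : y ≠ 0) :
    ∃ k, k ≠ 0 ∧ k * θ k = y := by
  have hinj : Function.Injective (fun k : Fˣ => k * Units.map (θ : F →* F) k) := by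
    intro k l h
    have h1 := congrArg (fun u : Fˣ => (u : F)) h
    simp only [Units.val_mul, Units.coe_map, MonoidHom.coe_coe] at h1
    have hl : (l : F) ≠ 0 := l.ne_zero
    have hθl : θ (l : F) ≠ 0 := fun h5 => hl ((map_eq_zero_iff θ θ.injective).mp h5)
    have h2 : ((k : F) / l) * θ ((k : F) / l) = 1 := by
      rw [map_div₀, div_mul_div_comm, div_eq_one_iff_eq (mul_ne_zero hl hθl)]
      exact h1
    have h3 := suz_mul_theta hθ h2
    rw [div_eq_one_iff_eq hl] at h3
    exact Units.ext h3
  obtain ⟨k, hk⟩ := (Finite.injective_iff_surjective.mp hinj) (Units.mk0 y hy)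
  refine ⟨k, k.ne_zero, ?_⟩
  exact congrArg (fun u : Fˣ => (u : F)) hk

theorem suz_surj2 (hθ : ∀ x, θ (θ x) = x ^ 2) {s : F} (hs : s ≠ 0) :
    ∃ y, y ≠ 0 ∧ y / θ y = s := by
  have hinj : Function.Injective (fun k : Fˣ => k / Units.map (θ : F →* F) k) := by
    intro k l h
    have h1 := congrArg (fun u : Fˣ => (u : F)) h
    simp only [Units.val_div_eq_div_val, Units.coe_map, MonoidHom.coe_coe] at h1
    have hl : (l : F) ≠ 0 := l.ne_zero
    have hk : (k : F) ≠ 0 := k.ne_zero
    have hθl : θ (l : F) ≠ 0 := fun h5 => hl ((map_eq_zero_iff θ θ.injective).mp h5)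
    have hθk : θ (k : F) ≠ 0 := fun h5 => hk ((map_eq_zero_iff θ θ.injective).mp h5)
    have h2 : θ ((k : F) / l) = (k : F) / l := by
      rw [map_div₀]
      rw [div_eq_div_iff hθk hθl] at h1
      rw [div_eq_div_iff hθl hl]
      linear_combination -h1
    rcases suz_fix hθ h2 with h3 | h3
    · exact absurd h3 (div_ne_zero hk hl)
    · rw [div_eq_one_iff_eq hl] at h3
      exact Units.ext h3
  obtain ⟨k, hk⟩ := (Finite.injective_iff_surjective.mp hinj) (Units.mk0 s hs)
  refine ⟨k, k.ne_zero, ?_⟩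
  have := congrArg (fun u : Fˣ => (u : F)) hk
  simp only [Units.val_div_eq_div_val, Units.coe_map, MonoidHom.coe_coe, Units.val_mk0] at this
  exact this

variable [DecidableEq F]

/-- relation on pairs, with the side conditions -/
def PR (r : Finset (Option (F × F)) → Finset (Option (F × F)) → Prop)
    (x y z w : Option (F × F)) : Prop := x ≠ y ∧ z ≠ w ∧ r {x, y} {z, w}

variable {r : Finset (Option (F × F)) → Finset (Option (F × F)) → Prop}

theorem PR.symm (hr : InvRel (Suz θ) 2 r) {x y z w : Option (F × F)} (h : PR r x y z w) :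
    PR r z w x y :=
  ⟨h.2.1, h.1, hr.symm _ _ (Finset.card_pair h.1) (Finset.card_pair h.2.1) h.2.2⟩

theorem PR.trans (hr : InvRel (Suz θ) 2 r) {x y z w u v : Option (F × F)} (h : PR r x y z w)
    (h' : PR r z w u v) : PR r x y u v :=
  ⟨h.1, h'.2.1, hr.trans _ _ _ (Finset.card_pair h.1) (Finset.card_pair h.2.1)
    (Finset.card_pair h'.2.1) h.2.2 h'.2.2⟩

theorem PR.map (hr : InvRel (Suz θ) 2 r) {g : Perm (Option (F × F))} (hg : g ∈ Suz θ)
    {x y z w : Option (F × F)} (h : PR r x y z w) : PR r (g x) (g y) (g z) (g w) := by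
  refine ⟨g.injective.ne h.1, g.injective.ne h.2.1, ?_⟩
  have := hr.inv g hg _ _ (Finset.card_pair h.1) (Finset.card_pair h.2.1) h.2.2
  rwa [map_pair, map_pair] at this

theorem PR.swap1 {x y z w : Option (F × F)} (h : PR r x y z w) : PR r y x z w :=
  ⟨Ne.symm h.1, h.2.1, by rw [Finset.pair_comm y x]; exact h.2.2⟩

theorem PR.swap2 {x y z w : Option (F × F)} (h : PR r x y z w) : PR r x y w z :=
  ⟨h.1, Ne.symm h.2.1, by rw [Finset.pair_comm w z]; exact h.2.2⟩

theorem PR.refl (hr : InvRel (Suz θ) 2 r) {x y : Option (F × F)} (h : x ≠ y) : PR r x y x y :=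
  ⟨h, h, hr.refl _ (Finset.card_pair h)⟩

/-- if two pairs with a common point are related then all pairs are related -/
theorem suz_case_one (hθ : ∀ x, θ (θ x) = x ^ 2) (hF : 2 < Nat.card F)
    (hr : InvRel (Suz θ) 2 r) {u v w : Option (F × F)} (huw : u ≠ w) (hvw : v ≠ w)
    (h : PR r u v u w) : ∀ S T, S.card = 2 → T.card = 2 → r S T := by
  have h2 := suz_char hθ
  have hns : ∀ p : F × F, (none : Option (F × F)) ≠ some p := fun p => by simp
  -- move to the base points
  obtain ⟨x0, y0, hxy0, hB0⟩ : ∃ x0 y0 : F, ¬ (x0 = 0 ∧ y0 = 0) ∧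
      PR r none (some (0, 0)) none (some (x0, y0)) := by
    obtain ⟨g, hg, g0, g1⟩ := suz_two hθ u v h.1
    have h5 := h.map hr hg
    rw [g0, g1] at h5
    have hgw : g w ≠ none := by rw [← g0]; exact g.injective.ne (Ne.symm huw)
    obtain ⟨⟨a, b⟩, hab⟩ := Option.ne_none_iff_exists'.mp hgw
    rw [hab] at h5
    refine ⟨a, b, ?_, h5⟩
    rintro ⟨rfl, rfl⟩
    rw [← g1] at hab
    exact hvw (g.injective hab).symm
  -- the class of the origin
  have BT : ∀ a b c d : F, PR r none (some (0, 0)) none (some (c, d)) →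
      PR r none (some (0, 0)) none (some (a, b)) →
      PR r none (some (0, 0)) none (some (a + c, b + d + θ c * a)) := by
    intro a b c d hc ha
    obtain ⟨g, hg, g0, g1⟩ := suz_T hθ c d
    have h5 := ha.map hr hg
    rw [g0, g1, g1, mul_zero, add_zero, zero_add, zero_add] at h5
    exact hc.trans hr h5
  have BH : ∀ k a b : F, k ≠ 0 → PR r none (some (0, 0)) none (some (a, b)) →
      PR r none (some (0, 0)) none (some (k * a, k * θ k * b)) := by
    intro k a b hk ha
    obtain ⟨g, hg, g0, g1⟩ := suz_H hθ k hk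
    have h5 := ha.map hr hg
    rw [g0, g1, g1, mul_zero, mul_zero] at h5
    exact h5
  -- Step 1
  obtain ⟨y1, hy1, hB1⟩ : ∃ y1 : F, y1 ≠ 0 ∧ PR r none (some (0, 0)) none (some (0, y1)) := by
    by_cases hx0 : x0 = 0
    · subst hx0
      exact ⟨y0, fun h5 => hxy0 ⟨rfl, h5⟩, hB0⟩
    · have h5 := BT x0 y0 x0 y0 hB0 hB0
      have e1 : x0 + x0 = 0 := by linear_combination x0 * h2
      have e2 : y0 + y0 + θ x0 * x0 = θ x0 * x0 := by linear_combination y0 * h2
      rw [e1, e2] at h5
      exact ⟨θ x0 * x0, mul_ne_zero (fun h6 => hx0 ((map_eq_zero_iff θ θ.injective).mp h6)) hx0,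
        h5⟩
  -- Step 2
  have hB2 : ∀ y : F, PR r none (some (0, 0)) none (some (0, y)) := by
    intro y
    by_cases hy : y = 0
    · rw [hy]
      exact PR.refl hr (hns _)
    obtain ⟨k, hk, hky⟩ := suz_surj1 hθ (div_ne_zero hy hy1)
    have h5 := BH k 0 y1 hk hB1
    rw [mul_zero, hky, div_mul_cancel₀ _ hy1] at h5
    exact h5
  -- translated
  have R1 : ∀ c y y' : F, PR r none (some (c, y)) none (some (c, y')) := by
    intro c y y'
    obtain ⟨g, hg, g0, g1⟩ := suz_T hθ c y
    have h5 := (hB2 (y + y')).map hr hg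
    rw [g0, g1, g1, mul_zero, add_zero, zero_add, zero_add, add_zero] at h5
    have e2 : y + y' + y = y' := by linear_combination y * h2
    rw [e2] at h5
    exact h5
  by_cases hex : ∃ x y : F, x ≠ 0 ∧ PR r none (some (0, 0)) none (some (x, y))
  · -- Step 3: everything is related
    obtain ⟨x, y, hx, hxy⟩ := hex
    have hall : ∀ p, PR r none (some (0, 0)) none (some p) := by
      rintro ⟨a, b⟩
      by_cases ha : a = 0
      · rw [ha]; exact hB2 b
      have h5 := BH (a / x) x y (div_ne_zero ha hx) hxy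
      rw [div_mul_cancel₀ _ hx] at h5
      exact h5.trans hr (R1 a _ b)
    have hthree : ∀ u v w : Option (F × F), u ≠ v → u ≠ w → PR r u v u w := by
      intro u v w huv huw
      obtain ⟨g, hg, g0, g1⟩ := suz_two hθ u v huv
      have hgw : g w ≠ none := by rw [← g0]; exact g.injective.ne (Ne.symm huw)
      obtain ⟨p, hp⟩ := Option.ne_none_iff_exists'.mp hgw
      have h5 := (hall p).map hr ((Suz θ).inv_mem hg)
      rw [← hp, ← g0, ← g1, perm_inv_apply, perm_inv_apply, perm_inv_apply] at h5
      exact h5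
    intro S T hS hT
    obtain ⟨a, b, hab, rfl⟩ := Finset.card_eq_two.mp hS
    obtain ⟨c, d, hcd, rfl⟩ := Finset.card_eq_two.mp hT
    by_cases hac : a = c
    · subst hac
      exact (hthree a b d hab hcd).2.2
    · have h5 := hthree a b c hab hac
      have h6 := hthree c a d (Ne.symm hac) hcd
      exact (h5.trans hr h6.swap1).2.2
  -- Step 4
  exfalso
  push Not at hex
  have R1' : ∀ c y c' y' : F, PR r none (some (c, y)) none (some (c', y')) → c = c' := by
    intro c y c' y' h5
    obtain ⟨g, hg, g0, g1⟩ := suz_T hθ c (y + θ c * c)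
    have h6 := h5.map hr hg
    rw [g0, g1, g1] at h6
    have e1 : c + c = 0 := by linear_combination c * h2
    have e2 : y + (y + θ c * c) + θ c * c = 0 := by
      linear_combination (y + θ c * c) * h2
    rw [e1, e2] at h6
    by_contra hne
    refine hex (c' + c) _ ?_ h6
    intro h7
    apply hne
    linear_combination -h7 + c * h2
  obtain ⟨w, hw, w0, w1, w2, -⟩ := suz_W hθ
  -- relation (3)
  have R3 : ∀ x y : F, y ≠ 0 → PR r (some (0, 0)) (some (x, y)) (some (0, 0))
      (some (0, 1 / (y / suzN θ x y * θ (y / suzN θ x y)))) := by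
    intro x y hy
    have hN : suzN θ x y ≠ 0 := suzN_ne hθ (fun h5 => hy h5.2)
    set c := y / suzN θ x y with hc
    have hc0 : c ≠ 0 := div_ne_zero hy hN
    have hθc0 : θ c ≠ 0 := fun h6 => hc0 ((map_eq_zero_iff θ θ.injective).mp h6)
    have h5 := (R1 c (x / suzN θ x y) 0).map hr hw
    have e1 : w (some (c, x / suzN θ x y)) = some (x, y) := by
      rw [w2 _ _ (fun h6 => hc0 h6.1), hc, suzN_inv hθ hN]
      congr 2
      · field_simp
      · field_simp
    have e2 : w (some (c, 0)) = some (0, 1 / (c * θ c)) := by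
      rw [w2 _ _ (fun h6 => hc0 h6.1)]
      have : suzN θ c 0 = θ c * c ^ 2 := by
        unfold suzN
        rw [mul_zero, map_zero, zero_add, add_zero]
      rw [this, zero_div]
      congr 2
      field_simp
    rw [w0, e1, e2] at h5
    exact h5
  -- relation (2)
  have R2 : ∀ s : F, s ≠ 0 → PR r (some (0, 0)) none (some (0, 0)) (some (s, 0)) := by
    intro s hs
    obtain ⟨y, hy, hys⟩ := suz_surj2 hθ hs
    have h5 := (hB2 y).map hr hw
    have e1 : w (some (0, y)) = some (s, 0) := by
      rw [w2 _ _ (fun h6 => hy h6.2)]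
      have : suzN θ 0 y = θ y := by
        unfold suzN
        rw [map_zero, zero_mul, zero_mul, zero_add, zero_add]
      rw [this, zero_div, hys]
    rw [w0, w1, e1] at h5
    exact h5
  -- relation (7)
  have R7 : ∀ x : F, x ≠ 0 → PR r (some (0, 0)) (some (0, x * θ x)) none (some (x, 0)) := by
    intro x hx
    have hθx : θ x ≠ 0 := fun h6 => hx ((map_eq_zero_iff θ θ.injective).mp h6)
    have h5 := R3 x (x * θ x) (mul_ne_zero hx hθx)
    have e1 : suzN θ x (x * θ x) = θ x * x ^ 2 := by
      unfold suzN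
      rw [map_mul, hθ]
      linear_combination (x ^ 2 * θ x) * h2
    have e2 : x * θ x / (θ x * x ^ 2) = 1 / x := by field_simp
    have e3 : 1 / (1 / x * θ (1 / x)) = x * θ x := by
      rw [map_div₀, map_one]; field_simp
    rw [e1, e2, e3] at h5
    -- translate by `(x, 0)`
    obtain ⟨g, hg, g0, g1⟩ := suz_T hθ x 0
    have h6 := h5.map hr hg
    rw [g1, g1, g1] at h6
    have f1 : x + x = 0 := by linear_combination x * h2
    have f2 : x * θ x + 0 + θ x * x = 0 := by linear_combination (x * θ x) * h2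
    rw [f1, f2, zero_add, mul_zero, add_zero, add_zero, add_zero] at h6
    -- combine with (2)
    have h7 := ((R2 x hx).swap2.trans hr h6)
    -- apply the translation moving `(x, 0)` to the origin
    obtain ⟨k, hk, k0, k1⟩ := suz_T hθ x (x * θ x)
    have h8 := h7.map hr hk
    rw [k0, k1, k1, k1, f1] at h8
    have f3 : 0 + x * θ x + θ x * x = 0 := by linear_combination (x * θ x) * h2
    have f4 : x * θ x + 0 + x * θ x + θ x * x = x * θ x := by linear_combination (x * θ x) * h2
    rw [f3, f4, mul_zero, add_zero, zero_add, zero_add] at h8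
    exact (h8.symm hr).swap2.trans hr (R1 x (x * θ x) 0)
  -- relation (8)
  have R8 : ∀ x y : F, y ≠ 0 → PR r (some (0, 0)) (some (x, y)) none
      (some (suzN θ x y / y, 0)) := by
    intro x y hy
    have hN : suzN θ x y ≠ 0 := suzN_ne hθ (fun h5 => hy h5.2)
    have h5 := R3 x y hy
    have h6 := R7 (suzN θ x y / y) (div_ne_zero hN hy)
    have e1 : 1 / (y / suzN θ x y * θ (y / suzN θ x y)) =
        suzN θ x y / y * θ (suzN θ x y / y) := by
      have hθy : θ y ≠ 0 := fun h6 => hy ((map_eq_zero_iff θ θ.injective).mp h6)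
      have hθN : θ (suzN θ x y) ≠ 0 := fun h6 => hN ((map_eq_zero_iff θ θ.injective).mp h6)
      rw [map_div₀, map_div₀]
      field_simp
    rw [e1] at h5
    exact h5.trans hr h6
  -- relation (9)
  have R9 : ∀ x y : F, y + x * θ x ≠ 0 → PR r (some (0, 0)) (some (x, y)) none
      (some (suzN θ x y / (y + x * θ x) + x, 0)) := by
    intro x y hy
    have h5 := R8 x (y + x * θ x) hy
    have e1 : suzN θ x (y + x * θ x) = suzN θ x y := by
      unfold suzN
      rw [map_add, map_mul, hθ]
      linear_combination (x ^ 2 * θ x) * h2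
    rw [e1] at h5
    obtain ⟨g, hg, g0, g1⟩ := suz_T hθ x y
    have h6 := h5.map hr hg
    have f1 : x + x = 0 := by linear_combination x * h2
    have f2 : y + x * θ x + y + θ x * x = 0 := by linear_combination (y + x * θ x) * h2
    rw [g0, g1, g1, g1, f1, f2, mul_zero, add_zero, zero_add, zero_add] at h6
    exact h6.swap1.trans hr (R1 _ _ 0)
  -- the contradiction
  obtain ⟨y, hy0, hy1'⟩ := suz_exists_ne hF
  have hy2 : y + 1 * θ 1 ≠ 0 := by
    rw [map_one, one_mul]
    intro h5
    apply hy1'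
    linear_combination h5 - h2
  have h5 := R1' _ _ _ _ (((R8 1 y hy0).symm hr).trans hr (R9 1 y hy2))
  rw [map_one, one_mul] at h5 hy2
  have h6 : θ y = y ^ 2 + 1 := by
    unfold suzN at h5
    rw [map_one] at h5
    field_simp at h5
    linear_combination h5 - h2
  have h7 : y ^ 2 = y ^ 4 := by
    have h8 : θ (θ y) = θ y ^ 2 + 1 := by
      nth_rewrite 1 [h6]
      rw [map_add, map_pow, map_one]
    rw [hθ, h6] at h8
    linear_combination h8 + (y ^ 2 + 1) * h2
  have h9 : (y ^ 2) * (y - 1) ^ 2 = 0 := by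
    linear_combination -h7 + (y ^ 2 - y ^ 3) * h2
  rcases mul_eq_zero.mp h9 with h10 | h10
  · exact hy0 ((pow_eq_zero_iff (by norm_num)).mp h10)
  · exact hy1' (sub_eq_zero.mp ((pow_eq_zero_iff (by norm_num)).mp h10))

end Pool.Agent.H922
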