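import Mathlib

set_option autoImplicit false

open Equiv MulAction

namespace Pool.Agent.H619.SZC

variable {Y : Type*} [Fintype Y] [DecidableEq Y]

omit [Fintype Y] [DecidableEq Y] in
theorem inv_app (g : Perm Y) (x : Y) : g⁻¹ (g x) = x := g.symm_apply_apply x

open Classical in
/-- the elements of a subgroup as a finite set -/
noncomputable def el (G : Subgroup (Perm Y)) : Finset (Perm Y) :=
  Finset.univ.filter (fun g => g ∈ G)

theorem mem_el {G : Subgroup (Perm Y)} {g : Perm Y} : g ∈ el G ↔ g ∈ G := by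
  unfold el
  simp

theorem card_el (G : Subgroup (Perm Y)) : Nat.card G = (el G).card := by
  classical
  rw [Nat.card_eq_fintype_card, ← Fintype.card_coe]
  exact Fintype.card_congr (Equiv.subtypeEquivRight fun g => mem_el.symm)

open Classical in
/-- the orbit of a point as a finite set -/
noncomputable def orb (G : Subgroup (Perm Y)) (x : Y) : Finset Y :=
  Finset.univ.filter (fun y => ∃ g ∈ G, g x = y)

theorem mem_orb {G : Subgroup (Perm Y)} {x y : Y} : y ∈ orb G x ↔ ∃ g ∈ G, g x = y := by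
  unfold orb
  simp

open Classical in
/-- the stabiliser of a point as a finite set -/
noncomputable def stb (G : Subgroup (Perm Y)) (x : Y) : Finset (Perm Y) :=
  Finset.univ.filter (fun g => g ∈ G ∧ g x = x)

theorem mem_stb {G : Subgroup (Perm Y)} {x : Y} {g : Perm Y} :
    g ∈ stb G x ↔ g ∈ G ∧ g x = x := by
  unfold stb
  simp

/-- orbit-stabiliser -/
theorem orb_stb (G : Subgroup (Perm Y)) (x : Y) :
    (el G).card = (orb G x).card * (stb G x).card := by
  classical
  have h1 : ∀ g ∈ el G, g x ∈ orb G x := fun g hg => mem_orb.2 ⟨g, mem_el.1 hg, rfl⟩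
  rw [Finset.card_eq_sum_card_fiberwise (f := fun g : Perm Y => g x) (t := orb G x) h1]
  rw [Finset.sum_const_nat (m := (stb G x).card)]
  intro y hy
  obtain ⟨g₀, hg₀, hx⟩ := mem_orb.1 hy
  refine Finset.card_bij (fun g _ => g₀⁻¹ * g) ?_ ?_ ?_
  · intro g hg
    rw [Finset.mem_filter, mem_el] at hg
    rw [mem_stb]
    refine ⟨G.mul_mem (G.inv_mem hg₀) hg.1, ?_⟩
    rw [Perm.mul_apply, hg.2, ← hx, inv_app]
  · intro g _ g' _ h
    exact mul_left_cancel h
  · intro k hk
    rw [mem_stb] at hk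
    refine ⟨g₀ * k, ?_, by group⟩
    rw [Finset.mem_filter, mem_el]
    refine ⟨G.mul_mem hg₀ hk.1, ?_⟩
    rw [Perm.mul_apply, hk.2, hx]

/-- the orbit of a point is invariant -/
theorem orb_inv {G : Subgroup (Perm Y)} {x y : Y} {g : Perm Y} (hg : g ∈ G) (hy : y ∈ orb G x) :
    g y ∈ orb G x := by
  obtain ⟨k, hk, rfl⟩ := mem_orb.1 hy
  exact mem_orb.2 ⟨g * k, G.mul_mem hg hk, rfl⟩

theorem self_mem_orb {G : Subgroup (Perm Y)} {x : Y} : x ∈ orb G x :=
  mem_orb.2 ⟨1, G.one_mem, rfl⟩

theorem orb_symm {G : Subgroup (Perm Y)} {x y : Y} (h : y ∈ orb G x) : x ∈ orb G y := by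
  obtain ⟨g, hg, rfl⟩ := mem_orb.1 h
  exact mem_orb.2 ⟨g⁻¹, G.inv_mem hg, by simp⟩

theorem orb_trans {G : Subgroup (Perm Y)} {x y z : Y} (h : y ∈ orb G x) (h' : z ∈ orb G y) :
    z ∈ orb G x := by
  obtain ⟨g, hg, rfl⟩ := mem_orb.1 h'
  exact orb_inv hg h

/-- a free action on a finite set -/
theorem free_dvd (G : Subgroup (Perm Y)) : ∀ (N : ℕ) (D : Finset Y), D.card = N →
    (∀ g ∈ G, ∀ x ∈ D, g x ∈ D) → (∀ g ∈ G, ∀ x ∈ D, g x = x → g = 1) →
    (el G).card ∣ D.card := by
  classical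
  intro N
  induction N using Nat.strong_induction_on with
  | _ N ih =>
    intro D hD hinv hfree
    rcases D.eq_empty_or_nonempty with h0 | ⟨x, hx⟩
    · rw [h0]
      simp
    · have hsub : orb G x ⊆ D := by
        intro y hy
        obtain ⟨g, hg, rfl⟩ := mem_orb.1 hy
        exact hinv g hg x hx
      have hstb : stb G x = {1} := by
        ext g
        rw [mem_stb, Finset.mem_singleton]
        constructor
        · rintro ⟨hg, hgx⟩
          exact hfree g hg x hx hgx
        · rintro rfl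
          exact ⟨G.one_mem, rfl⟩
      have hcard : (el G).card = (orb G x).card := by
        rw [orb_stb G x, hstb, Finset.card_singleton, mul_one]
      have hpos : 0 < (orb G x).card := Finset.card_pos.2 ⟨x, self_mem_orb⟩
      have hle : (orb G x).card ≤ D.card := Finset.card_le_card hsub
      have h1 : (D \ orb G x).card = D.card - (orb G x).card := Finset.card_sdiff_of_subset hsub
      have h2 := ih (D \ orb G x).card (by omega) (D \ orb G x) rfl (by
        intro g hg y hy
        rw [Finset.mem_sdiff] at hy ⊢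
        refine ⟨hinv g hg y hy.1, fun hcon => hy.2 ?_⟩
        have := orb_inv (G.inv_mem hg) hcon
        simpa using this) (by
        intro g hg y hy hgy
        exact hfree g hg y (Finset.mem_sdiff.1 hy).1 hgy)
      have h3 : D.card = (D \ orb G x).card + (el G).card := by omega
      rw [h3]
      exact dvd_add h2 dvd_rfl

/-- the arithmetic -/
theorem arith {f q o o' s u : ℕ} (hq : q = 2 ^ f) (hf : 2 ≤ f) (h1 : q + 1 ≤ o)
    (h2 : o * (q - 1) ≤ s * (q - 3 + o)) (h3 : s ∣ q ^ 2) (h4 : (q - 1) ∣ o')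
    (h5 : s ∣ o' - 1) (h5' : 1 ≤ o') (h6 : o * (q - 1) = o' * u) (h6' : s ≤ u)
    (h7 : o + o' ≤ q ^ 2 + 1) : False := by
  have hq4 : 4 ≤ q := by
    rw [hq]
    calc 4 = 2 ^ 2 := by norm_num
      _ ≤ 2 ^ f := Nat.pow_le_pow_right (by norm_num) hf
  obtain ⟨j, hj, hs⟩ : ∃ j ≤ 2 * f, s = 2 ^ j := by
    rw [hq, ← pow_mul, mul_comm f 2] at h3
    exact (Nat.dvd_prime_pow Nat.prime_two).1 h3
  -- `q ∣ s`
  have hqs : q ∣ s := by
    rw [hq, hs]
    apply pow_dvd_pow
    by_contra hcon
    push Not at hcon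
    have h8 : 2 * s ≤ q := by
      rw [hq, hs, ← pow_succ']
      exact Nat.pow_le_pow_right (by norm_num) hcon
    obtain ⟨r, rfl⟩ : ∃ r, q = r + 4 := ⟨q - 4, by omega⟩
    obtain ⟨w, rfl⟩ : ∃ w, o = r + 5 + w := ⟨o - (r + 5), by omega⟩
    have e1 : r + 4 - 1 = r + 3 := by omega
    have e2 : r + 4 - 3 = r + 1 := by omega
    rw [e1, e2] at h2
    have h9 : 2 * s * (r + 1 + (r + 5 + w)) ≤ (r + 4) * (r + 1 + (r + 5 + w)) :=
      Nat.mul_le_mul_right _ h8
    nlinarith
  obtain ⟨m, hm⟩ := h4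
  have hd : q ∣ o' - 1 := hqs.trans h5
  have hm1 : q ∣ m + 1 := by
    have e1 : (q - 1) * m + (m + 1) = q * m + 1 := by
      obtain ⟨r, rfl⟩ : ∃ r, q = r + 1 := ⟨q - 1, by omega⟩
      simp only [Nat.add_sub_cancel]
      ring
    have e2 : (o' - 1) + (m + 1) = q * m := by omega
    exact (Nat.dvd_add_right hd).1 (by rw [e2]; exact dvd_mul_right q m)
  have hm2 : q ≤ m + 1 := Nat.le_of_dvd (Nat.succ_pos m) hm1
  have hsq : q ≤ s := Nat.le_of_dvd (by rw [hs]; positivity) hqs
  obtain ⟨r, rfl⟩ : ∃ r, q = r + 4 := ⟨q - 4, by omega⟩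
  obtain ⟨w, rfl⟩ : ∃ w, m = r + 3 + w := ⟨m - (r + 3), by omega⟩
  have e1 : r + 4 - 1 = r + 3 := by omega
  rw [e1] at h6 hm
  have h8 : (r + 3) * (r + 3) ≤ o' := by rw [hm]; exact Nat.mul_le_mul_left _ (by omega)
  have h9 : (r + 3) * (r + 3) * (r + 4) ≤ o * (r + 3) := by
    rw [h6]
    exact Nat.mul_le_mul h8 (hsq.trans h6')
  have h10 : (r + 3) * (r + 4) ≤ o := by
    refine Nat.le_of_mul_le_mul_right (c := r + 3) ?_ (by omega)
    calc (r + 3) * (r + 4) * (r + 3) = (r + 3) * (r + 3) * (r + 4) := by ring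
      _ ≤ _ := h9
  nlinarith

theorem szCount {Y : Type*} [Fintype Y] [DecidableEq Y] (f q : ℕ) (hq : q = 2 ^ f) (hf : 2 ≤ f)
    (hY : Fintype.card Y = q ^ 2 + 1) (H : Subgroup (Perm Y)) (a b : Y) (hab : a ≠ b)
    (h1 : ∀ h ∈ H, ∀ x y z : Y, x ≠ y → x ≠ z → y ≠ z → h x = x → h y = y → h z = z → h = 1)
    (h2 : ∀ h ∈ H, h a = a ↔ h b = b)
    (h2' : Nat.card {h : Perm Y // h ∈ H ∧ h a = a} = q - 1)
    (h3 : ∃ z ∈ H, z * z = 1 ∧ z a = b)
    (h4 : ∀ z ∈ H, ∀ h ∈ H, z ≠ 1 → z * z = 1 → h * z = z * h → ∀ c c', c ≠ c' → z c = c →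
      h c' = c' → h = 1)
    (h5 : ∃ h ∈ H, h a ≠ a ∧ h a ≠ b) : False := by
  classical
  have hq4 : 4 ≤ q := by
    rw [hq]
    calc 4 = 2 ^ 2 := by norm_num
      _ ≤ 2 ^ f := Nat.pow_le_pow_right (by norm_num) hf
  have hqe : Even q := by
    rw [hq]
    exact (Nat.even_pow).2 ⟨even_two, by omega⟩
  -- the stabiliser
  have hKcard : (stb H a).card = q - 1 := by
    rw [← h2', Nat.card_eq_fintype_card, ← Fintype.card_coe]
    exact Fintype.card_congr (Equiv.subtypeEquivRight fun g => mem_stb)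
  set K : Subgroup (Perm Y) := H ⊓ stabilizer (Perm Y) a with hKdef
  have memK : ∀ g, g ∈ K ↔ g ∈ H ∧ g a = a := fun g => by
    rw [hKdef, Subgroup.mem_inf, MulAction.mem_stabilizer_iff, Perm.smul_def]
  have hKel : el K = stb H a := by
    ext g
    rw [mem_el, mem_stb, memK]
  have hKc : (el K).card = q - 1 := by rw [hKel, hKcard]
  -- elements of order two do not fix a
  have hodd : ∀ t ∈ H, t * t = 1 → t a = a → t = 1 := by
    intro t ht htt hta
    by_contra hne
    have hord : orderOf t = 2 := orderOf_eq_prime (by rw [sq]; exact htt) hne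
    have htK : t ∈ K := (memK t).2 ⟨ht, hta⟩
    have h6 : orderOf (⟨t, htK⟩ : K) ∣ Nat.card K := orderOf_dvd_natCard _
    rw [Subgroup.orderOf_mk, hord, card_el, hKc] at h6
    obtain ⟨k, hk⟩ := hqe
    omega
  obtain ⟨z, hz, hzz, hza⟩ := h3
  have hz1 : z ≠ 1 := by
    rintro rfl
    exact hab hza
  have hO := orb_stb H a
  rw [hKcard] at hO
  have hbO : b ∈ orb H a := mem_orb.2 ⟨z, hz, hza⟩
  have haO : a ∈ orb H a := self_mem_orb
  -- (2)
  have hab2 : ({a, b} : Finset Y) ⊆ orb H a := by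
    intro x hx
    rw [Finset.mem_insert, Finset.mem_singleton] at hx
    rcases hx with rfl | rfl
    · exact haO
    · exact hbO
  have hcard2 : ({a, b} : Finset Y).card = 2 := Finset.card_pair hab
  have hOab : (orb H a \ {a, b}).card = (orb H a).card - 2 := by
    rw [Finset.card_sdiff_of_subset hab2, hcard2]
  have hKfree : ∀ g ∈ K, ∀ x, x ≠ a → x ≠ b → g x = x → g = 1 := by
    intro g hg x hxa hxb hgx
    obtain ⟨hgH, hga⟩ := (memK g).1 hg
    exact h1 g hgH a b x hab (Ne.symm hxa) (Ne.symm hxb) hga ((h2 g hgH).1 hga) hgx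
  have hdiv1 : (q - 1) ∣ (orb H a).card - 2 := by
    rw [← hKc, ← hOab]
    refine free_dvd K _ _ rfl ?_ ?_
    · intro g hg x hx
      obtain ⟨hgH, hga⟩ := (memK g).1 hg
      have hgb := (h2 g hgH).1 hga
      rw [Finset.mem_sdiff, Finset.mem_insert, Finset.mem_singleton] at hx ⊢
      refine ⟨orb_inv hgH hx.1, fun hcon => hx.2 ?_⟩
      rcases hcon with h | h
      · left
        exact g.injective (h.trans hga.symm)
      · right
        exact g.injective (h.trans hgb.symm)
    · intro g hg x hx hgx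
      rw [Finset.mem_sdiff, Finset.mem_insert, Finset.mem_singleton] at hx
      exact hKfree g hg x (fun h => hx.2 (Or.inl h)) (fun h => hx.2 (Or.inr h)) hgx
  have hO3 : 3 ≤ (orb H a).card := by
    obtain ⟨h, hh, hha, hhb⟩ := h5
    have : ({a, b, h a} : Finset Y) ⊆ orb H a := by
      intro x hx
      rw [Finset.mem_insert, Finset.mem_insert, Finset.mem_singleton] at hx
      rcases hx with rfl | rfl | rfl
      · exact haO
      · exact hbO
      · exact mem_orb.2 ⟨h, hh, rfl⟩
    have h6 := Finset.card_le_card this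
    rw [Finset.card_insert_of_notMem, Finset.card_pair] at h6
    · exact h6
    · exact Ne.symm hhb
    · rw [Finset.mem_insert, Finset.mem_singleton]
      rintro (h | h)
      · exact hab h
      · exact hha h.symm
  have hOq : q + 1 ≤ (orb H a).card := by
    have := Nat.le_of_dvd (by omega) hdiv1
    omega
  -- (3)
  obtain ⟨c, hc⟩ : ∃ c, z c = c := by
    have : Fact (Nat.Prime 2) := ⟨Nat.prime_two⟩
    refine Equiv.Perm.exists_fixed_point_of_prime (p := 2) (n := 1) ?_ (by rw [pow_one, sq, hzz])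
    rw [hY]
    obtain ⟨k, hk⟩ := hqe
    rintro ⟨l, hl⟩
    have : q ^ 2 = 2 * (2 * k * k) := by rw [hk]; ring
    omega
  have hcO : c ∉ orb H a := by
    intro hcon
    obtain ⟨h, hh, hhc⟩ := mem_orb.1 hcon
    have h6 := hodd (h⁻¹ * z * h) (H.mul_mem (H.mul_mem (H.inv_mem hh) hz) hh) (by
      calc h⁻¹ * z * h * (h⁻¹ * z * h) = h⁻¹ * (z * z) * h := by group
        _ = 1 := by rw [hzz]; group) (by
      rw [Perm.mul_apply, Perm.mul_apply, hhc, hc, ← hhc, inv_app])
    apply hz1
    calc z = h * (h⁻¹ * z * h) * h⁻¹ := by group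
      _ = 1 := by rw [h6]; group
  -- involutions
  set T : Finset (Perm Y) := (el H).filter (fun t => t ≠ 1 ∧ t * t = 1) with hT
  have memT : ∀ t, t ∈ T ↔ t ∈ H ∧ t ≠ 1 ∧ t * t = 1 := fun t => by
    rw [hT, Finset.mem_filter, mem_el]
  -- (4)
  have hTup : T.card ≤ (q - 1) + ((orb H a).card - 2) := by
    have h6 : (T.filter (fun t => t a = b)).card ≤ q - 1 := by
      rw [← hKcard]
      refine Finset.card_le_card_of_injOn (fun t => z⁻¹ * t) ?_ ?_
      · intro t ht
        rw [Finset.mem_coe, Finset.mem_filter, memT] at ht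
        show z⁻¹ * t ∈ _
        rw [Finset.mem_coe, mem_stb]
        refine ⟨H.mul_mem (H.inv_mem hz) ht.1.1, ?_⟩
        rw [Perm.mul_apply, ht.2, ← hza, inv_app]
      · intro t _ t' _ h
        exact mul_left_cancel h
    have h7 : (T.filter (fun t => ¬ t a = b)).card ≤ (orb H a).card - 2 := by
      rw [← hOab]
      refine Finset.card_le_card_of_injOn (fun t => t a) ?_ ?_
      · intro t ht
        rw [Finset.mem_coe, Finset.mem_filter, memT] at ht
        show t a ∈ _
        rw [Finset.mem_coe, Finset.mem_sdiff, Finset.mem_insert, Finset.mem_singleton]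
        refine ⟨mem_orb.2 ⟨t, ht.1.1, rfl⟩, ?_⟩
        rintro (h | h)
        · exact ht.1.2.1 (hodd t ht.1.1 ht.1.2.2 h)
        · exact ht.2 h
      · intro t ht t' ht' h
        rw [Finset.mem_coe, Finset.mem_filter, memT] at ht ht'
        have hinvol : ∀ p : Perm Y, p * p = 1 → ∀ y, p (p y) = y := by
          intro p hp y
          have := congrArg (fun r : Perm Y => r y) hp
          simpa using this
        have hta : t' a = t a := h.symm
        have k1 : (t⁻¹ * t') a = a := by
          rw [Perm.mul_apply, hta, inv_app]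
        have k2 : (t⁻¹ * t') (t a) = t a := by
          rw [Perm.mul_apply]
          have e1 : t' (t a) = a := by rw [← hta]; exact hinvol t' ht'.1.2.2 a
          rw [e1]
          rw [Perm.inv_eq_iff_eq]
          exact (hinvol t ht.1.2.2 a).symm
        have k3 := hKfree (t⁻¹ * t') ((memK _).2 ⟨H.mul_mem (H.inv_mem ht.1.1) ht'.1.1, k1⟩) (t a)
          (fun hcon => ht.1.2.1 (hodd t ht.1.1 ht.1.2.2 hcon)) ht.2 k2
        have : t' = t * (t⁻¹ * t') := by group
        rw [this, k3, mul_one]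
    have h8 := Finset.card_filter_add_card_filter_not (s := T) (fun t => t a = b)
    omega
  -- (5)
  set S : Subgroup (Perm Y) := H ⊓ Subgroup.centralizer {z} with hSdef
  have memS : ∀ g, g ∈ S ↔ g ∈ H ∧ z * g = g * z := fun g => by
    rw [hSdef, Subgroup.mem_inf, Subgroup.mem_centralizer_singleton_iff, eq_comm (a := g * z)]
  have hTlow : (el H).card ≤ (el S).card * T.card := by
    refine Finset.card_le_mul_card_image_of_maps_to (f := fun h => h * z * h⁻¹) ?_ _ ?_
    · intro h hh
      rw [mem_el] at hh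
      show h * z * h⁻¹ ∈ T
      rw [memT]
      refine ⟨H.mul_mem (H.mul_mem hh hz) (H.inv_mem hh), ?_, ?_⟩
      · intro hcon
        apply hz1
        calc z = h⁻¹ * (h * z * h⁻¹) * h := by group
          _ = 1 := by rw [hcon]; group
      · calc h * z * h⁻¹ * (h * z * h⁻¹) = h * (z * z) * h⁻¹ := by group
          _ = 1 := by rw [hzz]; group
    · intro t _
      rcases ((el H).filter (fun h => h * z * h⁻¹ = t)).eq_empty_or_nonempty with h0 | ⟨h₀, hh₀⟩
      · rw [h0]
        simp
      · rw [Finset.mem_filter, mem_el] at hh₀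
        refine Finset.card_le_card_of_injOn (fun h => h₀⁻¹ * h) ?_ ?_
        · intro h hh
          rw [Finset.mem_coe, Finset.mem_filter, mem_el] at hh
          show h₀⁻¹ * h ∈ _
          rw [Finset.mem_coe, mem_el, memS]
          refine ⟨H.mul_mem (H.inv_mem hh₀.1) hh.1, ?_⟩
          have e1 : h * z * h⁻¹ = h₀ * z * h₀⁻¹ := by rw [hh.2, hh₀.2]
          have e2 : h * z = h₀ * z * h₀⁻¹ * h := by rw [← e1]; group
          rw [mul_assoc h₀⁻¹, e2]
          group
        · intro h _ h' _ hhh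
          exact mul_left_cancel hhh
  -- (6)
  have hSc : ∀ h ∈ S, h c = c := by
    intro h hh
    obtain ⟨hhH, hcomm⟩ := (memS h).1 hh
    by_contra hcon
    refine hz1 (h4 z hz z hz hz1 hzz rfl c (h c) (Ne.symm hcon) hc ?_)
    have := congrArg (fun p : Perm Y => p c) hcomm
    simp only [Perm.mul_apply, hc] at this
    exact this
  have hSfree : ∀ h ∈ S, ∀ x, x ≠ c → h x = x → h = 1 := by
    intro h hh x hx hhx
    obtain ⟨hhH, hcomm⟩ := (memS h).1 hh
    exact h4 z hz h hhH hz1 hzz hcomm.symm c x (Ne.symm hx) hc hhx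
  have hS1 : (el S).card ∣ q ^ 2 := by
    have h6 : (Finset.univ.erase c : Finset Y).card = q ^ 2 := by
      rw [Finset.card_erase_of_mem (Finset.mem_univ c), Finset.card_univ, hY]
      rfl
    rw [← h6]
    refine free_dvd S _ _ rfl ?_ ?_
    · intro g hg x hx
      rw [Finset.mem_erase] at hx ⊢
      refine ⟨fun hcon => hx.1 (g.injective (hcon.trans (hSc g hg).symm)), Finset.mem_univ _⟩
    · intro g hg x hx hgx
      exact hSfree g hg x (Finset.mem_erase.1 hx).1 hgx
  have hcO' : c ∈ orb H c := self_mem_orb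
  have hS2 : (el S).card ∣ (orb H c).card - 1 := by
    rw [← Finset.card_erase_of_mem hcO']
    refine free_dvd S _ _ rfl ?_ ?_
    · intro g hg x hx
      rw [Finset.mem_erase] at hx ⊢
      exact ⟨fun hcon => hx.1 (g.injective (hcon.trans (hSc g hg).symm)),
        orb_inv ((memS g).1 hg).1 hx.2⟩
    · intro g hg x hx hgx
      exact hSfree g hg x (Finset.mem_erase.1 hx).1 hgx
  -- (7)
  have hdisj : Disjoint (orb H a) (orb H c) := by
    rw [Finset.disjoint_left]
    intro x hx hx'
    exact hcO (orb_trans hx (orb_symm hx'))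
  have hK2 : (q - 1) ∣ (orb H c).card := by
    rw [← hKc]
    refine free_dvd K _ _ rfl ?_ ?_
    · intro g hg x hx
      exact orb_inv ((memK g).1 hg).1 hx
    · intro g hg x hx hgx
      refine hKfree g hg x ?_ ?_ hgx
      · rintro rfl
        exact Finset.disjoint_left.1 hdisj haO hx
      · rintro rfl
        exact Finset.disjoint_left.1 hdisj hbO hx
  have hsum : (orb H a).card + (orb H c).card ≤ q ^ 2 + 1 := by
    rw [← Finset.card_union_of_disjoint hdisj, ← hY]
    exact Finset.card_le_univ _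
  have hSstb : (el S).card ≤ (stb H c).card := by
    apply Finset.card_le_card
    intro g hg
    rw [mem_el] at hg
    rw [mem_stb]
    exact ⟨((memS g).1 hg).1, hSc g hg⟩
  have hH2 : (orb H a).card * (q - 1) = (orb H c).card * (stb H c).card := by
    rw [← hO, orb_stb H c]
  have hkey : (orb H a).card * (q - 1) ≤ (el S).card * (q - 3 + (orb H a).card) := by
    rw [← hO]
    refine hTlow.trans (Nat.mul_le_mul_left _ (hTup.trans ?_))
    omega
  exact arith hq hf hOq hkey hS1 hK2 hS2 (Finset.card_pos.2 ⟨c, hcO'⟩) hH2 hSstb hsum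

end Pool.Agent.H619.SZC
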