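import Mathlib
import Pool.Agent.H922.Suz4
import Pool.Agent.H922.SzCount

set_option autoImplicit false
set_option linter.style.haveILetI false
set_option linter.unusedVariables false
set_option linter.unusedSectionVars false

/-!
# The Suzuki groups are 2-set primitive
-/

namespace Pool.Agent.H922

open Equiv MulAction

universe u

variable {F : Type u} [Field F] [Finite F] {θ : F ≃+* F}

theorem suz_card_pow (hθ : ∀ x, θ (θ x) = x ^ 2) (hF : 2 < Nat.card F) :
    ∃ f, 2 ≤ f ∧ Nat.card F = 2 ^ f := by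
  haveI := Fintype.ofFinite F
  have h2 := suz_char hθ
  obtain ⟨p, hchar⟩ := CharP.exists F
  haveI := hchar
  obtain ⟨n, hp, hn⟩ := FiniteField.card F p
  have hp2 : p = 2 := by
    have h3 : p ∣ 2 := by
      rw [← CharP.cast_eq_zero_iff F p 2]
      exact_mod_cast h2
    exact (Nat.prime_dvd_prime_iff_eq hp Nat.prime_two).mp h3
  rw [hp2] at hn
  refine ⟨n, ?_, by rw [Nat.card_eq_fintype_card]; exact hn⟩
  by_contra hcon
  have h3 : (n : ℕ) = 1 := by have := n.pos; omega
  rw [Nat.card_eq_fintype_card, hn, h3] at hF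
  omega

/-- the number of elements fixing the two base points -/
theorem suz_card_fix (hθ : ∀ x, θ (θ x) = x ^ 2) (hF : 2 < Nat.card F) :
    Nat.card {h : Perm (Option (F × F)) // h ∈ Suz θ ∧ h none = none ∧
      h (some (0, 0)) = some (0, 0)} = Nat.card F - 1 := by
  classical
  haveI := Fintype.ofFinite F
  have h1 : ∀ h : {h : Perm (Option (F × F)) // h ∈ Suz θ ∧ h none = none ∧
      h (some (0, 0)) = some (0, 0)}, ∃ κ : F, κ ≠ 0 ∧
      ∀ a b, h.1 (some (a, b)) = some (κ * a, κ * θ κ * b) :=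
    fun h => suz_fix_two hθ hF h.2.1 h.2.2.1 h.2.2.2
  choose κ hκ hκ' using h1
  have h2 : Function.Bijective (fun h => (⟨κ h, hκ h⟩ : {k : F // k ≠ 0})) := by
    constructor
    · intro h h' hh
      have e1 : κ h = κ h' := congrArg Subtype.val hh
      apply Subtype.ext
      ext u
      rcases u with _ | ⟨a, b⟩
      · rw [h.2.2.1, h'.2.2.1]
      · rw [hκ', hκ', e1]
    · rintro ⟨k, hk⟩
      obtain ⟨g, hg, g0, g1⟩ := suz_H hθ k hk
      refine ⟨⟨g, hg, g0, by rw [g1, mul_zero, mul_zero]⟩, ?_⟩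
      apply Subtype.ext
      have e1 := hκ' ⟨g, hg, g0, by rw [g1, mul_zero, mul_zero]⟩ 1 0
      change g (some (1, 0)) = _ at e1
      rw [g1, mul_one, mul_one] at e1
      simp only [Option.some.injEq, Prod.mk.injEq] at e1
      exact e1.1.symm
  rw [Nat.card_congr (Equiv.ofBijective _ h2)]
  rw [Nat.card_eq_fintype_card, Nat.card_eq_fintype_card, Fintype.card_subtype_compl,
    Fintype.card_subtype_eq]

variable [DecidableEq F]

/-- the Suzuki groups are 2-set primitive -/
theorem suz_set_prim (hθ : ∀ x, θ (θ x) = x ^ 2) (hF : 2 < Nat.card F) :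
    TSetPrimitive (Suz θ) 2 := by
  haveI := Fintype.ofFinite F
  have htr := suz_trans hθ
  rw [tSetPrimitive_iff]
  refine ⟨homog_of_trans htr, ?_⟩
  intro r r1 r2 r3 r4
  have hr : InvRel (Suz θ) 2 r := ⟨r1, r2, r3, r4⟩
  by_cases hover : ∃ u v w, u ≠ w ∧ v ≠ w ∧ PR r u v u w
  · obtain ⟨u, v, w, huw, hvw, h⟩ := hover
    exact Or.inr (suz_case_one hθ hF hr huw hvw h)
  left
  by_contra htriv
  push Not at htriv
  obtain ⟨S, T, hS, hT, hST, hne⟩ := htriv
  -- no overlapping related pairs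
  have hno : ∀ u v w, PR r u v u w → v = w := by
    intro u v w h
    by_contra hvw
    exact hover ⟨u, v, w, h.2.1, hvw, h⟩
  have hAne : (none : Option (F × F)) ≠ some (0, 0) := by simp
  -- the stabiliser of the class
  let H : Subgroup (Perm (Option (F × F))) := {
    carrier := {g | g ∈ Suz θ ∧ PR r none (some (0, 0)) (g none) (g (some (0, 0)))}
    one_mem' := ⟨(Suz θ).one_mem, PR.refl hr hAne⟩
    mul_mem' := by
      rintro g h ⟨hg, hgr⟩ ⟨hh, hhr⟩
      exact ⟨(Suz θ).mul_mem hg hh, hgr.trans hr (hhr.map hr hg)⟩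
    inv_mem' := by
      rintro g ⟨hg, hgr⟩
      refine ⟨(Suz θ).inv_mem hg, ?_⟩
      have := (hgr.map hr ((Suz θ).inv_mem hg)).symm hr
      rwa [perm_inv_apply, perm_inv_apply] at this }
  have hH : ∀ g, g ∈ H ↔ g ∈ Suz θ ∧ PR r none (some (0, 0)) (g none) (g (some (0, 0))) :=
    fun g => Iff.rfl
  have hfix : ∀ h ∈ H, h none = none ↔ h (some (0, 0)) = some (0, 0) := by
    intro h hh
    constructor
    · intro h0
      have := hh.2
      rw [h0] at this
      exact (hno _ _ _ this).symm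
    · intro h0
      have := hh.2
      rw [h0] at this
      exact (hno _ _ _ this.swap1.swap2).symm
  obtain ⟨f, hf, hcard⟩ := suz_card_pow hθ hF
  refine Pool.Agent.H619.SZC.szCount f (Nat.card F) hcard hf ?_ H none (some (0, 0)) hAne ?_ hfix
    ?_ ?_ ?_ ?_
  · rw [Fintype.card_option, Fintype.card_prod, Nat.card_eq_fintype_card]
    ring
  · intro h hh x y z hxy hxz hyz hx hy hz
    exact suz_three hθ hF hh.1 hxy hxz hyz hx hy hz
  · rw [← suz_card_fix hθ hF]
    apply Nat.card_congr
    refine Equiv.subtypeEquivRight (fun h => ?_)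
    constructor
    · rintro ⟨hh, h0⟩
      exact ⟨hh.1, h0, (hfix h hh).mp h0⟩
    · rintro ⟨hh, h0, h1⟩
      refine ⟨⟨hh, ?_⟩, h0⟩
      rw [h0, h1]
      exact PR.refl hr hAne
  · obtain ⟨w, hw, w0, w1, -, ww⟩ := suz_W hθ
    refine ⟨w, ⟨hw, ?_⟩, ww, w0⟩
    rw [w0, w1]
    exact (PR.refl hr hAne).swap2
  · intro z hz h hh hz1 hzz hc c c' hcc' hzc hhc'
    exact suz_cent hθ hF hz.1 hh.1 hz1 hzz hc hcc' hzc hhc'
  · -- a related pair different from the base pair
    obtain ⟨g, hg, hgS⟩ := homog_of_trans htr S {none, some (0, 0)} hS (Finset.card_pair hAne)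
    have h5 := r4 g hg S T hS hT hST
    rw [hgS] at h5
    have hT' : (T.map g.toEmbedding).card = 2 := by rw [Finset.card_map, hT]
    have hne' : T.map g.toEmbedding ≠ {none, some (0, 0)} := by
      rw [← hgS]
      intro h6
      exact hne (Finset.map_injective _ h6).symm
    obtain ⟨c, d, hcd, hcdT⟩ := Finset.card_eq_two.mp hT'
    rw [hcdT] at h5 hne'
    have h6 : PR r none (some (0, 0)) c d := ⟨hAne, hcd, h5⟩
    have hc1 : c ≠ none := by
      rintro rfl
      exact hne' (by rw [← hno _ _ _ h6])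
    have hc2 : c ≠ some (0, 0) := by
      rintro rfl
      have := hno _ _ _ h6.swap1
      exact hne' (by rw [← this, Finset.pair_comm])
    obtain ⟨k, hk, k0, k1⟩ := two_trans le_rfl htr hAne hcd
    exact ⟨k, ⟨hk, by rw [k0, k1]; exact h6⟩, by rw [k0]; exact hc1, by rw [k0]; exact hc2⟩

omit [DecidableEq F]

variable {X : Type u} [Finite X] [DecidableEq X] {G : Subgroup (Perm X)}

/-- the groups with socle `Sz(q)` -/
theorem IsSz.result (h : IsSz G) : TSetPrimitive G 2 ∧ ¬ TPrimitive G 2 := by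
  classical
  obtain ⟨F, iF, θ, e, hθ, hF, h1, h2⟩ := h
  haveI : Finite F := Nat.finite_of_card_ne_zero (by omega)
  constructor
  · exact (set_conj.mpr (suz_set_prim hθ hF)).mono h1
  · intro hp
    have h3 : TPrimitive (conjGroup e.symm G) 2 := prim_conj.mpr hp
    exact asuz_not_prim hθ hF (le_conjGroup_iff.mp h2) h3

end Pool.Agent.H922
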