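import Mathlib
import Pool.Agent.H922.Mat1

set_option autoImplicit false
set_option linter.style.haveILetI false
set_option linter.unusedVariables false
set_option linter.unusedSectionVars false
set_option maxRecDepth 100000

/-!
# The Mathieu groups: `M_24`, and `M_11` in degree 12
-/

namespace Pool.Agent.H922

open Equiv MulAction

/-! ### `M_24` -/

theorem m24_slp : chkSlp 24 m24L m24Ps m24Qs m24Steps = true := by decide +kernel
theorem m24_trc : trchk' (m24Ps ++ m24Steps.map Prod.fst) 24 5 = true := by decide +kernel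
theorem m24_fam : chkFam 24 8 m24Ps m24Tree 31 m24B0 = true := by decide +kernel
theorem m24_gens : chkGens 24 m24L m24Ps m24Qs = true := by decide +kernel
theorem m24_sext : m24Tree.all (fun m => !(Nat.beq (pop (Nat.land m24B0 m) 24) 4) ||
    m24Tree.mem (Nat.xor m24B0 m)) = true := by decide +kernel
theorem m24_b0 : (m24Tree.mem m24B0 && Nat.beq (Nat.land m24B0 31) 31) = true := by decide +kernel

theorem m24_trans : TTransitive (genGroup 24 m24L) 5 :=
  trans_of_chk' (by norm_num) (chkSlp_inG m24_slp) m24_trc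

theorem m24_not_steiner : ¬ TSteinerPrimitive (genGroup 24 m24L) 5 :=
  not_steiner_of_chk m24_trans m24_gens m24_fam (by norm_num) (by decide +kernel)
    (by norm_num) (by norm_num)

theorem m24_two : TPrimitive (genGroup 24 m24L) 2 ∧ TSetPrimitive (genGroup 24 m24L) 2 :=
  both_of_succ (by norm_num) (tTransitive_of_le (by norm_num) m24_trans)
    (tPrimitive_of_succ_trans (tTransitive_of_le (by norm_num) m24_trans))
    (by rw [card_fin']; norm_num)

theorem m24_three : TPrimitive (genGroup 24 m24L) 3 ∧ TSetPrimitive (genGroup 24 m24L) 3 :=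
  both_of_succ (by norm_num) (tTransitive_of_le (by norm_num) m24_trans)
    (tPrimitive_of_succ_trans m24_trans) (by rw [card_fin']; norm_num)

theorem map_symmDiff' {X : Type*} [DecidableEq X] (g : Perm X) (A B : Finset X) :
    (symmDiff A B).map g.toEmbedding = symmDiff (A.map g.toEmbedding) (B.map g.toEmbedding) := by
  ext y
  obtain ⟨x, rfl⟩ := g.surjective y
  rw [mem_map_perm, Finset.mem_symmDiff, Finset.mem_symmDiff, mem_map_perm, mem_map_perm]

theorem map_inter' {X : Type*} [DecidableEq X] (g : Perm X) (A B : Finset X) :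
    (A ∩ B).map g.toEmbedding = (A.map g.toEmbedding) ∩ (B.map g.toEmbedding) := by
  ext y
  obtain ⟨x, rfl⟩ := g.surjective y
  rw [mem_map_perm, Finset.mem_inter, Finset.mem_inter, mem_map_perm, mem_map_perm]

theorem symmDiff_union' {X : Type*} [DecidableEq X] {S T U : Finset X} (h1 : Disjoint S T)
    (h2 : Disjoint T U) (h3 : Disjoint S U) : symmDiff (S ∪ T) (T ∪ U) = S ∪ U := by
  ext x
  rw [Finset.mem_symmDiff, Finset.mem_union, Finset.mem_union, Finset.mem_union]
  have a1 : x ∈ S → x ∉ T := fun h => Finset.disjoint_left.mp h1 h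
  have a2 : x ∈ T → x ∉ U := fun h => Finset.disjoint_left.mp h2 h
  have a3 : x ∈ S → x ∉ U := fun h => Finset.disjoint_left.mp h3 h
  tauto

/-- the symmetric difference of two octads with four common points is an octad -/
theorem m24_symm {A B : Finset (Fin 24)} (hA : A ∈ m24Tree.fam 24) (hB : B ∈ m24Tree.fam 24)
    (hAB : (A ∩ B).card = 4) : symmDiff A B ∈ m24Tree.fam 24 := by
  obtain ⟨⟨h1, h2⟩, h3⟩ := steiner_of_chk m24_trans m24_gens m24_fam (by norm_num)
    (by decide +kernel)
  have hA8 := h1 A hA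
  obtain ⟨U, hUA, hU⟩ := Finset.exists_subset_card_eq (s := A) (n := 5) (by rw [hA8]; norm_num)
  obtain ⟨g, hg, hgU⟩ := homog_of_trans m24_trans U (toSet 24 31) hU
    (by rw [card_toSet]; decide +kernel)
  have hb := m24_b0
  rw [Bool.and_eq_true, Nat.beq_eq] at hb
  have hgA : A.map g.toEmbedding = toSet 24 m24B0 := by
    obtain ⟨C, -, hC⟩ := h2 (toSet 24 31) (by rw [card_toSet]; decide +kernel)
    rw [hC (A.map g.toEmbedding) ⟨h3 g hg A hA, by
      rw [← hgU]; exact Finset.map_subset_map.mpr hUA⟩]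
    exact (hC _ ⟨⟨_, hb.1, rfl⟩, (subset_toSet (by norm_num)).mpr hb.2⟩).symm
  obtain ⟨m, hm, hgB⟩ := h3 g hg B hB
  have hcard : pop (Nat.land m24B0 m) 24 = 4 := by
    rw [← card_toSet, ← toSet_inter, ← hgA, ← hgB, ← map_inter', Finset.card_map, hAB]
  have h5 := BT.all_mem (p := fun m => !(Nat.beq (pop (Nat.land m24B0 m) 24) 4) ||
    m24Tree.mem (Nat.xor m24B0 m)) _ m24_sext hm
  rw [hcard] at h5
  have h6 : m24Tree.mem (Nat.xor m24B0 m) = true := by simpa using h5
  have h7 : (symmDiff A B).map g.toEmbedding ∈ m24Tree.fam 24 := by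
    rw [map_symmDiff', hgA, hgB, toSet_xor]
    exact ⟨_, h6, rfl⟩
  have h8 := h3 _ ((genGroup 24 m24L).inv_mem hg) _ h7
  rwa [map_mul_perm, inv_mul_cancel, map_one_perm] at h8

theorem m24_four : TPrimitive (genGroup 24 m24L) 4 ∧ ¬ TSetPrimitive (genGroup 24 m24L) 4 := by
  refine ⟨tPrimitive_of_succ_trans m24_trans, ?_⟩
  obtain ⟨⟨hc8, h2⟩, h3⟩ := steiner_of_chk m24_trans m24_gens m24_fam (by norm_num)
    (by decide +kernel)
  rw [tSetPrimitive_iff]
  rintro ⟨-, h⟩
  have hb := m24_b0
  rw [Bool.and_eq_true] at hb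
  have hB0 : toSet 24 m24B0 ∈ m24Tree.fam 24 := ⟨_, hb.1, rfl⟩
  have hcB := hc8 _ hB0
  rcases h (fun S T => S = T ∨ (Disjoint S T ∧ S ∪ T ∈ m24Tree.fam 24))
    (fun S _ => Or.inl rfl)
    (fun S T _ _ h => by
      rcases h with h | ⟨h4, h5⟩
      · exact Or.inl h.symm
      · exact Or.inr ⟨h4.symm, by rw [Finset.union_comm]; exact h5⟩)
    (fun S T U hS hT hU h h' => by
      rcases h with rfl | ⟨h4, h5⟩
      · exact h'
      rcases h' with rfl | ⟨h6, h7⟩
      · exact Or.inr ⟨h4, h5⟩
      by_cases hSU : S = U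
      · exact Or.inl hSU
      right
      -- the two octads meet exactly in `T`
      have hne : S ∪ T ≠ T ∪ U := by
        intro h8
        apply hSU
        have e1 : S = (S ∪ T) \ T := by
          rw [Finset.union_sdiff_right, Finset.sdiff_eq_self_of_disjoint h4]
        have e2 : U = (T ∪ U) \ T := by
          rw [Finset.union_sdiff_left, Finset.sdiff_eq_self_of_disjoint h6.symm]
        rw [e1, e2, h8]
      have hle : ((S ∪ T) ∩ (T ∪ U)).card ≤ 4 := by
        by_contra hcon
        push Not at hcon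
        obtain ⟨V, hV, hVc⟩ := Finset.exists_subset_card_eq
          (s := (S ∪ T) ∩ (T ∪ U)) (n := 5) hcon
        obtain ⟨C, -, hC⟩ := h2 V hVc
        apply hne
        rw [hC _ ⟨h5, fun x hx => (Finset.mem_inter.mp (hV hx)).1⟩,
          hC _ ⟨h7, fun x hx => (Finset.mem_inter.mp (hV hx)).2⟩]
      have hsub : T ⊆ (S ∪ T) ∩ (T ∪ U) :=
        Finset.subset_inter Finset.subset_union_right Finset.subset_union_left
      have heq : T = (S ∪ T) ∩ (T ∪ U) := Finset.eq_of_subset_of_card_le hsub (by
        rw [hT]; exact hle)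
      have hdis : Disjoint S U := by
        rw [Finset.disjoint_left]
        intro x hx hxU
        have hxT : x ∈ T := by
          rw [heq]
          exact Finset.mem_inter.mpr ⟨Finset.mem_union_left _ hx, Finset.mem_union_right _ hxU⟩
        exact Finset.disjoint_left.mp h4 hx hxT
      refine ⟨hdis, ?_⟩
      have h9 := m24_symm h5 h7 (by rw [← heq, hT])
      have e3 : symmDiff (S ∪ T) (T ∪ U) = S ∪ U := symmDiff_union' h4 h6 hdis
      rwa [e3] at h9)
    (fun g hg S T hS hT h => by
      rcases h with rfl | ⟨h4, h5⟩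
      · exact Or.inl rfl
      · right
        refine ⟨(Finset.disjoint_map _).mpr h4, ?_⟩
        rw [← Finset.map_union]
        exact h3 g hg _ h5) with h1 | h1
  · -- a tetrad and its complement in an octad
    obtain ⟨S, hSB, hS⟩ := Finset.exists_subset_card_eq (s := toSet 24 m24B0) (n := 4)
      (by rw [hcB]; norm_num)
    have hT : (toSet 24 m24B0 \ S).card = 4 := by
      rw [Finset.card_sdiff_of_subset hSB, hcB, hS]
    have h5 := h1 S _ hS hT (Or.inr ⟨Finset.disjoint_sdiff, by
      rw [Finset.union_sdiff_of_subset hSB]; exact hB0⟩)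
    obtain ⟨x, hx⟩ : S.Nonempty := by rw [← Finset.card_pos, hS]; norm_num
    have h6 := hx
    rw [h5] at h6
    exact (Finset.mem_sdiff.mp h6).2 hx
  · -- two tetrads meeting in three points
    have hc1 : (toSet 24 15).card = 4 := by rw [card_toSet]; decide +kernel
    have hc2 : (toSet 24 23).card = 4 := by rw [card_toSet]; decide +kernel
    rcases h1 (toSet 24 15) (toSet 24 23) hc1 hc2 with h5 | ⟨h5, -⟩
    · have := toSet_inj (n := 24) (by norm_num) (by norm_num) h5
      norm_num at this
    · rw [Finset.disjoint_left] at h5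
      exact h5 (mem_toSet.mpr (by decide : Nat.testBit 15 ((0 : Fin 24) : ℕ) = true))
        (mem_toSet.mpr (by decide : Nat.testBit 23 ((0 : Fin 24) : ℕ) = true))

/-! ### `M_11` in degree 12 -/

theorem m11x_slp : chkSlp 12 m11xL m11xPs m11xQs m11xSteps = true := by decide +kernel
theorem m11x_trc : trchk' (m11xPs ++ m11xSteps.map Prod.fst) 12 3 = true := by decide +kernel
theorem m11x_gens : chkGens 12 m11xL m11xPs m11xQs = true := by decide +kernel
theorem m11x_hex : allL (fun P => m11xTree.all (fun m => m11xTree.mem (img P m 12))) m11xPs =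
    true := by decide +kernel
theorem m11x_hex2 : (m11xTree.mem 663 && Nat.beq (Nat.land 663 23) 23 &&
    m11xTree.all (fun m => !(Nat.beq (Nat.land m 15) 15))) = true := by decide +kernel
theorem m11x_exmem : allL (fun P => anyL (fun Q => Nat.beq P Q)
    (m11xPs ++ m11xSteps.map Prod.fst)) m11xEx = true := by decide +kernel
theorem m11x_fix : allL (fun P => allR (fun i => !(Nat.testBit 3 i) || (Nat.beq (app P i) i)) 12)
    m11xEx = true := by decide +kernel
theorem m11x_sat : allR (fun y => (Nat.testBit 3 y) || (Nat.beq y 2) ||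
    (allR (fun i => (Nat.testBit 3 i) || (Nat.testBit (satIter 2 y m11xEx 4
      (Nat.lor (Nat.shiftLeft 1 2) (Nat.shiftLeft 1 y))) i)) 12)) 12 = true := by decide +kernel
theorem m11x_cls0 : allR (fun m => !(Nat.beq (pop m 12) 3) ||
    (Nat.beq (m11xCls.find (img (m11xPs.getD 0 0) m 12))
      ((m11xPi.getD 0 []).getD (m11xCls.find m) 0))) 4096 = true := by decide +kernel
theorem m11x_cls1 : allR (fun m => !(Nat.beq (pop m 12) 3) ||
    (Nat.beq (m11xCls.find (img (m11xPs.getD 1 0) m 12))
      ((m11xPi.getD 1 []).getD (m11xCls.find m) 0))) 4096 = true := by decide +kernel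
theorem m11x_cls2 : (Nat.beq (m11xCls.find 7) (m11xCls.find 2336) &&
    !(Nat.beq (m11xCls.find 7) (m11xCls.find 1168)) && Nat.beq (pop 7 12) 3 &&
    Nat.beq (pop 2336 12) 3 && Nat.beq (pop 1168 12) 3) = true := by decide +kernel

theorem m11x_trans : TTransitive (genGroup 12 m11xL) 3 :=
  trans_of_chk' (by norm_num) (chkSlp_inG m11x_slp) m11x_trc

theorem m11x_not_four {t : ℕ} (ht : 4 ≤ t) : ¬ TTransitive (genGroup 12 m11xL) t := by
  intro htr
  have htr4 := tTransitive_of_le ht htr
  have hinv := BT.fam_inv (T := m11xTree) (gens_code m11x_gens) m11x_hex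
  have h := m11x_hex2
  rw [Bool.and_eq_true, Bool.and_eq_true, Nat.beq_eq] at h
  obtain ⟨⟨h1, h2⟩, h3⟩ := h
  obtain ⟨g, hg, hgT⟩ := homog_of_trans htr4 (toSet 12 23) (toSet 12 15)
    (by rw [card_toSet]; decide +kernel) (by rw [card_toSet]; decide +kernel)
  obtain ⟨m, hm, hmB⟩ := hinv g hg (toSet 12 663) ⟨_, h1, rfl⟩
  have h4 : toSet 12 15 ⊆ toSet 12 m := by
    rw [← hmB, ← hgT]
    exact Finset.map_subset_map.mpr ((subset_toSet (by norm_num)).mpr h2)
  rw [subset_toSet (by norm_num)] at h4
  have h5 := BT.all_mem (p := fun m => !(Nat.beq (Nat.land m 15) 15)) _ h3 hm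
  rw [h4] at h5
  exact absurd h5 (by decide)

theorem m11x_prim3 : TPrimitive (genGroup 12 m11xL) 3 := by
  rw [tPrimitive_iff]
  have h3mask : toSet 12 3 = {0, 1} := by
    ext i
    rw [mem_toSet]
    revert i
    decide
  have hbase : PrimOff (genGroup 12 m11xL) (toSet 12 3 : Set (Fin 12)) := by
    apply primOff_of_sat 3 2 (by norm_num) (by decide) 4
      (inG_of_mem (chkSlp_inG m11x_slp) m11x_exmem) m11x_fix ?_ m11x_sat
    intro y hy
    have hy0 : y ≠ 0 ∧ y ≠ 1 := by
      rw [h3mask] at hy
      simpa using hy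
    obtain ⟨g, hg, hgi⟩ := (multTrans_iff _ 3).mp m11x_trans.2 ![0, 1, y] ![0, 1, 2]
      (by
        have h1 := Ne.symm hy0.1
        have h2 := Ne.symm hy0.2
        intro i j hij
        fin_cases i <;> fin_cases j <;> simp_all)
      (by intro i j hij; fin_cases i <;> fin_cases j <;> simp_all)
    have g0 : g 0 = 0 := hgi 0
    have g1 : g 1 = 1 := hgi 1
    have g2 : g y = 2 := hgi 2
    refine ⟨g, hg, ?_, ?_⟩
    · intro z hz
      rw [h3mask] at hz
      simp only [Finset.coe_insert, Finset.coe_singleton, Set.mem_insert_iff,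
        Set.mem_singleton_iff] at hz
      rcases hz with rfl | rfl
      · exact g0
      · exact g1
    · rw [g2]; rfl
  intro s hs
  have hs2 : s.card = 2 := by omega
  obtain ⟨g, hg, hgs⟩ := homog_of_trans (tTransitive_of_le (by norm_num) m11x_trans)
    (toSet 12 3) s (by rw [card_toSet]; decide +kernel) hs2
  have := primOff_map hg hbase
  rwa [hgs] at this

theorem m11x_two : TPrimitive (genGroup 12 m11xL) 2 ∧ TSetPrimitive (genGroup 12 m11xL) 2 :=
  both_of_succ (by norm_num) m11x_trans m11x_prim3 (by rw [card_fin']; norm_num)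

theorem m11x_three : TPrimitive (genGroup 12 m11xL) 3 ∧ ¬ TSetPrimitive (genGroup 12 m11xL) 3 := by
  refine ⟨m11x_prim3, ?_⟩
  rw [tSetPrimitive_iff]
  rintro ⟨-, h⟩
  -- the class number of a triple
  have hfex : ∀ S : Finset (Fin 12), ∃ v, ∀ m < 2 ^ 12, toSet 12 m = S → m11xCls.find m = v := by
    intro S
    obtain ⟨m, hm, hS⟩ := exists_mask S
    refine ⟨m11xCls.find m, fun m' hm' hS' => ?_⟩
    rw [toSet_inj hm' hm (hS'.trans hS.symm)]
  choose f hf using hfex
  have hf' : ∀ m < 2 ^ 12, f (toSet 12 m) = m11xCls.find m := fun m hm => (hf _ m hm rfl).symm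
  -- invariance
  let Inv : Perm (Fin 12) → Prop := fun g => ∀ S T : Finset (Fin 12), S.card = 3 → T.card = 3 →
    f S = f T → f (S.map g.toEmbedding) = f (T.map g.toEmbedding)
  have hcode : ∀ (k : ℕ), (allR (fun m => !(Nat.beq (pop m 12) 3) ||
      (Nat.beq (m11xCls.find (img (m11xPs.getD k 0) m 12))
      ((m11xPi.getD k []).getD (m11xCls.find m) 0))) 4096 = true) → ∀ g : Perm (Fin 12),
      (∀ i : Fin 12, ((g i : Fin 12) : ℕ) = app (m11xPs.getD k 0) i) → Inv g := by
    intro k hk g hg
    have hlt : ∀ m, img (m11xPs.getD k 0) m 12 < 2 ^ 12 := fun m =>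
      img_lt (fun i hi => by rw [← hg ⟨i, hi⟩]; exact (g ⟨i, hi⟩).2)
    have key : ∀ S : Finset (Fin 12), S.card = 3 →
        f (S.map g.toEmbedding) = (m11xPi.getD k []).getD (f S) 0 := by
      intro S hS
      obtain ⟨m, hm, rfl⟩ := exists_mask S
      rw [map_toSet hg, hf' _ (hlt m), hf' m hm]
      have h5 := (allR_iff.mp hk) m (by simpa using hm)
      rw [card_toSet] at hS
      rw [hS] at h5
      simpa using h5
    intro S T hS hT hST
    rw [key S hS, key T hT, hST]
  have hgen : ∀ g ∈ {g : Perm (Fin 12) | ∃ l ∈ m11xL, ∀ i : Fin 12,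
      ((g i : Fin 12) : ℕ) = l.getD i 0}, Inv g := by
    intro g hg
    obtain ⟨P, hP, hPi⟩ := gens_code m11x_gens g hg
    have hP2 : P = m11xPs.getD 0 0 ∨ P = m11xPs.getD 1 0 := by
      simp only [m11xPs, List.mem_cons, List.not_mem_nil, or_false] at hP
      rcases hP with rfl | rfl
      · left; rfl
      · right; rfl
    rcases hP2 with rfl | rfl
    · exact hcode 0 m11x_cls0 g hPi
    · exact hcode 1 m11x_cls1 g hPi
  have hall : ∀ g ∈ genGroup 12 m11xL, Inv g := by
    intro g hg
    refine Subgroup.closure_induction (p := fun g _ => Inv g) hgen ?_ ?_ ?_ hg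
    · intro S T _ _ hST
      rw [map_one_perm, map_one_perm]; exact hST
    · intro g k _ _ h1 h2 S T hS hT hST
      rw [← map_mul_perm, ← map_mul_perm]
      exact h1 _ _ (by rw [Finset.card_map, hS]) (by rw [Finset.card_map, hT])
        (h2 S T hS hT hST)
    · intro g _ h1
      have hpow : ∀ m : ℕ, Inv (g ^ m) := by
        intro m
        induction m with
        | zero =>
          intro S T _ _ hST
          rw [pow_zero, map_one_perm, map_one_perm]; exact hST
        | succ m ih =>
          intro S T hS hT hST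
          rw [pow_succ', ← map_mul_perm, ← map_mul_perm]
          exact h1 _ _ (by rw [Finset.card_map, hS]) (by rw [Finset.card_map, hT])
            (ih S T hS hT hST)
      have : g⁻¹ = g ^ (orderOf g - 1) := by
        rw [inv_eq_iff_mul_eq_one, ← pow_succ', Nat.sub_add_cancel (orderOf_pos g),
          pow_orderOf_eq_one]
      rw [this]
      exact hpow _
  have h2 := m11x_cls2
  simp only [Bool.and_eq_true] at h2
  obtain ⟨⟨⟨⟨h3, h4⟩, h5⟩, h6⟩, h7⟩ := h2
  rw [Nat.beq_eq] at h3 h5 h6 h7
  rcases h (fun S T => f S = f T) (fun _ _ => rfl) (fun _ _ _ _ h => h.symm)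
    (fun _ _ _ _ _ _ h h' => h.trans h') (fun g hg S T hS hT hST => hall g hg S T hS hT hST)
    with h1 | h1
  · have := h1 (toSet 12 7) (toSet 12 2336) (by rw [card_toSet, h5]) (by rw [card_toSet, h6]) (by
      rw [hf' _ (by norm_num), hf' _ (by norm_num), h3])
    have := toSet_inj (n := 12) (by norm_num) (by norm_num) this
    norm_num at this
  · have := h1 (toSet 12 7) (toSet 12 1168) (by rw [card_toSet, h5]) (by rw [card_toSet, h7])
    rw [hf' _ (by norm_num), hf' _ (by norm_num)] at this
    rw [this] at h4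
    simp at h4

end Pool.Agent.H922
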