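import Mathlib
import Pool.Agent.H922.Mat2
import Pool.Agent.H922.PL3
import Pool.Agent.H922.Defs5

set_option autoImplicit false
set_option linter.style.haveILetI false
set_option linter.unusedVariables false
set_option linter.unusedSectionVars false

/-!
# The exceptions for `t ≥ 3`
-/

namespace Pool.Agent.H922

open Equiv MulAction
open scoped OnePoint

universe u

section Between

variable {X : Type u} [DecidableEq X] [Finite X] {G : Subgroup (Perm X)} {n : ℕ}
  {L M : List (List ℕ)} {t : ℕ}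

theorem GenBetween.card (h : GenBetween G n L M) : Nat.card X = n := by
  obtain ⟨e, -, -⟩ := h
  rw [← Nat.card_congr e, card_fin']

theorem GenBetween.prim (h : GenBetween G n L M) (hp : TPrimitive (genGroup n L) t) :
    TPrimitive G t := by
  obtain ⟨e, h1, -⟩ := h
  exact (prim_conj.mpr hp).mono h1

theorem GenBetween.setPrim (h : GenBetween G n L M) (hp : TSetPrimitive (genGroup n L) t) :
    TSetPrimitive G t := by
  obtain ⟨e, h1, -⟩ := h
  exact (set_conj.mpr hp).mono h1

theorem GenBetween.both (h : GenBetween G n L M)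
    (hp : TPrimitive (genGroup n L) t ∧ TSetPrimitive (genGroup n L) t) : NoExc G t :=
  noExc_of_prim (h.prim hp.1) (h.setPrim hp.2)

theorem GenBetween.not_setPrim (h : GenBetween G n L M) (hp : ¬ TSetPrimitive (genGroup n M) t) :
    ¬ TSetPrimitive G t := by
  obtain ⟨e, -, h2⟩ := h
  intro hG
  exact hp (set_conj.mp (hG.mono h2))

theorem GenBetween.not_steiner (h : GenBetween G n L M)
    (hp : ¬ TSteinerPrimitive (genGroup n M) t) : ¬ TSteinerPrimitive G t := by
  obtain ⟨e, -, h2⟩ := h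
  exact not_steiner_mono h2 (fun hG => hp (steiner_conj.mp hG))

theorem GenBetween.trans (h : GenBetween G n L M) (hp : TTransitive G t) :
    TTransitive (genGroup n M) t := by
  obtain ⟨e, -, h2⟩ := h
  exact trans_conj.mp (hp.mono h2)

theorem IsM11.noExc (h : IsM11 G) (ht : 2 ≤ t) (htr : TTransitive G t) : NoExc G t := by
  have hns := GenBetween.not_steiner h m11_not_steiner
  by_cases h5 : 5 ≤ t
  · exact absurd htr (not_trans_of_steiner hns (by omega))
  have : t = 2 ∨ t = 3 ∨ t = 4 := by omega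
  rcases this with rfl | rfl | rfl
  · exact GenBetween.both h m11_two
  · exact GenBetween.both h m11_three
  · exact noExc_of_not_steiner (by norm_num) hns

theorem IsM23.noExc (h : IsM23 G) (ht : 2 ≤ t) (htr : TTransitive G t) : NoExc G t := by
  have hns := GenBetween.not_steiner h m23_not_steiner
  by_cases h5 : 5 ≤ t
  · exact absurd htr (not_trans_of_steiner hns (by omega))
  have : t = 2 ∨ t = 3 ∨ t = 4 := by omega
  rcases this with rfl | rfl | rfl
  · exact GenBetween.both h m23_two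
  · exact GenBetween.both h m23_three
  · exact noExc_of_not_steiner (by norm_num) hns

theorem IsM12.noExc (h : IsM12 G) (ht : 2 ≤ t) (htr : TTransitive G t) : NoExc G t := by
  have hns := GenBetween.not_steiner h m12_not_steiner
  by_cases h6 : 6 ≤ t
  · exact absurd htr (not_trans_of_steiner hns (by omega))
  have : t = 2 ∨ t = 3 ∨ t = 4 ∨ t = 5 := by omega
  rcases this with rfl | rfl | rfl | rfl
  · exact GenBetween.both h m12_two
  · exact GenBetween.both h m12_three
  · exact GenBetween.both h m12_four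
  · exact noExc_of_not_steiner (by norm_num) hns

theorem IsM22.noExc (h : IsM22 G) (ht : 2 ≤ t) (htr : TTransitive G t) : NoExc G t := by
  have hns := GenBetween.not_steiner h m22_not_steiner
  by_cases h4 : 4 ≤ t
  · exact absurd htr (not_trans_of_steiner hns (by omega))
  have : t = 2 ∨ t = 3 := by omega
  rcases this with rfl | rfl
  · exact GenBetween.both h m22_two
  · exact noExc_of_not_steiner (by norm_num) hns

theorem IsM24.noExc (h : IsM24 G) (ht : 2 ≤ t) (ht4 : t ≠ 4) (htr : TTransitive G t) :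
    NoExc G t := by
  have hns := GenBetween.not_steiner h m24_not_steiner
  by_cases h6 : 6 ≤ t
  · exact absurd htr (not_trans_of_steiner hns (by omega))
  have : t = 2 ∨ t = 3 ∨ t = 5 := by omega
  rcases this with rfl | rfl | rfl
  · exact GenBetween.both h m24_two
  · exact GenBetween.both h m24_three
  · exact noExc_of_not_steiner (by norm_num) hns

theorem IsM24.four (h : IsM24 G) : TPrimitive G 4 ∧ ¬ TSetPrimitive G 4 :=
  ⟨GenBetween.prim h m24_four.1, GenBetween.not_setPrim h m24_four.2⟩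

theorem IsM11x.two (h : IsM11x G) : NoExc G 2 := GenBetween.both h m11x_two

theorem IsM11x.three (h : IsM11x G) : TPrimitive G 3 ∧ ¬ TSetPrimitive G 3 :=
  ⟨GenBetween.prim h m11x_three.1, GenBetween.not_setPrim h m11x_three.2⟩

theorem IsM11x.not_four (h : IsM11x G) (ht : 4 ≤ t) : ¬ TTransitive G t :=
  fun htr => m11x_not_four ht (GenBetween.trans h htr)

end Between

section PL

variable {X : Type u} [DecidableEq X] [Finite X] {G : Subgroup (Perm X)} {q : ℕ} {t : ℕ}

theorem IsPL.card (h : IsPL G q) (hq : 0 < q) : Nat.card X = q + 1 := by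
  obtain ⟨F, _, _, e, hF, -⟩ := h
  haveI : Finite F := Nat.finite_of_card_ne_zero (by omega)
  rw [← Nat.card_congr e, card_onePoint, hF]

/-- facts about 3-transitive subgroups of `PΓL(2, q)` -/
theorem IsPL.three (h : IsPL G q) (hq : 5 ≤ q) (htr : TTransitive G 3) :
    (TPrimitive G 3 ↔ (q - 1).Prime) ∧ ¬ TSetPrimitive G 3 ∧
      (TSteinerPrimitive G 3 ↔ q.Prime ∨ ∃ r : ℕ, r.Prime ∧ q = 2 ^ r) := by
  obtain ⟨F, _, _, e, hF, hG⟩ := h
  haveI : Finite F := Nat.finite_of_card_ne_zero (by omega)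
  -- move the group to the projective line
  have hG' : conjGroup e.symm G ≤ PGammaL F := by
    intro g hg
    rw [← conjGroup_symm e (PGammaL F)]
    obtain ⟨k, hk, rfl⟩ := hg
    exact ⟨k, hG hk, rfl⟩
  have htr' : TTransitive (conjGroup e.symm G) 3 := trans_conj.mpr htr
  have h1 := pl_three_primitive_iff hG' htr'
  have h2 := pl_not_three_set hG' (by rw [hF]; exact hq)
  have h3 := pl_three_steiner_iff hG' htr'
  rw [prim_conj, hF] at h1
  rw [set_conj] at h2
  rw [steiner_conj, hF] at h3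
  refine ⟨?_, h2, h3⟩
  rw [h1]
  constructor
  · rintro (h4 | h4)
    · exact h4
    · omega
  · exact Or.inl

theorem IsPL.not_four (h : IsPL G q) (hq : 5 ≤ q) (ht : 4 ≤ t) : ¬ TTransitive G t := by
  obtain ⟨F, _, _, e, hF, hG⟩ := h
  haveI : Finite F := Nat.finite_of_card_ne_zero (by omega)
  have hG' : conjGroup e.symm G ≤ PGammaL F := by
    intro g hg
    rw [← conjGroup_symm e (PGammaL F)]
    obtain ⟨k, hk, rfl⟩ := hg
    exact ⟨k, hG hk, rfl⟩
  intro htr
  have := pl_not_four_trans hG' ht (trans_conj.mpr htr)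
  omega

/-- `q` is a prime power -/
theorem IsPL.prime_pow (h : IsPL G q) (hq : 5 ≤ q) : ∃ p k : ℕ, p.Prime ∧ q = p ^ k := by
  obtain ⟨F, _, _, e, hF, hG⟩ := h
  haveI : Finite F := Nat.finite_of_card_ne_zero (by omega)
  haveI := Fintype.ofFinite F
  obtain ⟨p, hchar⟩ := CharP.exists F
  haveI := hchar
  haveI hp : Fact p.Prime := ⟨CharP.char_is_prime F p⟩
  letI : Algebra (ZMod p) F := ZMod.algebra F p
  refine ⟨p, Module.finrank (ZMod p) F, hp.out, ?_⟩
  rw [← hF, Module.natCard_eq_pow_finrank (K := ZMod p), Nat.card_zmod]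

end PL

section Main

variable {X : Type u} [Fintype X] [DecidableEq X] {G : Subgroup (Perm X)} {t : ℕ}

/-- `t ≥ 3`, a nontrivial soluble normal subgroup: no exceptions -/
theorem sol_noExc (h : HasSol G) (ht : 3 ≤ t) (htr : TTransitive G t) : NoExc G t := by
  have hn2 : 2 ≤ Nat.card X := by have := htr.1; omega
  by_cases hn4 : Nat.card X ≤ 4
  · obtain ⟨h1, h2, h3⟩ := alt_result (by omega) htr (alt_of_small htr (by omega))
    exact noExc_of_prim h1 (h3.mpr (by omega))
  have hne : Nonempty X := by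
    by_contra hcon
    rw [not_nonempty_iff] at hcon
    rw [Nat.card_of_isEmpty] at hn2
    omega
  obtain ⟨x0⟩ := hne
  obtain ⟨inst, hx0, hA⟩ := h.aff (by omega) htr x0
  obtain ⟨p, hp, hord⟩ := IsAff.exists_prime (by omega) htr hA
  have htr3 : TTransitive G 3 := tTransitive_of_le ht htr
  have htr2 : TTransitive G 2 := tTransitive_of_le (by omega) htr
  rcases hp.eq_two_or_odd' with h2 | h2
  · subst h2
    have hxx : ∀ x : X, x + x = 0 := by
      intro x
      by_cases hx : x = 0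
      · rw [hx, add_zero]
      · have := addOrderOf_nsmul_eq_zero x
        rwa [hord x hx, two_nsmul] at this
    have hns := hA.not_steiner_three hxx (by omega)
    have ht3 : t = 3 := by
      by_contra hcon
      exact not_trans_of_steiner hns (m := t) (by omega) htr
    subst ht3
    exact noExc_of_not_steiner (by norm_num) hns
  · exfalso
    have hp3 : 2 < p := by
      have := hp.two_le
      rcases Nat.lt_or_ge 2 p with h | h
      · exact h
      · exfalso
        have : p = 2 := by omega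
        rw [this] at h2
        exact absurd h2 (by decide)
    exact hA.not_two_prim_odd le_rfl htr2 hp hord hp3 (by omega)
      (tPrimitive_of_succ_trans htr3)

/-- `2 ^ k - 1` is a prime only if `k` is a prime -/
theorem mersenne_prime {k : ℕ} (h : (2 ^ k - 1).Prime) : k.Prime :=
  (Nat.prime_of_pow_sub_one_prime (by rintro rfl; norm_num at h) h).2

/-- the exceptions of degree `q + 1` -/
theorem pl_exc {q : ℕ} (h : IsPL G q) (hq : 5 ≤ q) (htr : TTransitive G 3) :
    (ExcA G 3 ↔ ∃ r, (2 ^ r - 1).Prime ∧ q = 2 ^ r) ∧ ¬ ExcB G 3 ∧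
    (ExcC G 3 ↔ q.Prime ∨ ∃ r, r.Prime ∧ ¬ (2 ^ r - 1).Prime ∧ q = 2 ^ r) ∧
    (ExcD G 3 ↔ q.Prime ∨ ∃ r, r.Prime ∧ q = 2 ^ r) := by
  obtain ⟨h1, h2, h3⟩ := h.three hq htr
  -- `q - 1` prime means a power of two
  have hpow : (q - 1).Prime ↔ ∃ r, (2 ^ r - 1).Prime ∧ q = 2 ^ r := by
    constructor
    · intro h4
      obtain ⟨p, k, hp, hk⟩ := h.prime_pow hq
      have hodd : Odd (q - 1) := h4.odd_of_ne_two (by omega)
      have heven : Even q := by
        obtain ⟨j, hj⟩ := hodd
        exact ⟨j + 1, by omega⟩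
      have hp2 : p = 2 := by
        have : 2 ∣ p ^ k := by rw [← hk]; exact heven.two_dvd
        exact ((Nat.prime_dvd_prime_iff_eq Nat.prime_two hp).mp
          (Nat.prime_two.dvd_of_dvd_pow this)).symm
      subst hp2
      exact ⟨k, by rw [← hk]; exact h4, hk⟩
    · rintro ⟨r, hr, rfl⟩
      exact hr
  refine ⟨?_, fun h4 => h2 h4.1, ?_, ?_⟩
  · unfold ExcA
    rw [h1, hpow]
    simp [h2]
  · unfold ExcC
    rw [h1, hpow, h3]
    constructor
    · rintro ⟨h4 | ⟨r, hr, rfl⟩, h5⟩
      · exact Or.inl h4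
      · exact Or.inr ⟨r, hr, fun h6 => h5 ⟨r, h6, rfl⟩, rfl⟩
    · rintro (h4 | ⟨r, hr, hr', rfl⟩)
      · refine ⟨Or.inl h4, ?_⟩
        rintro ⟨r, hr, rfl⟩
        have h5 := mersenne_prime hr
        exact Nat.Prime.not_prime_pow' h5.ne_one h4
      · refine ⟨Or.inr ⟨r, hr, rfl⟩, ?_⟩
        rintro ⟨r', h6, h7⟩
        rw [← h7] at h6
        exact hr' h6
  · unfold ExcD
    rw [h3]
    simp [h2]

/-- The classification for `t ≥ 3`. -/
theorem three_result (ht : 3 ≤ t) (htr : TTransitive G t) (hG : OnList3 G) :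
    (ExcA G t ↔ ListA3 G t) ∧
    ¬ ExcB G t ∧
    (ExcC G t ↔ ListC3 G t) ∧
    (ExcD G t ↔ ListD3 G t) := by
  have hpow8 : ∀ r : ℕ, 3 ≤ r → 5 ≤ 2 ^ r := by
    intro r hr
    have : 2 ^ 3 ≤ 2 ^ r := Nat.pow_le_pow_right (by norm_num) hr
    omega
  -- the listed groups are exceptions
  have hr3 : ∀ r : ℕ, r.Prime → ¬ (2 ^ r - 1).Prime → 3 ≤ r := by
    intro r hr h
    have := hr.two_le
    by_contra hcon
    have : r = 2 := by omega
    rw [this] at h
    exact h (by norm_num)
  have halt : ∀ {t : ℕ}, 3 ≤ t → TTransitive G t → Nat.card X = 2 * t ∧ alternatingGroup X ≤ G →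
      ExcA G t ∧ ExcD G t := by
    rintro t ht htr ⟨h1, h2⟩
    obtain ⟨h3, h4, h5⟩ := alt_result (by omega) htr h2
    have h6 : ¬ TSetPrimitive G t := fun h => h5.mp h h1
    exact ⟨⟨h3, h6⟩, ⟨h4, h6⟩⟩
  have bA : (ListA3 G t) → ExcA G t := by
    rintro (⟨rfl, r, hr, hp, h⟩ | ⟨rfl, h⟩ | ⟨rfl, h⟩ | h)
    · exact (pl_exc h (hpow8 r hr) htr).1.mpr ⟨r, hp, rfl⟩
    · exact h.three
    · exact h.four
    · exact (halt ht htr h).1
  have bC : (ListC3 G t) → ExcC G t := by
    rintro ⟨rfl, ⟨p, hp, hp5, h⟩ | ⟨r, hr, hr', h⟩⟩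
    · exact (pl_exc h hp5 htr).2.2.1.mpr (Or.inl hp)
    · exact (pl_exc h (hpow8 r (hr3 r hr hr')) htr).2.2.1.mpr (Or.inr ⟨r, hr, hr', rfl⟩)
  have bD : (ListD3 G t) → ExcD G t := by
    rintro (⟨rfl, ⟨p, hp, hp5, h⟩ | ⟨r, hr, hr', h⟩⟩ | ⟨rfl, h⟩ | ⟨rfl, h⟩ | h)
    · exact (pl_exc h hp5 htr).2.2.2.mpr (Or.inl hp)
    · exact (pl_exc h (hpow8 r hr') htr).2.2.2.mpr (Or.inr ⟨r, hr, rfl⟩)
    · exact ⟨h.three.1.steiner (by norm_num), h.three.2⟩
    · exact ⟨h.four.1.steiner (by norm_num), h.four.2⟩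
    · exact (halt ht htr h).2
  -- groups without exceptions
  have fin : NoExc G t → (ExcA G t ↔ ListA3 G t) ∧
      ¬ ExcB G t ∧
      (ExcC G t ↔ ListC3 G t) ∧
      (ExcD G t ↔ ListD3 G t) := by
    rintro ⟨a1, a2, a3, a4⟩
    exact ⟨⟨fun h => absurd h a1, bA⟩, a2, ⟨fun h => absurd h a3, bC⟩,
      ⟨fun h => absurd h a4, bD⟩⟩
  -- it suffices to prove the four implications
  have fin' : (ExcA G t → ListA3 G t) →
      ¬ ExcB G t →
      (ExcC G t → ListC3 G t) →
      (ExcD G t → ListD3 G t) →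
      (ExcA G t ↔ ListA3 G t) ∧ ¬ ExcB G t ∧ (ExcC G t ↔ ListC3 G t) ∧ (ExcD G t ↔ ListD3 G t) :=
    fun h1 h2 h3 h4 => ⟨⟨h1, bA⟩, h2, ⟨h3, bC⟩, ⟨h4, bD⟩⟩
  rcases hG with h | h | ⟨q, hq0, h⟩ | h | h | h | h | h | h
  · -- alternating groups
    obtain ⟨h1, h2, h3⟩ := alt_result (by omega) htr h
    by_cases hn : Nat.card X = 2 * t
    · refine fin' (fun _ => Or.inr (Or.inr (Or.inr ⟨hn, h⟩))) (fun h4 => h4.2 h1)
        (fun h4 => absurd h1 h4.2) (fun _ => Or.inr (Or.inr (Or.inr ⟨hn, h⟩)))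
    · exact fin (noExc_of_prim h1 (h3.mpr hn))
  · exact fin (sol_noExc h ht htr)
  · -- subgroups of `PΓL(2, q)`
    have hcard := h.card hq0
    by_cases hq : 5 ≤ q
    · have ht3 : t = 3 := by
        by_contra hcon
        exact h.not_four hq (by omega) htr
      subst ht3
      obtain ⟨e1, e2, e3, e4⟩ := pl_exc h hq htr
      refine fin' (fun h5 => ?_) e2 (fun h5 => ?_) (fun h5 => ?_)
      · obtain ⟨r, hr, rfl⟩ := e1.mp h5
        refine Or.inl ⟨rfl, r, ?_, hr, h⟩
        by_contra hcon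
        have : 2 ^ r ≤ 2 ^ 2 := Nat.pow_le_pow_right (by norm_num) (by omega)
        omega
      · refine ⟨rfl, ?_⟩
        rcases e3.mp h5 with h6 | ⟨r, hr, hr', rfl⟩
        · exact Or.inl ⟨q, h6, hq, h⟩
        · exact Or.inr ⟨r, hr, hr', h⟩
      · left
        refine ⟨rfl, ?_⟩
        rcases e4.mp h5 with h6 | ⟨r, hr, rfl⟩
        · exact Or.inl ⟨q, h6, hq, h⟩
        · refine Or.inr ⟨r, hr, ?_, h⟩
          by_contra hcon
          have : 2 ^ r ≤ 2 ^ 2 := Nat.pow_le_pow_right (by norm_num) (by omega)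
          omega
    · obtain ⟨h1, h2, h3⟩ := alt_result (by omega) htr (alt_of_small htr (by omega))
      exact fin (noExc_of_prim h1 (h3.mpr (by omega)))
  · exact fin (h.noExc (by omega) htr)
  · have ht3 : t = 3 := by
      by_contra hcon
      exact h.not_four (by omega) htr
    subst ht3
    have h3 := h.three
    exact fin' (fun _ => Or.inr (Or.inl ⟨rfl, h⟩)) (fun h4 => h4.2 h3.1)
      (fun h4 => absurd h3.1 h4.2) (fun _ => Or.inr (Or.inl ⟨rfl, h⟩))
  · exact fin (h.noExc (by omega) htr)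
  · exact fin (h.noExc (by omega) htr)
  · exact fin (h.noExc (by omega) htr)
  · by_cases ht4 : t = 4
    · subst ht4
      have h3 := h.four
      exact fin' (fun _ => Or.inr (Or.inr (Or.inl ⟨rfl, h⟩))) (fun h4 => h4.2 h3.1)
        (fun h4 => absurd h3.1 h4.2) (fun _ => Or.inr (Or.inr (Or.inl ⟨rfl, h⟩)))
    · exact fin (h.noExc (by omega) ht4 htr)

end Main

end Pool.Agent.H922
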