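import Mathlib
import Pool.Agent.H922.Defs12
import Pool.Agent.H922.Three
import Pool.Agent.H922.Aff6
import Pool.Agent.H922.PSLf
import Pool.Agent.H922.Lin3
import Pool.Agent.H922.Sym2
import Pool.Agent.H922.Quad2
import Pool.Agent.H922.Suz5
import Pool.Agent.H922.ExSmall
import Pool.Agent.H922.ExHS
import Pool.Agent.H922.ExCo3

set_option autoImplicit false
set_option linter.unusedVariables false
set_option linter.unusedSectionVars false
set_option linter.style.haveILetI false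

/-!
# Preparations for the complete lists of exceptions
-/

namespace Pool.Agent.H922

open Equiv MulAction

universe u

section Combine

variable {X : Type u} [Finite X] [DecidableEq X] {G : Subgroup (Perm X)} {t : ℕ}

/-- assembling the four statements -/
theorem combine {LA LC LS : Prop} (ht : 1 ≤ t) (bA : LA → TPrimitive G t ∧ ¬ TSetPrimitive G t)
    (bC : LC → TSteinerPrimitive G t ∧ ¬ TPrimitive G t ∧ ¬ TSetPrimitive G t)
    (bS : LS → TSetPrimitive G t ∧ ¬ TPrimitive G t)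
    (cA : ExcA G t → LA) (cS : ExcB G t → LS)
    (cC : TSteinerPrimitive G t → ¬ TPrimitive G t → ¬ TSetPrimitive G t → LC) :
    (ExcA G t ↔ LA) ∧ (ExcB G t ↔ LS) ∧ (ExcC G t ↔ LC ∨ LS) ∧ (ExcD G t ↔ LA ∨ LC) := by
  refine ⟨⟨cA, bA⟩, ⟨cS, bS⟩, ⟨?_, ?_⟩, ⟨?_, ?_⟩⟩
  · rintro ⟨h1, h2⟩
    by_cases h3 : TSetPrimitive G t
    · exact Or.inr (cS ⟨h3, h2⟩)
    · exact Or.inl (cC h1 h2 h3)
  · rintro (h | h)
    · exact ⟨(bC h).1, (bC h).2.1⟩
    · exact ⟨(bS h).1.steiner ht, (bS h).2⟩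
  · rintro ⟨h1, h2⟩
    by_cases h3 : TPrimitive G t
    · exact Or.inl (cA ⟨h3, h2⟩)
    · exact Or.inr (cC h1 h3 h2)
  · rintro (h | h)
    · exact ⟨(bA h).1.steiner ht, (bA h).2⟩
    · exact ⟨(bC h).1, (bC h).2.2⟩

end Combine

section Two

variable {X : Type u} [Fintype X] [DecidableEq X] {G : Subgroup (Perm X)} {t : ℕ}

theorem GenBetween.trans_le {n : ℕ} {L M : List (List ℕ)} (h : GenBetween G n L M)
    (hp : TTransitive (genGroup n L) t) : TTransitive G t := by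
  obtain ⟨e, h1, -⟩ := h
  exact (trans_conj.mpr hp).mono h1

theorem IsL11.noExc (h : IsL11 G) : NoExc G 2 := GenBetween.both h la_two

theorem IsHS.noExc (h : IsHS G) : NoExc G 2 := GenBetween.both h hs_two

theorem IsCo3.noExc (h : IsCo3 G) : NoExc G 2 := GenBetween.both h co_two

theorem Is16A6.prim (h : Is16A6 G) (htr : TTransitive G 2) :
    TPrimitive G 2 ∧ ¬ TSetPrimitive G 2 := by
  obtain ⟨hs, e, h1⟩ := h
  obtain ⟨inst, -, hA⟩ := hs.aff le_rfl htr (e 0)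
  refine ⟨(prim_conj.mpr as_two.2).mono h1, hA.not_two_set ?_⟩
  rw [← Nat.card_congr e, Nat.card_fin]
  norm_num

theorem Is64G2.prim (h : Is64G2 G) (htr : TTransitive G 2) :
    TPrimitive G 2 ∧ ¬ TSetPrimitive G 2 := by
  obtain ⟨hs, e, h1⟩ := h
  obtain ⟨inst, -, hA⟩ := hs.aff le_rfl htr (e 0)
  refine ⟨(prim_conj.mpr gt_two.2).mono h1, hA.not_two_set ?_⟩
  rw [← Nat.card_congr e, Nat.card_fin]
  norm_num

/-- the exceptions between `AGL(1, q)` and `AΓL(1, q)` -/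
theorem IsAL.result {q : ℕ} (h : IsAL G q) : Nat.card X = q ∧ TTransitive G 2 ∧
    (ExcA G 2 ↔ ∃ r, q = 2 ^ r ∧ (2 ^ r - 1).Prime) ∧
    ((5 ≤ q ∧ q.Prime) ∨ (∃ r, r.Prime ∧ q = 2 ^ r ∧ ¬ (2 ^ r - 1).Prime) →
      ExcC G 2 ∧ ExcD G 2) := by
  obtain ⟨F, iF, e, hq, hb⟩ := h
  haveI : Finite F := Finite.of_equiv X e.symm
  have hX : Nat.card X = q := by rw [← Nat.card_congr e, hq]
  have htr := hb.two_transitive
  obtain ⟨h1, h2, h3, h4, h5⟩ := soluble_result le_rfl htr (Or.inl hb.soluble)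
  rw [hX] at h1 h3 h4
  refine ⟨hX, htr, ?_, ?_⟩
  · rw [h1]
    simp
  · intro h6
    refine ⟨h3.mpr ⟨rfl, h6⟩, h4.mpr ⟨rfl, ?_, ?_⟩⟩
    · rcases h6 with h6 | ⟨r, hr, hqr, -⟩
      · omega
      · rw [hqr]
        calc 4 = 2 ^ 2 := by norm_num
          _ ≤ 2 ^ r := Nat.pow_le_pow_right (by norm_num) hr.two_le
    · rcases h6 with h6 | ⟨r, hr, hqr, -⟩
      · exact Or.inl h6.2
      · exact Or.inr ⟨r, hr, hqr⟩

end Two

end Pool.Agent.H922
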