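import Mathlib
import Pool.Agent.H922.Quad2

set_option autoImplicit false
set_option linter.style.haveILetI false
set_option linter.unusedVariables false
set_option linter.unusedSectionVars false

/-!
# `Sp(2m, 2)` is not 3-transitive
-/

namespace Pool.Agent.H922

open Equiv MulAction

section Forms

variable {V : Type*} [AddCommGroup V] [Module (ZMod 2) V] [Finite V]
  {φ : V →ₗ[ZMod 2] V →ₗ[ZMod 2] ZMod 2} {N : ℕ} {K : Subgroup (Perm (QForm φ N))}

theorem sp_not_three [Finite (QForm φ N)] (hφ : IsSymp φ)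
    (hV : 64 ≤ Nat.card V) (hN : 2 * N ≠ Nat.card V)
    (hK : ∀ g ∈ K, ∃ (A : V ≃ₗ[ZMod 2] V), ∀ (Q : QForm φ N) (v : V), (g Q).1 (A v) = Q.1 v) :
    ¬ TTransitive K 3 := by
  classical
  intro htr
  have hnt : Nontrivial (QForm φ N) := by
    have h2 := htr.1
    exact Finite.one_lt_card_iff_nontrivial.mp (by omega)
  obtain ⟨Q0, Q1, h01⟩ := exists_pair_ne (QForm φ N)
  obtain ⟨c, hc, rfl⟩ := exists_shift hφ hN Q0 Q1
  have hc0 : c ≠ 0 := by
    rintro rfl
    exact h01 (shiftQ_zero hφ Q0).symm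
  -- a singular vector orthogonal to `c`
  obtain ⟨u, hu0, huc, hQu, hcu⟩ : ∃ u, u ≠ 0 ∧ u ≠ c ∧ Q0.1 u = 0 ∧ φ u c = 0 := by
    obtain ⟨w1, p1, -, -, hw1⟩ := exists_perp (φ := φ) hV c 0 0 {0, c}
      (le_trans Finset.card_le_two (by norm_num))
    simp only [Finset.mem_insert, Finset.mem_singleton, not_or] at hw1
    rcases zmod2_cases (Q0.1 w1) with h5 | h5
    · exact ⟨w1, hw1.1, hw1.2, h5, p1⟩
    obtain ⟨w2, p2, p3, -, hw2⟩ := exists_perp (φ := φ) hV c w1 0 {0, c, w1, c + w1}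
      (le_trans Finset.card_le_four (by norm_num))
    simp only [Finset.mem_insert, Finset.mem_singleton, not_or] at hw2
    rcases zmod2_cases (Q0.1 w2) with h6 | h6
    · exact ⟨w2, hw2.1, hw2.2.1, h6, p2⟩
    · refine ⟨w1 + w2, ?_, ?_, ?_, ?_⟩
      · intro h7
        apply hw2.2.2.1
        rw [← zmod2_add_self' w2] at h7
        exact (add_right_cancel h7).symm
      · intro h7
        apply hw2.2.2.2
        rw [← h7, add_comm w1 w2, add_assoc, zmod2_add_self', add_zero]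
      · rw [Q0.2.1, h5, h6, hφ.comm, p3]; decide
      · rw [map_add, LinearMap.add_apply, p1, p2, add_zero]
  -- a singular vector not orthogonal to `c`
  obtain ⟨d, hQd, hdc⟩ : ∃ d, Q0.1 d = 0 ∧ φ d c = 1 := by
    obtain ⟨d0, hd0⟩ : ∃ d0, φ c d0 ≠ 0 := by
      by_contra hcon
      push Not at hcon
      exact hc0 (hφ.2 c hcon)
    have hd1 : φ d0 c = 1 := by
      rw [hφ.comm]
      rcases zmod2_cases (φ c d0) with h5 | h5
      · exact absurd h5 hd0
      · exact h5
    rcases zmod2_cases (Q0.1 d0) with h5 | h5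
    · exact ⟨d0, h5, hd1⟩
    · refine ⟨d0 + c, ?_, ?_⟩
      · rw [Q0.2.1, h5, hc, hd1]; decide
      · rw [map_add, LinearMap.add_apply, hd1, hφ.1, add_zero]
  have hd0 : d ≠ 0 := by
    rintro rfl
    rw [map_zero, LinearMap.zero_apply] at hdc
    exact zero_ne_one hdc
  have hdcne : d ≠ c := by
    rintro rfl
    rw [hφ.1] at hdc
    exact zero_ne_one hdc
  have hne : ∀ c (hc : Q0.1 c = 0), c ≠ 0 → Q0 ≠ shiftQ hφ Q0 c hc := by
    intro c hc hc0 h
    apply hc0
    apply shiftQ_inj hφ Q0 hc Q0.zero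
    rw [← h, shiftQ_zero]
  obtain ⟨g, hg, hgx⟩ := (multTrans_iff _ 3).mp htr.2
    ![Q0, shiftQ hφ Q0 c hc, shiftQ hφ Q0 u hQu] ![Q0, shiftQ hφ Q0 c hc, shiftQ hφ Q0 d hQd]
    (by
      have e1 := hne c hc hc0
      have e2 := hne u hQu hu0
      have e3 : shiftQ hφ Q0 c hc ≠ shiftQ hφ Q0 u hQu := fun h =>
        huc (shiftQ_inj hφ Q0 hc hQu h).symm
      intro i j hij
      fin_cases i <;> fin_cases j <;> simp_all [Ne.symm, eq_comm])
    (by
      have e1 := hne c hc hc0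
      have e2 := hne d hQd hd0
      have e3 : shiftQ hφ Q0 c hc ≠ shiftQ hφ Q0 d hQd := fun h =>
        hdcne (shiftQ_inj hφ Q0 hc hQd h).symm
      intro i j hij
      fin_cases i <;> fin_cases j <;> simp_all [Ne.symm, eq_comm])
  have g0 : g Q0 = Q0 := hgx 0
  have g1 : g (shiftQ hφ Q0 c hc) = shiftQ hφ Q0 c hc := hgx 1
  have g2 : g (shiftQ hφ Q0 u hQu) = shiftQ hφ Q0 d hQd := hgx 2
  obtain ⟨A, hA⟩ := hK g hg
  have a0 : ∀ v, Q0.1 (A v) = Q0.1 v := by
    intro v
    have := hA Q0 v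
    rwa [g0] at this
  have a1 : ∀ v, φ (A v) c = φ v c := by
    intro v
    have := hA (shiftQ hφ Q0 c hc) v
    rw [g1, shiftQ_apply, shiftQ_apply, a0] at this
    exact add_left_cancel this
  have a2 : ∀ v, φ (A v) d = φ v u := by
    intro v
    have := hA (shiftQ hφ Q0 u hQu) v
    rw [g2, shiftQ_apply, shiftQ_apply, a0] at this
    exact add_left_cancel this
  -- the isometry maps `c` to `c`
  have hiso : ∀ v w, φ (A v) (A w) = φ v w := by
    intro v w
    have h1 := Q0.2.1 (A v) (A w)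
    rw [← map_add, a0, a0, a0, Q0.2.1] at h1
    exact (add_left_cancel h1).symm
  have hAc : A c = c := by
    rw [← sub_eq_zero]
    apply hφ.2
    intro w
    obtain ⟨v, rfl⟩ := A.surjective w
    rw [map_sub, LinearMap.sub_apply, hiso, hφ.comm c (A v), a1, hφ.comm v c, sub_self]
  have h3 := a2 c
  rw [hAc, hφ.comm c d, hdc, hφ.comm, hcu] at h3
  exact one_ne_zero h3

end Forms

universe u

variable {X : Type u} [Finite X] {G : Subgroup (Perm X)}

theorem IsSp2.not_three (h : IsSp2 G) : ¬ TTransitive G 3 := by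
  classical
  intro htr
  obtain ⟨m, V, iV, iM, φ, N, e, hm, hV, hφ, hN, hG⟩ := h
  haveI : Finite V := Nat.finite_of_card_ne_zero (by rw [hV]; positivity)
  haveI : Finite (QForm φ N) := Finite.of_equiv X e.symm
  have htr' : TTransitive (conjGroup e.symm G) 3 := trans_conj.mpr htr
  have hV64 : 64 ≤ Nat.card V := by
    rw [hV]
    calc 64 = 2 ^ (2 * 3) := by norm_num
      _ ≤ 2 ^ (2 * m) := Nat.pow_le_pow_right (by norm_num) (by omega)
  have hN2 : 2 * N ≠ Nat.card V := by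
    obtain ⟨k, rfl⟩ : ∃ k, m = k + 1 := ⟨m - 1, by omega⟩
    have e1 : k + 1 - 1 = k := by omega
    have e2 : 2 ^ (2 * (k + 1)) = 2 * (2 ^ k * 2 ^ (k + 1)) := by ring
    have h0 : 0 < 2 ^ k := by positivity
    have h1 : 0 < 2 ^ (k + 1) := by positivity
    rw [e1] at hN
    rw [hV, e2]
    rcases hN with hN | hN
    · rw [hN]
      intro h5
      have h6 := Nat.eq_of_mul_eq_mul_left (by norm_num) h5
      have h7 := Nat.eq_of_mul_eq_mul_left h0 h6
      omega
    · rw [hN]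
      intro h5
      have h6 := Nat.eq_of_mul_eq_mul_left (by norm_num) h5
      have h7 := Nat.eq_of_mul_eq_mul_left h0 h6
      omega
  refine sp_not_three hφ hV64 hN2 ?_ htr'
  intro g hg
  obtain ⟨k, hk, hkv⟩ := of_mem_conj_symm hg
  obtain ⟨A, hA, hAQ⟩ := (hG k).mp hk
  refine ⟨A, fun Q v => ?_⟩
  have h1 := hAQ Q (actQ A hA Q) (fun v => by rw [actQ_apply, A.symm_apply_apply])
  have h2 : g Q = actQ A hA Q := e.injective (by rw [hkv, h1])
  rw [h2, actQ_apply, A.symm_apply_apply]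

end Pool.Agent.H922
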