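import Mathlib
import Pool.Agent.H922.CDefs

set_option autoImplicit false
set_option linter.style.haveILetI false
set_option linter.unusedVariables false
set_option linter.unusedSectionVars false

/-!
# Ree groups: algebraic lemmas
-/

namespace Pool.Agent.H922.C

open Equiv

variable {F : Type*} [Field F] {θ : F ≃+* F}

/-- the conditions on the field -/
structure RF (θ : F ≃+* F) : Prop where
  h : ∀ x, θ (θ x) = x ^ 3
  card : 3 < Nat.card F

theorem RF.finite (H : RF θ) : Finite F := Nat.finite_of_card_ne_zero (by have := H.card; omega)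

/-- there is an element outside any three elements -/
theorem RF.exists_ne (H : RF θ) (a b c : F) : ∃ x, x ≠ a ∧ x ≠ b ∧ x ≠ c := by
  classical
  haveI := H.finite
  haveI := Fintype.ofFinite F
  by_contra hcon
  push Not at hcon
  have h1 : (Finset.univ : Finset F) ⊆ {a, b, c} := by
    intro x _
    simp only [Finset.mem_insert, Finset.mem_singleton]
    by_cases hx : x = a
    · exact Or.inl hx
    · by_cases hx' : x = b
      · exact Or.inr (Or.inl hx')
      · exact Or.inr (Or.inr (hcon x hx hx'))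
  have h2 := Finset.card_le_card h1
  have h3 : (({a, b, c} : Finset F)).card ≤ 3 := Finset.card_le_three
  have h4 := H.card
  rw [Nat.card_eq_fintype_card, ← Finset.card_univ] at h4
  omega

theorem RF.three (H : RF θ) : (3 : F) = 0 := by
  have h1 : ∀ x y : F, 3 * x * y * (x + y) = 0 := by
    intro x y
    have h2 : θ (θ (x + y)) = θ (θ x) + θ (θ y) := by rw [map_add, map_add]
    rw [H.h, H.h, H.h] at h2
    linear_combination h2
  by_contra h3
  have h4 : (2 : F) = 0 := by
    have := h1 1 1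
    have h5 : (3 : F) * 2 = 0 := by linear_combination this
    rcases mul_eq_zero.mp h5 with h6 | h6
    · exact absurd h6 h3
    · exact h6
  obtain ⟨x, hx0, hx1, hx2⟩ := H.exists_ne 0 (-1) 1
  have h5 := h1 x 1
  rw [mul_one, mul_assoc] at h5
  rcases mul_eq_zero.mp h5 with h6 | h6
  · exact h3 h6
  · rcases mul_eq_zero.mp h6 with h7 | h7
    · exact hx0 h7
    · exact hx1 (by linear_combination h7)

theorem RF.two_ne (H : RF θ) : (2 : F) ≠ 0 := by
  intro h
  have := H.three
  exact one_ne_zero (α := F) (by linear_combination this - h)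

theorem RF.cube (H : RF θ) {x : F} (h : x ^ 3 = x) : x = 0 ∨ x = 1 ∨ x = -1 := by
  have h1 : x * ((x - 1) * (x + 1)) = 0 := by linear_combination h
  rcases mul_eq_zero.mp h1 with h2 | h2
  · exact Or.inl h2
  · rcases mul_eq_zero.mp h2 with h3 | h3
    · exact Or.inr (Or.inl (sub_eq_zero.mp h3))
    · exact Or.inr (Or.inr (eq_neg_of_add_eq_zero_left h3))

theorem RF.fix (H : RF θ) {x : F} (h : θ x = x) : x = 0 ∨ x = 1 ∨ x = -1 :=
  H.cube (by rw [← H.h, h, h])

theorem RF.exists_moved (H : RF θ) : ∃ x, θ x ≠ x ∧ x ^ 3 ≠ x := by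
  obtain ⟨x, h0, h1, h2⟩ := H.exists_ne 0 1 (-1)
  refine ⟨x, fun h => ?_, fun h => ?_⟩
  · rcases H.fix h with h3 | h3 | h3
    · exact h0 h3
    · exact h1 h3
    · exact h2 h3
  · rcases H.cube h with h3 | h3 | h3
    · exact h0 h3
    · exact h1 h3
    · exact h2 h3

/-- `θ z w = z θ w` for proportional elements only -/
theorem RF.ratio (H : RF θ) {z w : F} (hz : z ≠ 0) (hw : w ≠ 0) (h : θ z * w = θ w * z) :
    z = w ∨ z = -w := by
  have hw' : θ w ≠ 0 := by simpa using hw
  have h1 : θ (z / w) = z / w := by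
    rw [map_div₀, div_eq_div_iff hw' hw, h, mul_comm]
  rcases H.fix h1 with h2 | h2 | h2
  · rw [div_eq_zero_iff] at h2
    rcases h2 with h2 | h2
    · exact absurd h2 hz
    · exact absurd h2 hw
  · exact Or.inl ((div_eq_one_iff_eq hw).mp h2)
  · right
    rw [div_eq_iff hw] at h2
    rw [h2]; ring

/-- linear independence of `θ` and the identity -/
theorem RF.lin2 (H : RF θ) {p q : F} (h : ∀ z, p * θ z + q * z = 0) : p = 0 ∧ q = 0 := by
  have h1 := h 1
  rw [map_one] at h1
  obtain ⟨x, hx, -⟩ := H.exists_moved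
  have h2 := h x
  have h3 : p * (θ x - x) = 0 := by linear_combination h2 - x * h1
  rcases mul_eq_zero.mp h3 with h4 | h4
  · exact ⟨h4, by linear_combination h1 - h4⟩
  · exact absurd (sub_eq_zero.mp h4) hx

/-- linear independence of the cube, `θ` and the identity -/
theorem RF.lin3 (H : RF θ) {a p q : F} (h : ∀ z, a * z ^ 3 + p * θ z + q * z = 0) :
    a = 0 ∧ p = 0 ∧ q = 0 := by
  have h1 : ∀ w z : F, p * (θ w - w ^ 3) * θ z + q * (w - w ^ 3) * z = 0 := by
    intro w z
    have h2 := h (z * w)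
    have h3 := h z
    rw [map_mul] at h2
    linear_combination h2 - w ^ 3 * h3
  obtain ⟨x, hx, hx3⟩ := H.exists_moved
  obtain ⟨h4, h5⟩ := H.lin2 (h1 x)
  have hq : q = 0 := by
    rcases mul_eq_zero.mp h5 with h6 | h6
    · exact h6
    · exact absurd (sub_eq_zero.mp h6).symm hx3
  have hp : p = 0 := by
    rcases mul_eq_zero.mp h4 with h6 | h6
    · exact h6
    · exfalso
      have h7 := sub_eq_zero.mp h6
      rw [← H.h] at h7
      exact hx (θ.injective h7).symm
  refine ⟨?_, hp, hq⟩
  have := h 1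
  rw [hp, hq] at this
  simpa using this

/-- independence of the quadratic expressions -/
theorem RF.quad (H : RF θ) {a b c : F} (h : ∀ z, a * z ^ 2 + b * (z * θ z) + c * θ z ^ 2 = 0) :
    a = 0 ∧ b = 0 ∧ c = 0 := by
  have h3 := H.three
  have h1 := h 1
  rw [map_one] at h1
  have h2 : ∀ z, (b + 2 * c) * θ z + (2 * a + b) * z = 0 := by
    intro z
    have h4 := h (z + 1)
    rw [map_add, map_one] at h4
    linear_combination h4 - h z - h1
  obtain ⟨h5, h6⟩ := H.lin2 h2
  -- all coefficients are equal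
  have hb : b = a := by linear_combination h6 - a * h3
  have hc : c = a := by linear_combination h5 * (-1) + c * h3 + hb
  obtain ⟨x, hx, -⟩ := H.exists_moved
  have h7 := h x
  have h8 : a * (x - θ x) ^ 2 = 0 := by
    rw [hb, hc] at h7
    linear_combination h7 - a * x * θ x * h3
  have ha : a = 0 := by
    rcases mul_eq_zero.mp h8 with h9 | h9
    · exact h9
    · exfalso
      exact hx (sub_eq_zero.mp (pow_eq_zero_iff (two_ne_zero) |>.mp h9)).symm
  exact ⟨ha, by rw [hb, ha], by rw [hc, ha]⟩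

/-- `θ x * x = 1` does not hold for all nonzero `x` -/
theorem RF.exists_mul_ne (H : RF θ) : ∃ x, x ≠ 0 ∧ θ x * x ≠ 1 := by
  obtain ⟨x, hx, hx3⟩ := H.exists_moved
  by_contra hcon
  push Not at hcon
  have hx0 : x ≠ 0 := by
    rintro rfl
    simp at hx
  have h1 := hcon x hx0
  have h2 := congrArg θ h1
  rw [map_mul, map_one, H.h] at h2
  apply hx3
  have h3 : θ x ≠ 0 := by simpa using hx0
  exact mul_right_cancel₀ h3 (by rw [h2, ← h1]; ring)

/-- all automorphisms are powers of the cube map -/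
theorem RF.aut_pow (H : RF θ) (σ : F ≃+* F) : ∃ j : ℕ, ∀ x, σ x = x ^ 3 ^ j := by
  haveI := H.finite
  haveI := Fintype.ofFinite F
  haveI h3 : CharP F 3 := by
    haveI : Fact (Nat.Prime 3) := ⟨Nat.prime_three⟩
    exact (CharP.charP_iff_prime_eq_zero Nat.prime_three).mpr (by exact_mod_cast H.three)
  haveI : Fact (Nat.Prime 3) := ⟨Nat.prime_three⟩
  letI : Algebra (ZMod 3) F := ZMod.algebra F 3
  let σ' : F ≃ₐ[ZMod 3] F := AlgEquiv.ofRingEquiv (f := σ) (fun x => by
    have h1 : (σ : F →+* F).comp (algebraMap (ZMod 3) F) = algebraMap (ZMod 3) F :=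
      RingHom.ext_zmod _ _
    exact RingHom.congr_fun h1 x)
  obtain ⟨j, hj⟩ := (FiniteField.bijective_frobeniusAlgEquivOfAlgebraic_pow (ZMod 3) F).2 σ'
  refine ⟨j, fun x => ?_⟩
  have h4 : σ' x = σ x := rfl
  rw [← h4, ← hj]
  simp [FiniteField.coe_frobeniusAlgEquivOfAlgebraic_iterate, AlgEquiv.coe_pow, ZMod.card]

theorem RF.comm (H : RF θ) (σ : F ≃+* F) (x : F) : σ (θ x) = θ (σ x) := by
  obtain ⟨j, hj⟩ := H.aut_pow σ
  rw [hj, hj, map_pow]

/-- the automorphism group has odd order -/
theorem RF.odd (H : RF θ) {σ : F ≃+* F} (h : ∀ x, σ (σ x) = x) (x : F) : σ x = x := by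
  obtain ⟨j, hj⟩ := H.aut_pow σ
  obtain ⟨i, hi⟩ := H.aut_pow θ
  -- the cube map as an iterate
  have hc : ∀ (k : ℕ) (y : F), ((fun z : F => z ^ 3)^[k]) y = y ^ 3 ^ k := by
    intro k
    induction k with
    | zero => intro y; simp
    | succ k ih => intro y; rw [Function.iterate_succ_apply, ih, ← pow_mul]; congr 1; ring
  have hσ : ∀ (k : ℕ) (y : F), (σ^[k]) y = y ^ 3 ^ (j * k) := by
    intro k
    induction k with
    | zero => intro y; simp
    | succ k ih =>
      intro y
      rw [Function.iterate_succ_apply, ih, hj, ← pow_mul]; congr 1; ring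
  have h2i : ∀ y : F, y ^ 3 ^ (2 * i) = y ^ 3 := by
    intro y
    rw [← H.h, hi, hi, ← pow_mul]
    congr 1
    ring
  -- `σ ^ (2 i) = σ`
  have h1 : ∀ (k : ℕ) (y : F), y ^ 3 ^ (2 * i * k) = y ^ 3 ^ k := by
    intro k
    induction k with
    | zero => intro y; simp
    | succ k ih =>
      intro y
      have e1 : 3 ^ (2 * i * (k + 1)) = 3 ^ (2 * i * k) * 3 ^ (2 * i) := by
        rw [← pow_add]; congr 1
      rw [e1, pow_mul, h2i, ← pow_mul, mul_comm, pow_mul, ih, ← pow_mul]
      congr 1
      ring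
  have h3 : ∀ k : ℕ, ∀ y, (σ^[2 * k]) y = y := by
    intro k
    induction k with
    | zero => intro y; simp
    | succ k ih =>
      intro y
      have e1 : 2 * (k + 1) = 2 * k + 1 + 1 := by ring
      rw [e1, Function.iterate_succ_apply, Function.iterate_succ_apply, h, ih]
  have h4 := h3 i x
  rw [hσ] at h4
  rw [hj, ← h1 j x]
  have e1 : 2 * i * j = j * (2 * i) := by ring
  rw [e1]
  exact h4

/-- the field has more than 9 elements -/
theorem RF.card9 (H : RF θ) : 9 < Nat.card F := by
  haveI := H.finite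
  haveI := Fintype.ofFinite F
  haveI h3 : CharP F 3 := by
    haveI : Fact (Nat.Prime 3) := ⟨Nat.prime_three⟩
    exact (CharP.charP_iff_prime_eq_zero Nat.prime_three).mpr (by exact_mod_cast H.three)
  obtain ⟨n, hp, hn⟩ := FiniteField.card F 3
  by_contra hcon
  have h1 := H.card
  rw [Nat.card_eq_fintype_card, hn] at h1 hcon
  have hn2 : (n : ℕ) = 2 := by
    have h5 : (n : ℕ) < 3 := by
      by_contra h6
      have : 3 ^ 3 ≤ 3 ^ (n : ℕ) := Nat.pow_le_pow_right (by norm_num) (by omega)
      omega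
    have h7 : 1 < (n : ℕ) := by
      by_contra h6
      have : 3 ^ (n : ℕ) ≤ 3 ^ 1 := Nat.pow_le_pow_right (by norm_num) (by omega)
      omega
    omega
  have h9 : ∀ x : F, x ^ 9 = x := by
    intro x
    have := FiniteField.pow_card x
    rw [hn, hn2] at this
    exact this
  obtain ⟨i, hi⟩ := H.aut_pow θ
  obtain ⟨x, hx, hx3⟩ := H.exists_moved
  have h10 : ∀ (k : ℕ) (y : F), y ^ 3 ^ (2 * k) = y := by
    intro k
    induction k with
    | zero => intro y; simp
    | succ k ih =>
      intro y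
      have e1 : 3 ^ (2 * (k + 1)) = 9 * 3 ^ (2 * k) := by ring
      rw [e1, pow_mul, h9, ih]
  rcases Nat.even_or_odd' i with ⟨k, hk | hk⟩
  · apply hx
    rw [hi, hk, h10]
  · have h11 : ∀ y, θ y = y ^ 3 := by
      intro y
      have e1 : 3 ^ i = 3 ^ (2 * k) * 3 := by rw [hk, pow_succ]
      rw [hi, e1, pow_mul, h10]
    apply hx3
    rw [← H.h, h11, h11, ← pow_mul]
    exact h9 x

end Pool.Agent.H922.C
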