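import Mathlib
import Pool.Agent.H922.Ree1

set_option autoImplicit false
set_option linter.style.haveILetI false
set_option linter.unusedVariables false
set_option linter.unusedSectionVars false

/-!
# Ree groups: additive functions
-/

namespace Pool.Agent.H922.C

open Equiv

variable {F : Type*} [Field F] {θ : F ≃+* F}

/-- the additive function `z ↦ p θ z + q z` -/
def lf (θ : F ≃+* F) (p q z : F) : F := p * θ z + q * z

theorem lf_add (p q z w : F) : lf θ p q (z + w) = lf θ p q z + lf θ p q w := by
  unfold lf; rw [map_add]; ring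

theorem lf_neg (p q z : F) : lf θ p q (-z) = - lf θ p q z := by
  unfold lf; rw [map_neg]; ring

/-- the kernel has at most three elements -/
theorem RF.ker (H : RF θ) {p q z w : F} (hpq : ¬ (p = 0 ∧ q = 0)) (hz : z ≠ 0) (hw : w ≠ 0)
    (h1 : lf θ p q z = 0) (h2 : lf θ p q w = 0) : z = w ∨ z = -w := by
  unfold lf at h1 h2
  have hp : p ≠ 0 := by
    rintro rfl
    rw [zero_mul, zero_add] at h1
    rcases mul_eq_zero.mp h1 with h3 | h3
    · exact hpq ⟨rfl, h3⟩
    · exact hz h3
  apply H.ratio hz hw
  apply mul_left_cancel₀ hp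
  linear_combination w * h1 - z * h2

/-- values of the first coordinate along a line -/
theorem RF.values (H : RF θ) {p q : F} {τ : F → F} (hτ : ∀ z w, τ (z + w) = τ z + τ w)
    (h : ∀ z, lf θ p q z * (τ z + θ (lf θ p q z) * lf θ p q z ^ 2) = 0) {z w : F}
    (hz : lf θ p q z ≠ 0) (hw : lf θ p q w ≠ 0) :
    lf θ p q z = lf θ p q w ∨ lf θ p q z = - lf θ p q w := by
  have h3 := H.three
  by_cases hs : lf θ p q z + lf θ p q w = 0
  · exact Or.inr (eq_neg_of_add_eq_zero_left hs)
  have e1 := (mul_eq_zero.mp (h z)).resolve_left hz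
  have e2 := (mul_eq_zero.mp (h w)).resolve_left hw
  have e3 := (mul_eq_zero.mp (h (z + w))).resolve_left (by rw [lf_add]; exact hs)
  rw [lf_add, hτ, map_add] at e3
  generalize lf θ p q z = x at *
  generalize lf θ p q w = y at *
  have e4 : (x - y) * (θ x * y - θ y * x) = 0 := by
    linear_combination e1 + e2 - e3 + (θ x * x * y + θ y * x * y) * h3
  rcases mul_eq_zero.mp e4 with h5 | h5
  · exact Or.inl (sub_eq_zero.mp h5)
  · exact H.ratio hz hw (by linear_combination h5)

/-- such a function is zero -/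
theorem RF.zero (H : RF θ) {p q : F} {τ : F → F} (hτ : ∀ z w, τ (z + w) = τ z + τ w)
    (h : ∀ z, lf θ p q z * (τ z + θ (lf θ p q z) * lf θ p q z ^ 2) = 0) : p = 0 ∧ q = 0 := by
  classical
  haveI := H.finite
  haveI := Fintype.ofFinite F
  by_contra hpq
  -- a nonzero value
  obtain ⟨z0, hz0⟩ : ∃ z, lf θ p q z ≠ 0 := by
    by_contra hcon
    push Not at hcon
    exact hpq (H.lin2 fun z => hcon z)
  -- a generator of the kernel
  obtain ⟨w, hw⟩ : ∃ w, ∀ z, lf θ p q z = 0 → z = 0 ∨ z = w ∨ z = -w := by
    by_cases hk : ∃ w, w ≠ 0 ∧ lf θ p q w = 0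
    · obtain ⟨w, hw0, hw⟩ := hk
      refine ⟨w, fun z hz => ?_⟩
      by_cases hz0 : z = 0
      · exact Or.inl hz0
      · exact Or.inr (H.ker hpq hz0 hw0 hz hw)
    · push Not at hk
      refine ⟨0, fun z hz => ?_⟩
      by_contra hcon
      push Not at hcon
      exact hk z hcon.1 hz
  have hcard := H.card9
  have h1 : (Finset.univ : Finset F).card ≤
      3 * (({0, lf θ p q z0, - lf θ p q z0} : Finset F)).card := by
    apply Finset.card_le_mul_card_image_of_maps_to (f := lf θ p q)
    · intro z _
      simp only [Finset.mem_insert, Finset.mem_singleton]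
      by_cases hz : lf θ p q z = 0
      · exact Or.inl hz
      · exact Or.inr (H.values hτ h hz hz0)
    · intro a _
      by_cases hne : ∃ z1, lf θ p q z1 = a
      · obtain ⟨z1, hz1⟩ := hne
        have hsub : (Finset.univ.filter fun z => lf θ p q z = a) ⊆ {z1, z1 + w, z1 - w} := by
          intro z hz
          rw [Finset.mem_filter] at hz
          have h2 : lf θ p q (z - z1) = 0 := by
            rw [sub_eq_add_neg, lf_add, lf_neg, hz.2, hz1, add_neg_cancel]
          simp only [Finset.mem_insert, Finset.mem_singleton]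
          rcases hw _ h2 with h3 | h3 | h3
          · exact Or.inl (sub_eq_zero.mp h3)
          · exact Or.inr (Or.inl (by linear_combination h3))
          · exact Or.inr (Or.inr (by linear_combination h3))
        exact (Finset.card_le_card hsub).trans Finset.card_le_three
      · have : (Finset.univ.filter fun z => lf θ p q z = a) = ∅ := by
          rw [Finset.filter_eq_empty_iff]
          intro z _ hz
          exact hne ⟨z, hz⟩
        rw [this]
        simp
  have h2 : (({0, lf θ p q z0, - lf θ p q z0} : Finset F)).card ≤ 3 := Finset.card_le_three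
  rw [Nat.card_eq_fintype_card, ← Finset.card_univ] at hcard
  omega

/-- two additive functions with product zero -/
theorem lf_mul_zero {p q p' q' : F} (h : ∀ z, lf θ p q z * lf θ p' q' z = 0) :
    (∀ z, lf θ p q z = 0) ∨ ∀ z, lf θ p' q' z = 0 := by
  by_contra hcon
  push Not at hcon
  obtain ⟨⟨z, hz⟩, ⟨w, hw⟩⟩ := hcon
  have h1 := (mul_eq_zero.mp (h z)).resolve_left hz
  have h2 := (mul_eq_zero.mp (h w)).resolve_right hw
  have h3 := h (z + w)
  rw [lf_add, lf_add, h1, h2, add_zero, zero_add] at h3
  rcases mul_eq_zero.mp h3 with h4 | h4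
  · exact hz h4
  · exact hw h4

/-- the restriction to a line -/
theorem RF.line (H : RF θ) {p q b b' c c' : F} {υ ν : F → F} (hυ : ∀ z, υ (-z) = - υ z)
    (hν : ∀ z, ν (-z) = - ν z)
    (h1 : ∀ z, reeU θ (lf θ p q z) (lf θ b b' z) (lf θ c c' z) = υ z)
    (h2 : ∀ z, reeV θ (lf θ p q z) (lf θ b b' z) (lf θ c c' z) = ν z) :
    p = 0 ∧ q = 0 ∧ (∀ z, lf θ b b' z * lf θ c c' z = 0) ∧ (∀ z, υ z = θ (lf θ b b' z)) ∧
      ∀ z, ν z = - θ (lf θ c c' z) := by
  have h3 := H.three
  have h2' := H.two_ne
  obtain ⟨hp, hq⟩ := H.zero (p := p) (q := q) (τ := lf θ c c') (fun z w => lf_add c c' z w) (by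
    intro z
    have e1 := h1 z
    have e2 := h1 (-z)
    rw [hυ, lf_neg, lf_neg, lf_neg] at e2
    unfold reeU at e1 e2
    rw [map_neg, map_neg] at e2
    apply mul_left_cancel₀ h2'
    linear_combination (-1 : F) * (e1 + e2))
  subst hp
  subst hq
  have h0 : ∀ z, lf θ 0 0 z = 0 := by intro z; unfold lf; ring
  have h4 : ∀ z, lf θ b b' z * lf θ c c' z = 0 := by
    intro z
    have e1 := h2 z
    have e2 := h2 (-z)
    rw [hν, lf_neg, lf_neg, lf_neg] at e2
    rw [h0] at e1 e2
    unfold reeV at e1 e2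
    rw [map_neg, map_neg, map_neg] at e2
    simp only [map_zero, neg_zero] at e1 e2
    apply mul_left_cancel₀ h2'
    linear_combination e1 + e2
  refine ⟨rfl, rfl, h4, fun z => ?_, fun z => ?_⟩
  · rw [← h1 z, h0]
    unfold reeU
    simp
  · rw [← h2 z, h0]
    unfold reeV
    simp only [map_zero]
    linear_combination h4 z

end Pool.Agent.H922.C
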