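import Mathlib
import Pool.Agent.H922.Ree2

set_option autoImplicit false
set_option linter.style.haveILetI false
set_option linter.unusedVariables false
set_option linter.unusedSectionVars false

/-!
# Ree groups: the stabiliser of two points, algebraic part
-/

namespace Pool.Agent.H922.C

open Equiv

variable {F : Type*} [Field F] {θ : F ≃+* F}

/-- the first coordinate of the points of the ovoid -/
def reeN (θ : F ≃+* F) (r s t : F) : F := r * reeV θ r s t + s * reeU θ r s t + t ^ 2

/-- linear combinations of the coordinates 1-5 -/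
def lc (θ : F ≃+* F) (m : Fin 5 → F) (r s t : F) : F :=
  m 0 * reeV θ r s t + m 1 * reeU θ r s t + m 2 * t + m 3 * s + m 4 * r

theorem lc_z (m : Fin 5 → F) (z : F) : lc θ m 0 0 z = lf θ (-m 0) (m 2) z := by
  unfold lc lf reeV reeU
  simp only [map_zero]
  ring

theorem lc_s (m : Fin 5 → F) (z : F) : lc θ m 0 z 0 = lf θ (m 1) (m 3) z := by
  unfold lc lf reeV reeU
  simp only [map_zero]
  ring

/-- The algebraic core: `a, b, c` are the rows of `r', s', t'`, `d, e` those of `U', V'`, and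
`k, n` that of `N'`. -/
theorem RF.stab (H : RF θ) {a b c d e n : Fin 5 → F} {k : F} (hk : k ≠ 0)
    (ha : ∃ r s t, lc θ a r s t ≠ 0)
    (h1 : ∀ r s t, reeU θ (lc θ a r s t) (lc θ b r s t) (lc θ c r s t) = lc θ d r s t)
    (h2 : ∀ r s t, reeV θ (lc θ a r s t) (lc θ b r s t) (lc θ c r s t) = lc θ e r s t)
    (h3 : ∀ r s t, reeN θ (lc θ a r s t) (lc θ b r s t) (lc θ c r s t) =
      k * reeN θ r s t + lc θ n r s t) :
    ∃ κ : F, κ ≠ 0 ∧ ∀ r s t, lc θ a r s t = κ * r ∧ lc θ b r s t = κ * θ κ * s ∧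
      lc θ c r s t = κ ^ 2 * θ κ * t := by
  have hthree := H.three
  have htwo := H.two_ne
  -- the first line
  obtain ⟨ha0, ha2, hz1, hz2, hz3⟩ := H.line (p := -a 0) (q := a 2) (b := -b 0) (b' := b 2)
    (c := -c 0) (c' := c 2) (υ := lf θ (-d 0) (d 2)) (ν := lf θ (-e 0) (e 2))
    (fun z => lf_neg _ _ z) (fun z => lf_neg _ _ z)
    (fun z => by rw [← lc_z, ← lc_z, ← lc_z, ← lc_z]; exact h1 0 0 z)
    (fun z => by rw [← lc_z, ← lc_z, ← lc_z, ← lc_z]; exact h2 0 0 z)
  have ha0' : a 0 = 0 := neg_eq_zero.mp ha0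
  have hN1 : ∀ z, lf θ (-b 0) (b 2) z * θ (lf θ (-b 0) (b 2) z) + lf θ (-c 0) (c 2) z ^ 2 =
      k * z ^ 2 := by
    have e1 : ∀ z, lf θ (-b 0) (b 2) z * θ (lf θ (-b 0) (b 2) z) + lf θ (-c 0) (c 2) z ^ 2 =
        k * z ^ 2 + lf θ (-n 0) (n 2) z := by
      intro z
      have f1 := h3 0 0 z
      unfold reeN at f1
      rw [h1, h2, lc_z, lc_z, lc_z, lc_z, lc_z, lc_z, ha0, ha2, hz2, hz3] at f1
      have f2 : lf θ 0 0 z = 0 := by unfold lf; ring
      rw [f2] at f1
      unfold reeU reeV at f1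
      simp only [map_zero] at f1
      linear_combination f1
    intro z
    have f1 := e1 z
    have f2 := e1 (-z)
    simp only [lf_neg, map_neg] at f2
    apply mul_left_cancel₀ htwo
    linear_combination f1 + f2
  have hb : b 0 = 0 ∧ b 2 = 0 := by
    rcases lf_mul_zero hz1 with h4 | h4
    · obtain ⟨h5, h6⟩ := H.lin2 h4
      exact ⟨neg_eq_zero.mp h5, h6⟩
    · exfalso
      -- `U' = θ s'`
      have h5 : ∀ z, θ (-b 0) * z ^ 3 + (θ (b 2) + d 0) * θ z + (- d 2) * z = 0 := by
        intro z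
        have := hz2 z
        unfold lf at this
        rw [map_add, map_mul, map_mul, H.h] at this
        linear_combination -this
      obtain ⟨h6, -, -⟩ := H.lin3 h5
      have hb0 : -b 0 = 0 := by simpa using h6
      have h7 : ∀ z, (-k) * z ^ 2 + (b 2 * θ (b 2)) * (z * θ z) + 0 * θ z ^ 2 = 0 := by
        intro z
        have := hN1 z
        rw [h4, hb0] at this
        unfold lf at this
        rw [zero_mul, zero_add, map_mul] at this
        linear_combination this
      exact hk (neg_eq_zero.mp (H.quad h7).1)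
  have hc0 : c 0 = 0 := by
    have h5 : ∀ z, θ (-c 0) * z ^ 3 + (θ (c 2) - e 0) * θ z + (e 2) * z = 0 := by
      intro z
      have := hz3 z
      unfold lf at this
      rw [map_add, map_mul, map_mul, H.h] at this
      linear_combination this
    obtain ⟨h6, -, -⟩ := H.lin3 h5
    have : -c 0 = 0 := by simpa using h6
    exact neg_eq_zero.mp this
  have hd : d 0 = 0 := by
    have h4 : ∀ z, lf θ (-d 0) (d 2) z = 0 := by
      intro z
      rw [hz2, hb.1, hb.2]
      unfold lf
      simp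
    obtain ⟨h5, h6⟩ := H.lin2 h4
    exact neg_eq_zero.mp h5
  -- the second line
  obtain ⟨ha1, ha3, hs1, hs2, hs3⟩ := H.line (p := a 1) (q := a 3) (b := b 1) (b' := b 3)
    (c := c 1) (c' := c 3) (υ := lf θ (d 1) (d 3)) (ν := lf θ (e 1) (e 3))
    (fun z => lf_neg _ _ z) (fun z => lf_neg _ _ z)
    (fun z => by rw [← lc_s, ← lc_s, ← lc_s, ← lc_s]; exact h1 0 z 0)
    (fun z => by rw [← lc_s, ← lc_s, ← lc_s, ← lc_s]; exact h2 0 z 0)
  have hN2 : ∀ z, lf θ (b 1) (b 3) z * θ (lf θ (b 1) (b 3) z) + lf θ (c 1) (c 3) z ^ 2 =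
      k * (z * θ z) := by
    have e1 : ∀ z, lf θ (b 1) (b 3) z * θ (lf θ (b 1) (b 3) z) + lf θ (c 1) (c 3) z ^ 2 =
        k * (z * θ z) + lf θ (n 1) (n 3) z := by
      intro z
      have f1 := h3 0 z 0
      unfold reeN at f1
      rw [h1, h2, lc_s, lc_s, lc_s, lc_s, lc_s, lc_s, ha1, ha3, hs2, hs3] at f1
      have f2 : lf θ 0 0 z = 0 := by unfold lf; ring
      rw [f2] at f1
      unfold reeU reeV at f1
      simp only [map_zero] at f1
      linear_combination f1
    intro z
    have f1 := e1 z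
    have f2 := e1 (-z)
    simp only [lf_neg, map_neg] at f2
    apply mul_left_cancel₀ htwo
    linear_combination f1 + f2
  have hc : c 1 = 0 ∧ c 3 = 0 := by
    rcases lf_mul_zero hs1 with h4 | h4
    · exfalso
      have h7 : ∀ z, (c 3 ^ 2) * z ^ 2 + (2 * c 1 * c 3 - k) * (z * θ z) + (c 1 ^ 2) * θ z ^ 2 =
          0 := by
        intro z
        have := hN2 z
        rw [h4] at this
        unfold lf at this
        rw [zero_mul, zero_add] at this
        linear_combination this
      obtain ⟨h8, h9, h10⟩ := H.quad h7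
      have h11 : c 3 = 0 := by simpa using h8
      rw [h11] at h9
      apply hk
      linear_combination -h9
    · exact H.lin2 h4
  have hbd : b 1 = 0 ∧ d 1 = θ (b 3) ∧ d 3 = 0 := by
    have h5 : ∀ z, θ (b 1) * z ^ 3 + (θ (b 3) - d 1) * θ z + (- d 3) * z = 0 := by
      intro z
      have := hs2 z
      unfold lf at this
      rw [map_add, map_mul, map_mul, H.h] at this
      linear_combination -this
    obtain ⟨h6, h7, h8⟩ := H.lin3 h5
    exact ⟨by simpa using h6, (sub_eq_zero.mp h7).symm, neg_eq_zero.mp h8⟩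
  -- shape of the rows
  have ra : ∀ r s t, lc θ a r s t = a 4 * r := by
    intro r s t; unfold lc; rw [ha0', ha1, ha2, ha3]; ring
  have rb : ∀ r s t, lc θ b r s t = b 3 * s + b 4 * r := by
    intro r s t; unfold lc; rw [hb.1, hbd.1, hb.2]; ring
  have rc : ∀ r s t, lc θ c r s t = c 2 * t + c 4 * r := by
    intro r s t; unfold lc; rw [hc0, hc.1, hc.2]; ring
  have rd : ∀ r s t, lc θ d r s t = d 1 * reeU θ r s t + d 2 * t + d 4 * r := by
    intro r s t; unfold lc; rw [hd, hbd.2.2]; ring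
  have hd2 : d 2 = 0 := by
    have h4 : ∀ z, lf θ (-d 0) (d 2) z = 0 := by
      intro z
      rw [hz2, hb.1, hb.2]
      unfold lf
      simp
    exact (H.lin2 h4).2
  have ha4 : a 4 ≠ 0 := by
    obtain ⟨r, s, t, h⟩ := ha
    rw [ra] at h
    exact left_ne_zero_of_mul h
  -- the third line
  have hr : ∀ r, a 4 ^ 2 * b 4 * r ^ 3 - a 4 * c 4 * r ^ 2 + θ (b 4) * θ r -
      θ (a 4) * a 4 ^ 3 * (θ r * r ^ 3) = - (d 1 * (θ r * r ^ 3)) + d 4 * r := by
    intro r
    have f1 := h1 r 0 0
    rw [ra, rb, rc, rd] at f1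
    unfold reeU at f1
    simp only [mul_zero, zero_add, map_mul, map_zero] at f1
    linear_combination f1
  have hb4 : b 4 = 0 := by
    have h5 : ∀ z, (a 4 ^ 2 * b 4) * z ^ 3 + θ (b 4) * θ z + (- d 4) * z = 0 := by
      intro z
      have f1 := hr z
      have f2 := hr (-z)
      rw [map_neg] at f2
      apply mul_left_cancel₀ htwo
      linear_combination f1 - f2
    obtain ⟨-, h6, -⟩ := H.lin3 h5
    simpa using h6
  have hev : ∀ z, (d 1 - θ (a 4) * a 4 ^ 3) * (θ z * z ^ 3) = a 4 * c 4 * z ^ 2 := by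
    intro z
    have f1 := hr z
    have f2 := hr (-z)
    rw [map_neg] at f2
    apply mul_left_cancel₀ htwo
    linear_combination f1 + f2
  have hev1 := hev 1
  rw [map_one] at hev1
  have hK : d 1 - θ (a 4) * a 4 ^ 3 = 0 := by
    obtain ⟨x, hx0, hx⟩ := H.exists_mul_ne
    have f1 := hev x
    have f2 : (d 1 - θ (a 4) * a 4 ^ 3) * (x ^ 2 * (θ x * x - 1)) = 0 := by
      linear_combination f1 - x ^ 2 * hev1
    rcases mul_eq_zero.mp f2 with f3 | f3
    · exact f3
    · exfalso
      rcases mul_eq_zero.mp f3 with f4 | f4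
      · exact hx0 (by simpa using f4)
      · exact hx (sub_eq_zero.mp f4)
  have hc4 : c 4 = 0 := by
    rw [hK] at hev1
    have : a 4 * c 4 = 0 := by linear_combination -hev1
    exact (mul_eq_zero.mp this).resolve_left ha4
  have hb3 : b 3 = a 4 * θ (a 4) := by
    apply θ.injective
    rw [map_mul, H.h, ← hbd.2.1]
    linear_combination hK
  have hc2 : c 2 = a 4 ^ 2 * θ (a 4) := by
    have f1 := h1 1 0 1
    have hd4 : d 4 = 0 := by
      have f2 := hr 1
      rw [hb4, hc4, map_one, map_zero] at f2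
      linear_combination -f2 + hK
    rw [ra, rb, rc, rd, hb4, hc4, hd2, hd4] at f1
    unfold reeU at f1
    simp only [mul_zero, add_zero, map_zero, map_one, mul_one, one_pow] at f1
    apply mul_left_cancel₀ ha4
    linear_combination -f1 + (2 : F) * hK
  refine ⟨a 4, ha4, fun r s t => ⟨ra r s t, ?_, ?_⟩⟩
  · rw [rb, hb4, hb3]; ring
  · rw [rc, hc4, hc2]; ring

end Pool.Agent.H922.C
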