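import Mathlib
import Pool.Agent.H922.Ree3
import Pool.Agent.H922.Br1

set_option autoImplicit false
set_option linter.style.haveILetI false
set_option linter.unusedVariables false
set_option linter.unusedSectionVars false

/-!
# Ree groups: the stabiliser of two points
-/

namespace Pool.Agent.H922.C

open Equiv MulAction Matrix

theorem inv_app {Y : Type*} (g : Perm Y) (x : Y) : g⁻¹ (g x) = x := by simp

section Mat

variable {F : Type*} [Field F] {θ : F ≃+* F}

theorem ree_some (r s t : F) : ree θ (some (r, s, t)) =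
    ![reeN θ r s t, reeV θ r s t, reeU θ r s t, t, s, r, 1] := rfl

theorem ree_none : ree θ none = ![1, 0, 0, 0, 0, 0, 0] := rfl

theorem ree_ne (x : Option (F × F × F)) : ree θ x ≠ 0 := by
  rcases x with _ | ⟨r, s, t⟩
  · intro h; simpa [ree_none] using congrFun h 0
  · intro h; simpa [ree_some] using congrFun h 6

theorem mulVec_ree (M : Matrix (Fin 7) (Fin 7) F) (r s t : F) (i : Fin 7) :
    (M *ᵥ ree θ (some (r, s, t))) i = M i 0 * reeN θ r s t + M i 1 * reeV θ r s t +
      M i 2 * reeU θ r s t + M i 3 * t + M i 4 * s + M i 5 * r + M i 6 := by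
  rw [ree_some]
  simp [mulVec, dotProduct, Fin.sum_univ_succ]
  ring

/-- The stabiliser of two points in the linear group is the torus. -/
theorem RF.matrix (H : RF θ) {M : Matrix (Fin 7) (Fin 7) F} {g : Perm (Option (F × F × F))}
    (h : Induced (ree θ) M (RingEquiv.refl F) g) (h0 : g none = none)
    (h1 : g (some (0, 0, 0)) = some (0, 0, 0)) :
    ∃ κ : F, κ ≠ 0 ∧ ∀ r s t, g (some (r, s, t)) =
      some (κ * r, κ * θ κ * s, κ ^ 2 * θ κ * t) := by
  obtain ⟨hdet, hM⟩ := h
  have hM' : ∀ x, ∃ c : F, M *ᵥ ree θ x = c • ree θ (g x) := fun x => hM x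
  -- column 0
  have hcol0 : ∀ i, i ≠ 0 → M i 0 = 0 := by
    intro i hi
    obtain ⟨c, hc⟩ := hM' none
    rw [h0] at hc
    have h2 := congrFun hc i
    have e1 : (M *ᵥ ree θ none) i = M i 0 := by
      rw [ree_none]
      simp [mulVec, dotProduct, Fin.sum_univ_succ]
    rw [e1, Pi.smul_apply, ree_none] at h2
    rw [h2]
    fin_cases i
    · exact absurd rfl hi
    all_goals simp
  have h00 : M 0 0 ≠ 0 := by
    intro h2
    apply hdet
    apply det_eq_zero_of_column_eq_zero 0
    intro i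
    by_cases hi : i = 0
    · rw [hi, h2]
    · exact hcol0 i hi
  -- column 6
  have z0 : reeN θ 0 0 0 = 0 ∧ reeV θ 0 0 0 = 0 ∧ reeU θ 0 0 0 = 0 := by
    refine ⟨?_, ?_, ?_⟩
    · unfold reeN reeV reeU; simp
    · unfold reeV; simp
    · unfold reeU; simp
  have hcol6 : ∀ i, i ≠ 6 → M i 6 = 0 := by
    intro i hi
    obtain ⟨c, hc⟩ := hM' (some (0, 0, 0))
    rw [h1] at hc
    have h2 := congrFun hc i
    rw [mulVec_ree, z0.1, z0.2.1, z0.2.2, Pi.smul_apply, ree_some, z0.1, z0.2.1, z0.2.2] at h2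
    have h3 : M i 6 = c • (![0, 0, 0, 0, 0, 0, 1] : Fin 7 → F) i := by
      rw [← h2]; ring
    rw [h3]
    fin_cases i
    all_goals first | exact absurd rfl hi | simp
  -- images
  have himg : ∀ r s t, ∃ r' s' t', g (some (r, s, t)) = some (r', s', t') := by
    intro r s t
    rcases hg : g (some (r, s, t)) with _ | ⟨r', s', t'⟩
    · rw [← h0] at hg
      exact absurd (g.injective hg) (by simp)
    · exact ⟨r', s', t', rfl⟩
  have hrow : ∀ r s t r' s' t', g (some (r, s, t)) = some (r', s', t') →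
      ∃ c : F, c ≠ 0 ∧ ∀ i, M i 0 * reeN θ r s t + M i 1 * reeV θ r s t +
        M i 2 * reeU θ r s t + M i 3 * t + M i 4 * s + M i 5 * r + M i 6 =
        c * (![reeN θ r' s' t', reeV θ r' s' t', reeU θ r' s' t', t', s', r', 1] : Fin 7 → F) i := by
    intro r s t r' s' t' hg
    obtain ⟨c, hc⟩ := hM' (some (r, s, t))
    refine ⟨c, ?_, fun i => ?_⟩
    · rintro rfl
      rw [zero_smul] at hc
      exact ree_ne _ (eq_zero_of_mulVec_eq_zero hdet hc)
    · rw [hg] at hc
      rw [← mulVec_ree, hc, ree_some]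
      rfl
  have hne : ∀ r s t, M 6 1 * reeV θ r s t + M 6 2 * reeU θ r s t + M 6 3 * t + M 6 4 * s +
      M 6 5 * r + M 6 6 ≠ 0 := by
    intro r s t h2
    obtain ⟨r', s', t', hg⟩ := himg r s t
    obtain ⟨c, hc, h3⟩ := hrow r s t r' s' t' hg
    have h4 := h3 6
    rw [hcol0 6 (by decide)] at h4
    apply hc
    have h5 : (![reeN θ r' s' t', reeV θ r' s' t', reeU θ r' s' t', t', s', r', 1] : Fin 7 → F) 6 =
      1 := rfl
    rw [h5] at h4
    linear_combination h2 - h4
  have h61 : M 6 1 = 0 := by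
    by_contra h2
    have h3 := hne 0 (-(M 6 3 / M 6 1)) (θ.symm ((M 6 2 * θ (-(M 6 3 / M 6 1)) +
      M 6 4 * (-(M 6 3 / M 6 1)) + M 6 6) / M 6 1))
    apply h3
    unfold reeV reeU
    rw [θ.apply_symm_apply]
    simp only [map_zero]
    field_simp
    ring
  have h62 : M 6 2 = 0 := by
    by_contra h2
    have h3 := hne ((M 6 3 - 1) / M 6 2) 0 (-(M 6 2 * (-(θ ((M 6 3 - 1) / M 6 2) *
      ((M 6 3 - 1) / M 6 2) ^ 3)) + M 6 5 * ((M 6 3 - 1) / M 6 2) + M 6 6))
    apply h3
    have e1 : M 6 2 * ((M 6 3 - 1) / M 6 2) = M 6 3 - 1 := mul_div_cancel₀ _ h2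
    rw [h61]
    unfold reeU
    generalize (M 6 3 - 1) / M 6 2 = x at *
    simp only [map_zero]
    linear_combination (M 6 2 * (-(θ x * x ^ 3)) + M 6 5 * x + M 6 6) * e1
  have h63 : M 6 3 = 0 := by
    by_contra h2
    have h3 := hne 0 0 (-(M 6 6 / M 6 3))
    apply h3
    rw [h61, h62]
    field_simp
    ring
  have h64 : M 6 4 = 0 := by
    by_contra h2
    have h3 := hne 0 (-(M 6 6 / M 6 4)) 0
    apply h3
    rw [h61, h62]
    field_simp
    ring
  have h65 : M 6 5 = 0 := by
    by_contra h2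
    have h3 := hne (-(M 6 6 / M 6 5)) 0 0
    apply h3
    rw [h61, h62]
    field_simp
    ring
  have hβ : M 6 6 ≠ 0 := by
    have := hne 0 0 0
    rwa [z0.2.1, z0.2.2, mul_zero, mul_zero, mul_zero, mul_zero, mul_zero, zero_add, zero_add,
      zero_add, zero_add, zero_add] at this
  -- the rows
  have hrow' : ∀ r s t r' s' t', g (some (r, s, t)) = some (r', s', t') → ∀ i,
      M i 0 * reeN θ r s t + M i 1 * reeV θ r s t +
        M i 2 * reeU θ r s t + M i 3 * t + M i 4 * s + M i 5 * r + M i 6 =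
        M 6 6 * (![reeN θ r' s' t', reeV θ r' s' t', reeU θ r' s' t', t', s', r', 1] :
          Fin 7 → F) i := by
    intro r s t r' s' t' hg i
    obtain ⟨c, hc, h3⟩ := hrow r s t r' s' t' hg
    have h4 := h3 6
    rw [hcol0 6 (by decide), h61, h62, h63, h64, h65] at h4
    have h5 : (![reeN θ r' s' t', reeV θ r' s' t', reeU θ r' s' t', t', s', r', 1] : Fin 7 → F) 6 =
      1 := rfl
    rw [h5] at h4
    have h6 : c = M 6 6 := by linear_combination -h4
    rw [h3 i, h6]
  let m : Fin 7 → Fin 5 → F := fun i => ![M i 1 / M 6 6, M i 2 / M 6 6, M i 3 / M 6 6,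
    M i 4 / M 6 6, M i 5 / M 6 6]
  have hlc : ∀ i r s t, M 6 6 * lc θ (m i) r s t = M i 1 * reeV θ r s t +
        M i 2 * reeU θ r s t + M i 3 * t + M i 4 * s + M i 5 * r := by
    intro i r s t
    unfold lc
    have e0 : m i 0 = M i 1 / M 6 6 := rfl
    have e1 : m i 1 = M i 2 / M 6 6 := rfl
    have e2 : m i 2 = M i 3 / M 6 6 := rfl
    have e3 : m i 3 = M i 4 / M 6 6 := rfl
    have e4 : m i 4 = M i 5 / M 6 6 := rfl
    rw [e0, e1, e2, e3, e4]
    field_simp
  have hcoord : ∀ r s t r' s' t', g (some (r, s, t)) = some (r', s', t') →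
      r' = lc θ (m 5) r s t ∧ s' = lc θ (m 4) r s t ∧ t' = lc θ (m 3) r s t ∧
      reeU θ r' s' t' = lc θ (m 2) r s t ∧ reeV θ r' s' t' = lc θ (m 1) r s t ∧
      reeN θ r' s' t' = M 0 0 / M 6 6 * reeN θ r s t + lc θ (m 0) r s t := by
    intro r s t r' s' t' hg
    have h2 := hrow' r s t r' s' t' hg
    refine ⟨?_, ?_, ?_, ?_, ?_, ?_⟩ <;> apply mul_left_cancel₀ hβ
    · have h3 := h2 5
      rw [hcol0 5 (by decide), hcol6 5 (by decide)] at h3
      have h4 : (![reeN θ r' s' t', reeV θ r' s' t', reeU θ r' s' t', t', s', r', 1] :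
        Fin 7 → F) 5 = r' := rfl
      rw [h4] at h3
      rw [hlc]; linear_combination -h3
    · have h3 := h2 4
      rw [hcol0 4 (by decide), hcol6 4 (by decide)] at h3
      have h4 : (![reeN θ r' s' t', reeV θ r' s' t', reeU θ r' s' t', t', s', r', 1] :
        Fin 7 → F) 4 = s' := rfl
      rw [h4] at h3
      rw [hlc]; linear_combination -h3
    · have h3 := h2 3
      rw [hcol0 3 (by decide), hcol6 3 (by decide)] at h3
      have h4 : (![reeN θ r' s' t', reeV θ r' s' t', reeU θ r' s' t', t', s', r', 1] :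
        Fin 7 → F) 3 = t' := rfl
      rw [h4] at h3
      rw [hlc]; linear_combination -h3
    · have h3 := h2 2
      rw [hcol0 2 (by decide), hcol6 2 (by decide)] at h3
      have h4 : (![reeN θ r' s' t', reeV θ r' s' t', reeU θ r' s' t', t', s', r', 1] :
        Fin 7 → F) 2 = reeU θ r' s' t' := rfl
      rw [h4] at h3
      rw [hlc]; linear_combination -h3
    · have h3 := h2 1
      rw [hcol0 1 (by decide), hcol6 1 (by decide)] at h3
      have h4 : (![reeN θ r' s' t', reeV θ r' s' t', reeU θ r' s' t', t', s', r', 1] :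
        Fin 7 → F) 1 = reeV θ r' s' t' := rfl
      rw [h4] at h3
      rw [hlc]; linear_combination -h3
    · have h3 := h2 0
      rw [hcol6 0 (by decide)] at h3
      have h4 : (![reeN θ r' s' t', reeV θ r' s' t', reeU θ r' s' t', t', s', r', 1] :
        Fin 7 → F) 0 = reeN θ r' s' t' := rfl
      rw [h4] at h3
      have h5 : M 6 6 * (M 0 0 / M 6 6 * reeN θ r s t + lc θ (m 0) r s t) =
          M 0 0 * reeN θ r s t + M 6 6 * lc θ (m 0) r s t := by
        field_simp
      rw [h5, hlc]; linear_combination -h3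
  have hco : ∀ r s t, g (some (r, s, t)) =
      some (lc θ (m 5) r s t, lc θ (m 4) r s t, lc θ (m 3) r s t) := by
    intro r s t
    obtain ⟨r', s', t', hg⟩ := himg r s t
    obtain ⟨h2, h3, h4, -⟩ := hcoord r s t r' s' t' hg
    rw [hg, h2, h3, h4]
  obtain ⟨κ, hκ, h2⟩ := H.stab (a := m 5) (b := m 4) (c := m 3) (d := m 2) (e := m 1) (n := m 0)
    (k := M 0 0 / M 6 6) (div_ne_zero h00 hβ) (by
      obtain ⟨x, hx⟩ := g.surjective (some (1, 0, 0))
      rcases x with _ | ⟨r, s, t⟩
      · rw [h0] at hx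
        exact absurd hx (by simp)
      · refine ⟨r, s, t, ?_⟩
        rw [← (hcoord r s t 1 0 0 hx).1]
        exact one_ne_zero)
    (fun r s t => (hcoord r s t _ _ _ (hco r s t)).2.2.2.1)
    (fun r s t => (hcoord r s t _ _ _ (hco r s t)).2.2.2.2.1)
    (fun r s t => (hcoord r s t _ _ _ (hco r s t)).2.2.2.2.2)
  refine ⟨κ, hκ, fun r s t => ?_⟩
  rw [hco]
  obtain ⟨h3, h4, h5⟩ := h2 r s t
  rw [h3, h4, h5]

/-- the involution `(r, s, t) ↦ (-r, s, -t)` -/
def reeInv : Perm (Option (F × F × F)) :=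
  Equiv.optionCongr ((Equiv.neg F).prodCongr ((Equiv.refl F).prodCongr (Equiv.neg F)))

theorem reeInv_none : (reeInv : Perm (Option (F × F × F))) none = none := rfl

theorem reeInv_some (r s t : F) : reeInv (some (r, s, t)) = some (-r, s, -t) := rfl

theorem reeInv_induced (θ : F ≃+* F) : Induced (ree θ)
    (Matrix.diagonal ![1, -1, 1, -1, 1, -1, 1]) (RingEquiv.refl F) reeInv := by
  refine ⟨?_, fun x => ⟨1, ?_⟩⟩
  · rw [det_diagonal]
    simp [Fin.prod_univ_succ]
  · rw [one_smul]
    rcases x with _ | ⟨r, s, t⟩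
    · rw [reeInv_none, ree_none]
      ext i
      fin_cases i <;> simp [mulVec_diagonal]
    · rw [reeInv_some, ree_some, ree_some]
      have e1 : reeV θ (-r) s (-t) = - reeV θ r s t := by
        unfold reeV; rw [map_neg, map_neg]; ring
      have e2 : reeU θ (-r) s (-t) = reeU θ r s t := by
        unfold reeU; rw [map_neg]; ring
      have e3 : reeN θ (-r) s (-t) = reeN θ r s t := by
        unfold reeN; rw [e1, e2]; ring
      rw [e1, e2, e3]
      ext i
      fin_cases i <;> simp [mulVec_diagonal]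

/-- the permutation given by a field automorphism -/
def reeAut (σ : F ≃+* F) : Perm (Option (F × F × F)) :=
  Equiv.optionCongr (σ.toEquiv.prodCongr (σ.toEquiv.prodCongr σ.toEquiv))

theorem reeAut_none (σ : F ≃+* F) : reeAut σ none = none := rfl

theorem reeAut_some (σ : F ≃+* F) (r s t : F) : reeAut σ (some (r, s, t)) =
    some (σ r, σ s, σ t) := rfl

theorem RF.reeAut_ree (H : RF θ) (σ : F ≃+* F) (x : Option (F × F × F)) :
    (fun i => σ (ree θ x i)) = ree θ (reeAut σ x) := by
  rcases x with _ | ⟨r, s, t⟩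
  · rw [reeAut_none, ree_none]
    ext i
    fin_cases i <;> simp
  · rw [reeAut_some, ree_some, ree_some]
    have e1 : reeV θ (σ r) (σ s) (σ t) = σ (reeV θ r s t) := by
      unfold reeV
      simp only [map_add, map_sub, map_mul, map_pow, H.comm]
    have e2 : reeU θ (σ r) (σ s) (σ t) = σ (reeU θ r s t) := by
      unfold reeU
      simp only [map_add, map_sub, map_mul, map_pow, H.comm]
    have e3 : reeN θ (σ r) (σ s) (σ t) = σ (reeN θ r s t) := by
      unfold reeN; rw [e1, e2]; simp only [map_add, map_mul, map_pow]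
    rw [e1, e2, e3]
    ext i
    fin_cases i <;> simp

/-- A semilinear involution fixing the two points is the involution above. -/
theorem RF.unique (H : RF θ) {M : Matrix (Fin 7) (Fin 7) F} {σ : F ≃+* F}
    {g : Perm (Option (F × F × F))} (h : Induced (ree θ) M σ g) (h0 : g none = none)
    (h1 : g (some (0, 0, 0)) = some (0, 0, 0)) (hg1 : g ≠ 1) (hg2 : g * g = 1) :
    g = reeInv := by
  have hind : Induced (ree θ) M (RingEquiv.refl F) (g * (reeAut σ)⁻¹) := by
    refine ⟨h.1, fun y => ?_⟩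
    obtain ⟨x, rfl⟩ := (reeAut σ).surjective y
    obtain ⟨c, hc⟩ := h.2 x
    refine ⟨c, ?_⟩
    rw [H.reeAut_ree] at hc
    rw [Perm.mul_apply, inv_app]
    exact hc
  have hn : (g * (reeAut σ)⁻¹) none = none := by
    rw [Perm.mul_apply]
    have : (reeAut σ)⁻¹ none = none := by rw [Perm.inv_eq_iff_eq, reeAut_none]
    rw [this, h0]
  have hz : (g * (reeAut σ)⁻¹) (some (0, 0, 0)) = some (0, 0, 0) := by
    rw [Perm.mul_apply]
    have : (reeAut σ)⁻¹ (some (0, 0, 0)) = some (0, 0, 0) := by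
      rw [Perm.inv_eq_iff_eq, reeAut_some, map_zero]
    rw [this, h1]
  obtain ⟨κ, hκ, h2⟩ := H.matrix hind hn hz
  have hgs : ∀ r s t, g (some (r, s, t)) =
      some (κ * σ r, κ * θ κ * σ s, κ ^ 2 * θ κ * σ t) := by
    intro r s t
    have h3 := h2 (σ r) (σ s) (σ t)
    rw [← reeAut_some, Perm.mul_apply, inv_app] at h3
    exact h3
  have hgg : ∀ x, g (g x) = x := fun x => by rw [← Perm.mul_apply, hg2, Perm.one_apply]
  have h3 : ∀ r, κ * σ (κ * σ r) = r := by
    intro r
    have h4 := hgg (some (r, 0, 0))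
    rw [hgs, hgs] at h4
    have h5 := Option.some.inj h4
    exact congrArg Prod.fst h5
  have h4 : κ * σ κ = 1 := by
    have := h3 1
    rwa [map_one, mul_one] at this
  have h5 : ∀ x, σ (σ x) = x := by
    intro x
    have h6 := h3 x
    rw [map_mul, ← mul_assoc, h4, one_mul] at h6
    exact h6
  have h6 := H.odd h5
  rw [h6] at h4
  have h7 : κ = 1 ∨ κ = -1 := by
    have h8 : (κ - 1) * (κ + 1) = 0 := by linear_combination h4
    rcases mul_eq_zero.mp h8 with h9 | h9
    · exact Or.inl (sub_eq_zero.mp h9)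
    · exact Or.inr (eq_neg_of_add_eq_zero_left h9)
  rcases h7 with rfl | rfl
  · exfalso
    apply hg1
    ext1 x
    rcases x with _ | ⟨r, s, t⟩
    · rw [h0]; rfl
    · rw [hgs, h6, h6, h6, map_one]
      simp
  · ext1 x
    rcases x with _ | ⟨r, s, t⟩
    · rw [h0]; rfl
    · rw [hgs, h6, h6, h6, map_neg, map_one, reeInv_some]
      simp

end Mat

section Grp

universe u

variable {X : Type u} {G : Subgroup (Perm X)}

theorem induced_conj {F : Type*} [Field F] {Y : Type*} {n : ℕ} {P : Y → Fin n → F} {e : X ≃ Y}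
    {M : Matrix (Fin n) (Fin n) F} {σ : F ≃+* F} {g : Perm X} :
    Induced (fun x => P (e x)) M σ g ↔ Induced P M σ (e.permCongr g) := by
  constructor
  · rintro ⟨h1, h2⟩
    refine ⟨h1, fun y => ?_⟩
    obtain ⟨c, hc⟩ := h2 (e.symm y)
    refine ⟨c, ?_⟩
    rw [Equiv.permCongr_apply]
    simpa using hc
  · rintro ⟨h1, h2⟩
    refine ⟨h1, fun x => ?_⟩
    obtain ⟨c, hc⟩ := h2 (e x)
    refine ⟨c, ?_⟩
    rw [Equiv.permCongr_apply, e.symm_apply_apply] at hc
    exact hc

theorem IsRee.old (h : IsRee G) (htr : TTransitive G 2) : H922.IsRee G := by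
  obtain ⟨F, iF, θ, e, hF, hθ, hlow, hup⟩ := h
  have H : RF θ := ⟨hθ, hF⟩
  intro a b hab
  -- move the two points
  obtain ⟨k, hk, hka, hkb⟩ : ∃ k ∈ G, k (e.symm none) = a ∧ k (e.symm (some (0, 0, 0))) = b := by
    have h1 := (multTrans_iff G 2).mp htr.2 ![e.symm none, e.symm (some (0, 0, 0))] ![a, b] (by
      intro i j hij
      fin_cases i <;> fin_cases j <;> simp_all) (by
      intro i j hij
      fin_cases i <;> fin_cases j <;> simp_all)
    obtain ⟨k, hk, h2⟩ := h1
    exact ⟨k, hk, h2 0, h2 1⟩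
  -- the involution
  have hinv : e.symm.permCongr reeInv ∈ G := by
    apply hlow (Matrix.diagonal ![1, -1, 1, -1, 1, -1, 1])
    rw [induced_conj]
    have : e.permCongr (e.symm.permCongr reeInv) = reeInv := by
      ext1 x; simp
    rw [this]
    exact reeInv_induced θ
  set w : Perm X := e.symm.permCongr reeInv with hw
  have hwx : ∀ y, w (e.symm y) = e.symm (reeInv y) := by
    intro y; simp [hw]
  have hww : w * w = 1 := by
    ext1 x
    obtain ⟨y, rfl⟩ := e.symm.surjective x
    rw [Perm.mul_apply, hwx, hwx]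
    rcases y with _ | ⟨r, s, t⟩
    · rfl
    · rw [reeInv_some, reeInv_some, neg_neg, neg_neg]; rfl
  have hw1 : w ≠ 1 := by
    intro h1
    have h2 := hwx (some (1, 0, 0))
    rw [h1, Perm.one_apply, reeInv_some] at h2
    have h3 := Option.some.inj (e.symm.injective h2)
    have h4 : (1 : F) = -1 := congrArg Prod.fst h3
    exact H.two_ne (by linear_combination h4)
  refine ⟨k * w * k⁻¹, G.mul_mem (G.mul_mem hk hinv) (G.inv_mem hk), ?_, ?_, ?_, ?_, ?_, ?_⟩
  · rw [Perm.mul_apply, Perm.mul_apply, ← hka, inv_app, hwx]; rfl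
  · rw [Perm.mul_apply, Perm.mul_apply, ← hkb, inv_app, hwx, reeInv_some, neg_zero]
  · intro h1
    apply hw1
    have h2 : w = k⁻¹ * (k * w * k⁻¹) * k := by group
    rw [h2, h1]; group
  · have h2 : k * w * k⁻¹ * (k * w * k⁻¹) = k * (w * w) * k⁻¹ := by group
    rw [h2, hww]; group
  · refine ⟨k (e.symm (some (0, 1, 0))), ?_, ?_, ?_⟩
    · rw [← hka]
      intro h1
      have := e.symm.injective (k.injective h1)
      simp at this
    · rw [← hkb]
      intro h1
      have := e.symm.injective (k.injective h1)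
      simp at this
    · rw [Perm.mul_apply, Perm.mul_apply, inv_app, hwx, reeInv_some, neg_zero]
  · intro s hs hsa hsb hs1 hs2
    -- the conjugate fixes the two base points
    have hmem : k⁻¹ * s * k ∈ G := G.mul_mem (G.mul_mem (G.inv_mem hk) hs) hk
    obtain ⟨M, σ, hM⟩ := hup _ hmem
    rw [induced_conj] at hM
    have e0 : (k⁻¹ * s * k) (e.symm none) = e.symm none := by
      rw [Perm.mul_apply, Perm.mul_apply, hka, hsa, ← hka, inv_app]
    have e1 : (k⁻¹ * s * k) (e.symm (some (0, 0, 0))) = e.symm (some (0, 0, 0)) := by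
      rw [Perm.mul_apply, Perm.mul_apply, hkb, hsb, ← hkb, inv_app]
    have h1 := H.unique hM (by rw [Equiv.permCongr_apply, e0, e.apply_symm_apply])
      (by rw [Equiv.permCongr_apply, e1, e.apply_symm_apply]) (by
        intro h2
        apply hs1
        have h3 : k⁻¹ * s * k = 1 := by
          ext1 x
          have h4 := congrArg (fun p : Perm (Option (F × F × F)) => e.symm (p (e x))) h2
          simpa using h4
        have h5 : s = k * (k⁻¹ * s * k) * k⁻¹ := by group
        rw [h5, h3]; group) (by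
        ext1 y
        have h3 : (k⁻¹ * s * k) * (k⁻¹ * s * k) = 1 := by
          have h4 : (k⁻¹ * s * k) * (k⁻¹ * s * k) = k⁻¹ * (s * s) * k := by group
          rw [h4, hs2]; group
        have h5 := congrArg (fun p : Perm X => e (p (e.symm y))) h3
        simpa using h5)
    have h2 : k⁻¹ * s * k = w := by
      ext1 x
      obtain ⟨y, rfl⟩ := e.symm.surjective x
      rw [hwx, ← h1, Equiv.permCongr_apply, e.symm_apply_apply]
    rw [← h2]; group

end Grp

end Pool.Agent.H922.C
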