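import Mathlib
import Pool.Agent.H922.Fin
import Pool.Agent.H922.Br3
import Pool.Agent.H922.Ree4
import Pool.Agent.H922.ExR3
import Pool.Agent.H922.ExNT
import Pool.Agent.H922.NotThree2

set_option autoImplicit false
set_option linter.unusedVariables false
set_option linter.unusedSectionVars false
set_option linter.style.haveILetI false

/-!
# The complete lists of exceptions
-/

namespace Pool.Agent.H922.C

open Equiv MulAction

universe u

section Back

variable {X : Type u} {G : Subgroup (Perm X)} {n : ℕ}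

theorem isGen_of_old {L : List (List ℕ)} (h : GenBetween G n L L) : IsGen G n L := by
  obtain ⟨e, h1, h2⟩ := h
  refine ⟨e.symm, ?_⟩
  rw [gen_eq, Equiv.symm_symm]
  exact le_antisymm h2 h1

theorem inPGL_of_old {q : ℕ} (h : H922.IsPL G q) : InPGL G 2 q := by
  obtain ⟨F, iF, iD, e, hq, h2⟩ := h
  refine ⟨F, iF, fun x => vecL (e.symm x), hq, points_of_equiv e, fun g hg => ?_⟩
  obtain ⟨k, ⟨A, σ, hA⟩, hk⟩ := mem_conjGroup.mp (h2 hg)
  refine ⟨(A : Matrix (Fin 2) (Fin 2) F), σ, induced_of_lineEquiv (points_of_equiv e)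
    fun x => ?_⟩
  rw [lineEquiv_of_equiv, lineEquiv_of_equiv, hk, hA]

end Back

section Two

variable {X : Type u} [Fintype X] [DecidableEq X] {G : Subgroup (Perm X)} {t : ℕ}

theorem affine_prim (htr : TTransitive G 2)
    (h : HasSol G ∧ ((∃ e : X ≃ Fin 16, gen e asL ≤ G) ∨ ∃ e : X ≃ Fin 64, gen e gtL ≤ G)) :
    TPrimitive G 2 ∧ ¬ TSetPrimitive G 2 := by
  obtain ⟨hs, ⟨e, he⟩ | ⟨e, he⟩⟩ := h
  · rw [gen_eq] at he
    exact Is16A6.prim ⟨hs, e.symm, he⟩ htr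
  · rw [gen_eq] at he
    exact Is64G2.prim ⟨hs, e.symm, he⟩ htr

theorem aff2_prim (htr : TTransitive G 2) (h4 : 4 ≤ Nat.card X) (h : IsAff2 G) :
    TPrimitive G 2 ∧ ¬ TSetPrimitive G 2 := by
  rcases h.old with h | h
  · exact h.prim htr h4
  · exact h.prim htr h4

theorem psl_prim (h : IsPSL2 G 3 ∨ IsPSL2 G 5 ∨ IsPSigma2 G 7 ∨ IsPSigma2 G 9 ∨ IsPSigma2 G 11) :
    TPrimitive G 2 ∧ ¬ TSetPrimitive G 2 := by
  have h1 : ListPSL2 G := by
    rcases h with h | h | h | h | h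
    · exact Or.inl h.old
    · exact Or.inr (Or.inl h.old)
    · exact Or.inr (Or.inr (Or.inl h.old))
    · exact Or.inr (Or.inr (Or.inr (Or.inl h.old)))
    · exact Or.inr (Or.inr (Or.inr (Or.inr h.old)))
  obtain ⟨q, hq⟩ := h1.isPSL2
  exact (psl2_result hq).1.mpr h1

theorem IsAL.result {q : ℕ} (h : IsAL G q) :
    (ExcA G 2 ↔ ∃ r, q = 2 ^ r ∧ (2 ^ r - 1).Prime) ∧
    ((5 ≤ q ∧ q.Prime) ∨ (∃ r, r.Prime ∧ q = 2 ^ r ∧ ¬ (2 ^ r - 1).Prime) →
      ExcC G 2 ∧ ExcD G 2) :=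
  (H922.IsAL.result (G := G) h.between).2.2

theorem listA_spec (htr : TTransitive G 2) (h : ListA G 2) :
    TPrimitive G 2 ∧ ¬ TSetPrimitive G 2 := by
  rcases h with ⟨h1, h2⟩ | ⟨-, ⟨r, hr, h⟩ | ⟨h4, h⟩ | h | h | h | h | h | h | h⟩ | ⟨h, -⟩ | ⟨h, -⟩
  · obtain ⟨h3, h4, h5⟩ := alt_result le_rfl htr h2
    exact ⟨h3, fun h => h5.mp h h1⟩
  · exact h.result.1.mpr ⟨r, rfl, hr⟩
  · exact aff2_prim htr h4 h
  · exact affine_prim htr h
  · exact psl_prim (Or.inl h)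
  · exact psl_prim (Or.inr (Or.inl h))
  · exact psl_prim (Or.inr (Or.inr (Or.inl h)))
  · exact psl_prim (Or.inr (Or.inr (Or.inr (Or.inl h))))
  · exact psl_prim (Or.inr (Or.inr (Or.inr (Or.inr h))))
  · exact h.old.prim htr
  · omega
  · omega

theorem listC_spec (h : ListC G 2) :
    TSteinerPrimitive G 2 ∧ ¬ TPrimitive G 2 ∧ ¬ TSetPrimitive G 2 := by
  obtain ⟨q, hq, ⟨-, h⟩ | ⟨h, -⟩⟩ := h
  · have h1 := h.result.2 (by
      rcases hq with ⟨h2, h3⟩ | ⟨r, h2, h3, h4⟩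
      · exact Or.inl ⟨h3, h2⟩
      · exact Or.inr ⟨r, h2, h4, h3⟩)
    exact ⟨h1.1.1, h1.1.2, h1.2.2⟩
  · omega

/-- the classification for `t = 2` -/
theorem two_result (htr : TTransitive G 2) (hG : OnList G) :
    (ExcA G 2 ↔ ListA G 2) ∧ (ExcB G 2 ↔ IsSz G) ∧ (ExcC G 2 ↔ ListC G 2 ∨ IsSz G) ∧
      (ExcD G 2 ↔ ListA G 2 ∨ ListC G 2) := by
  have bA := listA_spec htr
  have bC := listC_spec (G := G)
  have bS : IsSz G → TSetPrimitive G 2 ∧ ¬ TPrimitive G 2 := fun h => h.old.result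
  -- groups which are no exceptions
  have fin : NoExc G 2 → (ExcA G 2 ↔ ListA G 2) ∧ (ExcB G 2 ↔ IsSz G) ∧
      (ExcC G 2 ↔ ListC G 2 ∨ IsSz G) ∧ (ExcD G 2 ↔ ListA G 2 ∨ ListC G 2) := by
    rintro ⟨a1, a2, a3, a4⟩
    exact combine (by norm_num) bA bC bS (fun h => absurd h a1) (fun h => absurd h a2)
      (fun h1 h2 h3 => absurd ⟨h1, h2⟩ a3)
  -- groups of type (a)
  have finA : TPrimitive G 2 → ListA G 2 → (ExcA G 2 ↔ ListA G 2) ∧ (ExcB G 2 ↔ IsSz G) ∧
      (ExcC G 2 ↔ ListC G 2 ∨ IsSz G) ∧ (ExcD G 2 ↔ ListA G 2 ∨ ListC G 2) := by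
    intro h1 h2
    exact combine (by norm_num) bA bC bS (fun _ => h2) (fun h => absurd h1 h.2)
      (fun _ h3 _ => absurd h1 h3)
  have hn2 : 2 ≤ Nat.card X := htr.1
  -- symmetric and alternating groups
  have falt : alternatingGroup X ≤ G → (ExcA G 2 ↔ ListA G 2) ∧ (ExcB G 2 ↔ IsSz G) ∧
      (ExcC G 2 ↔ ListC G 2 ∨ IsSz G) ∧ (ExcD G 2 ↔ ListA G 2 ∨ ListC G 2) := by
    intro h
    obtain ⟨h1, h2, h3⟩ := alt_result le_rfl htr h
    by_cases hn : Nat.card X = 2 * 2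
    · exact finA h1 (Or.inl ⟨hn, h⟩)
    · exact fin (noExc_of_prim h1 (h3.mpr hn))
  -- small degrees
  by_cases hn4 : Nat.card X ≤ 3
  · exact falt (alt_of_small htr (by omega))
  rcases hG with h | h | ⟨n, q, hn, hq, h⟩ | h | h | ⟨q, h⟩ | ⟨n, q, hn, h⟩ | h | h | h | h |
    h | h | h | h | h | h | h | h | h | h | h
  · exact falt h
  · -- nontrivial soluble normal subgroup
    obtain ⟨h1, h2, h3, h4, h5⟩ := soluble_result le_rfl htr (Or.inr h)
    refine combine (by norm_num) bA bC bS ?_ (fun h => absurd h h2) ?_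
    · intro h6
      obtain ⟨F, iF, e, hb⟩ := h5 ⟨h6.1.steiner (by norm_num), h6.2⟩
      obtain ⟨-, r, hr, hp⟩ := h1.mp h6
      exact Or.inr (Or.inl ⟨rfl, Or.inl ⟨r, hp,
        isAL_of_between (by rw [Nat.card_congr e, hr]) hb⟩⟩)
    · intro h6 h7 h8
      obtain ⟨F, iF, e, hb⟩ := h5 ⟨h6, h8⟩
      obtain ⟨-, h9⟩ := h3.mp ⟨h6, h7⟩
      refine ⟨Nat.card X, ?_, Or.inl ⟨rfl, isAL_of_between (Nat.card_congr e) hb⟩⟩
      rcases h9 with ⟨h10, h11⟩ | ⟨r, h10, h11, h12⟩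
      · exact Or.inl ⟨h11, h10⟩
      · exact Or.inr ⟨r, h10, h12, h11⟩
  · exact fin (noExc_of_not_steiner (by norm_num) ((h.isAGL hn hq).not_steiner htr))
  · exact finA (aff2_prim htr (by omega) h).1
      (Or.inr (Or.inl ⟨rfl, Or.inr (Or.inl ⟨by omega, h⟩)⟩))
  · exact finA (affine_prim htr h).1 (Or.inr (Or.inl ⟨rfl, Or.inr (Or.inr (Or.inl h))⟩))
  · obtain ⟨h1, h2, h3, h4⟩ := psl2_result h.old
    refine combine (by norm_num) bA bC bS (fun h6 => ?_) (fun h6 => absurd h6 h2)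
      (fun h6 h7 _ => absurd ⟨h6, h7⟩ h3)
    refine Or.inr (Or.inl ⟨rfl, Or.inr (Or.inr (Or.inr ?_))⟩)
    rcases h1.mp h6 with h7 | h7 | h7 | h7 | h7
    · exact Or.inl (isPSL2_of_old h7)
    · exact Or.inr (Or.inl (isPSL2_of_old h7))
    · exact Or.inr (Or.inr (Or.inl (isPSigma2_of_old h7)))
    · exact Or.inr (Or.inr (Or.inr (Or.inl (isPSigma2_of_old h7))))
    · exact Or.inr (Or.inr (Or.inr (Or.inr (Or.inl (isPSigma2_of_old h7)))))
  · exact fin (noExc_of_not_steiner (by norm_num) ((h.isPGL hn).not_steiner htr))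
  · exact fin (noExc_of_not_steiner (by norm_num) (h.isPGU.not_steiner htr))
  · exact combine (by norm_num) bA bC bS (fun h6 => absurd (bS h).1 h6.2) (fun _ => h)
      (fun _ _ h8 => absurd (bS h).1 h8)
  · exact fin (noExc_of_not_steiner (by norm_num) ((h.old htr).not_steiner htr))
  · exact finA (h.old.prim htr).1 (Or.inr (Or.inl ⟨rfl, Or.inr (Or.inr (Or.inr (Or.inr
      (Or.inr (Or.inr (Or.inr (Or.inr h)))))))⟩))
  · exact fin (GenBetween.both h.old la_two)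
  · exact fin (IsM11.noExc h.old le_rfl htr)
  · exact fin (IsM11x.two h.old)
  · exact fin (IsM12.noExc h.old le_rfl htr)
  · exact fin (IsM22.noExc (isM22_of (Or.inl h)) le_rfl htr)
  · exact fin (IsM22.noExc (isM22_of (Or.inr h)) le_rfl htr)
  · exact fin (IsM23.noExc h.old le_rfl htr)
  · exact fin (IsM24.noExc h.old le_rfl (by norm_num) htr)
  · exact fin (noExc_of_not_steiner (by norm_num) (GenBetween.not_steiner h.old r3_not_steiner))
  · exact fin (GenBetween.both h.old hs_two)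
  · exact fin (GenBetween.both h.old co_two)

theorem IsAff2.hasSol (h : IsAff2 G) (hn : 2 ≤ Nat.card X) : HasSol G := by
  obtain ⟨n, J, e, hJ, h1, h2⟩ := h
  let T : Subgroup G := {
    carrier := {g | ∃ b : Fin n → ZMod 2, ∀ x, e ((g : Perm X) x) = e x + b}
    one_mem' := ⟨0, fun x => by simp⟩
    mul_mem' := by
      rintro g h ⟨b, hb⟩ ⟨d, hd⟩
      refine ⟨d + b, fun x => ?_⟩
      rw [Subgroup.coe_mul, Perm.mul_apply, hb, hd, add_assoc]
    inv_mem' := by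
      rintro g ⟨b, hb⟩
      refine ⟨-b, fun x => ?_⟩
      have := hb ((g : Perm X)⁻¹ x)
      rw [Subgroup.coe_inv]
      have e1 : (g : Perm X) ((g : Perm X)⁻¹ x) = x := by simp
      rw [e1] at this
      rw [this, add_neg_cancel_right] }
  have hT : ∀ g : G, g ∈ T ↔ ∃ b : Fin n → ZMod 2, ∀ x, e ((g : Perm X) x) = e x + b :=
    fun g => Iff.rfl
  refine ⟨T, ⟨fun g hg k => ?_⟩, ?_, ?_⟩
  · obtain ⟨b, hb⟩ := (hT g).mp hg
    obtain ⟨M, c, hM⟩ := h2 _ k.2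
    rw [hT]
    refine ⟨Matrix.mulVec M b, fun x => ?_⟩
    have e1 : ((k * g * k⁻¹ : G) : Perm X) x =
        (k : Perm X) ((g : Perm X) (((k : Perm X)⁻¹) x)) := rfl
    have e2 := hM (((k : Perm X)⁻¹) x)
    have e3 : (k : Perm X) ((k : Perm X)⁻¹ x) = x := by simp
    rw [e3] at e2
    rw [e1, hM, hb, Matrix.mulVec_add, e2]
    abel
  · -- a nonzero translation
    haveI : Nontrivial X := Finite.one_lt_card_iff_nontrivial.mp (by omega)
    obtain ⟨x, y, hxy⟩ := exists_pair_ne X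
    have hb : e x - e y ≠ 0 := by
      rw [sub_ne_zero]
      exact fun h => hxy (e.injective h)
    let k : Perm X := (e.trans (Equiv.addRight (e x - e y))).trans e.symm
    have hk : ∀ z, e (k z) = e z + (e x - e y) := by
      intro z; simp [k]
    have hkG : k ∈ G := h1 1 (e x - e y) k (by simp) (fun z => by
      rw [hk, Matrix.one_mulVec])
    intro hbot
    have h3 : (⟨k, hkG⟩ : G) ∈ T := ⟨e x - e y, hk⟩
    rw [hbot, Subgroup.mem_bot] at h3
    have h4 : k = 1 := congrArg Subtype.val h3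
    have h5 := hk x
    rw [h4, Perm.one_apply] at h5
    exact hb (left_eq_add.mp h5)
  · haveI : IsMulCommutative T := ⟨⟨by
      rintro ⟨g, b, hb⟩ ⟨k, d, hd⟩
      apply Subtype.ext
      apply Subtype.ext
      ext1 x
      apply e.injective
      change e ((g : Perm X) ((k : Perm X) x)) = e ((k : Perm X) ((g : Perm X) x))
      rw [hb, hd, hd, hb]
      abel⟩⟩
    exact Group.isSolvable_of_comm (fun a b => mul_comm' a b)

/-- the 3-transitive groups on the list -/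
theorem OnList.three (htr : TTransitive G 3) (h : OnList G) : H922.OnList3 G := by
  have htr2 : TTransitive G 2 := tTransitive_of_le (by norm_num) htr
  have hns : TSteinerPrimitive G 2 := by
    by_contra hcon
    exact not_trans_of_steiner hcon (m := 3) (by norm_num) htr
  have hn2 : 2 ≤ Nat.card X := htr2.1
  rcases h with h | h | ⟨n, q, hn, hq, h⟩ | h | h | ⟨q, h⟩ | ⟨n, q, hn, h⟩ | h | h | h | h |
    h | h | h | h | h | h | h | h | h | h | h
  · exact Or.inl h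
  · exact Or.inr (Or.inl h.1)
  · exact absurd hns ((h.isAGL hn hq).not_steiner htr2)
  · exact Or.inr (Or.inl (h.hasSol hn2))
  · exact Or.inr (Or.inl h.1)
  · obtain ⟨F, iF, iD, e, hq, h1, h2⟩ := h.old
    refine Or.inr (Or.inr (Or.inl ⟨q, ?_, F, iF, iD, e, hq, h2⟩))
    haveI : Finite (OnePoint F) := Finite.of_equiv X e.symm
    haveI : Finite F := Finite.of_injective (fun x : F => (x : OnePoint F))
      (fun x y h => OnePoint.coe_eq_coe.mp h)
    rw [← hq]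
    exact Nat.card_pos
  · exact absurd hns ((h.isPGL hn).not_steiner htr2)
  · exact absurd hns (h.isPGU.not_steiner htr2)
  · exact absurd (tPrimitive_of_succ_trans htr) h.old.result.2
  · exact absurd hns ((h.old htr2).not_steiner htr2)
  · exact absurd htr h.old.not_three
  · exact absurd (GenBetween.trans h.old htr) la_not_three
  · exact Or.inr (Or.inr (Or.inr (Or.inl h.old)))
  · exact Or.inr (Or.inr (Or.inr (Or.inr (Or.inl h.old))))
  · exact Or.inr (Or.inr (Or.inr (Or.inr (Or.inr (Or.inl h.old)))))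
  · exact Or.inr (Or.inr (Or.inr (Or.inr (Or.inr (Or.inr (Or.inl (isM22_of (Or.inl h))))))))
  · exact Or.inr (Or.inr (Or.inr (Or.inr (Or.inr (Or.inr (Or.inl (isM22_of (Or.inr h))))))))
  · exact Or.inr (Or.inr (Or.inr (Or.inr (Or.inr (Or.inr (Or.inr (Or.inl h.old)))))))
  · exact Or.inr (Or.inr (Or.inr (Or.inr (Or.inr (Or.inr (Or.inr (Or.inr h.old)))))))
  · exact absurd hns (GenBetween.not_steiner h.old r3_not_steiner)
  · exact absurd (GenBetween.trans h.old htr) hs_not_three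
  · exact absurd (GenBetween.trans h.old htr) co_not_three

/-- subgroups of `PΓL(2, q)` -/
theorem InPGL.onList3 {q : ℕ} (h : InPGL G 2 q) : H922.OnList3 G := by
  obtain ⟨F, iF, iD, e, hq, h2⟩ := h.isPL
  refine Or.inr (Or.inr (Or.inl ⟨q, ?_, F, iF, iD, e, hq, h2⟩))
  haveI : Finite (OnePoint F) := Finite.of_equiv X e.symm
  haveI : Finite F := Finite.of_injective (fun x : F => (x : OnePoint F))
    (fun x y h => OnePoint.coe_eq_coe.mp h)
  rw [← hq]
  exact Nat.card_pos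

/-- the classification for `t ≥ 3` -/
theorem three_resultC (ht : 3 ≤ t) (htr : TTransitive G t) (hG : H922.OnList3 G) :
    (ExcA G t ↔ ListA G t) ∧ ¬ ExcB G t ∧ (ExcC G t ↔ ListC G t) ∧
      (ExcD G t ↔ ListA G t ∨ ListC G t) := by
  obtain ⟨h1, h2, h3, h4⟩ := three_result ht htr hG
  have e1 : ListA3 G t ↔ ListA G t := by
    unfold ListA3 ListA
    constructor
    · rintro (⟨h, r, hr, hr', h'⟩ | h | h | h)
      · exact Or.inr (Or.inr (Or.inl ⟨h, Or.inl ⟨r, hr, hr', inPGL_of_old h'⟩⟩))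
      · exact Or.inr (Or.inr (Or.inl ⟨h.1, Or.inr (isGen_of_old h.2)⟩))
      · exact Or.inr (Or.inr (Or.inr ⟨h.1, isGen_of_old h.2⟩))
      · exact Or.inl h
    · rintro (h | ⟨h, -⟩ | ⟨h, ⟨r, hr, hr', h'⟩ | h'⟩ | h)
      · exact Or.inr (Or.inr (Or.inr h))
      · omega
      · exact Or.inl ⟨h, r, hr, hr', h'.isPL⟩
      · exact Or.inr (Or.inl ⟨h, h'.old⟩)
      · exact Or.inr (Or.inr (Or.inl ⟨h.1, h.2.old⟩))
  have e2 : ListC3 G t ↔ ListC G t := by
    unfold ListC3 ListC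
    constructor
    · rintro ⟨ht3, ⟨p, hp, hp5, h⟩ | ⟨r, hr, hr', h⟩⟩
      · exact ⟨p, Or.inl ⟨hp, hp5⟩, Or.inr ⟨ht3, inPGL_of_old h⟩⟩
      · exact ⟨2 ^ r, Or.inr ⟨r, hr, hr', rfl⟩, Or.inr ⟨ht3, inPGL_of_old h⟩⟩
    · rintro ⟨q, hq, ⟨h, -⟩ | ⟨ht3, h⟩⟩
      · omega
      · refine ⟨ht3, ?_⟩
        rcases hq with ⟨h5, h6⟩ | ⟨r, hr, hr', rfl⟩
        · exact Or.inl ⟨q, h5, h6, h.isPL⟩
        · exact Or.inr ⟨r, hr, hr', h.isPL⟩
  rw [e1] at h1
  rw [e2] at h3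
  refine ⟨h1, h2, h3, ?_⟩
  rw [← h1, ← h3]
  constructor
  · rintro ⟨h5, h6⟩
    by_cases h7 : TPrimitive G t
    · exact Or.inl ⟨h7, h6⟩
    · exact Or.inr ⟨h5, h7⟩
  · rintro (⟨h5, h6⟩ | ⟨h5, h6⟩)
    · exact ⟨h5.steiner (by omega), h6⟩
    · exact ⟨h5, fun h7 => h2 ⟨h7, h6⟩⟩

end Two

end Pool.Agent.H922.C
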