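import Mathlib
import Pool.Agent.H922.Chk3
import Pool.Agent.H922.Pair
import Pool.Agent.H922.Quad2

set_option autoImplicit false
set_option linter.style.haveILetI false
set_option linter.unusedVariables false
set_option linter.unusedSectionVars false

/-!
# Groups which are not 3-transitive
-/

namespace Pool.Agent.H922

open Equiv MulAction

section Fam

variable {n : ℕ} {L : List (List ℕ)} {Ps Qs : List ℕ}

/-- check for the count of blocks through two triples -/
def chkCnt (n : ℕ) (Ps : List ℕ) (T : BT) (T1 T2 : ℕ) (As Bs : List ℕ) : Bool :=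
  (allL (fun P => T.all (fun m => T.mem (img P m n))) Ps) &&
  (allL (fun m => (T.mem m) && (Nat.beq (Nat.land m T1) T1) && (Nat.blt m (2 ^ n))) As) &&
  (T.all (fun m => (anyL (fun k => Nat.beq m k) Bs) || !(Nat.beq (Nat.land m T2) T2))) &&
  (Nat.blt T1 (2 ^ n)) && (Nat.blt T2 (2 ^ n)) && (Nat.beq (pop T1 n) 3) &&
  (Nat.beq (pop T2 n) 3) && (Nat.blt Bs.length As.length)

theorem not_three_of_cnt (hgen : chkGens n L Ps Qs = true) {T : BT} {T1 T2 : ℕ}
    {As Bs : List ℕ} (h : chkCnt n Ps T T1 T2 As Bs = true) (hA : As.Nodup) :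
    ¬ TTransitive (genGroup n L) 3 := by
  classical
  intro htr
  unfold chkCnt at h
  simp only [Bool.and_eq_true] at h
  obtain ⟨⟨⟨⟨⟨⟨⟨h1, h2⟩, h3⟩, h4⟩, h5⟩, h6⟩, h7⟩, h8⟩ := h
  rw [Nat.blt_eq] at h4 h5 h8
  rw [Nat.beq_eq] at h6 h7
  have hinv := BT.fam_inv (gens_code hgen) h1
  obtain ⟨g, hg, hgT⟩ := homog_of_trans htr (toSet n T1) (toSet n T2)
    (by rw [card_toSet, h6]) (by rw [card_toSet, h7])
  rw [allL_iff] at h2
  have hA1 : ∀ m ∈ As, T.mem m = true ∧ Nat.land m T1 = T1 ∧ m < 2 ^ n := by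
    intro m hm
    have := h2 m hm
    simp only [Bool.and_eq_true] at this
    obtain ⟨⟨a, b⟩, c⟩ := this
    rw [Nat.beq_eq] at b
    rw [Nat.blt_eq] at c
    exact ⟨a, b, c⟩
  let f : ℕ → Finset (Fin n) := fun m => (toSet n m).map g.toEmbedding
  have hsub : As.toFinset.image f ⊆ Bs.toFinset.image (toSet n) := by
    intro B hB
    rw [Finset.mem_image] at hB
    obtain ⟨m, hm, rfl⟩ := hB
    rw [List.mem_toFinset] at hm
    obtain ⟨a, b, c⟩ := hA1 m hm
    obtain ⟨k, hk, hkB⟩ := hinv g hg (toSet n m) ⟨m, a, rfl⟩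
    have h9 := BT.all_mem (p := fun m => (anyL (fun k => Nat.beq m k) Bs) ||
      !(Nat.beq (Nat.land m T2) T2)) T h3 hk
    have h10 : Nat.land k T2 = T2 := by
      rw [← subset_toSet h5, ← hgT, ← hkB]
      exact Finset.map_subset_map.mpr ((subset_toSet h4).mpr b)
    rw [h10, Bool.or_eq_true, anyL_iff] at h9
    rcases h9 with ⟨k', hk', h11⟩ | h9
    · rw [Nat.beq_eq] at h11
      rw [Finset.mem_image]
      exact ⟨k', List.mem_toFinset.mpr hk', by rw [← h11]; exact hkB.symm⟩
    · simp at h9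
  have hcard := Finset.card_le_card hsub
  rw [Finset.card_image_of_injOn] at hcard
  · have h12 : As.toFinset.card = As.length := List.toFinset_card_of_nodup hA
    have h13 : (Bs.toFinset.image (toSet n)).card ≤ Bs.length :=
      Finset.card_image_le.trans (List.toFinset_card_le Bs)
    omega
  · intro a ha b hb hab
    rw [Finset.mem_coe, List.mem_toFinset] at ha hb
    have h9 : toSet n a = toSet n b := Finset.map_injective _ hab
    exact toSet_inj (hA1 a ha).2.2 (hA1 b hb).2.2 h9

end Fam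

section TwoGraph

variable {n : ℕ} {L : List (List ℕ)} {Ps Qs : List ℕ}

/-- the adjacency relation coded by a number -/
def adjB (n R x y : ℕ) : Bool := Nat.testBit R (Nat.add (Nat.mul x n) y)

/-- the check of one generator `P` with switching set `S` -/
def chkSwitch (n R P S : ℕ) : Bool :=
  allR (fun x => allR (fun y => (Nat.beq x y) ||
    (Bool.xor (Bool.xor (adjB n R (app P x) (app P y)) (adjB n R x y))
      (Bool.xor (Nat.testBit S x) (Nat.testBit S y)) == false)) n) n

/-- parity of a triple -/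
def parB (n R x y z : ℕ) : Bool :=
  Bool.xor (Bool.xor (adjB n R x y) (adjB n R y z)) (adjB n R z x)

theorem chkSwitch_spec {R P S : ℕ} (h : chkSwitch n R P S = true) {g : Perm (Fin n)}
    (hg : ∀ i : Fin n, ((g i : Fin n) : ℕ) = app P i) {x y z : Fin n} (hxy : x ≠ y)
    (hyz : y ≠ z) (hzx : z ≠ x) : parB n R (g x) (g y) (g z) = parB n R x y z := by
  unfold chkSwitch at h
  rw [allR_iff] at h
  have key : ∀ x y : Fin n, x ≠ y → Bool.xor (Bool.xor (adjB n R (g x) (g y)) (adjB n R x y))
      (Bool.xor (Nat.testBit S x) (Nat.testBit S y)) = false := by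
    intro x y hxy
    have h1 := h x x.2
    rw [allR_iff] at h1
    have h2 := h1 y y.2
    rw [Bool.or_eq_true] at h2
    rcases h2 with h2 | h2
    · rw [Nat.beq_eq] at h2
      exact absurd (Fin.ext h2) hxy
    · rw [beq_iff_eq, ← hg, ← hg] at h2
      exact h2
  have k1 := key x y hxy
  have k2 := key y z hyz
  have k3 := key z x hzx
  unfold parB
  generalize adjB n R (g x) (g y) = a1 at *
  generalize adjB n R (g y) (g z) = a2 at *
  generalize adjB n R (g z) (g x) = a3 at *
  generalize adjB n R x y = b1 at *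
  generalize adjB n R y z = b2 at *
  generalize adjB n R z x = b3 at *
  generalize Nat.testBit S x = c1 at *
  generalize Nat.testBit S y = c2 at *
  generalize Nat.testBit S z = c3 at *
  revert a1 a2 a3 b1 b2 b3 c1 c2 c3
  decide

/-- switching check for all generators -/
def chkSw (n R : ℕ) : List ℕ → List ℕ → Bool
  | [], [] => true
  | P :: Ps, S :: Ss => (chkSwitch n R P S) && (chkSw n R Ps Ss)
  | _, _ => false

theorem chkSw_spec {R : ℕ} : ∀ {Ps Ss : List ℕ}, chkSw n R Ps Ss = true → ∀ P ∈ Ps,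
    ∃ S, chkSwitch n R P S = true := by
  intro Ps
  induction Ps with
  | nil => intro Ss _ P hP; simp at hP
  | cons P Ps ih =>
    intro Ss h Q hQ
    cases Ss with
    | nil => simp [chkSw] at h
    | cons S Ss =>
      rw [chkSw, Bool.and_eq_true] at h
      rcases List.mem_cons.mp hQ with rfl | hQ
      · exact ⟨S, h.1⟩
      · exact ih h.2 Q hQ

theorem not_three_of_switch (hgen : chkGens n L Ps Qs = true) {R : ℕ} {Ss : List ℕ}
    (h : chkSw n R Ps Ss = true) {x y z w : Fin n} (hxy : x ≠ y) (hyz : y ≠ z) (hzx : z ≠ x)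
    (hyw : y ≠ w) (hwx : w ≠ x) (hpar : parB n R x y z ≠ parB n R x y w) :
    ¬ TTransitive (genGroup n L) 3 := by
  intro htr
  have hall : ∀ g ∈ genGroup n L, ∀ x y z : Fin n, x ≠ y → y ≠ z → z ≠ x →
      parB n R (g x) (g y) (g z) = parB n R x y z := by
    intro g hg
    refine Subgroup.closure_induction (p := fun g _ => ∀ x y z : Fin n, x ≠ y → y ≠ z → z ≠ x →
      parB n R (g x) (g y) (g z) = parB n R x y z) ?_ ?_ ?_ ?_ hg
    · intro g hg x y z hxy hyz hzx
      obtain ⟨P, hP, hgP⟩ := gens_code hgen g hg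
      obtain ⟨S, hS⟩ := chkSw_spec h P hP
      exact chkSwitch_spec hS hgP hxy hyz hzx
    · intro x y z _ _ _
      rfl
    · intro g k _ _ h1 h2 x y z hxy hyz hzx
      rw [Perm.mul_apply, Perm.mul_apply, Perm.mul_apply,
        h1 _ _ _ (fun h => hxy (k.injective h)) (fun h => hyz (k.injective h))
        (fun h => hzx (k.injective h)), h2 _ _ _ hxy hyz hzx]
    · intro g _ h1 x y z hxy hyz hzx
      have h2 := h1 (g⁻¹ x) (g⁻¹ y) (g⁻¹ z) (fun h => hxy (g⁻¹.injective h))
        (fun h => hyz (g⁻¹.injective h)) (fun h => hzx (g⁻¹.injective h))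
      rw [← h2]
      simp
  obtain ⟨g, hg, hgx⟩ := (multTrans_iff _ 3).mp htr.2 ![x, y, z] ![x, y, w]
    (by
      intro i j hij
      fin_cases i <;> fin_cases j <;> simp_all [Ne.symm])
    (by
      intro i j hij
      fin_cases i <;> fin_cases j <;> simp_all [Ne.symm])
  have h1 := hall g hg x y z hxy hyz hzx
  have e0 : g x = x := hgx 0
  have e1 : g y = y := hgx 1
  have e2 : g z = w := hgx 2
  rw [e0, e1, e2] at h1
  exact hpar h1.symm

end TwoGraph

end Pool.Agent.H922
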